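import Pool.Agent.CRM.Std
import Pool.Agent.CRL.All
import Pool.Agent.CRK.Gdb
import Pool.Agent.CRN.Crg

/-!
Campaign CRM, module Bkl: the criterion for local rings with identity.
-/

set_option autoImplicit false

namespace Pool.Agent.CRM

open Pool.Agent.CRR Pool.Agent.CRN Pool.Agent.CRK Pool.Agent.CRL

theorem thm_Bkl : St_Bkl := by
  intro n p R _ _ hC e he h1e H hH b φ hφ
  obtain ⟨K, hK3, hKper, hKrest⟩ := CRL.tav n p hC.n4 hC.pp
  have h1 := hKper R hC.inM
  obtain ⟨horth, hid, htm, hsub⟩ := hKrest R hC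
  obtain ⟨v₁, hv₁, hne⟩ := hφ.ne
  -- a value with zero entries from 1 + b on
  obtain ⟨v₀, hv₀, hout, hne₀⟩ : ∃ v₀ : ℕ → R, Vec n 1 b v₀ ∧ (∀ i, 1 + b ≤ i → v₀ i = 0) ∧
      φ v₀ ≠ 0 := by
    refine ⟨fun i => if i < 1 + b then v₁ i else 0, ⟨?_, fun k hk => ?_⟩, fun i hi => ?_, ?_⟩
    · have h2 : (fun i : Fin 1 => (fun i : ℕ => if i < 1 + b then v₁ i else 0) i) =
          fun i : Fin 1 => v₁ i := by
        funext i
        have := i.2
        show (if (i : ℕ) < 1 + b then v₁ i else 0) = v₁ i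
        rw [if_pos (by omega)]
      rw [h2]
      exact hv₁.1
    · show Nl (if 1 + k < 1 + b then v₁ (1 + k) else 0)
      rw [if_pos (by omega)]
      exact hv₁.2 k hk
    · show (if i < 1 + b then v₁ i else 0) = 0
      rw [if_neg (by omega)]
    · rw [hφ.dep (fun i => if i < 1 + b then v₁ i else 0) v₁ fun i hi => if_pos hi]
      exact hne
  have hom : om n (v₀ 0) = e := by
    have h2 := (CRL.fpr n p R hC 1 (fun i => v₀ i) hv₀.1).1.prm 0
    rcases he.2.2 (om n (v₀ 0)) h2.1 (h1e _).1 (h1e _).2 with h | h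
    · exact absurd h h2.2.1
    · exact h
  have hHv : Hv n 1 b φ (fun _ => some 0) (fun _ => some 0) v₀ := by
    refine ⟨hv₀, hout, fun k _ => ⟨fun i => ?_, fun j => ?_⟩, hne₀⟩
    · obtain rfl : i = 0 := Subsingleton.elim _ _
      rw [if_pos rfl]
      show om n (v₀ 0) * _ = _
      rw [hom]
      exact (h1e _).1
    · obtain rfl : j = 0 := Subsingleton.elim _ _
      rw [if_pos rfl]
      show _ * om n (v₀ 0) = _
      rw [hom]
      exact (h1e _).2
  obtain ⟨o, ho⟩ := CRL.ore n p R hC 1 (fun i => v₀ i) hv₀.1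
  obtain ⟨g1, g2, g3, g4, g5, g6⟩ :=
    CRL.gvt n p K R hC htm hsub 1 b o (fun _ => some 0) (fun _ => some 0)
  obtain ⟨r1, r2⟩ := CRL.rtn n p K R hC h1 1 b φ _ _ v₀ hHv o ho
  have hfr := CRL.gvf n p K R hC horth hid 1 (fun i => v₀ i) hv₀.1 o ho
  have hvec : ∀ v : ℕ → R, dv n K o v 0 ≠ 0 →
      Vec n 1 b (fun i => gv n K 1 b o (fun _ => some 0) (fun _ => some 0) v i) := by
    intro v hv
    refine ⟨?_, fun k hk => g3 v k hk⟩
    have h2 : (fun i : Fin 1 => gv n K 1 b o (fun _ => some 0) (fun _ => some 0) v i) =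
        fun i : Fin 1 => ta n K v i := by
      funext i
      simp only [gv, i.2, if_true]
    rw [h2]
    refine hfr v fun i => ?_
    obtain rfl : i = 0 := Subsingleton.elim _ _
    exact hv
  refine CRN.thm_Crg R H hH
    (fun v => dv n K o v 0 * φ (fun i => gv n K 1 b o (fun _ => some 0) (fun _ => some 0) v i))
    ?_ ?_ ?_ ?_
  · exact (g5 0).mul (Gdb_comp hφ.tm g1)
  · intro v
    by_cases hv : dv n K o v 0 = 0
    · simp only [hv, zero_mul]
      exact H.zero_mem
    · exact (hH.1 _ _ (hφ.val _ (hvec v hv))).1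
  · refine ⟨v₀, ?_⟩
    have h2 : (fun i => gv n K 1 b o (fun _ => some 0) (fun _ => some 0) v₀ i) = v₀ := funext r1
    have h3 : dv n K o v₀ 0 = om n (v₀ 0) := r2 0
    simp only [h2, h3, hom]
    rw [(h1e _).1]
    exact hne₀
  · intro S hS v hvS
    by_cases hv : dv n K o v 0 = 0
    · simp only [hv, zero_mul]
    · simp only [hφ.van _ (hvec v hv) S hS fun i _ => g2 S v hvS i, mul_zero]

end Pool.Agent.CRM
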