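import Pool.Agent.CRM.St
import Pool.Agent.CRL.All
import Pool.Agent.CRN.Pws

/-!
Campaign CRM, module Cna: two frames agree modulo the radical up to a permutation and powers.
-/

set_option autoImplicit false

namespace Pool.Agent.CRM

open Pool.Agent.CRR Pool.Agent.CRN Pool.Agent.CRK Pool.Agent.CRL

theorem Cna_map {R Q : Type} [NonUnitalRing R] [NonUnitalRing Q] (q : R →ₙ+* Q) (x : R) (m : ℕ) :
    q (pw x m) = pw (q x) m := by
  induction m with
  | zero => rfl
  | succ m ih =>
    show q (pw x m * x) = pw (q x) m * q x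
    rw [map_mul, ih]

theorem Cna_sum {Q : Type} [NonUnitalRing Q] {s : ℕ} (T E : Fin s → Q)
    (hE : ∀ i, E i * T i = T i) (hO : ∀ i j, i ≠ j → E i * T j = 0) (c : Fin s → Q)
    (hc : ∀ i, c i = 0 ∨ ∃ k, c i = pw (T i) k) (j : Fin s) : E j * ∑ i, c i = c j := by
  rw [Finset.mul_sum, Finset.sum_eq_single j]
  · rcases hc j with h | ⟨k, h⟩
    · rw [h, mul_zero]
    · rw [h]
      exact Pws_i1 _ _ (hE j) k
  · intro i _ hij
    rcases hc i with h | ⟨k, h⟩
    · rw [h, mul_zero]
    · rw [h]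
      exact Pws_z1 _ _ (hO j i (Ne.symm hij)) k
  · intro h
    exact absurd (Finset.mem_univ j) h

theorem Cna_sum2 {Q : Type} [NonUnitalRing Q] {s : ℕ} (T E : Fin s → Q)
    (hE : ∀ i, T i * E i = T i) (hO : ∀ i j, i ≠ j → T i * E j = 0) (c : Fin s → Q)
    (hc : ∀ i, c i = 0 ∨ ∃ k, c i = pw (T i) k) (j : Fin s) : (∑ i, c i) * E j = c j := by
  rw [Finset.sum_mul, Finset.sum_eq_single j]
  · rcases hc j with h | ⟨k, h⟩
    · rw [h, zero_mul]
    · rw [h]
      exact Pws_i2 _ _ (hE j) k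
  · intro i _ hij
    rcases hc i with h | ⟨k, h⟩
    · rw [h, zero_mul]
    · rw [h]
      exact Pws_z2 _ _ (hO i j hij) k
  · intro h
    exact absurd (Finset.mem_univ j) h

theorem Cna_comm {Q : Type} [NonUnitalRing Q] (x y : Q) (h : y * x = x * y) (m : ℕ) :
    y * pw x m = pw x m * y := by
  induction m with
  | zero => exact h
  | succ m ih =>
    show y * (pw x m * x) = pw x m * x * y
    rw [← mul_assoc, ih, mul_assoc, mul_assoc, h]

theorem Cna_key {Q : Type} [NonUnitalRing Q] {s s' : ℕ} (T E : Fin s → Q) (T' E' : Fin s' → Q)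
    (hE1 : ∀ i, E i * T i = T i) (hE2 : ∀ i, T i * E i = T i)
    (hO1 : ∀ i j, i ≠ j → E i * T j = 0) (hO2 : ∀ i j, i ≠ j → T i * E j = 0)
    (hI : ∀ i, E i * E i = E i)
    (hE1' : ∀ i, E' i * T' i = T' i) (hE2' : ∀ i, T' i * E' i = T' i)
    (hO1' : ∀ i j, i ≠ j → E' i * T' j = 0)
    (hI' : ∀ i, E' i * E' i = E' i)
    (hp' : ∀ i, ∃ m, E' i = pw (T' i) m) (hne' : ∀ i, T' i ≠ 0)
    (gen : ∀ x, ∃ c : Fin s → Q, (∀ i, c i = 0 ∨ ∃ k, c i = pw (T i) k) ∧ x = ∑ i, c i)
    (gen' : ∀ x, ∃ c : Fin s' → Q, (∀ i, c i = 0 ∨ ∃ k, c i = pw (T' i) k) ∧ x = ∑ i, c i)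
    (i : Fin s') : ∃ j k, T' i = pw (T j) k := by
  obtain ⟨c, hc, hx⟩ := gen (T' i)
  have h1 : ∃ j, c j ≠ 0 := by
    by_contra hno
    push Not at hno
    apply hne' i
    rw [hx]
    exact Finset.sum_eq_zero fun j _ => hno j
  obtain ⟨j, hj⟩ := h1
  have a1 : E j * T' i = c j := by
    rw [hx]
    exact Cna_sum T E hE1 hO1 c hc j
  have a2 : T' i * E j = c j := by
    rw [hx]
    exact Cna_sum2 T E hE2 hO2 c hc j
  obtain ⟨d, hd, hy⟩ := gen' (E j)
  have b1 : E' i * E j = d i := by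
    rw [hy]
    exact Cna_sum T' E' hE1' hO1' d hd i
  obtain ⟨m, hm⟩ := hp' i
  have b2 : E j * E' i = E' i * E j := by
    rw [hm]
    exact Cna_comm _ _ (a1.trans a2.symm) m
  have b3 : d i * d i = d i := by
    rw [← b1]
    calc E' i * E j * (E' i * E j) = E' i * (E j * E' i) * E j := by simp only [mul_assoc]
      _ = E' i * (E' i * E j) * E j := by rw [b2]
      _ = (E' i * E' i) * (E j * E j) := by simp only [mul_assoc]
      _ = E' i * E j := by rw [hI', hI]
  have b4 : T' i * d i = c j := by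
    rw [← b1, ← mul_assoc, hE2', a2]
  have b5 : d i ≠ 0 := by
    intro h0
    apply hj
    rw [← b4, h0, mul_zero]
  have b6 : d i = E' i := by
    rcases hd i with h | ⟨k, h⟩
    · exact absurd h b5
    · have e1 : pw (d i) m = d i := Tei_idem _ b3 m
      have e2 : pw (d i) m = E' i := by
        rw [h, Tei_comm, ← hm]
        exact Tei_idem _ (hI' i) k
      rw [← e1, e2]
  rcases hc j with h | ⟨k, h⟩
  · exact absurd h hj
  · refine ⟨j, k, ?_⟩
    rw [← h, ← b4, b6, hE2']

theorem thm_Cna : St_Cna := by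
  intro n p R _ _ hC s t t' hF hF'
  have hn := hC.n4
  have hR := hC.inM
  obtain ⟨Q, _, _, q, hq, hk, -, -⟩ := quo n hn R hR hC.nt
  obtain ⟨-, f1, f2⟩ := fpr n p R hC s t hF
  obtain ⟨-, f1', f2'⟩ := fpr n p R hC s t' hF'
  have hI : ∀ x : R, q (om n x) * q (om n x) = q (om n x) := by
    intro x
    rw [← map_mul, (thm_Pws n hn R hR x).1]
  have main : ∀ (u v : Fin s → R), Frame R n s u → Frame R n s v → ∀ i, ∃ j k,
      q (v i) = pw (q (u j)) k := by
    intro u v hu hv i
    obtain ⟨-, g1, g2⟩ := fpr n p R hC s u hu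
    obtain ⟨-, g1', g2'⟩ := fpr n p R hC s v hv
    have hgen : ∀ (w : Fin s → R), Frame R n s w → ∀ x : Q, ∃ c : Fin s → Q,
        (∀ i, c i = 0 ∨ ∃ k, c i = pw (q (w i)) k) ∧ x = ∑ i, c i := by
      intro w hw x
      obtain ⟨y, rfl⟩ := hq x
      obtain ⟨c, hc, hnl⟩ := gen n p R hC s w hw y
      refine ⟨fun i => q (c i), ?_, ?_⟩
      · intro i
        rcases hc i with h | ⟨k, h⟩
        · left
          show q (c i) = 0
          rw [h, map_zero]
        · right
          refine ⟨k, ?_⟩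
          show q (c i) = _
          rw [h, Cna_map]
      · have h0 := (hk _).2 hnl
        rw [map_sub, map_sum, sub_eq_zero] at h0
        exact h0
    refine Cna_key (fun i => q (u i)) (fun i => q (om n (u i))) (fun i => q (v i))
      (fun i => q (om n (v i))) ?_ ?_ ?_ ?_ ?_ ?_ ?_ ?_ ?_ ?_ ?_ (hgen u hu) (hgen v hv) i
    · intro i
      show q (om n (u i)) * q (u i) = q (u i)
      rw [← map_mul, (g1 i).2.1]
    · intro i
      show q (u i) * q (om n (u i)) = q (u i)
      rw [← map_mul, (g1 i).1]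
    · intro i j hij
      show q (om n (u i)) * q (u j) = 0
      rw [← map_mul, (g2 i j hij).1, map_zero]
    · intro i j hij
      show q (u i) * q (om n (u j)) = 0
      rw [← map_mul, (g2 i j hij).2, map_zero]
    · intro i
      exact hI _
    · intro i
      show q (om n (v i)) * q (v i) = q (v i)
      rw [← map_mul, (g1' i).2.1]
    · intro i
      show q (v i) * q (om n (v i)) = q (v i)
      rw [← map_mul, (g1' i).1]
    · intro i j hij
      show q (om n (v i)) * q (v j) = 0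
      rw [← map_mul, (g2' i j hij).1, map_zero]
    · intro i
      exact hI _
    · intro i
      exact ⟨3 * (n - 3) - 1, Cna_map q (v i) _⟩
    · intro i h0
      exact (g1' i).2.2.1 ((hk _).1 h0)
  choose π k hπ using main t t' hF hF'
  choose π' k' hπ' using main t' t hF' hF
  have hinv : ∀ i, π' (π i) = i := by
    intro i
    by_contra hne
    apply (f1' i).2.2.1
    have h1 : q (t' i) = pw (pw (q (t' (π' (π i)))) (k' (π i))) (k i) := by
      rw [← hπ' (π i)]
      exact hπ i
    have h2 : q (t' i) * q (t' i) = 0 := by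
      have h3 : q (t' i) * q (t' (π' (π i))) = 0 := by
        rw [← map_mul, hF'.orth _ _ (Ne.symm hne), map_zero]
      have h4 : q (t' i) * pw (pw (q (t' (π' (π i)))) (k' (π i))) (k i) = 0 :=
        Pws_z1 _ _ (Pws_z1 _ _ h3 _) _
      rwa [← h1] at h4
    rw [← hk]
    have h5 : q (t' i) * q (om n (t' i)) = 0 := by
      have h6 : q (om n (t' i)) = pw (q (t' i)) (3 * (n - 3) - 1) := Cna_map q (t' i) _
      rw [h6]
      exact Pws_z1 _ _ h2 _
    rw [← map_mul, (f1' i).1] at h5
    exact h5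
  have hinj : Function.Injective π := Function.LeftInverse.injective hinv
  have hbij : Function.Bijective π := Finite.injective_iff_bijective.1 hinj
  refine ⟨Equiv.ofBijective π hbij, fun i => ⟨⟨k i, ?_⟩, ⟨k' (π i), ?_⟩⟩⟩
  · rw [← hk, map_sub, Cna_map, sub_eq_zero]
    exact hπ i
  · rw [← hk, map_sub, Cna_map, sub_eq_zero]
    have h1 := hπ' (π i)
    rw [hinv i] at h1
    exact h1

end Pool.Agent.CRM
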