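import Pool.Agent.CRM.St
import Pool.Agent.CRN.Pws
import Pool.Agent.CRL.Jil
import Pool.Agent.CRL.Chn
import Pool.Agent.CRL.Snl
import Pool.Agent.CRL.Chi
import Pool.Agent.CRL.Prl
import Pool.Agent.CRL.Quo
import Pool.Agent.CRL.Fpr

/-!
Campaign CRM, module Cnb: congruent frames are conjugate.
-/

set_option autoImplicit false

namespace Pool.Agent.CRM

open Pool.Agent.CRR Pool.Agent.CRN Pool.Agent.CRK Pool.Agent.CRL

section alg

variable {R : Type} [NonUnitalRing R]

/-- left multiplication by `1 + b` -/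
private def Cnbf (b x : R) : R := x + b * x

/-- right multiplication by `1 - b + b b` -/
private def Cnbg (b x : R) : R := x - x * b + x * b * b

/-- Conjugation by `1 + b`, `b b b = 0`. -/
private theorem Cnb_conj (b : R) (hb : b * b * b = 0) : ∃ θ : R ≃+* R,
    ∀ x y : R, x + b * x = y + y * b → θ x = y := by
  have hb3 : ∀ x : R, x * b * b * b = 0 := fun x => by
    rw [mul_assoc, mul_assoc, ← mul_assoc b b b, hb, mul_zero]
  have hb3' : ∀ x : R, b * (b * (b * x)) = 0 := fun x => by
    rw [← mul_assoc b b x, ← mul_assoc b (b * b) x, ← mul_assoc b b b, hb, zero_mul]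
  have hgf : ∀ x y : R, Cnbg b x * Cnbf b y = x * y := by
    intro x y
    simp only [Cnbf, Cnbg, sub_mul, add_mul, mul_add, mul_assoc, hb3', mul_zero]
    abel
  have hgm : ∀ x y : R, Cnbg b (x * y) = x * Cnbg b y := by
    intro x y
    simp only [Cnbg, mul_add, mul_sub, mul_assoc]
  have hfm : ∀ x y : R, Cnbf b x * y = Cnbf b (x * y) := by
    intro x y
    simp only [Cnbf, add_mul, mul_assoc]
  have hga : ∀ x y : R, Cnbg b (x + y) = Cnbg b x + Cnbg b y := by
    intro x y
    simp only [Cnbg, add_mul]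
    abel
  have hfa : ∀ x y : R, Cnbf b (x + y) = Cnbf b x + Cnbf b y := by
    intro x y
    simp only [Cnbf, mul_add]
    abel
  refine ⟨{ toFun := fun x => Cnbg b (Cnbf b x)
            invFun := fun x => (x + x * b) - b * (x + x * b) + b * (b * (x + x * b))
            left_inv := ?_
            right_inv := ?_
            map_mul' := ?_
            map_add' := ?_ }, ?_⟩
  · intro x
    have h1 : ∀ y : R, Cnbg b y + Cnbg b y * b = y := by
      intro y
      simp only [Cnbg, add_mul, sub_mul, hb3]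
      abel
    show (Cnbg b (Cnbf b x) + Cnbg b (Cnbf b x) * b) - b * (Cnbg b (Cnbf b x) + Cnbg b (Cnbf b x) * b)
      + b * (b * (Cnbg b (Cnbf b x) + Cnbg b (Cnbf b x) * b)) = x
    rw [h1]
    simp only [Cnbf, mul_add, hb3']
    abel
  · intro x
    show Cnbg b (Cnbf b ((x + x * b) - b * (x + x * b) + b * (b * (x + x * b)))) = x
    have h1 : ∀ y : R, Cnbf b (y - b * y + b * (b * y)) = y := by
      intro y
      simp only [Cnbf, mul_add, mul_sub, hb3']
      abel
    rw [h1]
    simp only [Cnbg, add_mul, hb3]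
    abel
  · intro x y
    show Cnbg b (Cnbf b (x * y)) = Cnbg b (Cnbf b x) * Cnbg b (Cnbf b y)
    rw [← hgm, hgf, hfm]
  · intro x y
    show Cnbg b (Cnbf b (x + y)) = Cnbg b (Cnbf b x) + Cnbg b (Cnbf b y)
    rw [hfa, hga]
  · intro x y h
    show Cnbg b (Cnbf b x) = y
    have h1 : Cnbf b x = y + y * b := h
    rw [h1]
    simp only [Cnbg, add_mul, hb3]
    abel

/-- The powers of `t` with the idempotent `e` as the zeroth power. -/
private def Cnba (e t : R) : ℕ → R
  | 0 => e
  | k + 1 => pw t k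

private theorem Cnb_a1 {e t : R} (h1 : t * e = t) (h2 : e * t = t) (k : ℕ) :
    Cnba e t k * t = Cnba e t (k + 1) ∧ t * Cnba e t k = Cnba e t (k + 1) := by
  induction k with
  | zero => exact ⟨h2, h1⟩
  | succ k ih =>
    refine ⟨rfl, ?_⟩
    cases k with
    | zero => rfl
    | succ k =>
      have h3 : t * Cnba e t (k + 1) = Cnba e t (k + 2) := ih.2
      show t * (pw t k * t) = pw t (k + 1) * t
      rw [← mul_assoc]
      exact congrArg (· * t) h3

private theorem Cnb_aadd {e t : R} (h1 : t * e = t) (h2 : e * t = t) (he : e * e = e) (k l : ℕ) :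
    Cnba e t k * Cnba e t l = Cnba e t (k + l) := by
  induction l with
  | zero =>
    cases k with
    | zero => exact he
    | succ k =>
      show pw t k * e = pw t k
      cases k with
      | zero => exact h1
      | succ k =>
        show pw t k * t * e = pw t k * t
        rw [mul_assoc, h1]
  | succ l ih =>
    rw [← (Cnb_a1 h1 h2 l).1, ← mul_assoc, ih, (Cnb_a1 h1 h2 (k + l)).1]
    rfl

private theorem Cnb_amul {e t : R} (h1 : t * e = t) (h2 : e * t = t) (he : e * e = e) {m : ℕ}
    (hm : Cnba e t m = e) (q : ℕ) : Cnba e t (m * q) = e := by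
  induction q with
  | zero => rfl
  | succ q ih => rw [Nat.mul_succ, ← Cnb_aadd h1 h2 he, ih, hm, he]

end alg

theorem thm_Cnb : St_Cnb := by
  intro n p R _ _ hC s t t' hF hF' hnl
  obtain ⟨J, hJi, hJ⟩ := (thm_Jil (thm_Chn thm_Prl (thm_Snl thm_Prl) (thm_Chi thm_Prl)))
    n hC.n4 R hC.inM hC.nt
  have hfpr := thm_Fpr (thm_Quo (thm_Jil (thm_Chn thm_Prl (thm_Snl thm_Prl) (thm_Chi thm_Prl))))
  obtain ⟨hP, hA, hO⟩ := hfpr n p R hC s t hF
  obtain ⟨hP', hA', hO'⟩ := hfpr n p R hC s t' hF'
  set e : Fin s → R := fun i => om n (t i) with he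
  set e' : Fin s → R := fun i => om n (t' i) with he'
  have hte : ∀ i, t i * e i = t i := fun i => (hA i).1
  have het : ∀ i, e i * t i = t i := fun i => (hA i).2.1
  have hte' : ∀ i, t' i * e' i = t' i := fun i => (hA' i).1
  have het' : ∀ i, e' i * t' i = t' i := fun i => (hA' i).2.1
  -- the exponents
  have hex : ∀ i, ∃ m, 1 ≤ m ∧ m.Coprime (Nat.card R) ∧ Cnba (e i) (t i) m = e i := by
    intro i
    obtain ⟨m, h1, h2, h3⟩ := hF.per i
    refine ⟨m, h1, h2, ?_⟩
    obtain ⟨k, rfl⟩ : ∃ k, m = k + 1 := ⟨m - 1, by omega⟩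
    exact (hA i).2.2.2 (k + 1) h1 h3
  have hex' : ∀ i, ∃ m, 1 ≤ m ∧ m.Coprime (Nat.card R) ∧ Cnba (e' i) (t' i) m = e' i := by
    intro i
    obtain ⟨m, h1, h2, h3⟩ := hF'.per i
    refine ⟨m, h1, h2, ?_⟩
    obtain ⟨k, rfl⟩ : ∃ k, m = k + 1 := ⟨m - 1, by omega⟩
    exact (hA' i).2.2.2 (k + 1) h1 h3
  have hee : ∀ i, e i * e i = e i := by
    intro i
    obtain ⟨m, h1, -, h3⟩ := hex i
    obtain ⟨k, rfl⟩ : ∃ k, m = k + 1 := ⟨m - 1, by omega⟩
    have h4 : e i = pw (t i) k := h3.symm
    have h5 : ∀ k, e i * pw (t i) k = pw (t i) k := by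
      intro k
      induction k with
      | zero => exact het i
      | succ k ih => show e i * (pw (t i) k * t i) = pw (t i) k * t i; rw [← mul_assoc, ih]
    have h6 := h5 k
    rw [← h4] at h6
    exact h6
  have hee' : ∀ i, e' i * e' i = e' i := by
    intro i
    obtain ⟨m, h1, -, h3⟩ := hex' i
    obtain ⟨k, rfl⟩ : ∃ k, m = k + 1 := ⟨m - 1, by omega⟩
    have h4 : e' i = pw (t' i) k := h3.symm
    have h5 : ∀ k, e' i * pw (t' i) k = pw (t' i) k := by
      intro k
      induction k with
      | zero => exact het' i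
      | succ k ih => show e' i * (pw (t' i) k * t' i) = pw (t' i) k * t' i; rw [← mul_assoc, ih]
    have h6 := h5 k
    rw [← h4] at h6
    exact h6
  choose m1 hm1 hm1c hm1e using hex
  choose m2 hm2 hm2c hm2e using hex'
  set M : ℕ := (∏ i, m1 i) * ∏ i, m2 i with hM
  have hMc : M.Coprime (Nat.card R) :=
    (Nat.Coprime.prod_left fun i _ => hm1c i).mul_left (Nat.Coprime.prod_left fun i _ => hm2c i)
  have hMe : ∀ i, Cnba (e i) (t i) M = e i := by
    intro i
    obtain ⟨q, hq⟩ : m1 i ∣ M := (Finset.dvd_prod_of_mem m1 (Finset.mem_univ i)).mul_right _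
    rw [hq]
    exact Cnb_amul (hte i) (het i) (hee i) (hm1e i) q
  have hMe' : ∀ i, Cnba (e' i) (t' i) M = e' i := by
    intro i
    obtain ⟨q, hq⟩ : m2 i ∣ M := (Finset.dvd_prod_of_mem m2 (Finset.mem_univ i)).mul_left _
    rw [hq]
    exact Cnb_amul (hte' i) (het' i) (hee' i) (hm2e i) q
  have hM1 : 1 ≤ M := by
    have h1 : 0 < ∏ i, m1 i := Finset.prod_pos fun i _ => hm1 i
    have h2 : 0 < ∏ i, m2 i := Finset.prod_pos fun i _ => hm2 i
    exact Nat.mul_pos h1 h2
  -- the sums
  set S : Fin s → R := fun i =>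
    ∑ k ∈ Finset.range M, Cnba (e i) (t i) (M - k) * Cnba (e' i) (t' i) k with hS
  have hTS : ∀ i, t i * S i = S i * t' i := by
    intro i
    set h : ℕ → R := fun k => Cnba (e i) (t i) (M + 1 - k) * Cnba (e' i) (t' i) k with hh
    have h1 : t i * S i = ∑ k ∈ Finset.range M, h k := by
      rw [hS, Finset.mul_sum]
      refine Finset.sum_congr rfl fun k hk => ?_
      have hk' := Finset.mem_range.1 hk
      rw [← mul_assoc, (Cnb_a1 (hte i) (het i) (M - k)).2, hh]
      show _ = Cnba (e i) (t i) (M + 1 - k) * Cnba (e' i) (t' i) k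
      rw [show M + 1 - k = M - k + 1 by omega]
    have h2 : S i * t' i = ∑ k ∈ Finset.range M, h (k + 1) := by
      rw [hS, Finset.sum_mul]
      refine Finset.sum_congr rfl fun k hk => ?_
      rw [mul_assoc, (Cnb_a1 (hte' i) (het' i) k).1, hh]
      show _ = Cnba (e i) (t i) (M + 1 - (k + 1)) * Cnba (e' i) (t' i) (k + 1)
      rw [show M + 1 - (k + 1) = M - k by omega]
    have h3 : h 0 = h M := by
      show Cnba (e i) (t i) (M + 1) * Cnba (e' i) (t' i) 0
        = Cnba (e i) (t i) (M + 1 - M) * Cnba (e' i) (t' i) M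
      rw [hMe', show M + 1 - M = 1 by omega, ← (Cnb_a1 (hte i) (het i) M).2, hMe, hte]
      rfl
    rw [h1, h2]
    have h4 := Finset.sum_range_succ h M
    have h5 := Finset.sum_range_succ' h M
    rw [h4, h3] at h5
    exact add_right_cancel h5
  -- orthogonality
  have ho1 : ∀ i j, i ≠ j → ∀ l, t i * Cnba (e j) (t j) l = 0 := by
    intro i j hij l
    cases l with
    | zero => exact (hO i j hij).2
    | succ l =>
      show t i * pw (t j) l = 0
      induction l with
      | zero => exact hF.orth i j hij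
      | succ l ih => show t i * (pw (t j) l * t j) = 0; rw [← mul_assoc, ih, zero_mul]
  have ho2 : ∀ i j, i ≠ j → ∀ l, Cnba (e' j) (t' j) l * t' i = 0 := by
    intro i j hij l
    cases l with
    | zero => exact (hO' j i hij.symm).1
    | succ l =>
      show pw (t' j) l * t' i = 0
      cases l with
      | zero => exact hF'.orth j i hij.symm
      | succ l =>
        show pw (t' j) l * t' j * t' i = 0
        rw [mul_assoc, hF'.orth j i hij.symm, mul_zero]
  have hoe : ∀ i j, i ≠ j → e i * e j = 0 := by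
    intro i j hij
    have h1 : e i * t j = 0 := (hO i j hij).1
    have h2 : ∀ l, e i * Cnba (e j) (t j) (l + 1) = 0 := by
      intro l
      show e i * pw (t j) l = 0
      induction l with
      | zero => exact h1
      | succ l ih => show e i * (pw (t j) l * t j) = 0; rw [← mul_assoc, ih, zero_mul]
    obtain ⟨k, hk⟩ : ∃ k, M = k + 1 := ⟨M - 1, by omega⟩
    have h3 := h2 k
    rw [← hk, hMe] at h3
    exact h3
  -- the congruences modulo `J`
  have hcg : ∀ i k, Cnba (e' i) (t' i) (k + 1) - Cnba (e i) (t i) (k + 1) ∈ J := by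
    intro i k
    show pw (t' i) k - pw (t i) k ∈ J
    induction k with
    | zero => exact (hJ _).2 (hnl i)
    | succ k ih =>
      have h1 : pw (t' i) (k + 1) - pw (t i) (k + 1)
          = (pw (t' i) k - pw (t i) k) * t' i + pw (t i) k * (t' i - t i) := by
        show pw (t' i) k * t' i - pw (t i) k * t i = _
        rw [sub_mul, mul_sub]
        abel
      rw [h1]
      exact J.add_mem (hJi _ _ ih).2 (hJi _ _ ((hJ _).2 (hnl i))).1
  have hcge : ∀ i, e' i - e i ∈ J := by
    intro i
    obtain ⟨k, hk⟩ : ∃ k, M = k + 1 := ⟨M - 1, by omega⟩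
    have h1 := hcg i k
    rw [← hk, hMe, hMe'] at h1
    exact h1
  have hcga : ∀ i k, Cnba (e' i) (t' i) k - Cnba (e i) (t i) k ∈ J := by
    intro i k
    cases k with
    | zero => exact hcge i
    | succ k => exact hcg i k
  have hSJ : ∀ i, S i - M • e i ∈ J := by
    intro i
    have h1 : S i - M • e i = ∑ k ∈ Finset.range M,
        (Cnba (e i) (t i) (M - k) * Cnba (e' i) (t' i) k - e i) := by
      rw [Finset.sum_sub_distrib, Finset.sum_const, Finset.card_range]
    rw [h1]
    refine J.sum_mem fun k hk => ?_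
    have hk' := Finset.mem_range.1 hk
    have h2 : Cnba (e i) (t i) (M - k) * Cnba (e i) (t i) k = e i := by
      rw [Cnb_aadd (hte i) (het i) (hee i), Nat.sub_add_cancel hk'.le, hMe]
    have h3 : Cnba (e i) (t i) (M - k) * Cnba (e' i) (t' i) k - e i
        = Cnba (e i) (t i) (M - k) * (Cnba (e' i) (t' i) k - Cnba (e i) (t i) k) := by
      rw [mul_sub, h2]
    rw [h3]
    exact (hJi _ _ (hcga i k)).1
  -- the inverse of `M`
  obtain ⟨c, hc⟩ : ∃ c : ℤ, ∀ x : R, c • (M • x) = x := by
    obtain ⟨c, w, hcw⟩ : ∃ c w : ℤ, (M : ℤ) * c + Nat.card R * w = 1 := by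
      have h1 := Nat.gcd_eq_gcd_ab M (Nat.card R)
      rw [hMc] at h1
      exact ⟨_, _, h1.symm⟩
    refine ⟨c, fun x => ?_⟩
    have h2 : (Nat.card R : ℤ) • x = 0 := by
      rw [natCast_zsmul]
      exact card_nsmul_eq_zero'
    have h3 : c • (M • x) = ((M : ℤ) * c) • x := by
      rw [← natCast_zsmul x M, ← mul_zsmul, mul_comm]
    have h4 : ((M : ℤ) * c) • x = ((M : ℤ) * c + Nat.card R * w) • x := by
      rw [add_zsmul, mul_comm (Nat.card R : ℤ) w, mul_zsmul x w, h2, zsmul_zero, add_zero]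
    rw [h3, h4, hcw, one_zsmul]
  set E : R := ∑ i, e i with hE
  set E' : R := ∑ i, e' i with hE'
  set b : R := E * E' - E - E' + c • ∑ i, S i with hb
  have hEE : E * E = E := by
    rw [hE, Finset.sum_mul]
    refine Finset.sum_congr rfl fun i _ => ?_
    rw [Finset.mul_sum, Finset.sum_eq_single i, hee]
    · intro j _ hj
      exact hoe i j hj.symm
    · intro h
      exact absurd (Finset.mem_univ i) h
  have hEJ : E' - E ∈ J := by
    rw [hE, hE', ← Finset.sum_sub_distrib]
    exact J.sum_mem fun i _ => hcge i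
  have hbJ : b ∈ J := by
    have h1 : b = E * (E' - E) - (E' - E) + c • ∑ i, (S i - M • e i) := by
      rw [Finset.sum_sub_distrib, smul_sub, ← Finset.smul_sum, ← hE, hc, mul_sub, hEE, hb]
      abel
    rw [h1]
    exact J.add_mem (J.sub_mem (hJi _ _ hEJ).1 hEJ)
      (J.zsmul_mem (J.sum_mem fun i _ => hSJ i) c)
  have hb3 : b * b * b = 0 := (hJ b).1 hbJ
  obtain ⟨θ, hθ⟩ := Cnb_conj b hb3
  refine ⟨θ, fun i => hθ _ _ ?_⟩
  have h1 : E' * t' i = t' i := by
    rw [hE', Finset.sum_mul, Finset.sum_eq_single i, het']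
    · intro j _ hj
      exact ho2 i j hj.symm 0
    · intro h
      exact absurd (Finset.mem_univ i) h
  have h2 : t i * E = t i := by
    rw [hE, Finset.mul_sum, Finset.sum_eq_single i, hte]
    · intro j _ hj
      exact ho1 i j hj.symm 0
    · intro h
      exact absurd (Finset.mem_univ i) h
  have h3 : (∑ j, S j) * t' i = S i * t' i := by
    rw [Finset.sum_mul, Finset.sum_eq_single i]
    · intro j _ hj
      rw [hS, Finset.sum_mul]
      refine Finset.sum_eq_zero fun k _ => ?_
      rw [mul_assoc, ho2 i j hj.symm, mul_zero]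
    · intro h
      exact absurd (Finset.mem_univ i) h
  have h4 : t i * ∑ j, S j = t i * S i := by
    rw [Finset.mul_sum, Finset.sum_eq_single i]
    · intro j _ hj
      rw [hS, Finset.mul_sum]
      refine Finset.sum_eq_zero fun k _ => ?_
      rw [← mul_assoc, ho1 i j hj.symm, zero_mul]
    · intro h
      exact absurd (Finset.mem_univ i) h
  have h5 : b * t' i = -t' i + c • (S i * t' i) := by
    rw [hb, add_mul, sub_mul, sub_mul, mul_assoc, h1, smul_mul_assoc, h3]
    abel
  have h6 : t i * b = -t i + c • (t i * S i) := by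
    rw [hb, mul_add, mul_sub, mul_sub, ← mul_assoc, h2, mul_smul_comm, h4]
    abel
  rw [h5, h6, hTS]
  abel

end Pool.Agent.CRM
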