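import Pool.Agent.CRM.St
import Pool.Agent.CRL.All

/-!
Campaign CRM, module Cnj (from St_Cna, St_Cnb): two frames are conjugate up to powers (helper52).
-/

set_option autoImplicit false

namespace Pool.Agent.CRM

open Pool.Agent.CRR Pool.Agent.CRN Pool.Agent.CRK Pool.Agent.CRL

theorem Cnj_zr {R : Type} [NonUnitalRing R] {x y : R} (h : x * y = 0) (b : ℕ) :
    x * pw y b = 0 := by
  induction b with
  | zero => exact h
  | succ b ih =>
    show x * (pw y b * y) = 0
    rw [← mul_assoc, ih, zero_mul]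

theorem Cnj_zl {R : Type} [NonUnitalRing R] {x y : R} (h : x * y = 0) (a : ℕ) :
    pw x a * y = 0 := by
  cases a with
  | zero => exact h
  | succ a =>
    show pw x a * x * y = 0
    rw [mul_assoc, h, mul_zero]

theorem Cnj_om {n : ℕ} (hn : 4 ≤ n) {R : Type} [NonUnitalRing R] (hR : InM n R) {x : R} {m : ℕ}
    (hm : 1 ≤ m) (hx : pw x m = x) : x * om n x = x ∧ om n x * x = x := by
  obtain ⟨_, h2, h3, _⟩ := thm_Pws n hn R hR x
  have e1 : pw x (3 * m) = x := by
    have : 3 * m = m + (m + m) := by ring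
    rw [this, Tei_add x m _ hx, Tei_add x m _ hx]
    exact hx
  have e2 : pw x (3 * m - 3) * pw x 2 = x := by
    rw [Pws_mul]
    have : 3 * m - 3 + 2 + 1 = 3 * m := by omega
    rw [this]
    exact e1
  have e3 : pw x 2 * om n x = pw x 2 := h3
  have e4 : x * om n x = x := by
    calc x * om n x = pw x (3 * m - 3) * pw x 2 * om n x := by rw [e2]
      _ = pw x (3 * m - 3) * (pw x 2 * om n x) := mul_assoc _ _ _
      _ = x := by rw [e3, e2]
  exact ⟨e4, by rw [← h2]; exact e4⟩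

theorem Cnj_bin {R : Type} [NonUnitalRing R] {e j : R} (he : e * e = e) (h1 : e * j = j)
    (h2 : j * e = j) (h3 : j * j * j = 0) (k : ℕ) :
    pw (e + j) k = e + (k + 1) • j + (k + 1).choose 2 • (j * j) := by
  induction k with
  | zero =>
    show e + j = _
    simp
  | succ k ih =>
    show pw (e + j) k * (e + j) = _
    rw [ih]
    have e1 : (k + 1 + 1).choose 2 = (k + 1) + (k + 1).choose 2 := by
      rw [Nat.choose_succ_succ' (k + 1) 1, Nat.choose_one_right]
    have e2 : j * j * e = j * j := by rw [mul_assoc, h2]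
    rw [e1]
    simp only [add_mul, mul_add, smul_mul_assoc, he, h1, h2, h3, e2, smul_zero, add_smul, one_smul]
    abel

theorem Cnj_cop {R : Type} [NonUnitalRing R] [Finite R] {m : ℕ} (hm : m.Coprime (Nat.card R))
    {x : R} (h : m • x = 0) : x = 0 := by
  have h1 : addOrderOf x ∣ m := addOrderOf_dvd_iff_nsmul_eq_zero.2 h
  have h2 : addOrderOf x ∣ Nat.card R := addOrderOf_dvd_natCard x
  have h3 : addOrderOf x ∣ 1 := by
    rw [← Nat.Coprime.gcd_eq_one hm]
    exact Nat.dvd_gcd h1 h2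
  exact AddMonoid.addOrderOf_eq_one_iff.1 (Nat.dvd_one.1 h3)

/-- Two powers of `u` which are congruent modulo the radical are equal. -/
theorem Cnj_eq {n : ℕ} (hn : 4 ≤ n) {R : Type} [NonUnitalRing R] [Finite R] (hR : InM n R)
    {Q : Type} [NonUnitalRing Q] (q : R →ₙ+* Q) (hq : ∀ x, q x = 0 ↔ Nl x) {u : R} {m K : ℕ}
    (hm : 1 ≤ m) (hc : m.Coprime (Nat.card R)) (hu : pw u m = u) (hom : pw u (m - 1) = om n u)
    (hK : q u = q (pw u K)) : u = pw u K := by
  obtain ⟨o1, o2⟩ := Cnj_om hn hR hm hu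
  obtain ⟨oi, _⟩ := thm_Pws n hn R hR u
  obtain ⟨e, he⟩ : ∃ e, e = om n u := ⟨_, rfl⟩
  rw [← he] at o1 o2 oi hom
  obtain ⟨g, hg⟩ : ∃ g, g = pw u (2 * m - 2) * pw u K := ⟨_, rfl⟩
  have hg' : g = pw u (2 * m - 2 + K + 1) := by rw [hg, Pws_mul]
  have hem : pw u (2 * m - 1) = e := by
    have : 2 * m - 1 = m + (m - 1) := by omega
    rw [this, Tei_add u m _ hu, hom]
  have hgm : pw g (m - 1) = e := by
    rw [hg', Tei_comm, hom, Tei_idem e oi]
  have hge : e * g = g := by rw [hg']; exact Frt_pw_l e u o2 _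
  have hge' : g * e = g := by rw [hg']; exact Frt_pw_r e u o1 _
  have hqg : q g = q e := by
    rw [hg, map_mul, ← hK, ← map_mul]
    have : pw u (2 * m - 2) * u = pw u (2 * m - 1) := by
      have h : 2 * m - 1 = 2 * m - 2 + 1 := by omega
      rw [h]
      rfl
    rw [this, hem]
  obtain ⟨j, hj⟩ : ∃ j, j = g - e := ⟨_, rfl⟩
  have hjn : Nl j := by
    rw [← hq, hj, map_sub, hqg, sub_self]
  have hj1 : e * j = j := by rw [hj, mul_sub, hge, oi]
  have hj2 : j * e = j := by rw [hj, sub_mul, hge', oi]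
  have hgj : g = e + j := by rw [hj]; abel
  have hb := Cnj_bin oi hj1 hj2 hjn (m - 1)
  rw [← hgj, hgm, Nat.sub_add_cancel hm, add_assoc] at hb
  have hb0 : m • j + m.choose 2 • (j * j) = 0 := by
    have := left_eq_add.1 hb
    exact this
  have hb1 : m • (j * j) = 0 := by
    have h : (m • j + m.choose 2 • (j * j)) * j = 0 := by rw [hb0, zero_mul]
    rw [add_mul, smul_mul_assoc, smul_mul_assoc, hjn, smul_zero, add_zero] at h
    exact h
  have hb2 := Cnj_cop hc hb1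
  rw [hb2, smul_zero, add_zero] at hb0
  have hb3 := Cnj_cop hc hb0
  rw [hb3, add_zero] at hgj
  have h1 : u * g = u := by rw [hgj, o1]
  have h2 : u * g = pw u K := by
    rw [hg, ← mul_assoc, ← Frt_comm]
    have : pw u (2 * m - 2) * u = pw u (2 * m - 1) := by
      have h : 2 * m - 1 = 2 * m - 2 + 1 := by omega
      rw [h]
      rfl
    rw [this, hem]
    exact Frt_pw_l e u o2 K
  exact h1.symm.trans h2

theorem thm_Cnj (hCna : St_Cna) (hCnb : St_Cnb) : St_Cnj := by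
  intro n p R _ _ hcy s t t' ht ht'
  obtain ⟨π, hπ⟩ := hCna n p R hcy s t t' ht ht'
  obtain ⟨Q, _, _, q, _, hq, _, _⟩ := quo n hcy.n4 R hcy.inM hcy.nt
  choose k hk using fun i => (hπ i).1
  choose l hl using fun i => (hπ i).2
  obtain ⟨τ, hτ⟩ : ∃ τ : Fin s → R, ∀ i, τ i = pw (t (π i)) (k i) := ⟨_, fun _ => rfl⟩
  obtain ⟨_, f2, _⟩ := fpr n p R hcy s t ht
  obtain ⟨_, f2', _⟩ := fpr n p R hcy s t' ht'
  obtain ⟨o, ho⟩ := ore n p R hcy s t' ht'
  have hqm : ∀ (x : R) (j : ℕ), q (pw x j) = pw (q x) j := fun x j => pw_map q x j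
  have hqo : ∀ x : R, q (om n x) = om n (q x) := fun x => pw_map q x _
  have hqt : ∀ i, q (t' i) = q (τ i) := by
    intro i
    rw [← sub_eq_zero, ← map_sub, hq, hτ]
    exact hk i
  have hper : ∀ i, ∃ m, 1 ≤ m ∧ m.Coprime (Nat.card R) ∧ pw (τ i) m = τ i := by
    intro i
    obtain ⟨m, m1, m2, m3⟩ := ht.per (π i)
    refine ⟨m, m1, m2, ?_⟩
    rw [hτ, Tei_comm, m3]
  have hfr : Frame R n s τ := by
    refine frt n p R hcy s t' ht' (fun i => o i) ho τ ?_ ?_ ?_ ?_ hper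
    · intro i j hij
      rw [hτ, hτ]
      exact Cnj_zr (Cnj_zl (ht.orth _ _ fun h => hij (π.injective h)) _) _
    · intro i
      obtain ⟨m, m1, _, m3⟩ := hper i
      exact (Cnj_om hcy.n4 hcy.inM m1 m3).1
    · intro i h
      apply (f2' i).2.2.1
      rw [← hq, hqt, hq]
      exact h
    · intro i c h1 h2 h
      apply (ho i).min c h1 h2
      rw [← hq, map_sub, hqm, hqo] at h ⊢
      rw [hqt]
      exact h
  obtain ⟨θ, hθ⟩ := hCnb n p R hcy s τ t' hfr ht' fun i => by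
    rw [hτ]
    exact hk i
  refine ⟨θ, π, fun i => ⟨⟨k i, by rw [hθ, hτ]⟩, ⟨l i, ?_⟩, ?_⟩⟩
  · obtain ⟨m, m1, m2, m3⟩ := ht.per (π i)
    have h1 : pw (θ (t' i)) (l i) = pw (t (π i)) (k i + l i * (k i + 1)) := by
      rw [hθ, hτ, Tei_pp]
    rw [h1]
    refine Cnj_eq hcy.n4 hcy.inM q hq m1 m2 m3 ((f2 (π i)).2.2.2 m m1 m3) ?_
    have h2 := hl i
    rw [← hq, map_sub, sub_eq_zero, hqm, hqt, ← hqm] at h2
    rw [h2, hτ, Tei_pp]
  · rw [hθ, hτ]
    show pw (pw (t (π i)) (k i)) (3 * (n - 3) - 1) = _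
    rw [Tei_comm]
    exact Tei_idem _ (thm_Pws n hcy.n4 R hcy.inM _).1 _

end Pool.Agent.CRM
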