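import Pool.Agent.CRM.Stc
import Pool.Agent.CRL.All

/-!
Campaign CRM, module CVE: the rings of type E are critical (helper36).
-/

set_option autoImplicit false

namespace Pool.Agent.CRM

open Pool.Agent.CRR Pool.Agent.CRN Pool.Agent.CRK Pool.Agent.CRL

section cve

variable {R : Type} [NonUnitalRing R] {s : ℕ}

/-- component from the left -/
def CveL (e : Fin s → R) (a : Option (Fin s)) (x : R) : R :=
  match a with
  | some i => e i * x
  | none => x - ∑ i, e i * x

/-- component from the right -/
def CveR (e : Fin s → R) (a : Option (Fin s)) (x : R) : R :=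
  match a with
  | some i => x * e i
  | none => x - ∑ i, x * e i

/-- the component -/
def CveC (e : Fin s → R) (a b : Option (Fin s)) (x : R) : R := CveR e b (CveL e a x)

theorem CveL_none (e : Fin s → R) (x : R) : CveL e none x = x - ∑ i, e i * x := rfl

theorem CveL_some (e : Fin s → R) (i : Fin s) (x : R) : CveL e (some i) x = e i * x := rfl

theorem CveR_none (e : Fin s → R) (x : R) : CveR e none x = x - ∑ i, x * e i := rfl

theorem CveR_some (e : Fin s → R) (i : Fin s) (x : R) : CveR e (some i) x = x * e i := rfl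

theorem CveL_mul (e : Fin s → R) (a : Option (Fin s)) (x y : R) :
    CveL e a (x * y) = CveL e a x * y := by
  cases a with
  | some i => rw [CveL_some, CveL_some, mul_assoc]
  | none =>
    rw [CveL_none, CveL_none, sub_mul, Finset.sum_mul]
    congr 1
    exact Finset.sum_congr rfl fun i _ => (mul_assoc _ _ _).symm

theorem CveR_mul (e : Fin s → R) (a : Option (Fin s)) (x y : R) :
    CveR e a (x * y) = x * CveR e a y := by
  cases a with
  | some i => rw [CveR_some, CveR_some, mul_assoc]
  | none =>
    rw [CveR_none, CveR_none, mul_sub, Finset.mul_sum]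
    congr 1
    exact Finset.sum_congr rfl fun i _ => mul_assoc _ _ _

theorem CveL_add (e : Fin s → R) (a : Option (Fin s)) (x y : R) :
    CveL e a (x + y) = CveL e a x + CveL e a y := by
  cases a with
  | some i => exact mul_add _ _ _
  | none =>
    have h1 : ∑ i, e i * (x + y) = ∑ i, e i * x + ∑ i, e i * y := by
      rw [← Finset.sum_add_distrib]
      exact Finset.sum_congr rfl fun i _ => mul_add (e i) x y
    rw [CveL_none, CveL_none, CveL_none, h1]
    abel

theorem CveR_add (e : Fin s → R) (a : Option (Fin s)) (x y : R) :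
    CveR e a (x + y) = CveR e a x + CveR e a y := by
  cases a with
  | some i => exact add_mul _ _ _
  | none =>
    have h1 : ∑ i, (x + y) * e i = ∑ i, x * e i + ∑ i, y * e i := by
      rw [← Finset.sum_add_distrib]
      exact Finset.sum_congr rfl fun i _ => add_mul x y (e i)
    rw [CveR_none, CveR_none, CveR_none, h1]
    abel

/-- the component as an additive map -/
def CveA (e : Fin s → R) (a b : Option (Fin s)) : R →+ R where
  toFun x := CveC e a b x
  map_zero' := by
    have h : CveC e a b (0 + 0) = CveC e a b 0 + CveC e a b 0 := by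
      unfold CveC
      rw [CveL_add, CveR_add]
    rw [add_zero] at h
    exact left_eq_add.1 h
  map_add' x y := by
    show CveR e b (CveL e a (x + y)) = CveR e b (CveL e a x) + CveR e b (CveL e a y)
    rw [CveL_add, CveR_add]

theorem CveLR (e : Fin s → R) (a b : Option (Fin s)) (x : R) :
    CveL e a (CveR e b x) = CveR e b (CveL e a x) := by
  cases a with
  | some i => rw [CveL_some, CveL_some, CveR_mul]
  | none =>
    cases b with
    | some j => rw [CveR_some, CveR_some, CveL_mul]
    | none =>
      rw [CveR_none, CveL_none, CveL_none, CveR_none]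
      have h1 : ∑ i, e i * (x - ∑ j, x * e j) = ∑ i, e i * x - ∑ i, ∑ j, e i * x * e j := by
        rw [← Finset.sum_sub_distrib]
        refine Finset.sum_congr rfl fun i _ => ?_
        rw [mul_sub, Finset.mul_sum]
        congr 1
        exact Finset.sum_congr rfl fun j _ => (mul_assoc _ _ _).symm
      have h2 : ∑ j, (x - ∑ i, e i * x) * e j = ∑ j, x * e j - ∑ j, ∑ i, e i * x * e j := by
        rw [← Finset.sum_sub_distrib]
        refine Finset.sum_congr rfl fun i _ => ?_
        rw [sub_mul, Finset.sum_mul]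
      rw [h1, h2, Finset.sum_comm]
      abel

/-- left part of `Pc` for the component from the left -/
theorem CveL_pc {e : Fin s → R} (he : ∀ i, e i * e i = e i) (ho : ∀ i j, i ≠ j → e i * e j = 0)
    (a : Option (Fin s)) (x : R) (i : Fin s) :
    e i * CveL e a x = if a = some i then CveL e a x else 0 := by
  cases a with
  | some j =>
    rw [CveL_some, ← mul_assoc]
    by_cases h : j = i
    · rw [h, he, if_pos rfl]
    · rw [ho i j (Ne.symm h), zero_mul, if_neg fun hc => h (Option.some.inj hc)]
  | none =>
    rw [if_neg (by simp), CveL_none, mul_sub, Finset.mul_sum, Finset.sum_eq_single i,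
      ← mul_assoc, he, sub_self]
    · intro j _ hj
      rw [← mul_assoc, ho i j (Ne.symm hj), zero_mul]
    · intro h
      exact absurd (Finset.mem_univ i) h

theorem CveR_pc {e : Fin s → R} (he : ∀ i, e i * e i = e i) (ho : ∀ i j, i ≠ j → e i * e j = 0)
    (a : Option (Fin s)) (x : R) (i : Fin s) :
    CveR e a x * e i = if a = some i then CveR e a x else 0 := by
  cases a with
  | some j =>
    rw [CveR_some, mul_assoc]
    by_cases h : j = i
    · rw [h, he, if_pos rfl]
    · rw [ho j i h, mul_zero, if_neg fun hc => h (Option.some.inj hc)]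
  | none =>
    rw [if_neg (by simp), CveR_none, sub_mul, Finset.sum_mul, Finset.sum_eq_single i,
      mul_assoc, he, sub_self]
    · intro j _ hj
      rw [mul_assoc, ho j i hj, mul_zero]
    · intro h
      exact absurd (Finset.mem_univ i) h

theorem CveC_pc {e : Fin s → R} (he : ∀ i, e i * e i = e i) (ho : ∀ i j, i ≠ j → e i * e j = 0)
    (a b : Option (Fin s)) (x : R) : Pc e a b (CveC e a b x) := by
  refine ⟨fun i => ?_, fun j => CveR_pc he ho b _ j⟩
  unfold CveC
  rw [← CveLR]
  exact CveL_pc he ho a _ i

theorem CveC_id {e : Fin s → R} {a b : Option (Fin s)} {x : R} (h : Pc e a b x) :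
    CveC e a b x = x := by
  have h1 : CveL e a x = x := by
    cases a with
    | some i =>
      rw [CveL_some, h.1 i, if_pos rfl]
    | none =>
      rw [CveL_none, Finset.sum_eq_zero, sub_zero]
      intro i _
      rw [h.1 i, if_neg (by simp)]
  have h2 : CveR e b x = x := by
    cases b with
    | some i =>
      rw [CveR_some, h.2 i, if_pos rfl]
    | none =>
      rw [CveR_none, Finset.sum_eq_zero, sub_zero]
      intro i _
      rw [h.2 i, if_neg (by simp)]
  unfold CveC
  rw [h1, h2]

/-- product of components -/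
theorem CveC_mul {e : Fin s → R} (he : ∀ i, e i * e i = e i) (ho : ∀ i j, i ≠ j → e i * e j = 0)
    (a b : Option (Fin s)) (x y : R) :
    CveC e a b (x * y) = ∑ c, CveC e a c x * CveC e c b y := by
  have h1 : ∑ c, CveR e c x = x := by
    rw [Fintype.sum_option, CveR_none]
    show x - ∑ i, x * e i + ∑ i, CveR e (some i) x = x
    exact sub_add_cancel _ _
  have h2 : ∀ c, CveR e c x * y = CveR e c x * CveL e c y := by
    intro c
    cases c with
    | some i => rw [CveR_some, CveL_some, mul_assoc x (e i) (e i * y), ← mul_assoc (e i) (e i) y,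
        he, mul_assoc]
    | none =>
      rw [CveL_none, mul_sub, Finset.mul_sum, Finset.sum_eq_zero, sub_zero]
      intro i _
      rw [← mul_assoc, CveR_pc he ho, if_neg (by simp), zero_mul]
  have h3 : x * y = ∑ c, CveR e c x * CveL e c y := by
    rw [← Finset.sum_congr rfl fun c _ => h2 c, ← Finset.sum_mul, h1]
  have h4 : CveC e a b (x * y) = ∑ c, CveC e a b (CveR e c x * CveL e c y) := by
    rw [h3]
    exact map_sum (CveA e a b) _ _
  rw [h4]
  refine Finset.sum_congr rfl fun c _ => ?_
  show CveR e b (CveL e a (CveR e c x * CveL e c y)) = CveR e c (CveL e a x) * CveR e b (CveL e c y)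
  rw [CveL_mul, CveR_mul, CveLR]

theorem CveC_mem {e : Fin s → R} (S : NonUnitalSubring R) (he : ∀ i, e i ∈ S)
    (a b : Option (Fin s)) {x : R} (hx : x ∈ S) : CveC e a b x ∈ S := by
  have h1 : CveL e a x ∈ S := by
    cases a with
    | some i => exact S.mul_mem (he i) hx
    | none => exact S.sub_mem hx (S.sum_mem fun i _ => S.mul_mem (he i) hx)
  cases b with
  | some i => exact S.mul_mem h1 (he i)
  | none => exact S.sub_mem h1 (S.sum_mem fun i _ => S.mul_mem h1 (he i))

theorem CveC_idl {e : Fin s → R} (J : AddSubgroup R) (hJ : Idl R J)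
    (a b : Option (Fin s)) {x : R} (hx : x ∈ J) : CveC e a b x ∈ J := by
  have h1 : CveL e a x ∈ J := by
    cases a with
    | some i => exact (hJ _ _ hx).1
    | none => exact J.sub_mem hx (J.sum_mem fun i _ => (hJ _ _ hx).1)
  cases b with
  | some i => exact (hJ _ _ h1).2
  | none => exact J.sub_mem h1 (J.sum_mem fun i _ => (hJ _ _ h1).2)

/-- components with respect to a frame of the same kind -/
theorem Cve_pj (n : ℕ) (t : Fin s → R) (v : ℕ → R) (π : Equiv.Perm (Fin s))
    (h : ∀ i : Fin s, om n (v i) = om n (t (π i))) (γ δ : Option (Fin s)) (x : R) :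
    pj n s v γ δ x = CveC (fun i => om n (t i)) (γ.map π) (δ.map π) x := by
  have h1 : ∀ y, lc (fun i => om n (v i)) γ y = CveL (fun i => om n (t i)) (γ.map π) y := by
    intro y
    cases γ with
    | some i =>
      show om n (v i) * y = om n (t (π i)) * y
      rw [h i]
    | none =>
      show y - ∑ i : Fin s, om n (v i) * y = y - ∑ i, om n (t i) * y
      congr 1
      rw [← Equiv.sum_comp π fun i => om n (t i) * y]
      exact Finset.sum_congr rfl fun i _ => by rw [h i]
  have h2 : ∀ y, rc (fun i => om n (v i)) δ y = CveR (fun i => om n (t i)) (δ.map π) y := by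
    intro y
    cases δ with
    | some i =>
      show y * om n (v i) = y * om n (t (π i))
      rw [h i]
    | none =>
      show y - ∑ i : Fin s, y * om n (v i) = y - ∑ i, y * om n (t i)
      congr 1
      rw [← Equiv.sum_comp π fun i => y * om n (t i)]
      exact Finset.sum_congr rfl fun i _ => by rw [h i]
  unfold pj CveC
  rw [h1, h2]

end cve

theorem Cve_pw_mem {R : Type} [NonUnitalRing R] (S : NonUnitalSubring R) {x : R} (hx : x ∈ S)
    (k : ℕ) : pw x k ∈ S := by
  induction k with
  | zero => exact hx
  | succ k ih => exact S.mul_mem ih hx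

theorem thm_Cve (hG : St_Gbp) (hSpe : St_Spe) (hEva : St_Eva) (hEvn : St_Evn) : St_Cve := by
  intro n p s R _ _ t H α β x y z hE
  have hC := hE.cy
  have hF := hE.cx.fr
  have hH := hE.cx.lst
  obtain ⟨hP, hf1, -⟩ := CRL.fpr n p R hC s t hF
  obtain ⟨J, hJ, hJm⟩ := CRL.jil n hC.n4 R hC.inM hC.nt
  have he : ∀ i, om n (t i) * om n (t i) = om n (t i) := fun i => (hP.prm i).1
  have ho : ∀ i j, i ≠ j → om n (t i) * om n (t j) = 0 := hP.orth
  obtain ⟨-, -, -, hSp4⟩ := hSpe n p s R t H α β x y z hE
  obtain ⟨hEv1, hEv2⟩ := hEva n p s R t H α β x y z hE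
  obtain ⟨e, hee⟩ : ∃ e : Fin s → R, e = fun i => om n (t i) := ⟨_, rfl⟩
  rw [← hee] at hSp4 hEv1 hEv2
  have he' : ∀ i, e i * e i = e i := by
    rw [hee]
    exact he
  have ho' : ∀ i j, i ≠ j → e i * e j = 0 := by
    rw [hee]
    exact ho
  have hCn : ∀ a b w, Nl w → Nl (CveC e a b w) := fun a b w hw =>
    (hJm _).1 (CveC_idl J hJ a b ((hJm _).2 hw))
  have hCj : ∀ a b w, Nl w → Jc e a b (CveC e a b w) := fun a b w hw =>
    ⟨CveC_pc he' ho' a b w, hCn a b w hw⟩
  have hzero : ∀ a b w, a ≠ b → ¬ (a = α ∧ b = β) → ¬ (a = β ∧ b = α) → CveC e a b w = 0 :=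
    fun a b w h1 h2 h3 => hSp4 a b _ h1 h2 h3 (CveC_pc he' ho' a b w)
  -- the components of products
  have hab : ∀ u w, CveC e α β (u * w) =
      CveC e α α u * CveC e α β w + CveC e α β u * CveC e β β w := by
    intro u w
    rw [CveC_mul he' ho']
    refine Finset.sum_eq_add α β hE.ab ?_ ?_ ?_
    · intro c _ hc
      rw [hzero α c u (Ne.symm hc.1) (fun h => hc.2 h.2) (fun h => hE.ab h.1), zero_mul]
    · intro h
      exact absurd (Finset.mem_univ _) h
    · intro h
      exact absurd (Finset.mem_univ _) h
  have hba : ∀ u w, CveC e β α (u * w) =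
      CveC e β α u * CveC e α α w + CveC e β β u * CveC e β α w := by
    intro u w
    rw [CveC_mul he' ho']
    refine Finset.sum_eq_add α β hE.ab ?_ ?_ ?_
    · intro c _ hc
      rw [hzero β c u (Ne.symm hc.2) (fun h => hE.ab h.1.symm) (fun h => hc.1 h.2), zero_mul]
    · intro h
      exact absurd (Finset.mem_univ _) h
    · intro h
      exact absurd (Finset.mem_univ _) h
  -- the data of the path function
  obtain ⟨γ, hγ⟩ : ∃ γ : ℕ → Option (Fin s), γ = fun k => if k = 1 then β else α := ⟨_, rfl⟩
  obtain ⟨δ, hδ⟩ : ∃ δ : ℕ → Option (Fin s), δ = fun k => if k = 1 then α else β := ⟨_, rfl⟩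
  have hPf : ∀ v : ℕ → R, Pf n s 3 1 γ δ (fun _ => false) v =
      pj n s v α β (v s) * (pj n s v β α (v (s + 1)) * pj n s v α β (v (s + 2))) := by
    intro v
    have h0 : Pf n s 3 1 γ δ (fun _ => false) v =
        1 • (pj n s v (γ 0) (δ 0) (v (s + 0)) * (pj n s v (γ 1) (δ 1) (v (s + 1)) *
          pj n s v (γ 2) (δ 2) (v (s + 2)))) := rfl
    rw [h0, one_nsmul, add_zero, hγ, hδ]
    rfl
  -- the function at frames of the same kind
  have key : ∀ (v : ℕ → R) (π : Equiv.Perm (Fin s)),
      (∀ i : Fin s, om n (v i) = om n (t (π i))) → (∀ k, k < 3 → Nl (v (s + k))) →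
      Pf n s 3 1 γ δ (fun _ => false) v = 0 ∨
        (α.map π = α ∧ β.map π = β ∧ Pf n s 3 1 γ δ (fun _ => false) v =
          CveC e α β (v s) * CveC e β α (v (s + 1)) * CveC e α β (v (s + 2))) := by
    intro v π hπ hn
    have h1 : Pf n s 3 1 γ δ (fun _ => false) v =
        CveC e (α.map π) (β.map π) (v s) * CveC e (β.map π) (α.map π) (v (s + 1)) *
          CveC e (α.map π) (β.map π) (v (s + 2)) := by
      rw [hPf, Cve_pj n t v π hπ, Cve_pj n t v π hπ, Cve_pj n t v π hπ, ← hee, mul_assoc]
    have hne : α.map π ≠ β.map π := fun h =>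
      hE.ab (Option.map_injective π.injective h)
    have n0 : Nl (v s) := hn 0 (by omega)
    by_cases c1 : α.map π = α ∧ β.map π = β
    · right
      refine ⟨c1.1, c1.2, ?_⟩
      rw [h1, c1.1, c1.2]
    · left
      rw [h1]
      by_cases c2 : α.map π = β ∧ β.map π = α
      · rw [c2.1, c2.2]
        exact hEv2 _ _ _ (hCj β α _ n0) (hCj α β _ (hn 1 (by omega))) (hCj β α _ (hn 2 (by omega)))
      · rw [hzero _ _ _ hne c1 c2, zero_mul, zero_mul]
  refine hG n p R hC H hH s t hF 3 1 γ δ (fun _ => false) (by omega) ?_ ?_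
  · intro v hv hS
    obtain ⟨π, hπ⟩ := hS
    have hπ3 : ∀ i : Fin s, om n (v i) = om n (t (π i)) := fun i => (hπ i).2.2
    refine ⟨?_, ?_, ?_⟩
    · rcases key v π hπ3 hv.2 with h | ⟨-, -, h⟩
      · rw [h]
        exact H.zero_mem
      · rw [h]
        exact (hEv1 _ _ _ (hCj α β _ (hv.2 0 (by omega))) (hCj β α _ (hv.2 1 (by omega)))
          (hCj α β _ (hv.2 2 (by omega)))).1
    · intro k hk u w hu hw
      have huw : Nl (u * w) := (hJm _).1 (hJ u w ((hJm _).2 hw)).1
      have hv' : ∀ i : Fin s, om n (Function.update v (s + k) (u * w) i) = om n (t (π i)) := by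
        intro i
        have hi : (i : ℕ) ≠ s + k := by
          have := i.2
          omega
        rw [Function.update_of_ne hi]
        exact hπ3 i
      have hn' : ∀ j, j < 3 → Nl (Function.update v (s + k) (u * w) (s + j)) := by
        intro j hj
        by_cases hjk : j = k
        · rw [hjk, Function.update_self]
          exact huw
        · rw [Function.update_of_ne (by omega)]
          exact hv.2 j hj
      rcases key _ π hv' hn' with h | ⟨-, -, h⟩
      · exact h
      · rw [h]
        have m0 := hn' 0 (by omega)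
        have m1 := hn' 1 (by omega)
        have m2 := hn' 2 (by omega)
        rw [add_zero] at m0
        have jaa := hCj α α u hu
        have jab := hCj α β u hu
        have jba := hCj β α u hu
        have jbb := hCj β β u hu
        have kaa := hCj α α w hw
        have kab := hCj α β w hw
        have kba := hCj β α w hw
        have kbb := hCj β β w hw
        have pcA : ∀ c d, Jc e α α c → Jc e α β d → Jc e α β (c * d) := by
          intro c d hc hd
          refine ⟨((CRN.thm_Pca R s e he' ho').1 _ _ _ _ _ _ hc.1 hd.1).1 rfl, ?_⟩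
          exact (hJm _).1 (hJ c d ((hJm _).2 hd.2)).1
        have pcB : ∀ c d, Jc e α β c → Jc e β β d → Jc e α β (c * d) := by
          intro c d hc hd
          refine ⟨((CRN.thm_Pca R s e he' ho').1 _ _ _ _ _ _ hc.1 hd.1).1 rfl, ?_⟩
          exact (hJm _).1 (hJ c d ((hJm _).2 hd.2)).1
        have pcC : ∀ c d, Jc e β β c → Jc e β α d → Jc e β α (c * d) := by
          intro c d hc hd
          refine ⟨((CRN.thm_Pca R s e he' ho').1 _ _ _ _ _ _ hc.1 hd.1).1 rfl, ?_⟩
          exact (hJm _).1 (hJ c d ((hJm _).2 hd.2)).1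
        have pcD : ∀ c d, Jc e β α c → Jc e α α d → Jc e β α (c * d) := by
          intro c d hc hd
          refine ⟨((CRN.thm_Pca R s e he' ho').1 _ _ _ _ _ _ hc.1 hd.1).1 rfl, ?_⟩
          exact (hJm _).1 (hJ c d ((hJm _).2 hd.2)).1
        obtain rfl | rfl | rfl : k = 0 ∨ k = 1 ∨ k = 2 := by omega
        · have q0 : Function.update v (s + 0) (u * w) s = u * w := by
            rw [add_zero, Function.update_self]
          have j1 := hCj β α _ m1
          have j2 := hCj α β _ m2
          rw [q0, hab, add_mul, add_mul]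
          have r1 := ((hEv1 _ _ _ (pcA _ _ jaa kab) j1 j2).2.2 _ _).1 (Or.inl ⟨jaa, kab⟩)
            (Or.inl rfl)
          have r2 := ((hEv1 _ _ _ (pcB _ _ jab kbb) j1 j2).2.2 _ _).1 (Or.inr ⟨jab, kbb⟩)
            (Or.inl rfl)
          rw [r1, r2, add_zero]
        · have q1 : Function.update v (s + 1) (u * w) (s + 1) = u * w := Function.update_self _ _ _
          have j0 := hCj α β _ m0
          have j2 := hCj α β _ m2
          rw [q1, hba, mul_add, add_mul]
          have r1 := ((hEv1 _ _ _ j0 (pcD _ _ jba kaa) j2).2.2 _ _).2 (Or.inr ⟨jba, kaa⟩) rfl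
          have r2 := ((hEv1 _ _ _ j0 (pcC _ _ jbb kba) j2).2.2 _ _).2 (Or.inl ⟨jbb, kba⟩) rfl
          rw [r1, r2, add_zero]
        · have q2 : Function.update v (s + 2) (u * w) (s + 2) = u * w := Function.update_self _ _ _
          have j0 := hCj α β _ m0
          have j1 := hCj β α _ m1
          rw [q2, hab, mul_add]
          have r1 := ((hEv1 _ _ _ j0 j1 (pcA _ _ jaa kab)).2.2 _ _).1 (Or.inl ⟨jaa, kab⟩)
            (Or.inr rfl)
          have r2 := ((hEv1 _ _ _ j0 j1 (pcB _ _ jab kbb)).2.2 _ _).1 (Or.inr ⟨jab, kbb⟩)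
            (Or.inr rfl)
          rw [r1, r2, add_zero]
    · intro S hS hvS
      rcases key v π hπ3 hv.2 with h | ⟨-, -, h⟩
      · exact h
      · by_contra hne
        rw [h] at hne
        have htS : ∀ i, t i ∈ S := by
          intro i
          obtain ⟨k, hk⟩ := (hπ (π.symm i)).2.1
          rw [Equiv.apply_symm_apply] at hk
          rw [hk]
          exact Cve_pw_mem S (hvS _ (by have := (π.symm i).2; omega)) k
        have heS : ∀ i, e i ∈ S := by
          intro i
          rw [hee]
          exact Cve_pw_mem S (htS i) _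
        apply hS
        have hEn := hEvn n p s R t H α β x y z hE S htS
        rw [← hee] at hEn
        exact hEn _ _ _ (hCj α β _ (hv.2 0 (by omega))) (hCj β α _ (hv.2 1 (by omega)))
          (hCj α β _ (hv.2 2 (by omega))) (CveC_mem S heS _ _ (hvS _ (by omega)))
          (CveC_mem S heS _ _ (hvS _ (by omega))) (CveC_mem S heS _ _ (hvS _ (by omega))) hne
  · obtain ⟨v, hvd⟩ : ∃ v : ℕ → R, v = vx t fun k => if k = 0 then x else if k = 1 then y else z :=
      ⟨_, rfl⟩
    have v1 : ∀ i : Fin s, v i = t i := by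
      intro i
      rw [hvd, vx, dif_pos i.2]
    have v2 : v s = x := by
      rw [hvd, vx, dif_neg (by omega), Nat.sub_self, if_pos rfl]
    have v3 : v (s + 1) = y := by
      rw [hvd, vx, dif_neg (by omega), Nat.add_sub_cancel_left, if_neg (by omega), if_pos rfl]
    have v4 : v (s + 2) = z := by
      rw [hvd, vx, dif_neg (by omega), Nat.add_sub_cancel_left, if_neg (by omega),
        if_neg (by omega)]
    refine ⟨v, ⟨?_, ?_⟩, ?_⟩
    · have : (fun i : Fin s => v i) = t := funext v1
      rw [this]
      exact hF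
    · intro k hk
      obtain rfl | rfl | rfl : k = 0 ∨ k = 1 ∨ k = 2 := by omega
      · rw [add_zero, v2]
        exact hE.ax.nl
      · rw [v3]
        exact hE.ay.nl
      · rw [v4]
        exact hE.az.nl
    · rw [hPf, Cve_pj n t v (Equiv.refl _) (fun i => by rw [v1]; rfl),
        Cve_pj n t v (Equiv.refl _) (fun i => by rw [v1]; rfl),
        Cve_pj n t v (Equiv.refl _) (fun i => by rw [v1]; rfl), v2, v3, v4]
      have hm : ∀ a : Option (Fin s), a.map (Equiv.refl (Fin s)) = a := by
        intro a
        cases a <;> rfl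
      rw [hm, hm, CveC_id hE.ax.pc, CveC_id hE.ay.pc, CveC_id hE.az.pc, ← mul_assoc]
      exact hE.ne

end Pool.Agent.CRM
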