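import Pool.Agent.CRM.Stc
import Pool.Agent.CRL.All
import Pool.Agent.CRN.Pca

/-!
Campaign CRM, module CVL: the rings of the type L are critical (problem MP_1bb14d_al).
-/

set_option autoImplicit false

namespace Pool.Agent.CRM

open Pool.Agent.CRR Pool.Agent.CRN Pool.Agent.CRK Pool.Agent.CRL

section cvl

variable {R : Type} [NonUnitalRing R]

/-- The component of `x` in `e_γ R e_δ`. -/
def Cvlc {s : ℕ} (e : Fin s → R) (γ δ : Option (Fin s)) (x : R) : R := PcaR e δ (PcaL e γ x)

theorem Cvl_lc {n s : ℕ} {t : Fin s → R} {w : ℕ → R} {π : Equiv.Perm (Fin s)}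
    (h : ∀ i : Fin s, om n (w i) = om n (t (π i))) (γ : Option (Fin s)) (x : R) :
    lc (fun i => om n (w i)) γ x = PcaL (fun i => om n (t i)) (γ.map π) x := by
  cases γ with
  | some i =>
    show om n (w i) * x = om n (t (π i)) * x
    rw [h i]
  | none =>
    show x - ∑ i : Fin s, om n (w i) * x = PcaL (fun i => om n (t i)) none x
    rw [PcaL_none]
    congr 1
    rw [← Equiv.sum_comp π (fun i => om n (t i) * x)]
    exact Finset.sum_congr rfl fun i _ => by rw [h i]

theorem Cvl_rc {n s : ℕ} {t : Fin s → R} {w : ℕ → R} {π : Equiv.Perm (Fin s)}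
    (h : ∀ i : Fin s, om n (w i) = om n (t (π i))) (γ : Option (Fin s)) (x : R) :
    rc (fun i => om n (w i)) γ x = PcaR (fun i => om n (t i)) (γ.map π) x := by
  cases γ with
  | some i =>
    show x * om n (w i) = x * om n (t (π i))
    rw [h i]
  | none =>
    show x - ∑ i : Fin s, x * om n (w i) = PcaR (fun i => om n (t i)) none x
    rw [PcaR_none]
    congr 1
    rw [← Equiv.sum_comp π (fun i => x * om n (t i))]
    exact Finset.sum_congr rfl fun i _ => by rw [h i]

theorem Cvl_pj {n s : ℕ} {t : Fin s → R} {w : ℕ → R} {π : Equiv.Perm (Fin s)}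
    (h : ∀ i : Fin s, om n (w i) = om n (t (π i))) (γ δ : Option (Fin s)) (x : R) :
    pj n s w γ δ x = Cvlc (fun i => om n (t i)) (γ.map π) (δ.map π) x := by
  unfold pj Cvlc
  rw [Cvl_lc h, Cvl_rc h]

/-! ### products -/

theorem Cvl_cons (x : R) {l : List R} (h : l ≠ []) : wp (x :: l) = x * wp l := by
  cases l with
  | nil => exact absurd rfl h
  | cons y l => rfl

theorem Cvl_wp2 (l : List R) (a b : R) : wp (l ++ [a, b]) = wp (l ++ [a * b]) := by
  induction l with
  | nil => rfl
  | cons x l ih =>
    rw [List.cons_append, List.cons_append, Cvl_cons _ (by simp), Cvl_cons _ (by simp), ih]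

theorem Cvl_congr {y y' : ℕ → R} (z : R) : ∀ l : ℕ, (∀ j, j < l → y j = y' j) →
    pll y z l = pll y' z l := by
  intro l
  induction l with
  | zero => intro _; rfl
  | succ l ih =>
    intro h
    change y l * pll y z l = y' l * pll y' z l
    rw [h l (Nat.lt_succ_self l), ih fun j hj => h j (Nat.lt_succ_of_lt hj)]

theorem Cvl_wp (z : R) : ∀ (m : ℕ) (f : ℕ → R),
    wp ((List.range m).map f ++ [z]) = pll (fun j => f (m - 1 - j)) z m := by
  intro m
  induction m with
  | zero => intro f; rfl
  | succ m ih =>
    intro f
    rw [List.range_succ_eq_map, List.map_cons, List.map_map, List.cons_append,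
      Cvl_cons _ (by simp), ih (f ∘ Nat.succ)]
    change f 0 * pll (fun j => (f ∘ Nat.succ) (m - 1 - j)) z m =
      f (m + 1 - 1 - m) * pll (fun j => f (m + 1 - 1 - j)) z m
    have h1 : m + 1 - 1 - m = 0 := by omega
    rw [h1]
    congr 1
    refine Cvl_congr z m fun j hj => ?_
    show f (m - 1 - j + 1) = f (m + 1 - 1 - j)
    congr 1
    omega

theorem Cvl_pll_add (c : ℕ → R) (u v : R) (l : ℕ) :
    pll c (u + v) l = pll c u l + pll c v l := by
  induction l with
  | zero => rfl
  | succ l ih =>
    change c l * pll c (u + v) l = c l * pll c u l + c l * pll c v l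
    rw [ih, mul_add]

theorem Cvl_pll_upd (c : ℕ → R) (j : ℕ) (u v z : R) (l : ℕ) (hj : j < l) :
    pll (Function.update c j (u + v)) z l =
      pll (Function.update c j u) z l + pll (Function.update c j v) z l := by
  induction l with
  | zero => exact absurd hj (Nat.not_lt_zero j)
  | succ l ih =>
    change Function.update c j (u + v) l * pll (Function.update c j (u + v)) z l =
      Function.update c j u l * pll (Function.update c j u) z l +
        Function.update c j v l * pll (Function.update c j v) z l
    by_cases h : j = l
    · subst h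
      have e1 : ∀ w : R, pll (Function.update c j w) z j = pll c z j := fun w =>
        Cvl_congr z j fun i hi => Function.update_of_ne (ne_of_lt hi) _ _
      rw [e1, e1, e1, Function.update_self, Function.update_self, Function.update_self, add_mul]
    · rw [ih (by omega), Function.update_of_ne (Ne.symm h), Function.update_of_ne (Ne.symm h),
        Function.update_of_ne (Ne.symm h), mul_add]

theorem Cvl_pll_zero (c : ℕ → R) (l : ℕ) : pll c 0 l = 0 := by
  have h := Cvl_pll_add c 0 0 l
  rw [add_zero] at h
  exact left_eq_add.1 h

/-! ### components -/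

theorem Cvl_pc {s : ℕ} {e : Fin s → R} (h1 : ∀ i, e i * e i = e i)
    (h2 : ∀ i j, i ≠ j → e i * e j = 0) (γ δ : Option (Fin s)) (x : R) :
    Pc e γ δ (Cvlc e γ δ x) := by
  refine ⟨fun i => ?_, fun j => PcaR_e e h1 h2 δ j _⟩
  have h3 : ∀ y : R, e i * PcaR e δ y = PcaR e δ (e i * y) := by
    intro y
    cases δ with
    | some j => exact (mul_assoc _ _ _).symm
    | none =>
      rw [PcaR_none, PcaR_none, mul_sub, Finset.mul_sum]
      simp only [mul_assoc]
  unfold Cvlc
  rw [h3, PcaL_e e h1 h2]
  split_ifs
  · rfl
  · exact map_zero _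

theorem Cvl_id {s : ℕ} {e : Fin s → R} {γ δ : Option (Fin s)} {x : R} (h : Pc e γ δ x) :
    Cvlc e γ δ x = x := by
  unfold Cvlc
  rw [PcaL_Pc e h, if_pos rfl, PcaR_Pc e h, if_pos rfl]

theorem Cvl_mul {s : ℕ} {e : Fin s → R} (h1 : ∀ i, e i * e i = e i)
    (h2 : ∀ i j, i ≠ j → e i * e j = 0) (γ δ : Option (Fin s)) (y z : R) :
    Cvlc e γ δ (y * z) = ∑ ε, Cvlc e γ ε y * Cvlc e ε δ z := by
  have hR : ∀ a b : R, a * PcaR e δ b = PcaR e δ (a * b) := by
    intro a b
    cases δ with
    | some j => exact (mul_assoc _ _ _).symm
    | none =>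
      rw [PcaR_none, PcaR_none, mul_sub, Finset.mul_sum]
      simp only [mul_assoc]
  have hRL : ∀ (ε : Option (Fin s)) (a b : R), PcaR e ε a * PcaL e ε b = PcaR e ε a * b := by
    intro ε a b
    cases ε with
    | some i =>
      show a * e i * (e i * b) = a * e i * b
      rw [mul_assoc, ← mul_assoc (e i) (e i) b, h1, ← mul_assoc]
    | none =>
      rw [PcaL_none, mul_sub, Finset.mul_sum, Finset.sum_eq_zero, sub_zero]
      intro i _
      rw [← mul_assoc, PcaR_e e h1 h2, if_neg (by simp), zero_mul]
  have h3 : ∀ ε, Cvlc e γ ε y * Cvlc e ε δ z = PcaR e δ (PcaR e ε (PcaL e γ y) * z) := by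
    intro ε
    unfold Cvlc
    rw [hR, hRL]
  rw [Finset.sum_congr rfl fun ε _ => h3 ε, ← map_sum, ← Finset.sum_mul, PcaR_sum]
  unfold Cvlc
  rw [PcaL_mul]

theorem Cvl_F {s : ℕ} {e : Fin s → R} (h1 : ∀ i, e i * e i = e i)
    (h2 : ∀ i j, i ≠ j → e i * e j = 0) (F : R →+ R) (γ δ : Option (Fin s)) (y z : R)
    (h : ∀ ε, F (Cvlc e γ ε y * Cvlc e ε δ z) = 0) : F (Cvlc e γ δ (y * z)) = 0 := by
  rw [Cvl_mul h1 h2, map_sum]
  exact Finset.sum_eq_zero fun ε _ => h ε

theorem Cvl_mem {s : ℕ} {e : Fin s → R} (S : NonUnitalSubring R) (he : ∀ i, e i ∈ S)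
    (γ δ : Option (Fin s)) {x : R} (hx : x ∈ S) : Cvlc e γ δ x ∈ S := by
  have hL : PcaL e γ x ∈ S := by
    cases γ with
    | some i => exact mul_mem (he i) hx
    | none =>
      rw [PcaL_none]
      exact sub_mem hx (sum_mem fun i _ => mul_mem (he i) hx)
  unfold Cvlc
  cases δ with
  | some i => exact mul_mem hL (he i)
  | none =>
    rw [PcaR_none]
    exact sub_mem hL (sum_mem fun i _ => mul_mem hL (he i))

theorem Cvl_pw (S : NonUnitalSubring R) {x : R} (hx : x ∈ S) (k : ℕ) : pw x k ∈ S := by
  induction k with
  | zero => exact hx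
  | succ k ih => exact mul_mem ih hx

/-! ### the path function -/

theorem Cvl_Pf {n s : ℕ} {t : Fin s → R} {w : ℕ → R} {π : Equiv.Perm (Fin s)}
    (h : ∀ i : Fin s, om n (w i) = om n (t (π i))) (m q : ℕ) (α β : Option (Fin s)) :
    Pf n s (m + 2) q (fun k => if k = m + 1 then β else α) (fun k => if k = m then β else α)
      (fun _ => false) w =
    q • pll (fun j => Cvlc (fun i => om n (t i)) (α.map π) (α.map π) (w (s + (m - 1 - j))))
      (Cvlc (fun i => om n (t i)) (α.map π) (β.map π) (w (s + m)) *
        Cvlc (fun i => om n (t i)) (β.map π) (α.map π) (w (s + (m + 1)))) m := by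
  unfold Pf
  congr 1
  have h0 : (List.range (m + 2)).map (fun k => lf n s w ((fun k => if k = m + 1 then β else α) k)
      ((fun k => if k = m then β else α) k) false (w (s + k))) =
      (List.range m).map (fun k => Cvlc (fun i => om n (t i)) (α.map π) (α.map π) (w (s + k))) ++
      [Cvlc (fun i => om n (t i)) (α.map π) (β.map π) (w (s + m)),
        Cvlc (fun i => om n (t i)) (β.map π) (α.map π) (w (s + (m + 1)))] := by
    rw [List.range_succ, List.range_succ, List.map_append, List.map_append, List.append_assoc]
    congr 1
    · apply List.map_congr_left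
      intro k hk
      rw [List.mem_range] at hk
      show pj n s w (if k = m + 1 then β else α) (if k = m then β else α) (w (s + k)) = _
      rw [if_neg (by omega), if_neg (by omega), Cvl_pj h]
    · show [pj n s w (if m = m + 1 then β else α) (if m = m then β else α) (w (s + m)),
        pj n s w (if m + 1 = m + 1 then β else α) (if m + 1 = m then β else α)
          (w (s + (m + 1)))] = _
      rw [if_neg (by omega), if_pos rfl, if_pos rfl, if_neg (by omega), Cvl_pj h, Cvl_pj h]
  rw [h0, Cvl_wp2, Cvl_wp]

end cvl

theorem thm_Cvl (hGbp : St_Gbp) (hSpl : St_Spl) (hLqq : St_Lqq) (hLva : St_Lva)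
    (hLvn : St_Lvn) : St_Cvl := by
  intro n p s R _ _ t H α β m a x y hD
  obtain ⟨q, hq⟩ := hLqq n p s R t H α β m a x y hD
  obtain ⟨hS0, _, _, _, _, hS5, _⟩ := hSpl n p s R t H α β m a x y hD
  have hva := hLva n p s R t H α β m a x y hD q hq
  have hvn := hLvn n p s R t H α β m a x y hD q hq
  obtain ⟨J, hJ, hJn⟩ := CRL.jil n hD.cy.n4 R hD.cy.inM hD.cy.nt
  obtain ⟨hP, _, _⟩ := CRL.fpr n p R hD.cy s t hD.cx.fr
  have he1 : ∀ i, (fun i => om n (t i)) i * (fun i => om n (t i)) i = (fun i => om n (t i)) i :=
    fun i => (hP.prm i).1
  have he2 : ∀ i j, i ≠ j → (fun i => om n (t i)) i * (fun i => om n (t i)) j = 0 := hP.orth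
  have hnl : ∀ (γ δ : Option (Fin s)) (u : R), Nl u → Nl (Cvlc (fun i => om n (t i)) γ δ u) :=
    fun γ δ u hu => (hJn _).1 (PcaR_mem _ hJ (PcaL_mem _ hJ ((hJn u).2 hu) γ) δ)
  have hjc : ∀ (γ δ : Option (Fin s)) (u : R), Nl u →
      Jc (fun i => om n (t i)) γ δ (Cvlc (fun i => om n (t i)) γ δ u) :=
    fun γ δ u hu => ⟨Cvl_pc he1 he2 γ δ u, hnl γ δ u hu⟩
  have hba : β ≠ α := fun h => hD.ab h.symm
  refine hGbp n p R hD.cy H hD.cx.lst s t hD.cx.fr (m + 2) q
    (fun k => if k = m + 1 then β else α) (fun k => if k = m then β else α) (fun _ => false)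
    (by omega) ?_ ?_
  · rintro v ⟨_, hv⟩ ⟨π, hπ⟩
    have ho : ∀ w : ℕ → R, (∀ i, i < s → w i = v i) → ∀ i : Fin s,
        om n (w i) = om n (t (π i)) := fun w hw i => by rw [hw i i.2, (hπ i).2.2]
    have hov := ho v fun _ _ => rfl
    have hupd : ∀ (k : ℕ) (u : R), ∀ i, i < s → Function.update v (s + k) u i = v i :=
      fun k u i hi => Function.update_of_ne (by omega) _ _
    by_cases hst : α.map π = α ∧ β.map π = β
    · -- the types are preserved
      obtain ⟨hα, hβ⟩ := hst
      have hPf : ∀ w : ℕ → R, (∀ i, i < s → w i = v i) →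
          Pf n s (m + 2) q (fun k => if k = m + 1 then β else α)
            (fun k => if k = m then β else α) (fun _ => false) w =
          q • pll (fun j => Cvlc (fun i => om n (t i)) α α (w (s + (m - 1 - j))))
            (Cvlc (fun i => om n (t i)) α β (w (s + m)) *
              Cvlc (fun i => om n (t i)) β α (w (s + (m + 1)))) m := by
        intro w hw
        have h3 := Cvl_Pf (ho w hw) m q α β
        rw [hα, hβ] at h3
        exact h3
      have hc : ∀ j, j < m → Jc (fun i => om n (t i)) α α
          (Cvlc (fun i => om n (t i)) α α (v (s + (m - 1 - j)))) := fun j hj =>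
        hjc α α _ (hv _ (by omega))
      have hx' := hjc α β _ (hv m (by omega))
      have hy' := hjc β α _ (hv (m + 1) (by omega))
      refine ⟨?_, ?_, ?_⟩
      · rw [hPf v fun _ _ => rfl]
        exact (hva _ _ _ hc hx' hy').1
      · intro k hk u w hu hw
        rw [hPf _ (hupd k _)]
        rcases Nat.lt_or_ge k m with h1 | h1
        · -- a loop
          have hne1 : s + m ≠ s + k := by omega
          have hne2 : s + (m + 1) ≠ s + k := by omega
          rw [Function.update_of_ne hne1, Function.update_of_ne hne2]
          have e1 : pll (fun j => Cvlc (fun i => om n (t i)) α α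
                (Function.update v (s + k) (u * w) (s + (m - 1 - j))))
              (Cvlc (fun i => om n (t i)) α β (v (s + m)) *
                Cvlc (fun i => om n (t i)) β α (v (s + (m + 1)))) m =
              pll (Function.update (fun j => Cvlc (fun i => om n (t i)) α α (v (s + (m - 1 - j))))
                (m - 1 - k) (Cvlc (fun i => om n (t i)) α α (u * w)))
              (Cvlc (fun i => om n (t i)) α β (v (s + m)) *
                Cvlc (fun i => om n (t i)) β α (v (s + (m + 1)))) m := by
            refine Cvl_congr _ m fun j hj => ?_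
            show Cvlc (fun i => om n (t i)) α α
                (Function.update v (s + k) (u * w) (s + (m - 1 - j))) = _
            by_cases h2 : j = m - 1 - k
            · have h3 : m - 1 - (m - 1 - k) = k := by omega
              rw [h2, Function.update_self, h3, Function.update_self]
            · rw [Function.update_of_ne h2, Function.update_of_ne (by omega)]
          rw [e1]
          refine Cvl_F he1 he2 (AddMonoidHom.mk' (fun r => q • pll (Function.update
            (fun j => Cvlc (fun i => om n (t i)) α α (v (s + (m - 1 - j)))) (m - 1 - k) r)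
            (Cvlc (fun i => om n (t i)) α β (v (s + m)) *
              Cvlc (fun i => om n (t i)) β α (v (s + (m + 1)))) m) fun r r' => ?_) α α u w ?_
          · rw [Cvl_pll_upd _ _ _ _ _ _ (by omega), smul_add]
          · intro ε
            have key : Jc (fun i => om n (t i)) α α (Cvlc (fun i => om n (t i)) α ε u *
                Cvlc (fun i => om n (t i)) ε α w) →
                ((Jc (fun i => om n (t i)) α α (Cvlc (fun i => om n (t i)) α ε u) ∧
                  Jc (fun i => om n (t i)) α α (Cvlc (fun i => om n (t i)) ε α w)) ∨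
                (Jc (fun i => om n (t i)) α β (Cvlc (fun i => om n (t i)) α ε u) ∧
                  Jc (fun i => om n (t i)) β α (Cvlc (fun i => om n (t i)) ε α w))) →
                q • pll (Function.update
                  (fun j => Cvlc (fun i => om n (t i)) α α (v (s + (m - 1 - j)))) (m - 1 - k)
                  (Cvlc (fun i => om n (t i)) α ε u * Cvlc (fun i => om n (t i)) ε α w))
                (Cvlc (fun i => om n (t i)) α β (v (s + m)) *
                  Cvlc (fun i => om n (t i)) β α (v (s + (m + 1)))) m = 0 := by
              intro hj1 hor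
              refine (hva _ _ _ ?_ hx' hy').2.1 (m - 1 - k) (by omega) _ _ hor
                (Function.update_self _ _ _)
              intro j hj
              by_cases h2 : j = m - 1 - k
              · rw [h2, Function.update_self]
                exact hj1
              · rw [Function.update_of_ne h2]
                exact hc j hj
            have hprod : Jc (fun i => om n (t i)) α α (Cvlc (fun i => om n (t i)) α ε u *
                Cvlc (fun i => om n (t i)) ε α w) :=
              ⟨((CRN.thm_Pca R s _ he1 he2).1 α ε ε α _ _ (hjc α ε u hu).1 (hjc ε α w hw).1).1 rfl,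
                (hJn _).1 (hJ _ _ ((hJn _).2 (hjc ε α w hw).2)).1⟩
            by_cases h2 : ε = α
            · subst h2
              exact key hprod (Or.inl ⟨hjc _ _ u hu, hjc _ _ w hw⟩)
            · by_cases h3 : ε = β
              · subst h3
                exact key hprod (Or.inr ⟨hjc _ _ u hu, hjc _ _ w hw⟩)
              · have h4 : Cvlc (fun i => om n (t i)) α ε u = 0 :=
                  hS5 α ε _ (fun h => h2 h.symm) (fun h => h3 h.2) (fun h => hD.ab h.1)
                    (hjc α ε u hu).1
                rw [h4, zero_mul, map_zero]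
        · rcases Nat.eq_or_lt_of_le h1 with h1 | h1
          · -- the first arrow
            subst h1
            have e1 : pll (fun j => Cvlc (fun i => om n (t i)) α α
                  (Function.update v (s + m) (u * w) (s + (m - 1 - j))))
                (Cvlc (fun i => om n (t i)) α β (Function.update v (s + m) (u * w) (s + m)) *
                  Cvlc (fun i => om n (t i)) β α
                    (Function.update v (s + m) (u * w) (s + (m + 1)))) m =
                pll (fun j => Cvlc (fun i => om n (t i)) α α (v (s + (m - 1 - j))))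
                (Cvlc (fun i => om n (t i)) α β (u * w) *
                  Cvlc (fun i => om n (t i)) β α (v (s + (m + 1)))) m := by
              rw [Function.update_self, Function.update_of_ne (by omega)]
              refine Cvl_congr _ m fun j hj => ?_
              show Cvlc (fun i => om n (t i)) α α
                  (Function.update v (s + m) (u * w) (s + (m - 1 - j))) = _
              rw [Function.update_of_ne (by omega)]
            rw [e1]
            refine Cvl_F he1 he2 (AddMonoidHom.mk' (fun r => q • pll
              (fun j => Cvlc (fun i => om n (t i)) α α (v (s + (m - 1 - j))))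
              (r * Cvlc (fun i => om n (t i)) β α (v (s + (m + 1)))) m) fun r r' => ?_)
              α β u w ?_
            · rw [add_mul, Cvl_pll_add, smul_add]
            · intro ε
              have hprod : Jc (fun i => om n (t i)) α β (Cvlc (fun i => om n (t i)) α ε u *
                  Cvlc (fun i => om n (t i)) ε β w) :=
                ⟨((CRN.thm_Pca R s _ he1 he2).1 α ε ε β _ _ (hjc α ε u hu).1
                  (hjc ε β w hw).1).1 rfl, (hJn _).1 (hJ _ _ ((hJn _).2 (hjc ε β w hw).2)).1⟩
              by_cases h2 : ε = α
              · subst h2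
                exact (hva _ _ _ hc hprod hy').2.2.1 _ _
                  (Or.inl ⟨hjc _ _ u hu, hjc _ _ w hw⟩) rfl
              · by_cases h3 : ε = β
                · subst h3
                  exact (hva _ _ _ hc hprod hy').2.2.1 _ _
                    (Or.inr ⟨hjc _ _ u hu, hjc _ _ w hw⟩) rfl
                · have h4 : Cvlc (fun i => om n (t i)) α ε u = 0 :=
                    hS5 α ε _ (fun h => h2 h.symm) (fun h => h3 h.2) (fun h => hD.ab h.1)
                      (hjc α ε u hu).1
                  rw [h4, zero_mul, map_zero]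
          · -- the second arrow
            have h2 : k = m + 1 := by omega
            subst h2
            have e1 : pll (fun j => Cvlc (fun i => om n (t i)) α α
                  (Function.update v (s + (m + 1)) (u * w) (s + (m - 1 - j))))
                (Cvlc (fun i => om n (t i)) α β
                    (Function.update v (s + (m + 1)) (u * w) (s + m)) *
                  Cvlc (fun i => om n (t i)) β α
                    (Function.update v (s + (m + 1)) (u * w) (s + (m + 1)))) m =
                pll (fun j => Cvlc (fun i => om n (t i)) α α (v (s + (m - 1 - j))))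
                (Cvlc (fun i => om n (t i)) α β (v (s + m)) *
                  Cvlc (fun i => om n (t i)) β α (u * w)) m := by
              rw [Function.update_self, Function.update_of_ne (by omega)]
              refine Cvl_congr _ m fun j hj => ?_
              show Cvlc (fun i => om n (t i)) α α
                  (Function.update v (s + (m + 1)) (u * w) (s + (m - 1 - j))) = _
              rw [Function.update_of_ne (by omega)]
            rw [e1]
            refine Cvl_F he1 he2 (AddMonoidHom.mk' (fun r => q • pll
              (fun j => Cvlc (fun i => om n (t i)) α α (v (s + (m - 1 - j))))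
              (Cvlc (fun i => om n (t i)) α β (v (s + m)) * r) m) fun r r' => ?_)
              β α u w ?_
            · rw [mul_add, Cvl_pll_add, smul_add]
            · intro ε
              have hprod : Jc (fun i => om n (t i)) β α (Cvlc (fun i => om n (t i)) β ε u *
                  Cvlc (fun i => om n (t i)) ε α w) :=
                ⟨((CRN.thm_Pca R s _ he1 he2).1 β ε ε α _ _ (hjc β ε u hu).1
                  (hjc ε α w hw).1).1 rfl, (hJn _).1 (hJ _ _ ((hJn _).2 (hjc ε α w hw).2)).1⟩
              by_cases h2 : ε = β
              · subst h2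
                exact (hva _ _ _ hc hx' hprod).2.2.2 _ _
                  (Or.inl ⟨hjc _ _ u hu, hjc _ _ w hw⟩) rfl
              · by_cases h3 : ε = α
                · subst h3
                  exact (hva _ _ _ hc hx' hprod).2.2.2 _ _
                    (Or.inr ⟨hjc _ _ u hu, hjc _ _ w hw⟩) rfl
                · have h4 : Cvlc (fun i => om n (t i)) β ε u = 0 :=
                    hS5 β ε _ (fun h => h2 h.symm) (fun h => hba h.1) (fun h => h3 h.2)
                      (hjc β ε u hu).1
                  rw [h4, zero_mul, map_zero]
      · intro S hS hvS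
        have htS : ∀ i, t i ∈ S := by
          intro i
          obtain ⟨k, hk⟩ := (hπ (π.symm i)).2.1
          rw [Equiv.apply_symm_apply] at hk
          rw [hk]
          exact Cvl_pw S (hvS _ (by have := (π.symm i).2; omega)) k
        have heS : ∀ i, (fun i => om n (t i)) i ∈ S := fun i => Cvl_pw S (htS i) _
        rw [hPf v fun _ _ => rfl]
        by_contra hne
        exact hS (hvn S htS _ _ _ (fun j hj => ⟨hc j hj, Cvl_mem S heS _ _ (hvS _ (by omega))⟩)
          hx' (Cvl_mem S heS _ _ (hvS _ (by omega))) hy' (Cvl_mem S heS _ _ (hvS _ (by omega)))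
          hne)
    · -- otherwise the function is zero
      have hz : ∀ w : ℕ → R, (∀ i, i < s → w i = v i) →
          Pf n s (m + 2) q (fun k => if k = m + 1 then β else α)
            (fun k => if k = m then β else α) (fun _ => false) w = 0 := by
        intro w hw
        rw [Cvl_Pf (ho w hw)]
        have hpx := Cvl_pc he1 he2 (α.map π) (β.map π) (w (s + m))
        have hpy := Cvl_pc he1 he2 (β.map π) (α.map π) (w (s + (m + 1)))
        have hne : α.map π ≠ β.map π := fun h => hD.ab (Option.map_injective π.injective h)
        have h0 : Cvlc (fun i => om n (t i)) (α.map π) (β.map π) (w (s + m)) *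
            Cvlc (fun i => om n (t i)) (β.map π) (α.map π) (w (s + (m + 1))) = 0 := by
          by_cases h1 : α.map π = β ∧ β.map π = α
          · rw [h1.1, h1.2] at hpx hpy ⊢
            exact hS0 _ _ hpx hpy
          · rw [hS5 _ _ _ hne hst h1 hpx, zero_mul]
        rw [h0, Cvl_pll_zero, smul_zero]
      refine ⟨?_, ?_, ?_⟩
      · rw [hz v fun _ _ => rfl]
        exact H.zero_mem
      · intro k _ u w _ _
        exact hz _ (hupd k _)
      · intro S _ _
        exact hz v fun _ _ => rfl
  · obtain ⟨g, hg⟩ : ∃ g : ℕ → R, g = fun k => if k < m then a (m - 1 - k) else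
        if k = m then x else if k = m + 1 then y else 0 := ⟨_, rfl⟩
    have hg1 : ∀ k, k < m → g k = a (m - 1 - k) := fun k hk => by rw [hg]; exact if_pos hk
    have hg2 : g m = x := by
      rw [hg]
      show (if m < m then a (m - 1 - m) else if m = m then x else if m = m + 1 then y else 0) = x
      rw [if_neg (lt_irrefl m), if_pos rfl]
    have hg3 : g (m + 1) = y := by
      rw [hg]
      show (if m + 1 < m then a (m - 1 - (m + 1)) else if m + 1 = m then x else
        if m + 1 = m + 1 then y else 0) = y
      rw [if_neg (by omega), if_neg (by omega), if_pos rfl]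
    have hv1 : ∀ i : Fin s, vx t g i = t i := fun i => by
      unfold vx
      rw [dif_pos i.2]
    have hv2 : ∀ k, vx t g (s + k) = g k := fun k => by
      unfold vx
      rw [dif_neg (by omega)]
      congr 1
      omega
    refine ⟨vx t g, ⟨?_, ?_⟩, ?_⟩
    · have h3 : (fun i : Fin s => vx t g i) = t := funext hv1
      rw [h3]
      exact hD.cx.fr
    · intro k hk
      rw [hv2]
      rcases Nat.lt_or_ge k m with h1 | h1
      · rw [hg1 k h1]
        exact (hD.lo _ (by omega)).nl
      · rcases Nat.eq_or_lt_of_le h1 with h1 | h1
        · subst h1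
          rw [hg2]
          exact hD.ax.nl
        · have h2 : k = m + 1 := by omega
          subst h2
          rw [hg3]
          exact hD.ay.nl
    · have h3 := Cvl_Pf (n := n) (t := t) (w := vx t g) (π := Equiv.refl (Fin s))
        (fun i => by rw [hv1 i]; rfl) m q α β
      have h4 : ∀ γ : Option (Fin s), γ.map (Equiv.refl (Fin s)) = γ := fun γ => by
        cases γ <;> rfl
      rw [h4, h4, hv2, hv2, hg2, hg3, Cvl_id hD.ax.pc, Cvl_id hD.ay.pc] at h3
      rw [h3]
      have h5 : pll (fun j => Cvlc (fun i => om n (t i)) α α (vx t g (s + (m - 1 - j)))) (x * y) m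
          = pll a (x * y) m := by
        refine Cvl_congr _ m fun j hj => ?_
        show Cvlc (fun i => om n (t i)) α α (vx t g (s + (m - 1 - j))) = a j
        have h6 : m - 1 - (m - 1 - j) = j := by omega
        rw [hv2, hg1 _ (by omega), h6]
        exact Cvl_id (hD.lo j hj).pc
      rw [h5]
      exact hq.ne

end Pool.Agent.CRM
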