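import Pool.Agent.CRM.Stc
import Pool.Agent.CRN.Opp

/-!
Campaign CRM, module CVP: rings of the path types are critical.
-/

set_option autoImplicit false

namespace Pool.Agent.CRM

open Pool.Agent.CRR Pool.Agent.CRN Pool.Agent.CRK Pool.Agent.CRL

theorem thm_Cvp (hCvt : St_Cvt) (hCvl : St_Cvl) (hCve : St_Cve) (hCvu : St_Cvu) (hCvx : St_Cvx)
    (hOpx : St_Opx) : St_Cvp := by
  intro n R _ _ h4 hM hT h
  rcases h with h | h | h | h
  · obtain ⟨p, s, t, H, α, β, m, a, z, hc, hab, hlo, har, hne, hcd, hgen⟩ := h
    exact hCvt n p s R t H α β m a z
      { cy := ⟨h4, hM, hT, hc.pp, hc.pr⟩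
        cx := hc
        ab := hab
        lo := hlo
        ar := har
        ne := hne
        cd := hcd
        gen := hgen }
  · obtain ⟨p, s, t, H, α, β, γ, z, z', hc, hab, hz, hz', htw, htw', hne, hgen⟩ := h
    have hcy : Cy R n p := ⟨h4, hM, hT, hc.pp, hc.pr⟩
    by_cases h1 : α = β
    · obtain ⟨i, hi, htw1⟩ := htw h1
      subst h1
      subst hi
      have h2 : some i ≠ γ := by
        rcases hab with h2 | h2
        · exact absurd rfl h2
        · exact h2
      exact hCvx n p s R t H i γ z z'
        { cy := hcy
          cx := hc
          ig := h2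
          aa := hz
          tw := htw1
          az := hz'
          ne := hne
          gen := hgen }
    · by_cases h2 : β = γ
      · obtain ⟨i, hi, htw1⟩ := htw' h2
        subst h2
        subst hi
        have hgen' : NonUnitalSubring.closure (Set.range t ∪ {z', z}) = ⊤ := by
          rw [Set.pair_comm]
          exact hgen
        obtain ⟨H', hX⟩ := hOpx n p s R t H i α z' z hcy hc (Ne.symm h1) hz' htw1 hz hne hgen'
        have hf : Finite Rᵐᵒᵖ := Finite.of_equiv R MulOpposite.opEquiv
        exact (thm_Opp R).1 (hCvx n p s Rᵐᵒᵖ _ H' i α _ _ hX)
      · by_cases h3 : α = γ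
        · subst h3
          refine hCvl n p s R t H α β 0 (fun _ => 0) z z'
            { cy := hcy
              cx := hc
              ab := h1
              lo := fun k hk => absurd hk (Nat.not_lt_zero k)
              ax := hz
              ay := hz'
              ne := hne
              cd := fun i _ => Or.inr fun k hk => absurd hk (Nat.not_lt_zero k)
              gen := ?_ }
          have h5 : {u : R | ∃ k, k < 0 ∧ u = (fun _ : ℕ => (0 : R)) k} = ∅ := by
            ext u
            simp
          rw [h5, Set.union_empty]
          exact hgen
        · exact hCvu n p s R t H α β γ z z'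
            { cy := hcy
              cx := hc
              ab := h1
              bg := h2
              ag := h3
              az := hz
              az' := hz'
              ne := hne
              gen := hgen }
  · obtain ⟨p, s, t, H, α, β, m, a, x, y, hc, hab, -, hlo, hx, hy, hne, hcd, hgen⟩ := h
    exact hCvl n p s R t H α β m a x y
      { cy := ⟨h4, hM, hT, hc.pp, hc.pr⟩
        cx := hc
        ab := hab
        lo := hlo
        ax := hx
        ay := hy
        ne := hne
        cd := hcd
        gen := hgen }
  · obtain ⟨p, s, t, H, α, β, x, y, z, hc, hab, hx, hy, hz, hne, hgen⟩ := h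
    exact hCve n p s R t H α β x y z
      { cy := ⟨h4, hM, hT, hc.pp, hc.pr⟩
        cx := hc
        ab := hab
        ax := hx
        ay := hy
        az := hz
        ne := hne
        gen := hgen }

end Pool.Agent.CRM
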