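import Pool.Agent.CRM.Stc
import Pool.Agent.CRM.Cvl

/-!
Campaign CRM, module CVT: the rings of the type T are critical (problem MP_1bb14d_al).
-/

set_option autoImplicit false

namespace Pool.Agent.CRM

open Pool.Agent.CRR Pool.Agent.CRN Pool.Agent.CRK Pool.Agent.CRL

section cvt

variable {R : Type} [NonUnitalRing R]

theorem Cvt_Pf {n s : ℕ} {t : Fin s → R} {w : ℕ → R} {π : Equiv.Perm (Fin s)}
    (h : ∀ i : Fin s, om n (w i) = om n (t (π i))) (m q : ℕ) (α β : Option (Fin s)) :
    Pf n s (m + 1) q (fun _ => α) (fun k => if k = m then β else α)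
      (fun _ => false) w =
    q • pll (fun j => Cvlc (fun i => om n (t i)) (α.map π) (α.map π) (w (s + (m - 1 - j))))
      (Cvlc (fun i => om n (t i)) (α.map π) (β.map π) (w (s + m))) m := by
  unfold Pf
  congr 1
  have h0 : (List.range (m + 1)).map (fun k => lf n s w ((fun _ => α) k)
      ((fun k => if k = m then β else α) k) false (w (s + k))) =
      (List.range m).map (fun k => Cvlc (fun i => om n (t i)) (α.map π) (α.map π) (w (s + k))) ++
      [Cvlc (fun i => om n (t i)) (α.map π) (β.map π) (w (s + m))] := by
    rw [List.range_succ, List.map_append]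
    congr 1
    · apply List.map_congr_left
      intro k hk
      rw [List.mem_range] at hk
      show pj n s w α (if k = m then β else α) (w (s + k)) = _
      rw [if_neg (by omega), Cvl_pj h]
    · show [pj n s w α (if m = m then β else α) (w (s + m))] = _
      rw [if_pos rfl, Cvl_pj h]
  rw [h0, Cvl_wp]

end cvt

theorem thm_Cvt (hGbp : St_Gbp) (hSpt : St_Spt) (hTqq : St_Tqq) (hTva : St_Tva)
    (hTvn : St_Tvn) : St_Cvt := by
  intro n p s R _ _ t H α β m a z hD
  obtain ⟨q, hq⟩ := hTqq n p s R t H α β m a z hD
  obtain ⟨_, _, _, hS4, _⟩ := hSpt n p s R t H α β m a z hD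
  have hva := hTva n p s R t H α β m a z hD q hq
  have hvn := hTvn n p s R t H α β m a z hD q hq
  obtain ⟨J, hJ, hJn⟩ := CRL.jil n hD.cy.n4 R hD.cy.inM hD.cy.nt
  obtain ⟨hP, _, _⟩ := CRL.fpr n p R hD.cy s t hD.cx.fr
  have he1 : ∀ i, (fun i => om n (t i)) i * (fun i => om n (t i)) i = (fun i => om n (t i)) i :=
    fun i => (hP.prm i).1
  have he2 : ∀ i j, i ≠ j → (fun i => om n (t i)) i * (fun i => om n (t i)) j = 0 := hP.orth
  have hnl : ∀ (γ δ : Option (Fin s)) (u : R), Nl u → Nl (Cvlc (fun i => om n (t i)) γ δ u) :=
    fun γ δ u hu => (hJn _).1 (PcaR_mem _ hJ (PcaL_mem _ hJ ((hJn u).2 hu) γ) δ)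
  have hjc : ∀ (γ δ : Option (Fin s)) (u : R), Nl u →
      Jc (fun i => om n (t i)) γ δ (Cvlc (fun i => om n (t i)) γ δ u) :=
    fun γ δ u hu => ⟨Cvl_pc he1 he2 γ δ u, hnl γ δ u hu⟩
  have hba : β ≠ α := fun h => hD.ab h.symm
  refine hGbp n p R hD.cy H hD.cx.lst s t hD.cx.fr (m + 1) q
    (fun _ => α) (fun k => if k = m then β else α) (fun _ => false)
    (by omega) ?_ ?_
  · rintro v ⟨_, hv⟩ ⟨π, hπ⟩
    have ho : ∀ w : ℕ → R, (∀ i, i < s → w i = v i) → ∀ i : Fin s,
        om n (w i) = om n (t (π i)) := fun w hw i => by rw [hw i i.2, (hπ i).2.2]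
    have hupd : ∀ (k : ℕ) (u : R), ∀ i, i < s → Function.update v (s + k) u i = v i :=
      fun k u i hi => Function.update_of_ne (by omega) _ _
    by_cases hst : α.map π = α ∧ β.map π = β
    · -- the types are preserved
      obtain ⟨hα, hβ⟩ := hst
      have hPf : ∀ w : ℕ → R, (∀ i, i < s → w i = v i) →
          Pf n s (m + 1) q (fun _ => α)
            (fun k => if k = m then β else α) (fun _ => false) w =
          q • pll (fun j => Cvlc (fun i => om n (t i)) α α (w (s + (m - 1 - j))))
            (Cvlc (fun i => om n (t i)) α β (w (s + m))) m := by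
        intro w hw
        have h3 := Cvt_Pf (ho w hw) m q α β
        rw [hα, hβ] at h3
        exact h3
      have hc : ∀ j, j < m → Jc (fun i => om n (t i)) α α
          (Cvlc (fun i => om n (t i)) α α (v (s + (m - 1 - j)))) := fun j hj =>
        hjc α α _ (hv _ (by omega))
      have hx' := hjc α β _ (hv m (by omega))
      refine ⟨?_, ?_, ?_⟩
      · rw [hPf v fun _ _ => rfl]
        exact (hva _ _ hc hx').1
      · intro k hk u w hu hw
        rw [hPf _ (hupd k _)]
        rcases Nat.lt_or_ge k m with h1 | h1
        · -- a loop
          have hne1 : s + m ≠ s + k := by omega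
          rw [Function.update_of_ne hne1]
          have e1 : pll (fun j => Cvlc (fun i => om n (t i)) α α
                (Function.update v (s + k) (u * w) (s + (m - 1 - j))))
              (Cvlc (fun i => om n (t i)) α β (v (s + m))) m =
              pll (Function.update (fun j => Cvlc (fun i => om n (t i)) α α (v (s + (m - 1 - j))))
                (m - 1 - k) (Cvlc (fun i => om n (t i)) α α (u * w)))
              (Cvlc (fun i => om n (t i)) α β (v (s + m))) m := by
            refine Cvl_congr _ m fun j hj => ?_
            show Cvlc (fun i => om n (t i)) α α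
                (Function.update v (s + k) (u * w) (s + (m - 1 - j))) = _
            by_cases h2 : j = m - 1 - k
            · have h3 : m - 1 - (m - 1 - k) = k := by omega
              rw [h2, Function.update_self, h3, Function.update_self]
            · rw [Function.update_of_ne h2, Function.update_of_ne (by omega)]
          rw [e1]
          refine Cvl_F he1 he2 (AddMonoidHom.mk' (fun r => q • pll (Function.update
            (fun j => Cvlc (fun i => om n (t i)) α α (v (s + (m - 1 - j)))) (m - 1 - k) r)
            (Cvlc (fun i => om n (t i)) α β (v (s + m))) m) fun r r' => ?_) α α u w ?_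
          · rw [Cvl_pll_upd _ _ _ _ _ _ (by omega), smul_add]
          · intro ε
            have hprod : Jc (fun i => om n (t i)) α α (Cvlc (fun i => om n (t i)) α ε u *
                Cvlc (fun i => om n (t i)) ε α w) :=
              ⟨((CRN.thm_Pca R s _ he1 he2).1 α ε ε α _ _ (hjc α ε u hu).1 (hjc ε α w hw).1).1 rfl,
                (hJn _).1 (hJ _ _ ((hJn _).2 (hjc ε α w hw).2)).1⟩
            by_cases h2 : ε = α
            · subst h2
              refine (hva _ _ ?_ hx').2.1 (m - 1 - k) (by omega) _ _ (hjc _ _ u hu)
                (hjc _ _ w hw) (Function.update_self _ _ _)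
              intro j hj
              by_cases h2 : j = m - 1 - k
              · rw [h2, Function.update_self]
                exact hprod
              · rw [Function.update_of_ne h2]
                exact hc j hj
            · have h4 : Cvlc (fun i => om n (t i)) ε α w = 0 :=
                hS4 ε α _ h2 (fun h => hD.ab h.2) (hjc ε α w hw).1
              rw [h4, mul_zero, map_zero]
        · -- the arrow
          have h1 : k = m := by omega
          subst h1
          have e1 : pll (fun j => Cvlc (fun i => om n (t i)) α α
                (Function.update v (s + k) (u * w) (s + (k - 1 - j))))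
              (Cvlc (fun i => om n (t i)) α β (Function.update v (s + k) (u * w) (s + k))) k =
              pll (fun j => Cvlc (fun i => om n (t i)) α α (v (s + (k - 1 - j))))
              (Cvlc (fun i => om n (t i)) α β (u * w)) k := by
            rw [Function.update_self]
            refine Cvl_congr _ k fun j hj => ?_
            show Cvlc (fun i => om n (t i)) α α
                (Function.update v (s + k) (u * w) (s + (k - 1 - j))) = _
            rw [Function.update_of_ne (by omega)]
          rw [e1]
          refine Cvl_F he1 he2 (AddMonoidHom.mk' (fun r => q • pll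
            (fun j => Cvlc (fun i => om n (t i)) α α (v (s + (k - 1 - j)))) r k) fun r r' => ?_)
            α β u w ?_
          · rw [Cvl_pll_add, smul_add]
          · intro ε
            have hprod : Jc (fun i => om n (t i)) α β (Cvlc (fun i => om n (t i)) α ε u *
                Cvlc (fun i => om n (t i)) ε β w) :=
              ⟨((CRN.thm_Pca R s _ he1 he2).1 α ε ε β _ _ (hjc α ε u hu).1
                (hjc ε β w hw).1).1 rfl, (hJn _).1 (hJ _ _ ((hJn _).2 (hjc ε β w hw).2)).1⟩
            by_cases h2 : ε = α
            · subst h2
              exact (hva _ _ hc hprod).2.2.1 _ _ (hjc _ _ u hu) (hjc _ _ w hw) rfl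
            · by_cases h3 : ε = β
              · subst h3
                exact (hva _ _ hc hprod).2.2.2 _ _ (hjc _ _ u hu) (hjc _ _ w hw) rfl
              · have h4 : Cvlc (fun i => om n (t i)) α ε u = 0 :=
                  hS4 α ε _ (fun h => h2 h.symm) (fun h => h3 h.2) (hjc α ε u hu).1
                rw [h4, zero_mul, map_zero]
      · intro S hS hvS
        have htS : ∀ i, t i ∈ S := by
          intro i
          obtain ⟨k, hk⟩ := (hπ (π.symm i)).2.1
          rw [Equiv.apply_symm_apply] at hk
          rw [hk]
          exact Cvl_pw S (hvS _ (by have := (π.symm i).2; omega)) k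
        have heS : ∀ i, (fun i => om n (t i)) i ∈ S := fun i => Cvl_pw S (htS i) _
        rw [hPf v fun _ _ => rfl]
        by_contra hne
        exact hS (hvn S htS _ _ (fun j hj => ⟨hc j hj, Cvl_mem S heS _ _ (hvS _ (by omega))⟩)
          hx' (Cvl_mem S heS _ _ (hvS _ (by omega))) hne)
    · -- otherwise the function is zero
      have hz : ∀ w : ℕ → R, (∀ i, i < s → w i = v i) →
          Pf n s (m + 1) q (fun _ => α)
            (fun k => if k = m then β else α) (fun _ => false) w = 0 := by
        intro w hw
        rw [Cvt_Pf (ho w hw)]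
        have hpx := Cvl_pc he1 he2 (α.map π) (β.map π) (w (s + m))
        have hne : α.map π ≠ β.map π := fun h => hD.ab (Option.map_injective π.injective h)
        rw [hS4 _ _ _ hne hst hpx, Cvl_pll_zero, smul_zero]
      refine ⟨?_, ?_, ?_⟩
      · rw [hz v fun _ _ => rfl]
        exact H.zero_mem
      · intro k _ u w _ _
        exact hz _ (hupd k _)
      · intro S _ _
        exact hz v fun _ _ => rfl
  · obtain ⟨g, hg⟩ : ∃ g : ℕ → R, g = fun k => if k < m then a (m - 1 - k) else
        if k = m then z else 0 := ⟨_, rfl⟩
    have hg1 : ∀ k, k < m → g k = a (m - 1 - k) := fun k hk => by rw [hg]; exact if_pos hk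
    have hg2 : g m = z := by
      rw [hg]
      show (if m < m then a (m - 1 - m) else if m = m then z else 0) = z
      rw [if_neg (lt_irrefl m), if_pos rfl]
    have hv1 : ∀ i : Fin s, vx t g i = t i := fun i => by
      unfold vx
      rw [dif_pos i.2]
    have hv2 : ∀ k, vx t g (s + k) = g k := fun k => by
      unfold vx
      rw [dif_neg (by omega)]
      congr 1
      omega
    refine ⟨vx t g, ⟨?_, ?_⟩, ?_⟩
    · have h3 : (fun i : Fin s => vx t g i) = t := funext hv1
      rw [h3]
      exact hD.cx.fr
    · intro k hk
      rw [hv2]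
      rcases Nat.lt_or_ge k m with h1 | h1
      · rw [hg1 k h1]
        exact (hD.lo _ (by omega)).nl
      · have h1 : k = m := by omega
        subst h1
        rw [hg2]
        exact hD.ar.nl
    · have h3 := Cvt_Pf (n := n) (t := t) (w := vx t g) (π := Equiv.refl (Fin s))
        (fun i => by rw [hv1 i]; rfl) m q α β
      have h4 : ∀ γ : Option (Fin s), γ.map (Equiv.refl (Fin s)) = γ := fun γ => by
        cases γ <;> rfl
      rw [h4, h4, hv2, hg2, Cvl_id hD.ar.pc] at h3
      rw [h3]
      have h5 : pll (fun j => Cvlc (fun i => om n (t i)) α α (vx t g (s + (m - 1 - j)))) z m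
          = pll a z m := by
        refine Cvl_congr _ m fun j hj => ?_
        show Cvlc (fun i => om n (t i)) α α (vx t g (s + (m - 1 - j))) = a j
        have h6 : m - 1 - (m - 1 - j) = j := by omega
        rw [hv2, hg1 _ (by omega), h6]
        exact Cvl_id (hD.lo j hj).pc
      rw [h5]
      exact hq.ne

end Pool.Agent.CRM
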