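import Pool.Agent.CRM.St
import Pool.Agent.CRL.All

/-!
Campaign CRM, module OPC: the operators preserve the Peirce components and nil elements.
-/

set_option autoImplicit false

namespace Pool.Agent.CRM

open Pool.Agent.CRR Pool.Agent.CRN Pool.Agent.CRK Pool.Agent.CRL

theorem thm_Opc : St_Opc := by
  intro n p R _ _ hC s t hF α β D hD
  obtain ⟨hP, h1, h2⟩ := CRL.fpr n p R hC s t hF
  obtain ⟨J, hJ, hJm⟩ := CRL.jil n hC.n4 R hC.inM hC.nt
  obtain ⟨-, -, -, hadd, h0⟩ := CRN.thm_Pca R s (fun i => om n (t i)) (fun i => (hP.prm i).1) hP.orth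
  unfold Ops at hD
  induction hD using Subring.closure_induction with
  | mem D hD =>
    intro x
    rcases hD with ⟨i, hi, rfl⟩ | ⟨j, hj, rfl⟩
    · change (_ → Pc _ α β (t i * x)) ∧ (_ → Nl (t i * x))
      refine ⟨fun hx => ⟨fun k => ?_, fun k => ?_⟩, fun hx => (hJm _).1 (hJ _ _ ((hJm _).2 hx)).1⟩
      · show om n (t k) * (t i * x) = _
        rw [← mul_assoc]
        by_cases hk : k = i
        · subst hk
          rw [(h1 k).2.1, if_pos hi]
        · rw [(h2 k i hk).1, zero_mul, if_neg]
          rw [hi]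
          exact fun h => hk (Option.some.inj h).symm
      · show (t i * x) * om n (t k) = _
        have h3 := hx.2 k
        simp only at h3
        rw [mul_assoc, h3]
        split_ifs <;> simp
    · change (_ → Pc _ α β (x * t j)) ∧ (_ → Nl (x * t j))
      refine ⟨fun hx => ⟨fun k => ?_, fun k => ?_⟩, fun hx => (hJm _).1 (hJ _ _ ((hJm _).2 hx)).2⟩
      · show om n (t k) * (x * t j) = _
        have h3 := hx.1 k
        simp only at h3
        rw [← mul_assoc, h3]
        split_ifs <;> simp
      · show (x * t j) * om n (t k) = _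
        rw [mul_assoc]
        by_cases hk : k = j
        · subst hk
          rw [(h1 k).1, if_pos hj]
        · rw [(h2 j k (Ne.symm hk)).2, mul_zero, if_neg]
          rw [hj]
          exact fun h => hk (Option.some.inj h).symm
  | zero => intro x; exact ⟨fun _ => h0 α β, fun _ => by simp [Nl]⟩
  | one => intro x; exact ⟨fun h => h, fun h => h⟩
  | add D D' _ _ h h' =>
    intro x
    refine ⟨fun hx => (hadd α β _ _ ((h x).1 hx) ((h' x).1 hx)).1, fun hx => ?_⟩
    exact (hJm _).1 (J.add_mem ((hJm _).2 ((h x).2 hx)) ((hJm _).2 ((h' x).2 hx)))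
  | neg D _ h =>
    intro x
    refine ⟨fun hx => (hadd α β _ _ ((h x).1 hx) ((h x).1 hx)).2, fun hx => ?_⟩
    exact (hJm _).1 (J.neg_mem ((hJm _).2 ((h x).2 hx)))
  | mul D D' _ _ h h' =>
    intro x
    exact ⟨fun hx => (h _).1 ((h' x).1 hx), fun hx => (h _).2 ((h' x).2 hx)⟩

end Pool.Agent.CRM
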