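import Pool.Agent.CRM.St

/-!
Campaign CRM, module Ops: the rings of operators.
-/

set_option autoImplicit false

namespace Pool.Agent.CRM

open Pool.Agent.CRR Pool.Agent.CRN Pool.Agent.CRK Pool.Agent.CRL

section

variable {R : Type} [NonUnitalRing R] {s : ℕ} {t : Fin s → R} {α β : Option (Fin s)}

/-- Induction over the operators. -/
theorem Ops_ind (P : AddMonoid.End R → Prop)
    (hl : ∀ i, α = some i → P (AddMonoid.End.mulLeft (t i)))
    (hr : ∀ j, β = some j → P (AddMonoid.End.mulRight (t j)))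
    (h0 : P 0) (h1 : P 1) (ha : ∀ D D', P D → P D' → P (D + D')) (hn : ∀ D, P D → P (-D))
    (hm : ∀ D D', P D → P D' → P (D * D')) : ∀ D ∈ Ops t α β, P D := by
  intro D hD
  unfold Ops at hD
  induction hD using Subring.closure_induction with
  | mem x hx =>
    rcases hx with ⟨i, h, rfl⟩ | ⟨j, h, rfl⟩
    · exact hl i h
    · exact hr j h
  | zero => exact h0
  | one => exact h1
  | add x y _ _ hx hy => exact ha x y hx hy
  | neg x _ hx => exact hn x hx
  | mul x y _ _ hx hy => exact hm x y hx hy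

theorem Ops_gen_comm (D : AddMonoid.End R)
    (hD : (∃ i, α = some i ∧ D = AddMonoid.End.mulLeft (t i)) ∨
      ∃ j, β = some j ∧ D = AddMonoid.End.mulRight (t j)) :
    ∀ D' ∈ Ops t α β, ∀ x, D (D' x) = D' (D x) := by
  refine Ops_ind _ ?_ ?_ ?_ ?_ ?_ ?_ ?_
  · intro i hi x
    rcases hD with ⟨j, hj, rfl⟩ | ⟨j, hj, rfl⟩
    · have : i = j := by rw [hi] at hj; exact Option.some.inj hj
      subst this
      rfl
    · exact mul_assoc (t i) x (t j)
  · intro i hi x
    rcases hD with ⟨j, hj, rfl⟩ | ⟨j, hj, rfl⟩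
    · exact (mul_assoc (t j) x (t i)).symm
    · have : i = j := by rw [hi] at hj; exact Option.some.inj hj
      subst this
      rfl
  · intro x
    exact map_zero D
  · intro x
    rfl
  · intro E E' h h' x
    change D (E x + E' x) = E (D x) + E' (D x)
    rw [map_add, h, h']
  · intro E h x
    change D (-(E x)) = -(E (D x))
    rw [map_neg, h]
  · intro E E' h h' x
    change D (E (E' x)) = E (E' (D x))
    rw [h, h']

theorem Ops_comm : ∀ D ∈ Ops t α β, ∀ D' ∈ Ops t α β, ∀ x, D (D' x) = D' (D x) := by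
  refine Ops_ind _ ?_ ?_ ?_ ?_ ?_ ?_ ?_
  · intro i hi D' hD' x
    exact Ops_gen_comm _ (Or.inl ⟨i, hi, rfl⟩) D' hD' x
  · intro i hi D' hD' x
    exact Ops_gen_comm _ (Or.inr ⟨i, hi, rfl⟩) D' hD' x
  · intro D' _ x
    exact (map_zero D').symm
  · intro D' _ x
    rfl
  · intro E E' h h' D' hD' x
    change E (D' x) + E' (D' x) = D' (E x + E' x)
    rw [map_add, h D' hD', h' D' hD']
  · intro E h D' hD' x
    change -(E (D' x)) = D' (-(E x))
    rw [map_neg, h D' hD']
  · intro E E' h h' D' hD' x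
    change E (E' (D' x)) = D' (E (E' x))
    rw [h' D' hD', h D' hD']

theorem Ops_sub (S : NonUnitalSubring R) (hS : ∀ i, t i ∈ S) :
    ∀ D ∈ Ops t α β, ∀ x ∈ S, D x ∈ S := by
  refine Ops_ind _ ?_ ?_ ?_ ?_ ?_ ?_ ?_
  · intro i _ x hx
    exact S.mul_mem (hS i) hx
  · intro i _ x hx
    exact S.mul_mem hx (hS i)
  · intro x _
    exact S.zero_mem
  · intro x hx
    exact hx
  · intro E E' h h' x hx
    exact S.add_mem (h x hx) (h' x hx)
  · intro E h x hx
    exact S.neg_mem (h x hx)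
  · intro E E' h h' x hx
    exact h _ (h' x hx)

theorem Ops_idl (I : AddSubgroup R) (hI : Idl R I) : ∀ D ∈ Ops t α β, ∀ x ∈ I, D x ∈ I := by
  refine Ops_ind _ ?_ ?_ ?_ ?_ ?_ ?_ ?_
  · intro i _ x hx
    exact (hI (t i) x hx).1
  · intro i _ x hx
    exact (hI (t i) x hx).2
  · intro x _
    exact I.zero_mem
  · intro x hx
    exact hx
  · intro E E' h h' x hx
    exact I.add_mem (h x hx) (h' x hx)
  · intro E h x hx
    exact I.neg_mem (h x hx)
  · intro E E' h h' x hx
    exact h _ (h' x hx)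

theorem Ops_left : ∀ D ∈ Ops t α none, ∀ x y : R, D (x * y) = D x * y := by
  refine Ops_ind _ ?_ ?_ ?_ ?_ ?_ ?_ ?_
  · intro i _ x y
    exact (mul_assoc (t i) x y).symm
  · intro i hi
    exact absurd hi (by simp)
  · intro x y
    exact (zero_mul y).symm
  · intro x y
    rfl
  · intro E E' h h' x y
    change E (x * y) + E' (x * y) = (E x + E' x) * y
    rw [h, h', add_mul]
  · intro E h x y
    change -(E (x * y)) = -(E x) * y
    rw [h, neg_mul]
  · intro E E' h h' x y
    change E (E' (x * y)) = E (E' x) * y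
    rw [h', h]

theorem Ops_right : ∀ D ∈ Ops t none β, ∀ x y : R, D (x * y) = x * D y := by
  refine Ops_ind _ ?_ ?_ ?_ ?_ ?_ ?_ ?_
  · intro i hi
    exact absurd hi (by simp)
  · intro i _ x y
    exact mul_assoc x y (t i)
  · intro x y
    exact (mul_zero x).symm
  · intro x y
    rfl
  · intro E E' h h' x y
    change E (x * y) + E' (x * y) = x * (E y + E' y)
    rw [h, h', mul_add]
  · intro E h x y
    change -(E (x * y)) = x * -(E y)
    rw [h, mul_neg]
  · intro E E' h h' x y
    change E (E' (x * y)) = x * E (E' y)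
    rw [h', h]

theorem Ops_cen (a : R) (ha : ∀ i, α = some i → t i * a = a * t i) :
    ∀ D ∈ Ops t α β, ∀ x, D (a * x) = a * D x := by
  refine Ops_ind _ ?_ ?_ ?_ ?_ ?_ ?_ ?_
  · intro i hi x
    change t i * (a * x) = a * (t i * x)
    rw [← mul_assoc, ha i hi, mul_assoc]
  · intro i _ x
    exact mul_assoc a x (t i)
  · intro x
    exact (mul_zero a).symm
  · intro x
    rfl
  · intro E E' h h' x
    change E (a * x) + E' (a * x) = a * (E x + E' x)
    rw [h, h', mul_add]
  · intro E h x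
    change -(E (a * x)) = a * -(E x)
    rw [h, mul_neg]
  · intro E E' h h' x
    change E (E' (a * x)) = a * E (E' x)
    rw [h', h]

theorem Ops_items (t : Fin s → R) (α β : Option (Fin s)) {E E' : AddMonoid.End R}
    (hE : E ∈ Ops t α none) (hE' : E' ∈ Ops t none β) (x y : R) :
    AddSubgroup.closure {w | ∃ D₁ ∈ Ops t α none, ∃ D₂ ∈ Ops t none β, w = D₁ (E x) * D₂ (E' y)} ≤
      AddSubgroup.closure {w | ∃ D₁ ∈ Ops t α none, ∃ D₂ ∈ Ops t none β, w = D₁ x * D₂ y} := by
  apply AddSubgroup.closure_mono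
  rintro w ⟨D₁, h1, D₂, h2, rfl⟩
  exact ⟨D₁ * E, mul_mem h1 hE, D₂ * E', mul_mem h2 hE', rfl⟩

theorem Ops_prod : ∀ D ∈ Ops t α β, ∀ x y : R, D (x * y) ∈ AddSubgroup.closure
    {w | ∃ D₁ ∈ Ops t α none, ∃ D₂ ∈ Ops t none β, w = D₁ x * D₂ y} := by
  refine Ops_ind _ ?_ ?_ ?_ ?_ ?_ ?_ ?_
  · intro i hi x y
    refine AddSubgroup.subset_closure ⟨AddMonoid.End.mulLeft (t i),
      Subring.subset_closure (Or.inl ⟨i, hi, rfl⟩), 1, one_mem _, ?_⟩
    exact (mul_assoc (t i) x y).symm
  · intro i hi x y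
    refine AddSubgroup.subset_closure ⟨1, one_mem _, AddMonoid.End.mulRight (t i),
      Subring.subset_closure (Or.inr ⟨i, hi, rfl⟩), ?_⟩
    exact mul_assoc x y (t i)
  · intro x y
    exact AddSubgroup.zero_mem _
  · intro x y
    exact AddSubgroup.subset_closure ⟨1, one_mem _, 1, one_mem _, rfl⟩
  · intro E E' h h' x y
    exact AddSubgroup.add_mem _ (h x y) (h' x y)
  · intro E h x y
    exact AddSubgroup.neg_mem _ (h x y)
  · intro E E' h h' x y
    change E (E' (x * y)) ∈ _
    have key : ∀ w ∈ AddSubgroup.closure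
        {w | ∃ D₁ ∈ Ops t α none, ∃ D₂ ∈ Ops t none β, w = D₁ x * D₂ y},
        E w ∈ AddSubgroup.closure
          {w | ∃ D₁ ∈ Ops t α none, ∃ D₂ ∈ Ops t none β, w = D₁ x * D₂ y} := by
      intro w hw
      induction hw using AddSubgroup.closure_induction with
      | mem w hw =>
        obtain ⟨D₁, h1, D₂, h2, rfl⟩ := hw
        exact Ops_items t α β h1 h2 x y (h (D₁ x) (D₂ y))
      | zero => rw [map_zero]; exact AddSubgroup.zero_mem _
      | add a b _ _ ha hb => rw [map_add]; exact AddSubgroup.add_mem _ ha hb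
      | neg a _ ha => rw [map_neg]; exact AddSubgroup.neg_mem _ ha
    exact key _ (h' x y)

theorem Ops_le_left : Ops t α none ≤ Ops t α β := by
  apply Subring.closure_mono
  rintro D (h | ⟨j, hj, _⟩)
  · exact Or.inl h
  · exact absurd hj (by simp)

theorem Ops_le_right : Ops t none β ≤ Ops t α β := by
  apply Subring.closure_mono
  rintro D (⟨j, hj, _⟩ | h)
  · exact absurd hj (by simp)
  · exact Or.inr h

end

theorem thm_Ops : St_Ops := by
  intro R _ s t α β
  exact ⟨Ops_comm, fun D hD S hS x hx => Ops_sub S hS D hD x hx,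
    fun D hD I hI x hx => Ops_idl I hI D hD x hx, Ops_left, Ops_right,
    fun D hD a ha x => Ops_cen a ha D hD x, Ops_prod, Ops_le_left, Ops_le_right⟩

end Pool.Agent.CRM
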