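import Pool.Agent.CRM.St

/-!
Campaign CRM, module Rul (helper13): rules for products of homogeneous nil elements.
-/

set_option autoImplicit false

namespace Pool.Agent.CRM

open Pool.Agent.CRR Pool.Agent.CRN Pool.Agent.CRK Pool.Agent.CRL

section

variable {R : Type} [NonUnitalRing R] {s : ℕ} {e : Fin s → R}

theorem Rul_mul {α β γ : Option (Fin s)} {x y : R} (hx : Pc e α β x) (hy : Pc e β γ y) :
    Pc e α γ (x * y) := by
  refine ⟨fun i => ?_, fun j => ?_⟩
  · rw [← mul_assoc, hx.1 i]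
    split_ifs <;> simp
  · rw [mul_assoc, hy.2 j]
    split_ifs <;> simp

theorem Rul_add {α β : Option (Fin s)} {x y : R} (hx : Pc e α β x) (hy : Pc e α β y) :
    Pc e α β (x + y) := by
  refine ⟨fun i => ?_, fun j => ?_⟩
  · rw [mul_add, hx.1 i, hy.1 i]
    split_ifs <;> simp
  · rw [add_mul, hx.2 j, hy.2 j]
    split_ifs <;> simp

theorem Rul_neg {α β : Option (Fin s)} {x : R} (hx : Pc e α β x) : Pc e α β (-x) := by
  refine ⟨fun i => ?_, fun j => ?_⟩
  · rw [mul_neg, hx.1 i]
    split_ifs <;> simp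
  · rw [neg_mul, hx.2 j]
    split_ifs <;> simp

theorem Rul_zero {α β γ δ : Option (Fin s)} (hβγ : β ≠ γ) {x y : R} (hx : Pc e α β x)
    (hy : Pc e γ δ y) : x * y = 0 := by
  rcases β with _ | i
  · rcases γ with _ | j
    · exact absurd rfl hβγ
    · have h1 := hy.1 j
      rw [if_pos rfl] at h1
      have h2 := hx.2 j
      rw [if_neg (by simp)] at h2
      rw [← h1, ← mul_assoc, h2, zero_mul]
  · have h1 := hx.2 i
    rw [if_pos rfl] at h1
    have h2 := hy.1 i
    rw [if_neg (fun h => hβγ h.symm)] at h2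
    rw [← h1, mul_assoc, h2, mul_zero]

theorem Rul_left {α β γ δ : Option (Fin s)} (h : α ≠ γ) {x : R} (hx : Pc e α β x)
    (hy : Pc e γ δ x) : x = 0 := by
  rcases α with _ | i
  · rcases γ with _ | j
    · exact absurd rfl h
    · have h1 := hy.1 j
      rw [if_pos rfl] at h1
      have h2 := hx.1 j
      rw [if_neg (by simp)] at h2
      rw [← h1, h2]
  · have h1 := hx.1 i
    rw [if_pos rfl] at h1
    have h2 := hy.1 i
    rw [if_neg (fun h' => h h'.symm)] at h2
    rw [← h1, h2]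

/-- two components from the left -/
theorem Rul_two {α β γ δ : Option (Fin s)} (h : α ≠ γ) {u v : R} (huv : u + v = 0)
    (hu : Pc e α β u) (hv : Pc e γ δ v) : u = 0 ∧ v = 0 := by
  have h1 : u = -v := eq_neg_of_add_eq_zero_left huv
  have h2 : u = 0 := Rul_left h hu (h1 ▸ Rul_neg hv)
  refine ⟨h2, ?_⟩
  rw [h2, zero_add] at huv
  exact huv

theorem Rul_P (hm : Hm e) {a b c : R} (ha : Nl a) (hb : Nl b) (hc : Nl c) :
    a * b * c + a * c * b + b * a * c + b * c * a + c * a * b + c * b * a = 0 := by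
  have h1 : (a + b + c) * (a + b + c) * (a + b + c) = 0 := hm.add _ _ (hm.add _ _ ha hb) hc
  have h2 : (a + b) * (a + b) * (a + b) = 0 := hm.add _ _ ha hb
  have h3 : (a + c) * (a + c) * (a + c) = 0 := hm.add _ _ ha hc
  have h4 : (b + c) * (b + c) * (b + c) = 0 := hm.add _ _ hb hc
  have h5 : a * a * a = 0 := ha
  have h6 : b * b * b = 0 := hb
  have h7 : c * c * c = 0 := hc
  have h8 : a * b * c + a * c * b + b * a * c + b * c * a + c * a * b + c * b * a =
      (a + b + c) * (a + b + c) * (a + b + c) - (a + b) * (a + b) * (a + b) -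
      (a + c) * (a + c) * (a + c) - (b + c) * (b + c) * (b + c) + a * a * a + b * b * b +
      c * c * c := by
    simp only [mul_add, add_mul, mul_assoc]
    abel
  rw [h8, h1, h2, h3, h4, h5, h6, h7]
  simp

theorem Rul_Q (hm : Hm e) {a b : R} (ha : Nl a) (hb : Nl b) :
    a * a * b + a * b * a + b * a * a + a * b * b + b * a * b + b * b * a = 0 := by
  have h2 : (a + b) * (a + b) * (a + b) = 0 := hm.add _ _ ha hb
  have h5 : a * a * a = 0 := ha
  have h6 : b * b * b = 0 := hb
  have h8 : a * a * b + a * b * a + b * a * a + a * b * b + b * a * b + b * b * a =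
      (a + b) * (a + b) * (a + b) - a * a * a - b * b * b := by
    simp only [mul_add, add_mul, mul_assoc]
    abel
  rw [h8, h2, h5, h6]
  simp

end

theorem thm_Rul : St_Rul := by
  intro R _ s e hm α β hαβ
  have hβα : β ≠ α := fun h => hαβ h.symm
  refine ⟨?_, ?_, ?_, ?_, ?_⟩
  · rintro a a' z ⟨ha, na⟩ ⟨ha', na'⟩ ⟨hz, nz⟩
    have z1 : z * a = 0 := Rul_zero hβα hz ha
    have z2 : z * a' = 0 := Rul_zero hβα hz ha'
    have z3 : z * z = 0 := Rul_zero hβα hz hz
    have h1 := Rul_P hm na na' nz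
    have h2 := Rul_Q hm na nz
    rw [mul_assoc a z a', mul_assoc a' z a, z1, z2, zero_mul, zero_mul, mul_zero, mul_zero,
      add_zero, add_zero, add_zero, add_zero] at h1
    rw [mul_assoc a z a, mul_assoc a z z, z1, z3] at h2
    simp only [zero_mul, mul_zero, add_zero] at h2
    exact ⟨eq_neg_of_add_eq_zero_left h1, h2⟩
  · rintro b b' z ⟨hb, nb⟩ ⟨hb', nb'⟩ ⟨hz, nz⟩
    have z1 : b * z = 0 := Rul_zero hβα hb hz
    have z2 : b' * z = 0 := Rul_zero hβα hb' hz
    have z3 : z * z = 0 := Rul_zero hβα hz hz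
    have h1 := Rul_P hm nb nb' nz
    have h2 := Rul_Q hm nb nz
    rw [mul_assoc b b' z, mul_assoc b' b z, z1, z2, zero_mul, zero_mul, mul_zero, mul_zero,
      zero_add, zero_add, zero_add, zero_add] at h1
    rw [mul_assoc b b z, mul_assoc z b z, z1, z3] at h2
    simp only [zero_mul, mul_zero, add_zero, zero_add] at h2
    exact ⟨eq_neg_of_add_eq_zero_left h1, h2⟩
  · rintro a b z ⟨ha, na⟩ ⟨hb, nb⟩ ⟨hz, nz⟩
    have z1 : a * b = 0 := Rul_zero hαβ ha hb
    have z2 : b * a = 0 := Rul_zero hβα hb ha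
    have z3 : z * a = 0 := Rul_zero hβα hz ha
    have z4 : b * z = 0 := Rul_zero hβα hb hz
    have h1 := Rul_P hm na nz nb
    rw [z1, z2, z3, mul_assoc z b a, z2, z4] at h1
    simpa using h1
  · rintro a b x y ⟨ha, na⟩ ⟨hb, nb⟩ ⟨hx, nx⟩ ⟨hy, ny⟩
    constructor
    · have z1 : a * y = 0 := Rul_zero hαβ ha hy
      have z2 : x * a = 0 := Rul_zero hβα hx ha
      have h1 := Rul_P hm na nx ny
      rw [z1, z2, mul_assoc y x a, z2] at h1
      simp only [zero_mul, mul_zero, add_zero] at h1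
      have h2 : Pc e α α (a * x * y + x * y * a) :=
        Rul_add (Rul_mul (Rul_mul ha hx) hy) (Rul_mul (Rul_mul hx hy) ha)
      have h3 : Pc e β β (y * a * x) := Rul_mul (Rul_mul hy ha) hx
      exact eq_neg_of_add_eq_zero_left (Rul_two hαβ h1 h2 h3).1
    · have z1 : b * x = 0 := Rul_zero hβα hb hx
      have z2 : y * b = 0 := Rul_zero hαβ hy hb
      have h1 := Rul_P hm nb nx ny
      rw [z1, z2, mul_assoc x y b, z2] at h1
      simp only [zero_mul, mul_zero, add_zero, zero_add] at h1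
      have h2 : Pc e β β (b * y * x + y * x * b) :=
        Rul_add (Rul_mul (Rul_mul hb hy) hx) (Rul_mul (Rul_mul hy hx) hb)
      have h3 : Pc e α α (x * b * y) := Rul_mul (Rul_mul hx hb) hy
      have h4 : (b * y * x + y * x * b) + x * b * y = 0 := by
        rw [← h1]; abel
      exact (Rul_two hβα h4 h2 h3).2
  · rintro x y z ⟨hx, nx⟩ ⟨hy, ny⟩ ⟨hz, nz⟩
    have z1 : x * z = 0 := Rul_zero hβα hx hz
    have z2 : z * x = 0 := Rul_zero hβα hz hx
    have z3 : x * x = 0 := Rul_zero hβα hx hx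
    have z4 : y * y = 0 := Rul_zero hαβ hy hy
    constructor
    · have h1 := Rul_P hm nx ny nz
      rw [z1, z2, mul_assoc y x z, z1, mul_assoc y z x, z2] at h1
      simp only [zero_mul, mul_zero, add_zero] at h1
      exact eq_neg_of_add_eq_zero_left h1
    · have h1 := Rul_Q hm nx ny
      rw [mul_assoc y x x, mul_assoc x y y, z3, z4] at h1
      simp only [zero_mul, mul_zero, add_zero, zero_add] at h1
      exact (Rul_two hαβ h1 (Rul_mul (Rul_mul hx hy) hx) (Rul_mul (Rul_mul hy hx) hy)).1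

end Pool.Agent.CRM
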