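import Pool.Agent.CRM.Stb
import Pool.Agent.CRM.Ops
import Pool.Agent.CRM.Opc
import Pool.Agent.CRM.Rul
import Pool.Agent.CRL.All

/-!
Campaign CRM, module DopA: common lemmas for the modules Dop, Dol, Fct, Fcl.
-/

set_option autoImplicit false

namespace Pool.Agent.CRM

open Pool.Agent.CRR Pool.Agent.CRN Pool.Agent.CRK Pool.Agent.CRL

section

variable {R : Type} [NonUnitalRing R] {s : ℕ} {t : Fin s → R}

theorem Dop_wp_cons (a : R) : ∀ (l : List R), l ≠ [] → wp (a :: l) = a * wp l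
  | [], h => absurd rfl h
  | _ :: _, _ => rfl

theorem Dop_wp_two (a b : R) : ∀ l : List R, wp (l ++ [a, b]) = wp (l ++ [a * b])
  | [] => rfl
  | c :: l => by
    rw [List.cons_append, List.cons_append, Dop_wp_cons _ _ (by simp), Dop_wp_cons _ _ (by simp),
      Dop_wp_two a b l]

/-- `a` commutes with `t_A`. -/
def DopC (t : Fin s → R) (A : Option (Fin s)) (a : R) : Prop := ∀ i, A = some i → t i * a = a * t i

theorem Dop_memL {A B : Option (Fin s)} {i : Fin s} (hi : A = some i) :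
    AddMonoid.End.mulLeft (t i) ∈ Ops t A B := Subring.subset_closure (Or.inl ⟨i, hi, rfl⟩)

theorem Dop_memR {A B : Option (Fin s)} {i : Fin s} (hi : B = some i) :
    AddMonoid.End.mulRight (t i) ∈ Ops t A B := Subring.subset_closure (Or.inr ⟨i, hi, rfl⟩)

theorem Dop_cen_left {A : Option (Fin s)} {a : R} (ha : DopC t A a) :
    ∀ D ∈ Ops t A none, DopC t A (D a) := by
  intro D hD i hi
  have h1 : D (t i * a) = t i * D a := Ops_comm D hD _ (Dop_memL hi) a
  rw [← h1, ha i hi]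
  exact Ops_left D hD a (t i)

/-- On elements which commute with `t_A` the multiplications from the right can be replaced by those
from the left. -/
theorem Dop_circ {A : Option (Fin s)} : ∀ D ∈ Ops t A A, ∃ E ∈ Ops t A none,
    ∀ a, DopC t A a → D a = E a := by
  refine Ops_ind _ ?_ ?_ ?_ ?_ ?_ ?_ ?_
  · intro i hi
    exact ⟨_, Dop_memL hi, fun a _ => rfl⟩
  · intro i hi
    exact ⟨_, Dop_memL hi, fun a ha => (ha i hi).symm⟩
  · exact ⟨0, zero_mem _, fun _ _ => rfl⟩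
  · exact ⟨1, one_mem _, fun _ _ => rfl⟩
  · rintro D D' ⟨E, hE, h⟩ ⟨E', hE', h'⟩
    refine ⟨E + E', add_mem hE hE', fun a ha => ?_⟩
    change D a + D' a = E a + E' a
    rw [h a ha, h' a ha]
  · rintro D ⟨E, hE, h⟩
    refine ⟨-E, neg_mem hE, fun a ha => ?_⟩
    change -(D a) = -(E a)
    rw [h a ha]
  · rintro D D' ⟨E, hE, h⟩ ⟨E', hE', h'⟩
    refine ⟨E * E', mul_mem hE hE', fun a ha => ?_⟩
    change D (D' a) = E (E' a)
    rw [h' a ha, h _ (Dop_cen_left ha E' hE')]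

theorem Dop_pull {A : Option (Fin s)} (g : ℕ → AddMonoid.End R) : ∀ κ : List ℕ,
    (∀ k ∈ κ, g k ∈ Ops t A A) → ∃ E ∈ Ops t A none, ∀ (y : ℕ → R), (∀ k ∈ κ, DopC t A (y k)) →
      ∀ z, wp (κ.map (fun k => g k (y k)) ++ [z]) = E (wp (κ.map y ++ [z]))
  | [], _ => ⟨1, one_mem _, fun _ _ _ => rfl⟩
  | k :: κ, h => by
    obtain ⟨E, hE, hE'⟩ := Dop_pull g κ (fun k' hk' => h k' (List.mem_cons_of_mem _ hk'))
    obtain ⟨F, hF, hF'⟩ := Dop_circ (g k) (h k List.mem_cons_self)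
    refine ⟨F * E, mul_mem hF hE, fun y hy z => ?_⟩
    have hk := hy k List.mem_cons_self
    rw [List.map_cons, List.cons_append, List.map_cons, List.cons_append,
      Dop_wp_cons _ _ (by simp), Dop_wp_cons _ _ (by simp),
      hE' y (fun k' hk' => hy k' (List.mem_cons_of_mem _ hk')) z, hF' _ hk]
    change _ = F (E (y k * wp (κ.map y ++ [z])))
    rw [Ops_cen (y k) hk E hE, Ops_left F hF]

theorem Dop_in {A B : Option (Fin s)} {D : AddMonoid.End R} (hD : D ∈ Ops t A B) (y : ℕ → R) :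
    ∀ κ : List ℕ, (∀ k ∈ κ, DopC t A (y k)) → ∀ z,
      wp (κ.map y ++ [D z]) = D (wp (κ.map y ++ [z]))
  | [], _, _ => rfl
  | k :: κ, h, z => by
    rw [List.map_cons, List.cons_append, List.cons_append,
      Dop_wp_cons _ _ (by simp), Dop_wp_cons _ _ (by simp),
      Dop_in hD y κ (fun k' hk' => h k' (List.mem_cons_of_mem _ hk')) z,
      Ops_cen (y k) (h k List.mem_cons_self) D hD]

theorem Dop_inR {A : Option (Fin s)} {D : AddMonoid.End R} (hD : D ∈ Ops t none A) (y : ℕ → R) :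
    ∀ κ : List ℕ, ∀ z, wp (κ.map y ++ [D z]) = D (wp (κ.map y ++ [z]))
  | [], _ => rfl
  | k :: κ, z => by
    rw [List.map_cons, List.cons_append, List.cons_append,
      Dop_wp_cons _ _ (by simp), Dop_wp_cons _ _ (by simp), Dop_inR hD y κ z,
      Ops_right D hD]

theorem Dop_choice {E : Type} [Inhabited E] : ∀ ds : List (ℕ × E), (ds.map Prod.fst).Nodup →
    ∃ g : ℕ → E, ∀ d ∈ ds, g d.1 = d.2
  | [], _ => ⟨fun _ => default, fun d hd => absurd hd (by simp)⟩
  | d :: ds, h => by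
    rw [List.map_cons, List.nodup_cons] at h
    obtain ⟨g, hg⟩ := Dop_choice ds h.2
    refine ⟨Function.update g d.1 d.2, fun c hc => ?_⟩
    rcases List.mem_cons.1 hc with rfl | hc
    · simp
    · rw [Function.update_of_ne, hg c hc]
      intro h2
      exact h.1 (h2 ▸ List.mem_map_of_mem hc)

theorem Dop_ev (O : Subring (AddMonoid.End R)) (P : (ℕ → R) → Prop) (Q : (ℕ → R) → R) :
    ∀ L : List (ℤ × List ℕ),
    (∀ q ∈ L, ∃ D ∈ O, ∀ y, P y → wp (q.2.map (vx t y)) = D (Q y)) →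
    ∃ D ∈ O, ∀ y, P y → ev L (vx t y) = D (Q y)
  | [], _ => ⟨0, zero_mem _, fun _ _ => rfl⟩
  | q :: L, h => by
    obtain ⟨D, hD, h1⟩ := h q List.mem_cons_self
    obtain ⟨D', hD', h2⟩ := Dop_ev O P Q L (fun q' hq' => h q' (List.mem_cons_of_mem _ hq'))
    refine ⟨q.1 • D + D', add_mem (zsmul_mem hD _) hD', fun y hy => ?_⟩
    change _ = q.1 • D (Q y) + D' (Q y)
    rw [← h1 y hy, ← h2 y hy]
    unfold ev
    rw [List.map_cons, List.sum_cons]

theorem Dop_jc_zero {e : Fin s → R} {A B : Option (Fin s)} : Jc e A B (0 : R) := by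
  refine ⟨⟨fun i => ?_, fun j => ?_⟩, ?_⟩
  · simp
  · simp
  · unfold Nl
    simp

end

section

variable {R : Type} [NonUnitalRing R] [Finite R] {n p s : ℕ} {t : Fin s → R}

theorem Dop_hm (hC : Cy R n p) (hF : Frame R n s t) : Hm (fun i => om n (t i)) := by
  obtain ⟨hP, -, -⟩ := CRL.fpr n p R hC s t hF
  obtain ⟨J, hJ, hJ2⟩ := CRL.jil n hC.n4 R hC.inM hC.nt
  refine ⟨fun i => (hP.prm i).1, hP.orth, fun x y hx hy => ?_, fun r x hx => ?_⟩
  · exact (hJ2 _).1 (J.add_mem ((hJ2 x).2 hx) ((hJ2 y).2 hy))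
  · have h := hJ r x ((hJ2 x).2 hx)
    exact ⟨(hJ2 _).1 h.1, (hJ2 _).1 h.2⟩

theorem Dop_jc (hC : Cy R n p) (hF : Frame R n s t) {A B : Option (Fin s)} {D : AddMonoid.End R}
    (hD : D ∈ Ops t A B) {x : R} (hx : Jc (fun i => om n (t i)) A B x) :
    Jc (fun i => om n (t i)) A B (D x) :=
  ⟨(thm_Opc n p R hC s t hF A B D hD x).1 hx.1, (thm_Opc n p R hC s t hF A B D hD x).2 hx.2⟩

/-- the indices which occur in a word -/
theorem Dop_idx {b : ℕ} {l : List ℕ} (h1 : ∀ i ∈ l, i < s + b) (h2 : ∀ k, k < b → s + k ∈ l) :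
    ∀ k, k ∈ (l.filter (fun i => decide (s ≤ i))).map (fun i => i - s) ↔ k < b := by
  intro k
  rw [List.mem_map]
  constructor
  · rintro ⟨i, hi, rfl⟩
    rw [List.mem_filter, decide_eq_true_eq] at hi
    have := h1 i hi.1
    omega
  · intro hk
    refine ⟨s + k, ?_, by omega⟩
    rw [List.mem_filter, decide_eq_true_eq]
    exact ⟨h2 k hk, by omega⟩

theorem Dop_shape (hW : St_Wcl) (hC : Cy R n p) (hF : Frame R n s t) {b : ℕ}
    {α β : ℕ → Option (Fin s)} {A B : Option (Fin s)} {k₀ : ℕ} {κ : List ℕ} (hAB : A ≠ B)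
    (hk₀ : k₀ < b) (hα : α k₀ = A) (hβ : β k₀ = B)
    (hl : ∀ k, k < b → k ≠ k₀ → α k = A ∧ β k = A) (hκ : κ.Nodup)
    (hκ' : ∀ k, k ∈ κ ↔ k < b ∧ k ≠ k₀) {x : ℕ → R}
    (hx : ∀ k, Jc (fun i => om n (t i)) (α k) (β k) (x k)) {ds : List (Dsi R)}
    (hds : ∀ d ∈ ds, d.2 ∈ Ops t (α d.1) (β d.1)) (hks : ∀ k, k ∈ ds.map Prod.fst ↔ k < b)
    (hne : wp (ds.map fun d => d.2 (x d.1)) ≠ 0) :
    ∃ (ds' : List (Dsi R)) (D₀ : AddMonoid.End R), ds = ds' ++ [(k₀, D₀)] ∧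
      (ds'.map Prod.fst).Perm κ := by
  have hlt : ∀ d ∈ ds, d.1 < b := fun d hd => (hks d.1).1 (List.mem_map_of_mem hd)
  have hA : ∀ k, k < b → α k = A := by
    intro k hk
    by_cases h : k = k₀
    · rw [h, hα]
    · exact (hl k hk h).1
  have h0 : ∀ k, k < b → α k ≠ β k → k = k₀ := by
    intro k hk h
    by_contra h'
    exact h ((hl k hk h').1.trans (hl k hk h').2.symm)
  have hex : ∃ d ∈ ds, α d.1 ≠ β d.1 := by
    obtain ⟨d, hd, h⟩ := List.mem_map.1 ((hks k₀).2 hk₀)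
    exact ⟨d, hd, by rw [h, hα, hβ]; exact hAB⟩
  have hB : ∀ d ∈ ds, α d.1 ≠ β d.1 → ∀ c ∈ ds, α c.1 ≠ β d.1 := by
    intro d hd h c hc h'
    have h1 := h0 d.1 (hlt d hd) h
    rw [hA c.1 (hlt c hc), h1, hβ] at h'
    exact hAB h'
  rcases hW n p R hC s t hF α β x hx ds hds hne hex with
    ⟨ds', d, rfl, hd, hc, hn⟩ | ⟨d, ds', rfl, hd, hc, hn⟩ | ⟨d, d', rfl, hd, hd', -⟩ |
    ⟨ds₁, d, d', ds₂, rfl, hd, hd', -⟩ | ⟨d₁, d₂, d₃, rfl, hd, hd', -⟩
  · have hdk : d.1 = k₀ := h0 d.1 (hlt d (by simp)) hd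
    refine ⟨ds', d.2, by rw [← hdk], ?_⟩
    rw [List.perm_ext_iff_of_nodup hn hκ]
    intro k
    rw [hκ' k]
    constructor
    · intro hk
      refine ⟨(hks k).1 (by rw [List.map_append]; exact List.mem_append_left _ hk), ?_⟩
      rintro rfl
      obtain ⟨c, hcm, hc1⟩ := List.mem_map.1 hk
      have h1 := hc c hcm
      rw [hc1] at h1
      exact hd (by rw [hdk]; exact h1.1.trans h1.2.symm)
    · rintro ⟨hk, hk'⟩
      have h1 := (hks k).2 hk
      rw [List.map_append, List.mem_append] at h1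
      rcases h1 with h1 | h1
      · exact h1
      · simp only [List.map_cons, List.map_nil, List.mem_singleton] at h1
        exact absurd (h1.trans hdk) hk'
  · have hdk : d.1 = k₀ := h0 d.1 (hlt d (by simp)) hd
    rcases ds' with _ | ⟨c, ds'⟩
    · refine ⟨[], d.2, by rw [← hdk]; rfl, ?_⟩
      have : κ = [] := by
        rw [List.eq_nil_iff_forall_not_mem]
        intro k hk
        have h1 := (hκ' k).1 hk
        have h2 := (hks k).2 h1.1
        simp only [List.map_cons, List.map_nil, List.mem_singleton] at h2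
        exact h1.2 (h2.trans hdk)
      rw [this]
      exact List.Perm.refl _
    · exact absurd (hc c (by simp)).1 (hB d (by simp) hd c (by simp))
  · exact absurd hd' (hB d (by simp) hd d' (by simp))
  · exact absurd hd' (hB d (by simp) hd d' (by simp))
  · exact absurd hd' (hB d₁ (by simp) hd d₂ (by simp))

theorem Dop_val (hA : St_Alp) (hC : Cy R n p) (hF : Frame R n s t) {A B : Option (Fin s)}
    (hAB : A ≠ B) {κ : List ℕ} {ds' : List (Dsi R)} (hp : (ds'.map Prod.fst).Perm κ)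
    (hn : κ.Nodup) (hds : ∀ d ∈ ds', d.2 ∈ Ops t A A) :
    ∃ (g : ℕ → AddMonoid.End R) (ε : ℤ), (∀ k ∈ κ, ∃ d ∈ ds', d.1 = k ∧ d.2 = g k) ∧
      ∀ (y : ℕ → R), (∀ k ∈ κ, Jc (fun i => om n (t i)) A A (y k)) → ∀ z,
      Jc (fun i => om n (t i)) A B z →
      wp (ds'.map (fun d => d.2 (y d.1)) ++ [z]) = ε • wp (κ.map (fun k => g k (y k)) ++ [z]) := by
  obtain ⟨g, hg⟩ := Dop_choice (E := AddMonoid.End R) ds' (hp.nodup_iff.2 hn)
  obtain ⟨ε, -, hε⟩ := (hA R s (fun i => om n (t i)) (Dop_hm hC hF) A B hAB).1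
    (ds'.map Prod.fst) κ hp
  refine ⟨g, ε, ?_, ?_⟩
  · intro k hk
    obtain ⟨d, hd, h⟩ := List.mem_map.1 (hp.mem_iff.2 hk)
    exact ⟨d, hd, h, by rw [← h, hg d hd]⟩
  · intro y hy z hz
    have h1 : ds'.map (fun d => d.2 (y d.1)) = (ds'.map Prod.fst).map (fun k => g k (y k)) := by
      rw [List.map_map]
      apply List.map_congr_left
      intro d hd
      simp only [Function.comp]
      rw [hg d hd]
    rw [h1]
    refine hε (fun k => g k (y k)) z ?_ hz
    intro k hk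
    obtain ⟨d, hd, rfl⟩ := List.mem_map.1 hk
    rw [hg d hd]
    exact Dop_jc hC hF (hds d hd) (hy _ (hp.mem_iff.1 hk))

end

end Pool.Agent.CRM
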