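import Pool.Agent.CRM.St
import Pool.Agent.CRL.All
import Pool.Agent.CRN.Nak
import Pool.Agent.CRN.Jnl

/-!
Campaign CRM, module Nac: a subring which contains the frame and generates the radical modulo
products of nil elements is everything.
-/

set_option autoImplicit false

namespace Pool.Agent.CRM

open Pool.Agent.CRR Pool.Agent.CRN Pool.Agent.CRK Pool.Agent.CRL

theorem Nac_pw {R : Type} [NonUnitalRing R] (S : NonUnitalSubring R) {x : R} (hx : x ∈ S)
    (k : ℕ) : pw x k ∈ S := by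
  induction k with
  | zero => exact hx
  | succ k ih => exact S.mul_mem ih hx

theorem thm_Nac : St_Nac := by
  intro n p R _ _ hcy s t hF S hS hJ2
  obtain ⟨J, hJI, hJ⟩ := jil n hcy.n4 R hcy.inM hcy.nt
  obtain ⟨m, hm⟩ := thm_Jnl R J hJI fun x hx => (hJ x).1 hx
  obtain ⟨r, hr⟩ := hcy.pr
  refine (thm_Nak R J hJI ⟨m, hm⟩ p r hr S ?_).2 ?_
  · intro x
    obtain ⟨c, hc, hx⟩ := gen n p R hcy s t hF x
    refine ⟨∑ i, c i, sum_mem fun i _ => ?_, (hJ _).2 hx⟩
    rcases hc i with h | ⟨k, h⟩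
    · rw [h]; exact S.zero_mem
    · rw [h]; exact Nac_pw S (hS i) k
  · intro x hx
    obtain ⟨y, hyS, hyN, hxy⟩ := hJ2 x ((hJ x).1 hx)
    have e : x = y + (x - y) := by abel
    rw [e]
    refine add_mem (AddSubgroup.subset_closure (Or.inl (Or.inl ⟨hyS, (hJ y).2 hyN⟩))) ?_
    have hle : J2 R ≤ fr S J p := by
      refine (AddSubgroup.closure_le _).2 ?_
      rintro w ⟨a, b, ha, hb, rfl⟩
      exact AddSubgroup.subset_closure
        (Or.inl (Or.inr ⟨a, (hJ a).2 ha, b, (hJ b).2 hb, rfl⟩))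
    exact hle hxy

end Pool.Agent.CRM
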