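import Pool.Agent.CRM.CvuA
import Pool.Agent.CRM.Nac
import Pool.Agent.CRM.DopA

/-!
Campaign CRM, **CVU**: the type `V` with three different vertices is critical (problem MP_1bb14d_al).
-/

set_option autoImplicit false

namespace Pool.Agent.CRM

open Pool.Agent.CRR Pool.Agent.CRN Pool.Agent.CRK Pool.Agent.CRL

section

variable {R : Type} [NonUnitalRing R]

/-- elements of the subring of the frame act by operators from the left -/
theorem Cvu_WL {n p : ℕ} [Finite R] (hC : Cy R n p) (hOc : St_Opc) {s : ℕ} {t : Fin s → R}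
    (hF : Frame R n s t) (a b : Option (Fin s)) {w : R}
    (hw : w ∈ NonUnitalSubring.closure (Set.range t)) : ∃ D ∈ Ops t a b,
      ∀ u, Pc (fun i => om n (t i)) a b u → w * u = D u := by
  obtain ⟨-, h1, h2⟩ := CRL.fpr n p R hC s t hF
  induction hw using NonUnitalSubring.closure_induction with
  | mem x hx =>
    obtain ⟨j, rfl⟩ := hx
    by_cases h : a = some j
    · exact ⟨AddMonoid.End.mulLeft (t j), Subring.subset_closure (Or.inl ⟨j, h, rfl⟩),
        fun u _ => rfl⟩
    · refine ⟨0, Subring.zero_mem _, fun u hu => ?_⟩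
      have h3 := hu.1 j
      rw [if_neg h] at h3
      have h4 : t j * u = t j * (om n (t j) * u) := by rw [← mul_assoc, (h1 j).1]
      rw [h4]
      simp only at h3
      rw [h3, mul_zero]
      rfl
  | zero =>
    refine ⟨0, Subring.zero_mem _, fun u _ => ?_⟩
    rw [zero_mul]
    rfl
  | add x y _ _ hx hy =>
    obtain ⟨D, hD, hx⟩ := hx
    obtain ⟨D', hD', hy⟩ := hy
    refine ⟨D + D', Subring.add_mem _ hD hD', fun u hu => ?_⟩
    rw [add_mul, hx u hu, hy u hu]
    rfl
  | neg x _ hx =>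
    obtain ⟨D, hD, hx⟩ := hx
    refine ⟨-D, Subring.neg_mem _ hD, fun u hu => ?_⟩
    rw [neg_mul, hx u hu]
    rfl
  | mul x y _ _ hx hy =>
    obtain ⟨D, hD, hx⟩ := hx
    obtain ⟨D', hD', hy⟩ := hy
    refine ⟨D * D', Subring.mul_mem _ hD hD', fun u hu => ?_⟩
    rw [mul_assoc, hy u hu, hx _ ((hOc n p R hC s t hF a b D' hD' u).1 hu)]
    rfl

/-- elements of the subring of the frame act by operators from the right -/
theorem Cvu_WR {n p : ℕ} [Finite R] (hC : Cy R n p) (hOc : St_Opc) {s : ℕ} {t : Fin s → R}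
    (hF : Frame R n s t) (a b : Option (Fin s)) {w : R}
    (hw : w ∈ NonUnitalSubring.closure (Set.range t)) : ∃ D ∈ Ops t a b,
      ∀ u, Pc (fun i => om n (t i)) a b u → u * w = D u := by
  obtain ⟨-, h1, h2⟩ := CRL.fpr n p R hC s t hF
  induction hw using NonUnitalSubring.closure_induction with
  | mem x hx =>
    obtain ⟨j, rfl⟩ := hx
    by_cases h : b = some j
    · exact ⟨AddMonoid.End.mulRight (t j), Subring.subset_closure (Or.inr ⟨j, h, rfl⟩),
        fun u _ => rfl⟩
    · refine ⟨0, Subring.zero_mem _, fun u hu => ?_⟩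
      have h3 := hu.2 j
      rw [if_neg h] at h3
      have h4 : u * t j = (u * om n (t j)) * t j := by rw [mul_assoc, (h1 j).2.1]
      rw [h4]
      simp only at h3
      rw [h3, zero_mul]
      rfl
  | zero =>
    refine ⟨0, Subring.zero_mem _, fun u _ => ?_⟩
    rw [mul_zero]
    rfl
  | add x y _ _ hx hy =>
    obtain ⟨D, hD, hx⟩ := hx
    obtain ⟨D', hD', hy⟩ := hy
    refine ⟨D + D', Subring.add_mem _ hD hD', fun u hu => ?_⟩
    rw [mul_add, hx u hu, hy u hu]
    rfl
  | neg x _ hx =>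
    obtain ⟨D, hD, hx⟩ := hx
    refine ⟨-D, Subring.neg_mem _ hD, fun u hu => ?_⟩
    rw [mul_neg, hx u hu]
    rfl
  | mul x y _ _ hx hy =>
    obtain ⟨D, hD, hx⟩ := hx
    obtain ⟨D', hD', hy⟩ := hy
    refine ⟨D' * D, Subring.mul_mem _ hD' hD, fun u hu => ?_⟩
    rw [← mul_assoc, hx u hu, hy _ ((hOc n p R hC s t hF a b D hD u).1 hu)]
    rfl

/-- the generators of the additive group of the ring -/
def CvuG {s : ℕ} (t : Fin s → R) (α β γ : Option (Fin s)) (z z' : R) : Set R :=
  {x | x ∈ NonUnitalSubring.closure (Set.range t) ∨ (∃ D ∈ Ops t α β, x = D z) ∨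
    (∃ D ∈ Ops t β γ, x = D z') ∨ ∃ D ∈ Ops t α β, ∃ D' ∈ Ops t β γ, x = D z * D' z'}

theorem Cvu_mulG (hOc : St_Opc) {n p s : ℕ} [Finite R] {t : Fin s → R} {H : AddSubgroup R}
    {α β γ : Option (Fin s)} {z z' : R} (h : Udt n p s t H α β γ z z') {x y : R}
    (hx : x ∈ CvuG t α β γ z z') (hy : y ∈ CvuG t α β γ z z') :
    x * y ∈ AddSubgroup.closure (CvuG t α β γ z z') := by
  have hF := h.cx.fr
  have hO : ∀ {a b : Option (Fin s)} {D : AddMonoid.End R}, D ∈ Ops t a b → ∀ {u : R},
      Pc (fun i => om n (t i)) a b u → Pc (fun i => om n (t i)) a b (D u) :=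
    fun hD _ hu => (hOc n p R h.cy s t hF _ _ _ hD _).1 hu
  have hz := h.az.pc
  have hz' := h.az'.pc
  have z0 : (0 : R) ∈ AddSubgroup.closure (CvuG t α β γ z z') := zero_mem _
  rcases hx with hw | ⟨D, hD, rfl⟩ | ⟨D, hD, rfl⟩ | ⟨D, hD, D', hD', rfl⟩
  · rcases hy with hw' | ⟨E, hE, rfl⟩ | ⟨E, hE, rfl⟩ | ⟨E, hE, E', hE', rfl⟩
    · exact AddSubgroup.subset_closure (Or.inl (mul_mem hw hw'))
    · obtain ⟨F, hF1, hF2⟩ := Cvu_WL h.cy hOc hF α β hw
      rw [hF2 _ (hO hE hz)]
      exact AddSubgroup.subset_closure (Or.inr (Or.inl ⟨F * E, mul_mem hF1 hE, rfl⟩))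
    · obtain ⟨F, hF1, hF2⟩ := Cvu_WL h.cy hOc hF β γ hw
      rw [hF2 _ (hO hE hz')]
      exact AddSubgroup.subset_closure (Or.inr (Or.inr (Or.inl ⟨F * E, mul_mem hF1 hE, rfl⟩)))
    · obtain ⟨F, hF1, hF2⟩ := Cvu_WL h.cy hOc hF α β hw
      rw [← mul_assoc, hF2 _ (hO hE hz)]
      exact AddSubgroup.subset_closure
        (Or.inr (Or.inr (Or.inr ⟨F * E, mul_mem hF1 hE, E', hE', rfl⟩)))
  · rcases hy with hw' | ⟨E, hE, rfl⟩ | ⟨E, hE, rfl⟩ | ⟨E, hE, E', hE', rfl⟩
    · obtain ⟨F, hF1, hF2⟩ := Cvu_WR h.cy hOc hF α β hw'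
      rw [hF2 _ (hO hD hz)]
      exact AddSubgroup.subset_closure (Or.inr (Or.inl ⟨F * D, mul_mem hF1 hD, rfl⟩))
    · rw [Rul_zero (Ne.symm h.ab) (hO hD hz) (hO hE hz)]
      exact z0
    · exact AddSubgroup.subset_closure (Or.inr (Or.inr (Or.inr ⟨D, hD, E, hE, rfl⟩)))
    · rw [← mul_assoc, Rul_zero (Ne.symm h.ab) (hO hD hz) (hO hE hz), zero_mul]
      exact z0
  · rcases hy with hw' | ⟨E, hE, rfl⟩ | ⟨E, hE, rfl⟩ | ⟨E, hE, E', hE', rfl⟩
    · obtain ⟨F, hF1, hF2⟩ := Cvu_WR h.cy hOc hF β γ hw'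
      rw [hF2 _ (hO hD hz')]
      exact AddSubgroup.subset_closure (Or.inr (Or.inr (Or.inl ⟨F * D, mul_mem hF1 hD, rfl⟩)))
    · rw [Rul_zero (Ne.symm h.ag) (hO hD hz') (hO hE hz)]
      exact z0
    · rw [Rul_zero (Ne.symm h.bg) (hO hD hz') (hO hE hz')]
      exact z0
    · rw [← mul_assoc, Rul_zero (Ne.symm h.ag) (hO hD hz') (hO hE hz), zero_mul]
      exact z0
  · rcases hy with hw' | ⟨E, hE, rfl⟩ | ⟨E, hE, rfl⟩ | ⟨E, hE, E', hE', rfl⟩
    · obtain ⟨F, hF1, hF2⟩ := Cvu_WR h.cy hOc hF β γ hw'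
      rw [mul_assoc, hF2 _ (hO hD' hz')]
      exact AddSubgroup.subset_closure
        (Or.inr (Or.inr (Or.inr ⟨D, hD, F * D', mul_mem hF1 hD', rfl⟩)))
    · rw [mul_assoc, Rul_zero (Ne.symm h.ag) (hO hD' hz') (hO hE hz), mul_zero]
      exact z0
    · rw [mul_assoc, Rul_zero (Ne.symm h.bg) (hO hD' hz') (hO hE hz'), mul_zero]
      exact z0
    · rw [mul_assoc, ← mul_assoc (D' z'), Rul_zero (Ne.symm h.ag) (hO hD' hz') (hO hE hz), zero_mul,
        mul_zero]
      exact z0

theorem Cvu_all (hOc : St_Opc) {n p s : ℕ} [Finite R] {t : Fin s → R} {H : AddSubgroup R}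
    {α β γ : Option (Fin s)} {z z' : R} (h : Udt n p s t H α β γ z z') (x : R) :
    x ∈ AddSubgroup.closure (CvuG t α β γ z z') := by
  have hmul : ∀ x ∈ AddSubgroup.closure (CvuG t α β γ z z'),
      ∀ y ∈ AddSubgroup.closure (CvuG t α β γ z z'),
      x * y ∈ AddSubgroup.closure (CvuG t α β γ z z') := by
    intro x hx y hy
    induction hx using AddSubgroup.closure_induction with
    | mem x hx =>
      induction hy using AddSubgroup.closure_induction with
      | mem y hy => exact Cvu_mulG hOc h hx hy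
      | zero => rw [mul_zero]; exact zero_mem _
      | add y y' _ _ h1 h2 => rw [mul_add]; exact add_mem h1 h2
      | neg y _ h1 => rw [mul_neg]; exact neg_mem h1
    | zero => rw [zero_mul]; exact zero_mem _
    | add x x' _ _ h1 h2 => rw [add_mul]; exact add_mem h1 h2
    | neg x _ h1 => rw [neg_mul]; exact neg_mem h1
  have hx : x ∈ NonUnitalSubring.closure (Set.range t ∪ {z, z'}) := by
    rw [h.gen]
    trivial
  induction hx using NonUnitalSubring.closure_induction with
  | mem x hx =>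
    rcases hx with hx | rfl | rfl
    · exact AddSubgroup.subset_closure (Or.inl (NonUnitalSubring.subset_closure hx))
    · exact AddSubgroup.subset_closure (Or.inr (Or.inl ⟨1, one_mem _, rfl⟩))
    · exact AddSubgroup.subset_closure (Or.inr (Or.inr (Or.inl ⟨1, one_mem _, rfl⟩)))
  | zero => exact zero_mem _
  | add x y _ _ h1 h2 => exact add_mem h1 h2
  | neg x _ h1 => exact neg_mem h1
  | mul x y _ _ h1 h2 => exact hmul x h1 y h2

/-- the idempotents of the frame are in the subring of the frame -/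
theorem Cvu_idm {n s : ℕ} {t : Fin s → R} {S : NonUnitalSubring R} (hS : ∀ i, t i ∈ S) (i : Fin s) :
    om n (t i) ∈ S := Nac_pw S (hS i) _

theorem Cvu_W0 (hW : St_Wst) {n p s : ℕ} [Finite R] {t : Fin s → R} (hC : Cy R n p)
    (hF : Frame R n s t) (hm : Hm (fun i => om n (t i))) {a b : Option (Fin s)} (hab : a ≠ b) {w : R}
    (hw : w ∈ NonUnitalSubring.closure (Set.range t)) :
    Cvup (fun i => om n (t i)) a b w = 0 := by
  obtain ⟨-, h2, -, -⟩ := hW n p R hC s t hF
  have h3 : ∀ i, t i ∈ NonUnitalSubring.closure (Set.range t) := fun i =>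
    NonUnitalSubring.subset_closure ⟨i, rfl⟩
  refine h2 _ (Cvu_mem (e := fun i => om n (t i)) (fun i => Cvu_idm h3 i) a b hw)
    a b (Or.inl hab) (Cvu_pc hm a b w)

/-- the components which are not on the diagonal -/
theorem Cvu_str (hOc : St_Opc) (hW : St_Wst) {n p s : ℕ} [Finite R] {t : Fin s → R}
    {H : AddSubgroup R} {α β γ : Option (Fin s)} {z z' : R} (h : Udt n p s t H α β γ z z')
    (hm : Hm (fun i => om n (t i))) :
    (∀ x, Pc (fun i => om n (t i)) α β x → ∃ D ∈ Ops t α β, x = D z) ∧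
    (∀ x, Pc (fun i => om n (t i)) β γ x → ∃ D ∈ Ops t β γ, x = D z') ∧
    ∀ δ ε x, δ ≠ ε → ¬ (δ = α ∧ ε = β) → ¬ (δ = β ∧ ε = γ) → ¬ (δ = α ∧ ε = γ) →
      Pc (fun i => om n (t i)) δ ε x → x = 0 := by
  have hF := h.cx.fr
  have hO : ∀ {a b : Option (Fin s)} {D : AddMonoid.End R}, D ∈ Ops t a b → ∀ {u : R},
      Pc (fun i => om n (t i)) a b u → Pc (fun i => om n (t i)) a b (D u) :=
    fun hD _ hu => (hOc n p R h.cy s t hF _ _ _ hD _).1 hu
  have hz := h.az.pc
  have hz' := h.az'.pc
  refine ⟨?_, ?_, ?_⟩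
  · intro x hx
    rw [← Cvu_self hx]
    have hxx := Cvu_all hOc h x
    clear hx
    induction hxx using AddSubgroup.closure_induction with
    | mem x hx =>
      rcases hx with hw | ⟨D, hD, rfl⟩ | ⟨D, hD, rfl⟩ | ⟨D, hD, D', hD', rfl⟩
      · exact ⟨0, zero_mem _, by rw [Cvu_W0 hW h.cy hF hm h.ab hw]; rfl⟩
      · exact ⟨D, hD, Cvu_self (hO hD hz)⟩
      · refine ⟨0, zero_mem _, ?_⟩
        rw [Cvu_other (hO hD hz') fun h' => h.ab h'.1.symm]
        rfl
      · refine ⟨0, zero_mem _, ?_⟩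
        rw [Cvu_other (Rul_mul (hO hD hz) (hO hD' hz')) fun h' => h.bg h'.2.symm]
        rfl
    | zero => exact ⟨0, zero_mem _, by rw [map_zero]; rfl⟩
    | add x y _ _ h1 h2 =>
      obtain ⟨D, hD, h1⟩ := h1
      obtain ⟨D', hD', h2⟩ := h2
      exact ⟨D + D', add_mem hD hD', by rw [map_add, h1, h2]; rfl⟩
    | neg x _ h1 =>
      obtain ⟨D, hD, h1⟩ := h1
      exact ⟨-D, neg_mem hD, by rw [map_neg, h1]; rfl⟩
  · intro x hx
    rw [← Cvu_self hx]
    have hxx := Cvu_all hOc h x
    clear hx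
    induction hxx using AddSubgroup.closure_induction with
    | mem x hx =>
      rcases hx with hw | ⟨D, hD, rfl⟩ | ⟨D, hD, rfl⟩ | ⟨D, hD, D', hD', rfl⟩
      · exact ⟨0, zero_mem _, by rw [Cvu_W0 hW h.cy hF hm h.bg hw]; rfl⟩
      · refine ⟨0, zero_mem _, ?_⟩
        rw [Cvu_other (hO hD hz) fun h' => h.ab h'.1]
        rfl
      · exact ⟨D, hD, Cvu_self (hO hD hz')⟩
      · refine ⟨0, zero_mem _, ?_⟩
        rw [Cvu_other (Rul_mul (hO hD hz) (hO hD' hz')) fun h' => h.ab h'.1]
        rfl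
    | zero => exact ⟨0, zero_mem _, by rw [map_zero]; rfl⟩
    | add x y _ _ h1 h2 =>
      obtain ⟨D, hD, h1⟩ := h1
      obtain ⟨D', hD', h2⟩ := h2
      exact ⟨D + D', add_mem hD hD', by rw [map_add, h1, h2]; rfl⟩
    | neg x _ h1 =>
      obtain ⟨D, hD, h1⟩ := h1
      exact ⟨-D, neg_mem hD, by rw [map_neg, h1]; rfl⟩
  · intro δ ε x hδε h1 h2 h3 hx
    rw [← Cvu_self hx]
    have hxx := Cvu_all hOc h x
    clear hx
    induction hxx using AddSubgroup.closure_induction with
    | mem x hx =>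
      rcases hx with hw | ⟨D, hD, rfl⟩ | ⟨D, hD, rfl⟩ | ⟨D, hD, D', hD', rfl⟩
      · exact Cvu_W0 hW h.cy hF hm hδε hw
      · exact Cvu_other (hO hD hz) fun h' => h1 ⟨h'.1.symm, h'.2.symm⟩
      · exact Cvu_other (hO hD hz') fun h' => h2 ⟨h'.1.symm, h'.2.symm⟩
      · exact Cvu_other (Rul_mul (hO hD hz) (hO hD' hz')) fun h' => h3 ⟨h'.1.symm, h'.2.symm⟩
    | zero => exact map_zero _
    | add x y _ _ h1 h2 => rw [map_add, h1, h2, add_zero]
    | neg x _ h1 => rw [map_neg, h1, neg_zero]

theorem Cvu_Pf {n s : ℕ} {e : Fin s → R} {v : ℕ → R} (π : Equiv.Perm (Fin s))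
    (hv : ∀ i : Fin s, om n (v i) = e (π i)) (α β γ : Option (Fin s)) :
    Pf n s 2 1 (fun k => if k = 0 then α else β) (fun k => if k = 0 then β else γ)
      (fun _ => false) v =
    Cvup e (α.map π) (β.map π) (v s) * Cvup e (β.map π) (γ.map π) (v (s + 1)) := by
  have h1 : Pf n s 2 1 (fun k => if k = 0 then α else β) (fun k => if k = 0 then β else γ)
      (fun _ => false) v = 1 • (pj n s v α β (v s) * pj n s v β γ (v (s + 1))) := rfl
  rw [h1, one_smul, Cvu_pj π hv, Cvu_pj π hv]

end

theorem thm_Cvu (hOp : St_Ops) (hOc : St_Opc) (hR : St_Ruu) (hW : St_Wst) (hS : St_Soc)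
    (hG : St_Gbp) : St_Cvu := by
  intro n p s R _ _ t H α β γ z z' h
  have hF := h.cx.fr
  have hm := Dop_hm h.cy hF
  obtain ⟨str1, str2, str3⟩ := Cvu_str hOc hW h hm
  obtain ⟨-, -, -, hW4⟩ := hW n p R h.cy s t hF
  have hpe : ∀ i, Jc (fun i => om n (t i)) (some i) (some i) (p • om n (t i)) := fun i =>
    ⟨(hW4 i).pc, (hW4 i).nl⟩
  have hR' := fun δ => hR R s (fun i => om n (t i)) hm α β γ δ h.ab h.bg h.ag
  -- products of two arrows
  have pz : ∀ u u', Jc (fun i => om n (t i)) α β u → Jc (fun i => om n (t i)) β γ u' →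
      p • (u * u') = 0 := by
    intro u u' hu hu'
    rcases α with _ | i
    · rcases β with _ | j
      · exact absurd rfl h.ab
      · have h1 := (hR' none u u' hu hu').2.2 _ (hpe j)
        have h2 := hu.1.2 j
        rw [if_pos rfl] at h2
        simp only at h2
        rw [mul_smul_comm, h2, smul_mul_assoc] at h1
        exact h1
    · have h1 := (hR' (some i) u u' hu hu').2.1 _ (hpe i)
      have h2 := hu.1.1 i
      rw [if_pos rfl] at h2
      simp only at h2
      rw [smul_mul_assoc, h2, smul_mul_assoc] at h1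
      exact h1
  have val : ∀ u u', Jc (fun i => om n (t i)) α β u → Jc (fun i => om n (t i)) β γ u' →
      u * u' ∈ H := by
    intro u u' hu hu'
    refine hS n p R h.cy H h.cx.lst s t hF α γ _ (Rul_mul hu.1 hu'.1) ?_ (pz u u' hu hu')
    intro x hx
    refine ⟨Cvu_left hm (Rul_mul hu.1 hu'.1) (fun d w hw => ?_) hx,
      Cvu_right hm (Rul_mul hu.1 hu'.1) (fun d w hw => ?_) hx⟩
    · rw [← mul_assoc]
      exact (hR' d u u' hu hu').2.1 w hw
    · exact (hR' d u u' hu hu').1 w hw
  have jab : ∀ {u}, Pc (fun i => om n (t i)) α β u → Jc (fun i => om n (t i)) α β u := fun hu =>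
    ⟨hu, Cvu_loop h.ab hu⟩
  have jbg : ∀ {u}, Pc (fun i => om n (t i)) β γ u → Jc (fun i => om n (t i)) β γ u := fun hu =>
    ⟨hu, Cvu_loop h.bg hu⟩
  -- permuted frames
  have perm : ∀ (π : Equiv.Perm (Fin s)),
      (α.map π = α ∧ β.map π = β ∧ γ.map π = γ) ∨ ∀ x y,
      Cvup (fun i => om n (t i)) (α.map π) (β.map π) x *
        Cvup (fun i => om n (t i)) (β.map π) (γ.map π) y = 0 := by
    intro π
    have inj := Option.map_injective π.injective
    have n1 : α.map π ≠ β.map π := fun h' => h.ab (inj h')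
    have n2 : β.map π ≠ γ.map π := fun h' => h.bg (inj h')
    by_cases h0 : α.map π = α ∧ β.map π = β ∧ γ.map π = γ
    · exact Or.inl h0
    · refine Or.inr fun x y => ?_
      by_cases c1 : α.map π = α ∧ β.map π = β
      · have e2 : Cvup (fun i => om n (t i)) (β.map π) (γ.map π) y = 0 := by
          refine str3 _ _ _ n2 ?_ ?_ ?_ (Cvu_pc hm _ _ y)
          · rintro ⟨h1, -⟩
            exact h.ab (h1.symm.trans c1.2)
          · rintro ⟨-, h2⟩
            exact h0 ⟨c1.1, c1.2, h2⟩
          · rintro ⟨h1, -⟩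
            exact h.ab (h1.symm.trans c1.2)
        rw [e2, mul_zero]
      · by_cases c2 : β.map π = γ
        · have e2 : Cvup (fun i => om n (t i)) (β.map π) (γ.map π) y = 0 := by
            refine str3 _ _ _ n2 ?_ ?_ ?_ (Cvu_pc hm _ _ y)
            · rintro ⟨h1, -⟩
              exact h.ag (h1.symm.trans c2)
            · rintro ⟨h1, -⟩
              exact h.bg (h1.symm.trans c2)
            · rintro ⟨h1, -⟩
              exact h.ag (h1.symm.trans c2)
          rw [e2, mul_zero]
        · have e2 : Cvup (fun i => om n (t i)) (α.map π) (β.map π) x = 0 := by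
            refine str3 _ _ _ n1 c1 ?_ ?_ (Cvu_pc hm _ _ x)
            · rintro ⟨-, h2⟩
              exact c2 h2
            · rintro ⟨-, h2⟩
              exact c2 h2
          rw [e2, zero_mul]
  refine hG n p R h.cy H h.cx.lst s t hF 2 1 (fun k => if k = 0 then α else β)
    (fun k => if k = 0 then β else γ) (fun _ => false) (by norm_num) ?_ ?_
  · rintro v hv ⟨π, hπ⟩
    have hv3 : ∀ i : Fin s, om n (v i) = (fun i => om n (t i)) (π i) := fun i => (hπ i).2.2
    have hP := Cvu_Pf (e := fun i => om n (t i)) π hv3 α β γ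
    refine ⟨?_, ?_, ?_⟩
    · rw [hP]
      rcases perm π with ⟨h1, h2, h3⟩ | h0
      · rw [h1, h2, h3]
        exact val _ _ (jab (Cvu_pc hm _ _ _)) (jbg (Cvu_pc hm _ _ _))
      · rw [h0]
        exact zero_mem _
    · intro k hk y w hy hw
      have hv3' : ∀ i : Fin s, om n (Function.update v (s + k) (y * w) i) =
          (fun i => om n (t i)) (π i) := by
        intro i
        rw [Function.update_of_ne (by have := i.2; omega)]
        exact hv3 i
      rw [Cvu_Pf (e := fun i => om n (t i)) π hv3' α β γ]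
      rcases perm π with ⟨h1, h2, h3⟩ | h0
      · rw [h1, h2, h3]
        rcases Nat.lt_succ_iff_lt_or_eq.1 hk with hk | rfl
        · obtain rfl : k = 0 := by omega
          rw [add_zero, Function.update_self, Function.update_of_ne (by omega), Cvu_prod hm,
            Finset.sum_mul]
          refine Finset.sum_eq_zero fun c _ => ?_
          set u' := Cvup (fun i => om n (t i)) β γ (v (s + 1)) with hu'
          have ju' : Jc (fun i => om n (t i)) β γ u' := jbg (Cvu_pc hm _ _ _)
          by_cases ca : c = α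
          · subst ca
            exact (hR' c _ u' (jab (Cvu_pc hm _ _ _)) ju').2.1 _ (Cvu_jc hm _ _ hy)
          · by_cases cb : c = β
            · subst cb
              exact (hR' none _ u' (jab (Cvu_pc hm _ _ _)) ju').2.2 _ (Cvu_jc hm _ _ hw)
            · have e2 : Cvup (fun i => om n (t i)) c β w = 0 :=
                str3 _ _ _ cb (fun h' => ca h'.1) (fun h' => cb h'.1) (fun h' => ca h'.1)
                  (Cvu_pc hm _ _ w)
              rw [e2, mul_zero, zero_mul]
        · rw [Function.update_self, Function.update_of_ne (by omega), Cvu_prod hm, Finset.mul_sum]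
          refine Finset.sum_eq_zero fun c _ => ?_
          set u := Cvup (fun i => om n (t i)) α β (v s) with hu
          have ju : Jc (fun i => om n (t i)) α β u := jab (Cvu_pc hm _ _ _)
          by_cases cb : c = β
          · subst cb
            rw [← mul_assoc]
            exact (hR' none u _ ju (jbg (Cvu_pc hm _ _ _))).2.2 _ (Cvu_jc hm _ _ hy)
          · by_cases cg : c = γ
            · subst cg
              rw [← mul_assoc]
              exact (hR' c u _ ju (jbg (Cvu_pc hm _ _ _))).1 _ (Cvu_jc hm _ _ hw)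
            · have e2 : Cvup (fun i => om n (t i)) β c y = 0 :=
                str3 _ _ _ (Ne.symm cb) (fun h' => cb h'.2) (fun h' => cg h'.2)
                  (fun h' => cg h'.2) (Cvu_pc hm _ _ y)
              rw [e2, zero_mul, mul_zero]
      · exact h0 _ _
    · intro S hST hvS
      rw [hP]
      rcases perm π with ⟨h1, h2, h3⟩ | h0
      · rw [h1, h2, h3]
        by_contra hne
        refine hST ?_
        have ht : ∀ i, t i ∈ S := by
          intro i
          obtain ⟨k, hk⟩ := (hπ (π.symm i)).2.1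
          rw [Equiv.apply_symm_apply] at hk
          rw [hk]
          exact Nac_pw S (hvS _ (by have := (π.symm i).2; omega)) k
        have hid : ∀ i, (fun i => om n (t i)) i ∈ S := fun i => Cvu_idm ht i
        have hu1 : Cvup (fun i => om n (t i)) α β (v s) ∈ S := Cvu_mem hid _ _ (hvS _ (by omega))
        have hu2 : Cvup (fun i => om n (t i)) β γ (v (s + 1)) ∈ S :=
          Cvu_mem hid _ _ (hvS _ (by omega))
        obtain ⟨D, hD, e1⟩ := str1 _ (Cvu_pc hm α β (v s))
        obtain ⟨D', hD', e2⟩ := str2 _ (Cvu_pc hm β γ (v (s + 1)))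
        have hO1 := hOp R s t α β
        have hO2 := hOp R s t β γ
        have hOO : ∀ {a b : Option (Fin s)} {D : AddMonoid.End R}, D ∈ Ops t a b → ∀ {u : R},
            Pc (fun i => om n (t i)) a b u → Pc (fun i => om n (t i)) a b (D u) :=
          fun hD _ hu => (hOc n p R h.cy s t hF _ _ _ hD _).1 hu
        have hzS : z ∈ S := by
          rcases h.az.pu D hD with ⟨E, hE, e3⟩ | ⟨E, hE, e3⟩
          · exfalso
            apply hne
            rw [e1, e3, smul_mul_assoc]
            exact pz _ _ (jab (hOO hE h.az.pc)) (jbg (Cvu_pc hm _ _ _))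
          · rw [← e3, ← e1]
            exact hO1.2.1 E hE S ht _ hu1
        have hzS' : z' ∈ S := by
          rcases h.az'.pu D' hD' with ⟨E, hE, e3⟩ | ⟨E, hE, e3⟩
          · exfalso
            apply hne
            rw [e2, e3, mul_smul_comm]
            exact pz _ _ (jab (Cvu_pc hm _ _ _)) (jbg (hOO hE h.az'.pc))
          · rw [← e3, ← e2]
            exact hO2.2.1 E hE S ht _ hu2
        refine eq_top_iff.2 ?_
        rw [← h.gen]
        refine NonUnitalSubring.closure_le.2 ?_
        rintro x (⟨i, rfl⟩ | rfl | rfl)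
        · exact ht i
        · exact hzS
        · exact hzS'
      · exact h0 _ _
  · refine ⟨vx t (fun k => if k = 0 then z else if k = 1 then z' else 0), ⟨?_, ?_⟩, ?_⟩
    · have e3 : (fun i : Fin s => vx t (fun k => if k = 0 then z else if k = 1 then z' else 0) i) =
          t := by
        funext i
        unfold vx
        rw [dif_pos i.2]
      rw [e3]
      exact hF
    · intro k hk
      have e2 : vx t (fun k => if k = 0 then z else if k = 1 then z' else 0) (s + k) =
          if k = 0 then z else if k = 1 then z' else 0 := by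
        unfold vx
        rw [dif_neg (by omega), Nat.add_sub_cancel_left]
      rw [e2]
      split_ifs
      · exact h.az.nl
      · exact h.az'.nl
      · unfold Nl
        simp
    · have hv3 : ∀ i : Fin s, om n (vx t (fun k => if k = 0 then z else if k = 1 then z' else 0) i) =
          (fun i => om n (t i)) ((Equiv.refl (Fin s)) i) := by
        intro i
        unfold vx
        rw [dif_pos i.2]
        rfl
      rw [Cvu_Pf (e := fun i => om n (t i)) (Equiv.refl (Fin s)) hv3 α β γ]
      have id1 : ∀ a : Option (Fin s), a.map (Equiv.refl (Fin s)) = a := fun a => by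
        rcases a with _ | i <;> rfl
      rw [id1, id1, id1]
      have e0 : vx t (fun k => if k = 0 then z else if k = 1 then z' else 0) s = z := by
        unfold vx
        rw [dif_neg (by omega), Nat.sub_self]
        exact if_pos rfl
      have e1 : vx t (fun k => if k = 0 then z else if k = 1 then z' else 0) (s + 1) = z' := by
        unfold vx
        rw [dif_neg (by omega), Nat.add_sub_cancel_left]
        exact (if_neg one_ne_zero).trans (if_pos rfl)
      rw [e0, e1, Cvu_self h.az.pc, Cvu_self h.az'.pc]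
      exact h.ne

end Pool.Agent.CRM
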