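import Pool.Agent.CRM.Stc
import Pool.Agent.CRL.All

/-!
Campaign CRM, module GBP: path functions which satisfy the conditions at frames of the same kind make the
ring critical (helper36).
-/

set_option autoImplicit false

namespace Pool.Agent.CRM

open Pool.Agent.CRR Pool.Agent.CRN Pool.Agent.CRK Pool.Agent.CRL

section gbp

variable {R : Type} [NonUnitalRing R]

/-! ### components -/

theorem Gbp_lc_congr {s : ℕ} {d d' : ℕ → R} (h : ∀ i, i < s → d i = d' i) (a : Option (Fin s))
    (y : R) : lc d a y = lc d' a y := by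
  cases a with
  | some i =>
    show d i * y = d' i * y
    rw [h i i.2]
  | none =>
    show y - ∑ i : Fin s, d i * y = y - ∑ i : Fin s, d' i * y
    rw [Finset.sum_congr rfl fun i _ => by rw [h (i : ℕ) i.2]]

theorem Gbp_rc_congr {s : ℕ} {d d' : ℕ → R} (h : ∀ i, i < s → d i = d' i) (a : Option (Fin s))
    (y : R) : rc d a y = rc d' a y := by
  cases a with
  | some i =>
    show y * d i = y * d' i
    rw [h i i.2]
  | none =>
    show y - ∑ i : Fin s, y * d i = y - ∑ i : Fin s, y * d' i
    rw [Finset.sum_congr rfl fun i _ => by rw [h (i : ℕ) i.2]]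

theorem Gbp_lc_add {s : ℕ} (d : ℕ → R) (a : Option (Fin s)) (x y : R) :
    lc d a (x + y) = lc d a x + lc d a y := by
  cases a with
  | some i => exact mul_add _ _ _
  | none =>
    show x + y - ∑ i : Fin s, d i * (x + y) =
      (x - ∑ i : Fin s, d i * x) + (y - ∑ i : Fin s, d i * y)
    have h1 : ∑ i : Fin s, d i * (x + y) = ∑ i : Fin s, d i * x + ∑ i : Fin s, d i * y := by
      rw [← Finset.sum_add_distrib]
      exact Finset.sum_congr rfl fun i _ => mul_add (d i) x y
    rw [h1]
    abel

theorem Gbp_rc_add {s : ℕ} (d : ℕ → R) (a : Option (Fin s)) (x y : R) :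
    rc d a (x + y) = rc d a x + rc d a y := by
  cases a with
  | some i => exact add_mul _ _ _
  | none =>
    show x + y - ∑ i : Fin s, (x + y) * d i =
      (x - ∑ i : Fin s, x * d i) + (y - ∑ i : Fin s, y * d i)
    have h1 : ∑ i : Fin s, (x + y) * d i = ∑ i : Fin s, x * d i + ∑ i : Fin s, y * d i := by
      rw [← Finset.sum_add_distrib]
      exact Finset.sum_congr rfl fun i _ => add_mul x y (d i)
    rw [h1]
    abel

theorem Gbp_pj_congr (n : ℕ) {s : ℕ} {v v' : ℕ → R} (h : ∀ i, i < s → v i = v' i)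
    (γ δ : Option (Fin s)) (x : R) : pj n s v γ δ x = pj n s v' γ δ x := by
  have h1 : ∀ i, i < s → om n (v i) = om n (v' i) := fun i hi => by rw [h i hi]
  unfold pj
  rw [Gbp_lc_congr h1, Gbp_rc_congr h1]

theorem Gbp_pj_add (n : ℕ) {s : ℕ} (v : ℕ → R) (γ δ : Option (Fin s)) (x y : R) :
    pj n s v γ δ (x + y) = pj n s v γ δ x + pj n s v γ δ y := by
  unfold pj
  rw [Gbp_lc_add, Gbp_rc_add]

theorem Gbp_lf_congr (n : ℕ) {s : ℕ} {v v' : ℕ → R} (h : ∀ i, i < s → v i = v' i)
    (γ δ : Option (Fin s)) (tw : Bool) (x : R) : lf n s v γ δ tw x = lf n s v' γ δ tw x := by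
  cases tw with
  | false =>
    show pj n s v γ δ x = pj n s v' γ δ x
    exact Gbp_pj_congr n h γ δ x
  | true =>
    cases γ with
    | none => rfl
    | some i =>
      show pj n s v (some i) δ x * v i - v i * pj n s v (some i) δ x =
        pj n s v' (some i) δ x * v' i - v' i * pj n s v' (some i) δ x
      rw [Gbp_pj_congr n h, h i i.2]

theorem Gbp_lf_add (n : ℕ) {s : ℕ} (v : ℕ → R) (γ δ : Option (Fin s)) (tw : Bool) (x y : R) :
    lf n s v γ δ tw (x + y) = lf n s v γ δ tw x + lf n s v γ δ tw y := by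
  cases tw with
  | false => exact Gbp_pj_add n v γ δ x y
  | true =>
    cases γ with
    | none =>
      show (0 : R) = 0 + 0
      rw [add_zero]
    | some i =>
      show pj n s v (some i) δ (x + y) * v i - v i * pj n s v (some i) δ (x + y) =
        (pj n s v (some i) δ x * v i - v i * pj n s v (some i) δ x) +
          (pj n s v (some i) δ y * v i - v i * pj n s v (some i) δ y)
      rw [Gbp_pj_add, add_mul, mul_add]
      abel

theorem Gbp_lf_zero (n : ℕ) {s : ℕ} (v : ℕ → R) (γ δ : Option (Fin s)) (tw : Bool) :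
    lf n s v γ δ tw 0 = 0 := by
  have h := Gbp_lf_add n v γ δ tw 0 0
  rw [add_zero] at h
  exact left_eq_add.1 h

/-! ### term functions -/

theorem Gbp_tm_lf (n : ℕ) {s : ℕ} (γ δ : Option (Fin s)) (tw : Bool) (j : ℕ) :
    TmF (R := R) (fun v => lf n s v γ δ tw (v j)) := by
  have hd : ∀ i : ℕ, TmF (R := R) (fun v => om n (v i)) := fun i => (TmF.var i).om n
  have hp : ∀ γ : Option (Fin s), TmF (R := R) (fun v => pj n s v γ δ (v j)) := fun γ =>
    Gvt_rc hd δ (Gvt_lc hd γ (TmF.var j))
  cases tw with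
  | false => exact hp γ
  | true =>
    cases γ with
    | none => exact TmF.zero
    | some i => exact ((hp (some i)).mul (TmF.var i)).sub ((TmF.var i).mul (hp (some i)))

theorem Gbp_cons (x : R) {l : List R} (h : l ≠ []) : wp (x :: l) = x * wp l := by
  cases l with
  | nil => exact absurd rfl h
  | cons y l => rfl

theorem Gbp_tm_wp (f : ℕ → (ℕ → R) → R) (hf : ∀ k, TmF (f k)) (l : List ℕ) :
    TmF (R := R) (fun v => wp (l.map fun k => f k v)) := by
  induction l with
  | nil => exact TmF.zero
  | cons k l ih =>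
    cases l with
    | nil => exact hf k
    | cons j l => exact (hf k).mul ih

theorem Gbp_tm_smul {φ : (ℕ → R) → R} (h : TmF φ) (q : ℕ) : TmF (fun v => q • φ v) := by
  induction q with
  | zero =>
    have : (fun v => 0 • φ v) = fun _ : ℕ → R => (0 : R) := by
      funext v
      exact zero_nsmul _
    rw [this]
    exact TmF.zero
  | succ q ih =>
    have : (fun v => (q + 1) • φ v) = fun v : ℕ → R => q • φ v + φ v := by
      funext v
      exact succ_nsmul _ _
    rw [this]
    exact ih.add h

theorem Gbp_tm (n s b q : ℕ) (γ δ : ℕ → Option (Fin s)) (tw : ℕ → Bool) :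
    TmF (R := R) (Pf n s b q γ δ tw) :=
  Gbp_tm_smul (Gbp_tm_wp (fun k v => lf n s v (γ k) (δ k) (tw k) (v (s + k)))
    (fun k => Gbp_tm_lf n (γ k) (δ k) (tw k) (s + k)) (List.range b)) q

/-! ### additivity -/

theorem Gbp_list (l : List ℕ) (hn : l.Nodup) (k : ℕ) (hk : k ∈ l) (f g h : ℕ → R)
    (hfk : f k = g k + h k) (hfg : ∀ j, j ≠ k → f j = g j) (hfh : ∀ j, j ≠ k → f j = h j) :
    wp (l.map f) = wp (l.map g) + wp (l.map h) := by
  induction l with
  | nil => exact absurd hk List.not_mem_nil
  | cons i l ih =>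
    have hni := (List.nodup_cons.1 hn).1
    have hnl := (List.nodup_cons.1 hn).2
    by_cases hl : l = []
    · subst hl
      rw [List.mem_singleton.1 hk] at hfk
      exact hfk
    · rw [List.map_cons, List.map_cons, List.map_cons, Gbp_cons _ (by simpa using hl),
        Gbp_cons _ (by simpa using hl), Gbp_cons _ (by simpa using hl)]
      rcases List.mem_cons.1 hk with h1 | h1
      · have e1 : l.map f = l.map g := List.map_congr_left fun j hj => hfg j fun hjk => by
          rw [hjk, h1] at hj
          exact hni hj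
        have e2 : l.map f = l.map h := List.map_congr_left fun j hj => hfh j fun hjk => by
          rw [hjk, h1] at hj
          exact hni hj
        rw [← e1, ← e2, ← h1, hfk, add_mul]
      · have hik : i ≠ k := fun hc => by
          rw [hc] at hni
          exact hni h1
        rw [ih hnl h1, ← hfg i hik, ← hfh i hik, mul_add]

/-! ### automorphisms -/

theorem Gbp_pw (θ : R ≃+* R) (x : R) (k : ℕ) : pw (θ x) k = θ (pw x k) := by
  induction k with
  | zero => rfl
  | succ k ih =>
    show pw (θ x) k * θ x = θ (pw x k * x)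
    rw [ih, map_mul]

theorem Gbp_nl (θ : R ≃+* R) {x : R} (h : Nl x) : Nl (θ x) := by
  unfold Nl at h ⊢
  rw [← map_mul, ← map_mul, h, map_zero]

theorem Gbp_frame (θ : R ≃+* R) (n s : ℕ) (t : Fin s → R) (h : Frame R n s t) :
    Frame R n s (fun i => θ (t i)) := by
  refine ⟨?_, ?_, ?_, ?_, ?_⟩
  · intro i j hij
    show θ (t i) * θ (t j) = 0
    rw [← map_mul, h.orth i j hij, map_zero]
  · intro i hi
    exact h.ne i ((map_eq_zero_iff θ θ.injective).1 hi)
  · intro i
    obtain ⟨m, h1, h2, h3⟩ := h.per i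
    refine ⟨m, h1, h2, ?_⟩
    show pw (θ (t i)) m = θ (t i)
    rw [Gbp_pw, h3]
  · intro i x hx hx'
    have hom : om n (θ (t i)) = θ (om n (t i)) := Gbp_pw θ _ _
    simp only [hom] at hx hx'
    have h1 := h.gen i (θ.symm x) (by
      apply θ.injective
      rw [map_mul, θ.apply_symm_apply]
      exact hx) (by
      apply θ.injective
      rw [map_mul, θ.apply_symm_apply]
      exact hx')
    rcases h1 with h1 | ⟨k, h1⟩
    · left
      have h2 := Gbp_nl θ h1
      rwa [θ.apply_symm_apply] at h2
    · right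
      refine ⟨k, ?_⟩
      have h2 := Gbp_nl θ h1
      rw [map_sub, θ.apply_symm_apply, ← Gbp_pw] at h2
      exact h2
  · intro g hg h0
    have h1 := h.max (θ.symm g) (by rw [← map_mul, hg]) fun i => by
      constructor
      · apply θ.injective
        rw [map_mul, θ.apply_symm_apply, map_zero]
        exact (h0 i).1
      · apply θ.injective
        rw [map_mul, θ.apply_symm_apply, map_zero]
        exact (h0 i).2
    exact (map_eq_zero_iff θ.symm θ.symm.injective).1 h1

theorem Gbp_inv (θ : R ≃+* R) (H : AddSubgroup R) (hH : Lst R H) {x : R} (hx : θ x ∈ H) :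
    x ∈ H := by
  have hI : H ≤ H.comap (θ.symm : R →+ R) := by
    apply hH.2.2
    · intro r y hy
      have hy' : θ.symm y ∈ H := hy
      have h1 := hH.1 (θ.symm r) (θ.symm y) hy'
      constructor
      · show θ.symm (r * y) ∈ H
        rw [map_mul]
        exact h1.1
      · show θ.symm (y * r) ∈ H
        rw [map_mul]
        exact h1.2
    · intro hb
      apply hH.2.1
      rw [eq_bot_iff]
      intro y hy
      have h1 : θ y ∈ H.comap (θ.symm : R →+ R) := by
        show θ.symm (θ y) ∈ H
        rw [θ.symm_apply_apply]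
        exact hy
      rw [hb, AddSubgroup.mem_bot] at h1
      rw [AddSubgroup.mem_bot]
      exact (map_eq_zero_iff θ θ.injective).1 h1
  have h1 : θ.symm (θ x) ∈ H := hI hx
  rwa [θ.symm_apply_apply] at h1

end gbp

theorem thm_Gbp (hCnj : St_Cnj) : St_Gbp := by
  intro n p R _ _ hC H hH s t hF b q γ δ tw hb hyp hne
  obtain ⟨φ, hφ⟩ : ∃ φ : (ℕ → R) → R, φ = Pf n s b q γ δ tw := ⟨_, rfl⟩
  rw [← hφ] at hyp hne
  have htm : TmF φ := by
    rw [hφ]
    exact Gbp_tm n s b q γ δ tw
  have htr : ∀ v : ℕ → R, Vec n s b v → ∃ θ : R ≃+* R,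
      Vec n s b (fun i => θ (v i)) ∧ Sam n s t (fun i => θ (v i)) := by
    intro v hv
    obtain ⟨θ, π, h⟩ := hCnj n p R hC s t (fun i => v i) hF hv.1
    exact ⟨θ, ⟨Gbp_frame θ n s _ hv.1, fun k hk => Gbp_nl θ (hv.2 k hk)⟩, π, h⟩
  have hlist : ∀ (v : ℕ → R), φ v =
      q • wp ((List.range b).map fun k => lf n s v (γ k) (δ k) (tw k) (v (s + k))) := by
    intro v
    rw [hφ]
    rfl
  have hupf : ∀ (v : ℕ → R) (k : ℕ) (y : R), ∀ i, i < s →
      Function.update v (s + k) y i = v i := by
    intro v k y i hi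
    exact Function.update_of_ne (by omega) _ _
  refine CRL.bkw n p R hC H s b φ hH ?_ hb
  refine ⟨⟨⟨htm, ?_, ?_, ?_, hne⟩, ?_⟩, ?_, ?_⟩
  · intro v v' h
    rw [hlist, hlist]
    congr 2
    apply List.map_congr_left
    intro k hk
    rw [List.mem_range] at hk
    show lf n s v (γ k) (δ k) (tw k) (v (s + k)) = lf n s v' (γ k) (δ k) (tw k) (v' (s + k))
    rw [h (s + k) (by omega)]
    exact Gbp_lf_congr n (fun i hi => h i (by omega)) _ _ _ _
  · intro v hv
    obtain ⟨θ, h1, h2⟩ := htr v hv
    have h3 := (hyp _ h1 h2).1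
    rw [htm.map θ v] at h3
    exact Gbp_inv θ H hH h3
  · intro v hv S hS hvS
    obtain ⟨θ, h1, h2⟩ := htr v hv
    have h3 := (hyp _ h1 h2).2.2 (S.map (θ : R →ₙ+* R)) ?_ ?_
    · rw [htm.map θ v] at h3
      exact (map_eq_zero_iff θ θ.injective).1 h3
    · intro htop
      apply hS
      rw [eq_top_iff]
      intro x _
      have h4 : θ x ∈ S.map (θ : R →ₙ+* R) := by
        rw [htop]
        trivial
      obtain ⟨y, hy, hyx⟩ := NonUnitalSubring.mem_map.1 h4
      have h5 : y = x := θ.injective hyx
      rwa [← h5]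
    · intro i hi
      exact NonUnitalSubring.mem_map.2 ⟨v i, hvS i hi, rfl⟩
  · intro v _ k hk h0
    rw [hlist, Wrd_wp_zero, smul_zero]
    rw [List.mem_map]
    refine ⟨k, List.mem_range.2 hk, ?_⟩
    show lf n s v (γ k) (δ k) (tw k) (v (s + k)) = 0
    rw [h0, Gbp_lf_zero]
  · intro v _ k hk y z _ _
    rw [hlist, hlist, hlist, ← smul_add]
    congr 1
    refine Gbp_list (List.range b) List.nodup_range k (List.mem_range.2 hk) _ _ _ ?_ ?_ ?_
    · simp only [Function.update_self]
      rw [Gbp_lf_congr n (hupf v k (y + z)), Gbp_lf_congr n (hupf v k y),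
        Gbp_lf_congr n (hupf v k z), Gbp_lf_add]
    · intro j hj
      have hjs : s + j ≠ s + k := by omega
      simp only [Function.update_of_ne hjs]
      rw [Gbp_lf_congr n (hupf v k (y + z)), Gbp_lf_congr n (hupf v k y)]
    · intro j hj
      have hjs : s + j ≠ s + k := by omega
      simp only [Function.update_of_ne hjs]
      rw [Gbp_lf_congr n (hupf v k (y + z)), Gbp_lf_congr n (hupf v k z)]
  · intro v hv k hk y z hy hz
    obtain ⟨θ, h1, h2⟩ := htr v hv
    have h3 := (hyp _ h1 h2).2.1 k hk (θ y) (θ z) (Gbp_nl θ hy) (Gbp_nl θ hz)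
    have e : Function.update (fun i => θ (v i)) (s + k) (θ y * θ z) =
        fun i => θ (Function.update v (s + k) (y * z) i) := by
      funext i
      by_cases hi : i = s + k
      · rw [hi, Function.update_self, Function.update_self, map_mul]
      · rw [Function.update_of_ne hi, Function.update_of_ne hi]
    rw [e, htm.map θ] at h3
    exact (map_eq_zero_iff θ θ.injective).1 h3

end Pool.Agent.CRM
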