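import Pool.Agent.CRM.St
import Pool.Agent.CRL.All

/-!
Campaign CRM, module Twi: a pure loop commutes with `t_i` or is twisted.
-/

set_option autoImplicit false

namespace Pool.Agent.CRM

open Pool.Agent.CRR Pool.Agent.CRN Pool.Agent.CRK Pool.Agent.CRL

section

variable {R : Type} [NonUnitalRing R]

theorem Twi_lpow (t : R) (k : ℕ) (x : R) :
    (AddMonoid.End.mulLeft t ^ (k + 1)) x = pw t k * x := by
  induction k generalizing x with
  | zero =>
    rw [zero_add, pow_one]
    rfl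
  | succ k ih =>
    rw [pow_succ]
    show (AddMonoid.End.mulLeft t ^ (k + 1)) (t * x) = pw t k * t * x
    rw [ih, mul_assoc]

theorem Twi_rpow (t : R) (k : ℕ) (x : R) :
    (AddMonoid.End.mulRight t ^ (k + 1)) x = x * pw t k := by
  induction k with
  | zero =>
    rw [zero_add, pow_one]
    rfl
  | succ k ih =>
    rw [pow_succ']
    show (AddMonoid.End.mulRight t ^ (k + 1)) x * t = x * (pw t k * t)
    rw [ih, mul_assoc]

/-- the geometric sum -/
theorem Twi_geom {A : Type} [Ring A] (O : Subring A) {l r : A} (hl : l ∈ O) (hr : r ∈ O)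
    (hc : ∀ x ∈ O, ∀ y ∈ O, x * y = y * x) (m : ℕ) :
    ∃ S ∈ O, ∃ X ∈ O, (r - l) * S = r ^ m - l ^ m ∧
      S = m • l ^ (m - 1) + (r - l) * X := by
  have hcomm : Commute r l := hc r hr l hl
  have hG : ∀ k, (r - l) * (∑ j ∈ Finset.range k, r ^ j * l ^ (k - 1 - j)) = r ^ k - l ^ k :=
    fun k => hcomm.mul_geom_sum₂ k
  have hGm : ∀ k, (∑ j ∈ Finset.range k, r ^ j * l ^ (k - 1 - j)) ∈ O := fun k =>
    O.sum_mem fun j _ => O.mul_mem (O.pow_mem hr _) (O.pow_mem hl _)
  refine ⟨∑ j ∈ Finset.range m, r ^ j * l ^ (m - 1 - j), hGm m,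
    ∑ k ∈ Finset.range m, (∑ j ∈ Finset.range k, r ^ j * l ^ (k - 1 - j)) * l ^ (m - 1 - k),
    O.sum_mem fun k _ => O.mul_mem (hGm k) (O.pow_mem hl _), hG m, ?_⟩
  rw [Finset.mul_sum]
  have h1 : m • l ^ (m - 1) = ∑ k ∈ Finset.range m, l ^ (m - 1) := by
    rw [Finset.sum_const, Finset.card_range]
  rw [h1, ← Finset.sum_add_distrib]
  refine Finset.sum_congr rfl fun k hk => ?_
  rw [← mul_assoc, hG k, sub_mul, ← pow_add]
  have h2 : k + (m - 1 - k) = m - 1 := by
    have := Finset.mem_range.1 hk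
    omega
  rw [h2]
  abel

theorem Twi_coprime {G : Type} [AddCommGroup G] {b : G} {u v : ℕ} (h : u.Coprime v)
    (hu : u • b = 0) (hv : v • b = 0) : b = 0 := by
  have h1 : addOrderOf b ∣ u := addOrderOf_dvd_of_nsmul_eq_zero hu
  have h2 : addOrderOf b ∣ v := addOrderOf_dvd_of_nsmul_eq_zero hv
  have h3 : addOrderOf b = 1 := Nat.dvd_one.1 (by
    have := Nat.dvd_gcd h1 h2
    rwa [h] at this)
  exact AddMonoid.addOrderOf_eq_one_iff.1 h3

end

/-- **TWI** -/
theorem thm_Twi (hO : St_Ops) : St_Twi := by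
  intro n p R _ _ hC s t hF i a hP hpu
  obtain ⟨o1, -⟩ := hO R s t (some i) (some i)
  obtain ⟨-, hf, -⟩ := CRL.fpr n p R hC s t hF
  obtain ⟨ht1, ht2, -, hpow⟩ := hf i
  obtain ⟨m, hm1, hmc, hmt⟩ := hF.per i
  obtain ⟨r, hr⟩ := hC.pr
  have hmp : m.Coprime p := (CRL.thm_Crd R p r hC.pp hr).2 ⟨t i, hF.ne i⟩ m hmc
  have he : pw (t i) (m - 1) = om n (t i) := hpow m hm1 hmt
  have hea : om n (t i) * a = a := by
    have := hP.1 i
    rwa [if_pos rfl] at this
  have hae : a * om n (t i) = a := by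
    have := hP.2 i
    rwa [if_pos rfl] at this
  set O := Ops t (some i) (some i) with hOdef
  set l : AddMonoid.End R := AddMonoid.End.mulLeft (t i) with hl
  set r' : AddMonoid.End R := AddMonoid.End.mulRight (t i) with hr'
  have hlO : l ∈ O := Subring.subset_closure (Or.inl ⟨i, rfl, rfl⟩)
  have hrO : r' ∈ O := Subring.subset_closure (Or.inr ⟨i, rfl, rfl⟩)
  have hcomm : ∀ x ∈ O, ∀ y ∈ O, x * y = y * x := fun x hx y hy =>
    AddMonoidHom.ext fun z => o1 x hx y hy z
  have hD0 : r' - l ∈ O := O.sub_mem hrO hlO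
  have hD0a : ∀ x, (r' - l) x = x * t i - t i * x := fun x => rfl
  rcases hpu (r' - l) hD0 with ⟨D', hD', h1⟩ | ⟨D', hD', h1⟩
  · left
    obtain ⟨S, hS, X, hX, g1, g2⟩ := Twi_geom O hlO hrO hcomm m
    set b := (r' - l) a with hb
    have hb0 : b = 0 := by
      have hm2 : m - 1 + 1 = m := by omega
      -- `S b = 0`
      have e1 : S b = 0 := by
        have h2 : S b = ((r' - l) * S) a := by
          rw [hcomm _ hD0 _ hS]
          rfl
        rw [h2, g1]
        show (r' ^ m) a - (l ^ m) a = 0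
        rw [← hm2, hr', hl, Twi_rpow, Twi_lpow, he, hea, hae, sub_self]
      -- `(r' - l) b = p D' b`
      have e2 : (r' - l) b = p • D' b := by
        have h2 : (r' - l) b = (r' - l) (p • D' a) := by rw [← h1]
        rw [h2, map_nsmul, o1 _ hD0 _ hD' a]
      have e3 : m • (l ^ (m - 1)) b + p • D' (X b) = 0 := by
        have h2 : S b = m • (l ^ (m - 1)) b + (r' - l) (X b) := by
          rw [g2]
          rfl
        rw [← e1, h2, o1 _ hD0 _ hX b, e2, map_nsmul, o1 _ hX _ hD' b]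
      have hlb : l ((l ^ (m - 1)) b) = b := by
        have h2 : l ((l ^ (m - 1)) b) = (l ^ (m - 1 + 1)) b := by
          rw [pow_succ']
          rfl
        rw [h2, hl, Twi_lpow, he, hb, hD0a, mul_sub, ← mul_assoc, ← mul_assoc, hea, ht2]
      have e4 : ∀ k : ℕ, ∃ Y ∈ O, (m ^ k) • b = (p ^ k) • Y b := by
        intro k
        induction k with
        | zero => exact ⟨1, O.one_mem, by simp⟩
        | succ k ih =>
          obtain ⟨Y, hY, hk⟩ := ih
          refine ⟨-(Y * (l * (D' * X))), O.neg_mem (O.mul_mem hY (O.mul_mem hlO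
            (O.mul_mem hD' hX))), ?_⟩
          have h2 : m • b = p • (-(l (D' (X b)))) := by
            have h3 := congrArg l e3
            rw [map_add, map_nsmul, map_nsmul, map_zero, hlb] at h3
            rw [smul_neg]
            exact eq_neg_of_add_eq_zero_left h3
          rw [pow_succ, mul_smul, smul_comm, hk, smul_comm, ← map_nsmul Y, h2]
          show p ^ k • Y (p • -(l (D' (X b)))) = p ^ (k + 1) • (-(Y (l (D' (X b)))))
          rw [map_nsmul, map_neg, pow_succ, mul_smul]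
      obtain ⟨Y, -, hY⟩ := e4 r
      rw [hr] at hY
      exact Twi_coprime (hmp.pow r r) hY (hr b)
    have h2 : a * t i - t i * a = 0 := hb0
    exact (sub_eq_zero.1 h2).symm
  · right
    exact ⟨D', hD', h1⟩

end Pool.Agent.CRM
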