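import Pool.Agent.CRM.Stc
import Pool.Agent.CRM.Rul
import Pool.Agent.CRM.DopA
import Pool.Agent.CRM.Twi
import Pool.Agent.CRM.Gbp
import Pool.Agent.CRN.Pca
import Pool.Agent.CRL.All

/-!
Campaign CRM, module CVX: rings of the type V with a twisted loop are critical.
-/

set_option autoImplicit false

namespace Pool.Agent.CRM

open Pool.Agent.CRR Pool.Agent.CRN Pool.Agent.CRK Pool.Agent.CRL

section comp

variable {R : Type} [NonUnitalRing R] {s : ℕ} {e : Fin s → R}

theorem Cvx_lc {d : ℕ → R} {π : Equiv.Perm (Fin s)} (hd : ∀ j : Fin s, d j = e (π j))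
    (α γ δ : Option (Fin s)) {x : R} (hx : Pc e γ δ x) :
    lc d α x = if α.map π = γ then x else 0 := by
  cases α with
  | some i =>
    show d i * x = _
    rw [hd, hx.1]
    by_cases h : γ = some (π i)
    · exact (if_pos h).trans (if_pos (show (some i).map π = γ from h.symm)).symm
    · exact (if_neg h).trans (if_neg (show ¬ (some i).map π = γ from fun h' => h h'.symm)).symm
  | none =>
    show x - ∑ j : Fin s, d j * x = _
    have h1 : ∀ j : Fin s, d j * x = if γ = some (π j) then x else 0 := fun j => by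
      rw [hd, hx.1]
    rw [Finset.sum_congr rfl fun j _ => h1 j]
    cases γ with
    | none =>
      rw [Finset.sum_eq_zero fun j _ => if_neg (by simp), sub_zero]
      exact (if_pos (show (none : Option (Fin s)).map π = none from rfl)).symm
    | some k =>
      rw [if_neg (show ¬ (none : Option (Fin s)).map π = some k by simp),
        Finset.sum_eq_single (π.symm k)]
      · rw [if_pos (by simp), sub_self]
      · intro j _ hj
        refine if_neg fun h => hj ?_
        have h2 : k = π j := Option.some.inj h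
        rw [h2, Equiv.symm_apply_apply]
      · intro h
        exact absurd (Finset.mem_univ _) h

theorem Cvx_rc {d : ℕ → R} {π : Equiv.Perm (Fin s)} (hd : ∀ j : Fin s, d j = e (π j))
    (β γ δ : Option (Fin s)) {x : R} (hx : Pc e γ δ x) :
    rc d β x = if β.map π = δ then x else 0 := by
  cases β with
  | some i =>
    show x * d i = _
    rw [hd, hx.2]
    by_cases h : δ = some (π i)
    · exact (if_pos h).trans (if_pos (show (some i).map π = δ from h.symm)).symm
    · exact (if_neg h).trans (if_neg (show ¬ (some i).map π = δ from fun h' => h h'.symm)).symm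
  | none =>
    show x - ∑ j : Fin s, x * d j = _
    have h1 : ∀ j : Fin s, x * d j = if δ = some (π j) then x else 0 := fun j => by
      rw [hd, hx.2]
    rw [Finset.sum_congr rfl fun j _ => h1 j]
    cases δ with
    | none =>
      rw [Finset.sum_eq_zero fun j _ => if_neg (by simp), sub_zero]
      exact (if_pos (show (none : Option (Fin s)).map π = none from rfl)).symm
    | some k =>
      rw [if_neg (show ¬ (none : Option (Fin s)).map π = some k by simp),
        Finset.sum_eq_single (π.symm k)]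
      · rw [if_pos (by simp), sub_self]
      · intro j _ hj
        refine if_neg fun h => hj ?_
        have h2 : k = π j := Option.some.inj h
        rw [h2, Equiv.symm_apply_apply]
      · intro h
        exact absurd (Finset.mem_univ _) h

theorem Cvx_pc0 (α β : Option (Fin s)) : Pc e α β (0 : R) := (Dop_jc_zero (e := e)).1

theorem Cvx_pj_pc {n : ℕ} {v : ℕ → R} {π : Equiv.Perm (Fin s)}
    (hd : ∀ j : Fin s, om n (v j) = e (π j)) (α β γ δ : Option (Fin s)) {x : R}
    (hx : Pc e γ δ x) : pj n s v α β x = if α.map π = γ ∧ β.map π = δ then x else 0 := by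
  unfold pj
  rw [Cvx_lc (d := fun i => om n (v i)) hd α γ δ hx]
  by_cases h1 : α.map π = γ
  · rw [if_pos h1, Cvx_rc (d := fun i => om n (v i)) hd β γ δ hx]
    by_cases h2 : β.map π = δ
    · rw [if_pos h2, if_pos ⟨h1, h2⟩]
    · rw [if_neg h2, if_neg (fun h => h2 h.2)]
  · rw [if_neg h1, Cvx_rc (d := fun i => om n (v i)) hd β γ δ (Cvx_pc0 γ δ),
      if_neg (fun h : α.map π = γ ∧ β.map π = δ => h1 h.1), ite_self]

/-- the component is the member of the decomposition -/
theorem Cvx_pj {n : ℕ} {v : ℕ → R} {π : Equiv.Perm (Fin s)}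
    (hd : ∀ j : Fin s, om n (v j) = e (π j)) (α β : Option (Fin s)) {x : R}
    {c : Option (Fin s) → Option (Fin s) → R} (hc : ∀ γ δ, Pc e γ δ (c γ δ))
    (hsum : ∑ γ, ∑ δ, c γ δ = x) : pj n s v α β x = c (α.map π) (β.map π) := by
  obtain ⟨f, hf⟩ : ∃ f : R →+ R, f = AddMonoidHom.mk' (pj n s v α β) (Gbp_pj_add n v α β) :=
    ⟨_, rfl⟩
  have hfx : ∀ y, f y = pj n s v α β y := fun y => by rw [hf]; rfl
  rw [← hfx, ← hsum, map_sum, Finset.sum_eq_single (α.map π)]
  · rw [map_sum, Finset.sum_eq_single (β.map π)]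
    · rw [hfx, Cvx_pj_pc hd α β _ _ (hc _ _), if_pos ⟨rfl, rfl⟩]
    · intro δ _ hδ
      rw [hfx, Cvx_pj_pc hd α β _ _ (hc _ _), if_neg (fun h => hδ h.2.symm)]
    · intro h
      exact absurd (Finset.mem_univ _) h
  · intro γ _ hγ
    rw [map_sum]
    refine Finset.sum_eq_zero fun δ _ => ?_
    rw [hfx, Cvx_pj_pc hd α β _ _ (hc _ _), if_neg (fun h => hγ h.1.symm)]
  · intro h
    exact absurd (Finset.mem_univ _) h

theorem Cvx_sum_pc (α β : Option (Fin s)) {ι : Type} (T : Finset ι) (f : ι → R)
    (h : ∀ j ∈ T, Pc e α β (f j)) : Pc e α β (∑ j ∈ T, f j) := by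
  classical
  induction T using Finset.induction_on with
  | empty => rw [Finset.sum_empty]; exact Cvx_pc0 α β
  | insert j T hj ih =>
    rw [Finset.sum_insert hj]
    exact Rul_add (h j (Finset.mem_insert_self j T))
      (ih fun k hk => h k (Finset.mem_insert_of_mem hk))

/-- the decomposition of a product -/
theorem Cvx_prod {x y : R} {c c' : Option (Fin s) → Option (Fin s) → R}
    (hc : ∀ γ δ, Pc e γ δ (c γ δ)) (hsum : ∑ γ, ∑ δ, c γ δ = x)
    (hc' : ∀ γ δ, Pc e γ δ (c' γ δ)) (hsum' : ∑ γ, ∑ δ, c' γ δ = y) :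
    (∀ γ δ, Pc e γ δ (∑ ε, c γ ε * c' ε δ)) ∧ ∑ γ, ∑ δ, ∑ ε, c γ ε * c' ε δ = x * y := by
  refine ⟨fun γ δ => Cvx_sum_pc γ δ _ _ fun ε _ => Rul_mul (hc γ ε) (hc' ε δ), ?_⟩
  rw [← hsum, Finset.sum_mul]
  refine Finset.sum_congr rfl fun γ _ => ?_
  rw [Finset.sum_mul, Finset.sum_comm]
  refine Finset.sum_congr rfl fun ε _ => ?_
  symm
  rw [← hsum', Finset.mul_sum, Finset.sum_eq_single ε]
  · rw [Finset.mul_sum]
  · intro ε' _ hε
    rw [Finset.mul_sum]
    exact Finset.sum_eq_zero fun δ _ => Rul_zero (Ne.symm hε) (hc γ ε) (hc' ε' δ)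
  · intro h
    exact absurd (Finset.mem_univ _) h

theorem Cvx_j2_idl (he : Hm e) : Idl R (J2 R) := by
  intro r x hx
  unfold J2 at hx ⊢
  refine AddSubgroup.closure_induction (p := fun x _ => r * x ∈ AddSubgroup.closure
    {w | ∃ a b : R, Nl a ∧ Nl b ∧ w = a * b} ∧ x * r ∈ AddSubgroup.closure
    {w | ∃ a b : R, Nl a ∧ Nl b ∧ w = a * b}) ?_ ?_ ?_ ?_ hx
  · rintro _ ⟨a, b, ha, hb, rfl⟩
    constructor
    · rw [← mul_assoc]
      exact AddSubgroup.subset_closure ⟨r * a, b, (he.mul r a ha).1, hb, rfl⟩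
    · rw [mul_assoc]
      exact AddSubgroup.subset_closure ⟨a, b * r, ha, (he.mul r b hb).2, rfl⟩
  · rw [mul_zero, zero_mul]
    exact ⟨AddSubgroup.zero_mem _, AddSubgroup.zero_mem _⟩
  · intro x y _ _ hx hy
    rw [mul_add, add_mul]
    exact ⟨AddSubgroup.add_mem _ hx.1 hy.1, AddSubgroup.add_mem _ hx.2 hy.2⟩
  · intro x _ hx
    rw [mul_neg, neg_mul]
    exact ⟨AddSubgroup.neg_mem _ hx.1, AddSubgroup.neg_mem _ hx.2⟩

theorem Cvx_nl0 : Nl (0 : R) := by
  unfold Nl
  rw [mul_zero]

theorem Cvx_nl_neg {x : R} (hx : Nl x) : Nl (-x) := by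
  unfold Nl at hx ⊢
  rw [neg_mul_neg, mul_neg, hx, neg_zero]

end comp

section tw

variable {R : Type} [NonUnitalRing R] {s : ℕ} {t : Fin s → R}

/-- operators applied to a left factor -/
theorem Cvx_tw (i : Fin s) (γ : Option (Fin s)) (z : R) :
    ∀ D ∈ Ops t (some i) (some i), ∀ b : R, (∀ E ∈ Ops t (some i) γ, b * E z = 0) →
      ∀ E ∈ Ops t (some i) γ, D b * E z = 0 := by
  refine Ops_ind _ ?_ ?_ ?_ ?_ ?_ ?_ ?_
  · intro j _ b hb E hE
    show t j * b * E z = 0
    rw [mul_assoc, hb E hE, mul_zero]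
  · intro j hj b hb E hE
    show b * t j * E z = 0
    rw [mul_assoc]
    exact hb (AddMonoid.End.mulLeft (t j) * E) (Subring.mul_mem _ (Dop_memL hj) hE)
  · intro b _ E _
    show (0 : R) * E z = 0
    rw [zero_mul]
  · intro b hb E hE
    exact hb E hE
  · intro D D' hD hD' b hb E hE
    show (D b + D' b) * E z = 0
    rw [add_mul, hD b hb E hE, hD' b hb E hE, add_zero]
  · intro D hD b hb E hE
    show (-D b) * E z = 0
    rw [neg_mul, hD b hb E hE, neg_zero]
  · intro D D' hD hD' b hb E hE
    exact hD (D' b) (hD' b hb) E hE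

end tw

theorem thm_Cvx (hOps : St_Ops) (hOpc : St_Opc) (hRul : St_Rul) (hSoc : St_Soc) (hNac : St_Nac)
    (hGbp : St_Gbp) (hWst : St_Wst) (hSpx : St_Spx) : St_Cvx := by
  intro n p s R _ _ t H i γ a z hX
  have hcy := hX.cy
  have hfr := hX.cx.fr
  have he : Hm (fun i => om n (t i)) := Dop_hm hcy hfr
  obtain ⟨-, hft, hfo⟩ := CRL.fpr n p R hcy s t hfr
  obtain ⟨J, hJ, hJn⟩ := CRL.jil n hcy.n4 R hcy.inM hcy.nt
  obtain ⟨-, hcomp, -, -, -⟩ := CRN.thm_Pca R s (fun i => om n (t i)) he.idem he.orth
  obtain ⟨hS1, hS2, hS3, hS4, hS5, hS6⟩ := hSpx n p s R t H i γ a z hX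
  have hR3 := (hRul R s _ he (some i) γ hX.ig).2.2.1
  obtain ⟨-, -, -, hW4⟩ := hWst n p R hcy s t hfr
  have hpe := hW4 i
  have hmul : ∀ {α β δ : Option (Fin s)} {x y : R}, Jc (fun i => om n (t i)) α β x →
      Jc (fun i => om n (t i)) β δ y → Jc (fun i => om n (t i)) α δ (x * y) :=
    fun {α β δ x y} hx hy => ⟨Rul_mul hx.1 hy.1, (he.mul x y hy.2).1⟩
  have hmulr : ∀ {α β δ : Option (Fin s)} {x y : R}, Jc (fun i => om n (t i)) α β x →
      Pc (fun i => om n (t i)) β δ y → Jc (fun i => om n (t i)) α δ (x * y) :=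
    fun {α β δ x y} hx hy => ⟨Rul_mul hx.1 hy, (he.mul y x hx.2).2⟩
  have hmull : ∀ {α β δ : Option (Fin s)} {x y : R}, Pc (fun i => om n (t i)) α β x →
      Jc (fun i => om n (t i)) β δ y → Jc (fun i => om n (t i)) α δ (x * y) :=
    fun {α β δ x y} hx hy => ⟨Rul_mul hx hy.1, (he.mul x y hy.2).1⟩
  have hsub : ∀ {α β : Option (Fin s)} {x y : R}, Jc (fun i => om n (t i)) α β x →
      Jc (fun i => om n (t i)) α β y → Jc (fun i => om n (t i)) α β (x - y) :=
    fun {α β x y} hx hy => by
      rw [sub_eq_add_neg]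
      exact ⟨Rul_add hx.1 (Rul_neg hy.1), he.add _ _ hx.2 (Cvx_nl_neg hy.2)⟩
  have hnsub : ∀ {x y : R}, Nl x → Nl y → Nl (x - y) := fun {x y} hx hy => by
    rw [sub_eq_add_neg]
    exact he.add _ _ hx (Cvx_nl_neg hy)
  have htp : Pc (fun i => om n (t i)) (some i) (some i) (t i) := by
    constructor
    · intro j
      by_cases hj : some i = some j
      · rw [if_pos hj]
        rw [← Option.some.inj hj]
        exact (hft i).2.1
      · rw [if_neg hj]
        exact (hfo j i fun h => hj (by rw [h])).1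
    · intro j
      by_cases hj : some i = some j
      · rw [if_pos hj]
        rw [← Option.some.inj hj]
        exact (hft i).1
      · rw [if_neg hj]
        exact (hfo i j fun h => hj (by rw [h])).2
  have hTp : ∀ k, Pc (fun i => om n (t i)) (some i) (some i) (pw (t i) k) := by
    intro k
    induction k with
    | zero => exact htp
    | succ k ih => exact Rul_mul ih htp
  have hTc : ∀ (w : R) (k : ℕ), w * t i = t i * w → w * pw (t i) k = pw (t i) k * w := by
    intro w k hw
    induction k with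
    | zero => exact hw
    | succ k ih =>
      show w * (pw (t i) k * t i) = pw (t i) k * t i * w
      rw [← mul_assoc, ih, mul_assoc, hw, mul_assoc]
  -- multiplication by `p`
  have hK2 : ∀ u w, Jc (fun i => om n (t i)) (some i) (some i) u →
      Jc (fun i => om n (t i)) (some i) γ w → p • (u * w) = 0 := by
    intro u w hu hw
    have h1 := hS3 (p • om n (t i)) u w ⟨hpe.pc, hpe.nl⟩ hu hw
    have h2 : om n (t i) * u = u := by
      have h3 := hu.1.1 i
      rw [if_pos rfl] at h3
      exact h3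
    rw [smul_mul_assoc, h2, smul_mul_assoc] at h1
    exact h1
  have hdd : ∀ k u, Jc (fun i => om n (t i)) (some i) (some i) u →
      Jc (fun i => om n (t i)) (some i) (some i) (u * pw (t i) k - pw (t i) k * u) :=
    fun k u hu => hsub (hmulr hu (hTp k)) (hmull (hTp k) hu)
  -- the group generated by products is killed
  have hkill1 : ∀ k w, Jc (fun i => om n (t i)) (some i) γ w → ∀ r ∈ AddSubgroup.closure
      {w | ∃ c d, Jc (fun i => om n (t i)) (some i) (some i) c ∧
        Jc (fun i => om n (t i)) (some i) (some i) d ∧ w = c * d},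
      (r * pw (t i) k - pw (t i) k * r) * w = 0 := by
    intro k w hw r hr
    refine AddSubgroup.closure_induction (p := fun r _ =>
      (r * pw (t i) k - pw (t i) k * r) * w = 0) ?_ ?_ ?_ ?_ hr
    · rintro _ ⟨c, d, hc, hd, rfl⟩
      have h1 := hS3 c (d * pw (t i) k) w hc (hmulr hd (hTp k)) hw
      have h2 := hS3 (pw (t i) k * c) d w (hmull (hTp k) hc) hd hw
      rw [sub_mul, mul_assoc c d, h1, ← mul_assoc (pw (t i) k), h2, sub_zero]
    · rw [zero_mul, mul_zero, sub_zero, zero_mul]
    · intro x y _ _ hx hy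
      have : ((x + y) * pw (t i) k - pw (t i) k * (x + y)) * w =
          (x * pw (t i) k - pw (t i) k * x) * w + (y * pw (t i) k - pw (t i) k * y) * w := by
        rw [← add_mul]
        congr 1
        rw [add_mul, mul_add]
        abel
      rw [this, hx, hy, add_zero]
    · intro x _ hx
      have : ((-x) * pw (t i) k - pw (t i) k * (-x)) * w =
          -((x * pw (t i) k - pw (t i) k * x) * w) := by
        rw [← neg_mul]
        congr 1
        rw [neg_mul, mul_neg]
        abel
      rw [this, hx, neg_zero]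
  have hkill2 : ∀ u, Jc (fun i => om n (t i)) (some i) (some i) u → ∀ r ∈ AddSubgroup.closure
      {w | ∃ c d, Jc (fun i => om n (t i)) (some i) (some i) c ∧
        Jc (fun i => om n (t i)) (some i) γ d ∧ w = c * d}, u * r = 0 := by
    intro u hu r hr
    refine AddSubgroup.closure_induction (p := fun r _ => u * r = 0) ?_ ?_ ?_ ?_ hr
    · rintro _ ⟨c, d, hc, hd, rfl⟩
      rw [← mul_assoc]
      exact hS3 u c d hu hc hd
    · rw [mul_zero]
    · intro x y _ _ hx hy
      rw [mul_add, hx, hy, add_zero]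
    · intro x _ hx
      rw [mul_neg, hx, neg_zero]
  have hj2a : ∀ r ∈ AddSubgroup.closure
      {w | ∃ c d, Jc (fun i => om n (t i)) (some i) (some i) c ∧
        Jc (fun i => om n (t i)) (some i) (some i) d ∧ w = c * d}, r ∈ J2 R := by
    intro r hr
    unfold J2
    refine AddSubgroup.closure_mono ?_ hr
    rintro _ ⟨c, d, hc, hd, rfl⟩
    exact ⟨c, d, hc.2, hd.2, rfl⟩
  have hj2b : ∀ r ∈ AddSubgroup.closure
      {w | ∃ c d, Jc (fun i => om n (t i)) (some i) (some i) c ∧
        Jc (fun i => om n (t i)) (some i) γ d ∧ w = c * d}, r ∈ J2 R := by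
    intro r hr
    unfold J2
    refine AddSubgroup.closure_mono ?_ hr
    rintro _ ⟨c, d, hc, hd, rfl⟩
    exact ⟨c, d, hc.2, hd.2, rfl⟩
  have hj2i : Idl R (J2 R) := Cvx_j2_idl he
  -- the path function
  have hPf : ∀ v : ℕ → R, Pf n s 2 1 (fun _ => some i) (fun k => if k = 0 then some i else γ)
      (fun k => decide (k = 0)) v =
      (pj n s v (some i) (some i) (v s) * v i - v i * pj n s v (some i) (some i) (v s)) *
        pj n s v (some i) γ (v (s + 1)) := by
    intro v
    show 1 • wp _ = _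
    rw [one_nsmul]
    rfl
  refine hGbp n p R hcy H hX.cx.lst s t hfr 2 1 (fun _ => some i)
    (fun k => if k = 0 then some i else γ) (fun k => decide (k = 0)) (by norm_num) ?_ ?_
  · intro v hv hsam
    obtain ⟨π, hπ⟩ := hsam
    have hd : ∀ j : Fin s, om n (v j) = (fun i => om n (t i)) (π j) := fun j => (hπ j).2.2
    have hns : Nl (v s) := hv.2 0 (by norm_num)
    have hns1 : Nl (v (s + 1)) := hv.2 1 (by norm_num)
    -- values at updates
    have hup0 : ∀ x : R, Pf n s 2 1 (fun _ => some i) (fun k => if k = 0 then some i else γ)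
        (fun k => decide (k = 0)) (Function.update v (s + 0) x) =
        (pj n s v (some i) (some i) x * v i - v i * pj n s v (some i) (some i) x) *
          pj n s v (some i) γ (v (s + 1)) := by
      intro x
      have h1 : ∀ j, j < s → Function.update v (s + 0) x j = v j := fun j hj =>
        Function.update_of_ne (by omega) _ _
      have h2 : Function.update v (s + 0) x s = x := Function.update_self _ _ _
      have h3 : Function.update v (s + 0) x (s + 1) = v (s + 1) :=
        Function.update_of_ne (by omega) _ _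
      rw [hPf, h2, h3, h1 i i.2, Gbp_pj_congr n h1, Gbp_pj_congr n h1]
    have hup1 : ∀ x : R, Pf n s 2 1 (fun _ => some i) (fun k => if k = 0 then some i else γ)
        (fun k => decide (k = 0)) (Function.update v (s + 1) x) =
        (pj n s v (some i) (some i) (v s) * v i - v i * pj n s v (some i) (some i) (v s)) *
          pj n s v (some i) γ x := by
      intro x
      have h1 : ∀ j, j < s → Function.update v (s + 1) x j = v j := fun j hj =>
        Function.update_of_ne (by omega) _ _
      have h2 : Function.update v (s + 1) x s = v s := Function.update_of_ne (by omega) _ _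
      have h3 : Function.update v (s + 1) x (s + 1) = x := Function.update_self _ _ _
      rw [hPf, h2, h3, h1 i i.2, Gbp_pj_congr n h1, Gbp_pj_congr n h1]
    by_cases hcase : π i = i ∧ γ.map π = γ
    swap
    · -- the second factor is zero
      have hz : ∀ x, pj n s v (some i) γ x = 0 := by
        intro x
        obtain ⟨c, hc, hsum, -⟩ := hcomp x
        rw [Cvx_pj hd (some i) γ hc hsum]
        refine hS5 _ _ _ ?_ ?_ (hc _ _)
        · intro h
          cases γ with
          | none => simp at h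
          | some k =>
            have h1 : π i = π k := by simpa using h
            exact hX.ig (by rw [π.injective h1])
        · rintro ⟨h1, h2⟩
          exact hcase ⟨by simpa using h1, h2⟩
      refine ⟨?_, ?_, ?_⟩
      · rw [hPf, hz, mul_zero]
        exact H.zero_mem
      · intro k hk y z' _ _
        have hk' : k = 0 ∨ k = 1 := by omega
        rcases hk' with rfl | rfl
        · rw [hup0, hz, mul_zero]
        · rw [hup1, hz, mul_zero]
      · intro S _ _
        rw [hPf, hz, mul_zero]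
    obtain ⟨hπi, hπγ⟩ := hcase
    have hmi : (some i : Option (Fin s)).map π = some i := by simp [hπi]
    obtain ⟨⟨kT, hkT⟩, ⟨kt, hkt⟩, -⟩ := hπ i
    rw [hπi] at hkT hkt
    -- the components
    have hU : ∀ x, Nl x → Jc (fun i => om n (t i)) (some i) (some i)
        (pj n s v (some i) (some i) x) := by
      intro x hx
      obtain ⟨c, hc, hsum, hI, -⟩ := hcomp x
      rw [Cvx_pj hd (some i) (some i) hc hsum, hmi]
      exact ⟨hc _ _, (hJn _).1 (hI J hJ ((hJn x).2 hx) _ _)⟩
    have hWd : ∀ x, Nl x → Jc (fun i => om n (t i)) (some i) γ (pj n s v (some i) γ x) := by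
      intro x hx
      obtain ⟨c, hc, hsum, hI, -⟩ := hcomp x
      rw [Cvx_pj hd (some i) γ hc hsum, hmi, hπγ]
      exact ⟨hc _ _, (hJn _).1 (hI J hJ ((hJn x).2 hx) _ _)⟩
    rw [hkT] at hup0 hup1
    refine ⟨?_, ?_, ?_⟩
    · -- the value is in `H`
      rw [hPf, hkT]
      have hu' := hdd kT _ (hU _ hns)
      have hw' := hWd _ hns1
      refine hSoc n p R hcy H hX.cx.lst s t hfr (some i) γ _ (Rul_mul hu'.1 hw'.1) ?_
        (hK2 _ _ hu' hw')
      intro x hx
      obtain ⟨c, hc, hsum, hI, -⟩ := hcomp x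
      have hcn : ∀ δ ε, Nl (c δ ε) := fun δ ε => (hJn _).1 (hI J hJ ((hJn x).2 hx) δ ε)
      constructor
      · rw [← hsum, Finset.sum_mul]
        refine Finset.sum_eq_zero fun δ _ => ?_
        rw [Finset.sum_mul]
        refine Finset.sum_eq_zero fun ε _ => ?_
        by_cases hε : ε = some i
        · subst hε
          by_cases hδ : δ = some i
          · subst hδ
            rw [← mul_assoc]
            exact hS3 _ _ _ ⟨hc _ _, hcn _ _⟩ hu' hw'
          · rw [hS5 δ (some i) (c δ (some i)) hδ (fun h => hδ h.1) (hc _ _), zero_mul]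
        · exact Rul_zero hε (hc δ ε) (Rul_mul hu'.1 hw'.1)
      · rw [← hsum, Finset.mul_sum]
        refine Finset.sum_eq_zero fun δ _ => ?_
        rw [Finset.mul_sum]
        refine Finset.sum_eq_zero fun ε _ => ?_
        by_cases hδ : γ = δ
        · subst hδ
          by_cases hε : γ = ε
          · subst hε
            exact hR3 _ _ _ hu' ⟨hc _ _, hcn _ _⟩ hw'
          · rw [hS5 γ ε (c γ ε) hε (fun h => hX.ig h.1.symm) (hc _ _), mul_zero]
        · exact Rul_zero hδ (Rul_mul hu'.1 hw'.1) (hc δ ε)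
    · -- products
      intro k hk y z' hy hz'
      obtain ⟨c, hc, hsum, hI, -⟩ := hcomp y
      obtain ⟨c', hc', hsum', hI', -⟩ := hcomp z'
      have hcn : ∀ δ ε, Nl (c δ ε) := fun δ ε => (hJn _).1 (hI J hJ ((hJn y).2 hy) δ ε)
      have hcn' : ∀ δ ε, Nl (c' δ ε) := fun δ ε => (hJn _).1 (hI' J hJ ((hJn z').2 hz') δ ε)
      obtain ⟨hC, hCs⟩ := Cvx_prod hc hsum hc' hsum'
      have hk' : k = 0 ∨ k = 1 := by omega
      rcases hk' with rfl | rfl
      · rw [hup0, Cvx_pj hd (some i) (some i) hC hCs, hmi]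
        have h1 : ∑ ε, c (some i) ε * c' ε (some i) =
            c (some i) (some i) * c' (some i) (some i) := by
          refine Finset.sum_eq_single _ (fun ε _ hε => ?_) (fun h => absurd (Finset.mem_univ _) h)
          rw [hS5 ε (some i) (c' ε (some i)) hε (fun h => hε h.1) (hc' _ _), mul_zero]
        rw [h1]
        exact hkill1 kT _ (hWd _ hns1) _ (AddSubgroup.subset_closure
          ⟨_, _, ⟨hc _ _, hcn _ _⟩, ⟨hc' _ _, hcn' _ _⟩, rfl⟩)
      · rw [hup1, Cvx_pj hd (some i) γ hC hCs, hmi, hπγ, Finset.mul_sum]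
        have hu' := hdd kT _ (hU _ hns)
        refine Finset.sum_eq_zero fun ε _ => ?_
        by_cases h1 : ε = γ
        · subst h1
          rw [← mul_assoc]
          exact hR3 _ _ _ hu' ⟨hc' _ _, hcn' _ _⟩ ⟨hc _ _, hcn _ _⟩
        · by_cases h2 : ε = some i
          · subst h2
            rw [← mul_assoc]
            exact hS3 _ _ _ hu' ⟨hc _ _, hcn _ _⟩ ⟨hc' _ _, hcn' _ _⟩
          · rw [hS5 ε γ (c' ε γ) h1 (fun h => h2 h.1) (hc' _ _), mul_zero, mul_zero]
    · -- subrings
      intro S hS hvS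
      by_contra hne
      apply hS
      rw [hPf, hkT] at hne
      have htS : ∀ j, t j ∈ S := by
        intro j
        obtain ⟨-, ⟨k, hk⟩, -⟩ := hπ (π.symm j)
        rw [Equiv.apply_symm_apply] at hk
        rw [hk]
        have h1 : v (π.symm j) ∈ S := hvS _ (by have := (π.symm j).2; omega)
        clear hk
        induction k with
        | zero => exact h1
        | succ k ih => exact S.mul_mem ih h1
      have hpwS : ∀ x ∈ S, ∀ k, pw x k ∈ S := by
        intro x hx k
        induction k with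
        | zero => exact hx
        | succ k ih => exact S.mul_mem ih hx
      have hlcS : ∀ (α : Option (Fin s)) (x : R), x ∈ S → lc (fun i => om n (v i)) α x ∈ S := by
        intro α x hx
        cases α with
        | some j => exact S.mul_mem (hpwS _ (hvS _ (by have := j.2; omega)) _) hx
        | none =>
          exact S.sub_mem hx (S.sum_mem fun j _ => S.mul_mem
            (hpwS _ (hvS _ (by have := j.2; omega)) _) hx)
      have hrcS : ∀ (α : Option (Fin s)) (x : R), x ∈ S → rc (fun i => om n (v i)) α x ∈ S := by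
        intro α x hx
        cases α with
        | some j => exact S.mul_mem hx (hpwS _ (hvS _ (by have := j.2; omega)) _)
        | none =>
          exact S.sub_mem hx (S.sum_mem fun j _ => S.mul_mem hx
            (hpwS _ (hvS _ (by have := j.2; omega)) _))
      have hWS : ∀ w ∈ NonUnitalSubring.closure (Set.range t), w ∈ S := by
        intro w hw
        refine (NonUnitalSubring.closure_le.2 ?_) hw
        rintro _ ⟨j, rfl⟩
        exact htS j
      have huS : pj n s v (some i) (some i) (v s) ∈ S :=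
        hrcS _ _ (hlcS _ _ (hvS _ (by omega)))
      have hwS : pj n s v (some i) γ (v (s + 1)) ∈ S :=
        hrcS _ _ (hlcS _ _ (hvS _ (by omega)))
      obtain ⟨u, hu⟩ : ∃ u, u = pj n s v (some i) (some i) (v s) := ⟨_, rfl⟩
      obtain ⟨w, hw⟩ : ∃ w, w = pj n s v (some i) γ (v (s + 1)) := ⟨_, rfl⟩
      have huJ := hU _ hns
      have hwJ := hWd _ hns1
      rw [← hu] at hne huS huJ
      rw [← hw] at hne hwS hwJ
      have hopsα := hOps R s t (some i) (some i)
      have hopsγ := hOps R s t (some i) γ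
      -- `a` is in `S` modulo `J2`
      have haS : ∃ s₁ ∈ S, Nl s₁ ∧ a - s₁ ∈ J2 R := by
        obtain ⟨w₀, hw₀, D, hD, hw₀J, hw₀c, hr⟩ := hS2 u huJ
        have haJ : Jc (fun i => om n (t i)) (some i) (some i) a := ⟨hX.aa.pc, hX.aa.nl⟩
        have hF : (u * pw (t i) kT - pw (t i) kT * u) * w =
            (D a * pw (t i) kT - pw (t i) kT * D a) * w := by
          have h1 := hkill1 kT w hwJ _ hr
          have h2 : w₀ * pw (t i) kT - pw (t i) kT * w₀ = 0 := by
            rw [hTc w₀ kT hw₀c, sub_self]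
          have h3 : (u * pw (t i) kT - pw (t i) kT * u) * w =
              ((u - (w₀ + D a)) * pw (t i) kT - pw (t i) kT * (u - (w₀ + D a))) * w +
              (w₀ * pw (t i) kT - pw (t i) kT * w₀) * w +
              (D a * pw (t i) kT - pw (t i) kT * D a) * w := by
            rw [← add_mul, ← add_mul]
            congr 1
            rw [sub_mul, mul_sub, add_mul, mul_add]
            abel
          rw [h3, h1, h2, zero_mul, zero_add, zero_add]
        rcases hX.aa.pu D hD with ⟨D', hD', h1⟩ | ⟨D', hD', h1⟩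
        · exfalso
          apply hne
          have hD'J := Dop_jc hcy hfr hD' haJ
          rw [hF, h1, smul_mul_assoc, mul_smul_comm, ← smul_sub, smul_mul_assoc]
          exact hK2 _ _ (hdd kT _ hD'J) hwJ
        · refine ⟨D' u - D' w₀, S.sub_mem (hopsα.2.1 D' hD' S htS u huS)
            (hopsα.2.1 D' hD' S htS w₀ (hWS w₀ hw₀)),
            hnsub (Dop_jc hcy hfr hD' huJ).2 (Dop_jc hcy hfr hD' hw₀J).2, ?_⟩
          have h2 : a - (D' u - D' w₀) = -D' (u - (w₀ + D a)) := by
            rw [map_sub, map_add, h1]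
            abel
          rw [h2]
          exact AddSubgroup.neg_mem _ (hopsα.2.2.1 D' hD' (J2 R) hj2i _ (hj2a _ hr))
      have hzS : ∃ s₂ ∈ S, Nl s₂ ∧ z - s₂ ∈ J2 R := by
        obtain ⟨D, hD, hr⟩ := hS1 w hwJ.1
        have hzJ : Jc (fun i => om n (t i)) (some i) γ z := ⟨hX.az.pc, hX.az.nl⟩
        have hu' := hdd kT u huJ
        have hF : (u * pw (t i) kT - pw (t i) kT * u) * w =
            (u * pw (t i) kT - pw (t i) kT * u) * D z := by
          have h1 := hkill2 _ hu' _ hr
          rw [mul_sub] at h1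
          exact sub_eq_zero.1 h1
        rcases hX.az.pu D hD with ⟨D', hD', h1⟩ | ⟨D', hD', h1⟩
        · exfalso
          apply hne
          rw [hF, h1, mul_smul_comm]
          exact hK2 _ _ hu' (Dop_jc hcy hfr hD' hzJ)
        · refine ⟨D' w, hopsγ.2.1 D' hD' S htS w hwS, (Dop_jc hcy hfr hD' hwJ).2, ?_⟩
          have h2 : z - D' w = -D' (w - D z) := by
            rw [map_sub, h1]
            abel
          rw [h2]
          exact AddSubgroup.neg_mem _ (hopsγ.2.2.1 D' hD' (J2 R) hj2i _ (hj2b _ hr))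
      obtain ⟨s₁, hs₁, hn₁, hj₁⟩ := haS
      obtain ⟨s₂, hs₂, hn₂, hj₂⟩ := hzS
      refine hNac n p R hcy s t hfr S htS fun x hx => ?_
      obtain ⟨w₁, hw₁, hw₁n, u₁, v₁, hu₁, hv₁, rfl⟩ := hS6 x hx
      obtain ⟨w₂, hw₂, D, hD, hw₂J, -, hr⟩ := hS2 u₁ hu₁
      obtain ⟨D', hD', hr'⟩ := hS1 v₁ hv₁.1
      have hDs₁ := (hOpc n p R hcy s t hfr _ _ D hD s₁).2 hn₁
      have hDs₂ := (hOpc n p R hcy s t hfr _ _ D' hD' s₂).2 hn₂
      refine ⟨w₁ + w₂ + D s₁ + D' s₂, S.add_mem (S.add_mem (S.add_mem (hWS _ hw₁) (hWS _ hw₂))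
        (hopsα.2.1 D hD S htS s₁ hs₁)) (hopsγ.2.1 D' hD' S htS s₂ hs₂),
        he.add _ _ (he.add _ _ (he.add _ _ hw₁n hw₂J.2) hDs₁) hDs₂, ?_⟩
      have h1 : w₁ + u₁ + v₁ - (w₁ + w₂ + D s₁ + D' s₂) =
          (u₁ - (w₂ + D a)) + D (a - s₁) + ((v₁ - D' z) + D' (z - s₂)) := by
        rw [map_sub, map_sub]
        abel
      rw [h1]
      exact AddSubgroup.add_mem _ (AddSubgroup.add_mem _ (hj2a _ hr)
        (hopsα.2.2.1 D hD (J2 R) hj2i _ hj₁)) (AddSubgroup.add_mem _ (hj2b _ hr')
        (hopsγ.2.2.1 D' hD' (J2 R) hj2i _ hj₂))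
  · -- the function is not zero
    have hex : ∃ D ∈ Ops t (some i) γ, (a * t i - t i * a) * D z ≠ 0 := by
      by_contra hcon
      push Not at hcon
      rcases thm_Twi hOps n p R hcy s t hfr i a hX.aa.pc hX.aa.pu with h | ⟨D, hD, h⟩
      · exact hX.tw h.symm
      · apply hX.ne
        have h1 := Cvx_tw i γ z D hD _ hcon 1 (Subring.one_mem _)
        rw [h] at h1
        exact h1
    obtain ⟨D, hD, hne⟩ := hex
    have haJ : Jc (fun i => om n (t i)) (some i) (some i) a := ⟨hX.aa.pc, hX.aa.nl⟩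
    have hzJ : Jc (fun i => om n (t i)) (some i) γ (D z) :=
      Dop_jc hcy hfr hD ⟨hX.az.pc, hX.az.nl⟩
    obtain ⟨x, hxd⟩ : ∃ x : ℕ → R, x = fun k => if k = 0 then a else D z := ⟨_, rfl⟩
    have hvt : ∀ j : Fin s, vx t x j = t j := fun j => by
      unfold vx
      rw [dif_pos j.2]
    have hvx : ∀ k, vx t x (s + k) = x k := fun k => by
      unfold vx
      rw [dif_neg (by omega), Nat.add_sub_cancel_left]
    have hv0 : vx t x s = a := by
      have h1 := hvx 0
      rw [hxd] at h1
      rw [hxd]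
      exact h1
    have hv1 : vx t x (s + 1) = D z := by
      rw [hvx 1, hxd]
      rfl
    refine ⟨vx t x, ⟨?_, ?_⟩, ?_⟩
    · have h1 : (fun j : Fin s => vx t x j) = t := funext hvt
      rw [h1]
      exact hfr
    · intro k hk
      have hk' : k = 0 ∨ k = 1 := by omega
      rcases hk' with rfl | rfl
      · show Nl (vx t x s)
        rw [hv0]
        exact haJ.2
      · rw [hv1]
        exact hzJ.2
    · have hd : ∀ j : Fin s, om n (vx t x j) = (fun i => om n (t i)) ((Equiv.refl (Fin s)) j) :=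
        fun j => by rw [hvt]; rfl
      have hmap : ∀ α : Option (Fin s), α.map (Equiv.refl (Fin s)) = α := fun α => by
        cases α <;> rfl
      rw [hPf, hv0, hv1, hvt, Cvx_pj_pc hd (some i) (some i) _ _ haJ.1,
        if_pos ⟨hmap _, hmap _⟩, Cvx_pj_pc hd (some i) γ _ _ hzJ.1, if_pos ⟨hmap _, hmap _⟩]
      exact hne

end Pool.Agent.CRM
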