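import Pool.Agent.CRM.Ste
import Pool.Agent.CRL.All

/-!
Campaign CRM, module DMK: dimensions (problem MP_1bb14d_al).
-/

set_option autoImplicit false

namespace Pool.Agent.CRM

open Pool.Agent.CRR Pool.Agent.CRN Pool.Agent.CRK Pool.Agent.CRL

section dmk

variable {R : Type} [NonUnitalRing R]

/-- `KJ + ∑_(i<m) W x_i`. -/
def DmkM (p : ℕ) {g : ℕ} (t : R) (x : Fin g → R) (m : ℕ) : AddSubgroup R :=
  KJ R p ⊔ AddSubgroup.closure
    {w | ∃ i : Fin g, (i : ℕ) < m ∧ ∃ u ∈ NonUnitalSubring.closure ({t} : Set R), w = u * x i}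

theorem Dmk_pw (S : NonUnitalSubring R) {x : R} (hx : x ∈ S) (k : ℕ) : pw x k ∈ S := by
  induction k with
  | zero => exact hx
  | succ k ih => exact mul_mem ih hx

theorem Dmk_kj (p : ℕ) {J : AddSubgroup R} (hJ : Idl R J) (hJn : ∀ x, x ∈ J ↔ Nl x) :
    Idl R (KJ R p) := by
  have hL : ∀ r : R, KJ R p ≤ (KJ R p).comap (AddMonoidHom.mulLeft r) := by
    intro r
    conv_lhs => unfold KJ
    rw [AddSubgroup.closure_le]
    rintro w (⟨a, b, ha, hb, rfl⟩ | ⟨a, rfl⟩)
    · show r * (a * b) ∈ KJ R p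
      rw [← mul_assoc]
      exact AddSubgroup.subset_closure
        (Or.inl ⟨r * a, b, (hJn _).1 (hJ r a ((hJn a).2 ha)).1, hb, rfl⟩)
    · show r * (p • a) ∈ KJ R p
      rw [mul_smul_comm]
      exact AddSubgroup.subset_closure (Or.inr ⟨r * a, rfl⟩)
  have hR : ∀ r : R, KJ R p ≤ (KJ R p).comap (AddMonoidHom.mulRight r) := by
    intro r
    conv_lhs => unfold KJ
    rw [AddSubgroup.closure_le]
    rintro w (⟨a, b, ha, hb, rfl⟩ | ⟨a, rfl⟩)
    · show a * b * r ∈ KJ R p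
      rw [mul_assoc]
      exact AddSubgroup.subset_closure
        (Or.inl ⟨a, b * r, ha, (hJn _).1 (hJ r b ((hJn b).2 hb)).2, rfl⟩)
    · show p • a * r ∈ KJ R p
      rw [smul_mul_assoc]
      exact AddSubgroup.subset_closure (Or.inr ⟨a * r, rfl⟩)
  exact fun r x hx => ⟨hL r hx, hR r hx⟩

theorem Dmk_gen {p g : ℕ} {t : R} {x : Fin g → R} {m : ℕ} (i : Fin g) (hi : (i : ℕ) < m) {u : R}
    (hu : u ∈ NonUnitalSubring.closure ({t} : Set R)) : u * x i ∈ DmkM p t x m :=
  AddSubgroup.mem_sup_right (AddSubgroup.subset_closure ⟨i, hi, u, hu, rfl⟩)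

theorem Dmk_kjle {p g : ℕ} {t : R} {x : Fin g → R} {m : ℕ} : KJ R p ≤ DmkM p t x m := le_sup_left

theorem Dmk_le {p g : ℕ} {t : R} {x : Fin g → R} {m : ℕ} {H : AddSubgroup R} (h1 : KJ R p ≤ H)
    (h2 : ∀ i : Fin g, (i : ℕ) < m → ∀ u ∈ NonUnitalSubring.closure ({t} : Set R),
      u * x i ∈ H) : DmkM p t x m ≤ H := by
  refine sup_le h1 ?_
  rw [AddSubgroup.closure_le]
  rintro w ⟨i, hi, u, hu, rfl⟩
  exact h2 i hi u hu

theorem Dmk_mono {p g : ℕ} {t : R} {x : Fin g → R} {m : ℕ} :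
    DmkM p t x m ≤ DmkM p t x (m + 1) :=
  Dmk_le Dmk_kjle fun i hi _ hu => Dmk_gen i (by omega) hu

theorem Dmk_left {p g : ℕ} {t : R} {x : Fin g → R} (hK : Idl R (KJ R p)) (m : ℕ) {u : R}
    (hu : u ∈ NonUnitalSubring.closure ({t} : Set R)) {r : R} (hr : r ∈ DmkM p t x m) :
    u * r ∈ DmkM p t x m := by
  have h : DmkM p t x m ≤ (DmkM p t x m).comap (AddMonoidHom.mulLeft u) := by
    refine Dmk_le (fun k hk => Dmk_kjle (hK u k hk).1) fun i hi u' hu' => ?_
    show u * (u' * x i) ∈ DmkM p t x m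
    rw [← mul_assoc]
    exact Dmk_gen i hi (mul_mem hu hu')
  exact h hr

theorem Dmk_right {p g : ℕ} {t : R} {x : Fin g → R} (hK : Idl R (KJ R p)) (a : Fin g → ℕ)
    (hx : ∀ i, x i * t = pw t (a i) * x i) (m : ℕ) {w : R}
    (hw : w ∈ NonUnitalSubring.closure ({t} : Set R)) :
    ∀ r ∈ DmkM p t x m, r * w ∈ DmkM p t x m := by
  have ht : t ∈ NonUnitalSubring.closure ({t} : Set R) := NonUnitalSubring.subset_closure (Set.mem_singleton t)
  have h : DmkM p t x m ≤ (DmkM p t x m).comap (AddMonoidHom.mulRight t) := by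
    refine Dmk_le (fun k hk => Dmk_kjle (hK t k hk).2) fun i hi u' hu' => ?_
    show u' * x i * t ∈ DmkM p t x m
    rw [mul_assoc, hx i, ← mul_assoc]
    exact Dmk_gen i hi (mul_mem hu' (Dmk_pw _ ht _))
  induction hw using NonUnitalSubring.closure_induction with
  | mem w hw =>
    intro r hr
    rw [Set.mem_singleton_iff.1 hw]
    exact h hr
  | zero =>
    intro r _
    rw [mul_zero]
    exact zero_mem _
  | add u v _ _ hu hv =>
    intro r hr
    rw [mul_add]
    exact add_mem (hu r hr) (hv r hr)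
  | neg u _ hu =>
    intro r hr
    rw [mul_neg]
    exact neg_mem (hu r hr)
  | mul u v _ _ hu hv =>
    intro r hr
    rw [← mul_assoc]
    exact hv _ (hu r hr)

theorem Dmk_succ {p g : ℕ} {t : R} {x : Fin g → R} {k : ℕ} (hk : k < g) {r : R}
    (hr : r ∈ DmkM p t x (k + 1)) : ∃ m ∈ DmkM p t x k,
      ∃ u ∈ NonUnitalSubring.closure ({t} : Set R), r = m + u * x ⟨k, hk⟩ := by
  have h : DmkM p t x (k + 1) ≤ DmkM p t x k ⊔
      (NonUnitalSubring.closure ({t} : Set R)).toAddSubgroup.map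
        (AddMonoidHom.mulRight (x ⟨k, hk⟩)) := by
    refine Dmk_le (Dmk_kjle.trans le_sup_left) fun i hi u hu => ?_
    by_cases hik : (i : ℕ) < k
    · exact AddSubgroup.mem_sup_left (Dmk_gen i hik hu)
    · have h1 : i = ⟨k, hk⟩ := Fin.ext (by show (i : ℕ) = k; omega)
      rw [h1]
      exact AddSubgroup.mem_sup_right ⟨u, hu, rfl⟩
  obtain ⟨m, hm, y, ⟨u, hu, rfl⟩, h1⟩ := AddSubgroup.mem_sup.1 (h hr)
  exact ⟨m, hm, u, hu, h1.symm⟩

theorem Dmk_zero {p g : ℕ} {t : R} {x : Fin g → R} : DmkM p t x 0 = KJ R p :=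
  le_antisymm (Dmk_le le_rfl fun _ hi => absurd hi (Nat.not_lt_zero _)) Dmk_kjle

theorem Dmk_om {n : ℕ} (hn : 4 ≤ n) (u : R) : ∃ k, pw u k * u = om n u := by
  obtain ⟨k, hk⟩ : ∃ k, 3 * (n - 3) - 1 = k + 1 := ⟨3 * (n - 3) - 2, by omega⟩
  refine ⟨k, ?_⟩
  unfold om
  rw [hk]
  rfl

/-! ### counting -/

theorem Dmk_up [Finite R] {p g : ℕ} {t : R} {x : Fin g → R} {J : AddSubgroup R}
    (hJn : ∀ x, x ∈ J ↔ Nl x) (hx : ∀ i, Nl (x i)) {ρ : R ⧸ J → R}
    (hρ : ∀ c, ρ c ∈ NonUnitalSubring.closure ({t} : Set R) ∧ (QuotientAddGroup.mk (ρ c)) = c)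
    {k : ℕ} (hk : k < g) :
    Nat.card (DmkM p t x (k + 1)) ≤ Nat.card (R ⧸ J) * Nat.card (DmkM p t x k) := by
  rw [← Nat.card_prod]
  refine Nat.card_le_card_of_surjective (fun c : (R ⧸ J) × DmkM p t x k =>
    (⟨c.2 + ρ c.1 * x ⟨k, hk⟩, add_mem (Dmk_mono c.2.2)
      (Dmk_gen _ (Nat.lt_succ_self k) (hρ c.1).1)⟩ : DmkM p t x (k + 1))) ?_
  rintro ⟨r, hr⟩
  obtain ⟨m, hm, u, hu, h1⟩ := Dmk_succ hk hr
  have h2 : -(ρ (QuotientAddGroup.mk u)) + u ∈ J := QuotientAddGroup.eq.1 (hρ _).2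
  have h3 : (-(ρ (QuotientAddGroup.mk u)) + u) * x ⟨k, hk⟩ ∈ KJ R p :=
    AddSubgroup.subset_closure (Or.inl ⟨_, _, (hJn _).1 h2, hx _, rfl⟩)
  refine ⟨(QuotientAddGroup.mk u, ⟨m + (-(ρ (QuotientAddGroup.mk u)) + u) * x ⟨k, hk⟩,
    add_mem hm (Dmk_kjle h3)⟩), Subtype.ext ?_⟩
  show m + (-(ρ (QuotientAddGroup.mk u)) + u) * x ⟨k, hk⟩ + ρ (QuotientAddGroup.mk u) * x ⟨k, hk⟩ = r
  rw [h1, add_mul, neg_mul]
  abel

theorem Dmk_down [Finite R] {p g : ℕ} {t e : R} {x : Fin g → R} {J : AddSubgroup R}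
    (hK : Idl R (KJ R p)) (hid : ∀ x, e * x = x)
    (hinv : ∀ u ∈ NonUnitalSubring.closure ({t} : Set R), u ∉ J →
      ∃ v ∈ NonUnitalSubring.closure ({t} : Set R), v * u = e) {ρ : R ⧸ J → R}
    (hρ : ∀ c, ρ c ∈ NonUnitalSubring.closure ({t} : Set R) ∧ (QuotientAddGroup.mk (ρ c)) = c)
    {k : ℕ} (hk : k < g) (hx : x ⟨k, hk⟩ ∉ DmkM p t x k) :
    Nat.card (R ⧸ J) * Nat.card (DmkM p t x k) ≤ Nat.card (DmkM p t x (k + 1)) := by
  rw [← Nat.card_prod]
  refine Nat.card_le_card_of_injective (fun c : (R ⧸ J) × DmkM p t x k =>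
    (⟨c.2 + ρ c.1 * x ⟨k, hk⟩, add_mem (Dmk_mono c.2.2)
      (Dmk_gen _ (Nat.lt_succ_self k) (hρ c.1).1)⟩ : DmkM p t x (k + 1))) ?_
  rintro ⟨c, m, hm⟩ ⟨c', m', hm'⟩ h
  have h1 : m + ρ c * x ⟨k, hk⟩ = m' + ρ c' * x ⟨k, hk⟩ := congrArg Subtype.val h
  have h2 : (ρ c - ρ c') * x ⟨k, hk⟩ ∈ DmkM p t x k := by
    have h3 : (ρ c - ρ c') * x ⟨k, hk⟩ = m' - m := by
      rw [sub_mul, sub_eq_sub_iff_add_eq_add, add_comm, h1, add_comm]
    rw [h3]
    exact sub_mem hm' hm
  have hW : ρ c - ρ c' ∈ NonUnitalSubring.closure ({t} : Set R) := sub_mem (hρ c).1 (hρ c').1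
  have hcc : c = c' := by
    by_contra hc
    have h3 : ρ c - ρ c' ∉ J := by
      intro h4
      apply hc
      rw [← (hρ c).2, ← (hρ c').2]
      apply QuotientAddGroup.eq.2
      have h5 : -(ρ c) + ρ c' = -(ρ c - ρ c') := by abel
      rw [h5]
      exact neg_mem h4
    obtain ⟨v, hv, hvu⟩ := hinv _ hW h3
    apply hx
    have h4 := Dmk_left hK k hv h2
    rwa [← mul_assoc, hvu, hid] at h4
  subst hcc
  have h3 : m = m' := add_right_cancel h1
  subst h3
  rfl

end dmk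

theorem thm_Dmk (hTyn : St_Tyn) (hKjf : St_Kjf) : St_Dmk := by
  intro n p R _ _ hC e he hid
  obtain ⟨J, hJ, hJn⟩ := CRL.jil n hC.n4 R hC.inM hC.nt
  obtain ⟨N, _, _, _, ⟨t₀, ht₀⟩, hTy⟩ := hTyn n p R hC e he hid
  obtain ⟨hK1, hK2⟩ := hKjf n p R hC
  have hJWJ : ∀ t : R, JW t ≤ J := by
    intro t
    unfold JW
    rw [AddSubgroup.closure_le]
    rintro w (⟨a, b, ha, hb, rfl⟩ | ⟨_, hw⟩)
    · exact (hJ a b ((hJn b).2 hb)).1
    · exact (hJn w).2 hw
  have hKJ : KJ R p ≤ J := by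
    rw [← hK2 e he hid t₀ ht₀]
    exact hJWJ t₀
  have hKI := Dmk_kj p hJ hJn
  have hρ : ∀ t : R, Frame R n 1 (fun _ => t) → ∃ ρ : R ⧸ J → R, ∀ c,
      ρ c ∈ NonUnitalSubring.closure ({t} : Set R) ∧ (QuotientAddGroup.mk (ρ c)) = c := by
    intro t ht
    have htW : t ∈ NonUnitalSubring.closure ({t} : Set R) :=
      NonUnitalSubring.subset_closure (Set.mem_singleton t)
    have h1 : ∀ c : R ⧸ J, ∃ w, w ∈ NonUnitalSubring.closure ({t} : Set R) ∧
        (QuotientAddGroup.mk w) = c := by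
      intro c
      obtain ⟨r, rfl⟩ := QuotientAddGroup.mk_surjective c
      obtain ⟨d, hd, hn⟩ := CRL.gen n p R hC 1 (fun _ => t) ht r
      refine ⟨d 0, ?_, ?_⟩
      · rcases hd 0 with h | ⟨k, h⟩
        · rw [h]
          exact zero_mem _
        · rw [h]
          exact Dmk_pw _ htW k
      · apply QuotientAddGroup.eq.2
        rw [Fin.sum_univ_one] at hn
        have h2 : -(d 0) + r = r - d 0 := by abel
        rw [h2]
        exact (hJn _).2 hn
    choose ρ hρ using h1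
    exact ⟨ρ, hρ⟩
  have hinv : ∀ t u : R, u ∈ NonUnitalSubring.closure ({t} : Set R) → u ∉ J →
      ∃ v ∈ NonUnitalSubring.closure ({t} : Set R), v * u = e := by
    intro t u hu huJ
    obtain ⟨h1, _, _, h4, _⟩ := CRN.thm_Pws n hC.n4 R hC.inM u
    have h5 : om n u = e := by
      rcases he.2.2 (om n u) h1 (hid _).1 (hid _).2 with h | h
      · exact absurd ((hJn u).2 (h4 h)) huJ
      · exact h
    obtain ⟨k, hk⟩ := Dmk_om hC.n4 u
    exact ⟨pw u k, Dmk_pw _ hu _, hk.trans h5⟩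
  -- every nil element is in the last group
  have hall : ∀ (g : ℕ) (a : Fin g → ℕ) (t : R) (x : Fin g → R), Ty n a t x →
      NonUnitalSubring.closure ({t} ∪ Set.range x) = ⊤ → J ≤ DmkM p t x g := by
    intro g a t x hT hgen
    have ht : t ∈ NonUnitalSubring.closure ({t} : Set R) := NonUnitalSubring.subset_closure (Set.mem_singleton t)
    have heW : e ∈ NonUnitalSubring.closure ({t} : Set R) := by
      rw [← (hTy t hT.1).1]
      exact Dmk_pw _ ht _
    have hMJ : DmkM p t x g ≤ J := Dmk_le hKJ fun i _ u _ => (hJ u _ ((hJn _).2 (hT.2 i).1)).1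
    let Y : NonUnitalSubring R :=
      { carrier := {r | ∃ w ∈ NonUnitalSubring.closure ({t} : Set R), ∃ m ∈ DmkM p t x g,
          r = w + m}
        zero_mem' := ⟨0, zero_mem _, 0, zero_mem _, (add_zero 0).symm⟩
        add_mem' := by
          rintro _ _ ⟨w, hw, m, hm, rfl⟩ ⟨w', hw', m', hm', rfl⟩
          exact ⟨w + w', add_mem hw hw', m + m', add_mem hm hm', by abel⟩
        neg_mem' := by
          rintro _ ⟨w, hw, m, hm, rfl⟩
          exact ⟨-w, neg_mem hw, -m, neg_mem hm, by abel⟩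
        mul_mem' := by
          rintro _ _ ⟨w, hw, m, hm, rfl⟩ ⟨w', hw', m', hm', rfl⟩
          refine ⟨w * w', mul_mem hw hw', w * m' + m * w' + m * m', ?_, ?_⟩
          · refine add_mem (add_mem (Dmk_left hKI g hw hm')
              (Dmk_right hKI a (fun i => (hT.2 i).2) g hw' m hm)) (Dmk_kjle ?_)
            exact AddSubgroup.subset_closure
              (Or.inl ⟨m, m', (hJn _).1 (hMJ hm), (hJn _).1 (hMJ hm'), rfl⟩)
          · rw [add_mul, mul_add, mul_add]
            abel }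
    have hY : Y = ⊤ := by
      rw [eq_top_iff, ← hgen, NonUnitalSubring.closure_le]
      rintro r (hr | ⟨i, rfl⟩)
      · rw [Set.mem_singleton_iff.1 hr]
        exact ⟨t, ht, 0, zero_mem _, (add_zero t).symm⟩
      · refine ⟨0, zero_mem _, x i, ?_, (zero_add _).symm⟩
        rw [← (hid (x i)).1]
        exact Dmk_gen i i.2 heW
    intro r hr
    obtain ⟨w, hw, m, hm, h1⟩ : r ∈ Y := by
      rw [hY]
      trivial
    have hwJ : w ∈ J := by
      have h2 : w = r - m := by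
        rw [h1]
        abel
      rw [h2]
      exact sub_mem hr (hMJ hm)
    rw [h1]
    refine add_mem (Dmk_kjle ?_) hm
    rw [← hK2 e he hid t hT.1]
    exact AddSubgroup.subset_closure (Or.inr ⟨hw, (hJn w).1 hwJ⟩)
  have hcardJ : Nat.card {y : R // Nl y} = Nat.card J :=
    Nat.card_congr (Equiv.subtypeEquivRight fun y => (hJn y).symm)
  refine ⟨Nat.card (R ⧸ J), ?_, ?_, ?_⟩
  · have hnt : Nontrivial (R ⧸ J) := by
      refine ⟨⟨(QuotientAddGroup.mk e), (QuotientAddGroup.mk 0), fun h => ?_⟩⟩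
      have h1 : -e + 0 ∈ J := QuotientAddGroup.eq.1 h
      rw [add_zero] at h1
      have h2 : Nl e := (hJn e).1 (neg_mem_iff.1 h1)
      have h3 : e * e * e = 0 := h2
      rw [he.1, he.1] at h3
      exact he.2.1 h3
    exact Finite.one_lt_card
  · intro g a t x hT
    obtain ⟨ρ, hρt⟩ := hρ t hT.1
    have hMJ : DmkM p t x g ≤ J := Dmk_le hKJ fun i _ u _ => (hJ u _ ((hJn _).2 (hT.2 i).1)).1
    have hup : ∀ m, m ≤ g → Nat.card (DmkM p t x m) ≤
        Nat.card (R ⧸ J) ^ m * Nat.card (KJ R p) := by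
      intro m
      induction m with
      | zero =>
        intro _
        rw [pow_zero, one_mul, Dmk_zero]
      | succ m ih =>
        intro hm
        refine (Dmk_up hJn (fun i => (hT.2 i).1) hρt (by omega)).trans ?_
        rw [pow_succ', mul_assoc]
        exact Nat.mul_le_mul_left _ (ih (by omega))
    refine ⟨fun hgen => ?_, fun hxj => ?_⟩
    · rw [hcardJ]
      exact (AddSubgroup.card_le_of_le (hall g a t x hT hgen)).trans (hup g le_rfl)
    · have hdown : ∀ m, m ≤ g → Nat.card (R ⧸ J) ^ m * Nat.card (KJ R p) ≤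
          Nat.card (DmkM p t x m) := by
        intro m
        induction m with
        | zero =>
          intro _
          rw [pow_zero, one_mul, Dmk_zero]
        | succ m ih =>
          intro hm
          refine le_trans ?_ (Dmk_down hKI (fun x => (hid x).1) (hinv t) hρt (k := m) (by omega)
            (hxj ⟨m, by omega⟩))
          rw [pow_succ', mul_assoc]
          exact Nat.mul_le_mul_left _ (ih (by omega))
      have h1 := hdown g le_rfl
      rw [hcardJ]
      refine ⟨h1.trans (AddSubgroup.card_le_of_le hMJ), fun h2 => ?_⟩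
      have h3 : DmkM p t x g = J := AddSubgroup.eq_of_le_of_card_ge hMJ (h2.trans h1)
      refine hK1 1 (fun _ => t) hT.1 _ (fun _ => NonUnitalSubring.subset_closure (Or.inl rfl)) ?_
      intro r hr
      have h4 : r ∈ DmkM p t x g := by
        rw [h3]
        exact (hJn r).2 hr
      obtain ⟨κ, hκ, y, hy, h5⟩ := AddSubgroup.mem_sup.1 h4
      refine ⟨y, ?_, ?_⟩
      · have h6 : AddSubgroup.closure {w | ∃ i : Fin g, (i : ℕ) < g ∧
            ∃ u ∈ NonUnitalSubring.closure ({t} : Set R), w = u * x i} ≤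
            (NonUnitalSubring.closure ({t} ∪ Set.range x)).toAddSubgroup := by
          rw [AddSubgroup.closure_le]
          rintro w ⟨i, _, u, hu, rfl⟩
          exact NonUnitalSubring.mul_mem _ (NonUnitalSubring.closure_mono Set.subset_union_left hu)
            (NonUnitalSubring.subset_closure (Or.inr ⟨i, rfl⟩))
        exact h6 hy
      · rw [← h5, add_sub_cancel_right]
        exact hκ
  · intro g a t x hT hgen j hxj
    have hJM := hall (g + 1) a t x hT hgen
    obtain ⟨S, hS⟩ : ∃ S : NonUnitalSubring R,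
      S = NonUnitalSubring.closure ({t} ∪ Set.range fun i => x (j.succAbove i)) := ⟨_, rfl⟩
    rw [← hS]
    have htS : t ∈ S := by
      rw [hS]
      exact NonUnitalSubring.subset_closure (Or.inl rfl)
    have hWS : ∀ u ∈ NonUnitalSubring.closure ({t} : Set R), u ∈ S := by
      intro u hu
      rw [hS]
      exact NonUnitalSubring.closure_mono Set.subset_union_left hu
    have hxS : ∀ i, i ≠ j → x i ∈ S := by
      intro i hi
      obtain ⟨k, hk⟩ := Fin.exists_succAbove_eq hi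
      rw [hS, ← hk]
      exact NonUnitalSubring.subset_closure (Or.inr ⟨k, rfl⟩)
    refine hK1 1 (fun _ => t) hT.1 S (fun _ => htS) ?_
    have hV : J ≤ S.toAddSubgroup ⊔ KJ R p := by
      refine hJM.trans (Dmk_le le_sup_right fun i _ u hu => ?_)
      by_cases hij : i = j
      · subst hij
        have h1 : DmkM p t x (i : ℕ) ≤
            (S.toAddSubgroup ⊔ KJ R p).comap (AddMonoidHom.mulLeft u) := by
          refine Dmk_le (fun k hk => AddSubgroup.mem_sup_right (hKI u k hk).1)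
            fun l hl u' hu' => ?_
          have hli : l ≠ i := by
            rintro rfl
            exact lt_irrefl _ hl
          exact AddSubgroup.mem_sup_left
            (S.mul_mem (hWS u hu) (S.mul_mem (hWS u' hu') (hxS l hli)))
        exact h1 hxj
      · exact AddSubgroup.mem_sup_left (S.mul_mem (hWS u hu) (hxS i hij))
    intro r hr
    obtain ⟨y, hy, κ, hκ, h5⟩ := AddSubgroup.mem_sup.1 (hV ((hJn r).2 hr))
    refine ⟨y, hy, ?_⟩
    rw [← h5, add_sub_cancel_left]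
    exact hκ

end Pool.Agent.CRM
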