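import Pool.Agent.CRM.DolA

/-!
Campaign CRM, module Dol: the function as an operator applied to one product (fourth shape).
-/

set_option autoImplicit false

namespace Pool.Agent.CRM

open Pool.Agent.CRR Pool.Agent.CRN Pool.Agent.CRK Pool.Agent.CRL

/-- **DOL** -/
theorem thm_Dol (hW : St_Wxw) (hWc : St_Wcl) (hA : St_Alp) : St_Dol := by
  intro n p R _ _ hC s b t hF L hL α β i k₁ k₂ κ hk₁ hk₂ hα₁ hβ₁ hα₂ hβ₂ hl hκ hκ0 hκ'
  have hAB : (some i : Option (Fin s)) ≠ none := by simp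
  suffices key : ∀ q ∈ L, ∃ D ∈ Ops t (some i) none, ∀ y : ℕ → R,
      ((∀ k ∈ κ, Lop n t (some i) (y k)) ∧
      Jc (fun i => om n (t i)) (some i) none (y k₁) ∧
      Jc (fun i => om n (t i)) none (some i) (y k₂) ∧ ∀ k, b ≤ k → y k = 0) →
      wp (q.2.map (vx t y)) = D (wp (κ.map y ++ [y k₁, y k₂])) by
    obtain ⟨D, hD, h⟩ := Dop_ev (t := t) (Ops t (some i) none)
      (fun y => (∀ k ∈ κ, Lop n t (some i) (y k)) ∧
        Jc (fun i => om n (t i)) (some i) none (y k₁) ∧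
        Jc (fun i => om n (t i)) none (some i) (y k₂) ∧ ∀ k, b ≤ k → y k = 0)
      (fun y => wp (κ.map y ++ [y k₁, y k₂])) L key
    exact ⟨D, hD, fun y h1 h2 h3 h4 => h y ⟨h1, h2, h3, h4⟩⟩
  intro q hq
  obtain ⟨hq0, hq1, hq2⟩ := hL q hq
  have hy : ∀ y : ℕ → R, ((∀ k ∈ κ, Lop n t (some i) (y k)) ∧
      Jc (fun i => om n (t i)) (some i) none (y k₁) ∧
      Jc (fun i => om n (t i)) none (some i) (y k₂) ∧ ∀ k, b ≤ k → y k = 0) →
      ∀ k, Jc (fun i => om n (t i)) (α k) (β k) (y k) := by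
    rintro y ⟨h1, h2, h3, h4⟩ k
    by_cases hkb : k < b
    · by_cases hk : k = k₁
      · rw [hk, hα₁, hβ₁]
        exact h2
      · by_cases hk' : k = k₂
        · rw [hk', hα₂, hβ₂]
          exact h3
        · rw [(hl k hkb hk hk').1, (hl k hkb hk hk').2]
          have := h1 k ((hκ' k).2 ⟨hkb, hk, hk'⟩)
          exact ⟨this.pc, this.nl⟩
    · rw [h4 k (by omega)]
      exact Dop_jc_zero
  rcases hW n p R hC s t hF α β q.2 ⟨s + k₁, hq2 k₁ hk₁, by omega⟩ with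
    h0 | ⟨ds, hds1, hds2, hds3⟩
  · exact ⟨0, zero_mem _, fun y hyP => h0 y (fun k => (hy y hyP k).1)⟩
  have hks : ∀ k, k ∈ ds.map Prod.fst ↔ k < b := by
    rw [hds1]
    exact Dop_idx hq1 hq2
  by_cases hcase : ∃ (ds₁ ds₂ : List (Dsi R)) (D₁ D₂ : AddMonoid.End R),
      ds = ds₁ ++ (k₁, D₁) :: (k₂, D₂) :: ds₂ ∧ ((ds₁ ++ ds₂).map Prod.fst).Perm κ
  · obtain ⟨ds₁, ds₂, D₁, D₂, rfl, hp⟩ := hcase
    have hloop : ∀ d ∈ ds₁ ++ ds₂, d.2 ∈ Ops t (some i) (some i) := by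
      intro d hd
      have hd' : d ∈ ds₁ ++ (k₁, D₁) :: (k₂, D₂) :: ds₂ := by
        simp only [List.mem_append, List.mem_cons] at hd ⊢
        rcases hd with hd | hd
        · exact Or.inl hd
        · exact Or.inr (Or.inr (Or.inr hd))
      have h1 := (hds2 d hd').1
      have h2 := (hκ' d.1).1 (hp.mem_iff.1 (List.mem_map_of_mem hd))
      rwa [(hl _ h2.1 h2.2.1 h2.2.2).1, (hl _ h2.1 h2.2.1 h2.2.2).2] at h1
    have hD₁ : D₁ ∈ Ops t (some i) none := by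
      have h1 := (hds2 (k₁, D₁) (by simp)).1
      simp only at h1
      rwa [hα₁, hβ₁] at h1
    have hD₂ : D₂ ∈ Ops t none (some i) := by
      have h1 := (hds2 (k₂, D₂) (by simp)).1
      simp only at h1
      rwa [hα₂, hβ₂] at h1
    obtain ⟨g, ε, hg, hε⟩ := Dol_val hA hC hF hAB hp hκ hloop
    obtain ⟨E, hE, hE'⟩ := Dop_pull (t := t) (A := some i) g κ (by
      intro k hk
      obtain ⟨d, hd, -, h⟩ := hg k hk
      rw [← h]
      exact hloop d hd)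
    obtain ⟨F, hF1, hF2⟩ := Dop_circ (t := t) (A := some i) D₂ (Ops_le_right hD₂)
    refine ⟨ε • (E * (D₁ * F)), zsmul_mem (mul_mem hE (mul_mem hD₁ hF1)) _, ?_⟩
    intro y hyP
    obtain ⟨h1, h2, h3, h4⟩ := hyP
    have hc : ∀ k ∈ κ, DopC t (some i) (y k) := fun k hk => (h1 k hk).cen
    rw [hds3 y (fun k => (hy y ⟨h1, h2, h3, h4⟩ k).1), List.map_append, List.map_cons,
      List.map_cons, hε y (fun k hk => ⟨(h1 k hk).pc, (h1 k hk).nl⟩) _ _ (Dop_jc hC hF hD₁ h2)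
        (Dop_jc hC hF hD₂ h3), Dop_wp_two, hE' y hc, ← Ops_left D₁ hD₁, ← Ops_right D₂ hD₂,
      Dop_in hD₁ y κ hc, Dop_inR hD₂ y κ, Dop_wp_two,
      hF2 _ (Dol_cen' hC hF hAB h2 h3 y κ hκ0 h1)]
    rfl
  · refine ⟨0, zero_mem _, fun y hyP => ?_⟩
    change _ = (0 : R)
    rw [hds3 y (fun k => (hy y hyP k).1)]
    by_contra hne
    exact hcase (Dol_shape hWc hC hF hAB hk₁ hk₂ hα₁ hβ₁ hα₂ hβ₂ hl hκ hκ0 hκ' (hy y hyP)
      (fun d hd => (hds2 d hd).1) hks hne)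

end Pool.Agent.CRM
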