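import Pool.Agent.CRM.DopA

/-!
Campaign CRM, module Dop: the function as an operator applied to one product (first shape).
-/

set_option autoImplicit false

namespace Pool.Agent.CRM

open Pool.Agent.CRR Pool.Agent.CRN Pool.Agent.CRK Pool.Agent.CRL

/-- **DOP** -/
theorem thm_Dop (hW : St_Wxw) (hWc : St_Wcl) (hA : St_Alp) : St_Dop := by
  intro n p R _ _ hC s b t hF L hL α β A B k₀ κ hAB hk₀ hα hβ hl hκ hκ'
  suffices key : ∀ q ∈ L, ∃ D ∈ Ops t A B, ∀ y : ℕ → R, ((∀ k ∈ κ, Lop n t A (y k)) ∧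
      Jc (fun i => om n (t i)) A B (y k₀) ∧ ∀ k, b ≤ k → y k = 0) →
      wp (q.2.map (vx t y)) = D (wp (κ.map y ++ [y k₀])) by
    obtain ⟨D, hD, h⟩ := Dop_ev (t := t) (Ops t A B)
      (fun y => (∀ k ∈ κ, Lop n t A (y k)) ∧ Jc (fun i => om n (t i)) A B (y k₀) ∧
        ∀ k, b ≤ k → y k = 0)
      (fun y => wp (κ.map y ++ [y k₀])) L key
    exact ⟨D, hD, fun y h1 h2 h3 => h y ⟨h1, h2, h3⟩⟩
  intro q hq
  obtain ⟨hq0, hq1, hq2⟩ := hL q hq
  have hy : ∀ y : ℕ → R, ((∀ k ∈ κ, Lop n t A (y k)) ∧ Jc (fun i => om n (t i)) A B (y k₀) ∧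
      ∀ k, b ≤ k → y k = 0) → ∀ k, Jc (fun i => om n (t i)) (α k) (β k) (y k) := by
    rintro y ⟨h1, h2, h3⟩ k
    by_cases hkb : k < b
    · by_cases hk : k = k₀
      · rw [hk, hα, hβ]
        exact h2
      · rw [(hl k hkb hk).1, (hl k hkb hk).2]
        have := h1 k ((hκ' k).2 ⟨hkb, hk⟩)
        exact ⟨this.pc, this.nl⟩
    · rw [h3 k (by omega)]
      exact Dop_jc_zero
  rcases hW n p R hC s t hF α β q.2 ⟨s + k₀, hq2 k₀ hk₀, by omega⟩ with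
    h0 | ⟨ds, hds1, hds2, hds3⟩
  · exact ⟨0, zero_mem _, fun y hyP => h0 y (fun k => (hy y hyP k).1)⟩
  have hks : ∀ k, k ∈ ds.map Prod.fst ↔ k < b := by
    rw [hds1]
    exact Dop_idx hq1 hq2
  by_cases hcase : ∃ (ds' : List (Dsi R)) (D₀ : AddMonoid.End R), ds = ds' ++ [(k₀, D₀)] ∧
      (ds'.map Prod.fst).Perm κ
  · obtain ⟨ds', D₀, rfl, hp⟩ := hcase
    have hloop : ∀ d ∈ ds', d.2 ∈ Ops t A A := by
      intro d hd
      have h1 := (hds2 d (List.mem_append_left _ hd)).1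
      have h2 := (hκ' d.1).1 (hp.mem_iff.1 (List.mem_map_of_mem hd))
      rwa [(hl _ h2.1 h2.2).1, (hl _ h2.1 h2.2).2] at h1
    have hD₀ : D₀ ∈ Ops t A B := by
      have h1 := (hds2 (k₀, D₀) (by simp)).1
      simp only at h1
      rwa [hα, hβ] at h1
    obtain ⟨g, ε, hg, hε⟩ := Dop_val hA hC hF hAB hp hκ hloop
    obtain ⟨E, hE, hE'⟩ := Dop_pull (t := t) (A := A) g κ (by
      intro k hk
      obtain ⟨d, hd, -, h⟩ := hg k hk
      rw [← h]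
      exact hloop d hd)
    refine ⟨ε • (E * D₀), zsmul_mem (mul_mem (Ops_le_left hE) hD₀) _, ?_⟩
    intro y hyP
    obtain ⟨h1, h2, h3⟩ := hyP
    have hc : ∀ k ∈ κ, DopC t A (y k) := fun k hk => (h1 k hk).cen
    rw [hds3 y (fun k => (hy y ⟨h1, h2, h3⟩ k).1), List.map_append, List.map_singleton,
      hε y (fun k hk => ⟨(h1 k hk).pc, (h1 k hk).nl⟩) _ (Dop_jc hC hF hD₀ h2), hE' y hc,
      Dop_in hD₀ y κ hc]
    rfl
  · refine ⟨0, zero_mem _, fun y hyP => ?_⟩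
    change _ = (0 : R)
    rw [hds3 y (fun k => (hy y hyP k).1)]
    by_contra hne
    exact hcase (Dop_shape hWc hC hF hAB hk₀ hα hβ hl hκ hκ' (hy y hyP)
      (fun d hd => (hds2 d hd).1) hks hne)

end Pool.Agent.CRM
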