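import Pool.Agent.CRM.Stc
import Pool.Agent.CRM.Rul
import Pool.Agent.CRN.Pca
import Pool.Agent.CRL.All

/-!
Campaign CRM, module Eva: products of three arrows in the rings of type E (helper52).
-/

set_option autoImplicit false

namespace Pool.Agent.CRM

open Pool.Agent.CRR Pool.Agent.CRN Pool.Agent.CRK Pool.Agent.CRL

section

variable {R : Type} [NonUnitalRing R] {s : ℕ} {e : Fin s → R}

/-- nil multiples from the left, by components. -/
theorem Eva_l (he : Hm e) {α β : Option (Fin s)} {x : R} (hx : Pc e α β x)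
    (h : ∀ (γ : Option (Fin s)) (c : R), Jc e γ α c → c * x = 0) (r : R) (hr : Nl r) :
    r * x = 0 := by
  obtain ⟨q1, q2, -, -, -⟩ := CRN.thm_Pca R s e he.idem he.orth
  obtain ⟨c, hc, hs, hI, -⟩ := q2 r
  let J : AddSubgroup R :=
    { carrier := {x | Nl x}
      zero_mem' := by show Nl (0 : R); unfold Nl; simp
      add_mem' := fun ha hb => he.add _ _ ha hb
      neg_mem' := fun {a} ha => by
        show Nl (-a)
        have h1 : Nl a := ha
        unfold Nl at h1 ⊢
        rw [neg_mul_neg, mul_neg, h1, neg_zero] }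
  have hJ : Idl R J := fun r x hx => he.mul r x hx
  have hcn := hI J hJ hr
  rw [← hs, Finset.sum_mul]
  refine Finset.sum_eq_zero fun γ _ => ?_
  rw [Finset.sum_mul]
  refine Finset.sum_eq_zero fun δ _ => ?_
  by_cases hd : δ = α
  · subst hd
    exact h γ _ ⟨hc γ δ, hcn γ δ⟩
  · exact (q1 _ _ _ _ _ _ (hc γ δ) hx).2 hd

/-- nil multiples from the right, by components. -/
theorem Eva_r (he : Hm e) {α β : Option (Fin s)} {x : R} (hx : Pc e α β x)
    (h : ∀ (δ : Option (Fin s)) (c : R), Jc e β δ c → x * c = 0) (r : R) (hr : Nl r) :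
    x * r = 0 := by
  obtain ⟨q1, q2, -, -, -⟩ := CRN.thm_Pca R s e he.idem he.orth
  obtain ⟨c, hc, hs, hI, -⟩ := q2 r
  let J : AddSubgroup R :=
    { carrier := {x | Nl x}
      zero_mem' := by show Nl (0 : R); unfold Nl; simp
      add_mem' := fun ha hb => he.add _ _ ha hb
      neg_mem' := fun {a} ha => by
        show Nl (-a)
        have h1 : Nl a := ha
        unfold Nl at h1 ⊢
        rw [neg_mul_neg, mul_neg, h1, neg_zero] }
  have hJ : Idl R J := fun r x hx => he.mul r x hx
  have hcn := hI J hJ hr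
  rw [← hs, Finset.mul_sum]
  refine Finset.sum_eq_zero fun γ _ => ?_
  rw [Finset.mul_sum]
  refine Finset.sum_eq_zero fun δ _ => ?_
  by_cases hd : γ = β
  · subst hd
    exact h δ _ ⟨hc γ δ, hcn γ δ⟩
  · exact (q1 _ _ _ _ _ _ hx (hc γ δ)).2 (Ne.symm hd)

theorem Eva_zero {α β : Option (Fin s)} : Jc e α β (0 : R) := by
  refine ⟨⟨fun i => ?_, fun j => ?_⟩, ?_⟩
  · simp
  · simp
  · unfold Nl
    simp

/-- operators on the first factor of `x v z`. -/
theorem Eva_one (he : Hm e) {t : Fin s → R} (ht : ∀ i, Pc e (some i) (some i) (t i))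
    {α β : Option (Fin s)} (z : R) : ∀ D ∈ Ops t β α, ∀ x : R,
      (∀ v, Jc e α β v → x * v * z = 0) → ∀ v, Jc e α β v → D x * v * z = 0 := by
  intro D hD
  unfold Ops at hD
  induction hD using Subring.closure_induction with
  | mem D hD =>
    intro x hx v hv
    rcases hD with ⟨i, rfl, rfl⟩ | ⟨i, rfl, rfl⟩
    · show t i * x * v * z = 0
      rw [mul_assoc (t i), mul_assoc (t i), hx v hv, mul_zero]
    · show x * t i * v * z = 0
      rw [mul_assoc x]
      exact hx _ ⟨Rul_mul (ht i) hv.1, (he.mul (t i) v hv.2).1⟩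
  | zero =>
    intro x _ v _
    show (0 : R) * v * z = 0
    rw [zero_mul, zero_mul]
  | one => exact fun x hx v hv => hx v hv
  | add D D' _ _ h h' =>
    intro x hx v hv
    show (D x + D' x) * v * z = 0
    rw [add_mul, add_mul, h x hx v hv, h' x hx v hv, add_zero]
  | neg D _ h =>
    intro x hx v hv
    show (-(D x)) * v * z = 0
    rw [neg_mul, neg_mul, h x hx v hv, neg_zero]
  | mul D D' _ _ h h' =>
    intro x hx v hv
    exact h (D' x) (h' x hx) v hv

/-- operators on the last factor of `x v z`. -/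
theorem Eva_two (he : Hm e) {t : Fin s → R} (ht : ∀ i, Pc e (some i) (some i) (t i))
    {α β : Option (Fin s)} (x : R) : ∀ D ∈ Ops t β α, ∀ z : R,
      (∀ v, Jc e α β v → x * v * z = 0) → ∀ v, Jc e α β v → x * v * D z = 0 := by
  intro D hD
  unfold Ops at hD
  induction hD using Subring.closure_induction with
  | mem D hD =>
    intro z hz v hv
    rcases hD with ⟨i, rfl, rfl⟩ | ⟨i, rfl, rfl⟩
    · show x * v * (t i * z) = 0
      rw [← mul_assoc, mul_assoc x v]
      exact hz _ ⟨Rul_mul hv.1 (ht i), (he.mul (t i) v hv.2).2⟩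
    · show x * v * (z * t i) = 0
      rw [← mul_assoc, hz v hv, zero_mul]
  | zero =>
    intro z _ v _
    show x * v * (0 : R) = 0
    rw [mul_zero]
  | one => exact fun z hz v hv => hz v hv
  | add D D' _ _ h h' =>
    intro z hz v hv
    show x * v * (D z + D' z) = 0
    rw [mul_add, h z hz v hv, h' z hz v hv, add_zero]
  | neg D _ h =>
    intro z hz v hv
    show x * v * (-(D z)) = 0
    rw [mul_neg, h z hz v hv, neg_zero]
  | mul D D' _ _ h h' =>
    intro z hz v hv
    exact h (D' z) (h' z hz) v hv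

end

theorem thm_Eva (hRul : St_Rul) (hRum : St_Rum) (hSpe : St_Spe) (hWst : St_Wst)
    (hSoc : St_Soc) : St_Eva := by
  intro n p s R _ _ t H α β x y z T
  obtain ⟨hP, ht1, ht2⟩ := fpr n p R T.cy s t T.cx.fr
  obtain ⟨J, hJ, hJ2⟩ := jil n T.cy.n4 R T.cy.inM T.cy.nt
  have he : Hm (fun i => om n (t i)) := by
    refine ⟨fun i => (hP.prm i).1, hP.orth, fun x y hx hy => ?_, fun r x hx => ?_⟩
    · exact (hJ2 _).1 (J.add_mem ((hJ2 x).2 hx) ((hJ2 y).2 hy))
    · have h := hJ r x ((hJ2 x).2 hx)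
      exact ⟨(hJ2 _).1 h.1, (hJ2 _).1 h.2⟩
  have ht : ∀ i, Pc (fun i => om n (t i)) (some i) (some i) (t i) := by
    intro i
    refine ⟨fun j => ?_, fun j => ?_⟩
    · by_cases h : i = j
      · subst h
        rw [if_pos rfl]
        exact (ht1 i).2.1
      · rw [if_neg (fun h' => h (Option.some.inj h'))]
        exact (ht2 j i (Ne.symm h)).1
    · by_cases h : i = j
      · subst h
        rw [if_pos rfl]
        exact (ht1 i).1
      · rw [if_neg (fun h' => h (Option.some.inj h'))]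
        exact (ht2 i j h).2
  obtain ⟨-, s2, -, s4⟩ := hSpe n p s R t H α β x y z T
  obtain ⟨-, -, -, w4⟩ := hWst n p R T.cy s t T.cx.fr
  have hab := T.ab
  obtain ⟨-, -, -, a4, a5⟩ := hRul R s _ he α β hab
  obtain ⟨-, -, -, b4, b5⟩ := hRul R s _ he β α (Ne.symm hab)
  have z0 : ∀ {γ δ : Option (Fin s)}, Jc (fun i => om n (t i)) γ δ (0 : R) := Eva_zero
  refine ⟨fun u₁ v u₂ h1 hv h2 => ?_, fun u v w hu hv hw => ?_⟩
  · have hw : Pc (fun i => om n (t i)) α β (u₁ * v * u₂) := Rul_mul (Rul_mul h1.1 hv.1) h2.1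
    have hl : ∀ c, Nl c → c * (u₁ * v * u₂) = 0 := by
      refine Eva_l he hw fun γ c hc => ?_
      by_cases hg : γ = α
      · subst hg
        have h := (hRum R s _ he γ β hab c 0 u₁ v u₂ 0 hc z0 h1 hv h2 z0).1
        simpa only [mul_assoc] using h
      · by_cases hg' : γ = β
        · subst hg'
          have h := (hRum R s _ he γ α (Ne.symm hab) 0 0 c u₁ v u₂ z0 z0 hc h1 hv h2).2.2
          simpa only [mul_assoc] using h
        · rw [s4 γ α c hg (fun h => hg h.1) (fun h => hg' h.1) hc.1, zero_mul]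
    have hr : ∀ c, Nl c → (u₁ * v * u₂) * c = 0 := by
      refine Eva_r he hw fun δ c hc => ?_
      by_cases hg : δ = β
      · subst hg
        exact (hRum R s _ he α δ hab 0 c u₁ v u₂ 0 z0 hc h1 hv h2 z0).2.1
      · by_cases hg' : δ = α
        · subst hg'
          exact (hRum R s _ he δ β hab 0 0 u₁ v u₂ c z0 z0 h1 hv h2 hc).2.2
        · rw [s4 β δ c (Ne.symm hg) (fun h => hab h.1.symm) (fun h => hg' h.2) hc.1, mul_zero]
    have hp : p • (u₁ * v * u₂) = 0 := by
      rcases α with _ | i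
      · rcases β with _ | j
        · exact absurd rfl hab
        · have h3 := hr _ (w4 j).nl
          have h4 := hw.2 j
          rw [if_pos rfl] at h4
          rw [mul_smul_comm] at h3
          change p • (u₁ * v * u₂ * om n (t j)) = 0 at h3
          change u₁ * v * u₂ * om n (t j) = u₁ * v * u₂ at h4
          rw [h4] at h3
          exact h3
      · have h3 := hl _ (w4 i).nl
        have h4 := hw.1 i
        rw [if_pos rfl] at h4
        rw [smul_mul_assoc] at h3
        change om n (t i) * (u₁ * v * u₂) = u₁ * v * u₂ at h4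
        rw [h4] at h3
        exact h3
    refine ⟨hSoc n p R T.cy H T.cx.lst s t T.cx.fr α β _ hw (fun c hc => ⟨hl c hc, hr c hc⟩) hp,
      hp, fun c d => ⟨?_, ?_⟩⟩
    · rintro (⟨hc, hd⟩ | ⟨hc, hd⟩) (rfl | rfl)
      · exact (hRum R s _ he α β hab c 0 d v u₂ 0 hc z0 hd hv h2 z0).1
      · have h := (b4 0 c v d z0 hc hv hd).2
        rw [mul_assoc u₁, ← mul_assoc v, h, mul_zero]
      · have h := (a4 0 d c v z0 hd hc hv).2
        rw [h, zero_mul]
      · have h := (hRum R s _ he α β hab 0 d u₁ v c 0 z0 hd h1 hv hc z0).2.1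
        rw [← mul_assoc]
        exact h
    · rintro (⟨hc, hd⟩ | ⟨hc, hd⟩) rfl
      · have h := (a4 0 c u₁ d z0 hc h1 hd).2
        rw [← mul_assoc u₁, h, zero_mul]
      · have h := (b4 0 d c u₂ z0 hd hc h2).2
        rw [mul_assoc, h, mul_zero]
  · obtain ⟨D, hD, rfl⟩ := s2 u hu.1
    obtain ⟨D', hD', rfl⟩ := s2 w hw.1
    have hy : Jc (fun i => om n (t i)) β α y := ⟨T.ay.pc, T.ay.nl⟩
    have h0 : ∀ v, Jc (fun i => om n (t i)) α β v → y * v * y = 0 := fun v hv =>
      (b5 y v y hy hv hy).2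
    have h1 := Eva_one he ht y D hD y h0
    exact Eva_two he ht (D y) D' hD' y h1 v hv

end Pool.Agent.CRM
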