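import Pool.Agent.CRM.Stc
import Pool.Agent.CRM.Rul
import Pool.Agent.CRL.All

/-!
Campaign CRM, module Evn: a subring with a nonzero product of three arrows is the whole ring of type
`E` (helper2).
-/

set_option autoImplicit false

namespace Pool.Agent.CRM

open Pool.Agent.CRR Pool.Agent.CRN Pool.Agent.CRK Pool.Agent.CRL

section absl

variable {R : Type} [NonUnitalRing R]

/-- The case `x ∈ U`. -/
theorem Evn_one (O : Subring (AddMonoid.End R)) (P U : AddSubgroup R) (x z u₁ u₂ v : R)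
    (hPU : P ≤ U) (hu₁ : u₁ ∈ U) (hu₂ : u₂ ∈ U) (hUO : ∀ D ∈ O, ∀ w ∈ U, D w ∈ U)
    (hz : ∀ D ∈ O, D z ∈ P ∨ ∃ D' ∈ O, D' (D z) = z)
    (h1 : ∃ D ∈ O, ∃ D' ∈ O, u₁ - (D x + D' z) ∈ P)
    (h2 : ∃ D ∈ O, ∃ D' ∈ O, u₂ - (D x + D' z) ∈ P)
    (hZ : ∀ D ∈ O, ∀ D' ∈ O, ∀ r ∈ P, ∀ r' ∈ P, (D x + r) * v * (D' x + r') = 0)
    (hne : u₁ * v * u₂ ≠ 0) (hx : x ∈ U) : z ∈ U := by
  by_contra hzU
  have key : ∀ u ∈ U, (∃ D ∈ O, ∃ D' ∈ O, u - (D x + D' z) ∈ P) →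
      ∃ D ∈ O, ∃ r ∈ P, u = D x + r := by
    rintro u hu ⟨D, hD, D', hD', hr⟩
    rcases hz D' hD' with h | ⟨E, hE, h⟩
    · refine ⟨D, hD, D' z + (u - (D x + D' z)), P.add_mem h hr, ?_⟩
      abel
    · exfalso
      apply hzU
      rw [← h]
      apply hUO E hE
      have e : D' z = u - D x - (u - (D x + D' z)) := by abel
      rw [e]
      exact U.sub_mem (U.sub_mem hu (hUO D hD x hx)) (hPU hr)
  obtain ⟨D, hD, r, hr, e1⟩ := key u₁ hu₁ h1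
  obtain ⟨D', hD', r', hr', e2⟩ := key u₂ hu₂ h2
  apply hne
  rw [e1, e2]
  exact hZ D hD D' hD' r hr r' hr'

theorem Evn_xz (O : Subring (AddMonoid.End R)) (P U : AddSubgroup R) (x z u₁ u₂ v : R)
    (hPU : P ≤ U) (hu₁ : u₁ ∈ U) (hu₂ : u₂ ∈ U) (hUO : ∀ D ∈ O, ∀ w ∈ U, D w ∈ U)
    (hPO : ∀ D ∈ O, ∀ w ∈ P, D w ∈ P)
    (hx : ∀ D ∈ O, D x ∈ P ∨ ∃ D' ∈ O, D' (D x) = x)
    (hz : ∀ D ∈ O, D z ∈ P ∨ ∃ D' ∈ O, D' (D z) = z)
    (h1 : ∃ D ∈ O, ∃ D' ∈ O, u₁ - (D x + D' z) ∈ P)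
    (h2 : ∃ D ∈ O, ∃ D' ∈ O, u₂ - (D x + D' z) ∈ P)
    (hZ : ∀ c, (c = x ∨ c = z ∨ c = u₁) → ∀ D ∈ O, ∀ D' ∈ O, ∀ r ∈ P, ∀ r' ∈ P,
      (D c + r) * v * (D' c + r') = 0)
    (hne : u₁ * v * u₂ ≠ 0) : x ∈ U ∧ z ∈ U := by
  have sw : ∀ u, (∃ D ∈ O, ∃ D' ∈ O, u - (D x + D' z) ∈ P) →
      ∃ D ∈ O, ∃ D' ∈ O, u - (D z + D' x) ∈ P := by
    rintro u ⟨D, hD, D', hD', hr⟩
    refine ⟨D', hD', D, hD, ?_⟩
    rw [add_comm]
    exact hr
  by_cases hA : ∃ D ∈ O, D x ∈ U ∧ D x ∉ P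
  · obtain ⟨D, hD, hDU, hDP⟩ := hA
    have hxU : x ∈ U := by
      rcases hx D hD with h | ⟨E, hE, h⟩
      · exact absurd h hDP
      · rw [← h]
        exact hUO E hE _ hDU
    exact ⟨hxU, Evn_one O P U x z u₁ u₂ v hPU hu₁ hu₂ hUO hz h1 h2 (hZ x (Or.inl rfl)) hne hxU⟩
  by_cases hB : ∃ D ∈ O, D z ∈ U ∧ D z ∉ P
  · obtain ⟨D, hD, hDU, hDP⟩ := hB
    have hzU : z ∈ U := by
      rcases hz D hD with h | ⟨E, hE, h⟩
      · exact absurd h hDP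
      · rw [← h]
        exact hUO E hE _ hDU
    exact ⟨Evn_one O P U z x u₁ u₂ v hPU hu₁ hu₂ hUO hx (sw _ h1) (sw _ h2)
      (hZ z (Or.inr (Or.inl rfl))) hne hzU, hzU⟩
  exfalso
  push Not at hA hB
  obtain ⟨D₁, hD₁, D₁', hD₁', hr₁⟩ := h1
  obtain ⟨D₂, hD₂, D₂', hD₂', hr₂⟩ := h2
  have hid : ∀ u : R, (1 : AddMonoid.End R) u = u := fun u => rfl
  rcases hz D₁' hD₁' with h | ⟨E, hE, h⟩
  · have h3 : D₁ x ∈ U := by
      have e : D₁ x = u₁ - D₁' z - (u₁ - (D₁ x + D₁' z)) := by abel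
      rw [e]
      exact U.sub_mem (U.sub_mem hu₁ (hPU h)) (hPU hr₁)
    have h4 := hA D₁ hD₁ h3
    have h5 : u₁ ∈ P := by
      have e : u₁ = D₁ x + D₁' z + (u₁ - (D₁ x + D₁' z)) := by abel
      rw [e]
      exact P.add_mem (P.add_mem h4 h) hr₁
    apply hne
    have h7 := hZ x (Or.inl rfl) 0 O.zero_mem D₂ hD₂ u₁ h5 (u₂ - (D₂ x + D₂' z)) hr₂
    have h8 := hZ z (Or.inr (Or.inl rfl)) 0 O.zero_mem D₂' hD₂' u₁ h5 0 P.zero_mem
    have e0 : ∀ w : R, (0 : AddMonoid.End R) w = 0 := fun w => rfl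
    rw [e0, zero_add] at h7 h8
    rw [add_zero] at h8
    have e : u₂ = (D₂ x + (u₂ - (D₂ x + D₂' z))) + D₂' z := by abel
    rw [e, mul_add, h7, h8, add_zero]
  · have hc : u₂ - D₂' (E u₁) ∈ P := by
      have hr₃ : (u₂ - (D₂ x + D₂' z)) - D₂' (E (u₁ - (D₁ x + D₁' z))) ∈ P :=
        P.sub_mem hr₂ (hPO _ hD₂' _ (hPO _ hE _ hr₁))
      have e1 : u₂ - D₂' (E u₁) = (D₂ - D₂' * (E * D₁)) x +
          ((u₂ - (D₂ x + D₂' z)) - D₂' (E (u₁ - (D₁ x + D₁' z)))) := by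
        have e2 : (D₂ - D₂' * (E * D₁)) x = D₂ x - D₂' (E (D₁ x)) := rfl
        rw [e2, map_sub E, map_add E, h, map_sub D₂', map_add D₂']
        abel
      have h9 : (D₂ - D₂' * (E * D₁)) ∈ O :=
        O.sub_mem hD₂ (O.mul_mem hD₂' (O.mul_mem hE hD₁))
      have h10 : (D₂ - D₂' * (E * D₁)) x ∈ U := by
        have e3 : (D₂ - D₂' * (E * D₁)) x = (u₂ - D₂' (E u₁)) -
          ((u₂ - (D₂ x + D₂' z)) - D₂' (E (u₁ - (D₁ x + D₁' z)))) := by
          rw [e1]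
          abel
        rw [e3]
        exact U.sub_mem (U.sub_mem hu₂ (hUO _ hD₂' _ (hUO _ hE _ hu₁))) (hPU hr₃)
      rw [e1]
      exact P.add_mem (hA _ h9 h10) hr₃
    apply hne
    have h11 := hZ u₁ (Or.inr (Or.inr rfl)) 1 O.one_mem (D₂' * E) (O.mul_mem hD₂' hE) 0
      P.zero_mem _ hc
    have e4 : (D₂' * E) u₁ = D₂' (E u₁) := rfl
    rw [hid, add_zero, e4] at h11
    have e5 : u₂ = D₂' (E u₁) + (u₂ - D₂' (E u₁)) := by abel
    rw [e5]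
    exact h11

end absl

section conc

variable {R : Type} [NonUnitalRing R] {s : ℕ} {e : Fin s → R} {t : Fin s → R}
  {α β : Option (Fin s)}

theorem Evn_nl (hab : α ≠ β) {x : R} (hx : Pc e α β x) : Nl x := by
  unfold Nl
  rw [Rul_zero (Ne.symm hab) hx hx, zero_mul]

theorem Evn_LB (hO : ∀ (γ δ : Option (Fin s)), ∀ D ∈ Ops t γ δ, ∀ x, Pc e γ δ x → Pc e γ δ (D x))
    (h5 : ∀ c v, Pc e α β c → Pc e β α v → c * v * c = 0) {c v : R} (hc : Pc e α β c)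
    (hv : Pc e β α v) {D D' : AddMonoid.End R} (hD : D ∈ Ops t α β) (hD' : D' ∈ Ops t α β) :
    D c * v * D' c = 0 := by
  have s1 : ∀ D ∈ Ops t α β, ∀ u w, Pc e α β u → (∀ v, Pc e β α v → u * v * w = 0) →
      ∀ v, Pc e β α v → D u * v * w = 0 := by
    intro D hD
    refine Subring.closure_induction (p := fun D _ => ∀ u w, Pc e α β u →
      (∀ v, Pc e β α v → u * v * w = 0) → ∀ v, Pc e β α v → D u * v * w = 0)
      ?_ ?_ ?_ ?_ ?_ ?_ hD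
    · rintro D (⟨i, hi, rfl⟩ | ⟨j, hj, rfl⟩) u w hu h v hv
      · show t i * u * v * w = 0
        rw [mul_assoc (t i), mul_assoc (t i), h v hv, mul_zero]
      · show u * t j * v * w = 0
        rw [mul_assoc u]
        apply h
        exact hO β α (AddMonoid.End.mulLeft (t j)) (Subring.subset_closure
          (Or.inl ⟨j, hj, rfl⟩)) v hv
    · intro u w _ _ v _
      show (0 : R) * v * w = 0
      rw [zero_mul, zero_mul]
    · intro u w _ h v hv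
      exact h v hv
    · intro D D' _ _ hD hD' u w hu h v hv
      show (D u + D' u) * v * w = 0
      rw [add_mul, add_mul, hD u w hu h v hv, hD' u w hu h v hv, add_zero]
    · intro D _ hD u w hu h v hv
      show (-(D u)) * v * w = 0
      rw [neg_mul, neg_mul, hD u w hu h v hv, neg_zero]
    · intro D D' hDm hDm' hD hD' u w hu h v hv
      show D (D' u) * v * w = 0
      exact hD (D' u) w (hO α β D' hDm' u hu) (fun v hv => hD' u w hu h v hv) v hv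
  have s2 : ∀ D ∈ Ops t α β, ∀ u w, Pc e α β w → (∀ v, Pc e β α v → u * v * w = 0) →
      ∀ v, Pc e β α v → u * v * D w = 0 := by
    intro D hD
    refine Subring.closure_induction (p := fun D _ => ∀ u w, Pc e α β w →
      (∀ v, Pc e β α v → u * v * w = 0) → ∀ v, Pc e β α v → u * v * D w = 0)
      ?_ ?_ ?_ ?_ ?_ ?_ hD
    · rintro D (⟨i, hi, rfl⟩ | ⟨j, hj, rfl⟩) u w hu h v hv
      · show u * v * (t i * w) = 0
        rw [← mul_assoc, mul_assoc u]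
        apply h
        exact hO β α (AddMonoid.End.mulRight (t i)) (Subring.subset_closure
          (Or.inr ⟨i, hi, rfl⟩)) v hv
      · show u * v * (w * t j) = 0
        rw [← mul_assoc, h v hv, zero_mul]
    · intro u w _ _ v _
      show u * v * (0 : R) = 0
      rw [mul_zero]
    · intro u w _ h v hv
      exact h v hv
    · intro D D' _ _ hD hD' u w hu h v hv
      show u * v * (D w + D' w) = 0
      rw [mul_add, hD u w hu h v hv, hD' u w hu h v hv, add_zero]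
    · intro D _ hD u w hu h v hv
      show u * v * (-(D w)) = 0
      rw [mul_neg, hD u w hu h v hv, neg_zero]
    · intro D D' hDm hDm' hD hD' u w hu h v hv
      show u * v * D (D' w) = 0
      exact hD u (D' w) (hO α β D' hDm' w hu) (fun v hv => hD' u w hu h v hv) v hv
  exact s2 D' hD' (D c) c hc (fun v hv => s1 D hD c c hc (fun v hv => h5 c v hc hv) v hv) v hv

/-- Products of three arrows. -/
def EvnT (e : Fin s → R) (α β : Option (Fin s)) : Set R :=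
  {w | ∃ u₁ v u₂, Jc e α β u₁ ∧ Jc e β α v ∧ Jc e α β u₂ ∧ w = u₁ * v * u₂}

/-- The group generated by the `p u` and the products of three arrows. -/
def EvnP (p : ℕ) (e : Fin s → R) (α β : Option (Fin s)) : AddSubgroup R :=
  AddSubgroup.closure ({w | ∃ u, Pc e α β u ∧ w = p • u} ∪ EvnT e α β)

theorem Evn_smul {x : R} (hx : Pc e α β x) (p : ℕ) : Pc e α β (p • x) := by
  refine ⟨fun i => ?_, fun i => ?_⟩
  · rw [mul_smul_comm, hx.1 i]
    split_ifs <;> simp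
  · rw [smul_mul_assoc, hx.2 i]
    split_ifs <;> simp

theorem Evn_Ppc {p : ℕ} {r : R} (hr : r ∈ EvnP p e α β) : Pc e α β r := by
  refine AddSubgroup.closure_induction (p := fun r _ => Pc e α β r) ?_ ?_ ?_ ?_ hr
  · rintro w (⟨u, hu, rfl⟩ | ⟨u₁, v, u₂, h1, h2, h3, rfl⟩)
    · exact Evn_smul hu p
    · exact Rul_mul (Rul_mul h1.1 h2.1) h3.1
  · exact ⟨fun i => by split_ifs <;> simp, fun i => by split_ifs <;> simp⟩
  · intro x y _ _ hx hy
    exact Rul_add hx hy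
  · intro x _ hx
    exact Rul_neg hx

theorem Evn_PO {p : ℕ} (hab : α ≠ β)
    (hO : ∀ (γ δ : Option (Fin s)), ∀ D ∈ Ops t γ δ, ∀ x, Pc e γ δ x → Pc e γ δ (D x)) :
    ∀ D ∈ Ops t α β, ∀ r ∈ EvnP p e α β, D r ∈ EvnP p e α β := by
  intro D hD
  refine Subring.closure_induction (p := fun D _ => ∀ r ∈ EvnP p e α β, D r ∈ EvnP p e α β)
      ?_ ?_ ?_ ?_ ?_ ?_ hD
  · intro D hDg r hr
    have hDm : D ∈ Ops t α β := Subring.subset_closure hDg
    refine AddSubgroup.closure_induction (p := fun r _ => D r ∈ EvnP p e α β) ?_ ?_ ?_ ?_ hr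
    · rintro w (⟨u, hu, rfl⟩ | ⟨u₁, v, u₂, h1, h2, h3, rfl⟩)
      · rw [map_nsmul]
        exact AddSubgroup.subset_closure (Or.inl ⟨D u, hO α β D hDm u hu, rfl⟩)
      · apply AddSubgroup.subset_closure
        right
        rcases hDg with ⟨i, hi, rfl⟩ | ⟨j, hj, rfl⟩
        · have h4 := hO α β _ hDm u₁ h1.1
          refine ⟨t i * u₁, v, u₂, ⟨h4, Evn_nl hab h4⟩, h2, h3, ?_⟩
          show t i * (u₁ * v * u₂) = t i * u₁ * v * u₂
          rw [mul_assoc, mul_assoc, mul_assoc]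
        · have h4 := hO α β _ hDm u₂ h3.1
          refine ⟨u₁, v, u₂ * t j, h1, h2, ⟨h4, Evn_nl hab h4⟩, ?_⟩
          show u₁ * v * u₂ * t j = u₁ * v * (u₂ * t j)
          rw [mul_assoc]
    · rw [map_zero]
      exact AddSubgroup.zero_mem _
    · intro x y _ _ hx hy
      rw [map_add]
      exact AddSubgroup.add_mem _ hx hy
    · intro x _ hx
      rw [map_neg]
      exact AddSubgroup.neg_mem _ hx
  · intro r _
    exact AddSubgroup.zero_mem _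
  · intro r hr
    exact hr
  · intro D D' _ _ hD hD' r hr
    exact AddSubgroup.add_mem _ (hD r hr) (hD' r hr)
  · intro D _ hD r hr
    exact AddSubgroup.neg_mem _ (hD r hr)
  · intro D D' _ _ hD hD' r hr
    exact hD _ (hD' r hr)

/-- `F` vanishes on `P`. -/
theorem Evn_PF {p : ℕ}
    (h0 : ∀ u v w, Pc e α β u → Pc e β α v → Pc e α β w → p • (u * v * w) = 0)
    (h4 : ∀ u v w v', Pc e α β u → Pc e β α v → Pc e α β w → Pc e β α v' → u * v * w * v' = 0)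
    {v w r : R} (hv : Pc e β α v) (hw : Pc e α β w) (hr : r ∈ EvnP p e α β) :
    r * v * w = 0 ∧ w * v * r = 0 := by
  refine AddSubgroup.closure_induction (p := fun r _ => r * v * w = 0 ∧ w * v * r = 0)
    ?_ ?_ ?_ ?_ hr
  · rintro x (⟨u, hu, rfl⟩ | ⟨u₁, v', u₂, h1, h2, h3, rfl⟩)
    · rw [smul_mul_assoc, smul_mul_assoc, mul_smul_comm, h0 u v w hu hv hw, h0 w v u hw hv hu]
      exact ⟨rfl, rfl⟩
    · constructor
      · rw [h4 u₁ v' u₂ v h1.1 h2.1 h3.1 hv, zero_mul]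
      · have h5 := h4 w v u₁ v' hw hv h1.1 h2.1
        rw [← mul_assoc, ← mul_assoc, h5, zero_mul]
  · simp
  · rintro x y _ _ ⟨h1, h2⟩ ⟨h3, h4⟩
    rw [add_mul, add_mul, mul_add, h1, h2, h3, h4]
    simp
  · rintro x _ ⟨h1, h2⟩
    rw [neg_mul, neg_mul, mul_neg, h1, h2]
    simp

end conc

theorem thm_Evn (hOps : St_Ops) (hOpc : St_Opc) (hRul : St_Rul) (hNac : St_Nac) (hSpe : St_Spe)
    (hEva : St_Eva) : St_Evn := by
  intro n p s R _ _ t H α β x y z T S hS u₁ v u₂ hu₁ hv hu₂ hu₁S hvS hu₂S hne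
  obtain ⟨hP, -, -⟩ := fpr n p R T.cy s t T.cx.fr
  obtain ⟨J, hJ, hJ2⟩ := jil n T.cy.n4 R T.cy.inM T.cy.nt
  have he : Hm (fun i => om n (t i)) := by
    refine ⟨fun i => (hP.prm i).1, hP.orth, fun x y hx hy => ?_, fun r x hx => ?_⟩
    · exact (hJ2 _).1 (J.add_mem ((hJ2 x).2 hx) ((hJ2 y).2 hy))
    · have h := hJ r x ((hJ2 x).2 hx)
      exact ⟨(hJ2 _).1 h.1, (hJ2 _).1 h.2⟩
  obtain ⟨sp1, sp2, sp3, -⟩ := hSpe n p s R t H α β x y z T
  obtain ⟨ev1, -⟩ := hEva n p s R t H α β x y z T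
  have hab := T.ab
  have hO : ∀ (γ δ : Option (Fin s)), ∀ D ∈ Ops t γ δ, ∀ x,
      Pc (fun i => om n (t i)) γ δ x → Pc (fun i => om n (t i)) γ δ (D x) :=
    fun γ δ D hD x => (hOpc n p R T.cy s t T.cx.fr γ δ D hD x).1
  set e : Fin s → R := fun i => om n (t i) with hedef
  have nl1 : ∀ {u}, Pc e α β u → Jc e α β u := fun {u} h => ⟨h, Evn_nl hab h⟩
  have nl2 : ∀ {u}, Pc e β α u → Jc e β α u := fun {u} h => ⟨h, Evn_nl hab.symm h⟩
  have hz0 : Nl (0 : R) := by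
    unfold Nl
    rw [zero_mul]
    exact zero_mul 0
  have hp0 : ∀ γ δ, Pc e γ δ (0 : R) := fun γ δ =>
    ⟨fun i => by split_ifs <;> simp, fun i => by split_ifs <;> simp⟩
  have h5 : ∀ c v, Pc e α β c → Pc e β α v → c * v * c = 0 := fun c v hc hv =>
    ((hRul R s e he α β hab).2.2.2.2 c v c (nl1 hc) (nl2 hv) (nl1 hc)).2
  have h0 : ∀ u v w, Pc e α β u → Pc e β α v → Pc e α β w → p • (u * v * w) = 0 :=
    fun u v w hu hv hw => (ev1 u v w (nl1 hu) (nl2 hv) (nl1 hw)).2.1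
  have h4 : ∀ u v w v', Pc e α β u → Pc e β α v → Pc e α β w → Pc e β α v' →
      u * v * w * v' = 0 := by
    intro u v w v' hu hv hw hv'
    have hb : Jc e β β (v * w) := ⟨Rul_mul hv hw, (he.mul v w (nl1 hw).2).1⟩
    have h := ((hRul R s e he α β hab).2.2.2.1 0 (v * w) u v' ⟨hp0 α α, hz0⟩ hb (nl1 hu)
      (nl2 hv')).2
    rw [mul_assoc u v w]
    exact h
  -- the arrow `y`
  have hvJ := hv
  have hyS : y ∈ S := by
    obtain ⟨D, hD, hDy⟩ := sp2 v hv.1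
    rcases T.ay.pu D hD with ⟨D', hD', h⟩ | ⟨D', hD', h⟩
    · exfalso
      apply hne
      rw [hDy, h, mul_smul_comm, smul_mul_assoc]
      exact h0 u₁ (D' y) u₂ hu₁.1 (hO β α D' hD' y T.ay.pc) hu₂.1
    · rw [← h, ← hDy]
      exact (hOps R s t β α).2.1 D' hD' S hS v hvS
  have hOS : ∀ D ∈ Ops t α β, ∀ x ∈ S, D x ∈ S := fun D hD x hx =>
    (hOps R s t α β).2.1 D hD S hS x hx
  -- the group `U`
  obtain ⟨P, hPdef⟩ : ∃ P, P = EvnP p e α β := ⟨_, rfl⟩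
  have hPO : ∀ D ∈ Ops t α β, ∀ r ∈ P, D r ∈ P := by
    rw [hPdef]; exact Evn_PO hab hO
  have hPpc : ∀ r ∈ P, Pc e α β r := by
    rw [hPdef]; exact fun r hr => Evn_Ppc hr
  have hPF : ∀ {v w r : R}, Pc e β α v → Pc e α β w → r ∈ P → r * v * w = 0 ∧ w * v * r = 0 := by
    intro v w r hv hw hr
    rw [hPdef] at hr
    exact Evn_PF h0 h4 hv hw hr
  have hpP : ∀ u, Pc e α β u → p • u ∈ P := by
    intro u hu
    rw [hPdef]
    exact AddSubgroup.subset_closure (Or.inl ⟨u, hu, rfl⟩)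
  have hTP : AddSubgroup.closure {w | ∃ u₁ v u₂, Jc e α β u₁ ∧ Jc e β α v ∧ Jc e α β u₂ ∧
      w = u₁ * v * u₂} ≤ P := by
    rw [hPdef]
    exact AddSubgroup.closure_mono (fun w hw => Or.inr hw)
  obtain ⟨U, hUdef⟩ : ∃ U : AddSubgroup R, U = AddSubgroup.closure
      ({w | ∃ D ∈ Ops t α β, w = D u₁ ∨ w = D u₂} ∪ (P : Set R)) := ⟨_, rfl⟩
  have hPU : P ≤ U := by
    rw [hUdef]
    exact fun w hw => AddSubgroup.subset_closure (Or.inr hw)
  have hDU : ∀ D ∈ Ops t α β, D u₁ ∈ U ∧ D u₂ ∈ U := by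
    intro D hD
    rw [hUdef]
    exact ⟨AddSubgroup.subset_closure (Or.inl ⟨D, hD, Or.inl rfl⟩),
      AddSubgroup.subset_closure (Or.inl ⟨D, hD, Or.inr rfl⟩)⟩
  have h1U := hDU 1 (Subring.one_mem _)
  have hUO : ∀ D ∈ Ops t α β, ∀ w ∈ U, D w ∈ U := by
    intro D hD w hw
    rw [hUdef] at hw
    refine AddSubgroup.closure_induction (p := fun w _ => D w ∈ U) ?_ ?_ ?_ ?_ hw
    · rintro w (⟨E, hE, rfl | rfl⟩ | hw)
      · exact (hDU (D * E) (Subring.mul_mem _ hD hE)).1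
      · exact (hDU (D * E) (Subring.mul_mem _ hD hE)).2
      · exact hPU (hPO D hD w hw)
    · rw [map_zero]
      exact U.zero_mem
    · intro a b _ _ ha hb
      rw [map_add]
      exact U.add_mem ha hb
    · intro a _ ha
      rw [map_neg]
      exact U.neg_mem ha
  have hpur : ∀ c, Arr n p t α β c → ∀ D ∈ Ops t α β, D c ∈ P ∨ ∃ D' ∈ Ops t α β, D' (D c) = c := by
    intro c hc D hD
    rcases hc.pu D hD with ⟨D', hD', h⟩ | h
    · left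
      rw [h]
      exact hpP _ (hO α β D' hD' c hc.pc)
    · exact Or.inr h
  have hdec : ∀ u, Pc e α β u → ∃ D ∈ Ops t α β, ∃ D' ∈ Ops t α β, u - (D x + D' z) ∈ P := by
    intro u hu
    obtain ⟨D, hD, D', hD', h⟩ := sp1 u hu
    exact ⟨D, hD, D', hD', hTP h⟩
  have hZ : ∀ c, (c = x ∨ c = z ∨ c = u₁) → ∀ D ∈ Ops t α β, ∀ D' ∈ Ops t α β, ∀ r ∈ P, ∀ r' ∈ P,
      (D c + r) * v * (D' c + r') = 0 := by
    intro c hc D hD D' hD' r hr r' hr'
    have hcp : Pc e α β c := by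
      rcases hc with rfl | rfl | rfl
      · exact T.ax.pc
      · exact T.az.pc
      · exact hu₁.1
    have e1 := Evn_LB hO h5 hcp hv.1 hD hD'
    have e2 := (hPF hv.1 (hO α β D hD c hcp) hr').2
    have e3 := (hPF hv.1 (hO α β D' hD' c hcp) hr).1
    have e4 := (hPF hv.1 (hPpc r hr) hr').2
    rw [add_mul, add_mul, mul_add, mul_add, e1, e2, e3, e4]
    simp
  obtain ⟨hxU, hzU⟩ := Evn_xz (Ops t α β) P U x z u₁ u₂ v hPU h1U.1 h1U.2 hUO hPO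
    (hpur x T.ax) (hpur z T.az) (hdec u₁ hu₁.1) (hdec u₂ hu₂.1) hZ hne
  -- the subgroup of the elements which are congruent to nil elements of `S`
  let S₂ : AddSubgroup R :=
    { carrier := {w | ∃ y ∈ S, Nl y ∧ w - y ∈ J2 R}
      zero_mem' := ⟨0, S.zero_mem, hz0, by rw [sub_zero]; exact AddSubgroup.zero_mem _⟩
      add_mem' := by
        rintro a b ⟨a', ha1, ha2, ha3⟩ ⟨b', hb1, hb2, hb3⟩
        refine ⟨a' + b', S.add_mem ha1 hb1, he.add _ _ ha2 hb2, ?_⟩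
        rw [add_sub_add_comm]
        exact AddSubgroup.add_mem _ ha3 hb3
      neg_mem' := by
        rintro a ⟨a', ha1, ha2, ha3⟩
        refine ⟨-a', S.neg_mem ha1, ?_, ?_⟩
        · unfold Nl at ha2 ⊢
          rw [neg_mul_neg, mul_neg, ha2, neg_zero]
        · have : -a - -a' = -(a - a') := by abel
          rw [this]
          exact AddSubgroup.neg_mem _ ha3 }
  have hS₂ : ∀ w, w ∈ S₂ ↔ ∃ y ∈ S, Nl y ∧ w - y ∈ J2 R := fun w => Iff.rfl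
  have hSS : ∀ w ∈ S, Nl w → w ∈ S₂ := fun w hw hn => ⟨w, hw, hn, by
    rw [sub_self]; exact AddSubgroup.zero_mem _⟩
  have hJS : ∀ w ∈ J2 R, w ∈ S₂ := fun w hw => ⟨0, S.zero_mem, hz0, by rw [sub_zero]; exact hw⟩
  have hUS : ∀ w ∈ U, ∃ y ∈ S₂, ∃ u', Pc e α β u' ∧ w = y + p • u' := by
    intro w hw
    rw [hUdef] at hw
    have hP1 : ∀ w ∈ P, ∃ y ∈ S₂, ∃ u', Pc e α β u' ∧ w = y + p • u' := by
      intro w hw
      rw [hPdef] at hw
      refine AddSubgroup.closure_induction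
        (p := fun w _ => ∃ y ∈ S₂, ∃ u', Pc e α β u' ∧ w = y + p • u') ?_ ?_ ?_ ?_ hw
      · rintro w (⟨u, hu, rfl⟩ | ⟨a₁, b, a₂, h1, h2, h3, rfl⟩)
        · exact ⟨0, S₂.zero_mem, u, hu, by rw [zero_add]⟩
        · refine ⟨a₁ * b * a₂, hJS _ (AddSubgroup.subset_closure
            ⟨a₁ * b, a₂, (he.mul a₁ b h2.2).1, h3.2, rfl⟩), 0, hp0 α β, ?_⟩
          rw [smul_zero, add_zero]
      · exact ⟨0, S₂.zero_mem, 0, hp0 α β, by rw [smul_zero, add_zero]⟩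
      · rintro a b _ _ ⟨y₁, hy₁, v₁, hv₁, rfl⟩ ⟨y₂, hy₂, v₂, hv₂, rfl⟩
        refine ⟨y₁ + y₂, S₂.add_mem hy₁ hy₂, v₁ + v₂, Rul_add hv₁ hv₂, ?_⟩
        rw [smul_add]
        abel
      · rintro a _ ⟨y₁, hy₁, v₁, hv₁, rfl⟩
        refine ⟨-y₁, S₂.neg_mem hy₁, -v₁, Rul_neg hv₁, ?_⟩
        rw [smul_neg]
        abel
    refine AddSubgroup.closure_induction
      (p := fun w _ => ∃ y ∈ S₂, ∃ u', Pc e α β u' ∧ w = y + p • u') ?_ ?_ ?_ ?_ hw
    · rintro w (⟨D, hD, rfl | rfl⟩ | hw)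
      · exact ⟨_, hSS _ (hOS D hD _ hu₁S) (Evn_nl hab (hO α β D hD _ hu₁.1)), 0, hp0 α β, by
          rw [smul_zero, add_zero]⟩
      · exact ⟨_, hSS _ (hOS D hD _ hu₂S) (Evn_nl hab (hO α β D hD _ hu₂.1)), 0, hp0 α β, by
          rw [smul_zero, add_zero]⟩
      · exact hP1 w hw
    · exact ⟨0, S₂.zero_mem, 0, hp0 α β, by rw [smul_zero, add_zero]⟩
    · rintro a b _ _ ⟨y₁, hy₁, v₁, hv₁, rfl⟩ ⟨y₂, hy₂, v₂, hv₂, rfl⟩
      refine ⟨y₁ + y₂, S₂.add_mem hy₁ hy₂, v₁ + v₂, Rul_add hv₁ hv₂, ?_⟩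
      rw [smul_add]
      abel
    · rintro a _ ⟨y₁, hy₁, v₁, hv₁, rfl⟩
      refine ⟨-y₁, S₂.neg_mem hy₁, -v₁, Rul_neg hv₁, ?_⟩
      rw [smul_neg]
      abel
  have hMU : ∀ u, Pc e α β u → u ∈ U := by
    intro u hu
    obtain ⟨D, hD, D', hD', h⟩ := hdec u hu
    have e1 : u = D x + D' z + (u - (D x + D' z)) := by abel
    rw [e1]
    exact U.add_mem (U.add_mem (hUO D hD x hxU) (hUO D' hD' z hzU)) (hPU h)
  have hiter : ∀ k : ℕ, ∀ u, Pc e α β u → ∃ y ∈ S₂, ∃ u', Pc e α β u' ∧ u = y + (p ^ k) • u' := by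
    intro k
    induction k with
    | zero =>
      intro u hu
      exact ⟨0, S₂.zero_mem, u, hu, by rw [pow_zero, one_smul, zero_add]⟩
    | succ k ih =>
      intro u hu
      obtain ⟨y₁, hy₁, v₁, hv₁, h1⟩ := ih u hu
      obtain ⟨y₂, hy₂, v₂, hv₂, h2⟩ := hUS v₁ (hMU v₁ hv₁)
      refine ⟨y₁ + (p ^ k) • y₂, S₂.add_mem hy₁ (S₂.nsmul_mem hy₂ _), v₂, hv₂, ?_⟩
      rw [h1, h2, smul_add, smul_smul, pow_succ, add_assoc]
  obtain ⟨r, hr⟩ := T.cx.pr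
  have hMS : ∀ u, Pc e α β u → u ∈ S₂ := by
    intro u hu
    obtain ⟨y₁, hy₁, v₁, hv₁, h1⟩ := hiter r u hu
    rw [h1, hr, add_zero]
    exact hy₁
  refine hNac n p R T.cy s t T.cx.fr S hS fun w hw => ?_
  obtain ⟨w', hw'S, hw'n, a₁, a₂, ha₁, ha₂, hj⟩ := sp3 w hw
  have hw'2 : w' ∈ S := by
    have : NonUnitalSubring.closure (Set.range t) ≤ S := by
      rw [NonUnitalSubring.closure_le]
      rintro _ ⟨i, rfl⟩
      exact hS i
    exact this hw'S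
  have ha₂S : a₂ ∈ S := by
    obtain ⟨D, hD, rfl⟩ := sp2 a₂ ha₂.1
    exact (hOps R s t β α).2.1 D hD S hS y hyS
  have hfin : w ∈ S₂ := by
    have e1 : w = (w' + a₁ + a₂) + (w - (w' + a₁ + a₂)) := by abel
    rw [e1]
    exact S₂.add_mem (S₂.add_mem (S₂.add_mem (hSS _ hw'2 hw'n) (hMS a₁ ha₁.1))
      (hSS _ ha₂S ha₂.2)) (hJS _ hj)
  exact hfin

end Pool.Agent.CRM
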