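import Pool.Agent.CRM.Stc

/-!
Campaign CRM: the exchange lemma (problem MP_1bb14d_al).
-/

set_option autoImplicit false

namespace Pool.Agent.CRM

open Pool.Agent.CRR Pool.Agent.CRN Pool.Agent.CRK Pool.Agent.CRL

theorem thm_Exg : St_Exg := by
  intro R _ s t α m N G F a y hGN hst hinv hadd halt hG ha hsp hy hne
  -- additivity for finite sums
  have hsum : ∀ r, r < m → ∀ (T : Finset ℕ) (u : ℕ → R), (∀ k ∈ T, u k ∈ N) →
      F (Function.update y r (∑ k ∈ T, u k)) = ∑ k ∈ T, F (Function.update y r (u k)) := by
    intro r hr T u
    induction T using Finset.induction_on with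
    | empty =>
      intro _
      rw [Finset.sum_empty, Finset.sum_empty]
      refine hG _ r hr ?_ ?_
      · intro k hk
        by_cases hkr : k = r
        · rw [hkr, Function.update_self]
          exact N.zero_mem
        · rw [Function.update_of_ne hkr]
          exact hy k hk
      · rw [Function.update_self]
        exact G.zero_mem
    | insert k T hk ih =>
      intro hu
      rw [Finset.sum_insert hk, Finset.sum_insert hk,
        hadd y r (u k) (∑ k ∈ T, u k) hr hy (hu k (Finset.mem_insert_self k T))
          (N.sum_mem fun k' hk' => hu k' (Finset.mem_insert_of_mem hk')),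
        ih fun k' hk' => hu k' (Finset.mem_insert_of_mem hk')]
  have hupN : ∀ r u, u ∈ N → ∀ k, k < m → Function.update y r u k ∈ N := by
    intro r u hu k hk
    by_cases hkr : k = r
    · rw [hkr, Function.update_self]
      exact hu
    · rw [Function.update_of_ne hkr]
      exact hy k hk
  -- the exchange
  have key : ∀ r, r ≤ m → ∃ (b : ℕ → R) (τ : ℕ → ℕ), (∀ j, j < r → τ j < m) ∧
      (∀ j, j < r → b (τ j) = y j) ∧ (∀ j j', j < r → j' < r → τ j = τ j' → j = j') ∧
      (∀ k, k < m → b k ∈ N) ∧
      ∀ w ∈ N, ∃ μ : ℕ → AddMonoid.End R, (∀ k, μ k ∈ Ops t α none) ∧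
        w - ∑ k ∈ Finset.range m, μ k (b k) ∈ G := by
    intro r
    induction r with
    | zero =>
      intro _
      exact ⟨a, id, fun j hj => absurd hj (Nat.not_lt_zero j),
        fun j hj => absurd hj (Nat.not_lt_zero j),
        fun j _ hj => absurd hj (Nat.not_lt_zero j), ha, hsp⟩
    | succ r ih =>
      intro hr
      obtain ⟨b, τ, hτ, hbτ, hinj, hbN, hspb⟩ := ih (by omega)
      have hrm : r < m := by omega
      obtain ⟨ν, hν, hνg⟩ := hspb (y r) (hy r hrm)
      set g := y r - ∑ k ∈ Finset.range m, ν k (b k) with hg
      have hyr : y r = ∑ k ∈ Finset.range m, ν k (b k) + g := by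
        rw [hg]
        abel
      have hνN : ∀ k ∈ Finset.range m, ν k (b k) ∈ N := fun k hk =>
        (hst _ (hν k)).1 _ (hbN k (Finset.mem_range.1 hk))
      have hFy : F y = ∑ k ∈ Finset.range m, F (Function.update y r (ν k (b k))) := by
        have h1 : F y = F (Function.update y r (∑ k ∈ Finset.range m, ν k (b k) + g)) := by
          rw [← hyr, Function.update_eq_self]
        rw [h1, hadd y r _ g hrm hy (N.sum_mem hνN) (hGN hνg), hsum r hrm _ _ hνN,
          hG (Function.update y r g) r hrm (hupN r g (hGN hνg)) (by
            rw [Function.update_self]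
            exact hνg), add_zero]
      obtain ⟨k, hk, hFk⟩ : ∃ k ∈ Finset.range m, F (Function.update y r (ν k (b k))) ≠ 0 := by
        by_contra hcon
        push Not at hcon
        exact hne (hFy.trans (Finset.sum_eq_zero hcon))
      have hkm : k < m := Finset.mem_range.1 hk
      have hkτ : ∀ j, j < r → τ j ≠ k := by
        intro j hj hjk
        apply hFk
        have hjr : j ≠ r := by omega
        refine halt _ j r (by omega) hrm hjr (hupN r _ (hνN k hk)) ⟨ν k, hν k, ?_⟩
        rw [Function.update_self, Function.update_of_ne hjr, ← hbτ j hj, hjk]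
      have hnG : ν k (b k) ∉ G := by
        intro hcon
        exact hFk (hG _ r hrm (hupN r _ (hνN k hk)) (by
          rw [Function.update_self]
          exact hcon))
      obtain ⟨D', hD', hDD⟩ : ∃ D' ∈ Ops t α none, ∀ w ∈ N, D' (ν k w) = w := by
        rcases hinv _ (hν k) with h | h
        · exact absurd (h _ (hbN k hkm)) hnG
        · exact h
      have hsplit : ∀ f : ℕ → R, ∑ k' ∈ Finset.range m, f k' =
          f k + ∑ k' ∈ (Finset.range m).erase k, f k' := fun f =>
        (Finset.add_sum_erase _ f hk).symm
      have hbk : b k = D' (y r) - ∑ k' ∈ (Finset.range m).erase k, D' (ν k' (b k')) - D' g := by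
        have h1 : D' (y r) = b k + ∑ k' ∈ (Finset.range m).erase k, D' (ν k' (b k')) + D' g := by
          nth_rewrite 1 [hyr]
          rw [map_add, hsplit fun k' => ν k' (b k'), map_add, hDD _ (hbN k hkm), map_sum]
        rw [h1]
        abel
      refine ⟨Function.update b k (y r), Function.update τ r k, ?_, ?_, ?_, ?_, ?_⟩
      · intro j hj
        by_cases hjr : j = r
        · rw [hjr, Function.update_self]
          exact hkm
        · rw [Function.update_of_ne hjr]
          exact hτ j (by omega)
      · intro j hj
        by_cases hjr : j = r
        · rw [hjr, Function.update_self, Function.update_self]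
        · rw [Function.update_of_ne hjr, Function.update_of_ne (hkτ j (by omega))]
          exact hbτ j (by omega)
      · intro j j' hj hj' hjj
        by_cases hjr : j = r
        · by_cases hjr' : j' = r
          · rw [hjr, hjr']
          · rw [hjr, Function.update_self, Function.update_of_ne hjr'] at hjj
            exact absurd hjj.symm (hkτ j' (by omega))
        · by_cases hjr' : j' = r
          · rw [hjr', Function.update_self, Function.update_of_ne hjr] at hjj
            exact absurd hjj (hkτ j (by omega))
          · rw [Function.update_of_ne hjr, Function.update_of_ne hjr'] at hjj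
            exact hinj j j' (by omega) (by omega) hjj
      · intro k' hk'
        by_cases hkk : k' = k
        · rw [hkk, Function.update_self]
          exact hy r hrm
        · rw [Function.update_of_ne hkk]
          exact hbN k' hk'
      · intro w hw
        obtain ⟨μ, hμ, hμg⟩ := hspb w hw
        refine ⟨fun k' => if k' = k then μ k * D' else μ k' - μ k * D' * ν k', ?_, ?_⟩
        · intro k'
          by_cases hkk : k' = k
          · simp only [hkk, if_true]
            exact Subring.mul_mem _ (hμ k) hD'
          · simp only [hkk, if_false]
            exact Subring.sub_mem _ (hμ k') (Subring.mul_mem _ (Subring.mul_mem _ (hμ k) hD')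
              (hν k'))
        · have h2 : ∑ k' ∈ Finset.range m,
              (if k' = k then μ k * D' else μ k' - μ k * D' * ν k')
                (Function.update b k (y r) k') =
              μ k (D' (y r)) + ∑ k' ∈ (Finset.range m).erase k,
                (μ k' (b k') - μ k (D' (ν k' (b k')))) := by
            rw [hsplit fun k' => (if k' = k then μ k * D' else μ k' - μ k * D' * ν k')
                (Function.update b k (y r) k')]
            congr 1
            · simp only [if_true, Function.update_self]
              rfl
            · refine Finset.sum_congr rfl fun k' hk' => ?_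
              have hkk : k' ≠ k := Finset.ne_of_mem_erase hk'
              simp only [hkk, if_false, Function.update_of_ne hkk]
              rfl
          have h3 : w - (μ k (D' (y r)) + ∑ k' ∈ (Finset.range m).erase k,
                (μ k' (b k') - μ k (D' (ν k' (b k'))))) =
              (w - ∑ k' ∈ Finset.range m, μ k' (b k')) - μ k (D' g) := by
            rw [hsplit fun k' => μ k' (b k'), Finset.sum_sub_distrib]
            have h4 : μ k (b k) = μ k (D' (y r)) -
                ∑ k' ∈ (Finset.range m).erase k, μ k (D' (ν k' (b k'))) - μ k (D' g) := by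
              nth_rewrite 1 [hbk]
              rw [map_sub, map_sub, map_sum]
            rw [h4]
            abel
          show w - ∑ k' ∈ Finset.range m,
              (if k' = k then μ k * D' else μ k' - μ k * D' * ν k')
                (Function.update b k (y r) k') ∈ G
          rw [h2, h3]
          exact G.sub_mem hμg ((hst _ (hμ k)).2 _ ((hst _ hD').2 _ hνg))
  obtain ⟨b, τ, hτ, hbτ, hinj, hbN, hspb⟩ := key m le_rfl
  intro w hw
  obtain ⟨μ, hμ, hμg⟩ := hspb w hw
  refine ⟨fun j => μ (τ j), fun j => hμ _, ?_⟩
  have himg : (Finset.range m).image τ = Finset.range m := by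
    refine Finset.eq_of_subset_of_card_le ?_ ?_
    · intro k hk
      obtain ⟨j, hj, rfl⟩ := Finset.mem_image.1 hk
      exact Finset.mem_range.2 (hτ j (Finset.mem_range.1 hj))
    · rw [Finset.card_image_of_injOn]
      intro j hj j' hj' h
      exact hinj j j' (Finset.mem_range.1 hj) (Finset.mem_range.1 hj') h
  have h1 : ∑ k ∈ Finset.range m, μ k (b k) = ∑ j ∈ Finset.range m, μ (τ j) (y j) := by
    conv_lhs => rw [← himg]
    rw [Finset.sum_image]
    · refine Finset.sum_congr rfl fun j hj => ?_
      rw [hbτ j (Finset.mem_range.1 hj)]
    · intro j hj j' hj' h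
      exact hinj j j' (Finset.mem_range.1 hj) (Finset.mem_range.1 hj') h
  rw [← h1]
  exact hμg

end Pool.Agent.CRM
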