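import Pool.Agent.CRM.St
import Pool.Agent.CRL.Fpr
import Pool.Agent.CRL.Quo
import Pool.Agent.CRL.Jil
import Pool.Agent.CRL.Chn
import Pool.Agent.CRL.Snl
import Pool.Agent.CRL.Chi
import Pool.Agent.CRL.Prl

/-!
Campaign CRM, module Rut: rules with `t`.
-/

set_option autoImplicit false

namespace Pool.Agent.CRM

open Pool.Agent.CRR Pool.Agent.CRN Pool.Agent.CRK Pool.Agent.CRL

section

variable {R : Type} [NonUnitalRing R] {s : ℕ} {e : Fin s → R}

theorem Rut_mul {α β γ : Option (Fin s)} {x y : R} (hx : Pc e α β x) (hy : Pc e β γ y) :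
    Pc e α γ (x * y) := by
  refine ⟨fun i => ?_, fun j => ?_⟩
  · rw [← mul_assoc, hx.1 i]
    split_ifs <;> simp
  · rw [mul_assoc, hy.2 j]
    split_ifs <;> simp

theorem Rut_add {α β : Option (Fin s)} (he : Hm e) {x y : R} (hx : Jc e α β x)
    (hy : Jc e α β y) : Jc e α β (x + y) := by
  refine ⟨⟨fun i => ?_, fun j => ?_⟩, he.add x y hx.2 hy.2⟩
  · rw [mul_add, hx.1.1 i, hy.1.1 i]
    split_ifs <;> simp
  · rw [add_mul, hx.1.2 j, hy.1.2 j]
    split_ifs <;> simp

theorem Rut_neg {α β : Option (Fin s)} {x : R} (hx : Jc e α β x) : Jc e α β (-x) := by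
  refine ⟨⟨fun i => ?_, fun j => ?_⟩, ?_⟩
  · rw [mul_neg, hx.1.1 i]
    split_ifs <;> simp
  · rw [neg_mul, hx.1.2 j]
    split_ifs <;> simp
  · have h := hx.2
    unfold Nl at h ⊢
    rw [neg_mul_neg, mul_neg, h, neg_zero]

theorem Rut_zero {α β : Option (Fin s)} : Jc e α β (0 : R) := by
  refine ⟨⟨fun i => ?_, fun j => ?_⟩, ?_⟩
  · simp
  · simp
  · unfold Nl
    simp

/-- multiplication by an element of the corner from the left -/
theorem Rut_left {α β : Option (Fin s)} (he : Hm e) {u x : R} (hu : Pc e α α u)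
    (hx : Jc e α β x) : Jc e α β (u * x) := ⟨Rut_mul hu hx.1, (he.mul u x hx.2).1⟩

/-- multiplication by an element of the corner from the right -/
theorem Rut_right {α β : Option (Fin s)} (he : Hm e) {u x : R} (hu : Pc e β β u)
    (hx : Jc e α β x) : Jc e α β (x * u) := ⟨Rut_mul hx.1 hu, (he.mul u x hx.2).2⟩

/-- the first claim -/
theorem Rut_one (hR : St_Rul) (he : Hm e) {α β : Option (Fin s)} (hαβ : α ≠ β) {u a a' z : R}
    (hu : Pc e α α u) (ha : Jc e α α a) (ha' : Jc e α α a') (hz : Jc e α β z) :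
    a' * u * a * z = u * a' * a * z := by
  have h1 := ((hR R s e he α β hαβ).1 (u * a) a' z (Rut_left he hu ha) ha' hz).1
  have h2 := ((hR R s e he α β hαβ).1 a a' z ha ha' hz).1
  -- `(u a) a' z = - a' (u a) z`
  have h3 : a' * u * a * z = -(u * a * a' * z) := by
    rw [h1, neg_neg, mul_assoc a' u a]
  rw [h3, mul_assoc (u * a) a' z, mul_assoc u a (a' * z), ← mul_assoc a a' z, h2, mul_neg, neg_neg]
  simp only [mul_assoc]

/-- the second claim -/
theorem Rut_two (hR : St_Rul) (he : Hm e) {α β : Option (Fin s)} (hαβ : α ≠ β) {u b b' z : R}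
    (hu : Pc e β β u) (hb : Jc e β β b) (hb' : Jc e β β b') (hz : Jc e α β z) :
    z * b * (b' * u) = z * b * (u * b') := by
  have h1 := ((hR R s e he α β hαβ).2.1 (b * u) b' z (Rut_right he hu hb) hb' hz).1
  have h2 := ((hR R s e he α β hαβ).2.1 b b' z hb hb' hz).1
  have h3 : z * b * (u * b') = z * (b * u) * b' := by simp only [mul_assoc]
  rw [h3, h1, ← mul_assoc (z * b) b' u, h2, neg_mul]
  simp only [mul_assoc]

/-- the third claim -/
theorem Rut_three (hR : St_Rul) (he : Hm e) {α β : Option (Fin s)} (hαβ : α ≠ β) {u a x y : R}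
    (hu : Pc e α α u) (ha : Jc e α α a) (hx : Jc e α β x) (hy : Jc e β α y) :
    a * u * x * y = u * a * x * y := by
  have hb : Jc e β β (0 : R) := Rut_zero
  have h1 := ((hR R s e he α β hαβ).2.2.2.1 a 0 (u * x) y ha hb (Rut_left he hu hx) hy).1
  have h2 := ((hR R s e he α β hαβ).2.2.2.1 a 0 x y ha hb hx hy).1
  have h3 : a * u * x * y = a * (u * x) * y := by simp only [mul_assoc]
  have h4 : u * a * x * y = u * (a * x * y) := by simp only [mul_assoc]
  rw [h3, h1, h4, h2, mul_neg]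
  simp only [mul_assoc]

/-- operators on the first factor -/
theorem Rut_four (hR : St_Rul) (he : Hm e) {t : Fin s → R}
    (ht : ∀ i, Pc e (some i) (some i) (t i)) {α β : Option (Fin s)} (hαβ : α ≠ β) :
    ∀ D ∈ Ops t α α, (∀ a, Jc e α α a → Jc e α α (D a)) ∧
      ∃ E : AddMonoid.End R, ∀ a u z, Jc e α α a → Jc e α α u → Jc e α β z →
        D a * u * z = E (a * u * z) := by
  intro D hD
  unfold Ops at hD
  induction hD using Subring.closure_induction with
  | mem D hD =>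
    rcases hD with ⟨i, rfl, rfl⟩ | ⟨i, rfl, rfl⟩
    · refine ⟨fun a ha => Rut_left he (ht i) ha, AddMonoid.End.mulLeft (t i),
        fun a u z ha hu hz => ?_⟩
      show t i * a * u * z = t i * (a * u * z)
      simp only [mul_assoc]
    · refine ⟨fun a ha => Rut_right he (ht i) ha, AddMonoid.End.mulLeft (t i),
        fun a u z ha hu hz => ?_⟩
      show a * t i * u * z = t i * (a * u * z)
      rw [Rut_one hR he hαβ (ht i) hu ha hz]
      simp only [mul_assoc]
  | zero =>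
    refine ⟨fun a _ => Rut_zero, 0, fun a u z _ _ _ => ?_⟩
    show (0 : R) * u * z = 0
    rw [zero_mul, zero_mul]
  | one => exact ⟨fun a ha => ha, 1, fun a u z _ _ _ => rfl⟩
  | add D D' _ _ h h' =>
    obtain ⟨h1, E, h2⟩ := h
    obtain ⟨h1', E', h2'⟩ := h'
    refine ⟨fun a ha => Rut_add he (h1 a ha) (h1' a ha), E + E', fun a u z ha hu hz => ?_⟩
    show (D a + D' a) * u * z = E (a * u * z) + E' (a * u * z)
    rw [← h2 a u z ha hu hz, ← h2' a u z ha hu hz, add_mul, add_mul]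
  | neg D _ h =>
    obtain ⟨h1, E, h2⟩ := h
    refine ⟨fun a ha => Rut_neg (h1 a ha), -E, fun a u z ha hu hz => ?_⟩
    show (-(D a)) * u * z = -(E (a * u * z))
    rw [← h2 a u z ha hu hz, neg_mul, neg_mul]
  | mul D D' _ _ h h' =>
    obtain ⟨h1, E, h2⟩ := h
    obtain ⟨h1', E', h2'⟩ := h'
    refine ⟨fun a ha => h1 _ (h1' a ha), E * E', fun a u z ha hu hz => ?_⟩
    show D (D' a) * u * z = E (E' (a * u * z))
    rw [← h2' a u z ha hu hz, ← h2 _ u z (h1' a ha) hu hz]

end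

private theorem Rut_jil : Pool.Agent.CRL.St_Jil :=
  Pool.Agent.CRL.thm_Jil (Pool.Agent.CRL.thm_Chn Pool.Agent.CRL.thm_Prl
    (Pool.Agent.CRL.thm_Snl Pool.Agent.CRL.thm_Prl) (Pool.Agent.CRL.thm_Chi Pool.Agent.CRL.thm_Prl))

private theorem Rut_fpr : Pool.Agent.CRL.St_Fpr :=
  Pool.Agent.CRL.thm_Fpr (Pool.Agent.CRL.thm_Quo Rut_jil)

/-- **RUT** -/
theorem thm_Rut (hR : St_Rul) : St_Rut := by
  intro n p R _ _ hC s t hF α β hαβ
  obtain ⟨hP, ht1, ht2⟩ := Rut_fpr n p R hC s t hF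
  obtain ⟨J, hJ, hJ2⟩ := Rut_jil n hC.n4 R hC.inM hC.nt
  have he : Hm (fun i => om n (t i)) := by
    refine ⟨fun i => (hP.prm i).1, hP.orth, fun x y hx hy => ?_, fun r x hx => ?_⟩
    · exact (hJ2 _).1 (J.add_mem ((hJ2 x).2 hx) ((hJ2 y).2 hy))
    · have h := hJ r x ((hJ2 x).2 hx)
      exact ⟨(hJ2 _).1 h.1, (hJ2 _).1 h.2⟩
  have ht : ∀ i, Pc (fun i => om n (t i)) (some i) (some i) (t i) := by
    intro i
    refine ⟨fun j => ?_, fun j => ?_⟩
    · by_cases h : i = j
      · subst h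
        rw [if_pos rfl]
        exact (ht1 i).2.1
      · rw [if_neg (fun h' => h (Option.some.inj h'))]
        exact (ht2 j i (Ne.symm h)).1
    · by_cases h : i = j
      · subst h
        rw [if_pos rfl]
        exact (ht1 i).1
      · rw [if_neg (fun h' => h (Option.some.inj h'))]
        exact (ht2 i j h).2
  refine ⟨?_, ?_, ?_, ?_⟩
  · rintro i a a' z rfl ha ha' hz
    have h := Rut_one hR he hαβ (ht i) ha ha' hz
    rw [sub_mul, sub_mul, h, sub_self]
  · rintro i b b' z rfl hb hb' hz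
    have h := Rut_two hR he hαβ (ht i) hb hb' hz
    rw [mul_sub, h, sub_self]
  · rintro i a x y rfl ha hx hy
    have h := Rut_three hR he hαβ (ht i) ha hx hy
    rw [sub_mul, sub_mul, h, sub_self]
  · intro a z ha hz D₁ hD₁ D₂ hD₂
    obtain ⟨-, E₁, h1⟩ := Rut_four hR he ht hαβ D₁ hD₁
    obtain ⟨h2, E₂, h3⟩ := Rut_four hR he ht hαβ D₂ hD₂
    have h4 := (hR R s _ he α β hαβ).1 a (D₂ a) z ha (h2 a ha) hz
    have h5 := ((hR R s _ he α β hαβ).1 a a z ha ha hz).2
    rw [h1 a (D₂ a) z ha (h2 a ha) hz, h4.1, h3 a a z ha ha hz, h5, map_zero, neg_zero, map_zero]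

end Pool.Agent.CRM
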