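import Pool.Agent.CRM.FctA
import Pool.Agent.CRM.Rut

/-!
Campaign CRM, module Fcl: the fourth shape.
-/

set_option autoImplicit false

namespace Pool.Agent.CRM

open Pool.Agent.CRR Pool.Agent.CRN Pool.Agent.CRK Pool.Agent.CRL

/-- **FCL** -/
theorem thm_Fcl (hTw : St_Twi) (hIv : St_Ivc) (hW : St_Wxw) (hWc : St_Wcl) (hA : St_Alp)
    (hG : St_Gnr) (hDol : St_Dol) : St_Fcl := by
  intro n p R _ _ s b H φ t x α β hw k₁ k₂ hk₁ hk₂ hAB hα₂ hβ₂ hb3 hl
  obtain ⟨L, hL, hLφ⟩ := thm_Fwl n p R s b H φ t x α β hw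
  have hC := hw.cy
  have hF := hw.fr
  have he := Dop_hm hC hF
  obtain ⟨A, hA0⟩ : ∃ A, α k₁ = A := ⟨_, rfl⟩
  obtain ⟨B, hB0⟩ : ∃ B, β k₁ = B := ⟨_, rfl⟩
  rw [hA0, hB0] at hAB
  rw [hB0] at hα₂
  rw [hA0] at hβ₂ hl
  obtain ⟨κ, hκ, hκ'⟩ : ∃ κ : List ℕ, κ.Nodup ∧ ∀ k, k ∈ κ ↔ k < b ∧ k ≠ k₁ ∧ k ≠ k₂ := by
    refine ⟨(List.range b).filter (fun k => decide (k ≠ k₁ ∧ k ≠ k₂)), List.nodup_range.filter _, ?_⟩
    intro k
    rw [List.mem_filter, List.mem_range, decide_eq_true_eq]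
  have hκ0 : κ ≠ [] := by
    intro h0
    have h : ∀ k, k < b → k = k₁ ∨ k = k₂ := by
      intro k hk
      by_contra h'
      push Not at h'
      have := (hκ' k).2 ⟨hk, h'.1, h'.2⟩
      rw [h0] at this
      exact absurd this (by simp)
    have h1 := h 0 (by omega)
    have h2 := h 1 (by omega)
    have h3 := h 2 (by omega)
    omega
  have hk12 : k₁ ≠ k₂ := by
    rintro rfl
    exact hAB (hA0.symm.trans hα₂)
  obtain ⟨ds, hks, hds, hne1⟩ := Fct_word hW hw (by omega) hL hLφ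
  obtain ⟨ds₁, ds₂, D₁, D₂, rfl, hp⟩ := Dol_shape hWc hC hF hAB hk₁ hk₂ hA0 hB0 hα₂ hβ₂ hl hκ hκ0
    hκ' hw.jc (fun d hd => (hds d hd).1) hks hne1
  have hloop : ∀ d ∈ ds₁ ++ ds₂, d.2 ∈ Ops t A A ∧ ∃ D' ∈ Ops t A A,
      ∀ x, Pc (fun i => om n (t i)) A A x → D' (d.2 x) = x := by
    intro d hd
    have hd' : d ∈ ds₁ ++ (k₁, D₁) :: (k₂, D₂) :: ds₂ := by
      simp only [List.mem_append, List.mem_cons] at hd ⊢
      rcases hd with hd | hd
      · exact Or.inl hd
      · exact Or.inr (Or.inr (Or.inr hd))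
    have h1 := hds d hd'
    have h2 := (hκ' d.1).1 (hp.mem_iff.1 (List.mem_map_of_mem hd))
    rwa [(hl _ h2.1 h2.2.1 h2.2.2).1, (hl _ h2.1 h2.2.1 h2.2.2).2] at h1
  have hD₁ : D₁ ∈ Ops t A B ∧ ∃ D' ∈ Ops t A B,
      ∀ x, Pc (fun i => om n (t i)) A B x → D' (D₁ x) = x := by
    have h1 := hds (k₁, D₁) (by simp)
    simp only at h1
    rwa [hA0, hB0] at h1
  have hD₂ : D₂ ∈ Ops t B A ∧ ∃ D' ∈ Ops t B A,
      ∀ x, Pc (fun i => om n (t i)) B A x → D' (D₂ x) = x := by
    have h1 := hds (k₂, D₂) (by simp)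
    simp only at h1
    rwa [hα₂, hβ₂] at h1
  obtain ⟨g, ε, hg, hε⟩ := Dol_val hA hC hF hAB hp hκ (fun d hd => (hloop d hd).1)
  have hg' : ∀ k ∈ κ, g k ∈ Ops t A A ∧ ∃ D' ∈ Ops t A A,
      ∀ x, Pc (fun i => om n (t i)) A A x → D' (g k x) = x := by
    intro k hk
    obtain ⟨d, hd, -, h⟩ := hg k hk
    rw [← h]
    exact hloop d hd
  have hxκ : ∀ k ∈ κ, Jc (fun i => om n (t i)) A A (x k) := by
    intro k hk
    have h2 := (hκ' k).1 hk
    have h1 := hw.jc k
    rwa [(hl _ h2.1 h2.2.1 h2.2.2).1, (hl _ h2.1 h2.2.1 h2.2.2).2] at h1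
  have hx1 : Jc (fun i => om n (t i)) A B (x k₁) := by
    have h1 := hw.jc k₁
    rwa [hA0, hB0] at h1
  have hx2 : Jc (fun i => om n (t i)) B A (x k₂) := by
    have h1 := hw.jc k₂
    rwa [hα₂, hβ₂] at h1
  have hz1 := Dop_jc hC hF hD₁.1 hx1
  have hz2 := Dop_jc hC hF hD₂.1 hx2
  have hne2 : wp (κ.map (fun k => g k (x k)) ++ [D₁ (x k₁), D₂ (x k₂)]) ≠ 0 := by
    intro h0
    apply hne1
    rw [List.map_append, List.map_cons, List.map_cons, hε x hxκ _ _ hz1 hz2, h0, smul_zero]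
  have hcen : ∀ k ∈ κ, DopC t A (x k) := by
    intro k hk i hi
    subst hi
    by_contra hki
    have hkb := (hκ' k).1 hk
    have hpu := hw.pur k
    rw [(hl k hkb.1 hkb.2.1 hkb.2.2).1, (hl k hkb.1 hkb.2.1 hkb.2.2).2] at hpu
    rcases hTw n p R hC s t hF i (x k) (hxκ k hk).1 hpu with h | ⟨D, hD, h⟩
    · exact hki h
    have hperm : (κ.erase k ++ [k]).Perm κ :=
      (List.perm_append_singleton k (κ.erase k)).trans (List.perm_cons_erase hk).symm
    obtain ⟨ε', -, hε'⟩ := (hA R s _ he (some i) B hAB).2 κ [] (κ.erase k ++ [k])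
      (by rw [List.append_nil]; exact hperm.symm)
    apply hne2
    have hyκ : ∀ l ∈ κ, Jc (fun i => om n (t i)) (some i) (some i) (g l (x l)) :=
      fun l hlm => Dop_jc hC hF (hg' l hlm).1 (hxκ l hlm)
    have h3 := hε' (fun k => g k (x k)) (D₁ (x k₁)) (D₂ (x k₂))
      (by rw [List.append_nil]; exact hyκ) hz1 hz2
    rw [List.map_nil] at h3
    have h5 : wp ((κ.erase k ++ [k]).map (fun k => g k (x k)) ++ [D₁ (x k₁), D₂ (x k₂)]) =
        wp ((κ.erase k).map (fun k => g k (x k)) ++ [g k (x k) * (D₁ (x k₁) * D₂ (x k₂))]) := by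
      rw [← Dop_wp_two, Dop_wp_two, List.map_append, List.append_assoc, List.map_singleton]
      rfl
    have h6 : g k (x k) * (D₁ (x k₁) * D₂ (x k₂)) = 0 := by
      rw [Fct_twist hD (hg' k hk).1 h, ← mul_assoc]
      exact (thm_Rut thm_Rul n p R hC s t hF (some i) B hAB).2.2.1 i (g k (D (x k)))
        (D₁ (x k₁)) (D₂ (x k₂)) rfl (Dop_jc hC hF (hg' k hk).1 (Dop_jc hC hF hD (hxκ k hk)))
        hz1 hz2
    have h7 : ∀ l : List R, wp (l ++ [(0 : R)]) = 0 := by
      intro l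
      induction l with
      | nil => rfl
      | cons a l ih => rw [List.cons_append, Dop_wp_cons _ _ (by simp), ih, mul_zero]
    rw [h3, h5, h6, h7, smul_zero]
  have hLop : ∀ k ∈ κ, Lop n t A (x k) := fun k hk => ⟨(hxκ k hk).1, (hxκ k hk).2, hcen k hk⟩
  obtain ⟨ι, hι1, hι2, hι3, hι4⟩ := thm_Plw κ hκ
  have hlen : 1 ≤ κ.length := List.length_pos_iff.2 hκ0
  by_cases hBn : B = none
  · -- `B = none`
    subst hBn
    obtain ⟨i, rfl⟩ : ∃ i, A = some i := by
      rcases A with _ | i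
      · exact absurd rfl hAB
      · exact ⟨i, rfl⟩
    obtain ⟨D, hD, hDL⟩ := hDol n p R hC s b t hF L hL α β i k₁ k₂ κ hk₁ hk₂ hA0 hB0 hα₂ hβ₂ hl hκ
      hκ0 hκ'
    have hφ : D (wp (κ.map x ++ [x k₁ * x k₂])) ≠ 0 := by
      rw [← Dop_wp_two, ← hDL x hLop hx1 hx2 hw.out, ← hLφ x (fun k => (hw.jc k).2) hw.out]
      exact hw.ne
    have hPi : wp (κ.map x ++ [x k₁ * x k₂]) ≠ 0 := by
      intro h
      rw [h, map_zero] at hφ
      exact hφ rfl
    refine ⟨p, s, t, H, some i, none, κ.length, fun j => x (ι j), x k₁, x k₂, Fct_pcx hw, hAB,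
      hlen, fun j hj => hLop _ (hι1 j hj), ⟨hx1.1, hx1.2, ?_⟩, ⟨hx2.1, hx2.2, ?_⟩, ?_, ?_, ?_⟩
    · have := hw.pur k₁
      rwa [hA0, hB0] at this
    · have := hw.pur k₂
      rwa [hα₂, hβ₂] at this
    · rw [hι4]
      exact hPi
    · intro i' hi'
      obtain rfl : i = i' := Option.some.inj hi'
      by_cases hp0 : p • pll (fun j => x (ι j)) (x k₁ * x k₂) κ.length = 0
      · right
        intro j₀ hj₀
        rw [hι4] at hp0
        rw [Fct_upd x ι _ _ _ j₀ hj₀ hι3, hι4]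
        have hk := hι1 j₀ hj₀
        have hk' := (hκ' _).1 hk
        have hyc : ∀ k ∈ κ, Lop n t (some i)
            (Function.update x (ι j₀) (p • om n (t i)) k) := by
          intro k hk2
          by_cases h : k = ι j₀
          · rw [h, Function.update_self]
            exact Fct_pe hC hF i
          · rw [Function.update_of_ne h]
            exact hLop k hk2
        have hynl : ∀ k, Nl (Function.update x (ι j₀) (p • om n (t i)) k) := by
          intro k
          by_cases h : k = ι j₀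
          · rw [h, Function.update_self]
            exact (Fct_pe hC hF i).nl
          · rw [Function.update_of_ne h]
            exact (hw.jc k).2
        have hyout : ∀ k, b ≤ k → Function.update x (ι j₀) (p • om n (t i)) k = 0 := by
          intro k hk2
          rw [Function.update_of_ne (by omega)]
          exact hw.out k hk2
        have hy1 : Function.update x (ι j₀) (p • om n (t i)) k₁ = x k₁ :=
          Function.update_of_ne (fun h => hk'.2.1 h.symm) _ _
        have hy2 : Function.update x (ι j₀) (p • om n (t i)) k₂ = x k₂ :=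
          Function.update_of_ne (fun h => hk'.2.2 h.symm) _ _
        have h1 := hDL _ hyc (by rw [hy1]; exact hx1) (by rw [hy2]; exact hx2) hyout
        rw [← hLφ _ hynl hyout, Fct_cf hw i hk'.1, hy1, hy2, Dop_wp_two] at h1
        refine Fct_key hD ?_ (fun k hk => hcen k hk) hp0 hφ (fun k hk => (hyc k hk).cen) h1.symm
        have hpu := hw.pur k₁
        rw [hA0, hB0] at hpu
        rcases hIv p R s t (some i) none (x k₁) hpu D hD with ⟨D', hD', h⟩ | ⟨D', hD', h⟩
        · refine Or.inl ⟨D', hD', ?_⟩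
          have h' : D (x k₁) = p • D' (x k₁) := h 1 (one_mem _)
          rw [Ops_left D hD, h', Ops_left D' hD', smul_mul_assoc]
        · refine Or.inr ⟨D', hD', ?_⟩
          have h' : D' (D (x k₁)) = x k₁ := h 1 (one_mem _)
          rw [Ops_left D hD, Ops_left D' hD', h']
      · exact Or.inl hp0
    · refine hG.1 n p R s b H φ t x α β hw _ ?_ ?_
      · intro i
        exact NonUnitalSubring.subset_closure (Or.inl (Or.inl ⟨i, rfl⟩))
      · intro k hk
        by_cases h : k = k₁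
        · rw [h]
          exact NonUnitalSubring.subset_closure (Or.inr (Or.inl rfl))
        · by_cases h' : k = k₂
          · rw [h']
            exact NonUnitalSubring.subset_closure (Or.inr (Or.inr rfl))
          · obtain ⟨j, hj, hj'⟩ := hι2 k ((hκ' k).2 ⟨hk, h, h'⟩)
            exact NonUnitalSubring.subset_closure
              (Or.inl (Or.inr ⟨j, hj, congrArg x hj'.symm⟩))
  · -- `B = some j`
    obtain ⟨j, rfl⟩ : ∃ j, B = some j := by
      rcases B with _ | j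
      · exact absurd rfl hBn
      · exact ⟨j, rfl⟩
    obtain ⟨E, hE, hE'⟩ := Dop_pull (t := t) (A := A) g κ (fun k hk => (hg' k hk).1)
    have hne3 : wp (κ.map x ++ [D₁ (x k₁) * D₂ (x k₂)]) ≠ 0 := by
      intro h0
      apply hne2
      rw [Dop_wp_two, hE' x hcen, h0, map_zero]
    have hpe := Fct_pe hC hF j
    have hp0 : p • (D₁ (x k₁) * D₂ (x k₂)) = 0 := by
      have h1 := ((thm_Rul R s _ he A (some j) hAB).2.2.2.1 0 (p • om n (t j)) (D₁ (x k₁))
        (D₂ (x k₂)) Dop_jc_zero ⟨hpe.pc, hpe.nl⟩ hz1 hz2).2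
      have h2 := hz1.1.2 j
      rw [if_pos rfl] at h2
      rw [mul_smul_comm] at h1
      simp only at h2
      rw [h2] at h1
      rwa [smul_mul_assoc] at h1
    refine ⟨p, s, t, H, A, some j, κ.length, fun j => x (ι j), D₁ (x k₁), D₂ (x k₂), Fct_pcx hw,
      hAB, hlen, fun j hj => hLop _ (hι1 j hj), Fct_arr hG hw k₁ hA0 hB0 hD₁.1 hD₁.2,
      Fct_arr hG hw k₂ hα₂ hβ₂ hD₂.1 hD₂.2, ?_, ?_, ?_⟩
    · rw [hι4]
      exact hne3
    · intro i _
      right
      intro k hk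
      exact (Fct_pll_zero hp0 _ k (by rw [Function.update_self]) κ.length).2 hk
    · have hS : ∀ j', t j' ∈ NonUnitalSubring.closure (Set.range t ∪
          {u | ∃ k, k < κ.length ∧ u = x (ι k)} ∪ {D₁ (x k₁), D₂ (x k₂)}) :=
        fun j' => NonUnitalSubring.subset_closure (Or.inl (Or.inl ⟨j', rfl⟩))
      refine hG.1 n p R s b H φ t x α β hw _ hS ?_
      intro l hlb
      by_cases h : l = k₁
      · rw [h]
        exact Fct_mem hS hx1.1 hD₁.2 (NonUnitalSubring.subset_closure (Or.inr (Or.inl rfl)))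
      · by_cases h' : l = k₂
        · rw [h']
          exact Fct_mem hS hx2.1 hD₂.2 (NonUnitalSubring.subset_closure (Or.inr (Or.inr rfl)))
        · obtain ⟨j', hj, hj'⟩ := hι2 l ((hκ' l).2 ⟨hlb, h, h'⟩)
          exact NonUnitalSubring.subset_closure
            (Or.inl (Or.inr ⟨j', hj, congrArg x hj'.symm⟩))

end Pool.Agent.CRM
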