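import Pool.Agent.CRM.Stb
import Pool.Agent.CRL.All
import Pool.Agent.CRN.Pca
import Pool.Agent.CRN.Pat

/-!
Campaign CRM, module Fcn: only loops.
-/

set_option autoImplicit false

namespace Pool.Agent.CRM

open Pool.Agent.CRR Pool.Agent.CRN Pool.Agent.CRK Pool.Agent.CRL

/-- the elements for which `e` is an identity -/
def Fcn_unit {R : Type} [NonUnitalRing R] (e : R) : NonUnitalSubring R where
  carrier := {x | e * x = x ∧ x * e = x}
  add_mem' := by
    rintro a b ⟨h1, h2⟩ ⟨h3, h4⟩
    exact ⟨by rw [mul_add, h1, h3], by rw [add_mul, h2, h4]⟩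
  zero_mem' := ⟨mul_zero e, zero_mul e⟩
  neg_mem' := by
    rintro a ⟨h1, h2⟩
    exact ⟨by rw [mul_neg, h1], by rw [neg_mul, h2]⟩
  mul_mem' := by
    rintro a b ⟨h1, h2⟩ ⟨h3, h4⟩
    exact ⟨by rw [← mul_assoc, h1], by rw [mul_assoc, h4]⟩

/-- the operators preserve the components -/
theorem Fcn_ops {R : Type} [NonUnitalRing R] {s : ℕ} (t e : Fin s → R)
    (h1 : ∀ i, e i * t i = t i) (h2 : ∀ i, t i * e i = t i)
    (h3 : ∀ i j, i ≠ j → e i * t j = 0) (h4 : ∀ i j, i ≠ j → t i * e j = 0)
    (α β : Option (Fin s)) (D : AddMonoid.End R) (hD : D ∈ Ops t α β) :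
    ∀ x, Pc e α β x → Pc e α β (D x) := by
  have hadd : ∀ x y, Pc e α β x → Pc e α β y → Pc e α β (x + y) := by
    rintro x y ⟨a1, a2⟩ ⟨b1, b2⟩
    refine ⟨fun i => ?_, fun j => ?_⟩
    · rw [mul_add, a1, b1]
      split_ifs
      · rfl
      · rw [add_zero]
    · rw [add_mul, a2, b2]
      split_ifs
      · rfl
      · rw [add_zero]
  have hneg : ∀ x, Pc e α β x → Pc e α β (-x) := by
    rintro x ⟨a1, a2⟩
    refine ⟨fun i => ?_, fun j => ?_⟩
    · rw [mul_neg, a1]
      split_ifs
      · rfl
      · rw [neg_zero]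
    · rw [neg_mul, a2]
      split_ifs
      · rfl
      · rw [neg_zero]
  have hzero : Pc e α β 0 := ⟨fun i => by rw [mul_zero]; split_ifs <;> rfl,
    fun j => by rw [zero_mul]; split_ifs <;> rfl⟩
  unfold Ops at hD
  induction hD using Subring.closure_induction with
  | mem D hD =>
    rintro x ⟨a1, a2⟩
    rcases hD with ⟨i, hi, rfl⟩ | ⟨j, hj, rfl⟩
    · show Pc e α β (t i * x)
      refine ⟨fun k => ?_, fun k => ?_⟩
      · by_cases hk : k = i
        · subst hk
          rw [← mul_assoc, h1, if_pos hi]
        · rw [← mul_assoc, h3 k i hk, zero_mul, if_neg]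
          rw [hi]
          intro h
          exact hk (Option.some.inj h).symm
      · rw [mul_assoc, a2]
        split_ifs
        · rfl
        · rw [mul_zero]
    · show Pc e α β (x * t j)
      refine ⟨fun k => ?_, fun k => ?_⟩
      · rw [← mul_assoc, a1]
        split_ifs
        · rfl
        · rw [zero_mul]
      · by_cases hk : k = j
        · subst hk
          rw [mul_assoc, h2, if_pos hj]
        · rw [mul_assoc, h4 j k (fun h => hk h.symm), mul_zero, if_neg]
          rw [hj]
          intro h
          exact hk (Option.some.inj h).symm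
  | zero => exact fun x _ => hzero
  | one => exact fun x hx => hx
  | add D D' _ _ ih ih' => exact fun x hx => hadd _ _ (ih x hx) (ih' x hx)
  | neg D _ ih => exact fun x hx => hneg _ (ih x hx)
  | mul D D' _ _ ih ih' => exact fun x hx => ih _ (ih' x hx)

/-- a nonzero product of loops: all at the same vertex -/
theorem Fcn_chain {R X : Type} [NonUnitalRing R] {s : ℕ} (e : Fin s → R)
    (hi : ∀ i, e i * e i = e i) (ho : ∀ i j, i ≠ j → e i * e j = 0)
    (f : X → R) (γ : X → Option (Fin s)) : ∀ (l : List X) (c : X),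
      (∀ d ∈ c :: l, Pc e (γ d) (γ d) (f d)) → wp ((c :: l).map f) ≠ 0 →
        ∀ d ∈ c :: l, γ d = γ c := by
  intro l
  induction l with
  | nil =>
    intro c _ _ d hd
    rw [List.mem_singleton] at hd
    rw [hd]
  | cons c' l ih =>
    intro c hP hne d hd
    have h1 : γ c = γ c' := by
      by_contra h
      apply hne
      rw [List.map_cons, List.map_cons]
      exact Pat_xy _ (((thm_Pca R s e hi ho).1 _ _ _ _ _ _ (hP c (by simp))
        (hP c' (by simp))).2 h)
    have h2 : wp ((c' :: l).map f) ≠ 0 := by
      intro h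
      apply hne
      rw [List.map_cons, Pat_cons _ (by simp), h, mul_zero]
    rcases List.mem_cons.1 hd with rfl | hd
    · rfl
    · rw [h1]
      exact ih c' (fun d hd => hP d (List.mem_cons_of_mem _ hd)) h2 d hd

theorem thm_Fcn (hW : St_Wxw) (hL : St_Fwl) (hG : St_Gnr) : St_Fcn := by
  intro n p R _ _ s b H φ t x α β hF hab
  have hn := hF.cy.n4
  have hR := hF.cy.inM
  obtain ⟨f1, f2, f3⟩ := fpr n p R hF.cy s t hF.fr
  have hgen := hG.1 n p R s b H φ t x α β hF
  have hvt : ∀ i : Fin s, vx t x i = t i := by
    intro i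
    unfold vx
    rw [dif_pos i.2]
  have hvx : ∀ k, vx t x (s + k) = x k := by
    intro k
    unfold vx
    rw [dif_neg (by omega), Nat.add_sub_cancel_left]
  have hv : Hv n s b φ α β (vx t x) := by
    refine ⟨⟨?_, fun k _ => ?_⟩, fun i hi => ?_, fun k _ => ?_, hF.ne⟩
    · have : (fun i : Fin s => vx t x i) = t := funext hvt
      rw [this]
      exact hF.fr
    · rw [hvx]
      exact (hF.jc k).2
    · obtain ⟨k, rfl⟩ : ∃ k, i = s + k := ⟨i - s, by omega⟩
      rw [hvx]
      exact hF.out k (by omega)
    · rw [hvx]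
      have : (fun i : Fin s => om n (vx t x i)) = fun i => om n (t i) := by
        funext i
        rw [hvt]
      rw [this]
      exact (hF.jc k).1
  obtain ⟨A1, A2⟩ := alv n p R hF.cy H hF.lst s b φ hF.gc.toGb α β (vx t x) hv
  rcases Nat.eq_zero_or_pos b with hb | hb
  · right
    obtain rfl : s = 1 := A2 hb
    refine ⟨om n (t 0), f1.prm 0, ?_⟩
    have hS : Fcn_unit (om n (t 0)) = ⊤ := by
      refine hgen _ (fun i => ?_) (fun k hk => by omega)
      have hi : i = 0 := Subsingleton.elim _ _
      subst hi
      exact ⟨(f2 0).2.1, (f2 0).1⟩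
    intro y
    have hy : y ∈ Fcn_unit (om n (t 0)) := by
      rw [hS]
      exact NonUnitalSubring.mem_top y
    exact hy
  · obtain ⟨L, hLw, hLv⟩ := hL n p R s b H φ t x α β hF
    have h1 := hLv x (fun k => (hF.jc k).2) hF.out
    have h2 : ∃ q ∈ L, wp (q.2.map (vx t x)) ≠ 0 := by
      by_contra hno
      push Not at hno
      apply hF.ne
      rw [h1]
      unfold ev
      apply List.sum_eq_zero
      intro z hz
      rw [List.mem_map] at hz
      obtain ⟨q, hq, rfl⟩ := hz
      rw [hno q hq, smul_zero]
    obtain ⟨q, hq, hqne⟩ := h2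
    obtain ⟨-, q2, q3⟩ := hLw q hq
    rcases hW n p R hF.cy s t hF.fr α β q.2 ⟨s + 0, q3 0 hb, by omega⟩ with h | h
    · exact absurd (h x fun k => (hF.jc k).1) hqne
    · obtain ⟨ds, d1, d2, d3⟩ := h
      rw [d3 x fun k => (hF.jc k).1] at hqne
      have hd1 : ∀ d ∈ ds, d.1 < b := by
        intro d hd
        have h4 : d.1 ∈ ds.map Prod.fst := List.mem_map_of_mem hd
        rw [d1, List.mem_map] at h4
        obtain ⟨i, hi, hi'⟩ := h4
        rw [List.mem_filter] at hi
        have h5 := q2 i hi.1
        have h6 : s ≤ i := by simpa using hi.2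
        omega
      have hd2 : ∀ k, k < b → ∃ d ∈ ds, d.1 = k := by
        intro k hk
        have h4 : k ∈ ds.map Prod.fst := by
          rw [d1, List.mem_map]
          refine ⟨s + k, ?_, by omega⟩
          rw [List.mem_filter]
          exact ⟨q3 k hk, by simp⟩
        rw [List.mem_map] at h4
        obtain ⟨d, hd, hd'⟩ := h4
        exact ⟨d, hd, hd'⟩
      have hu : ∃ u, ∀ k, k < b → α k = u := by
        cases ds with
        | nil =>
          obtain ⟨d, hd, -⟩ := hd2 0 hb
          exact absurd hd (by simp)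
        | cons c l =>
          refine ⟨α c.1, fun k hk => ?_⟩
          obtain ⟨d, hd, rfl⟩ := hd2 k hk
          refine Fcn_chain (fun i => om n (t i)) (fun i => (f1.prm i).1) f1.orth
            (fun d => d.2 (x d.1)) (fun d => α d.1) l c ?_ hqne d hd
          intro d' hd'
          have h5 := Fcn_ops t (fun i => om n (t i)) (fun i => (f2 i).2.1) (fun i => (f2 i).1)
            (fun i j hij => (f3 i j hij).1) (fun i j hij => (f3 i j hij).2) (α d'.1) (β d'.1)
            d'.2 (d2 d' hd').1 (x d'.1) (hF.jc d'.1).1
          rw [← hab d'.1 (hd1 d' hd')] at h5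
          exact h5
      obtain ⟨u, hu⟩ := hu
      have hui : ∀ i : Fin s, u = some i := by
        intro i
        obtain ⟨k, hk, h | h⟩ := A1 hb i
        · rw [← hu k hk, h]
        · rw [← hu k hk, hab k hk, h]
      cases u with
      | none =>
        left
        obtain ⟨J, hJ, hJ'⟩ := jil n hn R hR hF.cy.nt
        let S : NonUnitalSubring R :=
          { carrier := J
            add_mem' := J.add_mem
            zero_mem' := J.zero_mem
            neg_mem' := J.neg_mem
            mul_mem' := fun {a b} _ hb => (hJ a b hb).1 }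
        have hS : S = ⊤ := by
          refine hgen S (fun i => ?_) (fun k _ => ?_)
          · exact absurd (hui i) (by simp)
          · show x k ∈ J
            rw [hJ']
            exact (hF.jc k).2
        intro y
        have hy : y ∈ S := by
          rw [hS]
          exact NonUnitalSubring.mem_top y
        exact (hJ' y).1 hy
      | some i0 =>
        right
        refine ⟨om n (t i0), f1.prm i0, ?_⟩
        have hS : Fcn_unit (om n (t i0)) = ⊤ := by
          refine hgen _ (fun i => ?_) (fun k hk => ?_)
          · have hi : i0 = i := Option.some.inj (hui i)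
            subst hi
            exact ⟨(f2 i0).2.1, (f2 i0).1⟩
          · have h6 := (hF.jc k).1
            rw [← hab k hk, hu k hk] at h6
            have h7 := h6.1 i0
            have h8 := h6.2 i0
            rw [if_pos rfl] at h7 h8
            exact ⟨h7, h8⟩
        intro y
        have hy : y ∈ Fcn_unit (om n (t i0)) := by
          rw [hS]
          exact NonUnitalSubring.mem_top y
        exact hy

end Pool.Agent.CRM
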