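import Pool.Agent.CRM.FctA
import Pool.Agent.CRM.Rut

/-!
Campaign CRM, module Fct: the first shape.
-/

set_option autoImplicit false

namespace Pool.Agent.CRM

open Pool.Agent.CRR Pool.Agent.CRN Pool.Agent.CRK Pool.Agent.CRL

/-- **FCT** -/
theorem thm_Fct (hTw : St_Twi) (hIv : St_Ivc) (hW : St_Wxw) (hWc : St_Wcl) (hA : St_Alp)
    (hG : St_Gnr) (hDop : St_Dop) : St_Fct := by
  intro n p R _ _ s b H φ t x α β hw k₀ hk₀ hAB hl
  obtain ⟨L, hL, hLφ⟩ := thm_Fwl n p R s b H φ t x α β hw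
  have hC := hw.cy
  have hF := hw.fr
  have he := Dop_hm hC hF
  obtain ⟨A, hA0⟩ : ∃ A, α k₀ = A := ⟨_, rfl⟩
  obtain ⟨B, hB0⟩ : ∃ B, β k₀ = B := ⟨_, rfl⟩
  rw [hA0, hB0] at hAB
  rw [hA0] at hl
  obtain ⟨κ, hκ, hκ'⟩ : ∃ κ : List ℕ, κ.Nodup ∧ ∀ k, k ∈ κ ↔ k < b ∧ k ≠ k₀ := by
    refine ⟨(List.range b).filter (fun k => decide (k ≠ k₀)), List.nodup_range.filter _, ?_⟩
    intro k
    rw [List.mem_filter, List.mem_range, decide_eq_true_eq]
  obtain ⟨ds, hks, hds, hne1⟩ := Fct_word hW hw (by omega) hL hLφ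
  obtain ⟨ds', D₀, rfl, hp⟩ := Dop_shape hWc hC hF hAB hk₀ hA0 hB0 hl hκ hκ' hw.jc
    (fun d hd => (hds d hd).1) hks hne1
  have hloop : ∀ d ∈ ds', d.2 ∈ Ops t A A ∧ ∃ D' ∈ Ops t A A,
      ∀ x, Pc (fun i => om n (t i)) A A x → D' (d.2 x) = x := by
    intro d hd
    have h1 := hds d (List.mem_append_left _ hd)
    have h2 := (hκ' d.1).1 (hp.mem_iff.1 (List.mem_map_of_mem hd))
    rwa [(hl _ h2.1 h2.2).1, (hl _ h2.1 h2.2).2] at h1
  have hD₀ : D₀ ∈ Ops t A B ∧ ∃ D' ∈ Ops t A B,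
      ∀ x, Pc (fun i => om n (t i)) A B x → D' (D₀ x) = x := by
    have h1 := hds (k₀, D₀) (by simp)
    simp only at h1
    rwa [hA0, hB0] at h1
  obtain ⟨g, ε, hg, hε⟩ := Dop_val hA hC hF hAB hp hκ (fun d hd => (hloop d hd).1)
  have hg' : ∀ k ∈ κ, g k ∈ Ops t A A ∧ ∃ D' ∈ Ops t A A,
      ∀ x, Pc (fun i => om n (t i)) A A x → D' (g k x) = x := by
    intro k hk
    obtain ⟨d, hd, -, h⟩ := hg k hk
    rw [← h]
    exact hloop d hd
  have hxκ : ∀ k ∈ κ, Jc (fun i => om n (t i)) A A (x k) := by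
    intro k hk
    have h2 := (hκ' k).1 hk
    have h1 := hw.jc k
    rwa [(hl _ h2.1 h2.2).1, (hl _ h2.1 h2.2).2] at h1
  have hx0 : Jc (fun i => om n (t i)) A B (x k₀) := by
    have h1 := hw.jc k₀
    rwa [hA0, hB0] at h1
  have hne2 : wp (κ.map (fun k => g k (x k)) ++ [D₀ (x k₀)]) ≠ 0 := by
    intro h0
    apply hne1
    rw [List.map_append, List.map_singleton, hε x hxκ _ (Dop_jc hC hF hD₀.1 hx0), h0, smul_zero]
  have hz0 := Dop_jc hC hF hD₀.1 hx0
  by_cases hcen : ∀ k ∈ κ, DopC t A (x k)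
  · left
    have hLop : ∀ k ∈ κ, Lop n t A (x k) := fun k hk => ⟨(hxκ k hk).1, (hxκ k hk).2, hcen k hk⟩
    obtain ⟨D, hD, hDL⟩ := hDop n p R hC s b t hF L hL α β A B k₀ κ hAB hk₀ hA0 hB0 hl hκ hκ'
    obtain ⟨ι, hι1, hι2, hι3, hι4⟩ := thm_Plw κ hκ
    have hφ : D (wp (κ.map x ++ [x k₀])) ≠ 0 := by
      rw [← hDL x hLop hx0 hw.out, ← hLφ x (fun k => (hw.jc k).2) hw.out]
      exact hw.ne
    have hPi : wp (κ.map x ++ [x k₀]) ≠ 0 := by
      intro h
      rw [h, map_zero] at hφ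
      exact hφ rfl
    refine ⟨p, s, t, H, A, B, κ.length, fun j => x (ι j), x k₀, Fct_pcx hw, hAB,
      fun j hj => hLop _ (hι1 j hj), ⟨hx0.1, hx0.2, ?_⟩, ?_, ?_, ?_⟩
    · have := hw.pur k₀
      rwa [hA0, hB0] at this
    · rw [hι4]
      exact hPi
    · rintro i rfl
      by_cases hp0 : p • pll (fun j => x (ι j)) (x k₀) κ.length = 0
      · right
        intro j₀ hj₀
        rw [hι4] at hp0
        rw [Fct_upd x ι _ _ _ j₀ hj₀ hι3, hι4]
        have hk := hι1 j₀ hj₀
        have hk' := (hκ' _).1 hk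
        have hyc : ∀ k ∈ κ, Lop n t (some i)
            (Function.update x (ι j₀) (p • om n (t i)) k) := by
          intro k hk2
          by_cases h : k = ι j₀
          · rw [h, Function.update_self]
            exact Fct_pe hC hF i
          · rw [Function.update_of_ne h]
            exact hLop k hk2
        have hynl : ∀ k, Nl (Function.update x (ι j₀) (p • om n (t i)) k) := by
          intro k
          by_cases h : k = ι j₀
          · rw [h, Function.update_self]
            exact (Fct_pe hC hF i).nl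
          · rw [Function.update_of_ne h]
            exact (hw.jc k).2
        have hyout : ∀ k, b ≤ k → Function.update x (ι j₀) (p • om n (t i)) k = 0 := by
          intro k hk2
          rw [Function.update_of_ne (by omega)]
          exact hw.out k hk2
        have hy0 : Function.update x (ι j₀) (p • om n (t i)) k₀ = x k₀ :=
          Function.update_of_ne (fun h => hk'.2 h.symm) _ _
        have h1 := hDL _ hyc (by rw [hy0]; exact hx0) hyout
        rw [← hLφ _ hynl hyout, Fct_cf hw i hk'.1, hy0] at h1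
        refine Fct_key hD ?_ (fun k hk => hcen k hk) hp0 hφ (fun k hk => (hyc k hk).cen) h1.symm
        have hpu := hw.pur k₀
        rw [hA0, hB0] at hpu
        rcases hIv p R s t (some i) B (x k₀) hpu D hD with ⟨D', hD', h⟩ | ⟨D', hD', h⟩
        · exact Or.inl ⟨D', hD', h 1 (one_mem _)⟩
        · exact Or.inr ⟨D', hD', h 1 (one_mem _)⟩
      · exact Or.inl hp0
    · refine hG.1 n p R s b H φ t x α β hw _ ?_ ?_
      · intro i
        exact NonUnitalSubring.subset_closure (Or.inl (Or.inl ⟨i, rfl⟩))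
      · intro k hk
        by_cases h : k = k₀
        · rw [h]
          exact NonUnitalSubring.subset_closure (Or.inr rfl)
        · obtain ⟨j, hj, hj'⟩ := hι2 k ((hκ' k).2 ⟨hk, h⟩)
          exact NonUnitalSubring.subset_closure (Or.inl (Or.inr ⟨j, hj, congrArg x hj'.symm⟩))
  · right
    push Not at hcen
    obtain ⟨k, hk, hk'⟩ := hcen
    obtain ⟨i, rfl, hki⟩ : ∃ i, A = some i ∧ t i * x k ≠ x k * t i := by
      by_contra h
      push Not at h
      exact hk' h
    have hkb := (hκ' k).1 hk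
    by_cases hlen : κ = [k]
    · -- the twisted loop
      have hgk := hg' k hk
      have h0 : wp (κ.map (fun k => g k (x k)) ++ [D₀ (x k₀)]) = g k (x k) * D₀ (x k₀) := by
        rw [hlen]
        rfl
      rw [h0] at hne2
      have hcm : g k (x k) * t i ≠ t i * g k (x k) := by
        intro h
        obtain ⟨D', hD', h'⟩ := hgk.2
        apply hki
        rw [← h' _ (hxκ k hk).1]
        have h1 : D' (g k (x k) * t i) = D' (g k (x k)) * t i :=
          Ops_comm D' hD' _ (Dop_memR rfl) _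
        have h2 : D' (t i * g k (x k)) = t i * D' (g k (x k)) :=
          Ops_comm D' hD' _ (Dop_memL rfl) _
        rw [← h1, ← h2, h]
      refine ⟨p, s, t, H, some i, some i, B, g k (x k), D₀ (x k₀), Fct_pcx hw, Or.inr hAB,
        Fct_arr hG hw k (hl k hkb.1 hkb.2).1 (hl k hkb.1 hkb.2).2 hgk.1 hgk.2,
        Fct_arr hG hw k₀ hA0 hB0 hD₀.1 hD₀.2, fun _ => ⟨i, rfl, hcm⟩, fun h => absurd h hAB,
        hne2, ?_⟩
      have hS : ∀ j, t j ∈ NonUnitalSubring.closure (Set.range t ∪ {g k (x k), D₀ (x k₀)}) :=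
        fun j => NonUnitalSubring.subset_closure (Or.inl ⟨j, rfl⟩)
      refine hG.1 n p R s b H φ t x α β hw _ hS ?_
      intro l hlb
      by_cases h : l = k₀
      · rw [h]
        exact Fct_mem hS hx0.1 hD₀.2 (NonUnitalSubring.subset_closure (Or.inr (Or.inr rfl)))
      · have h1 : l ∈ κ := (hκ' l).2 ⟨hlb, h⟩
        have h2 : l = k := by
          rw [hlen] at h1
          exact List.mem_singleton.1 h1
        rw [h2]
        exact Fct_mem hS (hxκ k hk).1 hgk.2
          (NonUnitalSubring.subset_closure (Or.inr (Or.inl rfl)))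
    · -- a contradiction
      exfalso
      obtain ⟨k', κ', hperm⟩ := Fct_perm hk hlen
      have hpu := hw.pur k
      rw [(hl k hkb.1 hkb.2).1, (hl k hkb.1 hkb.2).2] at hpu
      rcases hTw n p R hC s t hF i (x k) (hxκ k hk).1 hpu with h | ⟨D, hD, h⟩
      · exact hki h
      obtain ⟨ε', -, hε'⟩ := (hA R s _ he (some i) B hAB).1 κ _ hperm
      apply hne2
      have hyκ : ∀ l ∈ κ, Jc (fun i => om n (t i)) (some i) (some i) (g l (x l)) :=
        fun l hlm => Dop_jc hC hF (hg' l hlm).1 (hxκ l hlm)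
      have hk2 : k' ∈ κ := hperm.mem_iff.2 (by simp)
      have hκ2 : ∀ l ∈ κ', l ∈ κ := fun l hlm => hperm.mem_iff.2 (by simp [hlm])
      rw [hε' (fun k => g k (x k)) (D₀ (x k₀)) hyκ hz0, List.map_cons, List.map_cons,
        List.cons_append, List.cons_append, Dop_wp_cons _ _ (by simp), Dop_wp_cons _ _ (by simp),
        Fct_twist hD (hg' k hk).1 h, ← mul_assoc,
        (thm_Rut thm_Rul n p R hC s t hF (some i) B hAB).1 i (g k' (x k')) (g k (D (x k)))
          (wp (κ'.map (fun k => g k (x k)) ++ [D₀ (x k₀)])) rfl (hyκ k' hk2)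
          (Dop_jc hC hF (hg' k hk).1 (Dop_jc hC hF hD (hxκ k hk)))
          (Fct_jc_wp he hz0 κ' (fun l hlm => hyκ l (hκ2 l hlm))), smul_zero]

end Pool.Agent.CRM
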