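import Pool.Agent.CRM.Stb

/-!
Campaign CRM (problem MP_1bb14d_al, stage 4): FCV, the third and the fifth shape.
-/

set_option autoImplicit false

namespace Pool.Agent.CRM

open Pool.Agent.CRR Pool.Agent.CRN Pool.Agent.CRK Pool.Agent.CRL

/-- The element of an index and an operator is a pure nil element of the given type. -/
private lemma Fcv_arr (hOpc : St_Opc) (hGnr : St_Gnr) {n p : ℕ} {R : Type} [NonUnitalRing R]
    [Finite R] {s b : ℕ} {H : AddSubgroup R} {φ : (ℕ → R) → R} {t : Fin s → R} {x : ℕ → R}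
    {α β : ℕ → Option (Fin s)} (hF : Fw n p s b H φ t x α β) (d : Dsi R)
    (hd : d.2 ∈ Ops t (α d.1) (β d.1) ∧ ∃ D' ∈ Ops t (α d.1) (β d.1),
      D' (d.2 (x d.1)) = x d.1) :
    Arr n p t (α d.1) (β d.1) (d.2 (x d.1)) := by
  have h := hOpc n p R hF.cy s t hF.fr (α d.1) (β d.1) d.2 hd.1 (x d.1)
  exact ⟨h.1 (hF.jc d.1).1, h.2 (hF.jc d.1).2,
    hGnr.2 p R s t (α d.1) (β d.1) (x d.1) (hF.pur d.1) d.2 hd.1 hd.2⟩

/-- A subring with the `t_i` and the elements of the list is everything. -/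
private lemma Fcv_top (hOps : St_Ops) (hGnr : St_Gnr) {n p : ℕ} {R : Type} [NonUnitalRing R]
    [Finite R] {s b : ℕ} {H : AddSubgroup R} {φ : (ℕ → R) → R} {t : Fin s → R} {x : ℕ → R}
    {α β : ℕ → Option (Fin s)} (hF : Fw n p s b H φ t x α β) (ds : List (Dsi R))
    (hds : ∀ d ∈ ds, d.2 ∈ Ops t (α d.1) (β d.1) ∧ ∃ D' ∈ Ops t (α d.1) (β d.1),
      D' (d.2 (x d.1)) = x d.1)
    (hk : ∀ k, k < b → k ∈ ds.map Prod.fst) (S : NonUnitalSubring R) (ht : ∀ i, t i ∈ S)
    (hS : ∀ d ∈ ds, d.2 (x d.1) ∈ S) : S = ⊤ := by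
  refine hGnr.1 n p R s b H φ t x α β hF S ht ?_
  intro k hkb
  obtain ⟨d, hd, rfl⟩ := List.mem_map.1 (hk k hkb)
  obtain ⟨D', hD', hx⟩ := (hds d hd).2
  have := (hOps R s t (α d.1) (β d.1)).2.1 D' hD' S ht _ (hS d hd)
  rw [hx] at this
  exact this

theorem thm_Fcv (hOps : St_Ops) (hOpc : St_Opc) (hGnr : St_Gnr) : St_Fcv := by
  intro n p R _ _ s b H φ t x α β hF ds hds hk hne
  have hP : Pcx n p s t H := ⟨hF.cy.pp, hF.cy.pr, hF.lst, hF.fr⟩
  constructor
  · rintro ⟨d, d', rfl, h1, h2, h3⟩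
    have a1 := Fcv_arr hOpc hGnr hF d (hds d (by simp))
    have a2 := Fcv_arr hOpc hGnr hF d' (hds d' (by simp))
    rw [h2] at a2
    refine ⟨p, s, t, H, α d.1, β d.1, β d'.1, d.2 (x d.1), d'.2 (x d'.1), hP, Or.inl h1, a1, a2,
      fun h => absurd h h1, fun h => absurd h.symm h3, ?_, ?_⟩
    · intro h0
      apply hne
      simpa [wp] using h0
    · refine Fcv_top hOps hGnr hF [d, d'] hds hk _ ?_ ?_
      · intro i
        exact NonUnitalSubring.subset_closure (Or.inl ⟨i, rfl⟩)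
      · intro c hc
        apply NonUnitalSubring.subset_closure
        simp only [List.mem_cons, List.not_mem_nil, or_false] at hc
        rcases hc with rfl | rfl
        · exact Or.inr (Or.inl rfl)
        · exact Or.inr (Or.inr rfl)
  · rintro ⟨d₁, d₂, d₃, rfl, h1, h2, h3, h4, h5, -⟩
    have a1 := Fcv_arr hOpc hGnr hF d₁ (hds d₁ (by simp))
    have a2 := Fcv_arr hOpc hGnr hF d₂ (hds d₂ (by simp))
    have a3 := Fcv_arr hOpc hGnr hF d₃ (hds d₃ (by simp))
    rw [h2, h3] at a2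
    rw [h4, h5] at a3
    refine ⟨p, s, t, H, α d₁.1, β d₁.1, d₁.2 (x d₁.1), d₂.2 (x d₂.1), d₃.2 (x d₃.1), hP, h1,
      a1, a2, a3, ?_, ?_⟩
    · intro h0
      apply hne
      rw [mul_assoc] at h0
      simpa [wp] using h0
    · refine Fcv_top hOps hGnr hF [d₁, d₂, d₃] hds hk _ ?_ ?_
      · intro i
        exact NonUnitalSubring.subset_closure (Or.inl ⟨i, rfl⟩)
      · intro c hc
        apply NonUnitalSubring.subset_closure
        simp only [List.mem_cons, List.not_mem_nil, or_false] at hc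
        rcases hc with rfl | rfl | rfl
        · exact Or.inr (Or.inl rfl)
        · exact Or.inr (Or.inr (Or.inl rfl))
        · exact Or.inr (Or.inr (Or.inr rfl))

end Pool.Agent.CRM
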