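import Pool.Agent.CRM.Std

/-!
Campaign CRM, module Fle: words with four equal letters.
-/

set_option autoImplicit false

namespace Pool.Agent.CRM

open Pool.Agent.CRR Pool.Agent.CRN Pool.Agent.CRK Pool.Agent.CRL

section

variable {R : Type} [NonUnitalRing R]

/-- product of two nonempty lists -/
theorem Fle_app : ∀ (A B : List R), A ≠ [] → B ≠ [] → wp (A ++ B) = wp A * wp B
  | [], _, h, _ => absurd rfl h
  | [x], [], _, h => absurd rfl h
  | [x], y :: B, _, _ => rfl
  | x :: y :: A, B, _, hB => by
    have h := Fle_app (y :: A) B (by simp) hB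
    show x * wp (y :: A ++ B) = x * wp (y :: A) * wp B
    rw [h, mul_assoc]

theorem Fle_left (A : List R) {B : List R} (hB : B ≠ []) (h : wp B = 0) : wp (A ++ B) = 0 := by
  by_cases hA : A = []
  · rw [hA, List.nil_append, h]
  · rw [Fle_app A B hA hB, h, mul_zero]

theorem Fle_right {A : List R} (B : List R) (hA : A ≠ []) (h : wp A = 0) : wp (A ++ B) = 0 := by
  by_cases hB : B = []
  · rw [hB, List.append_nil, h]
  · rw [Fle_app A B hA hB, h, zero_mul]

/-- the product of a word with four equal letters -/
theorem Fle_core (hN : St_Nid) (h3 : ∀ x : R, x * x * x = 0) (x : R) (A B C : List R) :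
    wp ([x] ++ (A ++ ([x] ++ (B ++ ([x] ++ (C ++ [x])))))) = 0 := by
  have hx : wp [x] = x := rfl
  have hne : ([x] : List R) ≠ [] := by simp
  by_cases hA : A = []
  · subst hA
    by_cases hB : B = []
    · subst hB
      refine Fle_right (A := [x, x, x]) (C ++ [x]) (by simp) ?_
      show x * (x * x) = 0
      rw [← mul_assoc, h3]
    · by_cases hC : C = []
      · subst hC
        rw [List.nil_append, List.nil_append, Fle_app [x] _ hne (by simp),
          Fle_app [x] _ hne (by simp), Fle_app B _ hB (by simp), Fle_app [x] _ hne (by simp), hx]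
        have h := (hN R h3 x 0 (wp B) 0).1
        simp only [← mul_assoc]
        exact h
      · rw [List.nil_append, Fle_app [x] _ hne (by simp), Fle_app [x] _ hne (by simp),
          Fle_app B _ hB (by simp), Fle_app [x] _ hne (by simp), Fle_app C _ hC hne, hx]
        have h := (hN R h3 x 0 (wp B) (wp C)).2.1
        simp only [← mul_assoc]
        exact h
  · by_cases hB : B = []
    · subst hB
      by_cases hC : C = []
      · subst hC
        have e : [x] ++ (A ++ ([x] ++ ([] ++ ([x] ++ ([] ++ [x]))))) = ([x] ++ A) ++ [x, x, x] := by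
          simp
        rw [e]
        refine Fle_left _ (by simp) ?_
        show x * (x * x) = 0
        rw [← mul_assoc, h3]
      · rw [List.nil_append, Fle_app [x] _ hne (by simp), Fle_app A _ hA (by simp),
          Fle_app [x] _ hne (by simp), Fle_app [x] _ hne (by simp), Fle_app C _ hC hne, hx]
        have h := (hN R h3 x 0 (wp A) (wp C)).2.2.1
        simp only [← mul_assoc]
        exact h
    · by_cases hC : C = []
      · subst hC
        rw [List.nil_append, Fle_app [x] _ hne (by simp), Fle_app A _ hA (by simp),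
          Fle_app [x] _ hne (by simp), Fle_app B _ hB (by simp), Fle_app [x] _ hne (by simp), hx]
        have h := (hN R h3 x (wp A) (wp B) 0).2.2.2.1
        simp only [← mul_assoc]
        exact h
      · rw [Fle_app [x] _ hne (by simp), Fle_app A _ hA (by simp), Fle_app [x] _ hne (by simp),
          Fle_app B _ hB (by simp), Fle_app [x] _ hne (by simp), Fle_app C _ hC hne, hx]
        have h := (hN R h3 x (wp A) (wp B) (wp C)).2.2.2.2
        simp only [← mul_assoc]
        exact h

/-- the first occurrence of a letter -/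
theorem Fle_split (w : List ℕ) (k m : ℕ) (h : m + 1 ≤ w.count k) :
    ∃ A B : List ℕ, w = A ++ ([k] ++ B) ∧ m ≤ B.count k := by
  have h1 : k ∈ w := List.count_pos_iff.1 (by omega)
  obtain ⟨A, B, rfl, hA⟩ := List.eq_append_cons_of_mem h1
  refine ⟨A, B, rfl, ?_⟩
  rw [List.count_append, List.count_eq_zero_of_not_mem hA, List.count_cons_self] at h
  omega

theorem Fle_one (hN : St_Nid) (h3 : ∀ x : R, x * x * x = 0) (v : ℕ → R) (w : List ℕ) (k : ℕ)
    (hk : 4 ≤ w.count k) : wp (w.map v) = 0 := by
  obtain ⟨U, w1, rfl, h1⟩ := Fle_split w k 3 hk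
  obtain ⟨A, w2, rfl, h2⟩ := Fle_split w1 k 2 h1
  obtain ⟨B, w3, rfl, h3'⟩ := Fle_split w2 k 1 h2
  obtain ⟨C, w4, rfl, -⟩ := Fle_split w3 k 0 h3'
  have e : (U ++ ([k] ++ (A ++ ([k] ++ (B ++ ([k] ++ (C ++ ([k] ++ w4)))))))).map v =
      U.map v ++ (([v k] ++ (A.map v ++ ([v k] ++ (B.map v ++ ([v k] ++
        (C.map v ++ [v k])))))) ++ w4.map v) := by
    simp
  rw [e]
  refine Fle_left _ (by simp) (Fle_right _ (by simp) ?_)
  exact Fle_core hN h3 (v k) (A.map v) (B.map v) (C.map v)

end

theorem thm_Fle (hN : St_Nid) : St_Fle := by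
  classical
  refine ⟨fun R _ h3 v w k hk => Fle_one hN h3 v w k hk, ?_⟩
  intro R _ hadd hmul v w k hv hk
  let J : NonUnitalSubring R :=
    { carrier := {x | Nl x}
      mul_mem' := fun {a b} _ hb => (hmul a b hb).1
      add_mem' := fun {a b} ha hb => hadd a b ha hb
      zero_mem' := by
        show (0 : R) * 0 * 0 = 0
        rw [mul_zero]
      neg_mem' := fun {a} ha => by
        show -a * -a * -a = 0
        have h : a * a * a = 0 := ha
        rw [neg_mul_neg, mul_neg, h, neg_zero] }
  have hJ : ∀ x, x ∈ J ↔ Nl x := fun x => Iff.rfl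
  let v' : ℕ → J := fun i => if h : Nl (v i) then ⟨v i, h⟩ else 0
  have h3 : ∀ x : J, x * x * x = 0 := by
    rintro ⟨x, hx⟩
    apply Subtype.ext
    exact hx
  have h1 := Fle_one hN h3 v' w k hk
  have h2 : ∀ l : List ℕ, (∀ i ∈ l, Nl (v i)) → ((wp (l.map v') : J) : R) = wp (l.map v) := by
    intro l
    induction l with
    | nil => intro _; rfl
    | cons i l ih =>
      intro h
      have hi : ((v' i : J) : R) = v i := by
        show ((if h : Nl (v i) then (⟨v i, h⟩ : J) else 0 : J) : R) = v i
        rw [dif_pos (h i (by simp))]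
      cases l with
      | nil => exact hi
      | cons j l =>
        have h4 := ih fun i' hi' => h i' (by simp only [List.mem_cons] at hi' ⊢; tauto)
        show ((v' i : J) : R) * ((wp ((j :: l).map v') : J) : R) = v i * wp ((j :: l).map v)
        rw [hi, h4]
  rw [← h2 w hv, h1]
  rfl

end Pool.Agent.CRM
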