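import Pool.Agent.CRM.Defs
import Pool.Agent.CRL.St

/-!
Campaign CRM (problem MP_1bb14d_al, stage 4): explicit lists of the critical rings in the varieties
`x^3 = x^n`.  Frozen statements, part 1: operators, rules, conjugacy.

Every module `Pool/Agent/CRM/<X>.lean` imports this file (and `Pool.Agent.CRL.<Y>`, `Pool.Agent.CRN.<Y>`,
`Pool.Agent.CRK.<Y>` if theorems of these finished campaigns are used) and proves
`theorem thm_<X> : St_<X>`; the hypotheses (other statements `St_<Y>` of this file) named in the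
docstring may be used as arguments (`theorem thm_<X> (hY : St_<Y>) : St_<X>`).  Own lemmas have names
which start with the name of the module.  The docstrings contain the proofs.

All theorems of campaign CRL are proved; `Pool/Agent/CRL/All.lean` has them without hypotheses under
small letters (`CRL.jil : CRL.St_Jil`, `CRL.fpr`, `CRL.quo`, `CRL.thm_Prl`, `CRL.gen`, `CRL.thm_Tei`, `CRL.thm_Crd`, ...): import
`Pool.Agent.CRL.All` and use them freely.  Useful: `CRL.jil` (the nil elements are an ideal `J`), `CRL.fpr`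
(`e_i = om n (t i)` are orthogonal primitive idempotents, `e_i t_i = t_i = t_i e_i`, `t_i^m = e_i`), `CRL.gen`,
`CRL.thm_Prl` (elements of `eRe` are nil or invertible), `CRL.quo` (the quotient `Q = R / J`), `CRN.thm_Pca` (Peirce
components), `CRN.thm_Jnl` (`J` is nilpotent), `CRN.thm_Pws`.

Notation of the docstrings: `J = {x | Nl x}`, `x^k = pw x (k - 1)`, `e_i = om n (t i)`, `L_i`, `R_j` the multiplications by
`t_i` from the left and by `t_j` from the right, `O = Ops t α β`; `e_α x = x - ∑ e_i x` for `α = none`.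
-/

set_option autoImplicit false

namespace Pool.Agent.CRM

open Pool.Agent.CRR Pool.Agent.CRN Pool.Agent.CRK Pool.Agent.CRL

/-! ### Part A: operators and pure elements -/

/-- **OPS.**  PROOF.  `Subring.closure_induction`; the generators `L_i`, `R_j` commute.  (7): `L_i (x y) = (L_i x) y`,
`R_j (x y) = x (R_j y)`; the set of the `D` such that the claim holds for all `x, y` is a subring which contains
the generators: for `D D'`: `D' (x y)` is a sum of items `(D₁ x) (D₂ y)` (with signs), and `D` of such an item is in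
the group of the items (`Ops t α none` and `Ops t none β` are closed under products). -/
def St_Ops : Prop := ∀ (R : Type) [NonUnitalRing R] (s : ℕ) (t : Fin s → R) (α β : Option (Fin s)),
  (∀ D ∈ Ops t α β, ∀ D' ∈ Ops t α β, ∀ x, D (D' x) = D' (D x)) ∧
  (∀ D ∈ Ops t α β, ∀ S : NonUnitalSubring R, (∀ i, t i ∈ S) → ∀ x ∈ S, D x ∈ S) ∧
  (∀ D ∈ Ops t α β, ∀ I : AddSubgroup R, Idl R I → ∀ x ∈ I, D x ∈ I) ∧
  (∀ D ∈ Ops t α none, ∀ x y, D (x * y) = D x * y) ∧
  (∀ D ∈ Ops t none β, ∀ x y, D (x * y) = x * D y) ∧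
  (∀ D ∈ Ops t α β, ∀ a, (∀ i, α = some i → t i * a = a * t i) → ∀ x, D (a * x) = a * D x) ∧
  (∀ D ∈ Ops t α β, ∀ x y, D (x * y) ∈ AddSubgroup.closure
    {w | ∃ D₁ ∈ Ops t α none, ∃ D₂ ∈ Ops t none β, w = D₁ x * D₂ y}) ∧
  Ops t α none ≤ Ops t α β ∧ Ops t none β ≤ Ops t α β

/-- **OPC.**  PROOF.  `CRL.fpr`: `e_i t_i = t_i = t_i e_i`, `e_j t_i = 0 = t_i e_j` for `j ≠ i`; so `L_i` (`α = i`) and `R_j`
(`β = j`) preserve `e_α R e_β`; `CRL.jil` for nil elements; `Subring.closure_induction`. -/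
def St_Opc : Prop := ∀ (n p : ℕ) (R : Type) [NonUnitalRing R] [Finite R], Cy R n p →
  ∀ (s : ℕ) (t : Fin s → R), Frame R n s t → ∀ (α β : Option (Fin s)), ∀ D ∈ Ops t α β, ∀ x,
    (Pc (fun i => om n (t i)) α β x → Pc (fun i => om n (t i)) α β (D x)) ∧ (Nl x → Nl (D x))

/-- **OPQ** (from `St_Ops`).  PROOF.  `Frame.per`: `t_i^(m_i + 1) = t_i`, `m_i ≥ 1` prime to the order of `R`, so prime to `p`
(`CRL.thm_Crd`, if `R` has an element `≠ 0`; if `R = 0` everything is trivial, take `q = p^2`).  `m` the product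
of the `m_i`; `f ≥ 2` with `p^f ≡ 1` modulo `m` (`f = 2 φ(m)`), `q = p^f ≥ 4`; so `t_i^q = t_i`.  The set of
the `D ∈ O` with `D^q ∈ D + p O` is a subring of `O` (commutative, `St_Ops`; in a commutative ring
`(x + y)^q ∈ x^q + y^q + p O`, `(-x)^q ∈ - x^q + p O`, e.g. in the quotient of characteristic `p`, `add_pow_expChar_pow`) and
contains the generators.  So the first claim for `k = 1`; then by induction
`D^(q^(k+1)) = (D + p D')^q ∈ D^q + p O = D + p O`.  The last item: for `c, c'` in `C = NonUnitalSubring.closure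
(Set.range t)` (commutative, as `t_i t_j = 0 = t_j t_i`) the set of the `c ∈ C` with `c^q ∈ c + p C` is a subring which
contains the `t_i`. -/
def St_Opq : Prop := ∀ (n p : ℕ) (R : Type) [NonUnitalRing R] [Finite R], Cy R n p →
  ∀ (s : ℕ) (t : Fin s → R), Frame R n s t → ∃ q : ℕ, 3 ≤ q ∧ (∀ i, pw (t i) (q - 1) = t i) ∧
    (∀ (α β : Option (Fin s)), ∀ D ∈ Ops t α β, ∀ k : ℕ, ∃ D' ∈ Ops t α β,
      ∀ x, (D ^ (q ^ k)) x = D x + p • D' x) ∧
    ∀ c ∈ NonUnitalSubring.closure (Set.range t), ∃ c' ∈ NonUnitalSubring.closure (Set.range t),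
      pw c (q - 1) = c + p • c'

/-- **WPJ** (from `St_Opq`).  PROOF.  By the last item of `St_Opq` `w^q = w + p c'`, and `w^q = 0` as `q ≥ 3`; so
`w = p (- c')`. -/
def St_Wpj : Prop := ∀ (n p : ℕ) (R : Type) [NonUnitalRing R] [Finite R], Cy R n p →
  ∀ (s : ℕ) (t : Fin s → R), Frame R n s t → ∀ w ∈ NonUnitalSubring.closure (Set.range t), Nl w →
    ∃ w' ∈ NonUnitalSubring.closure (Set.range t), w = p • w'

/-- **PRX** (from `St_Ops`, `St_Opq`).  Pure elements.  PROOF.  Strong induction on the number of elements of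
`B(x) = {D x | D ∈ O}`.  If `x` is pure take `D = 1`.  Otherwise there is `D ∈ O` such that `D x ≠ p D' x` and
`D' D x ≠ x` for all `D' ∈ O`.  `AddMonoid.End R` is finite, so `ε = D^M` is idempotent for some `M ≥ 1`.
`ε x ≠ x` (otherwise `D' = D^(M-1)`).  `ε x ≠ 0`: otherwise `D^(q^k) x = 0` for `q^k ≥ M`, and by `St_Opq`
`0 = D x + p D'' x`, a contradiction.  `x = ε x + (x - ε x)`; `Q (ε x)` or `Q (x - ε x)` (`x - ε x = (1 - ε) x`).
`B(ε x) ⊆ B(x)` does not contain `x` (`ε y = y` for `y ∈ B(ε x)`), and `B(x - ε x)` does not contain `x` (`ε y = 0` for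
`y ∈ B(x - ε x)`, `ε x ≠ 0`).  So the induction applies to `ε x` or `x - ε x`. -/
def St_Prx : Prop := ∀ (n p : ℕ) (R : Type) [NonUnitalRing R] [Finite R], Cy R n p →
  ∀ (s : ℕ) (t : Fin s → R), Frame R n s t → ∀ (α β : Option (Fin s)) (x : R) (Q : R → Prop),
    (∀ D ∈ Ops t α β, ∀ D' ∈ Ops t α β, Q (D x + D' x) → Q (D x) ∨ Q (D' x)) → Q x →
    ∃ D ∈ Ops t α β, Pur p t α β (D x) ∧ Q (D x)

/-- **TWI** (from `St_Ops`).  A pure loop commutes with `t_i` or is twisted.  PROOF.  `O = Ops t (some i) (some i)`,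
`L = L_i`, `R = R_i`, `B(a) = {D a | D ∈ O}`.  `D₀ = R - L ∈ O`.  If `D' D₀ a = a` for some `D' ∈ O` we are done.
Otherwise `D₀ a = p D' a` with `D' ∈ O` (`Pur`), and `D₀ y = p D' y` for all `y ∈ B(a)` by commutativity.  Let
`t_i^(m+1) = t_i`, `m ≥ 1` prime to `p` (`Frame.per`, `CRL.thm_Crd`), so `t_i^m = e_i` (`CRL.fpr`) and `L^m y = y = R^m y` for
`y ∈ B(a)` (all in `e_i R e_i`).  On `B(a)`: `R = L + p D'`, `R^m = L^m + p D' (m L^(m-1) + p X)` for some `X ∈ O`
(binomial theorem in the commutative ring `O`).  So `G (p D' y) = 0`, `G = m L^(m-1) + p X`, for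
`y ∈ B(a)`.  `G` is injective on `B(a)`: `G y = 0` implies `m y = - p L X y` (apply `L`), so `y = p X' y` with
`X' ∈ O` (`m` is invertible modulo `p^r`), so `y = p^r X'^r y = 0`.  So `p D' a = 0`, `a t_i = t_i a`. -/
def St_Twi : Prop := ∀ (n p : ℕ) (R : Type) [NonUnitalRing R] [Finite R], Cy R n p →
  ∀ (s : ℕ) (t : Fin s → R), Frame R n s t → ∀ (i : Fin s) (a : R),
    Pc (fun i => om n (t i)) (some i) (some i) a → Pur p t (some i) (some i) a →
    t i * a = a * t i ∨ ∃ D ∈ Ops t (some i) (some i), D (a * t i - t i * a) = a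

/-- **INV** (from `St_Ops`, `St_Opc`).  PROOF.  `D y = D (e_i y) = D (e_i) y` (`St_Ops` (4)).  `d = D e_i ∈ e_i R e_i` is nil, or
`c d = e_i = d c` for some `c ∈ e_i R e_i` (`CRL.thm_Prl`).  In the second case the powers of `d` are invertible in
`e_i R e_i`; some power `d^M`, `M ≥ 1`, is idempotent (`R` is finite), so it is `e_i` (an invertible idempotent);
`D' = D^(M-1)`: `D' D y = D^M y = d^M y = e_i y = y`. -/
def St_Inv : Prop := ∀ (n p : ℕ) (R : Type) [NonUnitalRing R] [Finite R], Cy R n p →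
  ∀ (s : ℕ) (t : Fin s → R), Frame R n s t → ∀ (i : Fin s), ∀ D ∈ Ops t (some i) none,
    (∀ y, om n (t i) * y = y → D y = D (om n (t i)) * y) ∧
    (Nl (D (om n (t i))) ∨ ∃ D' ∈ Ops t (some i) none, ∀ y, om n (t i) * y = y → D' (D y) = y)

/-- **IVC** (from `St_Ops`).  The same for both sides and for `none`: an operator is divisible by `p` or invertible
on pure elements.  PROOF.  Direct from `Pur` and commutativity: if `D x = p D' x` then `D (E x) = p D' (E x)` for all
`E ∈ O`; if `D' D x = x` then `D' D (E x) = E x`. -/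
def St_Ivc : Prop := ∀ (p : ℕ) (R : Type) [NonUnitalRing R] (s : ℕ) (t : Fin s → R)
  (α β : Option (Fin s)) (x : R), Pur p t α β x → ∀ D ∈ Ops t α β,
    (∃ D' ∈ Ops t α β, ∀ E ∈ Ops t α β, D (E x) = p • D' (E x)) ∨
    ∃ D' ∈ Ops t α β, ∀ E ∈ Ops t α β, D' (D (E x)) = E x

/-! ### Part B: rules for products of homogeneous nil elements -/

/-- **RUL.**  PROOF.  `P a b c = abc + acb + bac + bca + cab + cba = 0` for nil `a, b, c` (all sums of them are nil; it is the
combination of the cubes of `a + b + c`, `a + b`, `a + c`, `b + c`, `a`, `b`, `c`).  Products of components with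
different inner vertices are `0` (`CRN.thm_Pca`).  (1) `P a a' z = a a' z + a' a z` (`z a = 0 = z a'` because `β ≠ α`);
`(a + z)^3 = a a z + (zero terms)`.  (2) mirror image.  (3) `P a z b = a z b`.  (4) `P a x y = a x y + x y a + y a x`;
the last item is in `e_β R e_β`, the others in `e_α R e_α`; if `α = some i` multiply by `e_i`: `a x y + x y a = 0`, so also
`y a x = 0`; if `α = none` then `β = some j`, multiply by `e_j`.  In the same way `P b y x = b y x + y x b + x b y`: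
`x b y = 0`.  (5) `P x y z = x y z + z y x`; `(x + y)^3 = x y x + y x y`, components in `e_α R e_β` and `e_β R e_α`. -/
def St_Rul : Prop := ∀ (R : Type) [NonUnitalRing R] (s : ℕ) (e : Fin s → R), Hm e →
  ∀ (α β : Option (Fin s)), α ≠ β →
  (∀ a a' z, Jc e α α a → Jc e α α a' → Jc e α β z → a * a' * z = -(a' * a * z) ∧ a * a * z = 0) ∧
  (∀ b b' z, Jc e β β b → Jc e β β b' → Jc e α β z → z * b * b' = -(z * b' * b) ∧ z * b * b = 0) ∧
  (∀ a b z, Jc e α α a → Jc e β β b → Jc e α β z → a * z * b = 0) ∧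
  (∀ a b x y, Jc e α α a → Jc e β β b → Jc e α β x → Jc e β α y →
    a * x * y = -(x * y * a) ∧ x * b * y = 0) ∧
  ∀ x y z, Jc e α β x → Jc e β α y → Jc e α β z → x * y * z = -(z * y * x) ∧ x * y * x = 0

/-- **RUM** (from `St_Rul`).  PROOF.  `x y` is a nil element of `e_α R e_α` (`Hm.mul`), so `a (x y) z = - (x y) a z` by (1), and
`y a z = 0` by (4) (with `α, β` exchanged: `y` in `e_β R e_α`, `a` in the middle, `z` in `e_α R e_β`); so `a x y z = 0`.
`y z ∈ e_β R e_β`: `x (y z) b = - x b (y z)` by (2), and `x b y = 0` by (4).  `x (y z) w = 0` by (4) (`y z` in the middle). -/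
def St_Rum : Prop := ∀ (R : Type) [NonUnitalRing R] (s : ℕ) (e : Fin s → R), Hm e →
  ∀ (α β : Option (Fin s)), α ≠ β → ∀ a b x y z w, Jc e α α a → Jc e β β b → Jc e α β x →
    Jc e β α y → Jc e α β z → Jc e β α w →
    a * x * y * z = 0 ∧ x * y * z * b = 0 ∧ x * y * z * w = 0

/-- **RUU.**  PROOF.  `z ∈ e_α R e_β`, `z' ∈ e_β R e_γ`, `α, β, γ` different.  (1) `P z z' w = 0`, `w ∈ e_γ R e_δ`: the orders
which can be nonzero (composable) and have the same source `α` and target `δ` as `z z' w`: only `z z' w` itself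
(`z` must come first, because it is the only one with source `α` except if `δ = α`... in that case `w` has target
`α`, and the other composable orders `z' w z`, `w z z'` are in `e_β R e_β`, `e_γ R e_γ`).  So take the component in
`e_α R e_δ` (from the left with `e_α`, or if `α = none` subtract the components with `e_j` from the left).  (2)
mirror image.  (3) `P z b z' = z b z'`. -/
def St_Ruu : Prop := ∀ (R : Type) [NonUnitalRing R] (s : ℕ) (e : Fin s → R), Hm e →
  ∀ (α β γ δ : Option (Fin s)), α ≠ β → β ≠ γ → α ≠ γ → ∀ z z', Jc e α β z → Jc e β γ z' →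
  (∀ w, Jc e γ δ w → z * z' * w = 0) ∧ (∀ w, Jc e δ α w → w * z * z' = 0) ∧
  ∀ b, Jc e β β b → z * b * z' = 0

/-- **RUT** (from `St_Rul`, `St_Ops`, `St_Opc`).  Rules with `t`.  PROOF.  (1) `(t a) a' z = - a' (t a) z` and
`t (a a' z) = - t a' a z` (`St_Rul` (1), `t a` is a nil element of `e_i R e_i`), so `a' (t a) z = t a' a z`.  (2) the mirror
image.  (3) `a (t x) y = - (t x) y a` and `t (a x y) = - t x y a` (`St_Rul` (4)), so `(t a - a t) x y = 0`.
(4) `(a + D a)(a + D a) z = 0` (`a + D a` is a nil element of `e_α R e_α`) gives `a (D a) z + (D a) a z = 0`; more directly: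
first for `D = L_i^k R_i^l`: `a t^k a t^l z = - t^k a a t^l z = 0` (`St_Rul` (1) for `a`, `t^k a` and `t^l z`), and
`(t^c a t^d) (t^k a t^l) z = t^c (a t^(d+k) a (t^l z)) = 0`; general `D₁, D₂`: both sides are additive, and
`Ops t α α` is additively generated by the products `L_i^k R_i^l`. -/
def St_Rut : Prop := ∀ (n p : ℕ) (R : Type) [NonUnitalRing R] [Finite R], Cy R n p →
  ∀ (s : ℕ) (t : Fin s → R), Frame R n s t → ∀ (α β : Option (Fin s)), α ≠ β →
  (∀ (i : Fin s) (a a' z : R), α = some i → Jc (fun i => om n (t i)) α α a →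
    Jc (fun i => om n (t i)) α α a' → Jc (fun i => om n (t i)) α β z →
    (a' * t i - t i * a') * a * z = 0) ∧
  (∀ (i : Fin s) (b b' z : R), β = some i → Jc (fun i => om n (t i)) β β b →
    Jc (fun i => om n (t i)) β β b' → Jc (fun i => om n (t i)) α β z →
    z * b * (b' * t i - t i * b') = 0) ∧
  (∀ (i : Fin s) (a x y : R), α = some i → Jc (fun i => om n (t i)) α α a →
    Jc (fun i => om n (t i)) α β x → Jc (fun i => om n (t i)) β α y →
    (a * t i - t i * a) * x * y = 0) ∧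
  ∀ (a z : R), Jc (fun i => om n (t i)) α α a → Jc (fun i => om n (t i)) α β z →
    ∀ D₁ ∈ Ops t α α, ∀ D₂ ∈ Ops t α α, D₁ a * D₂ a * z = 0

/-! ### Part C: conjugacy of frames -/

/-- **CNA.**  PROOF.  In `Q = R / J` (`CRL.quo`, `q : R → Q`): the `q(t_i)` are orthogonal, not `0`, and every element of
`Q` is a sum `∑ c_j`, `c_j = 0` or a power `q(t_j)^(k+1)` (`CRL.gen`); the same for `t'`.  Let `q(t'_i) = ∑ c_j`,
`T = {j | c_j ≠ 0} ≠ ∅`.  For `j ∈ T`: `q(e_j) q(t'_i) = c_j ≠ 0`, `q(e_j)` idempotent and central (`Q` is commutative by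
`CRL.gen`).  `e'_i e_j e'_i` is nil or `≡ t'_i^(k+1)` modulo `J` (`Frame.gen` for `t'`); its image `q(e'_i) q(e_j)` is idempotent,
not `0`, and a power of `q(t'_i)`, so it is `q(e'_i)` (an idempotent power of `y = q(t'_i)`, which is invertible in
`q(e'_i) Q`).  If `j ≠ j'` are in `T` then `q(e'_i) = q(e'_i) q(e_j) q(e_j') = 0`, a contradiction.  So `T = {π i}` and
`q(t'_i) = q(t_(π i))^(k+1)`.  Symmetrically `q(t_j) = q(t'_(π' j))^(k'+1)`; then `π' (π i) = i` (`q(t'_i)` is a power of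
`q(t'_(π' (π i)))`, orthogonality), so `π` is bijective (`Fin s` finite) and `t_(π i) ≡ t'_i^(k'+1)`. -/
def St_Cna : Prop := ∀ (n p : ℕ) (R : Type) [NonUnitalRing R] [Finite R], Cy R n p →
  ∀ (s : ℕ) (t t' : Fin s → R), Frame R n s t → Frame R n s t' → ∃ π : Equiv.Perm (Fin s),
    ∀ i, (∃ k, Nl (t' i - pw (t (π i)) k)) ∧ ∃ k, Nl (t (π i) - pw (t' i) k)

/-- **CNB.**  PROOF.  `J` is an ideal (`CRL.jil`).  `e_i ≡ e'_i` modulo `J` (powers).  Let `m ≥ 1` be a common multiple,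
prime to `p`, with `t_i^(m+1) = t_i`, `t'_i^(m+1) = t'_i` for all `i` (product of the numbers of `Frame.per`, `CRL.thm_Crd`), so
`t_i^m = e_i`, `t'_i^m = e'_i` (`CRL.fpr`), and `c` an integer with `c m ≡ 1` modulo `p^r`.  In the unitization of `R`
(`Unitization ℤ R`), `E = ∑ e_i`, `E' = ∑ e'_i`, `u = (1 - E)(1 - E') + c ∑_i ∑_(k<m) t_i^(m-k) t'_i^k` (`t'_i^0 = e'_i`).
`t_i u = c ∑_k t_i^(m-k+1) t'_i^k = u t'_i` (telescoping; `t_i (1 - E) = 0`, `(1 - E') t'_i = 0`).  Modulo `J`: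
`u ≡ (1 - E) + c m ∑ e_i ≡ 1`, more exactly `u = 1 + j` with `j ∈ J` after reduction (`(c m - 1) e_i = 0` because
`p^r R = 0`).  `u' = 1 - j + j j` is the inverse of `u` (`j j j = 0`).  `θ x = u x u'` is an automorphism of `R`
(`R` is an ideal in the unitization; `θ x = x + j x - x j + ...`), with inverse `u' x u`, and
`θ t'_i = u t'_i u' = t_i u u' = t_i`. -/
def St_Cnb : Prop := ∀ (n p : ℕ) (R : Type) [NonUnitalRing R] [Finite R], Cy R n p →
  ∀ (s : ℕ) (t t' : Fin s → R), Frame R n s t → Frame R n s t' → (∀ i, Nl (t' i - t i)) →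
    ∃ θ : R ≃+* R, ∀ i, θ (t' i) = t i

/-- **CNJ** (from `St_Cna`, `St_Cnb`).  PROOF.  `St_Cna`: `π`, `t'_i ≡ t_(π i)^(k_i + 1)`.  Let `t''_i = pw (t (π i)) (k_i)`.  `t''` is a frame:
`orth`, `ne` (otherwise `t'_i` is nil, but it is not, `CRL.fpr`), `per` (powers of `t_(π i)`), `om n (t''_i) = e_(π i)`
(a power of `t_(π i)` which is idempotent and not `0`, `CRL.fpr`), `gen`: `x ≡ 0` or `x ≡ t_(π i)^(l+1) ≡ t'_i^(l'+1) ≡ t''_i^(l'+1)`
modulo `J`; `max`: from that of `t` (an idempotent orthogonal to all `t''_i` is orthogonal to all `e_(π i)`, so to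
all `t_j`).  `St_Cnb` for `t''`, `t'`: `θ (t'_i) = t''_i`.  Last item: `t_(π i) ≡ t'_i^(l+1) ≡ t''_i^(l+1)` modulo `J`; both sides
`x = t_(π i)` and `y = t''_i^(l+1)` are powers of `x`, `x^(m+1) = x`, so `g = x^(m-1) y` satisfies `g ≡ e` modulo `J`,
`g^m = e` (`e = x^m`), `m` prime to `p`: `g = e + j`, `e = (e + j)^m = e + m j + (m (m-1)/2) j j` (`j j j = 0`, `j` commutes
with `e` and is in `e R e`); times `j`: `m j j = 0`, `j j = 0`, `m j = 0`, `j = 0`; so `g = e` and `y = x g = x`. -/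
def St_Cnj : Prop := ∀ (n p : ℕ) (R : Type) [NonUnitalRing R] [Finite R], Cy R n p →
  ∀ (s : ℕ) (t t' : Fin s → R), Frame R n s t → Frame R n s t' →
    ∃ (θ : R ≃+* R) (π : Equiv.Perm (Fin s)), ∀ i, (∃ k, θ (t' i) = pw (t (π i)) k) ∧
      (∃ k, t (π i) = pw (θ (t' i)) k) ∧ om n (θ (t' i)) = om n (t (π i))

/-- **SOC** (from `St_Ops`, `St_Opc`, `St_Prx`).  PROOF.  Suppose `v ∉ H`.  `St_Prx` with `Q y : y ∉ H` (`H` is a group): there is
`E ∈ O` (`O = Ops t γ δ`) such that `y = E v` is pure and `y ∉ H`, so `y ≠ 0`.  For all `D ∈ O`: `x (D v) = 0 = (D v) x` for nil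
`x` and `p D v = 0`: `D` is a combination of `L^k R^l`, `x t_i^k v t_j^l = 0` since `x t_i^k` is nil; similarly on the
right (or: the set of `w` with `J w = 0 = w J`, `p w = 0` is an ideal, `St_Ops` (3)).  `B = {D y | D ∈ O}` is an
ideal: it is a group; `r w` for `w ∈ B`: `r = r' + c` with `r' ∈ J` and `c` in the subring generated by the `t_i`
(`CRL.gen`), `r' w = 0`, and `c w ∈ B`: `t_i w = L_i w ∈ B` if `γ = i`, and `0` otherwise (`St_Opc`, `w` is in `e_γ R e_δ`).
`B ≠ 0`, so `H ≤ B`; let `0 ≠ h = D y ∈ H`.  `Pur`: `D y = p D' y = 0` is impossible, so `D' h = y` for some `D' ∈ O`, and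
`y ∈ H` (`St_Ops` (3)), a contradiction. -/
def St_Soc : Prop := ∀ (n p : ℕ) (R : Type) [NonUnitalRing R] [Finite R], Cy R n p →
  ∀ H : AddSubgroup R, Lst R H → ∀ (s : ℕ) (t : Fin s → R), Frame R n s t →
  ∀ (γ δ : Option (Fin s)) (v : R), Pc (fun i => om n (t i)) γ δ v →
    (∀ x, Nl x → x * v = 0 ∧ v * x = 0) → p • v = 0 → v ∈ H

/-- **NAC.**  PROOF.  `J` is an ideal (`CRL.jil`) and nilpotent (`CRN.thm_Jnl`).  Let `J^k` be the group generated by the
products of `k` nil elements.  Claim: `J ⊆ S + J^k` for all `k ≥ 1`: `k = 2` is the hypothesis; if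
`J ⊆ (S ∩ J) + J^k` then a product of two nil elements is in `(S ∩ J + J^k)(S ∩ J + J^k) ⊆ S + J^(k+1)`, so `J^2 ⊆ S + J^(k+1)` and
`J ⊆ S + J^(k+1)`.  So `J ⊆ S`.  By `CRL.gen` every element is a sum of a nil element and of powers of the `t_i`, so
`S = ⊤`. -/
def St_Nac : Prop := ∀ (n p : ℕ) (R : Type) [NonUnitalRing R] [Finite R], Cy R n p →
  ∀ (s : ℕ) (t : Fin s → R), Frame R n s t → ∀ S : NonUnitalSubring R, (∀ i, t i ∈ S) →
    (∀ x : R, Nl x → ∃ y ∈ S, Nl y ∧ x - y ∈ J2 R) → S = ⊤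

end Pool.Agent.CRM
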