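import Pool.Agent.CRM.Defs4
import Pool.Agent.CRM.St

/-!
Campaign CRM (problem MP_1bb14d_al, stage 4).  Frozen statements, part 4: nilpotent and local rings.

Every module `Pool/Agent/CRM/<X>.lean` for a statement of this file imports this file and proves
`theorem thm_<X> : St_<X>`; see the header of `St.lean` for the rules.

Notation of the docstrings: `t^k = pw t (k - 1)`; `J` the nil elements; `P a b c` the sum of the six products of
`a, b, c` in all orders; `A x a = xxa + xax + axx`.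
-/

set_option autoImplicit false

namespace Pool.Agent.CRM

open Pool.Agent.CRR Pool.Agent.CRN Pool.Agent.CRK Pool.Agent.CRL

/-! ### Part K: words with four equal letters -/

/-- **NID.**  Identities in a ring with `x^3 = 0`.  PROOF.  (1) `P a b c` is a combination of cubes.  (2) `A x a + A a x` is the
cube of `x + a` minus two cubes, and `2 A x a = P x x a`; so `A x a = - A a x = A a x`.  (3) `x (A x a) = xxax + xaxx` is
`P (xx) a x` (the other items contain `xxx`); the same for `(A x a) x`.  (4) polarize (3): replace `x` by `x + b`: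
`A` is additive in both arguments (`A (x+y) a = A x a + A y a + P x y a`), so `x (A b a) + b (A x a) = 0`, and
`2 A = 0`.  (5) `(A x a) w = (A a x) w = (A w x) a` by (4) on the right, `= (A x w) a`.  (6) `x (A x b) x = xxbxx`.
(7) `xxbxcx = xxb (A x c) - xxbxxc - xxbcxx` (`xcx = A x c - xxc - cxx`), `xxb (A x c) = xx (b (A x c)) = xx (x (A b c)) = 0` by (4),
the others by (6).  (8) `xxbxcx = x (xbx) cx = x (A x b) cx - xxxbcx - xbxxcx`, so `xbxxcx = - xxbxcx = 0`.  (9) the mirror
image of (7): `xaxbxx = (A x a) bxx - xxabxx - axxbxx`, and `(A x a) b x x = ((A x a) b) xx = ((A b a) x) xx = 0` by (4).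
(10) `xaxbxcx = (A x a) bxcx - xxabxcx - axxbxcx`, the last two are `0` by (7), and
`(A x a) (b x) (c x) = (A x (b x)) a c x` by (5), `A x (b x) = (A x b) x = 0`. -/
def St_Nid : Prop := ∀ (R : Type) [NonUnitalRing R], (∀ x : R, x * x * x = 0) → ∀ x a b c : R,
  x * x * b * x * x = 0 ∧ x * x * b * x * c * x = 0 ∧ x * b * x * x * c * x = 0 ∧
  x * a * x * b * x * x = 0 ∧ x * a * x * b * x * c * x = 0

/-- **FLE** (from `St_Nid`).  PROOF.  (1) Take the first four occurrences of `k` in `w`: `w = u₀ k u₁ k u₂ k u₃ k u₄` with words `u_i`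
(`u₁, u₂, u₃` without `k`).  If two neighbouring of `u₁, u₂, u₃` are empty the product contains `xxx = 0`
(`x = v k`); `u₁ = u₃ = ∅ ≠ u₂`: `xxbxx`; only `u₁ = ∅`: `xxbxcx`; only `u₂ = ∅`: `xaxxcx`; only `u₃ = ∅`: `xaxbxx`; none:
`xaxbxcx`; all are `0` by `St_Nid` (`a, b, c` the products of the `u_i`).  (2) The same for the ring `J` of the nil
elements (a `NonUnitalSubring`; all letters of `w` have values in `J`). -/
def St_Fle : Prop :=
  (∀ (R : Type) [NonUnitalRing R], (∀ x : R, x * x * x = 0) → ∀ (v : ℕ → R) (w : List ℕ) (k : ℕ),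
    4 ≤ w.count k → wp (w.map v) = 0) ∧
  ∀ (R : Type) [NonUnitalRing R], (∀ x y : R, Nl x → Nl y → Nl (x + y)) →
    (∀ r x : R, Nl x → Nl (r * x) ∧ Nl (x * r)) → ∀ (v : ℕ → R) (w : List ℕ) (k : ℕ),
    (∀ i ∈ w, Nl (v i)) → 4 ≤ w.count k → wp (w.map v) = 0

/-! ### Part L: nilpotent rings -/

/-- **NGF** (from `St_Fle`).  PROOF.  `CRN.thm_Sir`: `H`.  `CRL.sel`: `Gc n s b H φ`.  `s = 0`: a frame has no nil elements
(`CRL.fpr`).  `1 ≤ b`: otherwise `φ v = φ 0 = 0` (`Gz.dep`, `CRK.Gda_zero`).  As in `CRL.thm_Bdd` (`CRL.thm_Wrx` with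
`K = {0, ..., b-1}`): `φ v = ev L₀ v` for all `v`, all words contain all `k < b`; remove the words with a letter
`≥ b` (`φ` depends only on `v i`, `i < b`; apply to `v` with `v i = 0` for `i ≥ b`).
`g` the minimal number of generators, `z : Fin g → R` generators.  Every element of `R` is an integral
combination of the `z i` modulo `Sq R` (these elements are a subring).  `φ` is additive in every variable and
zero if a variable is in `Sq R` (`Gb.add`, `Gb.sq`, all elements are nil).  So from `φ v ≠ 0` we get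
`ι : ℕ → Fin g` with `φ (fun k => z (ι k)) ≠ 0`.  `ι` is surjective on `{k | k < b}`: otherwise the `z (ι k)`, `k < b`, are in
the subring generated by `g - 1` of the `z i`, which is not `⊤` (`Gz.van`).  `L` = the words `w.map ι` for `w ∈ L₀`, with
the coefficients, without those in which a letter occurs `≥ 4` times (`St_Fle`: their values are `0`), and, if
the order is prime to 6, without those of length `≥ 6` (`CRL.bnd`: their values are `0`).  So
`Vg L x = φ (fun k => x (ι k))` for all `x : Fin g → R`. -/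
def St_Ngf : Prop := ∀ (n p : ℕ) (R : Type) [NonUnitalRing R] [Finite R], Cy R n p →
  (∀ x : R, x * x * x = 0) → Critical R → NGen R

/-- **NGB.**  PROOF.  `CRN.thm_Crg` with `G v = Vg L (fun i => v i)` (a term function, `CRK.Cvm_tmf_*`): values in `H`; if all
`v i ∈ S ≠ ⊤` then the subring generated by the `v i`, `i < g`, is contained in `S`, so it is not `⊤` and `G v = 0`. -/
def St_Ngb : Prop := ∀ (R : Type) [NonUnitalRing R] [Finite R], NGen R → Critical R

/-! ### Part M: local rings -/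

/-- **TYN.**  PROOF.  `e` is the identity and primitive.  `CRL.frx`: a frame `t⁰` exists, with `s = 1` (orthogonal nonzero
idempotents in the local ring `R`; `s = 0` contradicts `Frame.max` for `g = e`).  For every frame `t`: `om n t = e`
(idempotent, not `0`).  `CRL.ore`: `N` with `Ord n N (t⁰)`, so `N` is the least number `≥ 1` with `t⁰^N - e` nil.
For another frame `t`: `t ≡ t⁰^k`, `t⁰ ≡ t^l` modulo `J` (`Frame.gen`; `t`, `t⁰` are not nil), so `t^j ≡ e` if and only if
`t⁰^j ≡ e` (if and only if `N ∣ j`).  Let `t^(m+1) = t`, `m ≥ 1` prime to `p` (`Frame.per`, `CRL.thm_Crd`), so `t^m = e`, `N ∣ m`, so `N` is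
prime to `p`.  `t^N = e + j`, `j` nil, commutes with `t`, `(e + j)^m = e`: `m j + (m(m-1)/2) j j = 0`, times `j`: `m j j = 0`,
`j j = 0`, `m j = 0`, `j = 0`.  `N ∣ n - 3`: `t^(n-3) = e`, since `t = t e`, `t^3 = t^n` and `t` is invertible.  The last
item: `t^k - e` is not nil for `0 < k < N`, so invertible (`CRL.thm_Prl`). -/
def St_Tyn : Prop := ∀ (n p : ℕ) (R : Type) [NonUnitalRing R] [Finite R], Cy R n p →
  ∀ e : R, Prm R e → (∀ x, e * x = x ∧ x * e = x) → ∃ N : ℕ, 1 ≤ N ∧ N ∣ n - 3 ∧ N.Coprime p ∧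
    (∃ t : R, Frame R n 1 (fun _ => t)) ∧ ∀ t : R, Frame R n 1 (fun _ => t) → om n t = e ∧
      pw t (N - 1) = e ∧ ∀ k, 0 < k → k < N → ∃ u, u * (pw t (k - 1) - e) = e ∧
        (pw t (k - 1) - e) * u = e

/-- **FOU.**  PROOF.  Let `c` be an integer with `c N ≡ 1` modulo `p^r`, and `r_j = N - 1 - j` for `j < N` (so
`t^(j+1) t^(r_j) = e`; `t^0` is no factor).  `Φ j t x = c ∑_(k<N) t^(r_j k) x t^k`.  (1) `(Φ j t x) t = c ∑_(k<N) t^(r_j k) x t^(k+1)`, and
`t^(j+1) Φ j t x = c ∑_(k<N) t^(j+1) t^(r_j k) x t^k`, where for `k ≥ 1` `t^(j+1) t^(r_j k) = t^(r_j (k-1))`, and the item `k = 0` is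
`t^(j+1) x = t^(j+1) t^(r_j N) x t^N = t^(r_j (N-1)) x t^N`; so both are equal.  (2) `x t^k = t^((j+1) k) x`, every item is `x`,
the sum is `c N x = x`.  (3) `∑_j Φ j t x = c ∑_k (∑_j t^(r_j k)) x t^k`; `∑_(j<N) t^(r_j k) = ∑_(j<N) t^(j k)` is `N e` for `k = 0`, and for
`0 < k < N` it is `0`: multiplied by `t^k - e` it gives `t^(N k) - e = 0`, and `t^k - e` is invertible.  (4), (5), (6)
clear (`J` is an ideal, `CRL.jil`).  (7): `TmF`, `CRK.Gdb_comp`-like: if `ψ, χ` are term functions then so is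
`v ↦ Φ j (ψ v) (χ v)`. -/
def St_Fou : Prop := ∀ (n p : ℕ) (R : Type) [NonUnitalRing R] [Finite R], Cy R n p →
  ∀ e : R, Prm R e → (∀ x, e * x = x ∧ x * e = x) → ∀ N : ℕ, 1 ≤ N → N.Coprime p →
  ∃ Φ : ℕ → R → R → R, (∀ t : R, pw t (N - 1) = e → (∀ k, 0 < k → k < N →
      ∃ u, u * (pw t (k - 1) - e) = e) → ∀ x : R,
      (∀ j, j < N → Φ j t x * t = pw t j * Φ j t x) ∧
      (∀ j, j < N → x * t = pw t j * x → Φ j t x = x) ∧
      x = ∑ j ∈ Finset.range N, Φ j t x) ∧
    (∀ j t x, Nl x → Nl (Φ j t x)) ∧ (∀ j t x y, Φ j t (x + y) = Φ j t x + Φ j t y) ∧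
    (∀ (S : NonUnitalSubring R) j t x, t ∈ S → x ∈ S → Φ j t x ∈ S) ∧
    ∀ (j : ℕ) (ψ χ : (ℕ → R) → R), TmF ψ → TmF χ → TmF (fun v => Φ j (ψ v) (χ v))

/-- **LGF** (from `St_Fle`, `St_Tyn`, `St_Fou`).  PROOF.  `CRN.thm_Sir`: `H`.  `CRL.sel`: `Gc n s b H φ`; `s = 1` (`Gz.ne` gives a frame; see
`St_Tyn`).  As in `St_Ngf`: `φ v = ev L₀ v` on `Vec n 1 b`, the words of `L₀` contain all letters `1 + k`, `k < b`, have only
letters `≤ b`.  Let `φ v ≠ 0`, `Vec n 1 b v`, `t = v 0`; `N`, `Φ` from `St_Tyn`, `St_Fou`.  An element `x` is of type `j < N` if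
`x t = t^(j+1) x`.  (a) There are `g` and nil `z : Fin g → R`, `z i` of type `a i < N`, such that `t` and the `z i` generate `R`; take
`g` minimal for this `t`.  If `y : Fin k → R` generates `R`: `y_i = w_i + u_i` with `w_i` in the subring generated by `t`, `u_i`
nil (`CRL.gen`), and `t` and the `N k` elements `Φ j t (u_i)` generate `R`; so `g ≤ N k ≤ (n - 3) k`.  (b) Every nil `x` is
`∑ m_(i,d) t^d z_i` modulo `JW t` (`0 ≤ d < N`, integers `m_(i,d)`): the elements `w + (such a combination) + j`, `w` in the subring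
generated by `t`, `j ∈ J2`, are a subring which contains `t`, `z_i` (`z_i t = t^(a i + 1) z_i`); if such an
element is nil then `w` is nil.  (c) `φ` is additive, zero on `J2` and on nil elements of the subring generated by
`t` (`Gb.add`, `Gb.sq`, `Gc.cf`), so from `φ v ≠ 0` we get `ι k : Fin g`, `d_k < N` (`k < b`) with `φ (t, (t^(d_k) z_(ι k))_k) ≠ 0`; by
minimality of `g` and `Gz.van` `ι` is surjective on `{k | k < b}`.  (d) For every frame `t'` and `x : Fin g → R` with
`x i` nil, `x_i t' = t'^(a i + 1) x_i`: the value of a word of `L₀` at `(t', (t'^(d_k) x_(ι k))_k)` is `t'^d w(x)` with `w` the word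
of the `ι k` and `d` a number which depends only on the word and the `a i`, `d_k` (move all letters `t'` to
the left), reduced modulo `N` to `d ≤ N ≤ n - 3` (if `w` is empty, `g = 0`, take `1 ≤ d ≤ N`).  `L` = these items `(c, d, w)`
without those with a letter occurring `≥ 4` times in `w` (`St_Fle` (2)), and, if the order is prime to 6, without those
with `w` of length `≥ 6` (`CRL.bnd`).  So `Vl L t' x = φ (t', (t'^(d_k) x_(ι k))_k)`, and the conditions follow from those of `φ`
(if `x_i - y_i ∈ JW t'` then `t'^d x_i - t'^d y_i ∈ JW t'`, replace the variables one by one). -/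
def St_Lgf : Prop := ∀ (n p : ℕ) (R : Type) [NonUnitalRing R] [Finite R], Cy R n p →
  ∀ e : R, Prm R e → (∀ x, e * x = x ∧ x * e = x) → Critical R → LGen R n

/-- **BKL.**  PROOF.  As `CRL.thm_Bkz`: `o` from `CRL.ore` for some frame, `K` from `CRL.tav`.  `G v = dv n K o v 0 * φ (u v)` with
`u v 0 = ta n K v 0`, `u v (1 + k) = rd n (v (1 + k))` for `k < b`, `u v i = 0` for `i > b`.  A term function.  If `dv n K o v 0 ≠ 0` then
`u v 0` is a frame (`CRL.gvf`), `u v (1 + k)` is nil (`CRL.thm_Rdx`), so `Vec n 1 b (u v)`, `φ (u v) ∈ H`, zero if all `v i` are in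
`S ≠ ⊤`; `G v ∈ H` (ideal).  If `dv n K o v 0 = 0` then `G v = 0`.  Let `Vec n 1 b v⁰`, `φ v⁰ ≠ 0`, `v⁰ i = 0` for `i > b` (`Gz.dep`).  Then
`ta n K v⁰ 0 = v⁰ 0` (`Es n v 0 = 0`, `pw t (K - 1) = t` for frames, `CRL.tav`, `Frame.per`), `rd n x = x` for nil `x`, so `u v⁰ = v⁰`, and
`dv n K o v⁰ 0 = DT n (o 0) (v⁰ 0) = om n (v⁰ 0)` (`CRL.dte`; `Ord n (o 0) (v⁰ 0)`: choose `o` for the frame `v⁰ 0`), which is the
identity `e`; `G v⁰ = φ v⁰ ≠ 0`.  `CRN.thm_Crg`. -/
def St_Bkl : Prop := ∀ (n p : ℕ) (R : Type) [NonUnitalRing R] [Finite R], Cy R n p →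
  ∀ e : R, Prm R e → (∀ x, e * x = x ∧ x * e = x) → ∀ H : AddSubgroup R, Lst R H →
  ∀ (b : ℕ) (φ : (ℕ → R) → R), Gz n 1 b H φ → Critical R

/-- **LGB** (from `St_Tyn`, `St_Fou`, `St_Bkl`).  PROOF.  `Cy R n p` (`CRN.thm_Ppw`).  `N`, `Φ` from `St_Tyn`, `St_Fou`; every frame satisfies
the hypotheses of `St_Fou`.  We may take `a i < N`: replace `a i` by its residue modulo `N` (`pw t (a i) = pw t (a i % N)` for
frames `t`, as `t^N = e`).  `φ v = Vl L (v 0) (fun i => Φ (a i) (v 0) (v (1 + i)))`, a term function.  `Gz n 1 g H φ`: `val`: `Φ (a i) t x` is nil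
and of the right type; `van`: `S` contains `t` and the `Φ (a i) t x_i`, so they do not generate `R`; `ne`: `Φ (a i) t (x i) = x i` for
`x i` of the right type.  `St_Bkl`. -/
def St_Lgb : Prop := ∀ (n : ℕ) (R : Type) [NonUnitalRing R] [Finite R], 4 ≤ n → InM n R →
  ¬ Twn R → LGen R n → Critical R

end Pool.Agent.CRM
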