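import Pool.Agent.CRM.Defs5
import Pool.Agent.CRM.Std

/-!
Campaign CRM (problem MP_1bb14d_al, stage 4).  Frozen statements, part 5: the second form of the criterion for
nilpotent and local rings.

Every module `Pool/Agent/CRM/<X>.lean` for a statement of this file imports this file and proves
`theorem thm_<X> : St_<X>`; see the header of `St.lean` for the rules.

Notation of the docstrings: `t^k = pw t (k - 1)`; `J` the nil elements; `W` the subring generated by `t`.
-/

set_option autoImplicit false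

namespace Pool.Agent.CRM

open Pool.Agent.CRR Pool.Agent.CRN Pool.Agent.CRK Pool.Agent.CRL

/-- **KJF** (from `St_Tyn`).  PROOF.  (1) Claim: `p^k R ⊆ S + J2 R` for all `k`, by descending induction (`p^r R = 0`): let `a ∈ R`,
`a = w + u`, `w` in the subring generated by the `t_i`, `u` nil (`CRL.gen`), `u = y + κ`, `y ∈ S`, `κ ∈ KJ`, `κ = j + p a'`, `j ∈ J2 R`
(these elements are a subgroup), so `p^k a = p^k (w + y) + p^k j + p^(k+1) a'`.  So (`k = 1`) `KJ ⊆ S + J2 R` and every nil `x` is
`y + j` with `y ∈ S`, `j ∈ J2 R`, and `y = x - j` is nil (`CRL.jil`).  `thm_Nac`.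
(2) `JW t ⊆ KJ`: a nil element `w` of `W`.  Let `t^N = e` (`St_Tyn`; `W` is the set of the integral combinations
`w = ∑_(i<N) c_i t^i`, `t^0 = e`).  Choose `m ≥ 2` with `p^m ≡ 1` modulo `N` (`N` prime to `p`; a multiple of `φ(N)`).  Modulo
`p W` we have `w^(p^m) ≡ ∑ c_i^(p^m) t^(i p^m) ≡ ∑ c_i t^i = w` (`W` commutative; Fermat), and `w^(p^m) = 0` (`p^m ≥ 3`), so
`w ∈ p W`.  (Other way: `CRL.gen`, or any proof that nil elements of `W` are in `p R`.)  `KJ ⊆ JW t`: `p a`, `a = w + u` with
`w ∈ W`, `u` nil: `p u = (p e) u` and `p w = (p e) w`, `p e` is nilpotent, so nil (`InM`), so `p w` is a nil element of `W` and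
`p u` a product of two nil elements. -/
def St_Kjf : Prop := ∀ (n p : ℕ) (R : Type) [NonUnitalRing R] [Finite R], Cy R n p →
  (∀ (s : ℕ) (t : Fin s → R), Frame R n s t → ∀ S : NonUnitalSubring R, (∀ i, t i ∈ S) →
    (∀ x, Nl x → ∃ y ∈ S, x - y ∈ KJ R p) → S = ⊤) ∧
  ∀ e : R, Prm R e → (∀ x, e * x = x ∧ x * e = x) → ∀ t : R, Frame R n 1 (fun _ => t) →
    JW t = KJ R p

/-- **NFF** (from `St_Fle`).  Nilpotent critical rings.  PROOF.  As `thm_Ngf`: `H`, `Gc n 0 b H φ`, the minimal number `g` of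
generators, `ι`, and the function `F₀ x = φ (fun k => x (ι k)) = Vg L x`, not zero.  Let `P` be the set of the functions
`F : (Fin g → R) → R` of the form `Vg L`, all words of `L` nonempty with letters `< g`, with: (i) the values are in `H`;
(ii) `F x = F y` if all `x i - y i ∈ KJ R p`; (iii) `F x = 0` if the `x i` do not generate `R`.  `F₀ ∈ P`: for (ii) `φ` is
additive, zero on `Sq R`, and `p H = 0` (`{h ∈ H | p h = 0}` is a nonzero ideal), so `φ` is zero if a variable is `p a`.
For `i < j` let `(N F) x = F (update x j (x j + x i)) - F x`; then `N F ∈ P` ((iii): the new elements are in the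
subring generated by the old ones).  If `F = Vg L` then `N F = Vg L'`, `L'` = for every word `w` of `L` the words obtained
from `w` by replacing the letter `j` by `i` at a nonempty set of places.  The weight of a word is the sum of its
letters (numbers); the words of `L'` have smaller weight.  By induction on `m`: if `0 ≠ F ∈ P` and all words have
weight `≤ m` then there is `0 ≠ G ∈ P` with `N G = 0` for all `i < j`.
For this `G`, fixed `x` and `j` the `y` with `G (update x j (u + y)) = G (update x j u)` for all `u` are a subgroup, which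
contains `KJ` and the `x i`, `i < j`.  Now change `L`: `G x = 0` if `x k = 0` for some `k` (`g` is minimal, (iii)), so the words
which do not contain all letters `k < g` may be removed (for one `k` after the other: the sum of the words
without `k` is `G (update x k 0) = 0`); then remove those with a letter occurring `≥ 4` times (`St_Fle`) and, if the
order is prime to 6, those of length `≥ 6` (`CRL.bnd`); as in `thm_Ngf`. -/
def St_Nff : Prop := ∀ (n p : ℕ) (R : Type) [NonUnitalRing R] [Finite R], Cy R n p →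
  (∀ x : R, x * x * x = 0) → Critical R → NFl R

/-- **NFB** (from `St_Kjf`).  PROOF.  `Cy R 4 p` (`a = a b a` implies `a = (a b)^3 a = 0`, so not `Twn`).  Let the `x i`, `i < g`, not
generate `R`; claim: `Vg L x = 0`.  `M_j = KJ ⊔ closure {x i | i < j}`.  If `x j ∉ M_j` for all `j < g` then `|M_(j+1)| ≥ p |M_j|`
(`p x j ∈ M_j`), `|M_g| ≥ p^g |KJ|`; on the other hand `R = KJ ⊔ closure (range y)` for a generating `y : Fin g → R`, and
`R / KJ` is killed by `p`, so `|R| ≤ p^g |KJ|`.  So `M_g = R`, and `St_Kjf` (1) with `s = 0`, `S` the subring generated by the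
`x i`, gives a contradiction.  So `x j ∈ M_j` for some `j`; `y = - x j`: `Vg L x = Vg L (update x j 0) = 0` (every word
contains `j`).  Then as `thm_Ngb`. -/
def St_Nfb : Prop := ∀ (R : Type) [NonUnitalRing R] [Finite R], NFl R → Critical R

/-- **FOI.**  As `St_Fou` with more properties.  PROOF.  The same `Φ j t x = c ∑_(k<N) t^(r_j k) x t^k`.  `Φ j t x = 0` for `x` of type
`j' ≠ j`: the items are `t^((j' - j) k) x` (exponents modulo `N`), and `∑_k t^(m k) = 0` for `m` not divisible by `N`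
(multiply with the invertible `t^m - e`).  Ideals: clear. -/
def St_Foi : Prop := ∀ (n p : ℕ) (R : Type) [NonUnitalRing R] [Finite R], Cy R n p →
  ∀ e : R, Prm R e → (∀ x, e * x = x ∧ x * e = x) → ∀ N : ℕ, 1 ≤ N → N.Coprime p →
  ∃ Φ : ℕ → R → R → R, (∀ t : R, pw t (N - 1) = e → (∀ k, 0 < k → k < N →
      ∃ u, u * (pw t (k - 1) - e) = e) → ∀ x : R,
      (∀ j, j < N → Φ j t x * t = pw t j * Φ j t x) ∧
      (∀ j, j < N → x * t = pw t j * x → Φ j t x = x) ∧
      (∀ j j', j < N → j' < N → j ≠ j' → x * t = pw t j' * x → Φ j t x = 0) ∧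
      x = ∑ j ∈ Finset.range N, Φ j t x) ∧
    (∀ j t x, Nl x → Nl (Φ j t x)) ∧ (∀ j t x y, Φ j t (x + y) = Φ j t x + Φ j t y) ∧
    (∀ (S : NonUnitalSubring R) j t x, t ∈ S → x ∈ S → Φ j t x ∈ S) ∧
    (∀ I : AddSubgroup R, Idl R I → ∀ j t x, x ∈ I → Φ j t x ∈ I)

/-- `M_j = KJ + ∑_(i<j) W x_i`. -/
def Mj {R : Type} [NonUnitalRing R] (p : ℕ) {g : ℕ} (t : R) (x : Fin g → R) (j : Fin g) :
    AddSubgroup R := KJ R p ⊔ AddSubgroup.closure
      {w | ∃ i, i < j ∧ ∃ u ∈ NonUnitalSubring.closure ({t} : Set R), w = u * x i}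

/-- **DMK** (from `St_Tyn`, `St_Kjf`).  Dimensions.  PROOF.  `J` is an ideal (`CRL.jil`), `q = |R / J|` (`[R : J]`, `≥ 2` because `e` is not
nil).  `W` the subring generated by `t`, `M_j = Mj p t x j` and `M_g = KJ + ∑_i W x i`; `R = W + J` (`CRL.gen`), so `[W : W ∩ J] = q`;
`W M_j ⊆ M_j`, `J x_i ⊆ J2 R ⊆ KJ`.  (1) Every nil element is in `M_g`: the elements `w + m`, `w ∈ W`, `m ∈ M_g`, are a subring
(`(W + M_g)(W + M_g) ⊆ W + M_g`: `x i u' = u'' x i` with `u'' ∈ W` for `u' ∈ W`, because `x i` has a type; `M_g M_g ⊆ J2 R`) which contains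
`t` and the `x i`, so it is `R`; if `w + m` is nil then `w` is nil, `w ∈ JW t = KJ` (`St_Kjf` (2)).  The map `W → M_(j+1) / M_j`,
`u ↦ u x j`, is surjective and zero on `W ∩ J`, so `[M_(j+1) : M_j] ≤ q`.  (2) If `x j ∉ M_j` then the kernel of this map is
`W ∩ J`: a `u ∈ W` which is not nil has `v u = e` with `v ∈ W` (`u` is invertible, `CRL.thm_Prl`, and a power of `u` is `e`, as `R`
is finite), and `x j = v u x j ∈ M_j` if `u x j ∈ M_j`.  So `[M_(j+1) : M_j] = q`, `|M_g| = q^g |KJ|`, `M_g ⊆ J`.  If `|J| ≤ q^g |KJ|` then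
`M_g = J`, and by `St_Kjf` (1) `t` and the `x i` generate `R`.  (3) By (1) `J = M_g = KJ + ∑_(i ≠ j) W x i`, `St_Kjf` (1). -/
def St_Dmk : Prop := ∀ (n p : ℕ) (R : Type) [NonUnitalRing R] [Finite R], Cy R n p →
  ∀ e : R, Prm R e → (∀ x, e * x = x ∧ x * e = x) → ∃ q : ℕ, 2 ≤ q ∧
    (∀ (g : ℕ) (a : Fin g → ℕ) (t : R) (x : Fin g → R), Ty n a t x →
      (NonUnitalSubring.closure ({t} ∪ Set.range x) = ⊤ →
        Nat.card {y : R // Nl y} ≤ q ^ g * Nat.card (KJ R p)) ∧
      ((∀ j, x j ∉ Mj p t x j) → q ^ g * Nat.card (KJ R p) ≤ Nat.card {y : R // Nl y} ∧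
        (Nat.card {y : R // Nl y} ≤ q ^ g * Nat.card (KJ R p) →
          NonUnitalSubring.closure ({t} ∪ Set.range x) = ⊤))) ∧
    ∀ (g : ℕ) (a : Fin (g + 1) → ℕ) (t : R) (x : Fin (g + 1) → R), Ty n a t x →
      NonUnitalSubring.closure ({t} ∪ Set.range x) = ⊤ → ∀ j, x j ∈ Mj p t x j →
      NonUnitalSubring.closure ({t} ∪ Set.range fun i => x (j.succAbove i)) = ⊤

/-- **LFF** (from `St_Fle`, `St_Tyn`, `St_Foi`, `St_Kjf`, `St_Dmk`).  Local critical rings.  PROOF.  As `thm_Lgf`: `H`, `Gc n 1 b H φ`, `N`, `Φ`, a frame `t₀`,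
the minimal `g`, types `a i < N`, and `F₀ (t, x) = φ (t, (t^(d_k) x_(ι k))_k) = Vl L t x` for `Ty n a t x`.  Let `P` be the set of
the functions `F (t, x)` on the pairs with `Ty n a t x`, of the form `Vl L t x`, all items `(c, d, w)` of `L` with `d + |w| ≥ 1` and
letters `< g`, with: (i) values in `H`; (ii) `F (t, x) = F (t, y)` if all `x i - y i ∈ KJ R p` (`= JW t`, `St_Kjf` (2)); (iii)
`F (t, x) = 0` if `t` and the `x i` do not generate `R`.  For `i < j` with `a i = a j`, and `d < N`, let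
`(N F) (t, x) = F (t, update x j (x j + t^d x i)) - F (t, x)` (`t^0 x = x`).  `N F ∈ P`; its items: in an item `t^c w` replace the
letter `j` by `t^d i` at a nonempty set of places and move the `t^d` to the left (`x_k t = t^(a k + 1) x_k`).  The weight
argument of `St_Nff` gives `0 ≠ F ∈ P` with `N F = 0` for all `i < j`, `a i = a j`, `d < N`.
Invariance: for fixed `t`, `x`, `j` the nil `y` of type `a j` with `F (t, update x j (u + y)) = F (t, update x j u)` for all nil `u`
of type `a j` are a subgroup.  It contains the elements of `KJ` of type `a j` and the `t^d x i`, `i < j`, `a i = a j`.  Let `y` be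
nil of type `a j`, `y = κ + ∑ u_m x_(i_m)`, `κ ∈ KJ`, `u_m ∈ W`, `i_m < j`.  Then `y = Φ (a j) t y = Φ κ + ∑ Φ (u_m x_(i_m))`,
`Φ κ ∈ KJ` (an ideal), `Φ (u_m x_(i_m)) = u_m x_(i_m)` if `a (i_m) = a j` and `0` otherwise (`St_Foi`), `u_m` is an integral
combination of the `t^d`.  The items: as in `St_Nff` and `thm_Lgf` (`F (t, x) = 0` if `x k = 0` for some `k`: otherwise `t` and the `x i`, `i ≠ k`, generate `R`, so by
`St_Dmk` (1) `|J| ≤ q^(g-1) |KJ|`; but the generators `z i` for `t₀` satisfy `z j ∉ M_j` by `St_Dmk` (3) and the minimality of `g`,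
so `|J| ≥ q^g |KJ|` by (2)); exponents are reduced modulo `N` to `≤ N ≤ n - 3`. -/
def St_Lff : Prop := ∀ (n p : ℕ) (R : Type) [NonUnitalRing R] [Finite R], Cy R n p →
  ∀ e : R, Prm R e → (∀ x, e * x = x ∧ x * e = x) → Critical R → LFl R n

/-- **LFB** (from `St_Kjf`, `St_Dmk`, `St_Lgb`).  PROOF.  We show `LGen R n`; `St_Lgb`.  `Cy R n p`.  Invariance under `JW t = KJ`
(`St_Kjf` (2)): replace the variables one by one.  Let `Ty n a t x`, and let `t` and the `x i` not generate `R`; claim:
`Vl L t x = 0`.  The generating pair of the definition gives `|J| ≤ q^g |KJ|` (`St_Dmk` (1)), so by `St_Dmk` (2) there is a `j` with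
`x j ∈ M_j`.  Take `y = - x j` (a nil element of type `a j` in `M_j`): `Vl L t x = Vl L t (update x j 0) = 0`, since every word
contains `j`. -/
def St_Lfb : Prop := ∀ (n : ℕ) (R : Type) [NonUnitalRing R] [Finite R], 4 ≤ n → InM n R →
  ¬ Twn R → LFl R n → Critical R

end Pool.Agent.CRM
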