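import Pool.Agent.CRM.Fou
import Pool.Agent.CRM.Ste

/-!
Campaign CRM, module FOI: the finite Fourier transform in a local ring, second form.
-/

set_option autoImplicit false

namespace Pool.Agent.CRM

open Pool.Agent.CRR Pool.Agent.CRN Pool.Agent.CRK Pool.Agent.CRL

theorem thm_Foi : St_Foi := by
  intro n p R _ _ hC e hPe he N hN hNp
  obtain ⟨r, hr⟩ := hC.pr
  have hpr : 1 < p ^ r := by
    rcases Nat.eq_zero_or_pos r with h0 | h0
    · exfalso
      apply hPe.2.1
      have := hr e
      rwa [h0, pow_zero, one_nsmul] at this
    · exact Nat.one_lt_pow h0.ne' hC.pp.one_lt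
  obtain ⟨c, -, hc⟩ := Nat.exists_mul_mod_eq_one_of_coprime (hNp.pow_right r) hpr
  have hcN : ∀ x : R, c • (N • x) = x := by
    intro x
    rw [← mul_nsmul, ← Nat.div_add_mod (N * c) (p ^ r), hc, add_nsmul, one_nsmul, mul_nsmul', hr,
      zero_add]
  obtain ⟨J, hJ, hJm⟩ := CRL.jil n hC.n4 R hC.inM hC.nt
  have he1 : ∀ x : R, e * x = x := fun x => (he x).1
  have he2 : ∀ x : R, x * e = x := fun x => (he x).2
  refine ⟨fun j t x => c • ∑ k ∈ Finset.range N, FouF e (N - 1 - j) t x k, ?_, ?_, ?_, ?_, ?_⟩
  · intro t htN hinv x
    have hPN : FouP e t N = e := by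
      obtain ⟨m, rfl⟩ : ∃ m, N = m + 1 := ⟨N - 1, by omega⟩
      rw [Fou_pw he1]
      exact htN
    have hper : ∀ a k : ℕ, FouP e t (a + N * k) = FouP e t a := by
      intro a k
      rw [Fou_add he2, Fou_one he2 hPN, he2]
    refine ⟨?_, ?_, ?_, ?_⟩
    · intro j hj
      show (c • ∑ k ∈ Finset.range N, FouF e (N - 1 - j) t x k) * t =
        pw t j * (c • ∑ k ∈ Finset.range N, FouF e (N - 1 - j) t x k)
      rw [smul_mul_assoc, mul_smul_comm, Finset.sum_mul, Finset.mul_sum]
      congr 1
      obtain ⟨g, hg⟩ : ∃ g : ℕ → R, g = fun k => pw t j * FouF e (N - 1 - j) t x k := ⟨_, rfl⟩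
      have h1 : ∀ k, FouF e (N - 1 - j) t x k * t = g (k + 1) := by
        intro k
        rw [hg]
        show FouP e t ((N - 1 - j) * k) * x * FouP e t k * t =
          pw t j * (FouP e t ((N - 1 - j) * (k + 1)) * x * (FouP e t k * t))
        rw [← Fou_pw he1 j]
        have h2 : FouP e t (j + 1) * FouP e t ((N - 1 - j) * (k + 1)) =
            FouP e t ((N - 1 - j) * k) := by
          rw [← Fou_add he2, ← hper ((N - 1 - j) * k) 1]
          congr 1
          rw [Nat.mul_succ]
          omega
        rw [← h2]
        simp only [mul_assoc]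
      have h3 : g N = g 0 := by
        rw [hg]
        show pw t j * (FouP e t ((N - 1 - j) * N) * x * FouP e t N) =
          pw t j * (FouP e t ((N - 1 - j) * 0) * x * FouP e t 0)
        have h4 := hper 0 (N - 1 - j)
        rw [zero_add] at h4
        rw [Nat.mul_comm (N - 1 - j) N, h4, hPN]
        rfl
      have h5 : ∑ k ∈ Finset.range N, g (k + 1) = ∑ k ∈ Finset.range N, g k := by
        have h6 := Finset.sum_range_succ g N
        rw [Finset.sum_range_succ', h3] at h6
        exact add_right_cancel h6
      rw [Finset.sum_congr rfl fun k _ => h1 k, h5, hg]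
    · intro j hj hx
      show c • ∑ k ∈ Finset.range N, FouF e (N - 1 - j) t x k = x
      have h1 : ∀ k, x * FouP e t k = FouP e t ((j + 1) * k) * x := by
        intro k
        induction k with
        | zero =>
          show x * e = e * x
          rw [he1, he2]
        | succ k ih =>
          show x * (FouP e t k * t) = FouP e t ((j + 1) * (k + 1)) * x
          rw [← mul_assoc, ih, mul_assoc, hx, ← Fou_pw he1 j, ← mul_assoc, ← Fou_add he2]
          rfl
      have h2 : ∀ k, FouF e (N - 1 - j) t x k = x := by
        intro k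
        show FouP e t ((N - 1 - j) * k) * x * FouP e t k = x
        rw [mul_assoc, h1, ← mul_assoc, ← Fou_add he2, ← Nat.add_mul]
        have h3 : N - 1 - j + (j + 1) = N := by omega
        rw [h3, Fou_one he2 hPN, he1]
      rw [Finset.sum_congr rfl fun k _ => h2 k, Finset.sum_const, Finset.card_range]
      exact hcN x
    · intro j j' hj hj' hne hx
      show c • ∑ k ∈ Finset.range N, FouF e (N - 1 - j) t x k = 0
      have h1 : ∀ k, x * FouP e t k = FouP e t ((j' + 1) * k) * x := by
        intro k
        induction k with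
        | zero =>
          show x * e = e * x
          rw [he1, he2]
        | succ k ih =>
          show x * (FouP e t k * t) = FouP e t ((j' + 1) * (k + 1)) * x
          rw [← mul_assoc, ih, mul_assoc, hx, ← Fou_pw he1 j', ← mul_assoc, ← Fou_add he2]
          rfl
      obtain ⟨m, hm0, hmN, hmk⟩ : ∃ m, 0 < m ∧ m < N ∧
          ∀ k, FouP e t ((N - 1 - j + (j' + 1)) * k) = FouP e t (m * k) := by
        rcases Nat.lt_or_ge j j' with h | h
        · refine ⟨j' - j, by omega, by omega, fun k => ?_⟩
          have h3 : N - 1 - j + (j' + 1) = (j' - j) + N := by omega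
          rw [h3, Nat.add_mul, hper]
        · refine ⟨N - 1 - j + (j' + 1), by omega, by omega, fun k => rfl⟩
      have h2 : ∀ k, FouF e (N - 1 - j) t x k = FouP e t (m * k) * x := by
        intro k
        show FouP e t ((N - 1 - j) * k) * x * FouP e t k = FouP e t (m * k) * x
        rw [mul_assoc, h1, ← mul_assoc, ← Fou_add he2, ← Nat.add_mul, hmk]
      rw [Finset.sum_congr rfl fun k _ => h2 k, ← Finset.sum_mul]
      obtain ⟨u, hu⟩ := hinv m hm0 hmN
      have hpk : pw t (m - 1) = FouP e t m := by
        obtain ⟨q, rfl⟩ : ∃ q, m = q + 1 := ⟨m - 1, by omega⟩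
        rw [Fou_pw he1]
        rfl
      rw [hpk] at hu
      have h4 : (FouP e t m - e) * ∑ i ∈ Finset.range N, FouP e t (m * i) = 0 := by
        rw [sub_mul, he1, Finset.mul_sum]
        have h5 : ∀ i, FouP e t m * FouP e t (m * i) = FouP e t (m * (i + 1)) := by
          intro i
          rw [← Fou_add he2]
          congr 1
          ring
        rw [Finset.sum_congr rfl fun i _ => h5 i]
        have h6 := Finset.sum_range_succ (fun i => FouP e t (m * i)) N
        rw [Finset.sum_range_succ'] at h6
        have h7 : FouP e t (m * N) = FouP e t (m * 0) := by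
          rw [Nat.mul_comm m N, Fou_one he2 hPN, Nat.mul_zero]
          rfl
        rw [h7] at h6
        rw [add_right_cancel h6, sub_self]
      have h8 : ∑ i ∈ Finset.range N, FouP e t (m * i) = 0 := by
        have h9 := congrArg (u * ·) h4
        rw [← mul_assoc, hu, he1, mul_zero] at h9
        exact h9
      rw [h8, zero_mul, smul_zero]
    · show x = ∑ j ∈ Finset.range N, c • ∑ k ∈ Finset.range N, FouF e (N - 1 - j) t x k
      rw [← Finset.smul_sum, Finset.sum_comm]
      have h1 : ∀ k ∈ Finset.range N, ∑ j ∈ Finset.range N, FouF e (N - 1 - j) t x k =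
          if k = 0 then N • x else 0 := by
        intro k hk
        have hk' := Finset.mem_range.1 hk
        have h2 : ∑ j ∈ Finset.range N, FouF e (N - 1 - j) t x k =
            (∑ i ∈ Finset.range N, FouP e t (i * k)) * x * FouP e t k := by
          rw [← Finset.sum_range_reflect (fun i => FouP e t (i * k)) N, Finset.sum_mul,
            Finset.sum_mul]
          rfl
        rw [h2]
        by_cases h0 : k = 0
        · rw [if_pos h0, h0]
          have h3 : ∀ i, FouP e t (i * 0) = e := fun _ => rfl
          rw [Finset.sum_congr rfl fun i _ => h3 i, Finset.sum_const, Finset.card_range]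
          show N • e * x * e = N • x
          rw [he2, smul_mul_assoc, he1]
        · rw [if_neg h0]
          obtain ⟨u, hu⟩ := hinv k (Nat.pos_of_ne_zero h0) hk'
          have hpk : pw t (k - 1) = FouP e t k := by
            obtain ⟨m, rfl⟩ : ∃ m, k = m + 1 := ⟨k - 1, by omega⟩
            rw [Fou_pw he1]
            rfl
          rw [hpk] at hu
          have h4 : (FouP e t k - e) * ∑ i ∈ Finset.range N, FouP e t (i * k) = 0 := by
            rw [sub_mul, he1, Finset.mul_sum]
            have h5 : ∀ i, FouP e t k * FouP e t (i * k) = FouP e t ((i + 1) * k) := by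
              intro i
              rw [← Fou_add he2]
              congr 1
              ring
            rw [Finset.sum_congr rfl fun i _ => h5 i]
            have h6 := Finset.sum_range_succ (fun i => FouP e t (i * k)) N
            rw [Finset.sum_range_succ'] at h6
            have h7 : FouP e t (N * k) = FouP e t (0 * k) := by
              rw [Fou_one he2 hPN, Nat.zero_mul]
              rfl
            rw [h7] at h6
            rw [add_right_cancel h6, sub_self]
          have h8 : ∑ i ∈ Finset.range N, FouP e t (i * k) = 0 := by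
            have h9 := congrArg (u * ·) h4
            rw [← mul_assoc, hu, he1, mul_zero] at h9
            exact h9
          rw [h8, zero_mul, zero_mul]
      rw [Finset.sum_congr rfl h1, Finset.sum_ite_eq' (Finset.range N) 0 fun _ => N • x,
        if_pos (Finset.mem_range.2 hN), hcN]
  · intro j t x hx
    have hxJ := (hJm _).2 hx
    refine (hJm _).1 (J.nsmul_mem (J.sum_mem fun k _ => ?_) c)
    exact (hJ _ _ (hJ _ _ hxJ).1).2
  · intro j t x y
    show c • ∑ k ∈ Finset.range N, FouF e (N - 1 - j) t (x + y) k =
      c • ∑ k ∈ Finset.range N, FouF e (N - 1 - j) t x k +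
        c • ∑ k ∈ Finset.range N, FouF e (N - 1 - j) t y k
    rw [← smul_add, ← Finset.sum_add_distrib]
    congr 1
    refine Finset.sum_congr rfl fun k _ => ?_
    show FouP e t ((N - 1 - j) * k) * (x + y) * FouP e t k =
      FouP e t ((N - 1 - j) * k) * x * FouP e t k + FouP e t ((N - 1 - j) * k) * y * FouP e t k
    rw [mul_add, add_mul]
  · intro S j t x ht hx
    exact S.nsmul_mem (S.sum_mem fun k _ => Fou_mem he S ht hx _ _) c
  · intro I hI j t x hx
    exact I.nsmul_mem (I.sum_mem fun k _ => (hI _ _ (hI _ _ hx).1).2) c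

end Pool.Agent.CRM
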