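import Pool.Agent.CRM.Stb
import Pool.Agent.CRN.Opp

set_option autoImplicit false

namespace Pool.Agent.CRM

open Pool.Agent.CRR Pool.Agent.CRN Pool.Agent.CRK Pool.Agent.CRL MulOpposite

section

variable {R : Type} [NonUnitalRing R]

theorem Fop_rev_rev (t : RTerm) : Opp_rev (Opp_rev t) = t := by
  induction t with
  | var i => rfl
  | add s t hs ht => simp [Opp_rev, hs, ht]
  | neg s hs => simp [Opp_rev, hs]
  | mul s t hs ht => simp [Opp_rev, hs, ht]

theorem Fop_nl (x : Rᵐᵒᵖ) : Nl x ↔ Nl (unop x) := by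
  have h : unop (x * x * x) = unop x * unop x * unop x := by
    rw [unop_mul, unop_mul, mul_assoc]
  constructor
  · intro hx
    have h1 : x * x * x = 0 := hx
    rw [h1] at h
    exact h.symm
  · intro hx
    have h1 : unop x * unop x * unop x = 0 := hx
    rw [h1] at h
    exact unop_injective h

theorem Fop_om (n : ℕ) (x : Rᵐᵒᵖ) : om n x = op (om n (unop x)) := Opp_pw x _

theorem Fop_card : Nat.card Rᵐᵒᵖ = Nat.card R := Nat.card_congr opEquiv.symm

theorem Fop_frame (n s : ℕ) (t : Fin s → R) (h : Frame R n s t) :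
    Frame Rᵐᵒᵖ n s (fun i => op (t i)) where
  orth i j hij := by
    rw [← op_mul, h.orth j i hij.symm, op_zero]
  ne i h0 := h.ne i (op_injective h0)
  per i := by
    obtain ⟨m, h1, h2, h3⟩ := h.per i
    refine ⟨m, h1, ?_, ?_⟩
    · rw [Fop_card]
      exact h2
    · rw [Opp_pw, unop_op, h3]
  gen i x hx hx' := by
    rw [Fop_om, unop_op] at hx hx'
    rcases h.gen i (unop x) (congrArg unop hx') (congrArg unop hx) with h1 | ⟨k, h1⟩
    · left
      exact (Fop_nl x).2 h1
    · right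
      refine ⟨k, (Fop_nl _).2 ?_⟩
      rw [unop_sub, Opp_pw, unop_op, unop_op]
      exact h1
  max g hg hg' := by
    have h1 := h.max (unop g) (congrArg unop hg) fun i =>
      ⟨congrArg unop (hg' i).2, congrArg unop (hg' i).1⟩
    exact unop_injective h1

theorem Fop_frame' (n s : ℕ) (t : Fin s → Rᵐᵒᵖ) (h : Frame Rᵐᵒᵖ n s t) :
    Frame R n s (fun i => unop (t i)) where
  orth i j hij := congrArg unop (h.orth j i hij.symm)
  ne i h0 := h.ne i (unop_injective h0)
  per i := by
    obtain ⟨m, h1, h2, h3⟩ := h.per i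
    refine ⟨m, h1, ?_, ?_⟩
    · rw [Fop_card] at h2
      exact h2
    · rw [Opp_pw] at h3
      exact congrArg unop h3
  gen i x hx hx' := by
    rcases h.gen i (op x) (by rw [Fop_om, ← op_mul, hx']) (by rw [Fop_om, ← op_mul, hx])
      with h1 | ⟨k, h1⟩
    · left
      exact (Fop_nl (op x)).1 h1
    · right
      refine ⟨k, ?_⟩
      have h2 := (Fop_nl _).1 h1
      rw [unop_sub, Opp_pw, unop_op, unop_op] at h2
      exact h2
  max g hg hg' := by
    have h1 := h.max (op g) (congrArg op hg) fun i =>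
      ⟨congrArg op (hg' i).2, congrArg op (hg' i).1⟩
    exact op_injective h1

theorem Fop_pc {s : ℕ} (n : ℕ) (t : Fin s → R) (α β : Option (Fin s)) (x : R)
    (h : Pc (fun i => om n (t i)) α β x) :
    Pc (fun i => om n (op (t i))) β α (op x) := by
  constructor
  · intro i
    show om n (op (t i)) * op x = _
    rw [Fop_om, unop_op, ← op_mul]
    have h1 := h.2 i
    have h2 : x * om n (t i) = if β = some i then x else 0 := h1
    rw [h2]
    split <;> rfl
  · intro j
    show op x * om n (op (t j)) = _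
    rw [Fop_om, unop_op, ← op_mul]
    have h1 := h.1 j
    have h2 : om n (t j) * x = if α = some j then x else 0 := h1
    rw [h2]
    split <;> rfl

/-- conjugation with op -/
def Fop_c : AddMonoid.End R →+* AddMonoid.End Rᵐᵒᵖ where
  toFun D := ((opAddEquiv (α := R)).toAddMonoidHom.comp D).comp (opAddEquiv (α := R)).symm.toAddMonoidHom
  map_one' := by ext x; rfl
  map_mul' D E := by ext x; rfl
  map_zero' := by ext x; rfl
  map_add' D E := by ext x; rfl

theorem Fop_c_apply (D : AddMonoid.End R) (x : R) : Fop_c D (op x) = op (D x) := rfl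

theorem Fop_ops {s : ℕ} (t : Fin s → R) (α β : Option (Fin s)) (D : AddMonoid.End R)
    (hD : D ∈ Ops t α β) : Fop_c D ∈ Ops (fun i => op (t i)) β α := by
  have hle : Ops t α β ≤ (Ops (fun i => op (t i)) β α).comap Fop_c := by
    unfold Ops
    rw [Subring.closure_le]
    rintro D (⟨i, hi, rfl⟩ | ⟨j, hj, rfl⟩)
    · apply Subring.subset_closure
      right
      refine ⟨i, hi, ?_⟩
      ext x
      rfl
    · apply Subring.subset_closure
      left
      refine ⟨j, hj, ?_⟩
      ext x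
      rfl
  exact hle hD

theorem Fop_ops' {s : ℕ} (t : Fin s → R) (α β : Option (Fin s)) (E : AddMonoid.End Rᵐᵒᵖ)
    (hE : E ∈ Ops (fun i => op (t i)) β α) : ∃ D ∈ Ops t α β, E = Fop_c D := by
  have hle : Ops (fun i => op (t i)) β α ≤ (Ops t α β).map Fop_c := by
    unfold Ops
    rw [Subring.closure_le]
    rintro D (⟨i, hi, rfl⟩ | ⟨j, hj, rfl⟩)
    · refine ⟨AddMonoid.End.mulRight (t i), Subring.subset_closure (Or.inr ⟨i, hi, rfl⟩), ?_⟩
      ext x
      rfl
    · refine ⟨AddMonoid.End.mulLeft (t j), Subring.subset_closure (Or.inl ⟨j, hj, rfl⟩), ?_⟩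
      ext x
      rfl
  obtain ⟨D, hD, h⟩ := hle hE
  exact ⟨D, hD, h.symm⟩

theorem Fop_pur (p : ℕ) {s : ℕ} (t : Fin s → R) (α β : Option (Fin s)) (x : R)
    (h : Pur p t α β x) : Pur p (fun i => op (t i)) β α (op x) := by
  intro E hE
  obtain ⟨D, hD, rfl⟩ := Fop_ops' t α β E hE
  rcases h D hD with ⟨D', hD', h1⟩ | ⟨D', hD', h1⟩
  · left
    refine ⟨Fop_c D', Fop_ops t α β D' hD', ?_⟩
    rw [Fop_c_apply, Fop_c_apply, h1, op_smul]
  · right
    refine ⟨Fop_c D', Fop_ops t α β D' hD', ?_⟩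
    rw [Fop_c_apply, Fop_c_apply, h1]

theorem Fop_vec (n s b : ℕ) (v : ℕ → Rᵐᵒᵖ) (h : Vec n s b v) :
    Vec n s b (fun i => unop (v i)) :=
  ⟨Fop_frame' n s (fun i => v i) h.1, fun k hk => (Fop_nl _).1 (h.2 k hk)⟩

theorem Fop_vec' (n s b : ℕ) (v : ℕ → R) (h : Vec n s b v) :
    Vec n s b (fun i => op (v i)) :=
  ⟨Fop_frame n s (fun i => v i) h.1, fun k hk => (Fop_nl _).2 (h.2 k hk)⟩

theorem Fop_upd (v : ℕ → Rᵐᵒᵖ) (k : ℕ) (y : Rᵐᵒᵖ) :
    (fun i => unop (Function.update v k y i)) = Function.update (fun i => unop (v i)) k (unop y) := by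
  funext i
  by_cases h : i = k
  · subst h
    simp
  · simp [Function.update_of_ne h]

/-- the preimage of a subring -/
def Fop_sub (S : NonUnitalSubring Rᵐᵒᵖ) : NonUnitalSubring R where
  carrier := {x | op x ∈ S}
  add_mem' := fun {x y} hx hy => S.add_mem hx hy
  zero_mem' := S.zero_mem
  mul_mem' := fun {x y} hx hy => S.mul_mem hy hx
  neg_mem' := fun {x} hx => S.neg_mem hx

/-- the preimage of a subring -/
def Fop_sub' (S : NonUnitalSubring R) : NonUnitalSubring Rᵐᵒᵖ where
  carrier := {x | unop x ∈ S}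
  add_mem' := fun {x y} hx hy => S.add_mem hx hy
  zero_mem' := S.zero_mem
  mul_mem' := fun {x y} hx hy => S.mul_mem hy hx
  neg_mem' := fun {x} hx => S.neg_mem hx

theorem Fop_sub_ne (S : NonUnitalSubring Rᵐᵒᵖ) (hS : S ≠ ⊤) : Fop_sub S ≠ ⊤ := by
  intro h
  apply hS
  rw [eq_top_iff]
  intro x _
  have h1 : unop x ∈ Fop_sub S := by
    rw [h]
    exact NonUnitalSubring.mem_top _
  exact h1

theorem Fop_gz (n s b : ℕ) (H : AddSubgroup R) (φ : (ℕ → R) → R) (h : Gz n s b H φ) :
    Gz n s b (H.comap (opAddEquiv (α := R)).symm.toAddMonoidHom)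
      (fun v : ℕ → Rᵐᵒᵖ => op (φ fun i => unop (v i))) where
  tm := by
    obtain ⟨t, ht⟩ := h.tm
    refine ⟨Opp_rev t, fun v => ?_⟩
    rw [Opp_eval, Fop_rev_rev, ht]
  dep v v' hv := by
    show op _ = op _
    congr 1
    exact h.dep _ _ fun i hi => congrArg unop (hv i hi)
  val v hv := h.val _ (Fop_vec n s b v hv)
  van v hv S hS hvS := by
    show op _ = 0
    rw [h.van _ (Fop_vec n s b v hv) (Fop_sub S) (Fop_sub_ne S hS) hvS, op_zero]
  ne := by
    obtain ⟨v, hv, h1⟩ := h.ne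
    exact ⟨fun i => op (v i), Fop_vec' n s b v hv, fun h0 => h1 (op_injective h0)⟩

theorem Fop_gc (n s b : ℕ) (H : AddSubgroup R) (φ : (ℕ → R) → R) (h : Gc n s b H φ) :
    Gc n s b (H.comap (opAddEquiv (α := R)).symm.toAddMonoidHom)
      (fun v : ℕ → Rᵐᵒᵖ => op (φ fun i => unop (v i))) where
  toGz := Fop_gz n s b H φ h.toGz
  zer v hv k hk h0 := by
    show op _ = 0
    have h1 : unop (v (s + k)) = 0 := by rw [h0, unop_zero]
    rw [h.zer _ (Fop_vec n s b v hv) k hk h1, op_zero]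
  add v hv k hk y z hy hz := by
    show op _ = op _ + op _
    rw [Fop_upd, Fop_upd, Fop_upd, unop_add,
      h.add _ (Fop_vec n s b v hv) k hk (unop y) (unop z) ((Fop_nl y).1 hy) ((Fop_nl z).1 hz), op_add]
  sq v hv k hk y z hy hz := by
    show op _ = 0
    rw [Fop_upd, unop_mul,
      h.sq _ (Fop_vec n s b v hv) k hk (unop z) (unop y) ((Fop_nl z).1 hz) ((Fop_nl y).1 hy), op_zero]
  cf v hv k hk hm := by
    show op _ = 0
    have h1 : NonUnitalSubring.closure (fs s v) ≤
        Fop_sub' (NonUnitalSubring.closure (fs s fun i => unop (v i))) := by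
      rw [NonUnitalSubring.closure_le]
      rintro x ⟨i, hi, rfl⟩
      exact NonUnitalSubring.subset_closure ⟨i, hi, rfl⟩
    rw [h.cf _ (Fop_vec n s b v hv) k hk (h1 hm), op_zero]

theorem Fop_cy [Finite R] (n p : ℕ) (h : Cy R n p) : Cy Rᵐᵒᵖ n p where
  n4 := h.n4
  inM := (thm_Opp R).2.1 n h.inM
  nt := fun h1 => h.nt ((thm_Opp R).2.2.1 h1)
  pp := h.pp
  pr := by
    obtain ⟨r, hr⟩ := h.pr
    refine ⟨r, fun x => ?_⟩
    have h1 := hr (unop x)
    apply unop_injective
    rw [unop_smul, h1, unop_zero]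

theorem Fop_vx {s : ℕ} (t : Fin s → R) (x : ℕ → R) :
    (fun i => unop (vx (fun i => op (t i)) (fun k => op (x k)) i)) = vx t x := by
  funext i
  unfold vx
  split <;> rfl

end

theorem thm_Fop : St_Fop := by
  intro n p R _ _ s b H φ t x α β h
  refine ⟨H.comap (opAddEquiv (α := R)).symm.toAddMonoidHom,
    fun v : ℕ → Rᵐᵒᵖ => op (φ fun i => unop (v i)), ?_⟩
  exact
    { cy := Fop_cy n p h.cy
      lst := Opp_lst H h.lst
      gc := Fop_gc n s b H φ h.gc
      fr := Fop_frame n s t h.fr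
      jc := fun k => ⟨Fop_pc n t _ _ _ (h.jc k).1, (Fop_nl _).2 (h.jc k).2⟩
      pur := fun k => Fop_pur p t _ _ _ (h.pur k)
      out := fun k hk => by
        show op (x k) = 0
        rw [h.out k hk, op_zero]
      ne := by
        show op _ ≠ 0
        rw [Fop_vx]
        exact fun h0 => h.ne (op_injective h0) }

end Pool.Agent.CRM
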