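import Pool.Agent.CRM.Std
import Pool.Agent.CRL.All

/-!
Campaign CRM, module FOU: the finite Fourier transform in a local ring (helper36).
-/

set_option autoImplicit false

namespace Pool.Agent.CRM

open Pool.Agent.CRR Pool.Agent.CRN Pool.Agent.CRK Pool.Agent.CRL

section fou

variable {R : Type} [NonUnitalRing R]

/-- powers with `t^0 = e` -/
def FouP (e t : R) : ℕ → R
  | 0 => e
  | k + 1 => FouP e t k * t

theorem Fou_pw {e t : R} (he : ∀ x : R, e * x = x) (k : ℕ) : FouP e t (k + 1) = pw t k := by
  induction k with
  | zero =>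
    show e * t = t
    exact he t
  | succ k ih =>
    show FouP e t (k + 1) * t = pw t k * t
    rw [ih]

theorem Fou_add {e t : R} (he : ∀ x : R, x * e = x) (a b : ℕ) :
    FouP e t (a + b) = FouP e t a * FouP e t b := by
  induction b with
  | zero =>
    show FouP e t a = FouP e t a * e
    rw [he]
  | succ b ih =>
    show FouP e t (a + b) * t = FouP e t a * (FouP e t b * t)
    rw [ih, mul_assoc]

theorem Fou_one {e t : R} (he : ∀ x : R, x * e = x) {m : ℕ} (h : FouP e t m = e) (k : ℕ) :
    FouP e t (m * k) = e := by
  induction k with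
  | zero => rfl
  | succ k ih => rw [Nat.mul_succ, Fou_add he, ih, h, he]

/-- the items of the sum -/
def FouF (e : R) (r : ℕ) (t x : R) (k : ℕ) : R := FouP e t (r * k) * x * FouP e t k

theorem Fou_mem {e t x : R} (he : ∀ x : R, e * x = x ∧ x * e = x) (S : NonUnitalSubring R)
    (ht : t ∈ S) (hx : x ∈ S) (a b : ℕ) : FouP e t a * x * FouP e t b ∈ S := by
  have hp : ∀ k, FouP e t (k + 1) ∈ S := by
    intro k
    induction k with
    | zero =>
      show e * t ∈ S
      rw [(he t).1]
      exact ht
    | succ k ih => exact S.mul_mem ih ht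
  have h1 : FouP e t a * x ∈ S := by
    cases a with
    | zero =>
      show e * x ∈ S
      rw [(he x).1]
      exact hx
    | succ a => exact S.mul_mem (hp a) hx
  cases b with
  | zero =>
    show FouP e t a * x * e ∈ S
    rw [(he _).2]
    exact h1
  | succ b => exact S.mul_mem h1 (hp b)

theorem Fou_tm {e : R} (he : ∀ x : R, e * x = x ∧ x * e = x) {ψ χ : (ℕ → R) → R}
    (hψ : TmF ψ) (hχ : TmF χ) (a b : ℕ) :
    TmF (fun v => FouP e (ψ v) a * χ v * FouP e (ψ v) b) := by
  have h1 : TmF (fun v => FouP e (ψ v) a * χ v) := by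
    cases a with
    | zero =>
      have : (fun v => FouP e (ψ v) 0 * χ v) = χ := by
        funext v
        exact (he _).1
      rw [this]
      exact hχ
    | succ a =>
      have : (fun v => FouP e (ψ v) (a + 1) * χ v) = fun v => pw (ψ v) a * χ v := by
        funext v
        rw [Fou_pw fun x => (he x).1]
      rw [this]
      exact (hψ.pw a).mul hχ
  cases b with
  | zero =>
    have : (fun v => FouP e (ψ v) a * χ v * FouP e (ψ v) 0) = fun v => FouP e (ψ v) a * χ v := by
      funext v
      exact (he _).2
    rw [this]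
    exact h1
  | succ b =>
    have : (fun v => FouP e (ψ v) a * χ v * FouP e (ψ v) (b + 1)) =
        fun v => FouP e (ψ v) a * χ v * pw (ψ v) b := by
      funext v
      rw [Fou_pw fun x => (he x).1]
    rw [this]
    exact h1.mul (hψ.pw b)

theorem Fou_tm_sum (f : ℕ → (ℕ → R) → R) (hf : ∀ k, TmF (f k)) (m : ℕ) :
    TmF (fun v => ∑ k ∈ Finset.range m, f k v) := by
  induction m with
  | zero =>
    have : (fun v => ∑ k ∈ Finset.range 0, f k v) = fun _ : ℕ → R => (0 : R) := by
      funext v
      rw [Finset.sum_range_zero]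
    rw [this]
    exact TmF.zero
  | succ m ih =>
    have : (fun v => ∑ k ∈ Finset.range (m + 1), f k v) =
        fun v => ∑ k ∈ Finset.range m, f k v + f m v := by
      funext v
      rw [Finset.sum_range_succ]
    rw [this]
    exact ih.add (hf m)

theorem Fou_tm_smul {φ : (ℕ → R) → R} (h : TmF φ) (q : ℕ) : TmF (fun v => q • φ v) := by
  induction q with
  | zero =>
    have : (fun v => 0 • φ v) = fun _ : ℕ → R => (0 : R) := by
      funext v
      exact zero_nsmul _
    rw [this]
    exact TmF.zero
  | succ q ih =>
    have : (fun v => (q + 1) • φ v) = fun v : ℕ → R => q • φ v + φ v := by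
      funext v
      exact succ_nsmul _ _
    rw [this]
    exact ih.add h

end fou

theorem thm_Fou : St_Fou := by
  intro n p R _ _ hC e hPe he N hN hNp
  obtain ⟨r, hr⟩ := hC.pr
  have hpr : 1 < p ^ r := by
    rcases Nat.eq_zero_or_pos r with h0 | h0
    · exfalso
      apply hPe.2.1
      have := hr e
      rwa [h0, pow_zero, one_nsmul] at this
    · exact Nat.one_lt_pow h0.ne' hC.pp.one_lt
  obtain ⟨c, -, hc⟩ := Nat.exists_mul_mod_eq_one_of_coprime (hNp.pow_right r) hpr
  have hcN : ∀ x : R, c • (N • x) = x := by
    intro x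
    rw [← mul_nsmul, ← Nat.div_add_mod (N * c) (p ^ r), hc, add_nsmul, one_nsmul, mul_nsmul', hr,
      zero_add]
  obtain ⟨J, hJ, hJm⟩ := CRL.jil n hC.n4 R hC.inM hC.nt
  have he1 : ∀ x : R, e * x = x := fun x => (he x).1
  have he2 : ∀ x : R, x * e = x := fun x => (he x).2
  refine ⟨fun j t x => c • ∑ k ∈ Finset.range N, FouF e (N - 1 - j) t x k, ?_, ?_, ?_, ?_, ?_⟩
  · intro t htN hinv x
    have hPN : FouP e t N = e := by
      obtain ⟨m, rfl⟩ : ∃ m, N = m + 1 := ⟨N - 1, by omega⟩
      rw [Fou_pw he1]
      exact htN
    have hper : ∀ a k : ℕ, FouP e t (a + N * k) = FouP e t a := by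
      intro a k
      rw [Fou_add he2, Fou_one he2 hPN, he2]
    refine ⟨?_, ?_, ?_⟩
    · intro j hj
      show (c • ∑ k ∈ Finset.range N, FouF e (N - 1 - j) t x k) * t =
        pw t j * (c • ∑ k ∈ Finset.range N, FouF e (N - 1 - j) t x k)
      rw [smul_mul_assoc, mul_smul_comm, Finset.sum_mul, Finset.mul_sum]
      congr 1
      obtain ⟨g, hg⟩ : ∃ g : ℕ → R, g = fun k => pw t j * FouF e (N - 1 - j) t x k := ⟨_, rfl⟩
      have h1 : ∀ k, FouF e (N - 1 - j) t x k * t = g (k + 1) := by
        intro k
        rw [hg]
        show FouP e t ((N - 1 - j) * k) * x * FouP e t k * t =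
          pw t j * (FouP e t ((N - 1 - j) * (k + 1)) * x * (FouP e t k * t))
        rw [← Fou_pw he1 j]
        have h2 : FouP e t (j + 1) * FouP e t ((N - 1 - j) * (k + 1)) =
            FouP e t ((N - 1 - j) * k) := by
          rw [← Fou_add he2, ← hper ((N - 1 - j) * k) 1]
          congr 1
          rw [Nat.mul_succ]
          omega
        rw [← h2]
        simp only [mul_assoc]
      have h3 : g N = g 0 := by
        rw [hg]
        show pw t j * (FouP e t ((N - 1 - j) * N) * x * FouP e t N) =
          pw t j * (FouP e t ((N - 1 - j) * 0) * x * FouP e t 0)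
        have h4 := hper 0 (N - 1 - j)
        rw [zero_add] at h4
        rw [Nat.mul_comm (N - 1 - j) N, h4, hPN]
        rfl
      have h5 : ∑ k ∈ Finset.range N, g (k + 1) = ∑ k ∈ Finset.range N, g k := by
        have h6 := Finset.sum_range_succ g N
        rw [Finset.sum_range_succ', h3] at h6
        exact add_right_cancel h6
      rw [Finset.sum_congr rfl fun k _ => h1 k, h5, hg]
    · intro j hj hx
      show c • ∑ k ∈ Finset.range N, FouF e (N - 1 - j) t x k = x
      have h1 : ∀ k, x * FouP e t k = FouP e t ((j + 1) * k) * x := by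
        intro k
        induction k with
        | zero =>
          show x * e = e * x
          rw [he1, he2]
        | succ k ih =>
          show x * (FouP e t k * t) = FouP e t ((j + 1) * (k + 1)) * x
          rw [← mul_assoc, ih, mul_assoc, hx, ← Fou_pw he1 j, ← mul_assoc, ← Fou_add he2]
          rfl
      have h2 : ∀ k, FouF e (N - 1 - j) t x k = x := by
        intro k
        show FouP e t ((N - 1 - j) * k) * x * FouP e t k = x
        rw [mul_assoc, h1, ← mul_assoc, ← Fou_add he2, ← Nat.add_mul]
        have h3 : N - 1 - j + (j + 1) = N := by omega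
        rw [h3, Fou_one he2 hPN, he1]
      rw [Finset.sum_congr rfl fun k _ => h2 k, Finset.sum_const, Finset.card_range]
      exact hcN x
    · show x = ∑ j ∈ Finset.range N, c • ∑ k ∈ Finset.range N, FouF e (N - 1 - j) t x k
      rw [← Finset.smul_sum, Finset.sum_comm]
      have h1 : ∀ k ∈ Finset.range N, ∑ j ∈ Finset.range N, FouF e (N - 1 - j) t x k =
          if k = 0 then N • x else 0 := by
        intro k hk
        have hk' := Finset.mem_range.1 hk
        have h2 : ∑ j ∈ Finset.range N, FouF e (N - 1 - j) t x k =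
            (∑ i ∈ Finset.range N, FouP e t (i * k)) * x * FouP e t k := by
          rw [← Finset.sum_range_reflect (fun i => FouP e t (i * k)) N, Finset.sum_mul,
            Finset.sum_mul]
          rfl
        rw [h2]
        by_cases h0 : k = 0
        · rw [if_pos h0, h0]
          have h3 : ∀ i, FouP e t (i * 0) = e := fun _ => rfl
          rw [Finset.sum_congr rfl fun i _ => h3 i, Finset.sum_const, Finset.card_range]
          show N • e * x * e = N • x
          rw [he2, smul_mul_assoc, he1]
        · rw [if_neg h0]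
          obtain ⟨u, hu⟩ := hinv k (Nat.pos_of_ne_zero h0) hk'
          have hpk : pw t (k - 1) = FouP e t k := by
            obtain ⟨m, rfl⟩ : ∃ m, k = m + 1 := ⟨k - 1, by omega⟩
            rw [Fou_pw he1]
            rfl
          rw [hpk] at hu
          have h4 : (FouP e t k - e) * ∑ i ∈ Finset.range N, FouP e t (i * k) = 0 := by
            rw [sub_mul, he1, Finset.mul_sum]
            have h5 : ∀ i, FouP e t k * FouP e t (i * k) = FouP e t ((i + 1) * k) := by
              intro i
              rw [← Fou_add he2]
              congr 1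
              ring
            rw [Finset.sum_congr rfl fun i _ => h5 i]
            have h6 := Finset.sum_range_succ (fun i => FouP e t (i * k)) N
            rw [Finset.sum_range_succ'] at h6
            have h7 : FouP e t (N * k) = FouP e t (0 * k) := by
              rw [Fou_one he2 hPN, Nat.zero_mul]
              rfl
            rw [h7] at h6
            rw [add_right_cancel h6, sub_self]
          have h8 : ∑ i ∈ Finset.range N, FouP e t (i * k) = 0 := by
            have h9 := congrArg (u * ·) h4
            rw [← mul_assoc, hu, he1, mul_zero] at h9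
            exact h9
          rw [h8, zero_mul, zero_mul]
      rw [Finset.sum_congr rfl h1, Finset.sum_ite_eq' (Finset.range N) 0 fun _ => N • x,
        if_pos (Finset.mem_range.2 hN), hcN]
  · intro j t x hx
    have hxJ := (hJm _).2 hx
    refine (hJm _).1 (J.nsmul_mem (J.sum_mem fun k _ => ?_) c)
    exact (hJ _ _ (hJ _ _ hxJ).1).2
  · intro j t x y
    show c • ∑ k ∈ Finset.range N, FouF e (N - 1 - j) t (x + y) k =
      c • ∑ k ∈ Finset.range N, FouF e (N - 1 - j) t x k +
        c • ∑ k ∈ Finset.range N, FouF e (N - 1 - j) t y k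
    rw [← smul_add, ← Finset.sum_add_distrib]
    congr 1
    refine Finset.sum_congr rfl fun k _ => ?_
    show FouP e t ((N - 1 - j) * k) * (x + y) * FouP e t k =
      FouP e t ((N - 1 - j) * k) * x * FouP e t k + FouP e t ((N - 1 - j) * k) * y * FouP e t k
    rw [mul_add, add_mul]
  · intro S j t x ht hx
    exact S.nsmul_mem (S.sum_mem fun k _ => Fou_mem he S ht hx _ _) c
  · intro j ψ χ hψ hχ
    exact Fou_tm_smul (Fou_tm_sum (fun k v => FouF e (N - 1 - j) (ψ v) (χ v) k)
      (fun k => Fou_tm he hψ hχ _ _) N) c

end Pool.Agent.CRM
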