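import Pool.Agent.CRM.Stb
import Pool.Agent.CRL.All

/-!
Campaign CRM, module Fwl: the function as a combination of words.
-/

set_option autoImplicit false

namespace Pool.Agent.CRM

open Pool.Agent.CRR Pool.Agent.CRN Pool.Agent.CRK Pool.Agent.CRL

theorem Fwl_lt {R : Type} [NonUnitalRing R] {s : ℕ} (t : Fin s → R) (y : ℕ → R) (i : Fin s) :
    vx t y i = t i := by
  have h := i.2
  simp only [vx, dif_pos h]

theorem Fwl_ge {R : Type} [NonUnitalRing R] {s : ℕ} (t : Fin s → R) (y : ℕ → R) {i : ℕ}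
    (hi : s ≤ i) : vx t y i = y (i - s) := by
  have h : ¬ i < s := by omega
  simp only [vx, dif_neg h]

theorem thm_Fwl : St_Fwl := by
  classical
  intro n p R _ _ s b H φ t x α β hw
  obtain ⟨L, hL1, hL2⟩ := thm_Wrx R φ hw.gc.tm ((Finset.range b).image (fun k => s + k))
  have hev := Bkw_ev hw.gc.toGa hL2
  refine ⟨L.filter fun q => decide (∀ i ∈ q.2, i < s + b), ?_, ?_⟩
  · intro q hq
    obtain ⟨h1, h2⟩ := List.mem_filter.1 hq
    exact ⟨(hL1 q h1).1, of_decide_eq_true h2, fun k hk => (hL1 q h1).2 _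
      (Finset.mem_image.2 ⟨k, Finset.mem_range.2 hk, rfl⟩)⟩
  · intro y hy hy0
    have hvec : Vec n s b (vx t y) := by
      constructor
      · have : (fun i : Fin s => vx t y i) = t := funext fun i => Fwl_lt t y i
        rw [this]
        exact hw.fr
      · intro k _
        rw [Fwl_ge t y (Nat.le_add_right s k), Nat.add_sub_cancel_left]
        exact hy k
    rw [hev _ hvec, Wrd_ev_filter (fun q => decide (∀ i ∈ q.2, i < s + b)) L (vx t y)]
    rw [Wrd_ev_zero (L.filter fun q => !decide (∀ i ∈ q.2, i < s + b)) (vx t y) fun q hq => ?_,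
      add_zero]
    have h1 : ¬ ∀ i ∈ q.2, i < s + b := by simpa using (List.mem_filter.1 hq).2
    push Not at h1
    obtain ⟨i, hi, hi2⟩ := h1
    refine ⟨i, hi, ?_⟩
    rw [Fwl_ge t y (by omega)]
    exact hy0 _ (by omega)

end Pool.Agent.CRM
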