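import Pool.Agent.CRM.Stb
import Pool.Agent.CRL.All
import Pool.Agent.CRN.Sir

/-!
Campaign CRM, module Fwp: critical rings are of the path types or local or nilpotent.
-/

set_option autoImplicit false

namespace Pool.Agent.CRM

open Pool.Agent.CRR Pool.Agent.CRN Pool.Agent.CRK Pool.Agent.CRL

theorem Fwp_three {a b c m : ℕ} (ha : a < m) (hb : b < m) (hc : c < m) (h1 : a ≠ b) (h2 : a ≠ c)
    (h3 : b ≠ c) : 3 ≤ m := by omega

theorem thm_Fwp (hFwx : St_Fwx) (hFwl : St_Fwl) (hWxw : St_Wxw) (hWcl : St_Wcl) (hFct : St_Fct)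
    (hFcl : St_Fcl) (hFcv : St_Fcv) (hFcn : St_Fcn) (hFop : St_Fop) : St_Fwp := by
  intro n p R _ _ hC hcr
  obtain ⟨H, hH⟩ := CRN.thm_Sir R hcr
  obtain ⟨s, b, φ, _, hφ⟩ := sel n p R hC hcr H hH
  obtain ⟨t, x, α, β, hw⟩ := hFwx n p R hC H hH s b φ hφ
  by_cases hall : ∀ k, k < b → α k = β k
  · exact Or.inr (Or.inr (hFcn n p R s b H φ t x α β hw hall))
  push Not at hall
  obtain ⟨k₀, hk₀, hne₀⟩ := hall
  obtain ⟨L, hL1, hL2⟩ := hFwl n p R s b H φ t x α β hw
  have hev := hL2 x (fun k => (hw.jc k).2) hw.out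
  obtain ⟨q, hq, hqne⟩ : ∃ q ∈ L, wp (q.2.map (vx t x)) ≠ 0 := by
    by_contra hcon
    push Not at hcon
    exact hw.ne (hev.trans (Bdd_ev L _ hcon))
  obtain ⟨_, hlt, hall⟩ := hL1 q hq
  have hpc : ∀ k, Pc (fun i => om n (t i)) (α k) (β k) (x k) := fun k => (hw.jc k).1
  rcases hWxw n p R hC s t hw.fr α β q.2 ⟨s + k₀, hall k₀ hk₀, Nat.le_add_right _ _⟩ with h | h
  · exact absurd (h x hpc) hqne
  obtain ⟨ds, hds, hop, hval⟩ := h
  rw [hval x hpc] at hqne
  have hmem1 : ∀ d ∈ ds, d.1 < b := by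
    intro d hd
    have h1 : d.1 ∈ ds.map Prod.fst := List.mem_map_of_mem hd
    rw [hds] at h1
    obtain ⟨i, hi, h2⟩ := List.mem_map.1 h1
    obtain ⟨h3, h4⟩ := List.mem_filter.1 hi
    have h5 : s ≤ i := of_decide_eq_true h4
    have h6 := hlt i h3
    omega
  have hmem2 : ∀ k, k < b → ∃ d ∈ ds, d.1 = k := by
    intro k hk
    have h1 : k ∈ ds.map Prod.fst := by
      rw [hds]
      refine List.mem_map.2 ⟨s + k, List.mem_filter.2 ⟨hall k hk, ?_⟩, by omega⟩
      exact decide_eq_true (Nat.le_add_right _ _)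
    exact List.mem_map.1 h1
  obtain ⟨d₀, hd₀, hd₀e⟩ := hmem2 k₀ hk₀
  have hops : ∀ d ∈ ds, d.2 ∈ Ops t (α d.1) (β d.1) := fun d hd => (hop d hd).1
  have hfcv := hFcv n p R s b H φ t x α β hw ds
    (fun d hd => ⟨(hop d hd).1, by
      obtain ⟨D', h1, h2⟩ := (hop d hd).2
      exact ⟨D', h1, h2 _ (hpc _)⟩⟩)
    (fun k hk => List.mem_map.2 (hmem2 k hk)) hqne
  rcases hWcl n p R hC s t hw.fr α β x hw.jc ds hops hqne ⟨d₀, hd₀, hd₀e ▸ hne₀⟩ with
    h | h | h | h | h
  · obtain ⟨ds', d, rfl, h1, h2, _⟩ := h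
    have h3 := hFct n p R s b H φ t x α β hw d.1 (hmem1 d (by simp)) h1 (fun k hk hkd => by
      obtain ⟨c, hc, rfl⟩ := hmem2 k hk
      rcases List.mem_append.1 hc with h | h
      · exact h2 c h
      · rw [List.mem_singleton.1 h] at hkd
        exact absurd rfl hkd)
    rcases h3 with h3 | h3
    · exact Or.inl (Or.inl h3)
    · exact Or.inl (Or.inr (Or.inl h3))
  · obtain ⟨d, ds', rfl, h1, h2, _⟩ := h
    obtain ⟨H', φ', hw'⟩ := hFop n p R s b H φ t x α β hw
    have hfin : Finite Rᵐᵒᵖ := Finite.of_equiv R MulOpposite.opEquiv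
    have h3 := hFct n p Rᵐᵒᵖ s b H' φ' _ _ β α hw' d.1 (hmem1 d (by simp)) h1.symm
      (fun k hk hkd => by
        obtain ⟨c, hc, rfl⟩ := hmem2 k hk
        rcases List.mem_cons.1 hc with h | h
        · rw [h] at hkd
          exact absurd rfl hkd
        · exact ⟨(h2 c h).2, (h2 c h).1⟩)
    rcases h3 with h3 | h3
    · exact Or.inr (Or.inl (Or.inl h3))
    · exact Or.inr (Or.inl (Or.inr (Or.inl h3)))
  · exact Or.inl (Or.inr (Or.inl (hfcv.1 h)))
  · obtain ⟨ds₁, d, d', ds₂, rfl, h1, h2, h3, h4, h5, _⟩ := h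
    have hd : d.1 < b := hmem1 d (by simp)
    have hd' : d'.1 < b := hmem1 d' (by simp)
    obtain ⟨c, hc⟩ := List.exists_mem_of_ne_nil _ h4
    have hcb : c.1 < b := by
      refine hmem1 c ?_
      rcases List.mem_append.1 hc with h | h
      · simp [h]
      · simp [h]
    have hc5 := h5 c hc
    have h3b : 3 ≤ b := by
      refine Fwp_three hd hd' hcb ?_ ?_ ?_
      · intro e
        rw [← e] at h2
        exact h1 h2
      · intro e
        rw [← e] at hc5
        exact h1 hc5.2.symm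
      · intro e
        rw [← e] at hc5
        rw [hc5.1] at h2
        exact h1 h2
    exact Or.inl (Or.inr (Or.inr (Or.inl
      (hFcl n p R s b H φ t x α β hw d.1 d'.1 hd hd' h1 h2 h3 h3b (fun k hk e1 e2 => by
        obtain ⟨c, hc, rfl⟩ := hmem2 k hk
        rcases List.mem_append.1 hc with h | h
        · exact h5 c (List.mem_append_left _ h)
        · rcases List.mem_cons.1 h with h | h
          · rw [h] at e1
            exact absurd rfl e1
          · rcases List.mem_cons.1 h with h | h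
            · rw [h] at e2
              exact absurd rfl e2
            · exact h5 c (List.mem_append_right _ h))))))
  · exact Or.inl (Or.inr (Or.inr (Or.inr (hfcv.2 h))))

end Pool.Agent.CRM
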