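import Pool.Agent.CRM.Stb
import Pool.Agent.CRL.Pch
import Pool.Agent.CRL.Fpr
import Pool.Agent.CRL.Quo
import Pool.Agent.CRL.Jil
import Pool.Agent.CRL.Chn
import Pool.Agent.CRL.Snl
import Pool.Agent.CRL.Chi
import Pool.Agent.CRL.Prl

/-!
Campaign CRM, module Fwx: a nonzero value at pure elements.
-/

set_option autoImplicit false

namespace Pool.Agent.CRM

open Pool.Agent.CRR Pool.Agent.CRN Pool.Agent.CRK Pool.Agent.CRL

section

variable {R : Type} [NonUnitalRing R] {s : ℕ}

theorem Fwx_update (t : Fin s → R) (x : ℕ → R) (j : ℕ) (y : R) :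
    vx t (Function.update x j y) = Function.update (vx t x) (s + j) y := by
  funext i
  by_cases h : i < s
  · rw [Function.update_of_ne (by omega)]
    unfold vx
    rw [dif_pos h, dif_pos h]
  · by_cases h2 : i = s + j
    · subst h2
      rw [Function.update_self]
      unfold vx
      rw [dif_neg h, Nat.add_sub_cancel_left, Function.update_self]
    · rw [Function.update_of_ne h2]
      unfold vx
      rw [dif_neg h, dif_neg h, Function.update_of_ne (by omega)]

theorem Fwx_zero {e : Fin s → R} {α β : Option (Fin s)} : Jc e α β (0 : R) := by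
  refine ⟨⟨fun i => ?_, fun j => ?_⟩, ?_⟩
  · simp
  · simp
  · unfold Nl
    simp

theorem Fwx_pur (p : ℕ) (t : Fin s → R) (α β : Option (Fin s)) : Pur p t α β (0 : R) := by
  intro D hD
  refine Or.inl ⟨D, hD, ?_⟩
  rw [map_zero, smul_zero]

theorem Fwx_vec {n b : ℕ} {t : Fin s → R} {x : ℕ → R} (hF : Frame R n s t)
    (hx : ∀ k, Nl (x k)) : Vec n s b (vx t x) := by
  refine ⟨?_, fun k _ => ?_⟩
  · have h : (fun i : Fin s => vx t x i) = t := by
      funext i
      unfold vx
      rw [dif_pos i.2]
    rw [h]
    exact hF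
  · have h : vx t x (s + k) = x k := by
      unfold vx
      rw [dif_neg (by omega), Nat.add_sub_cancel_left]
    rw [h]
    exact hx k

end

private theorem Fwx_jil : Pool.Agent.CRL.St_Jil :=
  Pool.Agent.CRL.thm_Jil (Pool.Agent.CRL.thm_Chn Pool.Agent.CRL.thm_Prl
    (Pool.Agent.CRL.thm_Snl Pool.Agent.CRL.thm_Prl) (Pool.Agent.CRL.thm_Chi Pool.Agent.CRL.thm_Prl))

private theorem Fwx_pch : Pool.Agent.CRL.St_Pch :=
  Pool.Agent.CRL.thm_Pch Fwx_jil (Pool.Agent.CRL.thm_Fpr (Pool.Agent.CRL.thm_Quo Fwx_jil))

/-- **FWX** -/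
theorem thm_Fwx (hO : St_Opc) (hX : St_Prx) : St_Fwx := by
  intro n p R _ _ hC H hH s b φ hφ
  obtain ⟨α, β, v, hv⟩ := Fwx_pch n p R hC s b H φ hφ.toGb
  obtain ⟨t, ht⟩ : ∃ t : Fin s → R, t = fun i : Fin s => v i := ⟨_, rfl⟩
  have hF : Frame R n s t := by
    rw [ht]
    exact hv.vec.1
  have claim : ∀ j, j ≤ b → ∃ x : ℕ → R, (∀ k, Jc (fun i => om n (t i)) (α k) (β k) (x k)) ∧
      (∀ k, k < j → Pur p t (α k) (β k) (x k)) ∧ (∀ k, b ≤ k → x k = 0) ∧ φ (vx t x) ≠ 0 := by
    intro j
    induction j with
    | zero =>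
      intro _
      refine ⟨fun k => v (s + k), fun k => ?_, fun k hk => absurd hk (Nat.not_lt_zero k),
        fun k hk => hv.out _ (by omega), ?_⟩
      · by_cases hk : k < b
        · refine ⟨?_, hv.vec.2 k hk⟩
          rw [ht]
          exact hv.pc k hk
        · have h0 : v (s + k) = 0 := hv.out _ (by omega)
          show Jc _ _ _ (v (s + k))
          rw [h0]
          exact Fwx_zero
      · have h1 : vx t (fun k => v (s + k)) = v := by
          funext i
          unfold vx
          by_cases h : i < s
          · rw [dif_pos h, ht]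
          · rw [dif_neg h]
            show v (s + (i - s)) = v i
            rw [Nat.add_sub_cancel' (by omega)]
        rw [h1]
        exact hv.ne
    | succ j ih =>
      intro hj
      obtain ⟨x, h1, h2, h3, h4⟩ := ih (by omega)
      have hvec : Vec n s b (vx t x) := Fwx_vec hF fun k => (h1 k).2
      have hpres : ∀ D ∈ Ops t (α j) (β j), Jc (fun i => om n (t i)) (α j) (β j) (D (x j)) :=
        fun D hD => by
          have h5 := hO n p R hC s t hF (α j) (β j) D hD (x j)
          exact ⟨h5.1 (h1 j).1, h5.2 (h1 j).2⟩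
      obtain ⟨D, hD, hp, hne⟩ := hX n p R hC s t hF (α j) (β j) (x j)
        (fun y => φ (vx t (Function.update x j y)) ≠ 0)
        (fun D hD D' hD' h => by
          by_contra hcon
          rw [not_or, not_not, not_not] at hcon
          apply h
          rw [Fwx_update, hφ.add _ hvec j (by omega) _ _ (hpres D hD).2 (hpres D' hD').2,
            ← Fwx_update, ← Fwx_update, hcon.1, hcon.2, add_zero])
        (by
          show φ (vx t (Function.update x j (x j))) ≠ 0
          rw [Function.update_eq_self]
          exact h4)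
      refine ⟨Function.update x j (D (x j)), fun k => ?_, fun k hk => ?_, fun k hk => ?_, hne⟩
      · by_cases hkj : k = j
        · subst hkj
          rw [Function.update_self]
          exact hpres D hD
        · rw [Function.update_of_ne hkj]
          exact h1 k
      · by_cases hkj : k = j
        · subst hkj
          rw [Function.update_self]
          exact hp
        · rw [Function.update_of_ne hkj]
          exact h2 k (by omega)
      · rw [Function.update_of_ne (by omega)]
        exact h3 k hk
  obtain ⟨x, h1, h2, h3, h4⟩ := claim b le_rfl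
  refine ⟨t, x, α, β, hC, hH, hφ, hF, h1, fun k => ?_, h3, h4⟩
  by_cases hk : k < b
  · exact h2 k hk
  · rw [h3 k (by omega)]
    exact Fwx_pur p t (α k) (β k)

end Pool.Agent.CRM
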