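import Pool.Agent.CRM.Stb

/-!
Campaign CRM, **GNR**: the generation, and purity of the images of pure elements.
-/

set_option autoImplicit false

namespace Pool.Agent.CRM

open Pool.Agent.CRR Pool.Agent.CRN Pool.Agent.CRK Pool.Agent.CRL

theorem thm_Gnr : St_Gnr := by
  refine ⟨?_, ?_⟩
  · intro n p R _ _ s b H φ t x α β hF S hS hx
    by_contra hne
    have e1 : ∀ i : Fin s, vx t x i = t i := by
      intro i
      unfold vx
      rw [dif_pos i.2]
    have e2 : ∀ k, vx t x (s + k) = x k := by
      intro k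
      unfold vx
      rw [dif_neg (by omega), Nat.add_sub_cancel_left]
    have e3 : (fun i : Fin s => vx t x i) = t := funext e1
    refine hF.ne (hF.gc.van (vx t x) ⟨?_, ?_⟩ S hne ?_)
    · rw [e3]
      exact hF.fr
    · intro k _
      rw [e2]
      exact (hF.jc k).2
    · intro i hi
      by_cases h : i < s
      · rw [e1 ⟨i, h⟩]
        exact hS _
      · obtain ⟨k, rfl⟩ := Nat.exists_eq_add_of_le (not_lt.1 h)
        rw [e2]
        exact hx k (by omega)
  · rintro p R _ s t α β x hP D₀ hD ⟨D', hD', h'⟩ D hDD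
    rcases hP (D * D₀) (mul_mem hDD hD) with ⟨E, hE, h⟩ | ⟨E, hE, h⟩
    · refine Or.inl ⟨E * D', mul_mem hE hD', ?_⟩
      change D (D₀ x) = p • E (D' (D₀ x))
      rw [h']
      exact h
    · refine Or.inr ⟨D₀ * E, mul_mem hD hE, ?_⟩
      change D₀ (E (D (D₀ x))) = D₀ x
      exact congrArg D₀ h

end Pool.Agent.CRM
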