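import Pool.Agent.CRM.St
import Pool.Agent.CRL.All

/-!
Campaign CRM, module Inv: operators on `e_i R` are nil or invertible.
-/

set_option autoImplicit false

namespace Pool.Agent.CRM

open Pool.Agent.CRR Pool.Agent.CRN Pool.Agent.CRK Pool.Agent.CRL

/-- If `D` has a left inverse on an invariant set `{y | Q y}`, some power of `D` is an inverse there. -/
theorem Inv_pow {R : Type} [NonUnitalRing R] [Finite R] (D C : AddMonoid.End R) (Q : R → Prop)
    (hQ : ∀ y, Q y → Q (D y)) (hC : ∀ y, Q y → C (D y) = y) :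
    ∃ k : ℕ, ∀ y, Q y → (D ^ k) (D y) = y := by
  have hfin : Finite (AddMonoid.End R) := DFunLike.finite (AddMonoid.End R)
  have hQk : ∀ k : ℕ, ∀ y, Q y → Q ((D ^ k) y) := by
    intro k
    induction k with
    | zero => intro y hy; simpa using hy
    | succ k ih =>
      intro y hy
      rw [pow_succ']
      exact hQ _ (ih y hy)
  have hCk : ∀ k : ℕ, ∀ y, Q y → (C ^ k) ((D ^ k) y) = y := by
    intro k
    induction k with
    | zero => intro y hy; rfl
    | succ k ih =>
      intro y hy
      rw [pow_succ' D, pow_succ C]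
      change (C ^ k) (C (D ((D ^ k) y))) = y
      rw [hC _ (hQk k y hy), ih y hy]
  obtain ⟨a, b, hab, h⟩ : ∃ a b : ℕ, a < b ∧ D ^ a = D ^ b := by
    obtain ⟨a, b, hne, h⟩ := Finite.exists_ne_map_eq_of_infinite (fun k : ℕ => D ^ k)
    rcases lt_or_gt_of_ne hne with h' | h'
    · exact ⟨a, b, h', h⟩
    · exact ⟨b, a, h', h.symm⟩
  refine ⟨b - a - 1, fun y hy => ?_⟩
  have e1 : (D ^ (b - a - 1)) (D y) = (D ^ (b - a)) y := by
    have : b - a = (b - a - 1) + 1 := by omega
    conv_rhs => rw [this, pow_succ]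
    rfl
  rw [e1]
  have e2 : (D ^ b) y = (D ^ a) ((D ^ (b - a)) y) := by
    have : b = a + (b - a) := by omega
    conv_lhs => rw [this, pow_add]
    rfl
  have e3 := hCk a y hy
  rw [h, e2, hCk a _ (hQk (b - a) y hy)] at e3
  exact e3

theorem thm_Inv (hO : St_Ops) : St_Inv := by
  intro n p R _ _ hcy s t hF i D hD
  obtain ⟨hP, hT, _⟩ := fpr n p R hcy s t hF
  obtain ⟨_, _, _, h4, _, h6, _⟩ := hO R s t (some i) none
  have hprm : Prm R (om n (t i)) := hP.prm i
  have hidem : om n (t i) * om n (t i) = om n (t i) := hprm.1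
  have hte := hT i
  have hcomm : ∀ j, some i = some j → t j * om n (t i) = om n (t i) * t j := by
    intro j hj
    have := Option.some.inj hj
    subst this
    rw [hte.1, hte.2.1]
  have hfirst : ∀ y, om n (t i) * y = y → D y = D (om n (t i)) * y := by
    intro y hy
    have := h4 D hD (om n (t i)) y
    rw [hy] at this
    exact this
  refine ⟨hfirst, ?_⟩
  have hed : om n (t i) * D (om n (t i)) = D (om n (t i)) := by
    have := h6 D hD (om n (t i)) hcomm (om n (t i))
    rw [hidem] at this
    exact this.symm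
  have hde : D (om n (t i)) * om n (t i) = D (om n (t i)) := (hfirst _ hidem).symm
  rcases thm_Prl n hcy.n4 R hcy.inM (om n (t i)) hprm (D (om n (t i))) hed hde with h | ⟨c, _, _, _, hcd⟩
  · exact Or.inl h
  · right
    obtain ⟨k, hk⟩ := Inv_pow D (AddMonoid.End.mulLeft c) (fun y => om n (t i) * y = y)
      (fun y hy => by
        have := h6 D hD (om n (t i)) hcomm y
        rw [hy] at this
        exact this.symm)
      (fun y hy => by
        change c * D y = y
        rw [hfirst y hy, ← mul_assoc, hcd, hy])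
    exact ⟨D ^ k, pow_mem hD k, hk⟩

end Pool.Agent.CRM
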