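import Pool.Agent.CRM.St

/-!
# CRM Ivc: operators on pure elements
-/

set_option autoImplicit false

namespace Pool.Agent.CRM

open Pool.Agent.CRR Pool.Agent.CRN Pool.Agent.CRK Pool.Agent.CRL

/-- **IVC** -/
theorem thm_Ivc (hO : St_Ops) : St_Ivc := by
  intro p R _ s t α β x hx D hD
  have hc := (hO R s t α β).1
  rcases hx D hD with ⟨D', hD', h⟩ | ⟨D', hD', h⟩
  · refine Or.inl ⟨D', hD', fun E hE => ?_⟩
    rw [hc D hD E hE, h, map_nsmul, hc E hE D' hD']
  · refine Or.inr ⟨D', hD', fun E hE => ?_⟩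
    rw [hc D hD E hE, hc D' hD' E hE, h]

end Pool.Agent.CRM
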