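import Pool.Agent.CRM.Ste
import Pool.Agent.CRM.Nac
import Pool.Agent.CRL.All
import Mathlib.Algebra.Algebra.Unitization
import Mathlib.FieldTheory.Finite.Basic

/-!
Campaign CRM, module Kjf: the radical modulo `J^2 + p R`.
-/

set_option autoImplicit false

namespace Pool.Agent.CRM

open Pool.Agent.CRR Pool.Agent.CRN Pool.Agent.CRK Pool.Agent.CRL

section frob

open Polynomial

theorem Kjf_pow (p : ℕ) [Fact p.Prime] (f : (ZMod p)[X]) (m : ℕ) :
    f ^ (p ^ m) = expand (ZMod p) (p ^ m) f := by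
  induction m with
  | zero => simp
  | succ m ih => rw [pow_succ, pow_mul, ih, ← ZMod.expand_card, expand_expand, mul_comm]

theorem Kjf_frob {A : Type} [Ring A] (p m : ℕ) (hp : p.Prime) (t : A) (ht : t ^ (p ^ m) = t)
    (w : A) (hw : w ∈ Subring.closure ({t} : Set A)) : ∃ z, w ^ (p ^ m) - w = p • z := by
  have : Fact p.Prime := ⟨hp⟩
  have h1 : ∃ f : ℤ[X], w = aeval t f := by
    induction hw using Subring.closure_induction with
    | mem x hx =>
      rw [Set.mem_singleton_iff] at hx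
      exact ⟨X, by rw [aeval_X, hx]⟩
    | zero => exact ⟨0, by simp⟩
    | one => exact ⟨1, by simp⟩
    | add x y _ _ hx hy =>
      obtain ⟨f, hf⟩ := hx
      obtain ⟨g, hg⟩ := hy
      exact ⟨f + g, by rw [map_add, hf, hg]⟩
    | neg x _ hx =>
      obtain ⟨f, hf⟩ := hx
      exact ⟨-f, by rw [map_neg, hf]⟩
    | mul x y _ _ hx hy =>
      obtain ⟨f, hf⟩ := hx
      obtain ⟨g, hg⟩ := hy
      exact ⟨f * g, by rw [map_mul, hf, hg]⟩
  obtain ⟨f, rfl⟩ := h1
  have h2 : C (p : ℤ) ∣ f ^ (p ^ m) - expand ℤ (p ^ m) f := by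
    rw [C_dvd_iff_dvd_coeff]
    intro i
    have h3 : (f ^ (p ^ m) - expand ℤ (p ^ m) f).map (Int.castRingHom (ZMod p)) = 0 := by
      rw [Polynomial.map_sub, Polynomial.map_pow, map_expand, Kjf_pow, sub_self]
    have h4 := congrArg (fun q => coeff q i) h3
    simp only [coeff_map, coeff_zero] at h4
    exact (ZMod.intCast_zmod_eq_zero_iff_dvd _ p).1 h4
  obtain ⟨g, hg⟩ := h2
  refine ⟨aeval t g, ?_⟩
  have h3 := congrArg (aeval t) hg
  rw [map_sub, map_pow, expand_aeval, ht, map_mul, aeval_C] at h3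
  rw [h3]
  simp

end frob

theorem Kjf_inr {R : Type} [NonUnitalRing R] (x : R) (k : ℕ) :
    (Unitization.inr (pw x k) : Unitization ℤ R) = (Unitization.inr x) ^ (k + 1) := by
  induction k with
  | zero =>
    rw [zero_add, pow_one]
    rfl
  | succ k ih =>
    have h : pw x (k + 1) = pw x k * x := rfl
    rw [h, Unitization.inr_mul, ih, ← pow_succ]

theorem Kjf_X {R A : Type} [NonUnitalRing R] [Ring A] (f : R →ₙ+* A) (p m : ℕ) (hp : p.Prime)
    (t : R) (ht : f t ^ (p ^ m) = f t) (w : R) (hw : w ∈ NonUnitalSubring.closure ({t} : Set R)) :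
    ∃ z, f w ^ (p ^ m) - f w = p • z := by
  refine Kjf_frob p m hp _ ht _ ?_
  induction hw using NonUnitalSubring.closure_induction with
  | mem x hx =>
    rw [Set.mem_singleton_iff] at hx
    rw [hx]
    exact Subring.subset_closure (Set.mem_singleton _)
  | zero =>
    rw [map_zero]
    exact zero_mem _
  | add x y _ _ hx hy =>
    rw [map_add]
    exact add_mem hx hy
  | neg x _ hx =>
    rw [map_neg]
    exact neg_mem hx
  | mul x y _ _ hx hy =>
    rw [map_mul]
    exact mul_mem hx hy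

/-- Nil elements of the subring generated by `t` are divisible by `p`. -/
theorem Kjf_W {R : Type} [NonUnitalRing R] (p m : ℕ) (hp : p.Prime) (t : R) (k : ℕ)
    (hk : p ^ m = k + 1) (ht : pw t k = t) (h3 : 3 ≤ p ^ m) (w : R)
    (hw : w ∈ NonUnitalSubring.closure ({t} : Set R)) (hn : Nl w) : ∃ z, w = p • z := by
  have h1 : (Unitization.inr t : Unitization ℤ R) ^ (p ^ m) = Unitization.inr t := by
    rw [hk, ← Kjf_inr, ht]
  obtain ⟨z, hz⟩ := Kjf_X (A := Unitization ℤ R)
    { toFun := fun x => (Unitization.inr x : Unitization ℤ R)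
      map_mul' := fun a b => Unitization.inr_mul ℤ a b
      map_zero' := Unitization.inr_zero ℤ
      map_add' := fun a b => Unitization.inr_add ℤ a b } p m hp t h1 w hw
  have hz' : (Unitization.inr w : Unitization ℤ R) ^ (p ^ m) - Unitization.inr w = p • z := hz
  have h4 : (Unitization.inr w : Unitization ℤ R) ^ 3 = 0 := by
    have h5 := Kjf_inr w 2
    have h6 : pw w 2 = 0 := hn
    rw [h6, Unitization.inr_zero] at h5
    exact h5.symm
  obtain ⟨c, hc⟩ : ∃ c, p ^ m = 3 + c := ⟨p ^ m - 3, by omega⟩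
  have h7 : (Unitization.inr w : Unitization ℤ R) ^ (p ^ m) = 0 := by
    rw [hc, pow_add, h4, zero_mul]
  rw [h7, zero_sub] at hz'
  refine ⟨-z.snd, ?_⟩
  have h5 : (-(Unitization.inr w : Unitization ℤ R)).snd = (p • z).snd := by rw [hz']
  rw [Unitization.snd_neg, Unitization.snd_inr, Unitization.snd_smul] at h5
  rw [smul_neg, ← h5, neg_neg]

theorem Kjf_one {n p : ℕ} {R : Type} [NonUnitalRing R] [Finite R] (hcy : Cy R n p) (s : ℕ)
    (t : Fin s → R) (hF : Frame R n s t) (S : NonUnitalSubring R) (hS : ∀ i, t i ∈ S)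
    (hK : ∀ x, Nl x → ∃ y ∈ S, x - y ∈ KJ R p) : S = ⊤ := by
  obtain ⟨J, hJI, hJ⟩ := jil n hcy.n4 R hcy.inM hcy.nt
  obtain ⟨r, hr⟩ := hcy.pr
  have h1 : ∀ i k, r ≤ k + i → ∀ a : R, (p ^ k) • a ∈ S.toAddSubgroup ⊔ J2 R := by
    intro i
    induction i with
    | zero =>
      intro k hk a
      have e : p ^ k = p ^ (k - r) * p ^ r := by
        rw [← pow_add]
        congr 1
        omega
      rw [e, mul_smul, hr, smul_zero]
      exact zero_mem _
    | succ i ih =>
      intro k hk a
      obtain ⟨c, hc, hu⟩ := gen n p R hcy s t hF a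
      obtain ⟨y, hy, hκ⟩ := hK _ hu
      have hw : (∑ i, c i) ∈ S := by
        refine sum_mem fun i _ => ?_
        rcases hc i with h | ⟨k, h⟩
        · rw [h]
          exact S.zero_mem
        · rw [h]
          exact Nac_pw S (hS i) k
      have e : a = (∑ i, c i) + y + (a - ∑ i, c i - y) := by abel
      rw [e, smul_add]
      refine add_mem ?_ ?_
      · exact (le_sup_left : S.toAddSubgroup ≤ S.toAddSubgroup ⊔ J2 R)
          (S.toAddSubgroup.nsmul_mem (S.add_mem hw hy) _)
      · have h2 : KJ R p ≤ (S.toAddSubgroup ⊔ J2 R).comap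
            (DistribSMul.toAddMonoidHom R (p ^ k)) := by
          refine (AddSubgroup.closure_le _).2 ?_
          rintro w (⟨a, b, ha, hb, rfl⟩ | ⟨a, rfl⟩)
          · show (p ^ k) • (a * b) ∈ S.toAddSubgroup ⊔ J2 R
            exact (le_sup_right : J2 R ≤ S.toAddSubgroup ⊔ J2 R)
              ((J2 R).nsmul_mem (AddSubgroup.subset_closure ⟨a, b, ha, hb, rfl⟩) _)
          · show (p ^ k) • (p • a) ∈ S.toAddSubgroup ⊔ J2 R
            rw [← mul_smul, ← pow_succ]
            exact ih (k + 1) (by omega) a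
        exact h2 hκ
  refine thm_Nac n p R hcy s t hF S hS fun x hx => ?_
  have h2 := h1 r 0 (by omega) x
  rw [pow_zero, one_smul, AddSubgroup.mem_sup] at h2
  obtain ⟨y, hy, j, hj, hyj⟩ := h2
  have hle : J2 R ≤ J := by
    refine (AddSubgroup.closure_le _).2 ?_
    rintro w ⟨a, b, ha, hb, rfl⟩
    exact (hJI a b ((hJ b).2 hb)).1
  refine ⟨y, hy, ?_, ?_⟩
  · have e : y = x - j := by rw [← hyj, add_sub_cancel_right]
    rw [e]
    exact (hJ _).1 (sub_mem ((hJ x).2 hx) (hle hj))
  · rw [← hyj, add_sub_cancel_left]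
    exact hj

/-- **KJF.** -/
theorem thm_Kjf (hTyn : St_Tyn) : St_Kjf := by
  intro n p R _ _ hcy
  refine ⟨fun s t hF S hS hK => Kjf_one hcy s t hF S hS hK, ?_⟩
  intro e he h1 t hF
  obtain ⟨J, hJI, hJ⟩ := jil n hcy.n4 R hcy.inM hcy.nt
  obtain ⟨r, hr⟩ := hcy.pr
  -- `p e` is nil
  have hpe : Nl (p • e) := by
    have h2 : e * (p • e) = p • e := by rw [mul_smul_comm, (h1 e).1]
    have h3 : (p • e) * e = p • e := by rw [smul_mul_assoc, (h1 e).1]
    rcases thm_Prl n hcy.n4 R hcy.inM e he (p • e) h2 h3 with h | ⟨y, hy, _, hxy, _⟩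
    · exact h
    · exfalso
      rw [smul_mul_assoc, (h1 y).1] at hxy
      have h4 : ∀ k : ℕ, ∃ z : R, e = (p ^ k) • z := by
        intro k
        induction k with
        | zero => exact ⟨e, by rw [pow_zero, one_smul]⟩
        | succ k ih =>
          obtain ⟨z, hz⟩ := ih
          refine ⟨y * z, ?_⟩
          have h5 : z = p • (y * z) := by
            rw [← smul_mul_assoc, hxy, (h1 z).1]
          rw [pow_succ, mul_smul, ← h5]
          exact hz
      obtain ⟨z, hz⟩ := h4 r
      rw [hr] at hz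
      exact he.2.1 hz
  apply le_antisymm
  · -- `JW t ≤ KJ`
    obtain ⟨N, hN1, _, hNp, _, hT⟩ := hTyn n p R hcy e he h1
    obtain ⟨_, htN, _⟩ := hT t hF
    refine (AddSubgroup.closure_le _).2 ?_
    rintro w (⟨a, b, ha, hb, rfl⟩ | ⟨hw, hn⟩)
    · exact AddSubgroup.subset_closure (Or.inl ⟨a, b, ha, hb, rfl⟩)
    · -- exponent
      have hφ : 1 ≤ N.totient := Nat.totient_pos.2 hN1
      have hp2 := hcy.pp.two_le
      have hm3 : 3 ≤ p ^ (2 * N.totient) := by
        have h5 : 2 ^ 2 ≤ p ^ (2 * N.totient) :=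
          (Nat.pow_le_pow_left hp2 2).trans (Nat.pow_le_pow_right (by omega) (by omega))
        omega
      have hmod : p ^ (2 * N.totient) ≡ 1 [MOD N] := by
        have h5 := (Nat.ModEq.pow_totient hNp.symm).pow 2
        rwa [← pow_mul, one_pow, mul_comm] at h5
      obtain ⟨k, hk⟩ : ∃ k, p ^ (2 * N.totient) = k + 1 := ⟨p ^ (2 * N.totient) - 1, by omega⟩
      have hdvd : N ∣ k := by
        have h5 := (Nat.modEq_iff_dvd' (by omega)).1 hmod.symm
        rwa [hk, Nat.add_sub_cancel] at h5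
      obtain ⟨l, hl⟩ := hdvd
      have ht : pw t k = t := by
        have h5 : ∀ l : ℕ, (Unitization.inr t : Unitization ℤ R) ^ (N * l + 1) =
            Unitization.inr t := by
          intro l
          induction l with
          | zero => rw [mul_zero, zero_add, pow_one]
          | succ l ih =>
            have e1 : N * (l + 1) + 1 = (N * l + 1) + ((N - 1) + 1) := by
              rw [mul_add]
              omega
            rw [e1, pow_add, ih, ← Kjf_inr, htN, ← Unitization.inr_mul, (h1 t).2]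
        have h6 := h5 l
        rw [← hl, ← Kjf_inr] at h6
        exact Unitization.inr_injective h6
      obtain ⟨z, hz⟩ := Kjf_W p _ hcy.pp t k hk ht hm3 w hw hn
      rw [hz]
      exact AddSubgroup.subset_closure (Or.inr ⟨z, rfl⟩)
  · refine (AddSubgroup.closure_le _).2 ?_
    rintro w (⟨a, b, ha, hb, rfl⟩ | ⟨a, rfl⟩)
    · exact AddSubgroup.subset_closure (Or.inl ⟨a, b, ha, hb, rfl⟩)
    · obtain ⟨c, hc, hu⟩ := gen n p R hcy 1 (fun _ => t) hF a
      have hw : (∑ i, c i) ∈ NonUnitalSubring.closure ({t} : Set R) := by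
        refine sum_mem fun i _ => ?_
        rcases hc i with h | ⟨k, h⟩
        · rw [h]
          exact zero_mem _
        · rw [h]
          exact Nac_pw _ (NonUnitalSubring.subset_closure (Set.mem_singleton t)) k
      have e1 : p • a = p • (∑ i, c i) + (p • e) * (a - ∑ i, c i) := by
        rw [smul_mul_assoc, (h1 _).1, ← smul_add]
        congr 1
        abel
      have e2 : p • (∑ i, c i) = (p • e) * (∑ i, c i) := by
        rw [smul_mul_assoc, (h1 _).1]
      rw [e1]
      refine add_mem (AddSubgroup.subset_closure (Or.inr ⟨nsmul_mem hw _, ?_⟩))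
        (AddSubgroup.subset_closure (Or.inl ⟨_, _, hpe, hu, rfl⟩))
      rw [e2]
      exact (hJ _).1 (hJI _ _ ((hJ _).2 hpe)).2

end Pool.Agent.CRM
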