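import Pool.Agent.CRM.Stb

set_option autoImplicit false

namespace Pool.Agent.CRM

open Pool.Agent.CRR Pool.Agent.CRN Pool.Agent.CRK Pool.Agent.CRL

theorem Plw_congr {R : Type} [NonUnitalRing R] (f g : ℕ → R) (z : R) :
    ∀ m : ℕ, (∀ j, j < m → f j = g j) → pll f z m = pll g z m
  | 0, _ => rfl
  | m + 1, h => by
    show f m * pll f z m = g m * pll g z m
    rw [h m (Nat.lt_succ_self m), Plw_congr f g z m fun j hj => h j (Nat.lt_succ_of_lt hj)]

theorem Plw_wp {R : Type} [NonUnitalRing R] (a : R) (l : List R) (z : R) :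
    wp (a :: (l ++ [z])) = a * wp (l ++ [z]) := by
  cases l <;> rfl

theorem Plw_pll (R : Type) [NonUnitalRing R] (x : ℕ → R) (z : R) : ∀ κ : List ℕ,
    pll (fun j => x (κ.reverse.getD j 0)) z κ.length = wp (κ.map x ++ [z])
  | [] => rfl
  | k :: κ => by
    have ih := Plw_pll R x z κ
    have e1 : pll (fun j => x ((k :: κ).reverse.getD j 0)) z (k :: κ).length =
        x ((k :: κ).reverse.getD κ.length 0) *
          pll (fun j => x ((k :: κ).reverse.getD j 0)) z κ.length := rfl
    have e2 : (k :: κ).reverse.getD κ.length 0 = k := by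
      rw [List.reverse_cons, List.getD_append_right _ _ _ _ (by simp)]
      simp
    have e3 : pll (fun j => x ((k :: κ).reverse.getD j 0)) z κ.length =
        pll (fun j => x (κ.reverse.getD j 0)) z κ.length := by
      apply Plw_congr
      intro j hj
      show x _ = x _
      rw [List.reverse_cons, List.getD_append _ _ _ _ (by simpa using hj)]
    rw [e1, e2, e3, ih, List.map_cons, List.cons_append, Plw_wp]

theorem thm_Plw : St_Plw := by
  intro κ hκ
  have hlen : κ.reverse.length = κ.length := List.length_reverse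
  refine ⟨fun j => κ.reverse.getD j 0, ?_, ?_, ?_, ?_⟩
  · intro j hj
    have hj2 : j < κ.reverse.length := by rw [hlen]; exact hj
    show κ.reverse.getD j 0 ∈ κ
    rw [List.getD_eq_getElem _ _ hj2, ← List.mem_reverse]
    exact List.getElem_mem hj2
  · intro k hk
    rw [← List.mem_reverse] at hk
    obtain ⟨j, hj, h⟩ := List.getElem_of_mem hk
    refine ⟨j, by rw [← hlen]; exact hj, ?_⟩
    show κ.reverse.getD j 0 = k
    rw [List.getD_eq_getElem _ _ hj]
    exact h
  · intro j hj j' hj' h
    have hj2 : j < κ.reverse.length := by rw [hlen]; exact hj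
    have hj2' : j' < κ.reverse.length := by rw [hlen]; exact hj'
    have h2 : κ.reverse.getD j 0 = κ.reverse.getD j' 0 := h
    rw [List.getD_eq_getElem _ _ hj2, List.getD_eq_getElem _ _ hj2'] at h2
    exact (List.Nodup.getElem_inj_iff (List.nodup_reverse.2 hκ)).1 h2
  · intro R _ x z
    exact Plw_pll R x z κ

end Pool.Agent.CRM
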