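import Pool.Agent.CRM.St

/-!
Campaign CRM, module Rum (from St_Rul): products of homogeneous nil elements, four factors (helper52).
-/

set_option autoImplicit false

namespace Pool.Agent.CRM

open Pool.Agent.CRR Pool.Agent.CRN Pool.Agent.CRK Pool.Agent.CRL

theorem Rum_mul {R : Type} [NonUnitalRing R] {s : ℕ} {e : Fin s → R} (h : Hm e)
    {α β γ : Option (Fin s)} {x y : R} (hx : Jc e α β x) (hy : Jc e β γ y) : Jc e α γ (x * y) := by
  refine ⟨⟨fun i => ?_, fun j => ?_⟩, (h.mul x y hy.2).1⟩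
  · rw [← mul_assoc, hx.1.1 i]
    split_ifs
    · rfl
    · rw [zero_mul]
  · rw [mul_assoc, hy.1.2 j]
    split_ifs
    · rfl
    · rw [mul_zero]

theorem thm_Rum (hRul : St_Rul) : St_Rum := by
  intro R _ s e he α β hne a b x y z w ha hb hx hy hz hw
  obtain ⟨r1, r2, _, r4, _⟩ := hRul R s e he α β hne
  obtain ⟨_, _, _, s4, _⟩ := hRul R s e he β α (Ne.symm hne)
  have hxy := Rum_mul he hx hy
  have hyz := Rum_mul he hy hz
  refine ⟨?_, ?_, ?_⟩
  · have h1 := (r1 a (x * y) z ha hxy hz).1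
    have h2 := (s4 b a y z hb ha hy hz).2
    have h3 : x * y * a * z = x * (y * a * z) := by
      simp only [mul_assoc]
    rw [mul_assoc a x y, h1, h3, h2, mul_zero, neg_zero]
  · have h1 := (r2 (y * z) b x hyz hb hx).1
    have h2 := (r4 a b x y ha hb hx hy).2
    have h3 : x * b * (y * z) = x * b * y * z := by
      simp only [mul_assoc]
    rw [mul_assoc x y z, h1, h3, h2, zero_mul, neg_zero]
  · have h2 := (r4 a (y * z) x w ha hyz hx hw).2
    rw [mul_assoc x y z]
    exact h2

end Pool.Agent.CRM
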