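import Pool.Agent.CRM.Stc
import Pool.Agent.CRM.Ops
import Pool.Agent.CRM.Opc
import Pool.Agent.CRM.Rut
import Pool.Agent.CRM.Rum
import Pool.Agent.CRM.Plw
import Pool.Agent.CRM.DopA

/-!
Campaign CRM, module Lex: expansion of the products of the type L.
-/

set_option autoImplicit false

namespace Pool.Agent.CRM

open Pool.Agent.CRR Pool.Agent.CRN Pool.Agent.CRK Pool.Agent.CRL

section

variable {R : Type} [NonUnitalRing R]

/-- products of `l` elements of `C` and `z`, with the condition that one of them satisfies `P` if `b` -/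
def LexB (C : Set R) (P : R → Prop) (z : R) (l : ℕ) (b : Prop) (w : R) : Prop :=
  ∃ c : ℕ → R, (∀ j, j < l → c j ∈ C) ∧ (b → ∃ j, j < l ∧ P (c j)) ∧ w = pll c z l

theorem LexB_cons {C : Set R} {P : R → Prop} {z : R} {l : ℕ} {b b' : Prop} {w a : R}
    (h : LexB C P z l b w) (ha : a ∈ C) (hb : b' → b ∨ P a) : LexB C P z (l + 1) b' (a * w) := by
  obtain ⟨c, hc, hP, rfl⟩ := h
  refine ⟨Function.update c l a, fun j hj => ?_, fun hb' => ?_, ?_⟩
  · by_cases h : j = l
    · rw [h, Function.update_self]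
      exact ha
    · rw [Function.update_of_ne h]
      exact hc j (by omega)
  · rcases hb hb' with h | h
    · obtain ⟨j, hj, h1⟩ := hP h
      refine ⟨j, by omega, ?_⟩
      rw [Function.update_of_ne (by omega)]
      exact h1
    · refine ⟨l, by omega, ?_⟩
      rw [Function.update_self]
      exact h
  · show a * pll c z l = Function.update c l a l * pll (Function.update c l a) z l
    rw [Function.update_self]
    congr 1
    refine Plw_congr _ _ _ _ fun j hj => ?_
    rw [Function.update_of_ne (by omega)]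

/-- a factor on the right -/
theorem Lex_mulr (c : ℕ → R) (z y : R) : ∀ l, pll c z l * y = pll c (z * y) l
  | 0 => rfl
  | l + 1 => by
    show c l * pll c z l * y = c l * pll c (z * y) l
    rw [mul_assoc, Lex_mulr c z y l]

/-- an operator and letters which commute with it -/
theorem Lex_opl {D : AddMonoid.End R} (c : ℕ → R) (z : R) :
    ∀ l, (∀ j, j < l → ∀ x, D (c j * x) = c j * D x) → D (pll c z l) = pll c (D z) l
  | 0, _ => rfl
  | l + 1, h => by
    show D (c l * pll c z l) = c l * pll c (D z) l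
    rw [h l (by omega), Lex_opl c z l fun j hj => h j (by omega)]

theorem Lex_opr {D : AddMonoid.End R} (c : ℕ → R) (z : R) :
    ∀ l, (∀ j, j < l → ∀ x, D (x * c j) = D x * c j) → D (prr z c l) = prr (D z) c l
  | 0, _ => rfl
  | l + 1, h => by
    show D (prr z c l * c l) = prr (D z) c l * c l
    rw [h l (by omega), Lex_opr c z l fun j hj => h j (by omega)]

variable {s : ℕ} {t : Fin s → R} {α β : Option (Fin s)}

/-- operators commute with the multiplication by a central loop from the right -/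
theorem Lex_cenr (a : R) (ha : ∀ i, β = some i → t i * a = a * t i) :
    ∀ D ∈ Ops t α β, ∀ x, D (x * a) = D x * a := by
  refine Ops_ind _ ?_ ?_ ?_ ?_ ?_ ?_ ?_
  · intro i _ x
    exact (mul_assoc (t i) x a).symm
  · intro i hi x
    change x * a * t i = x * t i * a
    rw [mul_assoc, ← ha i hi, mul_assoc]
  · intro x
    exact (zero_mul a).symm
  · intro x
    rfl
  · intro E E' h h' x
    change E (x * a) + E' (x * a) = (E x + E' x) * a
    rw [h, h', add_mul]
  · intro E h x
    change -(E (x * a)) = -(E x) * a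
    rw [h, neg_mul]
  · intro E E' h h' x
    change E (E' (x * a)) = E (E' x) * a
    rw [h', h]

/-- the group of the products with at least `L` letters -/
def LexG (t : Fin s → R) (α β : Option (Fin s)) (C : Set R) (P : R → Prop) (x y : R) (L : ℕ)
    (b : Prop) : AddSubgroup R :=
  AddSubgroup.closure {w | ∃ E ∈ Ops t α none, ∃ D ∈ Ops t α β, ∃ D' ∈ Ops t β α, ∃ (L' : ℕ) (v : R),
    L ≤ L' ∧ LexB C P (D x * D' y) L' (b ∧ L' = L) v ∧ w = E v}

theorem LexG_ind {C : Set R} {P : R → Prop} {x y : R} {L : ℕ} {b : Prop} (Q : R → Prop)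
    (hm : ∀ E ∈ Ops t α none, ∀ D ∈ Ops t α β, ∀ D' ∈ Ops t β α, ∀ (L' : ℕ) (v : R), L ≤ L' →
      LexB C P (D x * D' y) L' (b ∧ L' = L) v → Q (E v)) (h0 : Q 0)
    (ha : ∀ u v, Q u → Q v → Q (u + v)) (hn : ∀ u, Q u → Q (-u)) :
    ∀ w ∈ LexG t α β C P x y L b, Q w := by
  intro w hw
  unfold LexG at hw
  induction hw using AddSubgroup.closure_induction with
  | mem w hw =>
    obtain ⟨E, hE, D, hD, D', hD', L', v, h1, h2, rfl⟩ := hw
    exact hm E hE D hD D' hD' L' v h1 h2
  | zero => exact h0
  | add a b _ _ ha' hb' => exact ha a b ha' hb'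
  | neg a _ ha' => exact hn a ha'

theorem LexG_mono {C : Set R} {P : R → Prop} {x y : R} {L L' : ℕ} {b b' : Prop}
    (h : L < L' ∨ L = L' ∧ (b → b')) :
    LexG t α β C P x y L' b' ≤ LexG t α β C P x y L b := by
  apply AddSubgroup.closure_mono
  rintro w ⟨E, hE, D, hD, D', hD', L'', v, h1, ⟨c, h2, h3, h4⟩, rfl⟩
  refine ⟨E, hE, D, hD, D', hD', L'', v, ?_, ⟨c, h2, fun h5 => h3 ?_, h4⟩, rfl⟩
  · rcases h with h | ⟨h, -⟩ <;> omega
  · rcases h with h | ⟨h, h'⟩
    · exact absurd h5.2 (by omega)
    · exact ⟨h' h5.1, by omega⟩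

/-- a letter from the left -/
theorem LexG_cons {C : Set R} {P : R → Prop} {x y : R} {L : ℕ} {b b' : Prop} {a : R} (ha : a ∈ C)
    (hc : ∀ i, α = some i → t i * a = a * t i) (hb : b' → b ∨ P a) :
    ∀ w ∈ LexG t α β C P x y L b, a * w ∈ LexG t α β C P x y (L + 1) b' := by
  refine LexG_ind _ ?_ ?_ ?_ ?_
  · intro E hE D hD D' hD' L' v h1 h2
    refine AddSubgroup.subset_closure ⟨E, hE, D, hD, D', hD', L' + 1, a * v, by omega, ?_, ?_⟩
    · refine LexB_cons h2 ha ?_
      rintro ⟨h3, h4⟩
      rcases hb h3 with h | h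
      · exact Or.inl ⟨h, by omega⟩
      · exact Or.inr h
    · exact (Ops_cen a hc E hE v).symm
  · rw [mul_zero]
    exact AddSubgroup.zero_mem _
  · intro u v hu hv
    rw [mul_add]
    exact AddSubgroup.add_mem _ hu hv
  · intro u hu
    rw [mul_neg]
    exact AddSubgroup.neg_mem _ hu

/-- an operator -/
theorem LexG_op {C : Set R} {P : R → Prop} {x y : R} {L : ℕ} {b : Prop} {E : AddMonoid.End R}
    (hE : E ∈ Ops t α none) :
    ∀ w ∈ LexG t α β C P x y L b, E w ∈ LexG t α β C P x y L b := by
  refine LexG_ind _ ?_ ?_ ?_ ?_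
  · intro E' hE' D hD D' hD' L' v h1 h2
    exact AddSubgroup.subset_closure ⟨E * E', mul_mem hE hE', D, hD, D', hD', L', v, h1, h2, rfl⟩
  · rw [map_zero]
    exact AddSubgroup.zero_mem _
  · intro u v hu hv
    rw [map_add]
    exact AddSubgroup.add_mem _ hu hv
  · intro u hu
    rw [map_neg]
    exact AddSubgroup.neg_mem _ hu

/-- letters from the left -/
theorem LexG_pll {C : Set R} (hC : ∀ a ∈ C, ∀ i, α = some i → t i * a = a * t i) {P : R → Prop}
    {x y : R} {L : ℕ} {b : Prop} {w : R} (hw : w ∈ LexG t α β C P x y L b) (c : ℕ → R) :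
    ∀ l, (∀ j, j < l → c j ∈ C) → pll c w l ∈ LexG t α β C P x y (L + l) b
  | 0, _ => hw
  | l + 1, h => by
    show c l * pll c w l ∈ _
    exact LexG_cons (h l (by omega)) (hC _ (h l (by omega))) (fun hb => Or.inl hb) _
      (LexG_pll hC hw c l fun j hj => h j (by omega))

/-- an item from the left -/
theorem LexG_item {C : Set R} (hC : ∀ a ∈ C, ∀ i, α = some i → t i * a = a * t i) {P : R → Prop}
    {x y : R} {L : ℕ} {b : Prop} {w : R} (hw : w ∈ LexG t α β C P x y L b)
    {D : AddMonoid.End R} (hD : D ∈ Ops t α none) (c : ℕ → R) (c₀ : R) (hc₀ : c₀ ∈ C) (l : ℕ)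
    (hc : ∀ j, j < l → c j ∈ C) :
    D (pll c c₀ l) * w ∈ LexG t α β C P x y (L + 1) b := by
  rw [← Ops_left D hD, Lex_mulr]
  have h1 := LexG_cons (P := P) hc₀ (hC _ hc₀) (fun hb => Or.inl hb) w hw
  have h2 := LexG_op hD _ (LexG_pll hC h1 c l hc)
  refine LexG_mono ?_ h2
  by_cases h : l = 0
  · exact Or.inr ⟨by omega, fun hb => hb⟩
  · exact Or.inl (by omega)

end

theorem thm_Lex (hS : St_Spl) (hR : St_Rul) (hW : St_Wst) : St_Lex := by
  intro n p s R _ _ t H α β m a x y hL q hq c x' y' hx' hy'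
  obtain ⟨S0, S1, S2, S3, -, -, -⟩ := hS n p s R t H α β m a x y hL
  obtain ⟨-, W2, W3, W4⟩ := hW n p R hL.cy s t hL.cx.fr
  have he : Hm (fun i => om n (t i)) := Dop_hm hL.cy hL.cx.fr
  have hlop : ∀ u ∈ Cs n p t α m a, Lop n t α u := by
    rintro u (⟨k, hk, rfl⟩ | ⟨i, hi, rfl⟩)
    · exact hL.lo k hk
    · rw [hi]
      exact W4 i
  have hcen : ∀ u ∈ Cs n p t α m a, ∀ i, α = some i → t i * u = u * t i := fun u hu =>
    (hlop u hu).cen
  have hjc : ∀ u ∈ Cs n p t α m a, Jc (fun i => om n (t i)) α α u := fun u hu =>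
    ⟨(hlop u hu).pc, (hlop u hu).nl⟩
  have hXj : ∀ D ∈ Ops t α β, Jc (fun i => om n (t i)) α β (D x) := fun D hD =>
    Dop_jc hL.cy hL.cx.fr hD ⟨hL.ax.pc, hL.ax.nl⟩
  have hYj : ∀ D ∈ Ops t β α, Jc (fun i => om n (t i)) β α (D y) := fun D hD =>
    Dop_jc hL.cy hL.cx.fr hD ⟨hL.ay.pc, hL.ay.nl⟩
  have hrul : ∀ a x y, Jc (fun i => om n (t i)) α α a → Jc (fun i => om n (t i)) α β x →
      Jc (fun i => om n (t i)) β α y → a * x * y = -(x * y * a) := fun a x y ha hx hy =>
    ((hR R s (fun i => om n (t i)) he α β hL.ab).2.2.2.1 a 0 x y ha Rut_zero hx hy).1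
  let P : R → Prop := fun u => ∃ i, α = some i ∧ u = p • om n (t i)
  -- the product of the two arrows
  have hst : x' * y' ∈ LexG t α β (Cs n p t α m a) P x y 0 False := by
    have h1 := S1 x' hx'.1
    have h2 := S2 y' hy'.1
    clear hx' hy'
    induction h1 using AddSubgroup.closure_induction with
    | mem u hu =>
      obtain ⟨D, hD, l, c, hc, rfl⟩ := hu
      induction h2 using AddSubgroup.closure_induction with
      | mem v hv =>
        obtain ⟨D', hD', l', c', hc', rfl⟩ := hv
        rw [Lex_opl c x l fun j hj z => Ops_cen (c j) (hcen _ (hc j hj)) D hD z,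
          Lex_opr c' y l' fun j hj z => Lex_cenr (c' j) (hcen _ (hc' j hj)) D' hD' z, Lex_mulr]
        have h3 : ∀ l', (∀ j, j < l' → c' j ∈ Cs n p t α m a) →
            Jc (fun i => om n (t i)) β α (prr (D' y) c' l') ∧
            D x * prr (D' y) c' l' ∈ LexG t α β (Cs n p t α m a) P x y l' False := by
          intro l'
          induction l' with
          | zero =>
            intro _
            refine ⟨hYj D' hD', AddSubgroup.subset_closure ⟨1, one_mem _, D, hD, D', hD', 0, _,
              le_refl 0, ⟨fun _ => 0, fun j hj => absurd hj (by omega), fun h => h.1.elim, rfl⟩,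
              rfl⟩⟩
          | succ l' ih =>
            intro h
            obtain ⟨h4, h5⟩ := ih fun j hj => h j (by omega)
            have h6 := hjc _ (h l' (by omega))
            refine ⟨Rum_mul he h4 h6, ?_⟩
            have h7 : D x * prr (D' y) c' (l' + 1) = -(c' l' * (D x * prr (D' y) c' l')) := by
              show D x * (prr (D' y) c' l' * c' l') = _
              rw [← mul_assoc (c' l'), hrul _ _ _ h6 (hXj D hD) h4, neg_neg, mul_assoc]
            rw [h7]
            exact AddSubgroup.neg_mem _ (LexG_cons (h l' (by omega)) (hcen _ (h l' (by omega)))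
              (fun hb => Or.inl hb) _ h5)
        refine LexG_mono ?_ (LexG_pll hcen (h3 l' hc').2 c l hc)
        by_cases h : l' + l = 0
        · exact Or.inr ⟨by omega, fun hb => hb⟩
        · exact Or.inl (by omega)
      | zero => rw [mul_zero]; exact AddSubgroup.zero_mem _
      | add a b _ _ ha hb => rw [mul_add]; exact AddSubgroup.add_mem _ ha hb
      | neg a _ ha => rw [mul_neg]; exact AddSubgroup.neg_mem _ ha
    | zero => rw [zero_mul]; exact AddSubgroup.zero_mem _
    | add a b _ _ ha hb => rw [add_mul]; exact AddSubgroup.add_mem _ ha hb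
    | neg a _ ha => rw [neg_mul]; exact AddSubgroup.neg_mem _ ha
  -- arrows from the left
  have hz : ∀ (L : ℕ) (b : Prop) (v : R), Pc (fun i => om n (t i)) β α v →
      ∀ w ∈ LexG t α β (Cs n p t α m a) P x y L b, v * w = 0 := by
    intro L b v hv
    refine LexG_ind _ ?_ ?_ ?_ ?_
    · rintro E hE D hD D' hD' L' w - ⟨c', h1, -, rfl⟩
      have h2 : ∀ l, (∀ j, j < l → c' j ∈ Cs n p t α m a) →
          Jc (fun i => om n (t i)) α β (pll c' (D x) l) := by
        intro l
        induction l with
        | zero => intro _; exact hXj D hD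
        | succ l ih =>
          intro h
          exact Rum_mul he (hjc _ (h l (by omega))) (ih fun j hj => h j (by omega))
      rw [← Lex_mulr, Ops_left E hE, ← mul_assoc,
        S0 v _ hv (Dop_jc hL.cy hL.cx.fr (Ops_le_left hE) (h2 L' h1)).1, zero_mul]
    · rw [mul_zero]
    · intro u w hu hw
      rw [mul_add, hu, hw, add_zero]
    · intro u hu
      rw [mul_neg, hu, neg_zero]
  -- loops from the left
  have hJ : ∀ (L : ℕ) (b : Prop) (u : R), Jc (fun i => om n (t i)) α α u →
      ∀ w ∈ LexG t α β (Cs n p t α m a) P x y L b,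
        u * w ∈ LexG t α β (Cs n p t α m a) P x y (L + 1) b := by
    intro L b u hu w hw
    have h1 := S3 u hu
    clear hu
    induction h1 using AddSubgroup.closure_induction with
    | mem u hu =>
      rcases hu with ⟨D, hD, l, c', c₀, hc', hc₀, rfl⟩ | ⟨v, v', hv, hv', rfl⟩
      · exact LexG_item hcen hw hD c' c₀ hc₀ l hc'
      · rw [mul_assoc, hz L b v' hv'.1 w hw, mul_zero]
        exact AddSubgroup.zero_mem _
    | zero => rw [zero_mul]; exact AddSubgroup.zero_mem _
    | add a b _ _ ha hb => rw [add_mul]; exact AddSubgroup.add_mem _ ha hb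
    | neg a _ ha => rw [neg_mul]; exact AddSubgroup.neg_mem _ ha
  have hJW : ∀ (L : ℕ) (b : Prop) (u : R), Jc (fun i => om n (t i)) α α u →
      u ∈ NonUnitalSubring.closure (Set.range t) →
      ∀ w ∈ LexG t α β (Cs n p t α m a) P x y L b,
        u * w ∈ LexG t α β (Cs n p t α m a) P x y (L + 1) True := by
    intro L b u hu huW w hw
    rcases hα : α with _ | i
    · rw [W2 u huW none none (Or.inr rfl) (hα ▸ hu.1), zero_mul]
      exact AddSubgroup.zero_mem _
    · subst hα
      obtain ⟨D, hD, rfl⟩ := W3 u huW i hu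
      rw [← Ops_left D hD]
      refine LexG_op hD _ ?_
      have h1 : p • om n (t i) ∈ Cs n p t (some i) m a := Or.inr ⟨i, rfl, rfl⟩
      exact LexG_cons h1 (hcen _ h1) (fun _ => Or.inr ⟨i, rfl, rfl⟩) w hw
  have hmain : ∀ l, (∀ j, j < l → Jc (fun i => om n (t i)) α α (c j)) →
      pll c (x' * y') l ∈ LexG t α β (Cs n p t α m a) P x y l False := by
    intro l
    induction l with
    | zero => intro _; exact hst
    | succ l ih =>
      intro h
      exact hJ l False (c l) (h l (by omega)) _ (ih fun j hj => h j (by omega))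
  have hmainW : ∀ k, c k ∈ NonUnitalSubring.closure (Set.range t) → ∀ l, k < l →
      (∀ j, j < l → Jc (fun i => om n (t i)) α α (c j)) →
      pll c (x' * y') l ∈ LexG t α β (Cs n p t α m a) P x y l True := by
    intro k hk l
    induction l with
    | zero => intro h; exact absurd h (by omega)
    | succ l ih =>
      intro h1 h2
      by_cases h3 : k = l
      · subst h3
        exact hJW k False (c k) (h2 k (by omega)) hk _ (hmain k fun j hj => h2 j (by omega))
      · exact hJ l True (c l) (h2 l (by omega)) _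
          (ih (by omega) fun j hj => h2 j (by omega))
  have hgt : ∀ L, m < L → ∀ b : Prop, ∀ w ∈ LexG t α β (Cs n p t α m a) P x y L b, q • w = 0 := by
    intro L hmL b
    refine LexG_ind _ ?_ ?_ ?_ ?_
    · rintro E hE D hD D' hD' L' w hLL ⟨c', h1, -, rfl⟩
      rw [← map_nsmul, hq.gt D hD D' hD' L' c' h1 (by omega), map_zero]
    · rw [smul_zero]
    · intro u w hu hw
      rw [smul_add, hu, hw, add_zero]
    · intro u hu
      rw [smul_neg, hu, neg_zero]
  refine ⟨fun l hl h => hgt l hl False _ (hmain l h), fun h => ⟨?_, ?_⟩⟩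
  · have h1 : ∀ w ∈ LexG t α β (Cs n p t α m a) P x y m False, p • (q • w) = 0 := by
      refine LexG_ind _ ?_ ?_ ?_ ?_
      · rintro E hE D hD D' hD' L' w hLL ⟨c', h1, -, rfl⟩
        rcases Nat.lt_or_ge m L' with h2 | h2
        · rw [← map_nsmul, hq.gt D hD D' hD' L' c' h1 h2, map_zero, smul_zero]
        · have h3 : L' = m := le_antisymm h2 hLL
          subst h3
          rw [← map_nsmul, ← map_nsmul, hq.pz D hD D' hD' c' h1, map_zero]
      · rw [smul_zero, smul_zero]
      · intro u w hu hw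
        rw [smul_add, smul_add, hu, hw, add_zero]
      · intro u hu
        rw [smul_neg, smul_neg, hu, neg_zero]
    exact h1 _ (hmain m h)
  · rintro ⟨k, hk, hkW⟩
    have h1 : ∀ w ∈ LexG t α β (Cs n p t α m a) P x y m True, q • w = 0 := by
      refine LexG_ind _ ?_ ?_ ?_ ?_
      · rintro E hE D hD D' hD' L' w hLL ⟨c', h1, h1P, rfl⟩
        rcases Nat.lt_or_ge m L' with h2 | h2
        · rw [← map_nsmul, hq.gt D hD D' hD' L' c' h1 h2, map_zero]
        · have h3 : L' = m := le_antisymm h2 hLL
          subst h3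
          rw [← map_nsmul, hq.pe D hD D' hD' c' h1 (h1P ⟨trivial, rfl⟩), map_zero]
      · rw [smul_zero]
      · intro u w hu hw
        rw [smul_add, hu, hw, add_zero]
      · intro u hu
        rw [smul_neg, hu, neg_zero]
    exact h1 _ (hmainW k hkW m hk h)

end Pool.Agent.CRM
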