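import Pool.Agent.CRM.Std
import Pool.Agent.CRL.All
import Pool.Agent.CRN.Sir

/-!
Campaign CRM, module Lgf: critical local rings are of the local type.
-/

set_option autoImplicit false

namespace Pool.Agent.CRM

open Pool.Agent.CRR Pool.Agent.CRN Pool.Agent.CRK Pool.Agent.CRL

section words

variable {R : Type} [NonUnitalRing R]

/-- The product of a list, `e` for the empty list. -/
def Lgf_wpe (e : R) (l : List R) : R := l.foldr (fun x y => x * y) e

/-- `t^D`, `e` for `D = 0`. -/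
def Lgf_tp (e t : R) (D : ℕ) : R := Lgf_wpe e (List.replicate D t)

theorem Lgf_wpe_cons (e x : R) (l : List R) : Lgf_wpe e (x :: l) = x * Lgf_wpe e l := rfl

theorem Lgf_wpe_app {e : R} (he : ∀ x, e * x = x) (l l' : List R) :
    Lgf_wpe e (l ++ l') = Lgf_wpe e l * Lgf_wpe e l' := by
  induction l with
  | nil => exact (he _).symm
  | cons x l ih => rw [List.cons_append, Lgf_wpe_cons, Lgf_wpe_cons, ih, mul_assoc]

theorem Lgf_wp {e : R} (he : ∀ x, x * e = x) (l : List R) (hl : l ≠ []) : wp l = Lgf_wpe e l := by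
  induction l with
  | nil => exact absurd rfl hl
  | cons x l ih =>
    cases l with
    | nil => exact (he x).symm
    | cons y l =>
      rw [Lgf_wpe_cons, ← ih (by simp)]
      rfl

theorem Lgf_tp_zero (e t : R) : Lgf_tp e t 0 = e := rfl

theorem Lgf_tp_succ (e t : R) (D : ℕ) : Lgf_tp e t (D + 1) = t * Lgf_tp e t D := rfl

theorem Lgf_tp_add {e : R} (he : ∀ x, e * x = x) (t : R) (A B : ℕ) :
    Lgf_tp e t (A + B) = Lgf_tp e t A * Lgf_tp e t B := by
  unfold Lgf_tp
  rw [List.replicate_add, Lgf_wpe_app he]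

theorem Lgf_pw {e : R} (he : ∀ x, e * x = x ∧ x * e = x) (t : R) (k : ℕ) :
    pw t k = Lgf_tp e t (k + 1) := by
  induction k with
  | zero => exact ((he t).2).symm
  | succ k ih =>
    show pw t k * t = _
    rw [ih, Lgf_tp_add (fun x => (he x).1) t (k + 1) 1]
    congr 1
    exact ((he t).2).symm

theorem Lgf_comm {e : R} (he : ∀ x, e * x = x ∧ x * e = x) (t x : R) (a : ℕ)
    (h : x * t = pw t a * x) (D : ℕ) :
    x * Lgf_tp e t D = Lgf_tp e t ((a + 1) * D) * x := by
  induction D with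
  | zero =>
    rw [Nat.mul_zero, Lgf_tp_zero, (he x).1, (he x).2]
  | succ D ih =>
    rw [Lgf_tp_succ, ← mul_assoc, h, mul_assoc, ih, ← mul_assoc, Lgf_pw he,
      ← Lgf_tp_add fun x => (he x).1]
    congr 2
    ring

theorem Lgf_tp_mul {e : R} (he : ∀ x, e * x = x ∧ x * e = x) (t : R) (N : ℕ)
    (h : Lgf_tp e t N = e) (k : ℕ) : Lgf_tp e t (N * k) = e := by
  induction k with
  | zero => rfl
  | succ k ih =>
    rw [Nat.mul_succ, Lgf_tp_add fun x => (he x).1, ih, h, (he e).1]

/-- The residue of `D` modulo `N` between `1` and `N`. -/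
def Lgf_red (N D : ℕ) : ℕ := D % N + if D % N = 0 then N else 0

theorem Lgf_red_le {N : ℕ} (hN : 1 ≤ N) (D : ℕ) : 1 ≤ Lgf_red N D ∧ Lgf_red N D ≤ N := by
  unfold Lgf_red
  have h1 : D % N < N := Nat.mod_lt _ hN
  split
  · omega
  · omega

theorem Lgf_tp_red {e : R} (he : ∀ x, e * x = x ∧ x * e = x) (t : R) (N : ℕ)
    (h : Lgf_tp e t N = e) (D : ℕ) : Lgf_tp e t (Lgf_red N D) = Lgf_tp e t D := by
  have h1 : Lgf_tp e t D = Lgf_tp e t (D % N) := by
    have h2 : D = D % N + N * (D / N) := (Nat.mod_add_div D N).symm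
    nth_rewrite 1 [h2]
    rw [Lgf_tp_add (fun x => (he x).1), Lgf_tp_mul he t N h, (he _).2]
  rw [h1]
  unfold Lgf_red
  split
  · rename_i h2
    rw [h2, Nat.zero_add, h]
    rfl
  · rfl

/-- The number of the letters `t` and the remaining word. -/
def Lgf_nu (ι d a : ℕ → ℕ) : List ℕ → ℕ × List ℕ
  | [] => (0, [])
  | 0 :: w => ((Lgf_nu ι d a w).1 + 1, (Lgf_nu ι d a w).2)
  | (k + 1) :: w => (d k + 1 + (a (ι k) + 1) * (Lgf_nu ι d a w).1, ι k :: (Lgf_nu ι d a w).2)

theorem Lgf_nu_mem (ι d a : ℕ → ℕ) (w : List ℕ) (i : ℕ) :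
    i ∈ (Lgf_nu ι d a w).2 ↔ ∃ k, k + 1 ∈ w ∧ i = ι k := by
  induction w with
  | nil => simp [Lgf_nu]
  | cons x w ih =>
    cases x with
    | zero =>
      show i ∈ (Lgf_nu ι d a w).2 ↔ _
      rw [ih]
      constructor
      · rintro ⟨k, hk, rfl⟩
        exact ⟨k, List.mem_cons_of_mem _ hk, rfl⟩
      · rintro ⟨k, hk, rfl⟩
        rcases List.mem_cons.1 hk with h | h
        · omega
        · exact ⟨k, h, rfl⟩
    | succ m =>
      show i ∈ ι m :: (Lgf_nu ι d a w).2 ↔ _
      rw [List.mem_cons, ih]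
      constructor
      · rintro (h | ⟨k, hk, rfl⟩)
        · exact ⟨m, List.mem_cons_self, h⟩
        · exact ⟨k, List.mem_cons_of_mem _ hk, rfl⟩
      · rintro ⟨k, hk, rfl⟩
        rcases List.mem_cons.1 hk with h | h
        · left
          have : k = m := by omega
          rw [this]
        · exact Or.inr ⟨k, h, rfl⟩

theorem Lgf_nu_val {e : R} (he : ∀ x, e * x = x ∧ x * e = x) (ι d a : ℕ → ℕ) (b : ℕ) (t : R)
    (u y : ℕ → R) (h0 : u 0 = t) (hu : ∀ k, k < b → u (k + 1) = pw t (d k) * y (ι k))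
    (hy : ∀ k, k < b → y (ι k) * t = pw t (a (ι k)) * y (ι k)) (w : List ℕ)
    (hw : ∀ i ∈ w, i ≤ b) : Lgf_wpe e (w.map u) =
      Lgf_tp e t (Lgf_nu ι d a w).1 * Lgf_wpe e ((Lgf_nu ι d a w).2.map y) := by
  induction w with
  | nil => exact ((he e).1).symm
  | cons x w ih =>
    have ih' := ih fun i hi => hw i (List.mem_cons_of_mem _ hi)
    cases x with
    | zero =>
      rw [List.map_cons, Lgf_wpe_cons, ih', h0]
      show t * _ = Lgf_tp e t ((Lgf_nu ι d a w).1 + 1) * Lgf_wpe e ((Lgf_nu ι d a w).2.map y)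
      rw [Lgf_tp_succ, mul_assoc]
    | succ k =>
      have hk : k < b := by
        have := hw (k + 1) List.mem_cons_self
        omega
      rw [List.map_cons, Lgf_wpe_cons, ih', hu k hk]
      show _ = Lgf_tp e t (d k + 1 + (a (ι k) + 1) * (Lgf_nu ι d a w).1) *
        Lgf_wpe e ((ι k :: (Lgf_nu ι d a w).2).map y)
      rw [List.map_cons, Lgf_wpe_cons, Lgf_tp_add fun x => (he x).1, ← Lgf_pw he]
      simp only [mul_assoc]
      rw [← mul_assoc (y (ι k)), Lgf_comm he t _ _ (hy k hk)]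
      simp only [mul_assoc]

theorem Lgf_filter (L : List (ℤ × ℕ × List ℕ)) (P : ℤ × ℕ × List ℕ → Bool) {g : ℕ} (t : R)
    (x : Fin g → R)
    (h : ∀ q ∈ L, P q = false → wp (List.replicate q.2.1 t ++ q.2.2.map (xs x)) = 0) :
    Vl (L.filter P) t x = Vl L t x := by
  induction L with
  | nil => rfl
  | cons q L ih =>
    have ih' := ih fun q hq => h q (List.mem_cons_of_mem _ hq)
    unfold Vl at ih' ⊢
    cases hq : P q with
    | true =>
      rw [List.filter_cons_of_pos hq, List.map_cons, List.sum_cons, List.map_cons, List.sum_cons,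
        ih']
    | false =>
      rw [List.filter_cons_of_neg (by simp [hq]), List.map_cons, List.sum_cons, ih',
        h q List.mem_cons_self hq, smul_zero, zero_add]

end words

section funs

variable {R : Type} [NonUnitalRing R]

theorem Lgf_upd {n b : ℕ} {v : ℕ → R} (hv : Vec n 1 b v) (k : ℕ) {y : R} (hy : Nl y) :
    Vec n 1 b (Function.update v (1 + k) y) := by
  refine ⟨?_, fun j hj => ?_⟩
  · have h1 : (fun i : Fin 1 => Function.update v (1 + k) y i) = fun i : Fin 1 => v i := by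
      funext i
      rw [Function.update_of_ne]
      have := i.2
      omega
    rw [h1]
    exact hv.1
  · by_cases h : 1 + j = 1 + k
    · rw [h, Function.update_self]
      exact hy
    · rw [Function.update_of_ne h]
      exact hv.2 j hj

variable {n b : ℕ} {H : AddSubgroup R} {φ : (ℕ → R) → R}

theorem Lgf_upd_zero (hφ : Gc n 1 b H φ) {v : ℕ → R} (hv : Vec n 1 b v) {k : ℕ} (hk : k < b) :
    φ (Function.update v (1 + k) 0) = 0 := by
  have h0 : Nl (0 : R) := by simp [Nl]
  exact hφ.zer _ (Lgf_upd hv k h0) k hk (by rw [Function.update_self])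

theorem Lgf_neg (hφ : Gc n 1 b H φ) {J : AddSubgroup R} (hJm : ∀ x, x ∈ J ↔ Nl x) {v : ℕ → R}
    (hv : Vec n 1 b v) {k : ℕ} (hk : k < b) (x : R) (hx : Nl x) :
    φ (Function.update v (1 + k) (-x)) = -(φ (Function.update v (1 + k) x)) := by
  have hx' : Nl (-x) := (hJm _).1 (J.neg_mem ((hJm x).2 hx))
  have h1 := hφ.add v hv k hk x (-x) hx hx'
  rw [add_neg_cancel, Lgf_upd_zero hφ hv hk] at h1
  exact eq_neg_of_add_eq_zero_right h1.symm

/-- `φ` vanishes at `JW`. -/
theorem Lgf_JW (hφ : Gc n 1 b H φ) {J : AddSubgroup R} (hJ : Idl R J)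
    (hJm : ∀ x, x ∈ J ↔ Nl x) {v : ℕ → R} (hv : Vec n 1 b v) {k : ℕ} (hk : k < b) (x : R)
    (hx : x ∈ JW (v 0)) : Nl x ∧ φ (Function.update v (1 + k) x) = 0 := by
  induction hx using AddSubgroup.closure_induction with
  | mem x hx =>
    rcases hx with ⟨y, z, hy, hz, rfl⟩ | ⟨h1, h2⟩
    · exact ⟨(hJm _).1 (hJ y z ((hJm z).2 hz)).1, hφ.sq v hv k hk y z hy hz⟩
    · refine ⟨h2, hφ.cf _ (Lgf_upd hv k h2) k hk ?_⟩
      rw [Function.update_self]
      refine NonUnitalSubring.closure_mono ?_ h1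
      rintro y rfl
      refine ⟨0, by omega, ?_⟩
      rw [Function.update_of_ne (by omega)]
  | zero => exact ⟨by simp [Nl], Lgf_upd_zero hφ hv hk⟩
  | add x y _ _ hx hy =>
    refine ⟨(hJm _).1 (J.add_mem ((hJm x).2 hx.1) ((hJm y).2 hy.1)), ?_⟩
    rw [hφ.add v hv k hk x y hx.1 hy.1, hx.2, hy.2, add_zero]
  | neg x _ hx =>
    refine ⟨(hJm _).1 (J.neg_mem ((hJm x).2 hx.1)), ?_⟩
    rw [Lgf_neg hφ hJm hv hk x hx.1, hx.2, neg_zero]

theorem Lgf_diff (hφ : Gc n 1 b H φ) {J : AddSubgroup R} (hJ : Idl R J)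
    (hJm : ∀ x, x ∈ J ↔ Nl x) {v : ℕ → R} (hv : Vec n 1 b v) {k : ℕ} (hk : k < b) (x y : R)
    (hy : Nl y) (h : x - y ∈ JW (v 0)) :
    φ (Function.update v (1 + k) x) = φ (Function.update v (1 + k) y) := by
  obtain ⟨h1, h2⟩ := Lgf_JW hφ hJ hJm hv hk _ h
  have h3 := hφ.add v hv k hk y (x - y) hy h1
  rw [h2, add_zero, add_sub_cancel] at h3
  exact h3

theorem Lgf_hyb (hφ : Gc n 1 b H φ) {J : AddSubgroup R} (hJ : Idl R J)
    (hJm : ∀ x, x ∈ J ↔ Nl x) {v v' : ℕ → R} (hv : Vec n 1 b v) (hv' : Vec n 1 b v')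
    (h0 : v 0 = v' 0) (h : ∀ k, k < b → v (1 + k) - v' (1 + k) ∈ JW (v 0)) : φ v = φ v' := by
  have key : ∀ j, j ≤ b → Vec n 1 b (fun i => if i < 1 + j then v' i else v i) ∧
      φ (fun i => if i < 1 + j then v' i else v i) = φ v := by
    intro j hj
    induction j with
    | zero =>
      have h1 : (fun i => if i < 1 + 0 then v' i else v i) = v := by
        funext i
        split
        · have : i = 0 := by omega
          rw [this, h0]
        · rfl
      rw [h1]
      exact ⟨hv, rfl⟩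
    | succ j ih =>
      obtain ⟨h1, h2⟩ := ih (by omega)
      have h3 : (fun i => if i < 1 + (j + 1) then v' i else v i) =
          Function.update (fun i => if i < 1 + j then v' i else v i) (1 + j) (v' (1 + j)) := by
        funext i
        by_cases hi : i = 1 + j
        · rw [hi, Function.update_self, if_pos (by omega)]
        · rw [Function.update_of_ne hi]
          by_cases hi' : i < 1 + j
          · rw [if_pos (by omega), if_pos hi']
          · rw [if_neg (by omega), if_neg hi']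
      have h4 : (fun i => if i < 1 + j then v' i else v i) =
          Function.update (fun i => if i < 1 + j then v' i else v i) (1 + j) (v (1 + j)) := by
        funext i
        by_cases hi : i = 1 + j
        · rw [hi, Function.update_self, if_neg (by omega)]
        · rw [Function.update_of_ne hi]
      rw [h3]
      refine ⟨Lgf_upd h1 j (hv'.2 j (by omega)), ?_⟩
      rw [← h2]
      have h5 : φ (fun i => if i < 1 + j then v' i else v i) =
          φ (Function.update (fun i => if i < 1 + j then v' i else v i) (1 + j) (v (1 + j))) :=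
        congrArg φ h4
      rw [h5]
      refine (Lgf_diff hφ hJ hJm h1 (by omega : j < b) _ _ (hv'.2 j (by omega)) ?_).symm
      have h6 : (if (0 : ℕ) < 1 + j then v' 0 else v 0) = v 0 := by
        rw [if_pos (by omega), h0]
      show v (1 + j) - v' (1 + j) ∈ JW (if (0 : ℕ) < 1 + j then v' 0 else v 0)
      rw [h6]
      exact h j (by omega)
  obtain ⟨h1, h2⟩ := key b le_rfl
  rw [← h2]
  refine hφ.dep _ _ fun i hi => ?_
  show (if i < 1 + b then v' i else v i) = v' i
  rw [if_pos hi]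

/-- The group generated by the `t^d z_i`. -/
def Lgf_C {g : ℕ} (t : R) (z : Fin g → R) : AddSubgroup R :=
  AddSubgroup.closure {y | ∃ (i : Fin g) (d : ℕ), y = pw t d * z i}

theorem Lgf_J2 {J : AddSubgroup R} (hJ : Idl R J) (hJm : ∀ x, x ∈ J ↔ Nl x) : Idl R (J2 R) := by
  intro r x hx
  induction hx using AddSubgroup.closure_induction with
  | mem x hx =>
    obtain ⟨y, z, hy, hz, rfl⟩ := hx
    constructor
    · refine AddSubgroup.subset_closure ⟨r * y, z, (hJm _).1 (hJ r y ((hJm y).2 hy)).1, hz, ?_⟩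
      rw [mul_assoc]
    · refine AddSubgroup.subset_closure ⟨y, z * r, hy, (hJm _).1 (hJ r z ((hJm z).2 hz)).2, ?_⟩
      rw [mul_assoc]
  | zero => rw [mul_zero, zero_mul]; exact ⟨(J2 R).zero_mem, (J2 R).zero_mem⟩
  | add x y _ _ hx hy =>
    rw [mul_add, add_mul]
    exact ⟨(J2 R).add_mem hx.1 hy.1, (J2 R).add_mem hx.2 hy.2⟩
  | neg x _ hx =>
    rw [mul_neg, neg_mul]
    exact ⟨(J2 R).neg_mem hx.1, (J2 R).neg_mem hx.2⟩

theorem Lgf_C_t {g : ℕ} {t : R} {z : Fin g → R} {a : Fin g → ℕ}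
    (hz : ∀ i, z i * t = pw t (a i) * z i) (c : R) (hc : c ∈ Lgf_C t z) :
    t * c ∈ Lgf_C t z ∧ c * t ∈ Lgf_C t z := by
  induction hc using AddSubgroup.closure_induction with
  | mem x hx =>
    obtain ⟨i, d, rfl⟩ := hx
    constructor
    · refine AddSubgroup.subset_closure ⟨i, d + 1, ?_⟩
      have h1 : t * pw t d = pw t (d + 1) := by
        have := Pws_mul t 0 d
        rw [Nat.zero_add] at this
        exact this
      rw [← mul_assoc, h1]
    · refine AddSubgroup.subset_closure ⟨i, d + a i + 1, ?_⟩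
      rw [mul_assoc, hz, ← mul_assoc, Pws_mul]
  | zero => rw [mul_zero, zero_mul]; exact ⟨(Lgf_C t z).zero_mem, (Lgf_C t z).zero_mem⟩
  | add x y _ _ hx hy =>
    rw [mul_add, add_mul]
    exact ⟨(Lgf_C t z).add_mem hx.1 hy.1, (Lgf_C t z).add_mem hx.2 hy.2⟩
  | neg x _ hx =>
    rw [mul_neg, neg_mul]
    exact ⟨(Lgf_C t z).neg_mem hx.1, (Lgf_C t z).neg_mem hx.2⟩

theorem Lgf_C_w {g : ℕ} {t : R} {z : Fin g → R} {a : Fin g → ℕ}
    (hz : ∀ i, z i * t = pw t (a i) * z i) (w : R)
    (hw : w ∈ NonUnitalSubring.closure ({t} : Set R)) :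
    ∀ c ∈ Lgf_C t z, w * c ∈ Lgf_C t z ∧ c * w ∈ Lgf_C t z := by
  induction hw using NonUnitalSubring.closure_induction with
  | mem x hx =>
    rw [Set.mem_singleton_iff] at hx
    subst hx
    exact fun c hc => Lgf_C_t hz c hc
  | zero =>
    intro c _
    rw [mul_zero, zero_mul]
    exact ⟨(Lgf_C t z).zero_mem, (Lgf_C t z).zero_mem⟩
  | add x y _ _ hx hy =>
    intro c hc
    rw [mul_add, add_mul]
    exact ⟨(Lgf_C t z).add_mem (hx c hc).1 (hy c hc).1,
      (Lgf_C t z).add_mem (hx c hc).2 (hy c hc).2⟩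
  | neg x _ hx =>
    intro c hc
    rw [mul_neg, neg_mul]
    exact ⟨(Lgf_C t z).neg_mem (hx c hc).1, (Lgf_C t z).neg_mem (hx c hc).2⟩
  | mul x y _ _ hx hy =>
    intro c hc
    rw [mul_assoc x y c, ← mul_assoc c x y]
    exact ⟨(hx _ (hy c hc).1).1, (hy _ (hx c hc).2).2⟩

theorem Lgf_C_nl {g : ℕ} {J : AddSubgroup R} (hJ : Idl R J) (hJm : ∀ x, x ∈ J ↔ Nl x) {t : R}
    {z : Fin g → R} (hz : ∀ i, Nl (z i)) (c : R) (hc : c ∈ Lgf_C t z) : Nl c := by
  rw [← hJm]
  refine (AddSubgroup.closure_le J).2 ?_ hc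
  rintro x ⟨i, d, rfl⟩
  exact (hJ _ _ ((hJm _).2 (hz i))).1

/-- Every element is a sum of an element of the subring generated by `t`, of an element of `C` and of an
element of `J2`. -/
theorem Lgf_dec {g : ℕ} {J : AddSubgroup R} (hJ : Idl R J) (hJm : ∀ x, x ∈ J ↔ Nl x) {t : R}
    {z : Fin g → R} {a : Fin g → ℕ} (hz : ∀ i, Nl (z i) ∧ z i * t = pw t (a i) * z i) (N : ℕ)
    (hN : ∀ i, pw t N * z i = z i)
    (hg : NonUnitalSubring.closure ({t} ∪ Set.range z) = ⊤) (x : R) :
    ∃ w ∈ NonUnitalSubring.closure ({t} : Set R), ∃ c ∈ Lgf_C t z, ∃ j ∈ J2 R, x = w + c + j := by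
  have hx : x ∈ NonUnitalSubring.closure ({t} ∪ Set.range z) := by
    rw [hg]
    exact NonUnitalSubring.mem_top x
  have hz2 := fun i => (hz i).2
  have hI := Lgf_J2 hJ hJm
  induction hx using NonUnitalSubring.closure_induction with
  | mem x hx =>
    rcases hx with hx | ⟨i, rfl⟩
    · rw [Set.mem_singleton_iff] at hx
      subst hx
      exact ⟨x, NonUnitalSubring.subset_closure rfl, 0, (Lgf_C x z).zero_mem, 0,
        (J2 R).zero_mem, by rw [add_zero, add_zero]⟩
    · refine ⟨0, NonUnitalSubring.zero_mem _, z i, AddSubgroup.subset_closure ⟨i, N, (hN i).symm⟩,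
        0, (J2 R).zero_mem, by rw [add_zero, zero_add]⟩
  | zero =>
    exact ⟨0, NonUnitalSubring.zero_mem _, 0, (Lgf_C t z).zero_mem, 0, (J2 R).zero_mem, by simp⟩
  | add x y _ _ hx hy =>
    obtain ⟨w, hw, c, hc, j, hj, rfl⟩ := hx
    obtain ⟨w', hw', c', hc', j', hj', rfl⟩ := hy
    exact ⟨w + w', add_mem hw hw', c + c', add_mem hc hc', j + j', add_mem hj hj', by abel⟩
  | neg x _ hx =>
    obtain ⟨w, hw, c, hc, j, hj, rfl⟩ := hx
    exact ⟨-w, neg_mem hw, -c, neg_mem hc, -j, neg_mem hj, by abel⟩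
  | mul x y _ _ hx hy =>
    obtain ⟨w, hw, c, hc, j, hj, rfl⟩ := hx
    obtain ⟨w', hw', c', hc', j', hj', rfl⟩ := hy
    have hcn := Lgf_C_nl hJ hJm (fun i => (hz i).1) c hc
    have hcn' := Lgf_C_nl hJ hJm (fun i => (hz i).1) c' hc'
    refine ⟨w * w', mul_mem hw hw', w * c' + c * w',
      add_mem (Lgf_C_w hz2 w hw c' hc').1 (Lgf_C_w hz2 w' hw' c hc).2,
      c * c' + (w + c) * j' + j * (w' + c' + j'), ?_, ?_⟩
    · refine add_mem (add_mem (AddSubgroup.subset_closure ⟨c, c', hcn, hcn', rfl⟩)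
        (hI _ j' hj').1) (hI _ j hj).2
    · simp only [mul_add, add_mul]
      abel

theorem Lgf_nil {g : ℕ} {J : AddSubgroup R} (hJ : Idl R J) (hJm : ∀ x, x ∈ J ↔ Nl x) {t : R}
    {z : Fin g → R} {a : Fin g → ℕ} (hz : ∀ i, Nl (z i) ∧ z i * t = pw t (a i) * z i) (N : ℕ)
    (hN : ∀ i, pw t N * z i = z i)
    (hg : NonUnitalSubring.closure ({t} ∪ Set.range z) = ⊤) (x : R) (hx : Nl x) :
    ∃ c ∈ Lgf_C t z, x - c ∈ JW t := by
  obtain ⟨w, hw, c, hc, j, hj, rfl⟩ := Lgf_dec hJ hJm hz N hN hg x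
  have hcn := Lgf_C_nl hJ hJm (fun i => (hz i).1) c hc
  have hjJ : J2 R ≤ J := by
    refine (AddSubgroup.closure_le J).2 ?_
    rintro y ⟨p, q, hp, _, rfl⟩
    exact (hJ q p ((hJm p).2 hp)).2
  have hjW : J2 R ≤ JW t := by
    refine (AddSubgroup.closure_le (JW t)).2 ?_
    intro y hy
    exact AddSubgroup.subset_closure (Or.inl hy)
  have hwn : Nl w := by
    rw [← hJm]
    have h1 : w = (w + c + j) - c - j := by abel
    rw [h1]
    exact J.sub_mem (J.sub_mem ((hJm _).2 hx) ((hJm _).2 hcn)) (hjJ hj)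
  refine ⟨c, hc, ?_⟩
  have h2 : w + c + j - c = w + j := by abel
  rw [h2]
  exact add_mem (AddSubgroup.subset_closure (Or.inr ⟨hw, hwn⟩)) (hjW hj)

/-- A nonzero value at elements `t^d z_i`. -/
theorem Lgf_hom (hφ : Gc n 1 b H φ) {g : ℕ} {J : AddSubgroup R} (hJ : Idl R J)
    (hJm : ∀ x, x ∈ J ↔ Nl x) {t : R} {z : Fin g → R} (hz : ∀ i, Nl (z i))
    (hC : ∀ x, Nl x → ∃ c ∈ Lgf_C t z, x - c ∈ JW t) {v : ℕ → R} (hv : Vec n 1 b v)
    (h0 : v 0 = t) (hne : φ v ≠ 0) : ∃ v', Vec n 1 b v' ∧ v' 0 = t ∧ φ v' ≠ 0 ∧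
      ∀ k, k < b → ∃ (i : Fin g) (d : ℕ), v' (1 + k) = pw t d * z i := by
  have key : ∀ j, j ≤ b → ∃ v', Vec n 1 b v' ∧ v' 0 = t ∧ φ v' ≠ 0 ∧
      ∀ k, k < j → ∃ (i : Fin g) (d : ℕ), v' (1 + k) = pw t d * z i := by
    intro j hj
    induction j with
    | zero => exact ⟨v, hv, h0, hne, fun k hk => by omega⟩
    | succ j ih =>
      obtain ⟨v', hv', h0', hne', hh⟩ := ih (by omega)
      have hjb : j < b := by omega
      by_cases hex : ∃ (i : Fin g) (d : ℕ),
          φ (Function.update v' (1 + j) (pw t d * z i)) ≠ 0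
      · obtain ⟨i, d, hid⟩ := hex
        have hn : Nl (pw t d * z i) := (hJm _).1 (hJ _ _ ((hJm _).2 (hz i))).1
        refine ⟨_, Lgf_upd hv' j hn, ?_, hid, fun k hk => ?_⟩
        · rw [Function.update_of_ne (by omega)]
          exact h0'
        · by_cases hkj : k = j
          · refine ⟨i, d, ?_⟩
            rw [hkj, Function.update_self]
          · rw [Function.update_of_ne (by omega)]
            exact hh k (by omega)
      · exfalso
        push Not at hex
        have hcz : ∀ c ∈ Lgf_C t z, φ (Function.update v' (1 + j) c) = 0 := by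
          intro c hc
          have hcn : ∀ c ∈ Lgf_C t z, Nl c := Lgf_C_nl hJ hJm hz
          induction hc using AddSubgroup.closure_induction with
          | mem x hx =>
            obtain ⟨i, d, rfl⟩ := hx
            exact hex i d
          | zero => exact Lgf_upd_zero hφ hv' hjb
          | add x y hx' hy' hx hy => rw [hφ.add v' hv' j hjb x y (hcn x hx') (hcn y hy'), hx, hy, add_zero]
          | neg x hx' hx => rw [Lgf_neg hφ hJm hv' hjb x (hcn x hx'), hx, neg_zero]
        obtain ⟨c, hc, hxc⟩ := hC (v' (1 + j)) (hv'.2 j hjb)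
        apply hne'
        have h1 : Function.update v' (1 + j) (v' (1 + j)) = v' := Function.update_eq_self _ _
        rw [← h1, Lgf_diff hφ hJ hJm hv' hjb (v' (1 + j)) c (Lgf_C_nl hJ hJm hz c hc)
          (by rw [h0']; exact hxc)]
        exact hcz c hc
  exact key b le_rfl

end funs

/-- One idempotent. -/
theorem Lgf_one {n p : ℕ} {R : Type} [NonUnitalRing R] [Finite R] (hC : Cy R n p) {e : R}
    (hp : Prm R e) (he : ∀ x, e * x = x ∧ x * e = x) {s : ℕ} {t : Fin s → R}
    (ht : Frame R n s t) : s = 1 := by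
  obtain ⟨hP, -, -⟩ := CRL.fpr n p R hC s t ht
  have h1 : ∀ i, om n (t i) = e := by
    intro i
    obtain ⟨a1, a2, -⟩ := hP.prm i
    rcases hp.2.2 (om n (t i)) a1 (he _).1 (he _).2 with h | h
    · exact absurd h a2
    · exact h
  have h2 : ∀ i j : Fin s, i = j := by
    intro i j
    by_contra hij
    have := hP.orth i j hij
    simp only [h1] at this
    rw [hp.1] at this
    exact hp.2.1 this
  rcases Nat.lt_or_ge s 1 with h3 | h3
  · exfalso
    have h4 : s = 0 := by omega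
    subst h4
    exact hp.2.1 (hP.max e hp.1 fun i => i.elim0)
  · by_contra h4
    have h5 : 1 < s := by omega
    have h6 := h2 ⟨0, by omega⟩ ⟨1, h5⟩
    have h7 := congrArg Fin.val h6
    simp at h7

theorem thm_Lgf (hFle : St_Fle) (hTyn : St_Tyn) (hFou : St_Fou) : St_Lgf := by
  intro n p R _ _ hC e hP he hcr
  obtain ⟨H, hH⟩ := CRN.thm_Sir R hcr
  obtain ⟨J, hJ, hJm⟩ := CRL.jil n hC.n4 R hC.inM hC.nt
  obtain ⟨s, b, φ, hb5, hφ'⟩ := CRL.sel n p R hC hcr H hH
  have hs : s = 1 := by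
    obtain ⟨v, hv, -⟩ := hφ'.ne
    exact Lgf_one hC hP he hv.1
  subst hs
  have hφ : Gc n 1 b H φ := hφ'
  obtain ⟨N, hN1, hNn, hNp, -, hfr⟩ := hTyn n p R hC e hP he
  obtain ⟨Φ, hΦ, hΦn, -, -, -⟩ := hFou n p R hC e hP he N hN1 hNp
  have hn4 := hC.n4
  have hNle : N ≤ n - 3 := Nat.le_of_dvd (by omega) hNn
  -- words
  obtain ⟨L₀, hL₀, hL₀'⟩ := CRL.thm_Wrx R φ hφ.tm ((Finset.range b).image (fun k => 1 + k))
  have hev₀ := Bkw_ev hφ.toGa hL₀'
  let L₁ : List (ℤ × List ℕ) := L₀.filter fun q => decide (∀ i ∈ q.2, i ≤ b)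
  have hL₁ : ∀ q ∈ L₁, q.2 ≠ [] ∧ (∀ k, k < b → 1 + k ∈ q.2) ∧ ∀ i ∈ q.2, i ≤ b := by
    intro q hq
    obtain ⟨h1, h2⟩ := List.mem_filter.1 hq
    refine ⟨(hL₀ q h1).1, fun k hk => (hL₀ q h1).2 _ ?_, of_decide_eq_true h2⟩
    exact Finset.mem_image.2 ⟨k, Finset.mem_range.2 hk, rfl⟩
  have hev₁ : ∀ v, Vec n 1 b v → φ v = ev L₁ v := by
    intro v hv
    have h1 : Vec n 1 b (fun i => if i < 1 + b then v i else 0) := by
      refine ⟨?_, fun k hk => ?_⟩
      · have h2 : (fun i : Fin 1 => if (i : ℕ) < 1 + b then v i else 0) =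
            fun i : Fin 1 => v i := by
          funext i
          rw [if_pos]
          have := i.2
          omega
        rw [h2]
        exact hv.1
      · show Nl (if 1 + k < 1 + b then v (1 + k) else 0)
        rw [if_pos (by omega)]
        exact hv.2 k hk
    rw [hφ.dep v (fun i => if i < 1 + b then v i else 0) fun i hi => (if_pos hi).symm,
      hev₀ _ h1, Wrd_ev_filter (fun q => decide (∀ i ∈ q.2, i ≤ b)) L₀,
      Wrd_ev_zero (L₀.filter fun q => !decide (∀ i ∈ q.2, i ≤ b)), add_zero]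
    · refine Wrd_ev_congr _ _ _ fun q hq i hi => ?_
      show (if i < 1 + b then v i else 0) = v i
      rw [if_pos]
      have := (hL₁ q hq).2.2 i hi
      omega
    · intro q hq
      obtain ⟨-, h2⟩ := List.mem_filter.1 hq
      have h3 : ¬ ∀ i ∈ q.2, i ≤ b := by
        intro h4
        rw [decide_eq_true h4] at h2
        simp at h2
      push Not at h3
      obtain ⟨i, hi, hib⟩ := h3
      refine ⟨i, hi, ?_⟩
      show (if i < 1 + b then v i else 0) = 0
      rw [if_neg (by omega)]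
  -- a nonzero value
  obtain ⟨v, hv, hne⟩ := hφ.ne
  have hfrv : ∀ v : ℕ → R, Vec n 1 b v → Frame R n 1 (fun _ => v 0) := by
    intro v hv
    have h1 : (fun i : Fin 1 => v i) = fun _ => v 0 := by
      funext i
      have : (i : ℕ) = 0 := by
        have := i.2
        omega
      rw [this]
    rw [← h1]
    exact hv.1
  have ht := hfrv v hv
  obtain ⟨-, htN, htu⟩ := hfr _ ht
  have hpwz : ∀ t : R, pw t (N - 1) = e → ∀ x, pw t (N - 1) * x = x := by
    intro t h x
    rw [h]
    exact (he x).1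
  -- generators
  let P : ℕ → Prop := fun g => ∃ (z : Fin g → R) (a : Fin g → ℕ),
    (∀ i, Nl (z i) ∧ z i * v 0 = pw (v 0) (a i) * z i) ∧
      NonUnitalSubring.closure ({v 0} ∪ Set.range z) = ⊤
  have hPk : ∀ (k : ℕ) (y : Fin k → R), NonUnitalSubring.closure (Set.range y) = ⊤ →
      P (k * N) := by
    intro k y hy
    have h1 : ∀ i, ∃ w ∈ NonUnitalSubring.closure ({v 0} : Set R), Nl (y i - w) := by
      intro i
      obtain ⟨c, hc, hcn⟩ := CRL.gen n p R hC 1 _ ht (y i)
      refine ⟨∑ i, c i, ?_, hcn⟩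
      refine sum_mem fun j _ => ?_
      rcases hc j with h | ⟨k, h⟩
      · rw [h]
        exact NonUnitalSubring.zero_mem _
      · rw [h]
        have h2 : ∀ k, pw (v 0) k ∈ NonUnitalSubring.closure ({v 0} : Set R) := by
          intro k
          induction k with
          | zero => exact NonUnitalSubring.subset_closure rfl
          | succ k ih => exact mul_mem ih (NonUnitalSubring.subset_closure rfl)
        exact h2 k
    choose w hw hwn using h1
    have hΦt := hΦ (v 0) htN fun k h1 h2 => by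
      obtain ⟨u, hu, -⟩ := htu k h1 h2
      exact ⟨u, hu⟩
    refine ⟨fun m => Φ (finProdFinEquiv.symm m).2 (v 0)
        (y (finProdFinEquiv.symm m).1 - w (finProdFinEquiv.symm m).1),
      fun m => (finProdFinEquiv.symm m).2, fun m => ⟨hΦn _ _ _ (hwn _),
        (hΦt _).1 _ (finProdFinEquiv.symm m).2.2⟩, ?_⟩
    rw [eq_top_iff, ← hy]
    refine NonUnitalSubring.closure_le.2 ?_
    rintro _ ⟨i, rfl⟩
    have h2 : y i = w i + (y i - w i) := by abel
    rw [h2]
    refine add_mem ?_ ?_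
    · exact NonUnitalSubring.closure_mono Set.subset_union_left (hw i)
    · rw [(hΦt (y i - w i)).2.2]
      refine sum_mem fun j hj => ?_
      refine NonUnitalSubring.subset_closure (Or.inr ⟨finProdFinEquiv (i, ⟨j, ?_⟩), ?_⟩)
      · exact Finset.mem_range.1 hj
      · simp
  have hPex : ∃ g, P g := by
    obtain ⟨m, ⟨f⟩⟩ := Finite.exists_equiv_fin R
    refine ⟨_, hPk m f.symm ?_⟩
    rw [Set.range_eq_univ.2 f.symm.surjective, NonUnitalSubring.closure_univ]
  classical
  obtain ⟨z, a, hz, hgen⟩ := Nat.find_spec hPex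
  have hmin := fun m => Nat.find_min hPex (m := m)
  have hmin' := fun m => Nat.find_min' hPex (m := m)
  generalize Nat.find hPex = g at z a hz hgen hmin hmin'
  obtain ⟨v', hv', h0', hne', hh⟩ := Lgf_hom hφ hJ hJm (fun i => (hz i).1)
    (Lgf_nil hJ hJm hz (N - 1) (fun i => hpwz _ htN _) hgen) hv rfl hne
  have hh' : ∀ k : Fin b, ∃ (i : Fin g) (d : ℕ), v' (1 + k) = pw (v 0) d * z i :=
    fun k => hh k k.2
  choose ι d hιd using hh'
  -- the indices are all used
  have hsurj : Function.Surjective ι := by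
    intro i₀
    by_contra hcon
    push Not at hcon
    obtain ⟨g', rfl⟩ : ∃ g', g = g' + 1 := ⟨g - 1, by have := i₀.2; omega⟩
    refine hmin g' (by omega) ⟨fun k => z (i₀.succAbove k), fun k => a (i₀.succAbove k),
      fun k => hz _, ?_⟩
    by_contra hS
    refine hne' (hφ.van v' hv' _ hS fun i hi => ?_)
    rcases Nat.eq_zero_or_pos i with h | h
    · rw [h, h0']
      exact NonUnitalSubring.subset_closure (Or.inl rfl)
    · have h1 : 1 + (i - 1) = i := by omega
      have h2 := hιd ⟨i - 1, by omega⟩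
      simp only [h1] at h2
      rw [h2]
      refine mul_mem ?_ ?_
      · have h3 : ∀ k, pw (v 0) k ∈ NonUnitalSubring.closure
            ({v 0} ∪ Set.range fun k => z (i₀.succAbove k)) := by
          intro k
          induction k with
          | zero => exact NonUnitalSubring.subset_closure (Or.inl rfl)
          | succ k ih => exact mul_mem ih (NonUnitalSubring.subset_closure (Or.inl rfl))
        exact h3 _
      · obtain ⟨j, hj⟩ := Fin.exists_succAbove_eq (hcon ⟨i - 1, by omega⟩)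
        refine NonUnitalSubring.subset_closure (Or.inr ⟨j, ?_⟩)
        show z (i₀.succAbove j) = _
        rw [hj]
  -- the substituted sequence
  let ι' : ℕ → ℕ := fun k => if h : k < b then (ι ⟨k, h⟩ : ℕ) else 0
  let d' : ℕ → ℕ := fun k => if h : k < b then d ⟨k, h⟩ else 0
  let a' : ℕ → ℕ := fun i => if h : i < g then a ⟨i, h⟩ else 0
  let u : R → (Fin g → R) → ℕ → R := fun t x i =>
    if i = 0 then t else if h : i - 1 < b then pw t (d ⟨i - 1, h⟩) * x (ι ⟨i - 1, h⟩) else 0
  have hxs : ∀ (x : Fin g → R) (i : Fin g), xs x i = x i := by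
    intro x i
    unfold xs
    rw [dif_pos i.2]
  have hu0 : ∀ t x, u t x 0 = t := fun t x => if_pos rfl
  have hu1 : ∀ t x (k : ℕ) (hk : k < b), u t x (1 + k) = pw t (d ⟨k, hk⟩) * x (ι ⟨k, hk⟩) := by
    intro t x k hk
    have h1 : 1 + k - 1 = k := by omega
    show (if 1 + k = 0 then t else if h : 1 + k - 1 < b then
      pw t (d ⟨1 + k - 1, h⟩) * x (ι ⟨1 + k - 1, h⟩) else 0) = _
    rw [if_neg (by omega)]
    simp only [h1, dif_pos hk]
  have hvec : ∀ (t : R) (x : Fin g → R), Frame R n 1 (fun _ => t) → (∀ i, Nl (x i)) →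
      Vec n 1 b (u t x) := by
    intro t x ht hx
    refine ⟨?_, fun k hk => ?_⟩
    · have h1 : (fun i : Fin 1 => u t x i) = fun _ => t := by
        funext i
        have h2 : (i : ℕ) = 0 := by
          have := i.2
          omega
        rw [h2, hu0]
      rw [h1]
      exact ht
    · rw [hu1 t x k hk]
      exact (hJm _).1 (hJ _ _ ((hJm _).2 (hx _))).1
  let F : ℤ × List ℕ → ℤ × ℕ × List ℕ := fun q =>
    (q.1, Lgf_red N (Lgf_nu ι' d' a' q.2).1, (Lgf_nu ι' d' a' q.2).2)
  have hword : ∀ (t : R) (x : Fin g → R), Frame R n 1 (fun _ => t) →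
      (∀ i, Nl (x i) ∧ x i * t = pw t (a i) * x i) → ∀ q ∈ L₁,
      wp (List.replicate (F q).2.1 t ++ (F q).2.2.map (xs x)) = wp (q.2.map (u t x)) := by
    intro t x ht hx q hq
    obtain ⟨h1, h2, h3⟩ := hL₁ q hq
    have h4 : List.replicate (F q).2.1 t ++ (F q).2.2.map (xs x) ≠ [] := by
      intro h5
      have h6 := (List.append_eq_nil_iff.1 h5).1
      have h7 := (Lgf_red_le hN1 (Lgf_nu ι' d' a' q.2).1).1
      rw [List.replicate_eq_nil_iff] at h6
      have h8 : (F q).2.1 = Lgf_red N (Lgf_nu ι' d' a' q.2).1 := rfl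
      omega
    have h5 : q.2.map (u t x) ≠ [] := by
      intro h6
      exact h1 (List.map_eq_nil_iff.1 h6)
    rw [Lgf_wp (fun x => (he x).2) _ h4, Lgf_wp (fun x => (he x).2) _ h5,
      Lgf_wpe_app fun x => (he x).1]
    have h6 : Lgf_tp e t N = e := by
      have h7 := (hfr t ht).2.1
      rw [Lgf_pw he] at h7
      have h8 : N - 1 + 1 = N := by omega
      rw [h8] at h7
      exact h7
    have h7 : Lgf_wpe e (List.replicate (F q).2.1 t) =
        Lgf_tp e t (Lgf_nu ι' d' a' q.2).1 := Lgf_tp_red he t N h6 _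
    rw [h7]
    have hxι : ∀ k (hk : k < b), xs x (ι' k) = x (ι ⟨k, hk⟩) := by
      intro k hk
      have h8 : ι' k = (ι ⟨k, hk⟩ : ℕ) := dif_pos hk
      rw [h8]
      exact hxs x _
    refine (Lgf_nu_val he ι' d' a' b t (u t x) (xs x) (hu0 t x) ?_ ?_ q.2 h3).symm
    · intro k hk
      rw [Nat.add_comm k 1, hu1 t x k hk, hxι k hk]
      have h8 : d' k = d ⟨k, hk⟩ := dif_pos hk
      rw [h8]
    · intro k hk
      rw [hxι k hk, (hx _).2]
      have h8 : ι' k = (ι ⟨k, hk⟩ : ℕ) := dif_pos hk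
      have h9 : a' (ι' k) = a (ι ⟨k, hk⟩) := by
        rw [h8]
        exact dif_pos (ι ⟨k, hk⟩).2
      rw [h9]
  let Q : ℤ × ℕ × List ℕ → Prop := fun q =>
    (∀ i, q.2.2.count i ≤ 3) ∧ ((Nat.card R).Coprime 6 → q.2.2.length ≤ 5)
  let L : List (ℤ × ℕ × List ℕ) := (L₁.map F).filter fun q => decide (Q q)
  have hletter : ∀ q ∈ L₁, ∀ i, i ∈ (F q).2.2 ↔ i < g := by
    intro q hq i
    obtain ⟨h1, h2, h3⟩ := hL₁ q hq
    show i ∈ (Lgf_nu ι' d' a' q.2).2 ↔ i < g
    rw [Lgf_nu_mem]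
    constructor
    · rintro ⟨k, hk, rfl⟩
      have h4 := h3 _ hk
      have h5 : k < b := by omega
      have h6 : ι' k = (ι ⟨k, h5⟩ : ℕ) := dif_pos h5
      rw [h6]
      exact (ι ⟨k, h5⟩).2
    · intro hi
      obtain ⟨k, hk⟩ := hsurj ⟨i, hi⟩
      refine ⟨k, ?_, ?_⟩
      · rw [Nat.add_comm]
        exact h2 k k.2
      · have h6 : ι' k = (ι ⟨k, k.2⟩ : ℕ) := dif_pos k.2
        rw [h6]
        have h7 := congrArg Fin.val hk
        exact h7.symm
  have hxsn : ∀ x : Fin g → R, (∀ i, Nl (x i)) → ∀ i, Nl (xs x i) := by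
    intro x hx i
    unfold xs
    split
    · exact hx _
    · simp [Nl]
  have hval : ∀ (t : R) (x : Fin g → R), Frame R n 1 (fun _ => t) →
      (∀ i, Nl (x i) ∧ x i * t = pw t (a i) * x i) → Vl L t x = φ (u t x) := by
    intro t x ht hx
    have h1 : Vl L t x = Vl (L₁.map F) t x := by
      refine Lgf_filter _ _ t x fun q hq hqf => ?_
      obtain ⟨q₀, hq₀, rfl⟩ := List.mem_map.1 hq
      have h2 : ¬ Q (F q₀) := of_decide_eq_false hqf
      have h3 : ¬ ((∀ i, (F q₀).2.2.count i ≤ 3) ∧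
        ((Nat.card R).Coprime 6 → (F q₀).2.2.length ≤ 5)) := h2
      rw [not_and_or] at h3
      rcases h3 with h3 | h3
      · push Not at h3
        obtain ⟨i, hi⟩ := h3
        have h4 := hFle.2 R (fun x y hx hy => (hJm _).1 (J.add_mem ((hJm x).2 hx) ((hJm y).2 hy)))
          (fun r x hx => ⟨(hJm _).1 (hJ r x ((hJm x).2 hx)).1,
            (hJm _).1 (hJ r x ((hJm x).2 hx)).2⟩) (xs x) (F q₀).2.2 i
          (fun j _ => hxsn x (fun i => (hx i).1) j) (by omega)
        have h5 : (F q₀).2.2.map (xs x) ≠ [] := by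
          intro h6
          rw [List.map_eq_nil_iff.1 h6] at hi
          simp at hi
        have h6 : List.replicate (F q₀).2.1 t ++ (F q₀).2.2.map (xs x) ≠ [] := by
          intro h7
          exact h5 (List.append_eq_nil_iff.1 h7).2
        rw [Lgf_wp (fun x => (he x).2) _ h6, Lgf_wpe_app fun x => (he x).1,
          ← Lgf_wp (fun x => (he x).2) _ h5, h4, mul_zero]
      · push Not at h3
        obtain ⟨h4, h5⟩ := h3
        obtain ⟨M, hM5, hM⟩ := CRL.bnd n p R hC
        refine hM ((F q₀).2.2.map (xs x)) _ (List.sublist_append_right _ _) ?_ ?_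
        · intro y hy
          obtain ⟨i, -, rfl⟩ := List.mem_map.1 hy
          exact hxsn x (fun i => (hx i).1) i
        · rw [hM5 h4, List.length_map]
          exact h5
    rw [h1, hev₁ _ (hvec t x ht fun i => (hx i).1)]
    unfold Vl ev
    rw [List.map_map]
    congr 1
    refine List.map_congr_left fun q hq => ?_
    show (F q).1 • wp (List.replicate (F q).2.1 t ++ (F q).2.2.map (xs x)) = _
    rw [hword t x ht hx q hq]
  have hJWt : ∀ (t x : R) (k : ℕ), x ∈ JW t → pw t k * x ∈ JW t := by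
    intro t x k hx
    have h1 : ∀ k, pw t k ∈ NonUnitalSubring.closure ({t} : Set R) := by
      intro k
      induction k with
      | zero => exact NonUnitalSubring.subset_closure rfl
      | succ k ih => exact mul_mem ih (NonUnitalSubring.subset_closure rfl)
    induction hx using AddSubgroup.closure_induction with
    | mem x hx =>
      rcases hx with ⟨y, z, hy, hz, rfl⟩ | ⟨h2, h3⟩
      · refine AddSubgroup.subset_closure (Or.inl ⟨pw t k * y, z,
          (hJm _).1 (hJ _ _ ((hJm _).2 hy)).1, hz, ?_⟩)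
        rw [mul_assoc]
      · exact AddSubgroup.subset_closure (Or.inr ⟨mul_mem (h1 k) h2,
          (hJm _).1 (hJ _ _ ((hJm _).2 h3)).1⟩)
    | zero => rw [mul_zero]; exact (JW t).zero_mem
    | add x y _ _ hx hy => rw [mul_add]; exact add_mem hx hy
    | neg x _ hx => rw [mul_neg]; exact neg_mem hx
  refine ⟨⟨e, hP, he⟩, H, hH, g, a, L, ?_, ?_, ?_, ?_⟩
  · intro k y hy
    have h1 := hmin' _ (hPk k y hy)
    calc g ≤ k * N := h1
      _ ≤ k * (n - 3) := Nat.mul_le_mul_left k hNle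
      _ = (n - 3) * k := Nat.mul_comm _ _
  · intro q hq
    obtain ⟨h1, h2⟩ := List.mem_filter.1 hq
    have h3 : Q q := of_decide_eq_true h2
    obtain ⟨q₀, hq₀, rfl⟩ := List.mem_map.1 h1
    have h4 := Lgf_red_le hN1 (Lgf_nu ι' d' a' q₀.2).1
    have h5 : (F q₀).2.1 = Lgf_red N (Lgf_nu ι' d' a' q₀.2).1 := rfl
    exact ⟨by omega, by omega, hletter q₀ hq₀, h3.1, h3.2⟩
  · intro t x ht hx
    have hvx := hvec t x ht fun i => (hx i).1
    rw [hval t x ht hx]
    refine ⟨hφ.val _ hvx, fun y hy hxy => ?_, fun hS => ?_⟩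
    · rw [hval t y ht hy]
      refine Lgf_hyb hφ hJ hJm hvx (hvec t y ht fun i => (hy i).1) ?_ fun k hk => ?_
      · rw [hu0, hu0]
      · rw [hu1 t x k hk, hu1 t y k hk, hu0, ← mul_sub]
        exact hJWt t _ _ (hxy _)
    · refine hφ.van _ hvx _ hS fun i hi => ?_
      rcases Nat.eq_zero_or_pos i with h | h
      · rw [h, hu0]
        exact NonUnitalSubring.subset_closure (Or.inl rfl)
      · have h1 : i = 1 + (i - 1) := by omega
        rw [h1, hu1 t x (i - 1) (by omega)]
        have h3 : ∀ k, pw t k ∈ NonUnitalSubring.closure ({t} ∪ Set.range x) := by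
          intro k
          induction k with
          | zero => exact NonUnitalSubring.subset_closure (Or.inl rfl)
          | succ k ih => exact mul_mem ih (NonUnitalSubring.subset_closure (Or.inl rfl))
        exact mul_mem (h3 _) (NonUnitalSubring.subset_closure (Or.inr ⟨_, rfl⟩))
  · refine ⟨v 0, z, ht, hz, ?_⟩
    rw [hval _ z ht hz]
    have h1 : φ (u (v 0) z) = φ v' := by
      refine hφ.dep _ _ fun i hi => ?_
      rcases Nat.eq_zero_or_pos i with h | h
      · rw [h, hu0, h0']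
      · have h1 : i = 1 + (i - 1) := by omega
        have h2 : i - 1 < b := by omega
        rw [h1, hu1 _ z (i - 1) h2]
        exact (hιd ⟨i - 1, h2⟩).symm
    rw [h1]
    exact hne'

end Pool.Agent.CRM
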