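import Pool.Agent.CRM.Ste
import Pool.Agent.CRM.Fou
import Pool.Agent.CRM.Lgf

/-!
Campaign CRM, module Lff: local critical rings, the second form of the criterion.

We start from the combination `F₀` of `thm_Lgf`.  The class of functions is `Lff_P`; the number `g` of the
variables is minimal for this class, so a function of the class is zero if a variable is zero.
-/

set_option autoImplicit false

namespace Pool.Agent.CRM

open Pool.Agent.CRR Pool.Agent.CRN Pool.Agent.CRK Pool.Agent.CRL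

section words

variable {R : Type} [NonUnitalRing R]

/-- The value of the combination `L` of items `t^d w` at `t` and the sequence `y`. -/
def Lff_ev (e : R) (L : List (ℤ × ℕ × List ℕ)) (t : R) (y : ℕ → R) : R :=
  (L.map fun q => q.1 • (Lgf_tp e t q.2.1 * Lgf_wpe e (q.2.2.map y))).sum

theorem Lff_ev_nil (e t : R) (y : ℕ → R) : Lff_ev e [] t y = 0 := rfl

theorem Lff_ev_cons (e t : R) (y : ℕ → R) (q : ℤ × ℕ × List ℕ)
    (L : List (ℤ × ℕ × List ℕ)) : Lff_ev e (q :: L) t y =
      q.1 • (Lgf_tp e t q.2.1 * Lgf_wpe e (q.2.2.map y)) + Lff_ev e L t y := by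
  unfold Lff_ev
  rw [List.map_cons, List.sum_cons]

theorem Lff_ev_app (e t : R) (y : ℕ → R) (L L' : List (ℤ × ℕ × List ℕ)) :
    Lff_ev e (L ++ L') t y = Lff_ev e L t y + Lff_ev e L' t y := by
  unfold Lff_ev
  rw [List.map_append, List.sum_append]

theorem Lff_wpe_zero (e : R) (y : ℕ → R) (w : List ℕ) (i : ℕ) (hi : i ∈ w) (hy : y i = 0) :
    Lgf_wpe e (w.map y) = 0 := by
  induction w with
  | nil => simp at hi
  | cons k w ih =>
    rw [List.map_cons, Lgf_wpe_cons]
    rcases List.mem_cons.1 hi with h | h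
    · rw [← h, hy, zero_mul]
    · rw [ih h, mul_zero]

theorem Lff_ev_filter (e t : R) (y : ℕ → R) (P : ℤ × ℕ × List ℕ → Bool)
    (L : List (ℤ × ℕ × List ℕ)) : Lff_ev e L t y =
      Lff_ev e (L.filter P) t y + Lff_ev e (L.filter fun q => !P q) t y := by
  induction L with
  | nil => simp [Lff_ev_nil]
  | cons q L ih =>
    rw [Lff_ev_cons, ih]
    cases hq : P q with
    | true =>
      rw [List.filter_cons_of_pos hq, List.filter_cons_of_neg (by simp [hq]), Lff_ev_cons,
        add_assoc]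
    | false =>
      rw [List.filter_cons_of_neg (by simp [hq]), List.filter_cons_of_pos (by simp [hq]),
        Lff_ev_cons, add_left_comm]

theorem Lff_ev_zero (e t : R) (y : ℕ → R) (L : List (ℤ × ℕ × List ℕ))
    (h : ∀ q ∈ L, ∃ i ∈ q.2.2, y i = 0) : Lff_ev e L t y = 0 := by
  induction L with
  | nil => rfl
  | cons q L ih =>
    obtain ⟨i, hi, hy⟩ := h q List.mem_cons_self
    rw [Lff_ev_cons, ih fun q hq => h q (List.mem_cons_of_mem _ hq), Lff_wpe_zero e y _ i hi hy,
      mul_zero, smul_zero, add_zero]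

theorem Lff_ev_congr (e t : R) (y y' : ℕ → R) (L : List (ℤ × ℕ × List ℕ))
    (h : ∀ q ∈ L, ∀ i ∈ q.2.2, y i = y' i) : Lff_ev e L t y = Lff_ev e L t y' := by
  unfold Lff_ev
  congr 1
  refine List.map_congr_left fun q hq => ?_
  rw [List.map_congr_left fun i hi => h q hq i hi]

theorem Lff_Vl {e : R} (he : ∀ x, e * x = x ∧ x * e = x) (L : List (ℤ × ℕ × List ℕ)) {g : ℕ}
    (t : R) (x : Fin g → R) (h : ∀ q ∈ L, 1 ≤ q.2.1 + q.2.2.length) :
    Vl L t x = Lff_ev e L t (xs x) := by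
  unfold Vl Lff_ev
  congr 1
  refine List.map_congr_left fun q hq => ?_
  have h1 := h q hq
  have h2 : List.replicate q.2.1 t ++ q.2.2.map (xs x) ≠ [] := by
    intro h3
    have h4 := congrArg List.length h3
    rw [List.length_append, List.length_replicate, List.length_map, List.length_nil] at h4
    omega
  rw [Lgf_wp (fun x => (he x).2) _ h2, Lgf_wpe_app fun x => (he x).1]
  rfl

/-- The new items, if the letter `j` is replaced by `j + t^d i`. -/
def Lff_rs (A : ℕ → ℕ) (i j d : ℕ) : List ℕ → List (ℕ × List ℕ)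
  | [] => []
  | k :: w => (Lff_rs A i j d w).map (fun q => ((A k + 1) * q.1, k :: q.2)) ++
      if k = j then
        (d, i :: w) :: (Lff_rs A i j d w).map (fun q => (d + (A i + 1) * q.1, i :: q.2))
      else []

theorem Lff_rs_cons (A : ℕ → ℕ) (i j d k : ℕ) (w : List ℕ) :
    Lff_rs A i j d (k :: w) =
      (Lff_rs A i j d w).map (fun q => ((A k + 1) * q.1, k :: q.2)) ++
      if k = j then
        (d, i :: w) :: (Lff_rs A i j d w).map (fun q => (d + (A i + 1) * q.1, i :: q.2))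
      else [] := rfl

theorem Lff_rs_mem (A : ℕ → ℕ) (i j d : ℕ) (hij : i < j) (w : List ℕ) :
    ∀ r ∈ Lff_rs A i j d w, (∀ m ∈ r.2, m ∈ w ∨ m = i) ∧ r.2.sum < w.sum := by
  induction w with
  | nil => intro r hr; simp [Lff_rs] at hr
  | cons k w ih =>
    intro r hr
    rw [Lff_rs_cons] at hr
    rcases List.mem_append.1 hr with h | h
    · obtain ⟨q, hq, rfl⟩ := List.mem_map.1 h
      obtain ⟨h1, h2⟩ := ih q hq
      refine ⟨fun m hm => ?_, ?_⟩
      · rcases List.mem_cons.1 hm with h3 | h3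
        · exact Or.inl (List.mem_cons.2 (Or.inl h3))
        · rcases h1 m h3 with h4 | h4
          · exact Or.inl (List.mem_cons_of_mem _ h4)
          · exact Or.inr h4
      · show (k :: q.2).sum < (k :: w).sum
        rw [List.sum_cons, List.sum_cons]
        omega
    · split at h
      · rename_i hk
        subst hk
        rcases List.mem_cons.1 h with h | h
        · rw [h]
          refine ⟨fun m hm => ?_, ?_⟩
          · rcases List.mem_cons.1 hm with h3 | h3
            · exact Or.inr h3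
            · exact Or.inl (List.mem_cons_of_mem _ h3)
          · show (i :: w).sum < (k :: w).sum
            rw [List.sum_cons, List.sum_cons]
            omega
        · obtain ⟨q, hq, rfl⟩ := List.mem_map.1 h
          obtain ⟨h1, h2⟩ := ih q hq
          refine ⟨fun m hm => ?_, ?_⟩
          · rcases List.mem_cons.1 hm with h3 | h3
            · exact Or.inr h3
            · rcases h1 m h3 with h4 | h4
              · exact Or.inl (List.mem_cons_of_mem _ h4)
              · exact Or.inr h4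
          · show (i :: q.2).sum < (k :: w).sum
            rw [List.sum_cons, List.sum_cons]
            omega
      · simp at h

theorem Lff_mul_sum {e : R} (he : ∀ x, e * x = x ∧ x * e = x) (t : R) (y : ℕ → R) (A : ℕ → ℕ)
    (hA : ∀ k, y k * t = pw t (A k) * y k) (k c : ℕ) (l : List (ℕ × List ℕ)) :
    Lgf_tp e t c * y k * (l.map fun q => Lgf_tp e t q.1 * Lgf_wpe e (q.2.map y)).sum =
      ((l.map fun q => (c + (A k + 1) * q.1, k :: q.2)).map
        fun q => Lgf_tp e t q.1 * Lgf_wpe e (q.2.map y)).sum := by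
  induction l with
  | nil => simp
  | cons q l ih =>
    rw [List.map_cons, List.sum_cons, mul_add, ih, List.map_cons, List.map_cons, List.sum_cons]
    congr 1
    show Lgf_tp e t c * y k * (Lgf_tp e t q.1 * Lgf_wpe e (q.2.map y)) =
      Lgf_tp e t (c + (A k + 1) * q.1) * Lgf_wpe e ((k :: q.2).map y)
    rw [List.map_cons, Lgf_wpe_cons, Lgf_tp_add fun x => (he x).1]
    simp only [mul_assoc]
    rw [← mul_assoc (y k), Lgf_comm he t _ _ (hA k)]
    simp only [mul_assoc]

theorem Lff_rs_val {e : R} (he : ∀ x, e * x = x ∧ x * e = x) (t : R) (y y' : ℕ → R) (A : ℕ → ℕ)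
    (hA : ∀ k, y k * t = pw t (A k) * y k) (i j d : ℕ)
    (hj : y' j = y j + Lgf_tp e t d * y i) (hk : ∀ k, k ≠ j → y' k = y k) (w : List ℕ) :
    Lgf_wpe e (w.map y') = Lgf_wpe e (w.map y) +
      ((Lff_rs A i j d w).map fun q => Lgf_tp e t q.1 * Lgf_wpe e (q.2.map y)).sum := by
  induction w with
  | nil => simp [Lff_rs]
  | cons k w ih =>
    have h1 := Lff_mul_sum he t y A hA k 0 (Lff_rs A i j d w)
    rw [Lgf_tp_zero, (he _).1] at h1
    simp only [Nat.zero_add] at h1
    rw [Lff_rs_cons, List.map_append, List.sum_append, ← h1, List.map_cons, Lgf_wpe_cons, ih,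
      List.map_cons, Lgf_wpe_cons]
    by_cases h : k = j
    · subst h
      have h2 := Lff_mul_sum he t y A hA i d (Lff_rs A i k d w)
      rw [if_pos rfl, List.map_cons, List.sum_cons, ← h2, hj]
      show _ = _ + (_ + (Lgf_tp e t d * Lgf_wpe e ((i :: w).map y) + _))
      rw [List.map_cons, Lgf_wpe_cons]
      simp only [mul_add, add_mul, mul_assoc]
      abel
    · rw [if_neg h, hk k h, mul_add]
      simp

/-- The items of the difference. -/
def Lff_N (A : ℕ → ℕ) (i j d : ℕ) (L : List (ℤ × ℕ × List ℕ)) : List (ℤ × ℕ × List ℕ) :=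
  L.flatMap fun q => (Lff_rs A i j d q.2.2).map fun r => (q.1, q.2.1 + r.1, r.2)

theorem Lff_N_val {e : R} (he : ∀ x, e * x = x ∧ x * e = x) (t : R) (y y' : ℕ → R) (A : ℕ → ℕ)
    (hA : ∀ k, y k * t = pw t (A k) * y k) (i j d : ℕ)
    (hj : y' j = y j + Lgf_tp e t d * y i) (hk : ∀ k, k ≠ j → y' k = y k)
    (L : List (ℤ × ℕ × List ℕ)) :
    Lff_ev e (Lff_N A i j d L) t y = Lff_ev e L t y' - Lff_ev e L t y := by
  induction L with
  | nil => simp [Lff_N, Lff_ev_nil]
  | cons q L ih =>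
    have h1 : Lff_N A i j d (q :: L) =
        ((Lff_rs A i j d q.2.2).map fun r => (q.1, q.2.1 + r.1, r.2)) ++ Lff_N A i j d L := by
      unfold Lff_N
      rw [List.flatMap_cons]
    rw [h1, Lff_ev_app, ih, Lff_ev_cons, Lff_ev_cons, Lff_rs_val he t y y' A hA i j d hj hk]
    have h2 : ∀ l : List (ℕ × List ℕ), Lff_ev e (l.map fun r => (q.1, q.2.1 + r.1, r.2)) t y =
        q.1 • (Lgf_tp e t q.2.1 *
          (l.map fun r => Lgf_tp e t r.1 * Lgf_wpe e (r.2.map y)).sum) := by
      intro l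
      induction l with
      | nil => simp [Lff_ev_nil]
      | cons r l ih' =>
        rw [List.map_cons, Lff_ev_cons, ih', List.map_cons, List.sum_cons, mul_add, smul_add]
        congr 2
        rw [Lgf_tp_add fun x => (he x).1, mul_assoc]
    rw [h2, mul_add, smul_add]
    abel

theorem Lff_N_mem (A : ℕ → ℕ) (i j d : ℕ) (hij : i < j) (L : List (ℤ × ℕ × List ℕ)) :
    ∀ r ∈ Lff_N A i j d L, ∃ q ∈ L, (∀ m ∈ r.2.2, m ∈ q.2.2 ∨ m = i) ∧
      r.2.2.sum < q.2.2.sum := by
  intro r hr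
  unfold Lff_N at hr
  obtain ⟨q, hq, hr⟩ := List.mem_flatMap.1 hr
  obtain ⟨r', hr', rfl⟩ := List.mem_map.1 hr
  exact ⟨q, hq, Lff_rs_mem A i j d hij _ r' hr'⟩

theorem Lff_xs_upd {g : ℕ} (x : Fin g → R) (j : Fin g) (z : R) (k : ℕ) :
    xs (Function.update x j z) k = if k = j then z else xs x k := by
  unfold xs
  by_cases h : k < g
  · rw [dif_pos h, dif_pos h]
    by_cases h2 : k = j
    · have h3 : (⟨k, h⟩ : Fin g) = j := Fin.ext h2
      rw [if_pos h2, h3, Function.update_self]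
    · rw [if_neg h2, Function.update_of_ne]
      intro h3
      exact h2 (congrArg Fin.val h3)
  · rw [dif_neg h, dif_neg h, if_neg]
    intro h2
    exact h (h2 ▸ j.2)

theorem Lff_xs_self {g : ℕ} (x : Fin g → R) (j : Fin g) : xs x j = x j := by
  unfold xs
  rw [dif_pos j.2]

end words

section cls

variable {R : Type} [NonUnitalRing R]

/-- The class of functions: values in `H`, dependence modulo `KJ`, zero on the pairs which do not generate
the ring, not zero. -/
structure Lff_P (n p N : ℕ) (e : R) (H : AddSubgroup R) (g : ℕ) (a : Fin g → ℕ)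
    (L : List (ℤ × ℕ × List ℕ)) : Prop where
  aN : ∀ i, a i < N
  lt : ∀ q ∈ L, ∀ i ∈ q.2.2, i < g
  val : ∀ (t : R) (x : Fin g → R), Ty n a t x → Lff_ev e L t (xs x) ∈ H
  cg : ∀ (t : R) (x y : Fin g → R), Ty n a t x → Ty n a t y → (∀ i, x i - y i ∈ KJ R p) →
    Lff_ev e L t (xs x) = Lff_ev e L t (xs y)
  van : ∀ (t : R) (x : Fin g → R), Ty n a t x →
    NonUnitalSubring.closure ({t} ∪ Set.range x) ≠ ⊤ → Lff_ev e L t (xs x) = 0
  ne : ∃ (t : R) (x : Fin g → R), Ty n a t x ∧ Lff_ev e L t (xs x) ≠ 0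

theorem Lff_KJ {J : AddSubgroup R} (hJ : Idl R J) (hJm : ∀ x, x ∈ J ↔ Nl x) (p : ℕ) :
    Idl R (KJ R p) := by
  intro r x hx
  induction hx using AddSubgroup.closure_induction with
  | mem x hx =>
    rcases hx with ⟨y, z, hy, hz, rfl⟩ | ⟨b, rfl⟩
    · constructor
      · refine AddSubgroup.subset_closure (Or.inl ⟨r * y, z,
          (hJm _).1 (hJ r y ((hJm y).2 hy)).1, hz, ?_⟩)
        rw [mul_assoc]
      · refine AddSubgroup.subset_closure (Or.inl ⟨y, z * r, hy,
          (hJm _).1 (hJ r z ((hJm z).2 hz)).2, ?_⟩)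
        rw [mul_assoc]
    · constructor
      · exact AddSubgroup.subset_closure (Or.inr ⟨r * b, mul_smul_comm p r b⟩)
      · exact AddSubgroup.subset_closure (Or.inr ⟨b * r, smul_mul_assoc p b r⟩)
  | zero => rw [mul_zero, zero_mul]; exact ⟨(KJ R p).zero_mem, (KJ R p).zero_mem⟩
  | add x y _ _ hx hy =>
    rw [mul_add, add_mul]
    exact ⟨(KJ R p).add_mem hx.1 hy.1, (KJ R p).add_mem hx.2 hy.2⟩
  | neg x _ hx =>
    rw [mul_neg, neg_mul]
    exact ⟨(KJ R p).neg_mem hx.1, (KJ R p).neg_mem hx.2⟩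

theorem Lff_JW {J : AddSubgroup R} (hJ : Idl R J) (hJm : ∀ x, x ∈ J ↔ Nl x) (t : R) (x : R)
    (hx : x ∈ JW t) : Nl x := by
  rw [← hJm]
  refine (AddSubgroup.closure_le J).2 ?_ hx
  rintro y (⟨b, c, hb, -, rfl⟩ | ⟨-, h⟩)
  · exact (hJ c b ((hJm b).2 hb)).2
  · exact (hJm y).2 h

theorem Lff_upd {n g : ℕ} {a : Fin g → ℕ} {t : R} {x : Fin g → R} (hx : Ty n a t x) (j : Fin g)
    {y : R} (hy : Nl y) (hyt : y * t = pw t (a j) * y) : Ty n a t (Function.update x j y) := by
  refine ⟨hx.1, fun i => ?_⟩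
  by_cases h : i = j
  · subst h
    rw [Function.update_self]
    exact ⟨hy, hyt⟩
  · rw [Function.update_of_ne h]
    exact hx.2 i

/-- The nil elements of type `k`. -/
def Lff_T (J : AddSubgroup R) (t : R) (k : ℕ) : AddSubgroup R where
  carrier := {y | y ∈ J ∧ y * t = pw t k * y}
  zero_mem' := ⟨J.zero_mem, by rw [zero_mul, mul_zero]⟩
  add_mem' := by
    rintro x y ⟨h1, h2⟩ ⟨h3, h4⟩
    exact ⟨J.add_mem h1 h3, by rw [add_mul, mul_add, h2, h4]⟩
  neg_mem' := by
    rintro x ⟨h1, h2⟩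
    exact ⟨J.neg_mem h1, by rw [neg_mul, mul_neg, h2]⟩

theorem Lff_T_mem (J : AddSubgroup R) (t : R) (k : ℕ) (y : R) :
    y ∈ Lff_T J t k ↔ y ∈ J ∧ y * t = pw t k * y := Iff.rfl

theorem Lff_T_tp {J : AddSubgroup R} (hJ : Idl R J) {e : R} (he : ∀ x, e * x = x ∧ x * e = x)
    (t : R) (k : ℕ) (y : R) (hy : y ∈ Lff_T J t k) (d : ℕ) :
    Lgf_tp e t d * y ∈ Lff_T J t k := by
  refine ⟨(hJ _ _ hy.1).1, ?_⟩
  rw [mul_assoc, hy.2, ← mul_assoc, ← mul_assoc, Lgf_pw he, ← Lgf_tp_add fun x => (he x).1,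
    ← Lgf_tp_add fun x => (he x).1, Nat.add_comm]

theorem Lff_clos {g : ℕ} {t : R} {x : Fin g → R} {j : Fin g} {y : R}
    (hy : y ∈ NonUnitalSubring.closure ({t} ∪ Set.range x))
    (h : NonUnitalSubring.closure ({t} ∪ Set.range x) ≠ ⊤) :
    NonUnitalSubring.closure ({t} ∪ Set.range (Function.update x j y)) ≠ ⊤ := by
  intro h1
  apply h
  rw [eq_top_iff, ← h1]
  refine NonUnitalSubring.closure_le.2 ?_
  rintro z (hz | ⟨i, rfl⟩)
  · exact NonUnitalSubring.subset_closure (Or.inl hz)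
  · by_cases h2 : i = j
    · subst h2
      rw [Function.update_self]
      exact hy
    · rw [Function.update_of_ne h2]
      exact NonUnitalSubring.subset_closure (Or.inr ⟨i, rfl⟩)

theorem Lff_tp_mem {e : R} (he : ∀ x, e * x = x ∧ x * e = x) {S : NonUnitalSubring R} {t y : R}
    (ht : t ∈ S) (hy : y ∈ S) (d : ℕ) : Lgf_tp e t d * y ∈ S := by
  induction d with
  | zero => rw [Lgf_tp_zero, (he y).1]; exact hy
  | succ d ih => rw [Lgf_tp_succ, mul_assoc]; exact S.mul_mem ht ih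

variable {n p N : ℕ} {e : R} {H : AddSubgroup R} {g : ℕ} {a : Fin g → ℕ}

/-- The step. -/
theorem Lff_step {J : AddSubgroup R} (hJ : Idl R J) (hJm : ∀ x, x ∈ J ↔ Nl x)
    (he : ∀ x, e * x = x ∧ x * e = x) {L : List (ℤ × ℕ × List ℕ)} (hL : Lff_P n p N e H g a L)
    (i j : Fin g) (hij : i < j) (haij : a i = a j) (d : ℕ)
    (hne : ∃ (t : R) (x : Fin g → R), Ty n a t x ∧
      Lff_ev e L t (xs (Function.update x j (x j + Lgf_tp e t d * x i))) ≠
        Lff_ev e L t (xs x)) :
    ∃ L', Lff_P n p N e H g a L' ∧ ∀ r ∈ L', ∃ q ∈ L, r.2.2.sum < q.2.2.sum := by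
  have hT : ∀ (t : R) (x : Fin g → R), Ty n a t x →
      Ty n a t (Function.update x j (x j + Lgf_tp e t d * x i)) := by
    intro t x hx
    have h1 : x j + Lgf_tp e t d * x i ∈ Lff_T J t (a j) := by
      refine add_mem ⟨(hJm _).2 (hx.2 j).1, (hx.2 j).2⟩ ?_
      rw [← haij]
      exact Lff_T_tp hJ he t _ _ ⟨(hJm _).2 (hx.2 i).1, (hx.2 i).2⟩ d
    exact Lff_upd hx j ((hJm _).1 h1.1) h1.2
  have hK := Lff_KJ hJ hJm p
  refine ⟨Lff_N (fun k => if h : k < g then a ⟨k, h⟩ else 0) i j d L, ?_, fun r hr => ?_⟩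
  swap
  · obtain ⟨q, hq, -, h⟩ := Lff_N_mem _ i j d hij L r hr
    exact ⟨q, hq, h⟩
  have hv : ∀ (t : R) (x : Fin g → R), Ty n a t x →
      Lff_ev e (Lff_N (fun k => if h : k < g then a ⟨k, h⟩ else 0) i j d L) t (xs x) =
        Lff_ev e L t (xs (Function.update x j (x j + Lgf_tp e t d * x i))) -
          Lff_ev e L t (xs x) := by
    intro t x hx
    refine Lff_N_val he t (xs x) _ _ (fun k => ?_) i j d ?_ (fun k hk => ?_) L
    · by_cases h : k < g
      · simp only [xs, dif_pos h]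
        exact (hx.2 _).2
      · simp only [xs, dif_neg h]
        rw [zero_mul, mul_zero]
    · rw [Lff_xs_self, Lff_xs_self, Lff_xs_self, Function.update_self]
    · rw [Lff_xs_upd, if_neg hk]
  refine ⟨hL.aN, fun q hq m hm => ?_, fun t x hx => ?_, fun t x y hx hy hxy => ?_,
    fun t x hx hS => ?_, ?_⟩
  · obtain ⟨q', hq', h1, -⟩ := Lff_N_mem _ i j d hij L q hq
    rcases h1 m hm with h | h
    · exact hL.lt q' hq' m h
    · rw [h]
      exact i.2
  · rw [hv t x hx]
    exact H.sub_mem (hL.val t _ (hT t x hx)) (hL.val t x hx)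
  · rw [hv t x hx, hv t y hy, hL.cg t x y hx hy hxy, hL.cg t _ _ (hT t x hx) (hT t y hy)]
    intro k
    by_cases hk : k = j
    · subst hk
      rw [Function.update_self, Function.update_self]
      have h1 : x k + Lgf_tp e t d * x i - (y k + Lgf_tp e t d * y i) =
          (x k - y k) + Lgf_tp e t d * (x i - y i) := by
        rw [mul_sub]
        abel
      rw [h1]
      exact add_mem (hxy k) (hK _ _ (hxy i)).1
    · rw [Function.update_of_ne hk, Function.update_of_ne hk]
      exact hxy k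
  · rw [hv t x hx, hL.van t x hx hS, hL.van t _ (hT t x hx), sub_zero]
    refine Lff_clos ?_ hS
    refine add_mem (NonUnitalSubring.subset_closure (Or.inr ⟨j, rfl⟩)) ?_
    exact Lff_tp_mem he (NonUnitalSubring.subset_closure (Or.inl rfl))
      (NonUnitalSubring.subset_closure (Or.inr ⟨i, rfl⟩)) d
  · obtain ⟨t, x, hx, h⟩ := hne
    refine ⟨t, x, hx, ?_⟩
    rw [hv t x hx]
    exact sub_ne_zero.2 h

theorem Lff_desc {J : AddSubgroup R} (hJ : Idl R J) (hJm : ∀ x, x ∈ J ↔ Nl x)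
    (he : ∀ x, e * x = x ∧ x * e = x) (m : ℕ) : ∀ L : List (ℤ × ℕ × List ℕ),
    Lff_P n p N e H g a L → (∀ q ∈ L, q.2.2.sum < m) → ∃ L', Lff_P n p N e H g a L' ∧
      ∀ i j : Fin g, i < j → a i = a j → ∀ (d : ℕ) (t : R) (x : Fin g → R), Ty n a t x →
        Lff_ev e L' t (xs (Function.update x j (x j + Lgf_tp e t d * x i))) =
          Lff_ev e L' t (xs x) := by
  induction m with
  | zero =>
    intro L hL hm
    exfalso
    obtain ⟨t, x, -, h⟩ := hL.ne
    apply h
    have h1 : L = [] := by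
      cases L with
      | nil => rfl
      | cons q L => exact absurd (hm q List.mem_cons_self) (Nat.not_lt_zero _)
    rw [h1, Lff_ev_nil]
  | succ m ih =>
    intro L hL hm
    by_cases h : ∀ i j : Fin g, i < j → a i = a j → ∀ (d : ℕ) (t : R) (x : Fin g → R),
        Ty n a t x → Lff_ev e L t (xs (Function.update x j (x j + Lgf_tp e t d * x i))) =
          Lff_ev e L t (xs x)
    · exact ⟨L, hL, h⟩
    · push Not at h
      obtain ⟨i, j, hij, haij, d, hne⟩ := h
      obtain ⟨L', hL', hs⟩ := Lff_step hJ hJm he hL i j hij haij d hne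
      refine ih L' hL' fun q hq => ?_
      obtain ⟨q', hq', h1⟩ := hs q hq
      have := hm q' hq'
      omega

theorem Lff_W (t u : R) (hu : u ∈ NonUnitalSubring.closure ({t} : Set R)) :
    u ∈ AddSubgroup.closure (Set.range (pw t)) := by
  induction hu using NonUnitalSubring.closure_induction with
  | mem x hx =>
    rw [Set.mem_singleton_iff] at hx
    subst hx
    exact AddSubgroup.subset_closure ⟨0, rfl⟩
  | zero => exact zero_mem _
  | add x y _ _ hx hy => exact add_mem hx hy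
  | neg x _ hx => exact neg_mem hx
  | mul x y hxc hyc hx hy =>
    clear hxc hyc
    have h1 : ∀ k, pw t k * y ∈ AddSubgroup.closure (Set.range (pw t)) := by
      intro k
      induction hy using AddSubgroup.closure_induction with
      | mem y hy =>
        obtain ⟨l, rfl⟩ := hy
        rw [Pws_mul]
        exact AddSubgroup.subset_closure ⟨_, rfl⟩
      | zero => rw [mul_zero]; exact zero_mem _
      | add y z _ _ hy hz => rw [mul_add]; exact add_mem hy hz
      | neg y _ hy => rw [mul_neg]; exact neg_mem hy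
    induction hx using AddSubgroup.closure_induction with
    | mem x hx =>
      obtain ⟨k, rfl⟩ := hx
      exact h1 k
    | zero => rw [zero_mul]; exact zero_mem _
    | add x z _ _ hx hz => rw [add_mul]; exact add_mem hx hz
    | neg x _ hx => rw [neg_mul]; exact neg_mem hx

/-- The elements `y` of type `a j` such that the value does not change if `y` is added. -/
def Lff_Y (J : AddSubgroup R) (a : Fin g → ℕ) (t : R) (j : Fin g) (F : R → R) :
    AddSubgroup R where
  carrier := {y | y ∈ Lff_T J t (a j) ∧ ∀ u ∈ Lff_T J t (a j), F (u + y) = F u}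
  zero_mem' := ⟨zero_mem _, fun u _ => by rw [add_zero]⟩
  add_mem' := by
    rintro x y ⟨h1, h2⟩ ⟨h3, h4⟩
    refine ⟨add_mem h1 h3, fun u hu => ?_⟩
    rw [← add_assoc, h4 _ (add_mem hu h1), h2 u hu]
  neg_mem' := by
    rintro x ⟨h1, h2⟩
    refine ⟨neg_mem h1, fun u hu => ?_⟩
    have h3 := h2 (u + -x) (add_mem hu (neg_mem h1))
    rw [neg_add_cancel_right] at h3
    exact h3.symm

theorem Lff_inv {J : AddSubgroup R} (hJ : Idl R J) (hJm : ∀ x, x ∈ J ↔ Nl x)
    (he : ∀ x, e * x = x ∧ x * e = x) (hKn : ∀ x : R, x ∈ KJ R p → Nl x)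
    (Φ : ℕ → R → R → R) (hΦadd : ∀ j t x y, Φ j t (x + y) = Φ j t x + Φ j t y)
    (hΦI : ∀ I : AddSubgroup R, Idl R I → ∀ j t x, x ∈ I → Φ j t x ∈ I)
    {L : List (ℤ × ℕ × List ℕ)} (hL : Lff_P n p N e H g a L)
    (hinv : ∀ i j : Fin g, i < j → a i = a j → ∀ (d : ℕ) (t : R) (x : Fin g → R), Ty n a t x →
      Lff_ev e L t (xs (Function.update x j (x j + Lgf_tp e t d * x i))) =
        Lff_ev e L t (xs x))
    (t : R) (x : Fin g → R) (hx : Ty n a t x)
    (hΦ : ∀ x : R, (∀ j, j < N → Φ j t x * t = pw t j * Φ j t x) ∧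
      (∀ j, j < N → x * t = pw t j * x → Φ j t x = x) ∧
      (∀ j j', j < N → j' < N → j ≠ j' → x * t = pw t j' * x → Φ j t x = 0))
    (j : Fin g) (y : R) (hyt : y * t = pw t (a j) * y)
    (hyM : y ∈ KJ R p ⊔ AddSubgroup.closure
      {w | ∃ i, i < j ∧ ∃ u ∈ NonUnitalSubring.closure ({t} : Set R), w = u * x i}) :
    Lff_ev e L t (xs (Function.update x j (x j + y))) = Lff_ev e L t (xs x) := by
  let F : R → R := fun z => Lff_ev e L t (xs (Function.update x j z))
  have hFu : ∀ u ∈ Lff_T J t (a j), Ty n a t (Function.update x j u) := fun u hu =>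
    Lff_upd hx j ((hJm _).1 hu.1) hu.2
  let φ : R →+ R := AddMonoidHom.mk' (Φ (a j) t) (hΦadd _ _)
  have hφ : ∀ z, φ z = Φ (a j) t z := fun z => rfl
  have hle : KJ R p ⊔ AddSubgroup.closure
      {w | ∃ i, i < j ∧ ∃ u ∈ NonUnitalSubring.closure ({t} : Set R), w = u * x i} ≤
      (Lff_Y J a t j F).comap φ := by
    refine sup_le (fun z hz => ?_) ((AddSubgroup.closure_le _).2 ?_)
    · rw [AddSubgroup.mem_comap, hφ]
      have h1 : Φ (a j) t z ∈ KJ R p := hΦI _ (Lff_KJ hJ hJm p) _ _ _ hz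
      have h2 : Φ (a j) t z ∈ Lff_T J t (a j) :=
        ⟨(hJm _).2 (hKn _ h1), (hΦ z).1 _ (hL.aN j)⟩
      refine ⟨h2, fun u hu => ?_⟩
      refine hL.cg t _ _ (hFu _ (add_mem hu h2)) (hFu _ hu) fun k => ?_
      by_cases hk : k = j
      · rw [hk, Function.update_self, Function.update_self, add_sub_cancel_left]
        exact h1
      · rw [Function.update_of_ne hk, Function.update_of_ne hk, sub_self]
        exact zero_mem _
    · rintro _ ⟨i, hij, u, hu, rfl⟩
      show u * x i ∈ (Lff_Y J a t j F).comap φ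
      have hu' := Lff_W t u hu
      clear hu
      induction hu' using AddSubgroup.closure_induction with
      | mem u hu' =>
        obtain ⟨k, rfl⟩ := hu'
        have h1 : x i ∈ Lff_T J t (a i) := ⟨(hJm _).2 (hx.2 i).1, (hx.2 i).2⟩
        have h2 := Lff_T_tp hJ he t _ _ h1 (k + 1)
        rw [AddSubgroup.mem_comap, hφ, Lgf_pw he]
        by_cases haij : a i = a j
        · rw [haij] at h2
          rw [(hΦ _).2.1 _ (hL.aN j) h2.2]
          refine ⟨h2, fun u hu => ?_⟩
          have h3 := hinv i j hij haij (k + 1) t _ (hFu u hu)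
          rw [Function.update_self, Function.update_of_ne (ne_of_lt hij),
            Function.update_idem] at h3
          exact h3
        · rw [(hΦ _).2.2 (a j) (a i) (hL.aN j) (hL.aN i) (Ne.symm haij) h2.2]
          exact zero_mem _
      | zero => rw [zero_mul]; exact zero_mem _
      | add u v _ _ h1 h2 => rw [add_mul]; exact add_mem h1 h2
      | neg u _ h1 => rw [neg_mul]; exact neg_mem h1
  have h1 := hle hyM
  rw [AddSubgroup.mem_comap, hφ, (hΦ y).2.1 _ (hL.aN j) hyt] at h1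
  have h2 := h1.2 (x j) ⟨(hJm _).2 (hx.2 j).1, (hx.2 j).2⟩
  show F (x j + y) = _
  rw [h2]
  show Lff_ev e L t (xs (Function.update x j (x j))) = _
  rw [Function.update_eq_self]

/-- The numbering of the variables without the variable `k`. -/
def Lff_rho (k m : ℕ) : ℕ := if m < k then m else m - 1

theorem Lff_xs_ins {g : ℕ} (k : Fin (g + 1)) (x : Fin g → R) (m : ℕ) (hm : m ≠ k) :
    xs x (Lff_rho k m) = xs (k.insertNth (α := fun _ => R) 0 x) m := by
  have hk := k.2
  unfold xs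
  by_cases h : m < g + 1
  · have h1 : (⟨m, h⟩ : Fin (g + 1)) ≠ k := fun h2 => hm (congrArg Fin.val h2)
    obtain ⟨i, hi⟩ := Fin.exists_succAbove_eq h1
    have h2 : Lff_rho k m = i := by
      have h3 := congrArg Fin.val hi
      unfold Lff_rho
      unfold Fin.succAbove at h3
      by_cases h4 : i.castSucc < k
      · rw [if_pos h4] at h3
        have h5 : (i : ℕ) < k := h4
        have h6 : (i : ℕ) = m := h3
        rw [if_pos (by omega)]
        omega
      · rw [if_neg h4] at h3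
        have h5 : ¬ (i : ℕ) < k := h4
        have h6 : (i : ℕ) + 1 = m := h3
        rw [if_neg (by omega)]
        omega
    rw [dif_pos h, ← hi, Fin.insertNth_apply_succAbove, dif_pos (by rw [h2]; exact i.2)]
    congr 1
    exact Fin.ext h2
  · rw [dif_neg h, dif_neg]
    unfold Lff_rho
    rw [if_neg (by omega)]
    omega

theorem Lff_del_ty {g : ℕ} {a : Fin (g + 1) → ℕ} (k : Fin (g + 1)) {t : R} {x : Fin g → R}
    (hx : Ty n (fun i => a (k.succAbove i)) t x) :
    Ty n a t (k.insertNth (α := fun _ => R) 0 x) := by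
  refine ⟨hx.1, fun m => ?_⟩
  rcases Fin.eq_self_or_eq_succAbove k m with h | ⟨i, h⟩
  · rw [h, Fin.insertNth_apply_same]
    exact ⟨by simp [Nl], by rw [zero_mul, mul_zero]⟩
  · rw [h, Fin.insertNth_apply_succAbove]
    exact hx.2 i

theorem Lff_del_val {g : ℕ} (k : Fin (g + 1)) (t : R) (x : Fin g → R)
    (L : List (ℤ × ℕ × List ℕ)) :
    Lff_ev e ((L.filter fun q => decide ((k : ℕ) ∉ q.2.2)).map
      fun q => (q.1, q.2.1, q.2.2.map (Lff_rho k))) t (xs x) =
      Lff_ev e L t (xs (k.insertNth (α := fun _ => R) 0 x)) := by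
  rw [Lff_ev_filter e t (xs (k.insertNth (α := fun _ => R) 0 x))
    (fun q => decide ((k : ℕ) ∉ q.2.2)) L, Lff_ev_zero e t _
    (L.filter fun q => !decide ((k : ℕ) ∉ q.2.2)), add_zero]
  · unfold Lff_ev
    rw [List.map_map]
    congr 1
    refine List.map_congr_left fun q hq => ?_
    have h1 : (k : ℕ) ∉ q.2.2 := of_decide_eq_true (List.mem_filter.1 hq).2
    show q.1 • (Lgf_tp e t q.2.1 * Lgf_wpe e ((q.2.2.map (Lff_rho k)).map (xs x))) = _
    rw [List.map_map]
    have h2 : q.2.2.map (xs x ∘ Lff_rho k) =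
        q.2.2.map (xs (k.insertNth (α := fun _ => R) 0 x)) := by
      refine List.map_congr_left fun m hm => Lff_xs_ins k x m ?_
      rintro rfl
      exact h1 hm
    rw [h2]
  · intro q hq
    have h1 := (List.mem_filter.1 hq).2
    refine ⟨k, ?_, ?_⟩
    · by_contra h2
      rw [decide_eq_true h2] at h1
      simp at h1
    · rw [Lff_xs_self, Fin.insertNth_apply_same]

/-- The number of variables is not minimal if there is a nonzero value with a variable zero. -/
theorem Lff_del {g : ℕ} {a : Fin (g + 1) → ℕ} {L : List (ℤ × ℕ × List ℕ)}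
    (hL : Lff_P n p N e H (g + 1) a L) (k : Fin (g + 1))
    (hne : ∃ (t : R) (x : Fin (g + 1) → R), Ty n a t x ∧ x k = 0 ∧
      Lff_ev e L t (xs x) ≠ 0) :
    ∃ L', Lff_P n p N e H g (fun i => a (k.succAbove i)) L' := by
  refine ⟨(L.filter fun q => decide ((k : ℕ) ∉ q.2.2)).map
      fun q => (q.1, q.2.1, q.2.2.map (Lff_rho k)), fun i => hL.aN _, ?_, fun t x hx => ?_,
      fun t x y hx hy hxy => ?_, fun t x hx hS => ?_, ?_⟩
  · intro q hq i hi
    obtain ⟨q', hq', rfl⟩ := List.mem_map.1 hq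
    obtain ⟨m, hm, rfl⟩ := List.mem_map.1 hi
    obtain ⟨h1, h2⟩ := List.mem_filter.1 hq'
    have h3 : (k : ℕ) ∉ q'.2.2 := of_decide_eq_true h2
    have h4 := hL.lt q' h1 m hm
    have h5 : m ≠ k := by
      rintro rfl
      exact h3 hm
    have h6 := k.2
    unfold Lff_rho
    split <;> omega
  · rw [Lff_del_val]
    exact hL.val t _ (Lff_del_ty k hx)
  · rw [Lff_del_val, Lff_del_val]
    refine hL.cg t _ _ (Lff_del_ty k hx) (Lff_del_ty k hy) fun m => ?_
    rcases Fin.eq_self_or_eq_succAbove k m with h | ⟨i, h⟩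
    · rw [h, Fin.insertNth_apply_same, Fin.insertNth_apply_same, sub_zero]
      exact zero_mem _
    · rw [h, Fin.insertNth_apply_succAbove, Fin.insertNth_apply_succAbove]
      exact hxy i
  · rw [Lff_del_val]
    refine hL.van t _ (Lff_del_ty k hx) fun h1 => hS ?_
    rw [eq_top_iff, ← h1]
    refine NonUnitalSubring.closure_le.2 ?_
    rintro z (hz | ⟨m, rfl⟩)
    · exact NonUnitalSubring.subset_closure (Or.inl hz)
    · rcases Fin.eq_self_or_eq_succAbove k m with h | ⟨i, h⟩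
      · rw [h, Fin.insertNth_apply_same]
        exact NonUnitalSubring.zero_mem _
      · rw [h, Fin.insertNth_apply_succAbove]
        exact NonUnitalSubring.subset_closure (Or.inr ⟨i, rfl⟩)
  · obtain ⟨t, x, hx, hxk, h⟩ := hne
    refine ⟨t, fun i => x (k.succAbove i), ⟨hx.1, fun i => hx.2 _⟩, ?_⟩
    rw [Lff_del_val]
    have h1 : (k.insertNth (α := fun _ => R) 0 fun i => x (k.succAbove i)) = x := by
      funext m
      rcases Fin.eq_self_or_eq_succAbove k m with h | ⟨i, h⟩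
      · rw [h, Fin.insertNth_apply_same, hxk]
      · rw [h, Fin.insertNth_apply_succAbove]
    rw [h1]
    exact h

/-- Only the items with all letters matter. -/
theorem Lff_all {L : List (ℤ × ℕ × List ℕ)}
    (h0 : ∀ (t : R) (x : Fin g → R), Ty n a t x → ∀ k, x k = 0 → Lff_ev e L t (xs x) = 0)
    (m : ℕ) (hm : m ≤ g) : ∀ (t : R) (x : Fin g → R), Ty n a t x →
      Lff_ev e (L.filter fun q => decide (∀ k, k < m → k ∈ q.2.2)) t (xs x) =
        Lff_ev e L t (xs x) := by
  induction m with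
  | zero =>
    intro t x _
    rw [List.filter_eq_self.2]
    intro q _
    exact decide_eq_true fun k hk => absurd hk (Nat.not_lt_zero k)
  | succ m ih =>
    intro t x hx
    have hmg : m < g := by omega
    have ih' := ih (by omega)
    have h1 : (L.filter fun q => decide (∀ k, k < m + 1 → k ∈ q.2.2)) =
        (L.filter fun q => decide (∀ k, k < m → k ∈ q.2.2)).filter
          fun q => decide (m ∈ q.2.2) := by
      rw [List.filter_filter]
      refine List.filter_congr fun q _ => ?_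
      rw [Bool.eq_iff_iff, Bool.and_eq_true, decide_eq_true_iff, decide_eq_true_iff,
        decide_eq_true_iff]
      constructor
      · intro h
        exact ⟨h m (by omega), fun k hk => h k (by omega)⟩
      · rintro ⟨h2, h3⟩ k hk
        by_cases hkm : k = m
        · rw [hkm]
          exact h2
        · exact h3 k (by omega)
    rw [h1, ← ih' t x hx]
    set M := L.filter fun q => decide (∀ k, k < m → k ∈ q.2.2) with hM
    rw [Lff_ev_filter e t (xs x) (fun q => decide (m ∈ q.2.2)) M]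
    have h2 : Lff_ev e (M.filter fun q => !decide (m ∈ q.2.2)) t (xs x) = 0 := by
      have h3 : Lff_ev e (M.filter fun q => !decide (m ∈ q.2.2)) t (xs x) =
          Lff_ev e (M.filter fun q => !decide (m ∈ q.2.2)) t
            (xs (Function.update x ⟨m, hmg⟩ 0)) := by
        refine Lff_ev_congr e t _ _ _ fun q hq i hi => ?_
        rw [Lff_xs_upd, if_neg]
        intro h4
        have h5 : i = m := h4
        have h6 := (List.mem_filter.1 hq).2
        rw [← h5, decide_eq_true hi] at h6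
        simp at h6
      have h0l : Nl (0 : R) := by simp [Nl]
      have hT : Ty n a t (Function.update x ⟨m, hmg⟩ 0) :=
        Lff_upd hx _ h0l (by rw [zero_mul, mul_zero])
      have h4 := Lff_ev_filter e t (xs (Function.update x ⟨m, hmg⟩ 0))
        (fun q => decide (m ∈ q.2.2)) M
      rw [ih' t _ hT, h0 t _ hT ⟨m, hmg⟩ (Function.update_self _ _ _),
        Lff_ev_zero e t _ (M.filter fun q => decide (m ∈ q.2.2)), zero_add] at h4
      · rw [h3, ← h4]
      · intro q hq
        refine ⟨m, of_decide_eq_true (List.mem_filter.1 hq).2, ?_⟩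
        rw [Lff_xs_upd, if_pos rfl]
    rw [h2, add_zero]

end cls

theorem thm_Lff (hFle : St_Fle) (hTyn : St_Tyn) (hFoi : St_Foi) (hKjf : St_Kjf) : St_Lff := by
  intro n p R _ _ hC e hP he hcr
  obtain ⟨J, hJ, hJm⟩ := CRL.jil n hC.n4 R hC.inM hC.nt
  obtain ⟨N, hN1, hNn, hNp, -, hfr⟩ := hTyn n p R hC e hP he
  obtain ⟨Φ, hΦ, -, hΦadd, -, hΦI⟩ := hFoi n p R hC e hP he N hN1 hNp
  obtain ⟨-, H, hH, g₀, a₀, L₀, hk₀, hit₀, hF₀, t₀, x₀, ht₀, hx₀, hne₀⟩ :=
    thm_Lgf hFle hTyn thm_Fou n p R hC e hP he hcr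
  have hn4 := hC.n4
  have hNle : N ≤ n - 3 := Nat.le_of_dvd (by omega) hNn
  have htp : ∀ t : R, Frame R n 1 (fun _ => t) → Lgf_tp e t N = e := by
    intro t ht
    have h1 := (hfr t ht).2.1
    rw [Lgf_pw he, Nat.sub_add_cancel hN1] at h1
    exact h1
  have hpwm : ∀ t : R, Frame R n 1 (fun _ => t) → ∀ k, pw t (k % N) = pw t k := by
    intro t ht k
    rw [Lgf_pw he, Lgf_pw he]
    have h1 : k + 1 = (k % N + 1) + N * (k / N) := by
      have := Nat.mod_add_div k N
      omega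
    rw [h1, Lgf_tp_add (fun x => (he x).1) t (k % N + 1), Lgf_tp_mul he t N (htp t ht),
      (he _).2]
  -- the start
  have hQ₀ : ∃ (a : Fin g₀ → ℕ) (L : List (ℤ × ℕ × List ℕ)), Lff_P n p N e H g₀ a L := by
    have hty : ∀ (t : R) (x : Fin g₀ → R), Ty n (fun i => a₀ i % N) t x ↔
        Frame R n 1 (fun _ => t) ∧ ∀ i, Nl (x i) ∧ x i * t = pw t (a₀ i) * x i := by
      intro t x
      constructor
      · rintro ⟨h1, h2⟩
        refine ⟨h1, fun i => ⟨(h2 i).1, ?_⟩⟩
        rw [(h2 i).2, hpwm t h1]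
      · rintro ⟨h1, h2⟩
        refine ⟨h1, fun i => ⟨(h2 i).1, ?_⟩⟩
        rw [(h2 i).2, hpwm t h1]
    have hVl : ∀ (t : R) (x : Fin g₀ → R), Lff_ev e L₀ t (xs x) = Vl L₀ t x := fun t x =>
      (Lff_Vl he L₀ t x fun q hq => (hit₀ q hq).2.1).symm
    refine ⟨fun i => a₀ i % N, L₀, fun i => Nat.mod_lt _ (by omega), fun q hq i hi => ?_,
      fun t x hx => ?_, fun t x y hx hy hxy => ?_, fun t x hx hS => ?_, t₀, x₀, ?_, ?_⟩
    · exact ((hit₀ q hq).2.2.1 i).1 hi
    · rw [hVl]
      obtain ⟨h1, h2⟩ := (hty t x).1 hx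
      exact (hF₀ t x h1 h2).1
    · rw [hVl, hVl]
      obtain ⟨h1, h2⟩ := (hty t x).1 hx
      obtain ⟨-, h3⟩ := (hty t y).1 hy
      refine (hF₀ t x h1 h2).2.1 y h3 fun i => ?_
      rw [(hKjf n p R hC).2 e hP he t h1]
      exact hxy i
    · rw [hVl]
      obtain ⟨h1, h2⟩ := (hty t x).1 hx
      exact (hF₀ t x h1 h2).2.2 hS
    · exact (hty t₀ x₀).2 ⟨ht₀, hx₀⟩
    · rw [hVl]
      exact hne₀
  -- the minimal number of variables
  classical
  have hQex : ∃ g, ∃ (a : Fin g → ℕ) (L : List (ℤ × ℕ × List ℕ)), Lff_P n p N e H g a L :=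
    ⟨g₀, hQ₀⟩
  have hgle : Nat.find hQex ≤ g₀ := Nat.find_min' hQex hQ₀
  obtain ⟨a, L₁, hL₁⟩ := Nat.find_spec hQex
  have hmin := fun m => Nat.find_min hQex (m := m)
  generalize Nat.find hQex = g at a hL₁ hmin hgle
  obtain ⟨L, hL, hinv⟩ := Lff_desc hJ hJm he ((L₁.map fun q => q.2.2.sum).sum + 1) L₁ hL₁
    fun q hq => Nat.lt_succ_of_le (List.le_sum_of_mem (List.mem_map.2 ⟨q, hq, rfl⟩))
  -- a variable zero
  have hz : ∀ (t : R) (x : Fin g → R), Ty n a t x → ∀ k, x k = 0 →
      Lff_ev e L t (xs x) = 0 := by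
    intro t x hx k hxk
    by_contra hne
    obtain ⟨g', rfl⟩ : ∃ g', g = g' + 1 := ⟨g - 1, by have := k.2; omega⟩
    obtain ⟨L', hL'⟩ := Lff_del hL k ⟨t, x, hx, hxk, hne⟩
    exact hmin g' (by omega) ⟨_, L', hL'⟩
  -- the final list
  let L₂ : List (ℤ × ℕ × List ℕ) := L.map fun q => (q.1, Lgf_red N q.2.1, q.2.2)
  have hL₂v : ∀ (t : R), Frame R n 1 (fun _ => t) → ∀ y : ℕ → R,
      Lff_ev e L₂ t y = Lff_ev e L t y := by
    intro t ht y
    unfold Lff_ev
    rw [List.map_map]
    congr 1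
    refine List.map_congr_left fun q _ => ?_
    show q.1 • (Lgf_tp e t (Lgf_red N q.2.1) * Lgf_wpe e (q.2.2.map y)) = _
    rw [Lgf_tp_red he t N (htp t ht)]
  have hL₂ : ∀ q ∈ L₂, 1 ≤ q.2.1 ∧ q.2.1 ≤ N ∧ ∀ i ∈ q.2.2, i < g := by
    intro q hq
    obtain ⟨q', hq', rfl⟩ := List.mem_map.1 hq
    have h1 := Lgf_red_le hN1 q'.2.1
    exact ⟨h1.1, h1.2, hL.lt q' hq'⟩
  let L₃ : List (ℤ × ℕ × List ℕ) := L₂.filter fun q => decide (∀ k, k < g → k ∈ q.2.2)
  have hL₃ : ∀ q ∈ L₃, (1 ≤ q.2.1 ∧ q.2.1 ≤ N ∧ ∀ i ∈ q.2.2, i < g) ∧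
      ∀ k, k < g → k ∈ q.2.2 := by
    intro q hq
    obtain ⟨h1, h2⟩ := List.mem_filter.1 hq
    exact ⟨hL₂ q h1, of_decide_eq_true h2⟩
  have hL₃v : ∀ (t : R) (x : Fin g → R), Ty n a t x →
      Lff_ev e L₃ t (xs x) = Lff_ev e L t (xs x) := by
    intro t x hx
    rw [Lff_all (fun t x hx k hxk => by rw [hL₂v t hx.1]; exact hz t x hx k hxk) g le_rfl t x
      hx, hL₂v t hx.1]
  let Q : ℤ × ℕ × List ℕ → Prop := fun q =>
    (∀ i, q.2.2.count i ≤ 3) ∧ ((Nat.card R).Coprime 6 → q.2.2.length ≤ 5)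
  let L₄ : List (ℤ × ℕ × List ℕ) := L₃.filter fun q => decide (Q q)
  have hxsn : ∀ x : Fin g → R, (∀ i, Nl (x i)) → ∀ i, Nl (xs x i) := by
    intro x hx i
    unfold xs
    split
    · exact hx _
    · simp [Nl]
  have hval : ∀ (t : R) (x : Fin g → R), Ty n a t x → Vl L₄ t x = Lff_ev e L t (xs x) := by
    intro t x hx
    rw [← hL₃v t x hx, ← Lff_Vl he L₃ t x fun q hq => by have := (hL₃ q hq).1.1; omega]
    refine Lgf_filter _ _ t x fun q hq hqf => ?_
    have h2 : ¬ Q q := of_decide_eq_false hqf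
    have h3 : ¬ ((∀ i, q.2.2.count i ≤ 3) ∧
      ((Nat.card R).Coprime 6 → q.2.2.length ≤ 5)) := h2
    rw [not_and_or] at h3
    rcases h3 with h3 | h3
    · push Not at h3
      obtain ⟨i, hi⟩ := h3
      have h4 := hFle.2 R (fun x y hx hy => (hJm _).1 (J.add_mem ((hJm x).2 hx) ((hJm y).2 hy)))
        (fun r x hx => ⟨(hJm _).1 (hJ r x ((hJm x).2 hx)).1,
          (hJm _).1 (hJ r x ((hJm x).2 hx)).2⟩) (xs x) q.2.2 i
        (fun j _ => hxsn x (fun i => (hx.2 i).1) j) (by omega)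
      have h5 : q.2.2.map (xs x) ≠ [] := by
        intro h6
        rw [List.map_eq_nil_iff.1 h6] at hi
        simp at hi
      have h6 : List.replicate q.2.1 t ++ q.2.2.map (xs x) ≠ [] := by
        intro h7
        exact h5 (List.append_eq_nil_iff.1 h7).2
      rw [Lgf_wp (fun x => (he x).2) _ h6, Lgf_wpe_app fun x => (he x).1,
        ← Lgf_wp (fun x => (he x).2) _ h5, h4, mul_zero]
    · push Not at h3
      obtain ⟨h4, h5⟩ := h3
      obtain ⟨M, hM5, hM⟩ := CRL.bnd n p R hC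
      refine hM (q.2.2.map (xs x)) _ (List.sublist_append_right _ _) ?_ ?_
      · intro y hy
        obtain ⟨i, -, rfl⟩ := List.mem_map.1 hy
        exact hxsn x (fun i => (hx.2 i).1) i
      · rw [hM5 h4, List.length_map]
        exact h5
  refine ⟨⟨e, hP, he⟩, p, H, hC.pp, hC.pr, hH, g, a, L₄, fun k y hy => ?_, ?_, fun q hq => ?_,
    fun t x hx => ⟨?_, fun j y hy hyt hyM => ?_⟩, ?_⟩
  · exact hgle.trans (hk₀ k y hy)
  · obtain ⟨t, x, hx, hne⟩ := hL.ne
    refine ⟨t, x, hx, ?_⟩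
    by_contra h1
    exact hne (hL.van t x hx h1)
  · obtain ⟨h1, h2⟩ := List.mem_filter.1 hq
    have h3 : Q q := of_decide_eq_true h2
    obtain ⟨⟨h4, h5, h6⟩, h7⟩ := hL₃ q h1
    exact ⟨by omega, by omega, fun i => ⟨h6 i, h7 i⟩, h3.1, h3.2⟩
  · rw [hval t x hx]
    exact hL.val t x hx
  · have ht := hx.1
    obtain ⟨-, htN, htu⟩ := hfr t ht
    have hΦt := hΦ t htN fun k h1 h2 => by
      obtain ⟨u, hu, -⟩ := htu k h1 h2
      exact ⟨u, hu⟩
    have hT : Ty n a t (Function.update x j (x j + y)) := by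
      refine Lff_upd hx j ?_ ?_
      · exact (hJm _).1 (J.add_mem ((hJm _).2 (hx.2 j).1) ((hJm _).2 hy))
      · rw [add_mul, mul_add, (hx.2 j).2, hyt]
    rw [hval t x hx, hval t _ hT]
    refine Lff_inv hJ hJm he (fun x hx => ?_) Φ hΦadd hΦI hL hinv t x hx
      (fun x => ⟨(hΦt x).1, (hΦt x).2.1, (hΦt x).2.2.1⟩) j y hyt hyM
    rw [← (hKjf n p R hC).2 e hP he t ht] at hx
    exact Lff_JW hJ hJm t x hx
  · obtain ⟨t, x, hx, hne⟩ := hL.ne
    refine ⟨t, x, hx, ?_⟩
    rw [hval t x hx]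
    exact hne

end Pool.Agent.CRM
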