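import Pool.Agent.CRM.Std
import Pool.Agent.CRL.All
import Pool.Agent.CRK.Gdb
import Pool.Agent.CRK.Cvm
import Pool.Agent.CRN.Ppw
import Pool.Agent.CRN.Pws

/-!
Campaign CRM, module Lgb: the rings of the local type are critical.
-/

set_option autoImplicit false

namespace Pool.Agent.CRM

open Pool.Agent.CRR Pool.Agent.CRN Pool.Agent.CRK Pool.Agent.CRL

section

variable {R : Type} [NonUnitalRing R]

theorem Lgb_pw {N : ℕ} {t e : R} (hN : 1 ≤ N) (h : pw t (N - 1) = e) (he : ∀ x, e * x = x)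
    (k : ℕ) : pw t k = pw t (k % N) := by
  have h1 : ∀ (q r : ℕ), pw t (r + N * q) = pw t r := by
    intro q r
    induction q with
    | zero => simp
    | succ q ih =>
      have h2 : r + N * (q + 1) = (N - 1) + (r + N * q) + 1 := by
        rw [Nat.mul_succ]
        omega
      rw [h2, ← Pws_mul, h, he, ih]
  conv_lhs => rw [← Nat.mod_add_div k N]
  exact h1 _ _

theorem Lgb_wp : ∀ (F : List ((ℕ → R) → R)), (∀ f ∈ F, TmF f) →
    TmF (fun v => wp (F.map fun f => f v))
  | [], _ => by simpa [wp] using TmF.zero (R := R)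
  | [f], h => by simpa [wp] using h f (by simp)
  | f :: f' :: F, h => by
    have h1 := (h f (by simp)).mul (Lgb_wp (f' :: F) fun x hx => h x (by simp [List.mem_cons.1 hx]))
    simpa [wp] using h1

theorem Lgb_tm (L : List (ℤ × ℕ × List ℕ)) {g : ℕ} {ψ : (ℕ → R) → R} (hψ : TmF ψ)
    {χ : Fin g → (ℕ → R) → R} (hχ : ∀ i, TmF (χ i)) :
    TmF (fun v => Vl L (ψ v) (fun i => χ i v)) := by
  have hxs : ∀ k : ℕ, TmF (fun v => xs (fun i => χ i v) k) := by
    intro k
    unfold xs
    by_cases hk : k < g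
    · simp only [hk, dif_pos]
      exact hχ _
    · simp only [hk, dif_neg, not_false_eq_true]
      exact TmF.zero
  induction L with
  | nil => simpa [Vl] using TmF.zero (R := R)
  | cons q L ih =>
    have h1 : (fun v => Vl (q :: L) (ψ v) (fun i => χ i v)) = fun v =>
        q.1 • wp (((List.replicate q.2.1 ψ ++ q.2.2.map fun k v => xs (fun i => χ i v) k)).map
          fun f => f v) + Vl L (ψ v) (fun i => χ i v) := by
      funext v
      simp only [Vl, List.map_cons, List.sum_cons, List.map_append, List.map_replicate,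
        List.map_map]
      rfl
    rw [h1]
    refine (Cvm_tmf_zsmul (Lgb_wp _ ?_) q.1).add ih
    intro f hf
    rcases List.mem_append.1 hf with hf | hf
    · rw [(List.mem_replicate.1 hf).2]
      exact hψ
    · obtain ⟨k, -, rfl⟩ := List.mem_map.1 hf
      exact hxs k

end

theorem thm_Lgb (hTyn : St_Tyn) (hFou : St_Fou) (hBkl : St_Bkl) : St_Lgb := by
  intro n R _ _ hn hM hT hL
  obtain ⟨⟨e, he, hid⟩, H, hH, g, a, L, -, -, hval, t₀, x₀, ht₀, hx₀, hne⟩ := hL
  obtain ⟨p, r, hp, hr, -⟩ := CRN.thm_Ppw R H hH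
  have hC : Cy R n p := ⟨hn, hM, hT, hp, r, hr⟩
  obtain ⟨N, hN1, -, hNp, -, hN⟩ := hTyn n p R hC e he hid
  obtain ⟨Φ, hΦ1, hΦ2, -, hΦ4, hΦ5⟩ := hFou n p R hC e he hid N hN1 hNp
  have hΦ1' : ∀ t : R, Frame R n 1 (fun _ => t) → ∀ x : R,
      (∀ j, j < N → Φ j t x * t = pw t j * Φ j t x) ∧
      (∀ j, j < N → x * t = pw t j * x → Φ j t x = x) := by
    intro t ht x
    have h1 := hΦ1 t (hN t ht).2.1 (fun k hk hkN => by
      obtain ⟨u, hu, -⟩ := (hN t ht).2.2 k hk hkN
      exact ⟨u, hu⟩) x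
    exact ⟨h1.1, h1.2.1⟩
  have hpw : ∀ t : R, Frame R n 1 (fun _ => t) → ∀ k, pw t k = pw t (k % N) := fun t ht k =>
    Lgb_pw hN1 (hN t ht).2.1 (fun x => (hid x).1) k
  have hlt : ∀ i, a i % N < N := fun i => Nat.mod_lt _ hN1
  have hgood : ∀ t : R, Frame R n 1 (fun _ => t) → ∀ y : Fin g → R, (∀ i, Nl (y i)) → ∀ i,
      Nl (Φ (a i % N) t (y i)) ∧
      Φ (a i % N) t (y i) * t = pw t (a i) * Φ (a i % N) t (y i) := by
    intro t ht y hy i
    refine ⟨hΦ2 _ _ _ (hy i), ?_⟩
    rw [hpw t ht (a i)]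
    exact (hΦ1' t ht (y i)).1 _ (hlt i)
  have hfr : ∀ v : ℕ → R, Vec n 1 g v → Frame R n 1 (fun _ => v 0) := by
    intro v hv
    have h1 : (fun i : Fin 1 => v i) = fun _ => v 0 := by
      funext i
      rw [Subsingleton.elim i 0]
      rfl
    have h2 := hv.1
    rwa [h1] at h2
  refine hBkl n p R hC e he hid H hH g
    (fun v => Vl L (v 0) (fun i : Fin g => Φ (a i % N) (v 0) (v (1 + i)))) ⟨?_, ?_, ?_, ?_, ?_⟩
  · exact Lgb_tm L (TmF.var 0) fun i => hΦ5 _ _ _ (TmF.var 0) (TmF.var (1 + (i : ℕ)))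
  · intro v v' hv
    have h0 : v 0 = v' 0 := hv 0 (by omega)
    have h1 : (fun i : Fin g => Φ (a i % N) (v 0) (v (1 + i))) =
        fun i : Fin g => Φ (a i % N) (v' 0) (v' (1 + i)) := by
      funext i
      rw [h0, hv (1 + i) (by have := i.2; omega)]
    have h2 : Vl L (v 0) (fun i : Fin g => Φ (a i % N) (v 0) (v (1 + i))) =
        Vl L (v 0) (fun i : Fin g => Φ (a i % N) (v' 0) (v' (1 + i))) := by rw [h1]
    refine h2.trans ?_
    rw [h0]
  · intro v hv
    exact (hval (v 0) _ (hfr v hv)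
      (hgood (v 0) (hfr v hv) (fun i => v (1 + i)) fun i => hv.2 i i.2)).1
  · intro v hv S hS hvS
    refine (hval (v 0) _ (hfr v hv)
      (hgood (v 0) (hfr v hv) (fun i => v (1 + i)) fun i => hv.2 i i.2)).2.2 ?_
    intro htop
    apply hS
    rw [eq_top_iff, ← htop]
    refine NonUnitalSubring.closure_le.2 ?_
    rintro z (hz | ⟨i, rfl⟩)
    · rw [Set.mem_singleton_iff.1 hz]
      exact hvS 0 (by omega)
    · exact hΦ4 S _ _ _ (hvS 0 (by omega)) (hvS (1 + i) (by have := i.2; omega))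
  · refine ⟨fun k => if k = 0 then t₀ else if h : k - 1 < g then x₀ ⟨k - 1, h⟩ else 0, ⟨?_, ?_⟩, ?_⟩
    · have h1 : (fun i : Fin 1 => (fun k : ℕ => if k = 0 then t₀ else
          if h : k - 1 < g then x₀ ⟨k - 1, h⟩ else 0) (i : ℕ)) = fun _ => t₀ := by
        funext i
        rw [Subsingleton.elim i 0]
        simp
      rw [h1]
      exact ht₀
    · intro k hk
      have h1 : (1 + k) - 1 < g := by omega
      have h2 : (1 + k) ≠ 0 := by omega
      simp only [h2, if_false, h1, dif_pos]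
      exact (hx₀ _).1
    · have h3 : (fun i : Fin g => Φ (a i % N) t₀ ((fun k : ℕ => if k = 0 then t₀ else
          if h : k - 1 < g then x₀ ⟨k - 1, h⟩ else 0) (1 + i))) = x₀ := by
        funext i
        have h1 : (1 + (i : ℕ)) - 1 < g := by have := i.2; omega
        have h2 : (1 + (i : ℕ)) ≠ 0 := by omega
        have h4 : (⟨1 + (i : ℕ) - 1, h1⟩ : Fin g) = i := by
          ext
          simp
        simp only [h2, if_false, h1, dif_pos, h4]
        refine (hΦ1' t₀ ht₀ (x₀ i)).2 _ (hlt i) ?_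
        rw [← hpw t₀ ht₀ (a i)]
        exact (hx₀ i).2
      simp only [if_true]
      rw [h3]
      exact hne

end Pool.Agent.CRM
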