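import Pool.Agent.CRM.Stb
import Pool.Agent.CRK.Lib
import Pool.Agent.CRL.Wlk

/-!
Campaign CRM, module Alp: permutation of loops.
-/

set_option autoImplicit false

namespace Pool.Agent.CRM

open Pool.Agent.CRR Pool.Agent.CRN Pool.Agent.CRK Pool.Agent.CRL

theorem Alp_mul {R : Type} [NonUnitalRing R] {s : ℕ} {e : Fin s → R} (hH : Hm e)
    {α β γ : Option (Fin s)} {a z : R} (ha : Jc e α β a) (hz : Jc e β γ z) :
    Jc e α γ (a * z) := by
  refine ⟨⟨fun i => ?_, fun j => ?_⟩, (hH.mul a z hz.2).1⟩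
  · rw [← mul_assoc, ha.1.1 i]
    split_ifs
    · rfl
    · rw [zero_mul]
  · rw [mul_assoc, hz.1.2 j]
    split_ifs
    · rfl
    · rw [mul_zero]

theorem Alp_jc {R : Type} [NonUnitalRing R] {s : ℕ} {e : Fin s → R} (hH : Hm e)
    {α β : Option (Fin s)} (y : ℕ → R) (z : R) (hz : Jc e α β z) :
    ∀ l : List ℕ, (∀ k ∈ l, Jc e α α (y k)) → Jc e α β (wp (l.map y ++ [z])) := by
  intro l
  induction l with
  | nil => intro _; exact hz
  | cons k l ih =>
    intro h
    rw [List.map_cons, List.cons_append, Lib_cons _ (by simp)]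
    exact Alp_mul hH (h k (by simp)) (ih fun j hj => h j (by simp [hj]))

theorem Alp_left {R : Type} [NonUnitalRing R] (p l l' : List R) (hl : l ≠ []) (hl' : l' ≠ [])
    (ε : ℤ) (h : wp l = ε • wp l') : wp (p ++ l) = ε • wp (p ++ l') := by
  induction p with
  | nil => exact h
  | cons a p ih =>
    rw [List.cons_append, List.cons_append, Lib_cons _ (by simp [hl]), Lib_cons _ (by simp [hl']),
      ih, mul_smul_comm]

theorem Alp_one (hR : St_Rul) {R : Type} [NonUnitalRing R] {s : ℕ} {e : Fin s → R} (hH : Hm e)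
    {α β : Option (Fin s)} (hab : α ≠ β) (ks ks' : List ℕ) (hp : ks.Perm ks') :
    ∃ ε : ℤ, (ε = 1 ∨ ε = -1) ∧ ∀ (y : ℕ → R) (z : R),
      (∀ k ∈ ks, Jc e α α (y k)) → Jc e α β z →
      wp (ks.map y ++ [z]) = ε • wp (ks'.map y ++ [z]) := by
  obtain ⟨r1, -⟩ := hR R s e hH α β hab
  induction hp with
  | nil => exact ⟨1, Or.inl rfl, fun y z _ _ => by rw [one_smul]⟩
  | cons k _ ih =>
    obtain ⟨ε, hε, h⟩ := ih
    refine ⟨ε, hε, fun y z hy hz => ?_⟩
    rw [List.map_cons, List.map_cons, List.cons_append, List.cons_append,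
      Lib_cons _ (by simp), Lib_cons _ (by simp), h y z (fun j hj => hy j (by simp [hj])) hz,
      mul_smul_comm]
  | swap a b l =>
    refine ⟨-1, Or.inr rfl, fun y z hy hz => ?_⟩
    have hz' : Jc e α β (wp (l.map y ++ [z])) :=
      Alp_jc hH y z hz l fun k hk => hy k (by simp [hk])
    rw [List.map_cons, List.map_cons, List.map_cons, List.map_cons, List.cons_append,
      List.cons_append, List.cons_append, List.cons_append, Lib_cons _ (by simp),
      Lib_cons _ (by simp), Lib_cons _ (by simp), Lib_cons _ (by simp), ← mul_assoc, ← mul_assoc,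
      (r1 (y b) (y a) _ (hy b (by simp)) (hy a (by simp)) hz').1, neg_smul, one_smul]
  | trans h1 h2 ih1 ih2 =>
    obtain ⟨ε1, hε1, g1⟩ := ih1
    obtain ⟨ε2, hε2, g2⟩ := ih2
    refine ⟨ε1 * ε2, ?_, fun y z hy hz => ?_⟩
    · rcases hε1 with h | h <;> rcases hε2 with h' | h' <;> rw [h, h'] <;> simp
    · rw [g1 y z hy hz, g2 y z (fun k hk => hy k (h1.mem_iff.2 hk)) hz, smul_smul]

theorem Alp_two (hR : St_Rul) {R : Type} [NonUnitalRing R] {s : ℕ} {e : Fin s → R} (hH : Hm e)
    {α β : Option (Fin s)} (hab : α ≠ β) (ks : List ℕ) :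
    ∃ ε : ℤ, (ε = 1 ∨ ε = -1) ∧ ∀ (y : ℕ → R) (z w : R),
      (∀ k ∈ ks, Jc e α α (y k)) → Jc e α β z → Jc e β α w →
      wp (z :: w :: ks.map y) = ε • wp (ks.reverse.map y ++ [z, w]) := by
  obtain ⟨-, -, -, r4, -⟩ := hR R s e hH α β hab
  induction ks with
  | nil => exact ⟨1, Or.inl rfl, fun y z w _ _ _ => by rw [one_smul]; rfl⟩
  | cons k l ih =>
    obtain ⟨ε, hε, h⟩ := ih
    refine ⟨-ε, ?_, fun y z w hy hz hw => ?_⟩
    · rcases hε with h | h <;> rw [h] <;> simp
    · have hk := hy k (by simp)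
      have hkz := Alp_mul hH hk hz
      have h1 := h y (y k * z) w (fun j hj => hy j (by simp [hj])) hkz hw
      have h2 : y k * z * w = -(z * w * y k) :=
        (r4 (y k) 0 z w hk ⟨⟨fun i => by simp, fun j => by simp⟩, by simp [Nl]⟩ hz hw).1
      have h3 : wp (z :: w :: (k :: l).map y) = -wp ((y k * z) :: w :: l.map y) := by
        rw [List.map_cons]
        cases hl : l.map y with
        | nil =>
          show z * (w * y k) = -((y k * z) * w)
          rw [h2, neg_neg, mul_assoc]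
        | cons b m =>
          show z * (w * (y k * wp (b :: m))) = -((y k * z) * (w * wp (b :: m)))
          have h4 : (y k * z) * (w * wp (b :: m)) = (y k * z * w) * wp (b :: m) := by
            rw [← mul_assoc]
          rw [h4, h2, neg_mul, neg_neg]
          simp only [mul_assoc]
      have h5 : wp (l.reverse.map y ++ [y k * z, w]) =
          wp ((k :: l).reverse.map y ++ [z, w]) := by
        rw [List.reverse_cons, List.map_append, List.append_assoc]
        have h6 := Alp_left (l.reverse.map y) [y k * z, w] ([k].map y ++ [z, w]) (by simp)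
          (by simp) 1 (by
            rw [one_smul]
            show y k * z * w = y k * (z * w)
            rw [mul_assoc])
        rw [one_smul] at h6
        exact h6
      rw [h3, h1, h5, neg_smul]

theorem thm_Alp (hR : St_Rul) : St_Alp := by
  intro R _ s e hH α β hab
  refine ⟨fun ks ks' hp => Alp_one hR hH hab ks ks' hp, ?_⟩
  intro ks₁ ks₂ ks' hp
  obtain ⟨ε2, hε2, g2⟩ := Alp_two hR hH hab ks₂
  have hp' : (ks₁ ++ ks₂.reverse).Perm ks' :=
    (List.Perm.append_left ks₁ (List.reverse_perm ks₂)).trans hp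
  obtain ⟨ε1, hε1, g1⟩ := Alp_one hR hH hab _ _ hp'
  refine ⟨ε2 * ε1, ?_, fun y z w hy hz hw => ?_⟩
  · rcases hε1 with h | h <;> rcases hε2 with h' | h' <;> rw [h, h'] <;> simp
  · have h1 := g2 y z w (fun k hk => hy k (by simp [hk])) hz hw
    have h2 := Alp_left (ks₁.map y) (z :: w :: ks₂.map y) (ks₂.reverse.map y ++ [z, w]) (by simp)
      (by simp) ε2 h1
    rw [h2]
    have h3 := g1 y z (fun k hk => hy k (by
      rw [List.mem_append] at hk ⊢
      rcases hk with hk | hk
      · exact Or.inl hk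
      · exact Or.inr (List.mem_reverse.1 hk))) hz
    have e1 : ks₁.map y ++ (ks₂.reverse.map y ++ [z, w]) =
        ((ks₁ ++ ks₂.reverse).map y ++ [z]) ++ [w] := by simp
    have e2 : ks'.map y ++ [z, w] = (ks'.map y ++ [z]) ++ [w] := by simp
    rw [e1, e2, Wlk_snoc ((ks₁ ++ ks₂.reverse).map y ++ [z]) (by simp) w,
      Wlk_snoc (ks'.map y ++ [z]) (by simp) w, h3, smul_mul_assoc, smul_smul]

end Pool.Agent.CRM
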