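import Pool.Agent.CRM.TvnA
import Pool.Agent.CRM.Alp
import Pool.Agent.CRM.DopA

/-!
Campaign CRM (problem MP_1bb14d_al): LQQ, the number `q` for the type L.
-/

set_option autoImplicit false

namespace Pool.Agent.CRM

open Pool.Agent.CRR Pool.Agent.CRN Pool.Agent.CRK Pool.Agent.CRL

section

variable {R : Type} [NonUnitalRing R]

theorem Lqq_wp (y : ℕ → R) (κ : ℕ → ℕ) (z : R) (l : ℕ) :
    pll (fun j => y (κ j)) z l = wp (((List.range l).reverse.map κ).map y ++ [z]) := by
  induction l with
  | zero => rfl
  | succ l ih =>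
    rw [List.range_succ, List.reverse_append, List.reverse_singleton, List.singleton_append,
      List.map_cons, List.map_cons, List.cons_append, Dop_wp_cons _ _ (by simp), ← ih]
    rfl

theorem Lqq_mulr (c : ℕ → R) (z w : R) (l : ℕ) : pll c (z * w) l = pll c z l * w := by
  induction l with
  | zero => rfl
  | succ l ih =>
    change c l * pll c (z * w) l = c l * pll c z l * w
    rw [ih, mul_assoc]

theorem Lqq_smul (v : ℕ → R) (c : ℕ) (x : R) (k : ℕ) : pll v (c • x) k = c • pll v x k := by
  induction k with
  | zero => rfl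
  | succ k ih =>
    change v k * pll v (c • x) k = c • (v k * pll v x k)
    rw [ih, mul_smul_comm]

theorem Lqq_out (c : ℕ → R) (z : R) (k l p : ℕ) (hk : k < l) (u : R) (hc : c k = p • u) :
    pll c z l = p • pll (Function.update c k u) z l := by
  induction l with
  | zero => omega
  | succ l ih =>
    change c l * pll c z l = p • (Function.update c k u l * pll (Function.update c k u) z l)
    by_cases h : k = l
    · subst h
      have h1 : pll (Function.update c k u) z k = pll c z k :=
        ald_pll_congr k fun j hj => Function.update_of_ne (by omega) _ _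
      rw [h1, Function.update_self, hc, smul_mul_assoc]
    · rw [Function.update_of_ne (Ne.symm h), ih (by omega), mul_smul_comm]

variable {s : ℕ} {e : Fin s → R} {α β : Option (Fin s)}

theorem Lqq_rep (hR : St_Rul) (hA : St_Alp) (he : Hm e) (hab : α ≠ β) {y : ℕ → R}
    (hy : ∀ k, Jc e α α (y k)) {z : R} (hz : Jc e α β z) (ks : List ℕ) (hn : ¬ ks.Nodup) :
    wp (ks.map y ++ [z]) = 0 := by
  rw [← List.exists_duplicate_iff_not_nodup] at hn
  obtain ⟨k, hk⟩ := hn
  rw [List.duplicate_iff_sublist] at hk
  obtain ⟨l, hl⟩ := hk.exists_perm_append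
  obtain ⟨ε, -, h⟩ := (hA R s e he α β hab).1 ks ([k, k] ++ l) hl
  rw [h y z (fun k _ => hy k) hz]
  have h1 : ([k, k] ++ l).map y ++ [z] = y k :: y k :: (l.map y ++ [z]) := by simp
  rw [h1, Dop_wp_cons _ _ (by simp), Dop_wp_cons _ _ (by simp), ← mul_assoc,
    ((hR R s e he α β hab).1 (y k) (y k) _ (hy k) (hy k)
      (Alp_jc he y z hz l fun k _ => hy k)).2, smul_zero]

theorem Lqq_per (hA : St_Alp) (he : Hm e) (hab : α ≠ β) {y : ℕ → R}
    (hy : ∀ k, Jc e α α (y k)) {z : R} (hz : Jc e α β z) (φ : R →+ R) (ks ks' : List ℕ)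
    (hn : ks.Nodup) (hn' : ks'.Nodup) (hf : ks.toFinset = ks'.toFinset)
    (h0 : φ (wp (ks'.map y ++ [z])) = 0) : φ (wp (ks.map y ++ [z])) = 0 := by
  have hp : ks.Perm ks' := List.perm_of_nodup_nodup_toFinset_eq hn hn' hf
  obtain ⟨ε, -, h⟩ := (hA R s e he α β hab).1 ks ks' hp
  rw [h y z (fun k _ => hy k) hz, map_zsmul, h0, smul_zero]

theorem Lqq_core (hR : St_Rul) (hA : St_Alp) (he : Hm e) (hab : α ≠ β) {y : ℕ → R}
    (hy : ∀ k, Jc e α α (y k)) {z : R} (hz : Jc e α β z) (m : ℕ) (φ : R →+ R) (κ : ℕ → ℕ) :
    (∀ l, m < l → (∀ j, j < l → κ j < m) → pll (fun j => y (κ j)) z l = 0) ∧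
    ((∀ j, j < m → κ j < m) → φ (pll y z m) = 0 → φ (pll (fun j => y (κ j)) z m) = 0) ∧
    (∀ l, m < l → (∀ j, j < l → κ j ≤ m) → φ (y m * pll y z m) = 0 →
      φ (pll (fun j => y (κ j)) z l) = 0) ∧
    ((∀ j, j < m → κ j ≤ m) → (∃ j, j < m ∧ κ j = m) →
      (∀ k, k < m → φ (pll (Function.update y k (y m)) z m) = 0) →
      φ (pll (fun j => y (κ j)) z m) = 0) := by
  have hlen : ∀ l, ((List.range l).reverse.map κ).length = l := fun l => by simp
  have hmem : ∀ l k, k ∈ (List.range l).reverse.map κ ↔ ∃ j, j < l ∧ κ j = k := fun l k => by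
    simp
  have hcard : ∀ l, ((List.range l).reverse.map κ).Nodup →
      ((List.range l).reverse.map κ).toFinset.card = l := fun l h => by
    rw [List.toFinset_card_of_nodup h, hlen]
  have hran : ∀ l, ((List.range l).reverse).toFinset = Finset.range l := fun l => by
    ext j
    simp
  have hid : ∀ l, pll y z l = wp ((List.range l).reverse.map y ++ [z]) := fun l => by
    have := Lqq_wp y id z l
    rwa [List.map_id] at this
  refine ⟨fun l hl h => ?_, fun h h0 => ?_, fun l hl h h0 => ?_, fun h hm h0 => ?_⟩
  · rw [Lqq_wp]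
    refine Lqq_rep hR hA he hab hy hz _ fun hn => ?_
    have h1 : ((List.range l).reverse.map κ).toFinset ⊆ Finset.range m := by
      intro k hk
      rw [List.mem_toFinset, hmem] at hk
      obtain ⟨j, hj, rfl⟩ := hk
      exact Finset.mem_range.2 (h j hj)
    have h2 := Finset.card_le_card h1
    rw [hcard l hn, Finset.card_range] at h2
    omega
  · rw [Lqq_wp]
    by_cases hn : ((List.range m).reverse.map κ).Nodup
    · have h1 : ((List.range m).reverse.map κ).toFinset ⊆ Finset.range m := by
        intro k hk
        rw [List.mem_toFinset, hmem] at hk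
        obtain ⟨j, hj, rfl⟩ := hk
        exact Finset.mem_range.2 (h j hj)
      have h2 : ((List.range m).reverse.map κ).toFinset = Finset.range m := by
        apply Finset.eq_of_subset_of_card_le h1
        rw [hcard m hn, Finset.card_range]
      refine Lqq_per hA he hab hy hz φ _ (List.range m).reverse hn
        (List.nodup_reverse.2 List.nodup_range) ?_ ?_
      · rw [h2, hran]
      · rwa [← hid]
    · rw [Lqq_rep hR hA he hab hy hz _ hn, map_zero]
  · rw [Lqq_wp]
    by_cases hn : ((List.range l).reverse.map κ).Nodup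
    · have h1 : ((List.range l).reverse.map κ).toFinset ⊆ Finset.range (m + 1) := by
        intro k hk
        rw [List.mem_toFinset, hmem] at hk
        obtain ⟨j, hj, rfl⟩ := hk
        exact Finset.mem_range.2 (Nat.lt_succ_of_le (h j hj))
      have h3 := Finset.card_le_card h1
      rw [hcard l hn, Finset.card_range] at h3
      have h4 : l = m + 1 := by omega
      subst h4
      have h2 : ((List.range (m + 1)).reverse.map κ).toFinset = Finset.range (m + 1) := by
        apply Finset.eq_of_subset_of_card_le h1
        rw [hcard _ hn, Finset.card_range]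
      refine Lqq_per hA he hab hy hz φ _ (List.range (m + 1)).reverse hn
        (List.nodup_reverse.2 List.nodup_range) ?_ ?_
      · rw [h2, hran]
      · rw [← hid]
        exact h0
    · rw [Lqq_rep hR hA he hab hy hz _ hn, map_zero]
  · rw [Lqq_wp]
    by_cases hn : ((List.range m).reverse.map κ).Nodup
    · have h1 : ((List.range m).reverse.map κ).toFinset ⊆ Finset.range (m + 1) := by
        intro k hk
        rw [List.mem_toFinset, hmem] at hk
        obtain ⟨j, hj, rfl⟩ := hk
        exact Finset.mem_range.2 (Nat.lt_succ_of_le (h j hj))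
      obtain ⟨k, hk1, hk2⟩ : ∃ k ∈ Finset.range (m + 1),
          k ∉ ((List.range m).reverse.map κ).toFinset := by
        by_contra hc
        push Not at hc
        have h3 := Finset.card_le_card (show Finset.range (m + 1) ⊆ _ from hc)
        rw [hcard m hn, Finset.card_range] at h3
        omega
      have hkm : k ≠ m := by
        rintro rfl
        apply hk2
        rw [List.mem_toFinset, hmem]
        exact hm
      have hk3 : k < m := by
        have := Finset.mem_range.1 hk1
        omega
      have h2 : ((List.range m).reverse.map κ).toFinset = (Finset.range (m + 1)).erase k := by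
        apply Finset.eq_of_subset_of_card_le
        · intro j hj
          rw [Finset.mem_erase]
          refine ⟨?_, h1 hj⟩
          rintro rfl
          exact hk2 hj
        · rw [hcard m hn, Finset.card_erase_of_mem hk1, Finset.card_range]
          omega
      have hn' : ((List.range m).reverse.map fun j => if j = k then m else j).Nodup := by
        refine List.Nodup.map_on ?_ (List.nodup_reverse.2 List.nodup_range)
        intro i hi j hj hij
        rw [List.mem_reverse, List.mem_range] at hi hj
        split_ifs at hij <;> omega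
      refine Lqq_per hA he hab hy hz φ _ _ hn hn' ?_ ?_
      · rw [h2]
        ext j
        rw [Finset.mem_erase, Finset.mem_range, List.mem_toFinset, List.mem_map]
        constructor
        · rintro ⟨hjk, hj⟩
          by_cases hjm : j = m
          · exact ⟨k, by simpa using hk3, by rw [if_pos rfl, hjm]⟩
          · exact ⟨j, by
              rw [List.mem_reverse, List.mem_range]
              omega, by rw [if_neg hjk]⟩
        · rintro ⟨i, hi, rfl⟩
          rw [List.mem_reverse, List.mem_range] at hi
          split_ifs with h5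
          · omega
          · exact ⟨h5, by omega⟩
      · rw [← Lqq_wp]
        have h6 : pll (fun j => y (if j = k then m else j)) z m =
            pll (Function.update y k (y m)) z m := by
          refine ald_pll_congr m fun j _ => ?_
          by_cases h7 : j = k
          · subst h7
            rw [Function.update_self, if_pos rfl]
          · rw [Function.update_of_ne h7, if_neg h7]
        rw [h6]
        exact h0 k hk3
    · rw [Lqq_rep hR hA he hab hy hz _ hn, map_zero]

end

section

variable {R : Type} [NonUnitalRing R] [Finite R] {n p s : ℕ} {t : Fin s → R} {H : AddSubgroup R}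
  {α β : Option (Fin s)} {m : ℕ} {a : ℕ → R} {x y : R}

/-- the extra letter -/
theorem Lqq_u (hWst : St_Wst) (hcy : Cy R n p) (hfr : Frame R n s t) (α : Option (Fin s)) :
    ∃ u, Jc (fun i => om n (t i)) α α u ∧ ∀ i, α = some i → u = p • om n (t i) := by
  rcases α with _ | i
  · exact ⟨0, Dop_jc_zero, fun i hi => absurd hi (by simp)⟩
  · have h := (hWst n p R hcy s t hfr).2.2.2 i
    refine ⟨p • om n (t i), ⟨h.pc, h.nl⟩, ?_⟩
    rintro j hj
    rw [Option.some.inj hj]

omit [Finite R] in
/-- the indices of the letters -/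
theorem Lqq_idx {u : R} (hu : ∀ i, α = some i → u = p • om n (t i)) (l : ℕ) {c : ℕ → R}
    (hc : ∀ j, j < l → c j ∈ Cs n p t α m a) : ∃ κ : ℕ → ℕ, ∀ j, j < l → κ j ≤ m ∧
      c j = (if κ j < m then a (κ j) else u) ∧
      ((∃ i, α = some i ∧ c j = p • om n (t i)) → κ j = m) ∧
      (κ j = m → ∃ i, α = some i ∧ c j = p • om n (t i)) := by
  have h : ∀ j, ∃ k, j < l → k ≤ m ∧ c j = (if k < m then a k else u) ∧
      ((∃ i, α = some i ∧ c j = p • om n (t i)) → k = m) ∧
      (k = m → ∃ i, α = some i ∧ c j = p • om n (t i)) := by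
    intro j
    by_cases hj : j < l
    · by_cases hi : ∃ i, α = some i ∧ c j = p • om n (t i)
      · obtain ⟨i, hi, h1⟩ := hi
        exact ⟨m, fun _ => ⟨le_refl m, by rw [if_neg (lt_irrefl m), hu i hi]; exact h1,
          fun _ => rfl, fun _ => ⟨i, hi, h1⟩⟩⟩
      · rcases hc j hj with ⟨k, hk, h1⟩ | h1
        · exact ⟨k, fun _ => ⟨hk.le, by rw [if_pos hk]; exact h1, fun h2 => absurd h2 hi,
            fun h2 => absurd h2 (by omega)⟩⟩
        · exact absurd h1 hi
    · exact ⟨0, fun h => absurd h hj⟩
  choose κ hκ using h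
  exact ⟨κ, hκ⟩

/-- the letters are loops which commute with `t` -/
theorem Lqq_letter (hWst : St_Wst) (hcy : Cy R n p) (hfr : Frame R n s t)
    (hlo : ∀ k, k < m → Lop n t α (a k)) {c : R} (hc : c ∈ Cs n p t α m a) : Lop n t α c := by
  rcases hc with ⟨k, hk, rfl⟩ | ⟨i, hi, rfl⟩
  · exact hlo k hk
  · subst hi
    exact (hWst n p R hcy s t hfr).2.2.2 i

omit [Finite R] in
/-- the operators can be moved before the loops -/
theorem Lqq_move {D D' : AddMonoid.End R} (hD : D ∈ Ops t α none) (hD' : D' ∈ Ops t none α)
    (l : ℕ) {c : ℕ → R} (hc : ∀ j, j < l → Lop n t α (c j)) :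
    pll c (D x * D' y) l = D (D' (pll c (x * y) l)) := by
  rw [← Ops_left D hD, ← Ops_right D' hD']
  induction l with
  | zero => rfl
  | succ l ih =>
    change c l * pll c (D (D' (x * y))) l = D (D' (c l * pll c (x * y) l))
    rw [ih fun j hj => hc j (by omega), Ops_right D' hD', Ops_cen (c l) (hc l (by omega)).cen D hD]

end

/-- **LQQ** -/
theorem thm_Lqq (hAlp : St_Alp) (hRul : St_Rul) (hWst : St_Wst) : St_Lqq := by
  intro n p s R _ _ t H α β m a x y hT
  have he := Dop_hm hT.cy hT.cx.fr
  have hx : Jc (fun i => om n (t i)) α β x := ⟨hT.ax.pc, hT.ax.nl⟩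
  have hy : Jc (fun i => om n (t i)) β α y := ⟨hT.ay.pc, hT.ay.nl⟩
  obtain ⟨u, hu, hu2⟩ := Lqq_u (p := p) hWst hT.cy hT.cx.fr α
  have hY : ∀ k, Jc (fun i => om n (t i)) α α (if k < m then a k else u) := by
    intro k
    split_ifs with h
    · exact ⟨(hT.lo k h).pc, (hT.lo k h).nl⟩
    · exact hu
  rcases hβ : β with _ | j
  · -- the operators are left and right multiplications
    subst hβ
    obtain ⟨i, hi⟩ : ∃ i, α = some i := by
      rcases α with _ | i
      · exact absurd rfl hT.ab
      · exact ⟨i, rfl⟩
    have hmove : ∀ D ∈ Ops t α none, ∀ D' ∈ Ops t none α, ∀ (l : ℕ) (c : ℕ → R),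
        (∀ j, j < l → c j ∈ Cs n p t α m a) →
        pll c (D x * D' y) l = D (D' (pll c (x * y) l)) := fun D hD D' hD' l c hc =>
      Lqq_move hD hD' l fun j hj => Lqq_letter hWst hT.cy hT.cx.fr hT.lo (hc j hj)
    -- `p^2` annihilates
    have hpe : ∀ w, Jc (fun i => om n (t i)) α none w → (p • om n (t i)) * w = p • w := by
      intro w hw
      have := hw.1.1 i
      rw [if_pos hi] at this
      rw [smul_mul_assoc, this]
    have hpp : ∀ w, Jc (fun i => om n (t i)) α none w → p • (p • w) = 0 := by
      intro w hw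
      have h1 := ((hRul R s _ he α none hT.ab).1 u u w hu hu hw).2
      rw [mul_assoc, hu2 i hi, hpe w hw, mul_smul_comm, hpe w hw] at h1
      exact h1
    have hpl : ∀ l c, (∀ j, j < l → c j ∈ Cs n p t α m a) →
        Jc (fun i => om n (t i)) α none (pll c x l) := fun l c hc =>
      Tvn_pll he hx l fun j hj => by
        have := Lqq_letter hWst hT.cy hT.cx.fr hT.lo (hc j hj)
        exact ⟨this.pc, this.nl⟩
    have hpp2 : ∀ l c, p • (p • pll c (x * y) l) = 0 := by
      intro l c
      rw [← Lqq_smul, ← Lqq_smul, ← smul_mul_assoc, ← smul_mul_assoc, hpp x hx, zero_mul]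
      exact ald_pll_zero c l
    have hYa : pll (fun k => if k < m then a k else u) x m = pll a x m :=
      ald_pll_congr m fun j hj => if_pos hj
    have hP1 : Jc (fun i => om n (t i)) α none (pll a x m) :=
      hpl m a fun j hj => Or.inl ⟨j, hj, rfl⟩
    have huP : u * pll a x m = p • pll a x m := by rw [hu2 i hi, hpe _ hP1]
    have hYm : (if m < m then a m else u) = u := if_neg (lt_irrefl m)
    by_cases hp : p • pll a (x * y) m = 0
    · -- `q = 1`
      have hcd : ∀ k, k < m → pll (Function.update a k (p • om n (t i))) (x * y) m = 0 := by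
        rcases hT.cd i hi with h | h
        · exact absurd hp h
        · exact h
      have hgt : ∀ (l : ℕ) (c : ℕ → R), (∀ j, j < l → c j ∈ Cs n p t α m a) → m < l →
          pll c (x * y) l = 0 := by
        intro l c hc hl
        obtain ⟨κ, hκ⟩ := Lqq_idx hu2 l hc
        have h1 := (Lqq_core hRul hAlp he hT.ab hY hx m (AddMonoidHom.mulRight y) κ).2.2.1 l hl
          (fun j hj => (hκ j hj).1) (by
            rw [hYa, hYm, huP]
            change p • pll a x m * y = 0
            rw [smul_mul_assoc, ← Lqq_mulr, hp])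
        rw [Lqq_mulr, ald_pll_congr l fun j hj => (hκ j hj).2.1]
        exact h1
      have hpe' : ∀ c : ℕ → R, (∀ j, j < m → c j ∈ Cs n p t α m a) →
          (∃ j, j < m ∧ ∃ i, α = some i ∧ c j = p • om n (t i)) → pll c (x * y) m = 0 := by
        intro c hc hex
        obtain ⟨κ, hκ⟩ := Lqq_idx hu2 m hc
        obtain ⟨j, hj, hj2⟩ := hex
        have h1 := (Lqq_core hRul hAlp he hT.ab hY hx m (AddMonoidHom.mulRight y) κ).2.2.2
          (fun j hj => (hκ j hj).1) ⟨j, hj, (hκ j hj).2.2.1 hj2⟩ (by
            intro k hk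
            have h2 : pll (Function.update (fun k => if k < m then a k else u) k
                (if m < m then a m else u)) x m =
                pll (Function.update a k (p • om n (t i))) x m := by
              refine ald_pll_congr m fun j hj => ?_
              by_cases h3 : j = k
              · subst h3
                rw [Function.update_self, Function.update_self, if_neg (lt_irrefl m), hu2 i hi]
              · rw [Function.update_of_ne h3, Function.update_of_ne h3, if_pos hj]
            rw [h2]
            change pll (Function.update a k (p • om n (t i))) x m * y = 0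
            rw [← Lqq_mulr]
            exact hcd k hk)
        rw [Lqq_mulr, ald_pll_congr m fun j hj => (hκ j hj).2.1]
        exact h1
      have hpz : ∀ c : ℕ → R, (∀ j, j < m → c j ∈ Cs n p t α m a) →
          p • pll c (x * y) m = 0 := by
        intro c hc
        by_cases hex : ∃ j, j < m ∧ ∃ i, α = some i ∧ c j = p • om n (t i)
        · rw [hpe' c hc hex, smul_zero]
        · obtain ⟨κ, hκ⟩ := Lqq_idx hu2 m hc
          have h1 := (Lqq_core hRul hAlp he hT.ab hY hx m (p • AddMonoidHom.mulRight y) κ).2.1
            (fun j hj => lt_of_le_of_ne (hκ j hj).1 fun h =>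
              hex ⟨j, hj, (hκ j hj).2.2.2 h⟩) (by
              rw [hYa]
              change p • (pll a x m * y) = 0
              rw [← Lqq_mulr, hp])
          rw [Lqq_mulr, ald_pll_congr m fun j hj => (hκ j hj).2.1]
          exact h1
      refine ⟨1, ⟨?_, ?_, ?_, ?_⟩⟩
      · rw [one_smul]
        exact hT.ne
      · intro D hD D' hD' c hc
        rw [one_smul, hmove D hD D' hD' m c hc, ← map_nsmul, ← map_nsmul, hpz c hc, map_zero,
          map_zero]
      · intro D hD D' hD' l c hc hl
        rw [one_smul, hmove D hD D' hD' l c hc, hgt l c hc hl, map_zero, map_zero]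
      · intro D hD D' hD' c hc hex
        rw [one_smul, hmove D hD D' hD' m c hc, hpe' c hc hex, map_zero, map_zero]
    · -- `q = p`
      refine ⟨p, ⟨hp, ?_, ?_, ?_⟩⟩
      · intro D hD D' hD' c hc
        rw [hmove D hD D' hD' m c hc, ← map_nsmul, ← map_nsmul, ← map_nsmul, ← map_nsmul,
          hpp2 m c, map_zero, map_zero]
      · intro D hD D' hD' l c hc hl
        obtain ⟨κ, hκ⟩ := Lqq_idx hu2 l hc
        have h1 := (Lqq_core hRul hAlp he hT.ab hY hx m (p • AddMonoidHom.mulRight y) κ).2.2.1 l
          hl (fun j hj => (hκ j hj).1) (by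
            rw [hYa, hYm, huP]
            change p • (p • pll a x m * y) = 0
            rw [smul_mul_assoc, ← Lqq_mulr, hpp2])
        have h2 : p • pll c (x * y) l = 0 := by
          rw [Lqq_mulr, ald_pll_congr l fun j hj => (hκ j hj).2.1]
          exact h1
        rw [hmove D hD D' hD' l c hc, ← map_nsmul, ← map_nsmul, h2, map_zero, map_zero]
      · intro D hD D' hD' c hc hex
        obtain ⟨j, hj, k, -, hk⟩ := hex
        have h2 : p • pll c (x * y) m = 0 := by
          rw [Lqq_out c (x * y) j m p hj _ hk, hpp2]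
        rw [hmove D hD D' hD' m c hc, ← map_nsmul, ← map_nsmul, h2, map_zero, map_zero]
  · -- `p` annihilates the products
    subst hβ
    have hp0 : ∀ X Y, Jc (fun i => om n (t i)) α (some j) X →
        Jc (fun i => om n (t i)) (some j) α Y →
        p • (X * Y) = 0 := by
      intro X Y hX hY'
      have h1 := ((hRul R s _ he α (some j) hT.ab).2.2.2.1 0 (p • om n (t j)) X Y Dop_jc_zero (by
        have h := (hWst n p R hT.cy s t hT.cx.fr).2.2.2 j
        exact ⟨h.pc, h.nl⟩) hX hY').2
      have h2 := hX.1.2 j
      rw [if_pos rfl] at h2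
      rwa [mul_smul_comm, h2, smul_mul_assoc] at h1
    have hp1 : ∀ D ∈ Ops t α (some j), ∀ D' ∈ Ops t (some j) α, ∀ l c,
        p • pll c (D x * D' y) l = 0 := by
      intro D hD D' hD' l c
      rw [← Lqq_smul, hp0 _ _ (Dop_jc hT.cy hT.cx.fr hD hx) (Dop_jc hT.cy hT.cx.fr hD' hy)]
      exact ald_pll_zero c l
    refine ⟨1, ⟨?_, ?_, ?_, ?_⟩⟩
    · rw [one_smul]
      exact hT.ne
    · intro D hD D' hD' c hc
      rw [one_smul, hp1 D hD D' hD']
    · intro D hD D' hD' l c hc hl
      rw [one_smul]
      by_cases hex : ∃ j, j < l ∧ ∃ i, α = some i ∧ c j = p • om n (t i)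
      · obtain ⟨j, hj, k, -, hk⟩ := hex
        rw [Lqq_out c _ j l p hj _ hk, hp1 D hD D' hD']
      · obtain ⟨κ, hκ⟩ := Lqq_idx hu2 l hc
        have h1 := (Lqq_core hRul hAlp he hT.ab hY (Dop_jc hT.cy hT.cx.fr hD hx) m
          (AddMonoidHom.id R) κ).1 l hl (fun j hj => lt_of_le_of_ne (hκ j hj).1 fun h =>
              hex ⟨j, hj, (hκ j hj).2.2.2 h⟩)
        rw [Lqq_mulr, ald_pll_congr l fun j hj => (hκ j hj).2.1, h1, zero_mul]
    · intro D hD D' hD' c hc hex
      obtain ⟨j, hj, k, -, hk⟩ := hex
      rw [one_smul, Lqq_out c _ j m p hj _ hk, hp1 D hD D' hD']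

end Pool.Agent.CRM
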