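import Pool.Agent.CRM.Stc
import Pool.Agent.CRM.DopA
import Pool.Agent.CRN.Pca

/-!
Campaign CRM, module Lva.
-/

set_option autoImplicit false

namespace Pool.Agent.CRM

open Pool.Agent.CRR Pool.Agent.CRN Pool.Agent.CRK Pool.Agent.CRL

section

variable {R : Type} [NonUnitalRing R]

theorem Lva_zero (c : ℕ → R) (m : ℕ) : pll c 0 m = 0 := by
  induction m with
  | zero => rfl
  | succ m ih =>
    show c m * pll c 0 m = 0
    rw [ih, mul_zero]

theorem Lva_neg (c : ℕ → R) (z : R) (m : ℕ) : pll c (-z) m = -pll c z m := by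
  induction m with
  | zero => rfl
  | succ m ih =>
    show c m * pll c (-z) m = -(c m * pll c z m)
    rw [ih, mul_neg]

theorem Lva_mul (c : ℕ → R) (z y : R) (m : ℕ) : pll c (z * y) m = pll c z m * y := by
  induction m with
  | zero => rfl
  | succ m ih =>
    show c m * pll c (z * y) m = c m * pll c z m * y
    rw [ih, mul_assoc]

theorem Lva_congr {c c' : ℕ → R} (z : R) (m : ℕ) (h : ∀ j, j < m → c j = c' j) :
    pll c z m = pll c' z m := by
  induction m with
  | zero => rfl
  | succ m ih =>
    show c m * pll c z m = c' m * pll c' z m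
    rw [ih fun j hj => h j (by omega), h m (by omega)]

theorem Lva_add (c : ℕ → R) (z : R) (k l : ℕ) :
    pll c z (k + l) = pll (fun j => c (j + k)) (pll c z k) l := by
  induction l with
  | zero => rfl
  | succ l ih =>
    show c (k + l) * pll c z (k + l) = c (l + k) * pll (fun j => c (j + k)) (pll c z k) l
    rw [ih, Nat.add_comm k l]

/-- a new first factor -/
def Lva_cons (u : R) (c : ℕ → R) : ℕ → R := fun j => match j with
  | 0 => u
  | k + 1 => c k

theorem Lva_first (c : ℕ → R) (u z : R) (m : ℕ) :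
    pll (Lva_cons u c) z (m + 1) = pll c (u * z) m := by
  rw [Nat.add_comm, Lva_add]
  rfl

/-- a new last factor -/
theorem Lva_last (c : ℕ → R) (u z : R) (m : ℕ) :
    pll (fun j => if j < m then c j else u) z (m + 1) = u * pll c z m := by
  show (if m < m then c m else u) * pll (fun j => if j < m then c j else u) z m = _
  rw [if_neg (lt_irrefl m)]
  congr 1
  exact Lva_congr z m fun j hj => if_pos hj

variable {s : ℕ} {e : Fin s → R}

theorem Lva_jc {α β : Option (Fin s)} (he : Hm e) {c : ℕ → R} {z : R} (m : ℕ)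
    (hc : ∀ j, j < m → Jc e α α (c j)) (hz : Jc e α β z) : Jc e α β (pll c z m) := by
  induction m with
  | zero => exact hz
  | succ m ih =>
    have h1 := ih fun j hj => hc j (by omega)
    have h2 := hc m (by omega)
    refine ⟨⟨fun i => ?_, fun j => ?_⟩, (he.mul (c m) _ h1.2).1⟩
    · show e i * (c m * pll c z m) = _
      rw [← mul_assoc, h2.1.1 i]
      split_ifs
      · rfl
      · rw [zero_mul]
    · show c m * pll c z m * e j = _
      rw [mul_assoc, h1.1.2 j]
      split_ifs
      · rfl
      · rw [mul_zero]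

theorem Lva_smul {α β : Option (Fin s)} {z : R} (q : ℕ) (hz : Pc e α β z) :
    Pc e α β (q • z) := by
  refine ⟨fun i => ?_, fun j => ?_⟩
  · rw [mul_smul_comm, hz.1 i]
    split_ifs
    · rfl
    · rw [smul_zero]
  · rw [smul_mul_assoc, hz.2 j]
    split_ifs
    · rfl
    · rw [smul_zero]

end

theorem thm_Lva (hSpl : St_Spl) (hLex : St_Lex) (hSoc : St_Soc) (hRul : St_Rul) : St_Lva := by
  intro n p s R _ _ t H α β m a x y hL q hq c x' y' hc hx hy
  have he : Hm (fun i => om n (t i)) := Dop_hm hL.cy hL.cx.fr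
  obtain ⟨hS0, -, -, -, -, hS5, -⟩ := hSpl n p s R t H α β m a x y hL
  have hlex := hLex n p s R t H α β m a x y hL q hq
  have hR4 := (hRul R s _ he α β hL.ab).2.2.2.1
  have hz0 : ∀ γ δ : Option (Fin s), Jc (fun i => om n (t i)) γ δ (0 : R) := fun γ δ => Dop_jc_zero
  have hswap : ∀ u x₁ y₁ : R, Jc (fun i => om n (t i)) α α u →
      Jc (fun i => om n (t i)) α β x₁ → Jc (fun i => om n (t i)) β α y₁ →
      u * x₁ * y₁ = -(x₁ * y₁ * u) := fun u x₁ y₁ hu hx₁ hy₁ => (hR4 u 0 x₁ y₁ hu (hz0 _ _) hx₁ hy₁).1
  have hmid : ∀ b x₁ y₁ : R, Jc (fun i => om n (t i)) β β b →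
      Jc (fun i => om n (t i)) α β x₁ → Jc (fun i => om n (t i)) β α y₁ →
      x₁ * b * y₁ = 0 := fun b x₁ y₁ hb hx₁ hy₁ => (hR4 0 b x₁ y₁ (hz0 _ _) hb hx₁ hy₁).2
  -- an additional first factor gives zero
  have hfirst : ∀ (c₁ : ℕ → R) (u x₁ y₁ : R), (∀ j, j < m → Jc (fun i => om n (t i)) α α (c₁ j)) →
      Jc (fun i => om n (t i)) α α u → Jc (fun i => om n (t i)) α β x₁ →
      Jc (fun i => om n (t i)) β α y₁ → q • pll c₁ (u * (x₁ * y₁)) m = 0 := by
    intro c₁ u x₁ y₁ hc₁ hu hx₁ hy₁
    rw [← Lva_first]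
    refine (hlex (Lva_cons u c₁) x₁ y₁ hx₁ hy₁).1 (m + 1) (by omega) fun j hj => ?_
    cases j with
    | zero => exact hu
    | succ j => exact hc₁ j (by omega)
  have hP : Jc (fun i => om n (t i)) α β (pll c x' m) := Lva_jc he m hc hx
  have hvP : Pc (fun i => om n (t i)) α α (q • pll c (x' * y') m) := by
    refine Lva_smul q ?_
    rw [Lva_mul]
    refine ⟨fun i => ?_, fun j => ?_⟩
    · show om n (t i) * (pll c x' m * y') = _
      have h1 : om n (t i) * pll c x' m = if α = some i then pll c x' m else 0 := hP.1.1 i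
      rw [← mul_assoc, h1]
      split_ifs
      · rfl
      · rw [zero_mul]
    · show pll c x' m * y' * om n (t j) = _
      have h1 : y' * om n (t j) = if α = some j then y' else 0 := hy.1.2 j
      rw [mul_assoc, h1]
      split_ifs
      · rfl
      · rw [mul_zero]
  obtain ⟨hPca1, hPca2, -, -, -⟩ := CRN.thm_Pca R s (fun i => om n (t i)) he.idem he.orth
  refine ⟨?_, ?_, ?_, ?_⟩
  · refine hSoc n p R hL.cy H hL.cx.lst s t hL.cx.fr α α _ hvP ?_
      ((hlex c x' y' hx hy).2 hc).1
    intro u hu
    obtain ⟨J, hJ, hJ2⟩ := CRL.jil n hL.cy.n4 R hL.cy.inM hL.cy.nt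
    obtain ⟨d, hd1, hd2, hd3, -⟩ := hPca2 u
    have hdn : ∀ γ δ, Jc (fun i => om n (t i)) γ δ (d γ δ) := fun γ δ =>
      ⟨hd1 γ δ, (hJ2 _).1 (hd3 J hJ ((hJ2 u).2 hu) γ δ)⟩
    constructor
    · rw [← hd2, Finset.sum_mul]
      refine Finset.sum_eq_zero fun γ _ => ?_
      rw [Finset.sum_mul]
      refine Finset.sum_eq_zero fun δ _ => ?_
      by_cases h1 : δ = α
      · subst h1
        by_cases h2 : γ = δ
        · subst h2
          rw [mul_smul_comm, ← Lva_last]
          refine (hlex _ x' y' hx hy).1 (m + 1) (by omega) fun j hj => ?_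
          by_cases hjm : j < m
          · simp only [hjm, if_true]
            exact hc j hjm
          · simp only [hjm, if_false]
            exact hdn _ _
        · by_cases h3 : γ = β
          · subst h3
            rw [mul_smul_comm, Lva_mul, ← mul_assoc, hS0 _ _ (hd1 _ _) hP.1, zero_mul, smul_zero]
          · have h4 : d γ δ = 0 := hS5 γ δ _ h2 (fun h => hL.ab h.2)
              (fun h => h3 h.1) (hd1 _ _)
            rw [h4, zero_mul]
      · exact (hPca1 _ _ _ _ _ _ (hd1 γ δ) hvP).2 h1
    · rw [← hd2, Finset.mul_sum]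
      refine Finset.sum_eq_zero fun γ _ => ?_
      rw [Finset.mul_sum]
      refine Finset.sum_eq_zero fun δ _ => ?_
      by_cases h1 : α = γ
      · subst h1
        by_cases h2 : α = δ
        · subst h2
          rw [smul_mul_assoc, ← Lva_mul]
          have h3 : x' * y' * d α α = -(d α α * (x' * y')) := by
            rw [← mul_assoc, hswap _ _ _ (hdn α α) hx hy, neg_neg]
          rw [h3, Lva_neg, smul_neg, hfirst c _ x' y' hc (hdn α α) hx hy, neg_zero]
        · by_cases h3 : δ = β
          · subst h3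
            rw [smul_mul_assoc, Lva_mul, mul_assoc, hS0 _ _ hy.1 (hd1 _ _), mul_zero, smul_zero]
          · have h4 : d α δ = 0 := hS5 α δ _ h2 (fun h => h3 h.2)
              (fun h => hL.ab h.1) (hd1 _ _)
            rw [h4, mul_zero]
      · exact (hPca1 _ _ _ _ _ _ hvP (hd1 γ δ)).2 h1
  · intro k hk u w huw hck
    obtain ⟨l, rfl⟩ : ∃ l, m = k + 1 + l := ⟨m - (k + 1), by omega⟩
    rcases huw with ⟨hu, hw⟩ | ⟨hu, hw⟩
    · -- an additional factor
      obtain ⟨c', hc'⟩ : ∃ c' : ℕ → R, c' = fun j => if j < k then c j else if j = k then w else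
        if j = k + 1 then u else c (j - 1) := ⟨_, rfl⟩
      have h1 : pll c' (x' * y') (k + 1 + l + 1) = pll c (x' * y') (k + 1 + l) := by
        have e1 : k + 1 + l + 1 = k + 2 + l := by omega
        rw [e1, Lva_add c' _ (k + 2) l, Lva_add c _ (k + 1) l]
        have h2 : pll c' (x' * y') (k + 2) = pll c (x' * y') (k + 1) := by
          show c' (k + 1) * (c' k * pll c' (x' * y') k) = c k * pll c (x' * y') k
          have h3 : c' (k + 1) = u := by
            rw [hc']
            simp
          have h4 : c' k = w := by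
            rw [hc']
            simp
          have h5 : pll c' (x' * y') k = pll c (x' * y') k :=
            Lva_congr _ k fun j hj => by
              rw [hc']
              simp [hj]
          rw [h3, h4, h5, hck, mul_assoc]
        rw [h2]
        refine Lva_congr _ l fun j hj => ?_
        rw [hc']
        show (if j + (k + 2) < k then c (j + (k + 2)) else if j + (k + 2) = k then w else
          if j + (k + 2) = k + 1 then u else c (j + (k + 2) - 1)) = c (j + (k + 1))
        rw [if_neg (by omega), if_neg (by omega), if_neg (by omega)]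
        congr 1
      rw [← h1]
      refine (hlex c' x' y' hx hy).1 (k + 1 + l + 1) (by omega) fun j hj => ?_
      rw [hc']
      show Jc (fun i => om n (t i)) α α (if j < k then c j else if j = k then w else
        if j = k + 1 then u else c (j - 1))
      split_ifs with g1 g2 g3
      · exact hc j (by omega)
      · exact hw
      · exact hu
      · exact hc (j - 1) (by omega)
    · -- the product is zero
      have h1 : Jc (fun i => om n (t i)) α β (pll c x' k) :=
        Lva_jc he k (fun j hj => hc j (by omega)) hx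
      have h2 : pll c (x' * y') (k + 1) = 0 := by
        show c k * pll c (x' * y') k = 0
        rw [hck, Lva_mul, mul_assoc u w, ← mul_assoc w, hS0 _ _ hw.1 h1.1, zero_mul, mul_zero]
      rw [Lva_add c _ (k + 1) l, h2, Lva_zero, smul_zero]
  · intro u w huw hxu
    rcases huw with ⟨hu, hw⟩ | ⟨hu, hw⟩
    · rw [hxu, mul_assoc]
      exact hfirst c u w y' hc hu hw hy
    · rw [hxu, hmid w u y' hw hu hy, Lva_zero, smul_zero]
  · intro u w huw hyu
    rcases huw with ⟨hu, hw⟩ | ⟨hu, hw⟩
    · rw [hyu, ← mul_assoc, hmid u x' w hu hx hw, Lva_zero, smul_zero]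
    · have h1 : x' * y' = -(w * (x' * u)) := by
        rw [hyu, ← mul_assoc, ← mul_assoc w, hswap w x' u hw hx hu, neg_neg]
      rw [h1, Lva_neg, smul_neg, hfirst c w x' u hc hw hx hu, neg_zero]

end Pool.Agent.CRM
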