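import Pool.Agent.CRM.Stc
import Pool.Agent.CRM.Rul
import Pool.Agent.CRL.All

/-!
Campaign CRM, module Tva: the values of the path function of type `TyT`.
-/

set_option autoImplicit false

namespace Pool.Agent.CRM

open Pool.Agent.CRR Pool.Agent.CRN Pool.Agent.CRK Pool.Agent.CRL

section

variable {R : Type} [NonUnitalRing R]

theorem Tva_congr {y y' : ℕ → R} (z : R) : ∀ l : ℕ, (∀ j, j < l → y j = y' j) →
    pll y z l = pll y' z l := by
  intro l
  induction l with
  | zero => intro _; rfl
  | succ l ih =>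
    intro h
    change y l * pll y z l = y' l * pll y' z l
    rw [h l (Nat.lt_succ_self l), ih fun j hj => h j (Nat.lt_succ_of_lt hj)]

theorem Tva_pc {s : ℕ} {e : Fin s → R} {α β : Option (Fin s)} {y : ℕ → R} {z : R}
    (hz : Pc e α β z) : ∀ l : ℕ, (∀ j, j < l → Pc e α α (y j)) → Pc e α β (pll y z l) := by
  intro l
  induction l with
  | zero => intro _; exact hz
  | succ l ih =>
    intro h
    exact Rul_mul (h l (Nat.lt_succ_self l)) (ih fun j hj => h j (Nat.lt_succ_of_lt hj))

theorem Tva_smul {s : ℕ} {e : Fin s → R} {α β : Option (Fin s)} {x : R} (hx : Pc e α β x)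
    (q : ℕ) : Pc e α β (q • x) := by
  refine ⟨fun i => ?_, fun j => ?_⟩
  · rw [mul_smul_comm, hx.1 i]
    split_ifs <;> simp
  · rw [smul_mul_assoc, hx.2 j]
    split_ifs <;> simp

/-- put a new factor on the left -/
theorem Tva_top (y : ℕ → R) (z x : R) (m : ℕ) :
    x * pll y z m = pll (Function.update y m x) z (m + 1) := by
  change x * pll y z m = Function.update y m x m * pll (Function.update y m x) z m
  rw [Function.update_self, Tva_congr z m fun j hj => (Function.update_of_ne (ne_of_lt hj) _ _).symm]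

/-- put a new factor on the right -/
def TvaC (u : R) (y : ℕ → R) : ℕ → R
  | 0 => u
  | j + 1 => y j

theorem Tva_bot (y : ℕ → R) (u w : R) (l : ℕ) :
    pll y (u * w) l = pll (TvaC u y) w (l + 1) := by
  induction l with
  | zero => rfl
  | succ l ih =>
    change y l * pll y (u * w) l = TvaC u y (l + 1) * pll (TvaC u y) w (l + 1)
    rw [ih]
    rfl

/-- replace a factor by two factors -/
def TvaS (y : ℕ → R) (k : ℕ) (u w : R) (j : ℕ) : R :=
  if j < k then y j else if j = k then w else if j = k + 1 then u else y (j - 1)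

theorem Tva_mid (y : ℕ → R) (z u w : R) (k : ℕ) (h : y k = u * w) (l : ℕ) :
    pll y z (k + 1 + l) = pll (TvaS y k u w) z (k + 1 + l + 1) := by
  induction l with
  | zero =>
    have e1 : TvaS y k u w k = w := by simp [TvaS]
    have e2 : TvaS y k u w (k + 1) = u := by simp [TvaS]
    have e3 : pll (TvaS y k u w) z k = pll y z k :=
      Tva_congr z k fun j hj => by simp [TvaS, hj]
    change y k * pll y z k = TvaS y k u w (k + 1) * (TvaS y k u w k * pll (TvaS y k u w) z k)
    rw [e1, e2, e3, h, mul_assoc]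
  | succ l ih =>
    have e1 : TvaS y k u w (k + 1 + l + 1) = y (k + 1 + l) := by
      have h1 : ¬ k + 1 + l + 1 < k := by omega
      have h2 : ¬ k + 1 + l + 1 = k := by omega
      have h3 : ¬ k + 1 + l + 1 = k + 1 := by omega
      simp only [TvaS, if_neg h1, if_neg h2, if_neg h3, Nat.add_sub_cancel]
    change y (k + 1 + l) * pll y z (k + 1 + l) =
      TvaS y k u w (k + 1 + l + 1) * pll (TvaS y k u w) z (k + 1 + l + 1)
    rw [e1, ih]

theorem Tva_r (y : ℕ → R) (u w : R) (l : ℕ) : pll y (u * w) l = pll y u l * w := by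
  induction l with
  | zero => rfl
  | succ l ih =>
    change y l * pll y (u * w) l = y l * pll y u l * w
    rw [ih, mul_assoc]

end

theorem thm_Tva (hSpt : St_Spt) (hTex : St_Tex) (hSoc : St_Soc) : St_Tva := by
  intro n p s R _ _ t H α β m a z hT q hq y z' hy hz'
  obtain ⟨_, _, hS3, hS4, _⟩ := hSpt n p s R t H α β m a z hT
  have hX := hTex n p s R t H α β m a z hT q hq
  obtain ⟨J, hJ, hJn⟩ := CRL.jil n hT.cy.n4 R hT.cy.inM hT.cy.nt
  obtain ⟨hP, _, _⟩ := CRL.fpr n p R hT.cy s t hT.cx.fr
  have hcomp := (CRN.thm_Pca R s (fun i => om n (t i)) (fun i => (hP.prm i).1) hP.orth).2.1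
  have hpv : ∀ z'' : R, Jc (fun i => om n (t i)) α β z'' → p • (q • pll y z'' m) = 0 :=
    fun z'' hz'' => ((hX y z'' hz'').2 hy).1
  have hpc : Pc (fun i => om n (t i)) α β (q • pll y z' m) :=
    Tva_smul (Tva_pc hz'.1 m fun j hj => (hy j hj).1) q
  refine ⟨?_, ?_, ?_, ?_⟩
  · refine hSoc n p R hT.cy H hT.cx.lst s t hT.cx.fr α β _ hpc ?_ (hpv z' hz')
    intro x hx
    obtain ⟨c, hc, hsum, hI, _⟩ := hcomp x
    have hcn : ∀ γ δ, Nl (c γ δ) := fun γ δ => (hJn _).1 (hI J hJ ((hJn x).2 hx) γ δ)
    constructor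
    · rw [← hsum, Finset.sum_mul]
      refine Finset.sum_eq_zero fun γ _ => ?_
      rw [Finset.sum_mul]
      refine Finset.sum_eq_zero fun δ _ => ?_
      by_cases hδ : δ = α
      · subst hδ
        by_cases hγ : γ = δ
        · subst hγ
          rw [mul_smul_comm, Tva_top]
          refine (hX _ z' hz').1 (m + 1) (Nat.lt_succ_self m) fun j hj => ?_
          by_cases hjm : j = m
          · rw [hjm, Function.update_self]
            exact ⟨hc _ _, hcn _ _⟩
          · rw [Function.update_of_ne hjm]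
            exact hy j (by omega)
        · rw [hS4 γ δ (c γ δ) hγ (fun h => hγ h.1) (hc γ δ), zero_mul]
      · exact Rul_zero hδ (hc γ δ) hpc
    · rw [← hsum, Finset.mul_sum]
      refine Finset.sum_eq_zero fun γ _ => ?_
      rw [Finset.mul_sum]
      refine Finset.sum_eq_zero fun δ _ => ?_
      by_cases hγ : β = γ
      · subst hγ
        by_cases hδ : β = δ
        · subst hδ
          obtain ⟨w, _, hw⟩ := hS3 _ ⟨hc β β, hcn β β⟩
          rw [hw, mul_smul_comm, ← smul_mul_assoc, hpv z' hz', zero_mul]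
        · rw [hS4 β δ (c β δ) hδ (fun h => hT.ab h.1.symm) (hc β δ), mul_zero]
      · exact Rul_zero hγ hpc (hc γ δ)
  · intro k hk u w hu hw hyk
    obtain ⟨l, rfl⟩ : ∃ l, m = k + 1 + l := ⟨m - (k + 1), by omega⟩
    rw [Tva_mid y z' u w k hyk l]
    refine (hX _ z' hz').1 _ (Nat.lt_succ_self _) fun j hj => ?_
    by_cases h1 : j < k
    · simp only [TvaS, if_pos h1]
      exact hy j (by omega)
    · by_cases h2 : j = k
      · simp only [TvaS, if_neg h1, if_pos h2]
        exact hw
      · by_cases h3 : j = k + 1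
        · simp only [TvaS, if_neg h1, if_neg h2, if_pos h3]
          exact hu
        · simp only [TvaS, if_neg h1, if_neg h2, if_neg h3]
          exact hy _ (by omega)
  · intro u w hu hw hz
    rw [hz, Tva_bot]
    refine (hX _ w hw).1 _ (Nat.lt_succ_self _) fun j hj => ?_
    cases j with
    | zero => exact hu
    | succ j => exact hy j (by omega)
  · intro u w hu hw hz
    obtain ⟨w', _, hw'⟩ := hS3 w hw
    rw [hz, Tva_r, hw', mul_smul_comm, ← smul_mul_assoc, ← smul_mul_assoc, smul_comm, hpv u hu,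
      zero_mul]

end Pool.Agent.CRM
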