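import Pool.Agent.CRM.Stc
import Pool.Agent.CRM.Ops
import Pool.Agent.CRM.Opc
import Pool.Agent.CRM.Inv
import Pool.Agent.CRM.Rul
import Pool.Agent.CRM.Rut
import Pool.Agent.CRM.Nac
import Pool.Agent.CRM.Exg
import Pool.Agent.CRM.Tva
import Pool.Agent.CRL.All

/-!
Campaign CRM, module Lvn: subrings with a nonzero value of the path function of type `TyL`.
-/

set_option autoImplicit false

namespace Pool.Agent.CRM

open Pool.Agent.CRR Pool.Agent.CRN Pool.Agent.CRK Pool.Agent.CRL

section general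

variable {R : Type} [NonUnitalRing R] {s : ℕ} {e : Fin s → R}

theorem Lvn_hm {n p : ℕ} [Finite R] (hC : Cy R n p) {t : Fin s → R} (hF : Frame R n s t) :
    Hm (fun i => om n (t i)) := by
  obtain ⟨J, hJ, hJn⟩ := CRL.jil n hC.n4 R hC.inM hC.nt
  obtain ⟨hP, _, _⟩ := CRL.fpr n p R hC s t hF
  exact ⟨fun i => (hP.prm i).1, hP.orth,
    fun x y hx hy => (hJn _).1 (J.add_mem ((hJn x).2 hx) ((hJn y).2 hy)),
    fun r x hx => ⟨(hJn _).1 (hJ r x ((hJn x).2 hx)).1, (hJn _).1 (hJ r x ((hJn x).2 hx)).2⟩⟩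

theorem Lvn_nl0 : Nl (0 : R) := by simp [Nl]

theorem Lvn_nln {x : R} (h : Nl x) : Nl (-x) := by
  unfold Nl at h ⊢
  rw [neg_mul_neg, mul_neg, h, neg_zero]

theorem Lvn_jc {α β γ : Option (Fin s)} (he : Hm e) {a z : R} (ha : Jc e α β a)
    (hz : Jc e β γ z) : Jc e α γ (a * z) := ⟨Rut_mul ha.1 hz.1, (he.mul a z hz.2).1⟩

/-- The group `J_αβ`. -/
def LvnN (he : Hm e) (α β : Option (Fin s)) : AddSubgroup R where
  carrier := {x | Jc e α β x}
  zero_mem' := Rut_zero
  add_mem' := fun hx hy => Rut_add he hx hy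
  neg_mem' := fun hx => Rut_neg hx

theorem Lvn_mem {he : Hm e} {α β : Option (Fin s)} {x : R} :
    x ∈ LvnN he α β ↔ Jc e α β x := Iff.rfl

theorem Lvn_nsmul (he : Hm e) {α β : Option (Fin s)} {x : R} (hx : Jc e α β x) (k : ℕ) :
    Jc e α β (k • x) := (LvnN he α β).nsmul_mem hx k

theorem Lvn_J2 (he : Hm e) : Idl R (J2 R) := by
  intro r x hx
  unfold J2 at hx
  induction hx using AddSubgroup.closure_induction with
  | mem x hx =>
    obtain ⟨a, b, ha, hb, rfl⟩ := hx
    constructor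
    · exact AddSubgroup.subset_closure ⟨r * a, b, (he.mul r a ha).1, hb, (mul_assoc _ _ _).symm⟩
    · exact AddSubgroup.subset_closure ⟨a, b * r, ha, (he.mul r b hb).2, mul_assoc _ _ _⟩
  | zero =>
    rw [mul_zero, zero_mul]
    exact ⟨AddSubgroup.zero_mem _, AddSubgroup.zero_mem _⟩
  | add x y _ _ hx hy =>
    rw [mul_add, add_mul]
    exact ⟨AddSubgroup.add_mem _ hx.1 hy.1, AddSubgroup.add_mem _ hx.2 hy.2⟩
  | neg x _ hx =>
    rw [mul_neg, neg_mul]
    exact ⟨AddSubgroup.neg_mem _ hx.1, AddSubgroup.neg_mem _ hx.2⟩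

/-- Nil elements of `S` modulo products. -/
def LvnT (he : Hm e) (S : NonUnitalSubring R) : AddSubgroup R where
  carrier := {x | ∃ y ∈ S, Nl y ∧ x - y ∈ J2 R}
  zero_mem' := ⟨0, S.zero_mem, Lvn_nl0, by rw [sub_zero]; exact AddSubgroup.zero_mem _⟩
  add_mem' := by
    rintro a b ⟨y, hy, ny, h⟩ ⟨y', hy', ny', h'⟩
    refine ⟨y + y', S.add_mem hy hy', he.add _ _ ny ny', ?_⟩
    rw [add_sub_add_comm]
    exact AddSubgroup.add_mem _ h h'
  neg_mem' := by
    rintro a ⟨y, hy, ny, h⟩
    refine ⟨-y, S.neg_mem hy, Lvn_nln ny, ?_⟩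
    have : -a - -y = -(a - y) := by abel
    rw [this]
    exact AddSubgroup.neg_mem _ h

theorem Lvn_T {he : Hm e} {S : NonUnitalSubring R} {x : R} :
    x ∈ LvnT he S ↔ ∃ y ∈ S, Nl y ∧ x - y ∈ J2 R := Iff.rfl

theorem Lvn_TJ {he : Hm e} {S : NonUnitalSubring R} {x : R} (hx : x ∈ J2 R) :
    x ∈ LvnT he S := ⟨0, S.zero_mem, Lvn_nl0, by rwa [sub_zero]⟩

theorem Lvn_TS {he : Hm e} {S : NonUnitalSubring R} {x : R} (hx : x ∈ S) (nx : Nl x) :
    x ∈ LvnT he S := ⟨x, hx, nx, by rw [sub_self]; exact AddSubgroup.zero_mem _⟩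

/-- additivity of the product in one factor -/
theorem Lvn_add (v : ℕ → R) (z u w : R) (j : ℕ) : ∀ l, j < l →
    pll (Function.update v j (u + w)) z l = pll (Function.update v j u) z l +
      pll (Function.update v j w) z l := by
  intro l
  induction l with
  | zero => intro h; exact absurd h (Nat.not_lt_zero j)
  | succ l ih =>
    intro h
    change Function.update v j (u + w) l * pll (Function.update v j (u + w)) z l =
      Function.update v j u l * pll (Function.update v j u) z l +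
      Function.update v j w l * pll (Function.update v j w) z l
    by_cases hjl : j = l
    · subst hjl
      rw [Function.update_self, Function.update_self, Function.update_self]
      have e : ∀ a : R, pll (Function.update v j a) z j = pll v z j := fun a =>
        Tva_congr z j fun k hk => Function.update_of_ne (ne_of_lt hk) _ _
      rw [e, e, e, add_mul]
    · rw [Function.update_of_ne (Ne.symm hjl), Function.update_of_ne (Ne.symm hjl),
        Function.update_of_ne (Ne.symm hjl), ih (by omega), mul_add]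

theorem Lvn_zero (v : ℕ → R) (z : R) (j : ℕ) (l : ℕ) (h : j < l) :
    pll (Function.update v j 0) z l = 0 := by
  have h1 := Lvn_add v z 0 0 j l h
  rw [add_zero] at h1
  exact left_eq_add.1 h1

theorem Lvn_neg (v : ℕ → R) (z u : R) (j : ℕ) (l : ℕ) (h : j < l) :
    pll (Function.update v j (-u)) z l = -pll (Function.update v j u) z l := by
  have h1 := Lvn_add v z u (-u) j l h
  rw [add_neg_cancel, Lvn_zero v z j l h] at h1
  exact (neg_eq_of_add_eq_zero_right h1.symm).symm

theorem Lvn_ns (v : ℕ → R) (z u : R) (j : ℕ) (l : ℕ) (h : j < l) (k : ℕ) :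
    pll (Function.update v j (k • u)) z l = k • pll (Function.update v j u) z l := by
  induction k with
  | zero => rw [zero_smul, zero_smul, Lvn_zero v z j l h]
  | succ k ih => rw [succ_nsmul, succ_nsmul, Lvn_add v z _ _ j l h, ih]

theorem Lvn_jcp (he : Hm e) {α β : Option (Fin s)} {v : ℕ → R} {z : R} (hz : Jc e α β z) :
    ∀ l, (∀ j, j < l → Jc e α α (v j)) → Jc e α β (pll v z l) := by
  intro l
  induction l with
  | zero => intro _; exact hz
  | succ l ih =>
    intro h
    exact Lvn_jc he (h l (Nat.lt_succ_self l)) (ih fun j hj => h j (by omega))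

/-- The integral operators. -/
theorem Lvn_int (t : Fin s → R) : ∀ D ∈ Ops t none none, ∃ c : ℤ, ∀ x, D x = c • x := by
  refine Ops_ind _ ?_ ?_ ?_ ?_ ?_ ?_ ?_
  · intro i hi
    exact absurd hi (by simp)
  · intro i hi
    exact absurd hi (by simp)
  · exact ⟨0, fun x => by rw [zero_smul]; rfl⟩
  · exact ⟨1, fun x => by rw [one_smul]; rfl⟩
  · rintro E E' ⟨c, hc⟩ ⟨c', hc'⟩
    refine ⟨c + c', fun x => ?_⟩
    change E x + E' x = _
    rw [hc, hc', add_smul]
  · rintro E ⟨c, hc⟩
    refine ⟨-c, fun x => ?_⟩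
    change -(E x) = _
    rw [hc, neg_smul]
  · rintro E E' ⟨c, hc⟩ ⟨c', hc'⟩
    refine ⟨c * c', fun x => ?_⟩
    change E (E' x) = _
    rw [hc', hc, mul_smul]

/-- Operators and factors on the right which commute with `t_β`. -/
theorem Lvn_cen {t : Fin s → R} {α β : Option (Fin s)} (a : R)
    (ha : ∀ i, β = some i → t i * a = a * t i) :
    ∀ D ∈ Ops t α β, ∀ x, D (x * a) = D x * a := by
  refine Ops_ind _ ?_ ?_ ?_ ?_ ?_ ?_ ?_
  · intro i _ x
    exact (mul_assoc (t i) x a).symm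
  · intro i hi x
    change x * a * t i = x * t i * a
    rw [mul_assoc, ← ha i hi, mul_assoc]
  · intro x
    exact (zero_mul a).symm
  · intro x
    rfl
  · intro E E' h h' x
    change E (x * a) + E' (x * a) = (E x + E' x) * a
    rw [h, h', add_mul]
  · intro E h x
    change -(E (x * a)) = -(E x) * a
    rw [h, neg_mul]
  · intro E E' h h' x
    change E (E' (x * a)) = E (E' x) * a
    rw [h', h]

/-- alternation, first step -/
theorem Lvn_alt {n p : ℕ} [Finite R] (hC : Cy R n p) {t : Fin s → R} (hF : Frame R n s t)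
    {α β : Option (Fin s)} (hab : α ≠ β) {D₁ D₂ : AddMonoid.End R} (h1 : D₁ ∈ Ops t α α)
    (h2 : D₂ ∈ Ops t α α) {a z : R} (ha : Jc (fun i => om n (t i)) α α a)
    (hz : Jc (fun i => om n (t i)) α β z) {v : ℕ → R} {j : ℕ} (hj : v j = D₂ a) :
    ∀ l, j < l → (∀ k, k < l → Jc (fun i => om n (t i)) α α (v k)) →
      D₁ a * pll v z l = 0 := by
  have he := Lvn_hm hC hF
  have h4 := (thm_Rut thm_Rul n p R hC s t hF α β hab).2.2.2
  have r1 := (thm_Rul R s _ he α β hab).1
  intro l
  induction l with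
  | zero => intro h; exact absurd h (Nat.not_lt_zero j)
  | succ l ih =>
    intro h hv
    change D₁ a * (v l * pll v z l) = 0
    have hp : Jc (fun i => om n (t i)) α β (pll v z l) :=
      Lvn_jcp he hz l fun k hk => hv k (by omega)
    by_cases hjl : j = l
    · subst hjl
      rw [hj, ← mul_assoc]
      exact h4 a _ ha hp D₁ h1 D₂ h2
    · have hD1 : Jc (fun i => om n (t i)) α α (D₁ a) :=
        ⟨(thm_Opc n p R hC s t hF α α D₁ h1 a).1 ha.1, (thm_Opc n p R hC s t hF α α D₁ h1 a).2 ha.2⟩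
      rw [← mul_assoc, (r1 _ _ _ hD1 (hv l (Nat.lt_succ_self l)) hp).1, mul_assoc,
        ih (by omega) (fun k hk => hv k (by omega)), mul_zero, neg_zero]

theorem Lvn_halt {n p : ℕ} [Finite R] (hC : Cy R n p) {t : Fin s → R} (hF : Frame R n s t)
    {α β : Option (Fin s)} (hab : α ≠ β) {z : R} (hz : Jc (fun i => om n (t i)) α β z)
    {v : ℕ → R} {j j' m : ℕ} (hj : j < m) (hj' : j' < m) (hne : j ≠ j')
    (hv : ∀ k, k < m → Jc (fun i => om n (t i)) α α (v k)) {D : AddMonoid.End R}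
    (hD : D ∈ Ops t α none) (h : v j' = D (v j)) : pll v z m = 0 := by
  have hD' : D ∈ Ops t α α := Ops_le_left hD
  have h1 : (1 : AddMonoid.End R) ∈ Ops t α α := one_mem _
  have key : ∀ k, k < m → pll v z (k + 1) = 0 → pll v z m = 0 := by
    intro k hk h0
    obtain ⟨l, rfl⟩ : ∃ l, m = k + 1 + l := ⟨m - (k + 1), by omega⟩
    clear hj hj' hv hk
    induction l with
    | zero => exact h0
    | succ l ih =>
      change v (k + 1 + l) * pll v z (k + 1 + l) = 0
      rw [ih, mul_zero]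
  rcases Nat.lt_or_gt_of_ne hne with hlt | hlt
  · refine key j' hj' ?_
    change v j' * pll v z j' = 0
    rw [h]
    exact Lvn_alt hC hF hab hD' h1 (hv j hj) hz (j := j) rfl j' hlt fun k hk => hv k (by omega)
  · refine key j hj ?_
    change v j * pll v z j = 0
    exact Lvn_alt hC hF hab h1 hD' (hv j hj) hz (j := j') h j hlt fun k hk => hv k (by omega)

end general

section main

variable {R : Type} [NonUnitalRing R] [Finite R] {n p s : ℕ} {t : Fin s → R} {H : AddSubgroup R}
  {α β : Option (Fin s)} {m : ℕ} {a : ℕ → R} {x y : R}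

/-- The group of the products, the nil elements in the ring of the frame and the multiples of `p`. -/
def LvnG (n p : ℕ) {s : ℕ} (t : Fin s → R) (α β : Option (Fin s)) : AddSubgroup R :=
  AddSubgroup.closure ({w | ∃ u v, ((Jc (fun i => om n (t i)) α α u ∧
      Jc (fun i => om n (t i)) α α v) ∨ (Jc (fun i => om n (t i)) α β u ∧
      Jc (fun i => om n (t i)) β α v)) ∧ w = u * v} ∪
    {w | Jc (fun i => om n (t i)) α α w ∧ w ∈ NonUnitalSubring.closure (Set.range t)} ∪
    {w | ∃ u, Jc (fun i => om n (t i)) α α u ∧ w = p • u})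

theorem Lvn_G_le (he : Hm (fun i => om n (t i))) : LvnG n p t α β ≤ LvnN he α α := by
  refine (AddSubgroup.closure_le _).2 ?_
  rintro w ((⟨u, v, (⟨hu, hv⟩ | ⟨hu, hv⟩), rfl⟩ | ⟨hw, _⟩) | ⟨u, hu, rfl⟩)
  · exact Lvn_jc he hu hv
  · exact Lvn_jc he hu hv
  · exact hw
  · exact Lvn_nsmul he hu p

theorem Lvn_op (hC : Cy R n p) (hF : Frame R n s t) {γ δ : Option (Fin s)}
    {D : AddMonoid.End R} (hD : D ∈ Ops t γ δ) {w : R} (hw : Jc (fun i => om n (t i)) γ δ w) :
    Jc (fun i => om n (t i)) γ δ (D w) :=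
  ⟨(thm_Opc n p R hC s t hF γ δ D hD w).1 hw.1, (thm_Opc n p R hC s t hF γ δ D hD w).2 hw.2⟩

theorem Lvn_stab (hC : Cy R n p) (hF : Frame R n s t) (he : Hm (fun i => om n (t i)))
    (D : AddMonoid.End R) (hD : D ∈ Ops t α none) :
    (∀ w ∈ LvnN he α α, D w ∈ LvnN he α α) ∧ ∀ g ∈ LvnG n p t α β, D g ∈ LvnG n p t α β := by
  have h1 : ∀ w, Jc (fun i => om n (t i)) α α w → Jc (fun i => om n (t i)) α α (D w) :=
    fun w hw => Lvn_op hC hF (Ops_le_left hD) hw
  refine ⟨fun w hw => h1 w hw, fun g hg => ?_⟩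
  unfold LvnG at hg
  induction hg using AddSubgroup.closure_induction with
  | mem g hg =>
    rcases hg with (⟨u, v, h, rfl⟩ | ⟨hw, hW⟩) | ⟨u, hu, rfl⟩
    · rw [Ops_left D hD]
      refine AddSubgroup.subset_closure (Or.inl (Or.inl ⟨D u, v, ?_, rfl⟩))
      rcases h with ⟨hu, hv⟩ | ⟨hu, hv⟩
      · exact Or.inl ⟨h1 u hu, hv⟩
      · exact Or.inr ⟨Lvn_op hC hF (Ops_le_left hD) hu, hv⟩
    · refine AddSubgroup.subset_closure (Or.inl (Or.inr ⟨h1 g hw, ?_⟩))
      exact Ops_sub _ (fun i => NonUnitalSubring.subset_closure (Set.mem_range_self i)) D hD g hW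
    · rw [map_nsmul]
      exact AddSubgroup.subset_closure (Or.inr ⟨D u, h1 u hu, rfl⟩)
  | zero => rw [map_zero]; exact AddSubgroup.zero_mem _
  | add a b _ _ ha hb => rw [map_add]; exact AddSubgroup.add_mem _ ha hb
  | neg a _ ha => rw [map_neg]; exact AddSubgroup.neg_mem _ ha

theorem Lvn_hinv (hC : Cy R n p) (hF : Frame R n s t) (he : Hm (fun i => om n (t i)))
    (D : AddMonoid.End R) (hD : D ∈ Ops t α none) :
    (∀ w ∈ LvnN he α α, D w ∈ LvnG n p t α β) ∨
      ∃ D' ∈ Ops t α none, ∀ w ∈ LvnN he α α, D' (D w) = w := by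
  cases α with
  | none =>
    obtain ⟨c, hc⟩ := Lvn_int t D hD
    by_cases hpc : (p : ℤ) ∣ c
    · obtain ⟨c', rfl⟩ := hpc
      refine Or.inl fun w hw => ?_
      rw [hc, mul_comm, mul_smul, natCast_zsmul]
      have h1 : p • w ∈ LvnG n p t none β :=
        AddSubgroup.subset_closure (Or.inr ⟨w, hw, rfl⟩)
      exact zsmul_mem h1 c'
    · obtain ⟨r, hr⟩ := hC.pr
      have hcop : IsCoprime c ((p : ℤ) ^ r) := by
        refine IsCoprime.pow_right ?_
        have h1 := (Nat.prime_iff_prime_int.1 hC.pp)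
        exact ((Prime.coprime_iff_not_dvd h1).2 hpc).symm
      obtain ⟨u, v, huv⟩ := hcop
      refine Or.inr ⟨u • (1 : AddMonoid.End R), zsmul_mem (one_mem _) u, fun w _ => ?_⟩
      change u • (D w) = w
      rw [hc, smul_smul]
      have h2 : u * c = 1 - v * (p : ℤ) ^ r := by linarith
      have h3 : ((p : ℤ) ^ r) • w = 0 := by
        have := hr w
        rw [← natCast_zsmul] at this
        push_cast at this
        exact this
      rw [h2, sub_smul, one_smul, mul_smul, h3, smul_zero, sub_zero]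
  | some i =>
    obtain ⟨h1, h2⟩ := thm_Inv thm_Ops n p R hC s t hF i D hD
    have hid : om n (t i) * om n (t i) = om n (t i) := he.idem i
    rcases h2 with h2 | ⟨D', hD', h2⟩
    · refine Or.inl fun w hw => ?_
      have hw1 : om n (t i) * w = w := by
        have := hw.1.1 i
        rwa [if_pos rfl] at this
      rw [h1 w hw1]
      refine AddSubgroup.subset_closure (Or.inl (Or.inl ⟨_, w, Or.inl ⟨⟨?_, h2⟩, hw⟩, rfl⟩))
      refine (thm_Opc n p R hC s t hF (some i) (some i) D (Ops_le_left hD) _).1 ⟨?_, ?_⟩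
      · intro k
        by_cases hk : i = k
        · subst hk
          rw [if_pos rfl]
          exact hid
        · rw [if_neg fun h => hk (Option.some.inj h)]
          exact he.orth k i (Ne.symm hk)
      · intro k
        by_cases hk : i = k
        · subst hk
          rw [if_pos rfl]
          exact hid
        · rw [if_neg fun h => hk (Option.some.inj h)]
          exact he.orth i k hk
    · refine Or.inr ⟨D', hD', fun w hw => h2 w ?_⟩
      have := hw.1.1 i
      rwa [if_pos rfl] at this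

/-- `hG` -/
theorem Lvn_hG (hSpl : St_Spl) (hLex : St_Lex) (hT : Ldt n p s t H α β m a x y) {q : ℕ}
    (hq : Lq n p s t α β m a x y q) {x' y' : R} (hx' : Jc (fun i => om n (t i)) α β x')
    (hy' : Jc (fun i => om n (t i)) β α y') {v : ℕ → R} {j : ℕ} (hj : j < m)
    (hv : ∀ k, k < m → Jc (fun i => om n (t i)) α α (v k)) {g : R}
    (hg : g ∈ LvnG n p t α β) : q • pll (Function.update v j g) (x' * y') m = 0 := by
  have he := Lvn_hm hT.cy hT.cx.fr
  obtain ⟨hS0, _⟩ := hSpl n p s R t H α β m a x y hT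
  have hX := fun c => hLex n p s R t H α β m a x y hT q hq c x' y' hx' hy'
  have hupd : ∀ w, Jc (fun i => om n (t i)) α α w → ∀ k, k < m →
      Jc (fun i => om n (t i)) α α (Function.update v j w k) := by
    intro w hw k hk
    rw [Function.update_apply]
    split_ifs
    · exact hw
    · exact hv k hk
  unfold LvnG at hg
  induction hg using AddSubgroup.closure_induction with
  | mem g hg =>
    rcases hg with (⟨u, w, h, rfl⟩ | ⟨hw, hW⟩) | ⟨u, hu, rfl⟩
    · obtain ⟨l, hl⟩ : ∃ l, m = j + 1 + l := ⟨m - (j + 1), by omega⟩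
      rcases h with ⟨hu, hw⟩ | ⟨hu, hw⟩
      · have e1 := Tva_mid (Function.update v j (u * w)) (x' * y') u w j
          (Function.update_self _ _ _) l
        rw [hl, e1, ← hl]
        refine (hX _).1 _ (Nat.lt_succ_self _) fun k hk => ?_
        have hk' := hupd _ (Lvn_jc he hu hw)
        by_cases h1 : k < j
        · simp only [TvaS, if_pos h1]
          exact hk' k (by omega)
        · by_cases h2 : k = j
          · simp only [TvaS, if_neg h1, if_pos h2]
            exact hw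
          · by_cases h3 : k = j + 1
            · simp only [TvaS, if_neg h1, if_neg h2, if_pos h3]
              exact hu
            · simp only [TvaS, if_neg h1, if_neg h2, if_neg h3]
              exact hk' _ (by omega)
      · have h0 : pll (Function.update v j (u * w)) (x' * y') (j + 1) = 0 := by
          change Function.update v j (u * w) j * pll (Function.update v j (u * w)) (x' * y') j = 0
          rw [Function.update_self, Tva_congr (y' := v) (x' * y') j
            (fun k hk => Function.update_of_ne (ne_of_lt hk) _ _), Tva_r, mul_assoc, ← mul_assoc w,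
            hS0 w (pll v x' j) hw.1 (Tva_pc hx'.1 j fun k hk => (hv k (by omega)).1), zero_mul,
            mul_zero]
        have h1 : ∀ l, pll (Function.update v j (u * w)) (x' * y') (j + 1 + l) = 0 := by
          intro l
          induction l with
          | zero => exact h0
          | succ l ih =>
            change _ * pll (Function.update v j (u * w)) (x' * y') (j + 1 + l) = 0
            rw [ih, mul_zero]
        rw [hl, h1, smul_zero]
    · exact ((hX _).2 (hupd g hw)).2 ⟨j, hj, by rwa [Function.update_self]⟩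
    · rw [Lvn_ns v _ u j m hj p, smul_comm]
      exact ((hX _).2 (hupd u hu)).1
  | zero => rw [Lvn_zero v _ j m hj, smul_zero]
  | add u w _ _ hu hw => rw [Lvn_add v _ u w j m hj, smul_add, hu, hw, add_zero]
  | neg u _ hu => rw [Lvn_neg v _ u j m hj, smul_neg, hu, neg_zero]

/-- the letters are loops -/
theorem Lvn_Cs (hW : ∀ i, Lop n t (some i) (p • om n (t i)))
    (hlo : ∀ k, k < m → Lop n t α (a k)) {c : R} (hc : c ∈ Cs n p t α m a) : Lop n t α c := by
  rcases hc with ⟨k, hk, rfl⟩ | ⟨i, hi, rfl⟩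
  · exact hlo k hk
  · rw [hi]
    exact hW i

theorem Lvn_hspan (hSpl : St_Spl) (hWst : St_Wst) (hT : Ldt n p s t H α β m a x y) (w : R)
    (hw : Jc (fun i => om n (t i)) α α w) :
    ∃ μ : ℕ → AddMonoid.End R, (∀ k, μ k ∈ Ops t α none) ∧
      w - ∑ k ∈ Finset.range m, μ k (a k) ∈ LvnG n p t α β := by
  have he := Lvn_hm hT.cy hT.cx.fr
  obtain ⟨_, _, _, hS4, _⟩ := hSpl n p s R t H α β m a x y hT
  obtain ⟨_, _, _, hW4⟩ := hWst n p R hT.cy s t hT.cx.fr
  have hg := hS4 w hw
  clear hw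
  induction hg using AddSubgroup.closure_induction with
  | mem w hw =>
    rcases hw with ⟨D, hD, l, c, c₀, hc, hc₀, rfl⟩ | ⟨v, v', hv, hv', rfl⟩
    · have hlo : ∀ c ∈ Cs n p t α m a, Jc (fun i => om n (t i)) α α c := fun c hc =>
        ⟨(Lvn_Cs hW4 hT.lo hc).pc, (Lvn_Cs hW4 hT.lo hc).nl⟩
      cases l with
      | zero =>
        rcases hc₀ with ⟨k, hk, rfl⟩ | ⟨i, hi, rfl⟩
        · refine ⟨Function.update 0 k D, fun k' => ?_, ?_⟩
          · rw [Function.update_apply]
            split_ifs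
            · exact hD
            · exact zero_mem _
          · rw [Finset.sum_eq_single k]
            · rw [Function.update_self]
              change D (a k) - D (a k) ∈ _
              rw [sub_self]
              exact AddSubgroup.zero_mem _
            · intro k' _ hk'
              rw [Function.update_of_ne hk']
              rfl
            · intro h
              exact absurd (Finset.mem_range.2 hk) h
        · refine ⟨0, fun k' => zero_mem _, ?_⟩
          have e0 : ∑ k ∈ Finset.range m, (0 : ℕ → AddMonoid.End R) k (a k) = 0 :=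
            Finset.sum_eq_zero fun k _ => rfl
          rw [e0, sub_zero]
          refine AddSubgroup.subset_closure (Or.inl (Or.inr ⟨?_, ?_⟩))
          · exact Lvn_op hT.cy hT.cx.fr (Ops_le_left hD) (hlo _ (Or.inr ⟨i, hi, rfl⟩))
          · refine Ops_sub _ (fun i => NonUnitalSubring.subset_closure (Set.mem_range_self i)) D hD _ ?_
            refine nsmul_mem ?_ p
            exact Nac_pw _ (NonUnitalSubring.subset_closure (Set.mem_range_self i)) _
      | succ l =>
        refine ⟨0, fun k' => zero_mem _, ?_⟩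
        have e0 : ∑ k ∈ Finset.range m, (0 : ℕ → AddMonoid.End R) k (a k) = 0 :=
          Finset.sum_eq_zero fun k _ => rfl
        rw [e0, sub_zero]
        change D (c l * pll c c₀ l) ∈ _
        rw [Ops_left D hD]
        refine AddSubgroup.subset_closure (Or.inl (Or.inl ⟨_, _, Or.inl ⟨?_, ?_⟩, rfl⟩))
        · exact Lvn_op hT.cy hT.cx.fr (Ops_le_left hD) (hlo _ (hc l (Nat.lt_succ_self l)))
        · exact Lvn_jcp he (hlo _ hc₀) l fun j hj => hlo _ (hc j (by omega))
    · refine ⟨0, fun k' => zero_mem _, ?_⟩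
      have e0 : ∑ k ∈ Finset.range m, (0 : ℕ → AddMonoid.End R) k (a k) = 0 :=
        Finset.sum_eq_zero fun k _ => rfl
      rw [e0, sub_zero]
      exact AddSubgroup.subset_closure (Or.inl (Or.inl ⟨v, v', Or.inr ⟨hv, hv'⟩, rfl⟩))
  | zero =>
    refine ⟨0, fun k' => zero_mem _, ?_⟩
    have e0 : ∑ k ∈ Finset.range m, (0 : ℕ → AddMonoid.End R) k (a k) = 0 :=
      Finset.sum_eq_zero fun k _ => rfl
    rw [e0, sub_zero]
    exact AddSubgroup.zero_mem _
  | add u w _ _ hu hw =>
    obtain ⟨μ, hμ, h1⟩ := hu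
    obtain ⟨ν, hν, h2⟩ := hw
    refine ⟨μ + ν, fun k => add_mem (hμ k) (hν k), ?_⟩
    have e0 : ∑ k ∈ Finset.range m, (μ + ν) k (a k) =
        ∑ k ∈ Finset.range m, μ k (a k) + ∑ k ∈ Finset.range m, ν k (a k) := by
      rw [← Finset.sum_add_distrib]
      rfl
    rw [e0, add_sub_add_comm]
    exact AddSubgroup.add_mem _ h1 h2
  | neg u _ hu =>
    obtain ⟨μ, hμ, h1⟩ := hu
    refine ⟨-μ, fun k => neg_mem (hμ k), ?_⟩
    have e0 : ∑ k ∈ Finset.range m, (-μ) k (a k) = -∑ k ∈ Finset.range m, μ k (a k) := by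
      rw [← Finset.sum_neg_distrib]
      rfl
    have e1 : -u - -∑ k ∈ Finset.range m, μ k (a k) =
        -(u - ∑ k ∈ Finset.range m, μ k (a k)) := by abel
    rw [e0, e1]
    exact AddSubgroup.neg_mem _ h1

end main

section last

variable {R : Type} [NonUnitalRing R] [Finite R] {n p s : ℕ} {t : Fin s → R} {H : AddSubgroup R}
  {α β : Option (Fin s)} {m : ℕ} {a : ℕ → R} {x y : R}

theorem Lvn_zadd (v : ℕ → R) (z z' : R) (l : ℕ) : pll v (z + z') l = pll v z l + pll v z' l := by
  induction l with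
  | zero => rfl
  | succ l ih =>
    change v l * pll v (z + z') l = v l * pll v z l + v l * pll v z' l
    rw [ih, mul_add]

theorem Lvn_zzero (v : ℕ → R) (l : ℕ) : pll v (0 : R) l = 0 := by
  induction l with
  | zero => rfl
  | succ l ih =>
    change v l * pll v 0 l = 0
    rw [ih, mul_zero]

theorem Lvn_zneg (v : ℕ → R) (z : R) (l : ℕ) : pll v (-z) l = -pll v z l := by
  induction l with
  | zero => rfl
  | succ l ih =>
    change v l * pll v (-z) l = -(v l * pll v z l)
    rw [ih, mul_neg]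

theorem Lvn_zns (v : ℕ → R) (z : R) (l k : ℕ) : pll v (k • z) l = k • pll v z l := by
  induction l with
  | zero => rfl
  | succ l ih =>
    change v l * pll v (k • z) l = k • (v l * pll v z l)
    rw [ih, mul_smul_comm]

theorem Lvn_loops (hSpl : St_Spl) (hWst : St_Wst) (hLex : St_Lex)
    (hT : Ldt n p s t H α β m a x y) {q : ℕ} (hq : Lq n p s t α β m a x y q)
    (he : Hm (fun i => om n (t i))) {S : NonUnitalSubring R} (hS : ∀ i, t i ∈ S) {c : ℕ → R}
    {x' y' : R} (hc : ∀ j, j < m → Jc (fun i => om n (t i)) α α (c j) ∧ c j ∈ S)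
    (hx' : Jc (fun i => om n (t i)) α β x') (hy' : Jc (fun i => om n (t i)) β α y')
    (hne : q • pll c (x' * y') m ≠ 0) (w : R) (hw : Jc (fun i => om n (t i)) α α w) :
    w ∈ LvnT he S := by
  have hexg := thm_Exg R s t α m (LvnN he α α) (LvnG n p t α β)
    (fun v => q • pll v (x' * y') m) a c (Lvn_G_le he)
    (fun D hD => Lvn_stab hT.cy hT.cx.fr he D hD)
    (fun D hD => Lvn_hinv hT.cy hT.cx.fr he D hD)
    (fun v j u w hj _ _ _ => by
      change q • pll (Function.update v j (u + w)) (x' * y') m = _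
      rw [Lvn_add v _ u w j m hj, smul_add])
    (fun v j j' hj hj' hjj hv hD => by
      obtain ⟨D, hD, h⟩ := hD
      change q • pll v (x' * y') m = 0
      rw [Tva_r, Lvn_halt hT.cy hT.cx.fr hT.ab hx' hj hj' hjj hv hD h, zero_mul, smul_zero])
    (fun v j hj hv hvj => by
      have h1 := Lvn_hG hSpl hLex hT hq hx' hy' hj hv hvj
      rw [Function.update_eq_self] at h1
      exact h1)
    (fun k hk => ⟨(hT.lo k hk).pc, (hT.lo k hk).nl⟩)
    (fun w hw => Lvn_hspan hSpl hWst hT w hw) (fun k hk => (hc k hk).1) hne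
  have hGT : ∀ g ∈ LvnG n p t α β, ∃ w ∈ LvnN he α α, g - p • w ∈ LvnT he S := by
    intro g hg
    unfold LvnG at hg
    induction hg using AddSubgroup.closure_induction with
    | mem g hg =>
      rcases hg with (⟨u, v, h, rfl⟩ | ⟨hw, hW⟩) | ⟨u, hu, rfl⟩
      · refine ⟨0, AddSubgroup.zero_mem _, ?_⟩
        rw [smul_zero, sub_zero]
        refine Lvn_TJ (AddSubgroup.subset_closure ⟨u, v, ?_, ?_, rfl⟩)
        · rcases h with h | h
          · exact h.1.2
          · exact h.1.2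
        · rcases h with h | h
          · exact h.2.2
          · exact h.2.2
      · refine ⟨0, AddSubgroup.zero_mem _, ?_⟩
        rw [smul_zero, sub_zero]
        refine Lvn_TS ?_ hw.2
        refine (NonUnitalSubring.closure_le.2 ?_) hW
        rintro _ ⟨i, rfl⟩
        exact hS i
      · refine ⟨u, hu, ?_⟩
        rw [sub_self]
        exact AddSubgroup.zero_mem _
    | zero =>
      refine ⟨0, AddSubgroup.zero_mem _, ?_⟩
      rw [smul_zero, sub_zero]
      exact AddSubgroup.zero_mem _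
    | add u v _ _ hu hv =>
      obtain ⟨w, hw, h1⟩ := hu
      obtain ⟨w', hw', h2⟩ := hv
      refine ⟨w + w', AddSubgroup.add_mem _ hw hw', ?_⟩
      rw [smul_add, add_sub_add_comm]
      exact AddSubgroup.add_mem _ h1 h2
    | neg u _ hu =>
      obtain ⟨w, hw, h1⟩ := hu
      refine ⟨-w, AddSubgroup.neg_mem _ hw, ?_⟩
      have e1 : -u - p • -w = -(u - p • w) := by
        rw [smul_neg]
        abel
      rw [e1]
      exact AddSubgroup.neg_mem _ h1
  have hstep : ∀ w ∈ LvnN he α α, ∃ w' ∈ LvnN he α α, w - p • w' ∈ LvnT he S := by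
    intro w hw
    obtain ⟨μ, hμ, h1⟩ := hexg w hw
    obtain ⟨w', hw', h2⟩ := hGT _ h1
    refine ⟨w', hw', ?_⟩
    have e1 : w - p • w' = (w - ∑ k ∈ Finset.range m, μ k (c k) - p • w') +
        ∑ k ∈ Finset.range m, μ k (c k) := by abel
    rw [e1]
    refine AddSubgroup.add_mem _ h2 (AddSubgroup.sum_mem _ fun k hk => ?_)
    have hk' := Finset.mem_range.1 hk
    exact Lvn_TS (Ops_sub S hS _ (hμ k) _ (hc k hk').2)
      (Lvn_op hT.cy hT.cx.fr (Ops_le_left (hμ k)) (hc k hk').1).2
  have hpow : ∀ j : ℕ, ∀ w ∈ LvnN he α α, ∃ w' ∈ LvnN he α α, w - p ^ j • w' ∈ LvnT he S := by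
    intro j
    induction j with
    | zero =>
      intro w hw
      refine ⟨w, hw, ?_⟩
      rw [pow_zero, one_smul, sub_self]
      exact AddSubgroup.zero_mem _
    | succ j ih =>
      intro w hw
      obtain ⟨w', hw', h1⟩ := ih w hw
      obtain ⟨w'', hw'', h2⟩ := hstep w' hw'
      refine ⟨w'', hw'', ?_⟩
      have e1 : w - p ^ (j + 1) • w'' = (w - p ^ j • w') + p ^ j • (w' - p • w'') := by
        rw [smul_sub, pow_succ, mul_smul]
        abel
      rw [e1]
      exact AddSubgroup.add_mem _ h1 (AddSubgroup.nsmul_mem _ h2 _)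
  obtain ⟨r, hr⟩ := hT.cy.pr
  obtain ⟨w', _, h1⟩ := hpow r w hw
  rw [hr, sub_zero] at h1
  exact h1

theorem Lvn_T_op (hC : Cy R n p) (hF : Frame R n s t) (he : Hm (fun i => om n (t i)))
    {S : NonUnitalSubring R} (hS : ∀ i, t i ∈ S) {γ δ : Option (Fin s)} {D : AddMonoid.End R}
    (hD : D ∈ Ops t γ δ) {w : R} (hw : w ∈ LvnT he S) : D w ∈ LvnT he S := by
  obtain ⟨v, hv, nv, h⟩ := hw
  refine ⟨D v, Ops_sub S hS D hD v hv, (thm_Opc n p R hC s t hF γ δ D hD v).2 nv, ?_⟩
  rw [← map_sub]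
  exact Ops_idl _ (Lvn_J2 he) D hD _ h

theorem Lvn_jcr {e : Fin s → R} (he : Hm e) {γ : Option (Fin s)} {v : ℕ → R} {z : R}
    (hz : Jc e γ α z) : ∀ l, (∀ j, j < l → Jc e α α (v j)) → Jc e γ α (prr z v l) := by
  intro l
  induction l with
  | zero => intro _; exact hz
  | succ l ih =>
    intro h
    exact Lvn_jc he (ih fun j hj => h j (by omega)) (h l (Nat.lt_succ_self l))

/-- products of a loop and an arrow -/
def LvnP (n : ℕ) {s : ℕ} (t : Fin s → R) (α β γ : Option (Fin s)) : AddSubgroup R :=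
  AddSubgroup.closure {w | ∃ c d, Jc (fun i => om n (t i)) α β c ∧
    Jc (fun i => om n (t i)) β γ d ∧ w = c * d}

theorem Lvn_P_le (α β γ : Option (Fin s)) : LvnP n t α β γ ≤ J2 R := by
  refine AddSubgroup.closure_mono ?_
  rintro w ⟨c, d, hc, hd, rfl⟩
  exact ⟨c, d, hc.2, hd.2, rfl⟩

theorem Lvn_spx (hSpl : St_Spl) (hWst : St_Wst) (hT : Ldt n p s t H α β m a x y) (u : R)
    (hu : Pc (fun i => om n (t i)) α β u) :
    ∃ D ∈ Ops t α β, u - D x ∈ LvnP n t α α β := by
  have he := Lvn_hm hT.cy hT.cx.fr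
  obtain ⟨_, hS1, _⟩ := hSpl n p s R t H α β m a x y hT
  obtain ⟨_, _, _, hW4⟩ := hWst n p R hT.cy s t hT.cx.fr
  have hg := hS1 u hu
  clear hu
  induction hg using AddSubgroup.closure_induction with
  | mem w hw =>
    obtain ⟨D, hD, l, c, hc, rfl⟩ := hw
    cases l with
    | zero =>
      refine ⟨D, hD, ?_⟩
      change D x - D x ∈ _
      rw [sub_self]
      exact AddSubgroup.zero_mem _
    | succ l =>
      refine ⟨0, zero_mem _, ?_⟩
      change D (c l * pll c x l) - 0 ∈ _
      have hlop := Lvn_Cs hW4 hT.lo (hc l (Nat.lt_succ_self l))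
      rw [sub_zero, Ops_cen (c l) hlop.cen D hD]
      refine AddSubgroup.subset_closure ⟨_, _, ⟨hlop.pc, hlop.nl⟩, ?_, rfl⟩
      refine Lvn_op hT.cy hT.cx.fr hD (Lvn_jcp he ⟨hT.ax.pc, hT.ax.nl⟩ l fun j hj => ?_)
      have := Lvn_Cs hW4 hT.lo (hc j (by omega))
      exact ⟨this.pc, this.nl⟩
  | zero =>
    refine ⟨0, zero_mem _, ?_⟩
    change (0 : R) - 0 ∈ _
    rw [sub_zero]
    exact AddSubgroup.zero_mem _
  | add u w _ _ hu hw =>
    obtain ⟨D, hD, h1⟩ := hu
    obtain ⟨D', hD', h2⟩ := hw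
    refine ⟨D + D', add_mem hD hD', ?_⟩
    change u + w - (D x + D' x) ∈ _
    rw [add_sub_add_comm]
    exact AddSubgroup.add_mem _ h1 h2
  | neg u _ hu =>
    obtain ⟨D, hD, h1⟩ := hu
    refine ⟨-D, neg_mem hD, ?_⟩
    change -u - -(D x) ∈ _
    have e1 : -u - -(D x) = -(u - D x) := by abel
    rw [e1]
    exact AddSubgroup.neg_mem _ h1

theorem Lvn_spy (hSpl : St_Spl) (hWst : St_Wst) (hT : Ldt n p s t H α β m a x y) (u : R)
    (hu : Pc (fun i => om n (t i)) β α u) :
    ∃ D ∈ Ops t β α, u - D y ∈ LvnP n t β α α := by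
  have he := Lvn_hm hT.cy hT.cx.fr
  obtain ⟨_, _, hS2, _⟩ := hSpl n p s R t H α β m a x y hT
  obtain ⟨_, _, _, hW4⟩ := hWst n p R hT.cy s t hT.cx.fr
  have hg := hS2 u hu
  clear hu
  induction hg using AddSubgroup.closure_induction with
  | mem w hw =>
    obtain ⟨D, hD, l, c, hc, rfl⟩ := hw
    cases l with
    | zero =>
      refine ⟨D, hD, ?_⟩
      change D y - D y ∈ _
      rw [sub_self]
      exact AddSubgroup.zero_mem _
    | succ l =>
      refine ⟨0, zero_mem _, ?_⟩
      change D (prr y c l * c l) - 0 ∈ _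
      have hlop := Lvn_Cs hW4 hT.lo (hc l (Nat.lt_succ_self l))
      rw [sub_zero, Lvn_cen (c l) hlop.cen D hD]
      refine AddSubgroup.subset_closure ⟨_, _, ?_, ⟨hlop.pc, hlop.nl⟩, rfl⟩
      refine Lvn_op hT.cy hT.cx.fr hD (Lvn_jcr he ⟨hT.ay.pc, hT.ay.nl⟩ l fun j hj => ?_)
      have := Lvn_Cs hW4 hT.lo (hc j (by omega))
      exact ⟨this.pc, this.nl⟩
  | zero =>
    refine ⟨0, zero_mem _, ?_⟩
    change (0 : R) - 0 ∈ _
    rw [sub_zero]
    exact AddSubgroup.zero_mem _
  | add u w _ _ hu hw =>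
    obtain ⟨D, hD, h1⟩ := hu
    obtain ⟨D', hD', h2⟩ := hw
    refine ⟨D + D', add_mem hD hD', ?_⟩
    change u + w - (D y + D' y) ∈ _
    rw [add_sub_add_comm]
    exact AddSubgroup.add_mem _ h1 h2
  | neg u _ hu =>
    obtain ⟨D, hD, h1⟩ := hu
    refine ⟨-D, neg_mem hD, ?_⟩
    change -u - -(D y) ∈ _
    have e1 : -u - -(D y) = -(u - D y) := by abel
    rw [e1]
    exact AddSubgroup.neg_mem _ h1

theorem Lvn_x (hSpl : St_Spl) (hWst : St_Wst) (hLex : St_Lex)
    (hT : Ldt n p s t H α β m a x y) {q : ℕ} (hq : Lq n p s t α β m a x y q)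
    (he : Hm (fun i => om n (t i))) {S : NonUnitalSubring R} (hS : ∀ i, t i ∈ S) {c : ℕ → R}
    {x' y' : R} (hc : ∀ j, j < m → Jc (fun i => om n (t i)) α α (c j))
    (hx' : Jc (fun i => om n (t i)) α β x') (hxS : x' ∈ S)
    (hy' : Jc (fun i => om n (t i)) β α y') (hne : q • pll c (x' * y') m ≠ 0) :
    x ∈ LvnT he S := by
  obtain ⟨D, hD, hr⟩ := Lvn_spx hSpl hWst hT x' hx'.1
  have hX := fun c x' hx' => hLex n p s R t H α β m a x y hT q hq c x' y' hx' hy'
  have hP : ∀ r ∈ LvnP n t α α β, q • pll c (r * y') m = 0 := by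
    intro r hr
    unfold LvnP at hr
    induction hr using AddSubgroup.closure_induction with
    | mem r hr =>
      obtain ⟨c₀, d, hc₀, hd, rfl⟩ := hr
      rw [mul_assoc, Tva_bot]
      refine (hX _ d hd).1 _ (Nat.lt_succ_self m) fun j hj => ?_
      cases j with
      | zero => exact hc₀
      | succ j => exact hc j (by omega)
    | zero => rw [zero_mul, Lvn_zzero, smul_zero]
    | add u w _ _ hu hw => rw [add_mul, Lvn_zadd, smul_add, hu, hw, add_zero]
    | neg u _ hu => rw [neg_mul, Lvn_zneg, smul_neg, hu, neg_zero]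
  have h1 : q • pll c (D x * y') m ≠ 0 := by
    intro h0
    apply hne
    have e1 : x' * y' = D x * y' + (x' - D x) * y' := by
      rw [← add_mul]
      congr 1
      abel
    rw [e1, Lvn_zadd, smul_add, h0, hP _ hr, add_zero]
  rcases hT.ax.pu D hD with ⟨D', hD', h2⟩ | ⟨D', hD', h2⟩
  · exfalso
    apply h1
    have h3 : Jc (fun i => om n (t i)) α β (D' x) :=
      Lvn_op hT.cy hT.cx.fr hD' ⟨hT.ax.pc, hT.ax.nl⟩
    rw [h2, smul_mul_assoc, Lvn_zns, smul_comm]
    exact ((hX c _ h3).2 hc).1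
  · rw [← h2]
    refine Lvn_T_op hT.cy hT.cx.fr he hS hD' ?_
    have e1 : D x = x' - (x' - D x) := by abel
    rw [e1]
    exact AddSubgroup.sub_mem _ (Lvn_TS hxS hx'.2) (Lvn_TJ (Lvn_P_le _ _ _ hr))

theorem Lvn_y (hSpl : St_Spl) (hWst : St_Wst) (hLex : St_Lex)
    (hT : Ldt n p s t H α β m a x y) {q : ℕ} (hq : Lq n p s t α β m a x y q)
    (he : Hm (fun i => om n (t i))) {S : NonUnitalSubring R} (hS : ∀ i, t i ∈ S) {c : ℕ → R}
    {x' y' : R} (hc : ∀ j, j < m → Jc (fun i => om n (t i)) α α (c j))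
    (hx' : Jc (fun i => om n (t i)) α β x')
    (hy' : Jc (fun i => om n (t i)) β α y') (hyS : y' ∈ S)
    (hne : q • pll c (x' * y') m ≠ 0) : y ∈ LvnT he S := by
  obtain ⟨D, hD, hr⟩ := Lvn_spy hSpl hWst hT y' hy'.1
  have hX := fun c y' hy' => hLex n p s R t H α β m a x y hT q hq c x' y' hx' hy'
  have r4 := (thm_Rul R s _ he α β hT.ab).2.2.2.1
  have hP : ∀ r ∈ LvnP n t β α α, q • pll c (x' * r) m = 0 := by
    intro r hr
    unfold LvnP at hr
    induction hr using AddSubgroup.closure_induction with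
    | mem r hr =>
      obtain ⟨d, c₀, hd, hc₀, rfl⟩ := hr
      have e1 : x' * (d * c₀) = -(c₀ * (x' * d)) := by
        have := (r4 c₀ 0 x' d hc₀ Rut_zero hx' hd).1
        rw [← mul_assoc, ← mul_assoc, this, neg_neg]
      rw [e1, Lvn_zneg, Tva_bot, smul_neg, neg_eq_zero]
      refine (hX _ d hd).1 _ (Nat.lt_succ_self m) fun j hj => ?_
      cases j with
      | zero => exact hc₀
      | succ j => exact hc j (by omega)
    | zero => rw [mul_zero, Lvn_zzero, smul_zero]
    | add u w _ _ hu hw => rw [mul_add, Lvn_zadd, smul_add, hu, hw, add_zero]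
    | neg u _ hu => rw [mul_neg, Lvn_zneg, smul_neg, hu, neg_zero]
  have h1 : q • pll c (x' * D y) m ≠ 0 := by
    intro h0
    apply hne
    have e1 : x' * y' = x' * D y + x' * (y' - D y) := by
      rw [← mul_add]
      congr 1
      abel
    rw [e1, Lvn_zadd, smul_add, h0, hP _ hr, add_zero]
  rcases hT.ay.pu D hD with ⟨D', hD', h2⟩ | ⟨D', hD', h2⟩
  · exfalso
    apply h1
    have h3 : Jc (fun i => om n (t i)) β α (D' y) :=
      Lvn_op hT.cy hT.cx.fr hD' ⟨hT.ay.pc, hT.ay.nl⟩
    rw [h2, mul_smul_comm, Lvn_zns, smul_comm]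
    exact ((hX c _ h3).2 hc).1
  · rw [← h2]
    refine Lvn_T_op hT.cy hT.cx.fr he hS hD' ?_
    have e1 : D y = y' - (y' - D y) := by abel
    rw [e1]
    exact AddSubgroup.sub_mem _ (Lvn_TS hyS hy'.2) (Lvn_TJ (Lvn_P_le _ _ _ hr))

end last

theorem thm_Lvn (hWst : St_Wst) (hSpl : St_Spl) (hLex : St_Lex) : St_Lvn := by
  intro n p s R _ _ t H α β m a x y hT q hq S hS c x' y' hc hx' hxS hy' hyS hne
  have he := Lvn_hm hT.cy hT.cx.fr
  have hloops := Lvn_loops hSpl hWst hLex hT hq he hS hc hx' hy' hne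
  have hx := Lvn_x hSpl hWst hLex hT hq he hS (fun j hj => (hc j hj).1) hx' hxS hy' hne
  have hy := Lvn_y hSpl hWst hLex hT hq he hS (fun j hj => (hc j hj).1) hx' hy' hyS hne
  obtain ⟨_, _, _, _, _, _, hS6⟩ := hSpl n p s R t H α β m a x y hT
  refine thm_Nac n p R hT.cy s t hT.cx.fr S hS fun u hu => ?_
  obtain ⟨w, hw, nw, u₁, u₂, u₃, h1, h2, h3, rfl⟩ := hS6 u hu
  have hwT : w ∈ LvnT he S := by
    refine Lvn_TS ((NonUnitalSubring.closure_le.2 ?_) hw) nw
    rintro _ ⟨i, rfl⟩
    exact hS i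
  have h2T : u₂ ∈ LvnT he S := by
    obtain ⟨D, hD, hr⟩ := Lvn_spx hSpl hWst hT u₂ h2.1
    have e1 : u₂ = D x + (u₂ - D x) := by abel
    rw [e1]
    exact AddSubgroup.add_mem _ (Lvn_T_op hT.cy hT.cx.fr he hS hD hx)
      (Lvn_TJ (Lvn_P_le _ _ _ hr))
  have h3T : u₃ ∈ LvnT he S := by
    obtain ⟨D, hD, hr⟩ := Lvn_spy hSpl hWst hT u₃ h3.1
    have e1 : u₃ = D y + (u₃ - D y) := by abel
    rw [e1]
    exact AddSubgroup.add_mem _ (Lvn_T_op hT.cy hT.cx.fr he hS hD hy)
      (Lvn_TJ (Lvn_P_le _ _ _ hr))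
  exact AddSubgroup.add_mem _ (AddSubgroup.add_mem _ (AddSubgroup.add_mem _ hwT (hloops u₁ h1)) h2T)
    h3T

end Pool.Agent.CRM
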