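import Pool.Agent.CRM.Defs2
import Pool.Agent.CRM.St

/-!
Campaign CRM (problem MP_1bb14d_al, stage 4).  Frozen statements, part 2: from critical rings to the types.

Every module `Pool/Agent/CRM/<X>.lean` for a statement of this file imports this file and proves
`theorem thm_<X> : St_<X>`; see the header of `St.lean` for the rules.  The statements of `St.lean` are
also being proved in this campaign and may be used as hypotheses if they are named in the docstring.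

Notation of the docstrings: as in `St.lean`; `e_i = om n (t i)`, `J` the nil elements, `L_i`, `R_i` the
multiplications by `t_i`, letters `i < s` are the `t_i`, the letter `s + k` is `x_k`.
-/

set_option autoImplicit false

namespace Pool.Agent.CRM

open Pool.Agent.CRR Pool.Agent.CRN Pool.Agent.CRK Pool.Agent.CRL

/-! ### Part D: words -/

/-- **WXW** (from `St_Ops`, `St_Opc`).  Words in `t` and `x` as products of operators applied to the `x_k`.  The first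
alternative: the word is zero for all homogeneous `x`.  PROOF.  Induction on `l`.  `l = i :: l'` with `i < s`: `l'`
contains a letter `≥ s`; the induction hypothesis for `l'`: first alternative: also for `l`; second:
`ds' = (k, D) :: ds''`; if `α k = some i` take `(k, L_i D) :: ds''` (`L_i` is invertible on the elements of `e_i R`:
`L_i^(m-1)` with `t_i^m = e_i`, `CRL.fpr`), if `α k ≠ some i` then `t_i (D x) = 0` (`D x ∈ e_(α k) R`, `t_i = t_i e_i`), first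
alternative.  `l = i :: l'`, `i ≥ s`, `k = i - s`: if `l'` contains a letter `≥ s`, add `(k, 1)` to the list for `l'`; if `l' = []`:
`[(k, 1)]`; otherwise `l'` consists of letters `j < s`: if all are equal to `j` with `β k = some j`:
`[(k, R_j^(length l'))]`; otherwise the product is `0`. -/
def St_Wxw : Prop := ∀ (n p : ℕ) (R : Type) [NonUnitalRing R] [Finite R], Cy R n p →
  ∀ (s : ℕ) (t : Fin s → R), Frame R n s t → ∀ (α β : ℕ → Option (Fin s)) (l : List ℕ),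
  (∃ i ∈ l, s ≤ i) →
  (∀ x : ℕ → R, (∀ k, Pc (fun i => om n (t i)) (α k) (β k) (x k)) → wp (l.map (vx t x)) = 0) ∨
  ∃ ds : List (Dsi R),
    ds.map Prod.fst = (l.filter (fun i => decide (s ≤ i))).map (fun i => i - s) ∧
    (∀ d ∈ ds, d.2 ∈ Ops t (α d.1) (β d.1) ∧ ∃ D' ∈ Ops t (α d.1) (β d.1),
      ∀ x, Pc (fun i => om n (t i)) (α d.1) (β d.1) x → D' (d.2 x) = x) ∧
    ∀ x : ℕ → R, (∀ k, Pc (fun i => om n (t i)) (α k) (β k) (x k)) →
      wp (l.map (vx t x)) = wp (ds.map fun d => d.2 (x d.1))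

/-- **SHP** (from `St_Rul`, `St_Rum`, `St_Ruu`).  The shape of a nonzero product of homogeneous nil elements, not all of
them loops.  PROOF.  The list is composable (`CRN.thm_Pca`).  A product of a nonempty list of loops at a
vertex is a loop at this vertex, and nil.  Let `c : α → β` be the first non-loop, `l = A ++ c :: B`, `A` loops
at `α`.
(1) All elements of `B` are loops (at `β`): `A = []` or `B = []` (`a z b = 0`, `St_Rul` (3)): second or first item.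
(2) `B = B₁ ++ c' :: B₂`, `B₁` loops at `β`, `c' : β → γ`, `γ ≠ β`.  `B₁ = []`: `z b z' = 0` by `St_Rul` (4) if `γ = α`, by `St_Ruu` (3) if
`γ ≠ α`.  If `γ ≠ α`: `A = []` (`St_Ruu` (2) with `δ = α`), `B₂ = []` (`St_Ruu` (1) for its first element): third item.
(3) `γ = α`, `B₂` all loops (at `α`): if `A ++ B₂ = []` third item, otherwise the fourth.
(4) `γ = α`, `B₂ = B₃ ++ c'' :: B₄`, `B₃` loops at `α`, `c'' : α → δ`, `δ ≠ α`.  `B₃ = []`: as in (2) (`y b z = 0` for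
`y : β → α`, `z : α → δ`).  `δ = β`: otherwise `x y z = 0` by `St_Ruu` (2) (`y : β → α`, `z : α → δ`, `β, α, δ` different, `w = x`).  So
`x y z` with `x, z : α → β`, `y : β → α`.  `A = []`: `St_Rum`.  `B₄ = []`: its first element `w` starts at `β`: a loop:
`x y z b = 0`; `w : β → α`: `x y z w = 0` (`St_Rum`); `w : β → ε`, `ε ≠ α, β`: `y z w = 0` by `St_Ruu` (2).  Fifth item. -/
def St_Shp : Prop := ∀ (R : Type) [NonUnitalRing R] (s : ℕ) (e : Fin s → R), Hm e →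
  ∀ l : List (Itm s R), (∀ c ∈ l, Jc e c.1 c.2.1 c.2.2) →
  wp (l.map fun c => c.2.2) ≠ 0 → (∃ c ∈ l, c.1 ≠ c.2.1) →
  (∃ (l' : List (Itm s R)) (c : Itm s R), l = l' ++ [c] ∧ c.1 ≠ c.2.1 ∧
    ∀ d ∈ l', d.1 = c.1 ∧ d.2.1 = c.1) ∨
  (∃ (c : Itm s R) (l' : List (Itm s R)), l = c :: l' ∧ c.1 ≠ c.2.1 ∧
    ∀ d ∈ l', d.1 = c.2.1 ∧ d.2.1 = c.2.1) ∨
  (∃ (c c' : Itm s R), l = [c, c'] ∧ c.1 ≠ c.2.1 ∧ c'.1 = c.2.1 ∧ c'.2.1 ≠ c.2.1) ∨
  (∃ (l₁ : List (Itm s R)) (c c' : Itm s R) (l₂ : List (Itm s R)), l = l₁ ++ c :: c' :: l₂ ∧ c.1 ≠ c.2.1 ∧ c'.1 = c.2.1 ∧ c'.2.1 = c.1 ∧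
    l₁ ++ l₂ ≠ [] ∧ ∀ d ∈ l₁ ++ l₂, d.1 = c.1 ∧ d.2.1 = c.1) ∨
  ∃ (c₁ c₂ c₃ : Itm s R), l = [c₁, c₂, c₃] ∧ c₁.1 ≠ c₁.2.1 ∧ c₂.1 = c₁.2.1 ∧ c₂.2.1 = c₁.1 ∧
    c₃.1 = c₁.1 ∧ c₃.2.1 = c₁.2.1

/-- **ALP** (from `St_Rul`).  Permutation of loops.  PROOF.  `List.Perm` induction: `cons`: multiply from the left;
`swap`: `a b z' = - b a z'` for `z' = wp (l.map y ++ [z])`, a nil element of `e_α R e_β` (`St_Rul` (1)); `trans`.
Second part: `x (y' ) a = - a x y'` for `y' ∈ e_β R e_α` (`St_Rul` (4)): move the factors `y k`, `k ∈ ks₂`, one by one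
from the right of `w` to the left of `z`: first show `z * w * a = - (a * z * w)`, so
`wp (ks₁.map y ++ z :: w :: ks₂.map y) = ± wp (ks₁.map y ++ (ks₂.map y).reverse ++ [z, w])`, then the first part with
`z * w`... note that the first part needs an element of `e_α R e_β`: use it for `z` and multiply by `w` from
the right. -/
def St_Alp : Prop := ∀ (R : Type) [NonUnitalRing R] (s : ℕ) (e : Fin s → R), Hm e →
  ∀ (α β : Option (Fin s)), α ≠ β →
  (∀ ks ks' : List ℕ, ks.Perm ks' → ∃ ε : ℤ, (ε = 1 ∨ ε = -1) ∧ ∀ (y : ℕ → R) (z : R),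
    (∀ k ∈ ks, Jc e α α (y k)) → Jc e α β z →
    wp (ks.map y ++ [z]) = ε • wp (ks'.map y ++ [z])) ∧
  ∀ ks₁ ks₂ ks' : List ℕ, (ks₁ ++ ks₂).Perm ks' → ∃ ε : ℤ, (ε = 1 ∨ ε = -1) ∧
    ∀ (y : ℕ → R) (z w : R), (∀ k ∈ ks₁ ++ ks₂, Jc e α α (y k)) → Jc e α β z → Jc e β α w →
    wp (ks₁.map y ++ z :: w :: ks₂.map y) = ε • wp (ks'.map y ++ [z, w])

/-- **WCL** (from `St_Shp`, `St_Alp`, `St_Rul`, `St_Rut`, `St_Opc`, `St_Ops`).  PROOF.  `Hm` for `e_i = om n (t i)`: `CRL.fpr`, `CRL.jil`.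
`St_Shp` for the list of the `(α d.1, β d.1, d.2 (x d.1))` (`St_Opc`).  It remains: no index occurs twice
among the loops, and `d₁.1 ≠ d₃.1` in the last item.  Loops: let the index `k` occur twice, with `D₁ x_k`,
`D₂ x_k`, `D₁, D₂ ∈ Ops t α α`.  By alternation (as in `St_Alp`: exchange adjacent loops, and in the fourth item move
all loops to the left) the product is, up to sign, `(D₁ x_k) (D₂ x_k) z'` or `(D₁ x_k) (D₂ x_k) z' w` with
`z' ∈ e_α R e_β` nil, which is `0` by `St_Rut` (4).  For the second item (loops on the right) use the mirror image of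
`St_Rut` (4): `z' (D₁ a) (D₂ a) = 0` (same proof with `St_Rul` (2)).  Last item: `(D₁ x) y (D₃ x) = 0` for `x : α → β`,
`y : β → α` nil, `D₁, D₃ ∈ Ops t α β`: additively generated by products `L^a R^b`, and
`t^a x t^b y t^c x t^d = t^a (x (t^b y t^c) x) t^d = 0` (`St_Rul` (5)). -/
def St_Wcl : Prop := ∀ (n p : ℕ) (R : Type) [NonUnitalRing R] [Finite R], Cy R n p →
  ∀ (s : ℕ) (t : Fin s → R), Frame R n s t → ∀ (α β : ℕ → Option (Fin s)) (x : ℕ → R),
  (∀ k, Jc (fun i => om n (t i)) (α k) (β k) (x k)) → ∀ ds : List (Dsi R),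
  (∀ d ∈ ds, d.2 ∈ Ops t (α d.1) (β d.1)) → wp (ds.map fun d => d.2 (x d.1)) ≠ 0 →
  (∃ d ∈ ds, α d.1 ≠ β d.1) →
  (∃ (ds' : List (Dsi R)) (d : Dsi R), ds = ds' ++ [d] ∧ α d.1 ≠ β d.1 ∧ (∀ c ∈ ds', α c.1 = α d.1 ∧ β c.1 = α d.1) ∧
    (ds'.map Prod.fst).Nodup) ∨
  (∃ (d : Dsi R) (ds' : List (Dsi R)), ds = d :: ds' ∧ α d.1 ≠ β d.1 ∧ (∀ c ∈ ds', α c.1 = β d.1 ∧ β c.1 = β d.1) ∧
    (ds'.map Prod.fst).Nodup) ∨
  (∃ (d d' : Dsi R), ds = [d, d'] ∧ α d.1 ≠ β d.1 ∧ α d'.1 = β d.1 ∧ β d'.1 ≠ β d.1) ∨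
  (∃ (ds₁ : List (Dsi R)) (d d' : Dsi R) (ds₂ : List (Dsi R)), ds = ds₁ ++ d :: d' :: ds₂ ∧ α d.1 ≠ β d.1 ∧ α d'.1 = β d.1 ∧
    β d'.1 = α d.1 ∧ ds₁ ++ ds₂ ≠ [] ∧ (∀ c ∈ ds₁ ++ ds₂, α c.1 = α d.1 ∧ β c.1 = α d.1) ∧
    ((ds₁ ++ ds₂).map Prod.fst).Nodup) ∨
  ∃ (d₁ d₂ d₃ : Dsi R), ds = [d₁, d₂, d₃] ∧ α d₁.1 ≠ β d₁.1 ∧ α d₂.1 = β d₁.1 ∧ β d₂.1 = α d₁.1 ∧
    α d₃.1 = α d₁.1 ∧ β d₃.1 = β d₁.1 ∧ d₁.1 ≠ d₃.1

/-- **PLW.**  PROOF.  `ι j` is the entry `length - 1 - j` of `κ` for `j < length` (`κ.reverse`), anything otherwise;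
`pll a z m = a_(m-1) ... a_0 z = wp ([a_(m-1), ..., a_0] ++ [z])` by induction on `m` (or on `κ`). -/
def St_Plw : Prop := ∀ κ : List ℕ, κ.Nodup → ∃ ι : ℕ → ℕ,
  (∀ j, j < κ.length → ι j ∈ κ) ∧ (∀ k ∈ κ, ∃ j, j < κ.length ∧ ι j = k) ∧
  (∀ j, j < κ.length → ∀ j', j' < κ.length → ι j = ι j' → j = j') ∧
  ∀ (R : Type) [NonUnitalRing R] (x : ℕ → R) (z : R),
    pll (fun j => x (ι j)) z κ.length = wp (κ.map x ++ [z])

/-! ### Part E: from critical rings to the types -/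

/-- **FWX** (from `St_Opc`, `St_Prx`).  PROOF.  `CRL.pch`: homogeneous `v` with `φ v ≠ 0` (`Hv`); `t i = v i`,
`x k = v (s + k)`, so `vx t x = v`.  For `k = 0, ..., b - 1` replace `x_k` by a pure `D x_k` (`St_Prx` with
`Q y : φ (v[s+k := y]) ≠ 0`; additive: `Gb.add` for the nil elements `D x_k`, `D' x_k`), of the same type (`St_Opc`).
`x_k = 0` for `k ≥ b` is pure. -/
def St_Fwx : Prop := ∀ (n p : ℕ) (R : Type) [NonUnitalRing R] [Finite R], Cy R n p →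
  ∀ H : AddSubgroup R, Lst R H → ∀ (s b : ℕ) (φ : (ℕ → R) → R), Gc n s b H φ →
  ∃ (t : Fin s → R) (x : ℕ → R) (α β : ℕ → Option (Fin s)), Fw n p s b H φ t x α β

/-- **FWL.**  PROOF.  As in `CRL.thm_Bdd`: `CRL.thm_Wrx` with `K = {s + k | k < b}`: `φ v = ev L₀ v` if `Vec n s b v` (for
`A ⊆ K` nonempty `zr A v` satisfies `Vec` and has an entry `0`, `Ga.zer`).  Remove the words with a letter
`≥ s + b`: they are zero at `vx t y`. -/
def St_Fwl : Prop := ∀ (n p : ℕ) (R : Type) [NonUnitalRing R] [Finite R] (s b : ℕ)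
  (H : AddSubgroup R) (φ : (ℕ → R) → R) (t : Fin s → R) (x : ℕ → R) (α β : ℕ → Option (Fin s)),
  Fw n p s b H φ t x α β → ∃ L : List (ℤ × List ℕ), Lw s b L ∧
    ∀ y : ℕ → R, (∀ k, Nl (y k)) → (∀ k, b ≤ k → y k = 0) → φ (vx t y) = ev L (vx t y)

/-- **GNR** (from `St_Ops`).  The generation.  PROOF.  `S` contains the `t_i` and all `x_k = D' (D x_k)` (`St_Ops` (2)); if `S ≠ ⊤` then
`φ (vx t x) = 0` by `Gz.van`.  Purity: `E = D D₀` for `D ∈ O`: `D (D₀ x) = p D' x = p D' D₀' (D₀ x)`, or `D' (D D₀ x) = x` and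
`(D₀ D') (D (D₀ x)) = D₀ x`. -/
def St_Gnr : Prop :=
  (∀ (n p : ℕ) (R : Type) [NonUnitalRing R] [Finite R] (s b : ℕ)
    (H : AddSubgroup R) (φ : (ℕ → R) → R) (t : Fin s → R) (x : ℕ → R) (α β : ℕ → Option (Fin s)),
    Fw n p s b H φ t x α β → ∀ S : NonUnitalSubring R, (∀ i, t i ∈ S) → (∀ k, k < b → x k ∈ S) →
    S = ⊤) ∧
  ∀ (p : ℕ) (R : Type) [NonUnitalRing R] (s : ℕ) (t : Fin s → R) (α β : Option (Fin s)) (x : R),
    Pur p t α β x → ∀ D₀ ∈ Ops t α β, (∃ D' ∈ Ops t α β, D' (D₀ x) = x) → Pur p t α β (D₀ x)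

/-- **DOP** (from `St_Ops`, `St_Wxw`, `St_Wcl`, `St_Alp`).  PROOF.  For every word `l` of `L` there is `D_l ∈ Ops t A B` with
`wp (l.map (vx t y)) = D_l (Π y)` for all `y` as in the claim, `Π y = wp (κ.map y ++ [y k₀])`; then `D = ∑ c_l D_l`.
`St_Wxw` (`l` contains `s + k₀`): if the first alternative holds, `D_l = 0`.  Otherwise
`wp (l.map (vx t y)) = wp (ds.map (D_k (y k)))`, `ks = ds.map fst` contains exactly the `k < b` (`Lw`).  Case 1: `ks = ks' ++ [k₀]` with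
`ks'.Perm κ`.  On central loops `y` (`Lop`) every `D ∈ Ops t A A` acts as some `D° ∈ Ops t A none`
(`R_i y = L_i y`; closure induction); `(D° y) r = D° (y r)` and `y' D° r = D° (y' r)` for central loops `y'`
(`St_Ops` (4), (6)), so the product is `D₁° ... D_m° D₀ (wp (ks'.map y ++ [y k₀]))`, and `St_Alp`.  Case 2: otherwise
`D_l = 0`: if the product is `≠ 0` for some `y`, `St_Wcl` applies (`x = y`; `k₀` is the only index `< b` with `α k ≠ β k`, and
only indices `< b` occur): first item: `ds = ds' ++ [d]`, `d.1 = k₀`, the indices of `ds'` are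
different and not `k₀`, so `ks'.Perm κ`, a contradiction; second item: the loops are at `A ≠ B`, so `ds' = []`,
`ks = [k₀]`, `κ = []`, case 1; in the other items there are two non-loops with composable types, both would be
`k₀ : A → B`, a contradiction. -/
def St_Dop : Prop := ∀ (n p : ℕ) (R : Type) [NonUnitalRing R] [Finite R], Cy R n p →
  ∀ (s b : ℕ) (t : Fin s → R), Frame R n s t → ∀ (L : List (ℤ × List ℕ)), Lw s b L →
  ∀ (α β : ℕ → Option (Fin s)) (A B : Option (Fin s)) (k₀ : ℕ) (κ : List ℕ), A ≠ B → k₀ < b →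
    α k₀ = A → β k₀ = B → (∀ k, k < b → k ≠ k₀ → α k = A ∧ β k = A) → κ.Nodup →
    (∀ k, k ∈ κ ↔ k < b ∧ k ≠ k₀) → ∃ D ∈ Ops t A B, ∀ y : ℕ → R, (∀ k ∈ κ, Lop n t A (y k)) →
      Jc (fun i => om n (t i)) A B (y k₀) → (∀ k, b ≤ k → y k = 0) →
      ev L (vx t y) = D (wp (κ.map y ++ [y k₀]))

/-- **DOL** (from `St_Ops`, `St_Wxw`, `St_Wcl`, `St_Alp`, `St_Rul`).  The same for the fourth shape, `B = none`, `A = some i`.  PROOF.
As `St_Dop`: it is enough to find `D_l ∈ Ops t A none` with `wp (l.map (vx t y)) = D_l (Π y)`, `Π y = wp (κ.map y ++ [y k₁, y k₂])`.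
`St_Wxw`: `ds`, `ks = ds.map fst`.  Case 1: `ks = ks₁ ++ [k₁, k₂] ++ ks₂` with `(ks₁ ++ ks₂).Perm κ`.  The loop factors are
`D (y k) = D° (y k)`, `D° ∈ Ops t A none`; the factor `D (y k₁)` has `D ∈ Ops t A none`, the factor of `k₂` is
`D (y k₂)` with `D ∈ Ops t none A`, a combination of the `(y k₂) t^c`.  Central loops `a`: `x w a = - a x w` for all
`w ∈ e_B R e_A` nil (`St_Rul` (4)); so move the factors on the right of `k₂` to the left, then take out the operators: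
the product is `± D'' (Π y) t^c`-combination.  Finally `(a x w) t = t (a x w)` for a central loop `a`:
`t a x w = (t a) x w = - x w (t a) = - x (w t) a = a x w t` (`St_Rul` (4) for `t a` and for `w t`), and `κ ≠ []`
(move `t` through the other central loops on the left); so the right
multiplications by `t` can be replaced by `L_i`.  Case 2: as in `St_Dop` (`St_Wcl`: only the fourth item is
possible; the loops are at `A`, so `d.1 = k₁`, `d'.1 = k₂`). -/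
def St_Dol : Prop := ∀ (n p : ℕ) (R : Type) [NonUnitalRing R] [Finite R], Cy R n p →
  ∀ (s b : ℕ) (t : Fin s → R), Frame R n s t → ∀ (L : List (ℤ × List ℕ)), Lw s b L →
  ∀ (α β : ℕ → Option (Fin s)) (i : Fin s) (k₁ k₂ : ℕ) (κ : List ℕ), k₁ < b → k₂ < b →
    α k₁ = some i → β k₁ = none → α k₂ = none → β k₂ = some i →
    (∀ k, k < b → k ≠ k₁ → k ≠ k₂ → α k = some i ∧ β k = some i) → κ.Nodup → κ ≠ [] →
    (∀ k, k ∈ κ ↔ k < b ∧ k ≠ k₁ ∧ k ≠ k₂) → ∃ D ∈ Ops t (some i) none, ∀ y : ℕ → R,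
      (∀ k ∈ κ, Lop n t (some i) (y k)) → Jc (fun i => om n (t i)) (some i) none (y k₁) →
      Jc (fun i => om n (t i)) none (some i) (y k₂) → (∀ k, b ≤ k → y k = 0) →
      ev L (vx t y) = D (wp (κ.map y ++ [y k₁, y k₂]))

/-- **FCT** (from `St_Ops`, `St_Opc`, `St_Twi`, `St_Ivc`, `St_Rul`, `St_Rut`, `St_Wxw`, `St_Wcl`, `St_Alp`, `St_Plw`, `St_Fwl`, `St_Gnr`, `St_Dop`).
PROOF.  `A = α k₀`, `B = β k₀`, `κ` the list of the `k < b`, `k ≠ k₀`, `m = b - 1` its length.  `L` from `St_Fwl`; some word `l` of `L` is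
`≠ 0` at `vx t x`; `St_Wxw`, `St_Wcl`: as in `St_Dop` `ds = ds' ++ [d]`, `d.1 = k₀`, `(ds'.map fst).Perm κ`.
(1) `m ≥ 2`, `A = some i`: every `x_k`, `k ∈ κ`, commutes with `t_i`: otherwise `D (x_k t_i - t_i x_k) = x_k` with
`D ∈ Ops t A A` (`St_Twi`).  Move the factor `D_k x_k` of the word in front of another loop factor `a'` followed by
`z'` (`St_Alp`, `z' ∈ e_A R e_B` the product of the rest); `D_k x_k = D_k D (x_k t_i - t_i x_k)` is a combination of the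
`t^c (x_k t_i - t_i x_k) t^d`, and `(x_k t_i - t_i x_k) (t^d a') z' = 0` (`St_Rut` (1)).  So the word is `0`, a contradiction.
(2) `m = 1`, `A = some i`, and `x_k` (`κ = [k]`) does not commute with `t_i`: `TyV` with `z = D_k x_k`, `z' = D₀ x_(k₀)`:
pure (`St_Gnr`), `z` does not commute with `t_i` (otherwise `x_k = D' z` does), generation: `St_Gnr`.
(3) Otherwise all `x_k`, `k ∈ κ`, are central loops (`Lop`; no condition if `A = none`).  `St_Dop` for `L`: `D`.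
`Π = wp (κ.map x ++ [x k₀])`, `D Π = φ (vx t x) ≠ 0`, so `Π ≠ 0`.  `TyT` with `z = x k₀`, `a j = x (ι j)` (`St_Plw`).
`Pcd`: let `A = some i` and `p Π = 0`; let `k = ι j ∈ κ`, `y = x[k := p e_i]` (`p e_i` is nil: its cube is `p^3 e_i`, and `p e_i`
is in the ideal `J`: `(p e_i)^r = 0` so `p e_i` is not invertible in `e_i R e_i`, `CRL.thm_Prl`; central).  `Gc.cf`: `φ (vx t y) = 0`
(`p e_i` is in the subring generated by `t_i`), so `D (Π y) = 0`.  `St_Ivc` for `z = x k₀` and `D`: in the first case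
`D Π = wp (κ.map x ++ [D z]) = p D' Π = 0` (`St_Ops` (6)), a contradiction; in the second case
`Π y = wp (κ.map y ++ [D' (D z)]) = D' (D (Π y)) = 0`.  `Π y = pll (update a j (p e_i)) z m` (injectivity of `ι`). -/
def St_Fct : Prop := ∀ (n p : ℕ) (R : Type) [NonUnitalRing R] [Finite R] (s b : ℕ)
  (H : AddSubgroup R) (φ : (ℕ → R) → R) (t : Fin s → R) (x : ℕ → R) (α β : ℕ → Option (Fin s)),
  Fw n p s b H φ t x α β → ∀ k₀, k₀ < b → α k₀ ≠ β k₀ →
    (∀ k, k < b → k ≠ k₀ → α k = α k₀ ∧ β k = α k₀) → TyT R n ∨ TyV R n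

/-- **FCL** (from `St_Ops`, `St_Opc`, `St_Twi`, `St_Ivc`, `St_Rul`, `St_Rut`, `St_Wxw`, `St_Wcl`, `St_Alp`, `St_Plw`, `St_Fwl`, `St_Gnr`, `St_Dol`).
PROOF.  `A = α k₁`, `B = β k₁`, `κ` the list of the other `k < b`, `m = b - 2 ≥ 1`.  As in `St_Fct` some word is
`≠ 0` at `x`; by `St_Wcl` it is of the fourth shape with `d.1 = k₁`, `d'.1 = k₂` and `((ds₁ ++ ds₂).map fst).Perm κ` (the
other shapes do not contain loops and two non-loops).  (1) `A = some i`: every `x_k`, `k ∈ κ`, commutes with `t_i`: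
otherwise (`St_Twi`) move its factor to the right end of the loops (`St_Alp`, second part, with `ks'` ending
with `k`): `... (D_k x_k) z w`, and `D_k x_k = D_k D (x_k t - t x_k)`, `(x_k t - t x_k) (t^d z) w = 0` (`St_Rut` (3)).
(2) So the word is, up to invertible operators and sign, `(∏ x_k) (D₁ x_(k₁)) (D₂ x_(k₂))`, `≠ 0`.  Let `x' = D₁ x_(k₁)` and
`y' = D₂ x_(k₂)` if `B = some j` (pure, `St_Gnr`).  `TyL` with `x', y'`, `a j = x (ι j)`: product `≠ 0`.  `Pcd`: `p x' y' = x' (p e_j) y' = 0`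
(`St_Rul` (4); `p e_j` is a nil loop at `B`), so every product with `p e_i` in the place of a factor is `0`.
(3) `B = none`, `A = some i`: `St_Dol`: `D`, `Π = wp (κ.map x ++ [x k₁, x k₂])`, `D Π = φ ≠ 0`; `TyL` with `x k₁`, `x k₂`;
`Pcd` as in `St_Fct` with `St_Ivc` for `x k₁` (`Ops t (some i) none`, `D (a x y) = a (D x) y`).
(4) `B = none` and `A = none` is impossible; `A = none`: `B = some j`, case (2) without conditions. -/
def St_Fcl : Prop := ∀ (n p : ℕ) (R : Type) [NonUnitalRing R] [Finite R] (s b : ℕ)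
  (H : AddSubgroup R) (φ : (ℕ → R) → R) (t : Fin s → R) (x : ℕ → R) (α β : ℕ → Option (Fin s)),
  Fw n p s b H φ t x α β → ∀ k₁ k₂, k₁ < b → k₂ < b → α k₁ ≠ β k₁ → α k₂ = β k₁ →
    β k₂ = α k₁ → 3 ≤ b → (∀ k, k < b → k ≠ k₁ → k ≠ k₂ → α k = α k₁ ∧ β k = α k₁) → TyL R n

/-- **FCV** (from `St_Ops`, `St_Opc`, `St_Gnr`).  Third and fifth shape.  PROOF.  `z = d.2 (x d.1)` etc. are pure (`St_Gnr`), nil, of the
given types (`St_Opc`); the subring generated by `t` and these elements contains all `x_k`, `k < b` (invertible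
operators), so it is `⊤` (`St_Gnr`). -/
def St_Fcv : Prop := ∀ (n p : ℕ) (R : Type) [NonUnitalRing R] [Finite R] (s b : ℕ)
  (H : AddSubgroup R) (φ : (ℕ → R) → R) (t : Fin s → R) (x : ℕ → R) (α β : ℕ → Option (Fin s)),
  Fw n p s b H φ t x α β → ∀ ds : List (Dsi R),
  (∀ d ∈ ds, d.2 ∈ Ops t (α d.1) (β d.1) ∧ ∃ D' ∈ Ops t (α d.1) (β d.1), D' (d.2 (x d.1)) = x d.1) →
  (∀ k, k < b → k ∈ ds.map Prod.fst) → wp (ds.map fun d => d.2 (x d.1)) ≠ 0 →
  ((∃ (d d' : Dsi R), ds = [d, d'] ∧ α d.1 ≠ β d.1 ∧ α d'.1 = β d.1 ∧ β d'.1 ≠ β d.1) → TyV R n) ∧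
  ((∃ (d₁ d₂ d₃ : Dsi R), ds = [d₁, d₂, d₃] ∧ α d₁.1 ≠ β d₁.1 ∧ α d₂.1 = β d₁.1 ∧ β d₂.1 = α d₁.1 ∧
    α d₃.1 = α d₁.1 ∧ β d₃.1 = β d₁.1 ∧ d₁.1 ≠ d₃.1) → TyE R n)

/-- **FCN** (from `St_Wxw`, `St_Fwl`, `St_Gnr`).  Only loops.  PROOF.  `CRL.alv` (for `v = vx t x`, `Hv`).  `b = 0`: `s = 1`, `R` is generated
by `t_0` (`St_Gnr`), `e_0` is the identity (`CRL.fpr`).  `b ≥ 1`: `L` from `St_Fwl`, a word `≠ 0` at `x`, `St_Wxw`: a
product `≠ 0` of factors of types `(α k, α k)` in which all `k < b` occur; consecutive factors have the same vertex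
(`CRN.thm_Pca`), so all `α k = u`, `k < b`.  By `CRL.alv` every `some i` is one of them, so `s ≤ 1`.  `u = none`:
`s = 0`, `R` is generated by the nil elements `x_k`, `J` is an ideal, so all elements are nil.  `u = some i`: `s = 1`,
`e_i` acts as identity on all generators, and it is primitive (`CRL.fpr`). -/
def St_Fcn : Prop := ∀ (n p : ℕ) (R : Type) [NonUnitalRing R] [Finite R] (s b : ℕ)
  (H : AddSubgroup R) (φ : (ℕ → R) → R) (t : Fin s → R) (x : ℕ → R) (α β : ℕ → Option (Fin s)),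
  Fw n p s b H φ t x α β → (∀ k, k < b → α k = β k) → LN R

/-- **FOP.**  The opposite ring.  PROOF.  `H' = {op h | h ∈ H}`, `φ' v = op (φ (fun i => unop (v i)))`.  Term functions: reverse the
products in the term (induction; see `CRN.thm_Opp`).  Frames, nil elements, `om n`, `Pc` (with `α, β` exchanged),
subrings, ideals are preserved.  `D ∈ Ops t α β` corresponds to `D' ∈ Ops (op t) β α` with `D' (op x) = op (D x)`
(generators: `L_i` corresponds to the multiplication by `op t_i` from the right). -/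
def St_Fop : Prop := ∀ (n p : ℕ) (R : Type) [NonUnitalRing R] [Finite R] (s b : ℕ)
  (H : AddSubgroup R) (φ : (ℕ → R) → R) (t : Fin s → R) (x : ℕ → R) (α β : ℕ → Option (Fin s)),
  Fw n p s b H φ t x α β → ∃ (H' : AddSubgroup Rᵐᵒᵖ) (φ' : (ℕ → Rᵐᵒᵖ) → Rᵐᵒᵖ),
    Fw n p s b H' φ' (fun i => MulOpposite.op (t i)) (fun k => MulOpposite.op (x k)) β α

/-- **FWP** (from `St_Fwx`, `St_Fwl`, `St_Wxw`, `St_Wcl`, `St_Fct`, `St_Fcl`, `St_Fcv`, `St_Fcn`, `St_Fop`).  PROOF.  `CRN.thm_Sir`: `H`;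
`CRL.sel`: `Gc n s b H φ`; `St_Fwx`.  If all `α k = β k`, `k < b`: `St_Fcn`.  Otherwise `b ≥ 1`; `St_Fwl`, a word `l` with
value `≠ 0` at `vx t x`; `St_Wxw` (second alternative); the indices of `ds` are exactly the `k < b`.  `St_Wcl`: first
item: `St_Fct` with `k₀ = d.1`.  Second item: `St_Fop` and `St_Fct` for `Rᵐᵒᵖ`.  Third and fifth: `St_Fcv`.  Fourth:
`St_Fcl` with `k₁ = d.1`, `k₂ = d'.1` (`b ≥ 3` because `ds₁ ++ ds₂ ≠ []` has indices different from `k₁`, `k₂`: they are loops). -/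
def St_Fwp : Prop := ∀ (n p : ℕ) (R : Type) [NonUnitalRing R] [Finite R], Cy R n p → Critical R →
  PthType R n ∨ PthType Rᵐᵒᵖ n ∨ LN R

end Pool.Agent.CRM
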