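import Pool.Agent.CRM.Defs3
import Pool.Agent.CRM.Stb

/-!
Campaign CRM (problem MP_1bb14d_al, stage 4).  Frozen statements, part 3: the rings of the types are
critical.

Every module `Pool/Agent/CRM/<X>.lean` for a statement of this file imports this file and proves
`theorem thm_<X> : St_<X>`; see the header of `St.lean` for the rules.  The statements of `St.lean` and
`Stb.lean` are also being proved in this campaign and may be used as hypotheses if they are named in the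
docstring.

Notation of the docstrings: `e_i = om n (t i)`, `J` the nil elements, `R_γδ = {x | Pc e γ δ x}`, `J_γδ = {x | Jc e γ δ x}`,
`W = NonUnitalSubring.closure (Set.range t)`, `Π = pll a z m` or `pll a (x * y) m`, `C = Cs n p t α m a`; `Hm e` holds
(`CRL.fpr`, `CRL.jil`).  `p e_i` is a nil element of `R_ii` which commutes with `t_i` (it is nilpotent and
`CRL.thm_Prl`).  Rules: `St_Rul`, `St_Rum`, `St_Ruu`.
-/

set_option autoImplicit false

namespace Pool.Agent.CRM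

open Pool.Agent.CRR Pool.Agent.CRN Pool.Agent.CRK Pool.Agent.CRL

/-! ### Part F: general lemmas -/

/-- **WST** (from `St_Ops`, `St_Wpj`).  PROOF.  (1) `NonUnitalSubring.closure_induction`: `t_i = L_i e_i`, `e_i t_j = 0 = t_j e_i` for
`j ≠ i`; products: `(D e_i)(D' e_i) = D D' e_i` (`St_Ops` (4), `D' e_i ∈ e_i R`).  (2) `w = ∑ e_i w`; multiply by `e_γ`, `e_δ`.
(3) `w = p w'` (`St_Wpj`), `w = e_i w = p e_i w' = p D e_i` by (1) for `w'`.  (4) `Nl`: the cube is `p^3 e_i = 0`: `p e_i` is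
nilpotent in `e_i R e_i`, so it is not invertible, `CRL.thm_Prl`. -/
def St_Wst : Prop := ∀ (n p : ℕ) (R : Type) [NonUnitalRing R] [Finite R], Cy R n p →
  ∀ (s : ℕ) (t : Fin s → R), Frame R n s t →
  (∀ w ∈ NonUnitalSubring.closure (Set.range t), ∀ i, om n (t i) * w = w * om n (t i) ∧
    ∃ D ∈ Ops t (some i) none, om n (t i) * w = D (om n (t i))) ∧
  (∀ w ∈ NonUnitalSubring.closure (Set.range t), ∀ γ δ : Option (Fin s), (γ ≠ δ ∨ γ = none) →
    Pc (fun i => om n (t i)) γ δ w → w = 0) ∧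
  (∀ w ∈ NonUnitalSubring.closure (Set.range t), ∀ i : Fin s,
    Jc (fun i => om n (t i)) (some i) (some i) w →
    ∃ D ∈ Ops t (some i) none, w = D (p • om n (t i))) ∧
  ∀ i, Lop n t (some i) (p • om n (t i))

/-- **EXG.**  Exchange.  PROOF.  Claim for `r ≤ m`, by induction: there are `b : ℕ → R` and an injective
`τ : {0, ..., r-1} → {0, ..., m-1}` with `b (τ j) = y j` for `j < r`, `b k = a k` for the other `k < m`, such that every
`w ∈ N` is `∑_(k<m) μ_k (b k)` modulo `G` with `μ_k ∈ O`, `O = Ops t α none`.  `r = 0`: `hsp`.  Step: `y r = ∑ ν_k (b k) + g`; by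
additivity `F y = ∑_k F (y[r := ν_k (b k)]) + F (y[r := g])`, the last is `0` (`hG`), and the items with `k = τ j`, `j < r`
are `0` (`halt`: the entries `j` and `r` are `y j` and `ν_k (y j)`).  So `F (y[r := ν_k (a k)]) ≠ 0` for some `k` not in the
image of `τ`; so `ν_k (a k) ∉ G` (`hG`), and by `hinv` `D' ν_k w = w` on `N` for some `D' ∈ O`:
`a k = D' (y r - ∑_(k' ≠ k) ν_k' (b k') - g)`, `D' g ∈ G`.  Put `τ r = k`.  `r = m`: `τ` is bijective. -/
def St_Exg : Prop := ∀ (R : Type) [NonUnitalRing R] (s : ℕ) (t : Fin s → R) (α : Option (Fin s))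
  (m : ℕ) (N G : AddSubgroup R) (F : (ℕ → R) → R) (a y : ℕ → R), G ≤ N →
  (∀ D ∈ Ops t α none, (∀ w ∈ N, D w ∈ N) ∧ ∀ g ∈ G, D g ∈ G) →
  (∀ D ∈ Ops t α none, (∀ w ∈ N, D w ∈ G) ∨ ∃ D' ∈ Ops t α none, ∀ w ∈ N, D' (D w) = w) →
  (∀ (v : ℕ → R) (j : ℕ) (u w : R), j < m → (∀ k, k < m → v k ∈ N) → u ∈ N → w ∈ N →
    F (Function.update v j (u + w)) = F (Function.update v j u) + F (Function.update v j w)) →
  (∀ (v : ℕ → R) (j j' : ℕ), j < m → j' < m → j ≠ j' → (∀ k, k < m → v k ∈ N) →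
    (∃ D ∈ Ops t α none, v j' = D (v j)) → F v = 0) →
  (∀ (v : ℕ → R) (j : ℕ), j < m → (∀ k, k < m → v k ∈ N) → v j ∈ G → F v = 0) →
  (∀ k, k < m → a k ∈ N) →
  (∀ w ∈ N, ∃ μ : ℕ → AddMonoid.End R, (∀ k, μ k ∈ Ops t α none) ∧
    w - ∑ k ∈ Finset.range m, μ k (a k) ∈ G) →
  (∀ k, k < m → y k ∈ N) → F y ≠ 0 →
  ∀ w ∈ N, ∃ μ : ℕ → AddMonoid.End R, (∀ k, μ k ∈ Ops t α none) ∧
    w - ∑ k ∈ Finset.range m, μ k (y k) ∈ G

/-- **GBP** (from `St_Cnj`).  PROOF.  `CRL.bkw`: it is enough to show `Gb n s b H φ` for `φ = Pf n s b q γ δ tw`.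
`tm`: `TmF` (`om`, `mul`, `sub`, sums; `wp` of a list; `q •`).  `dep`, `zer`, `add`: direct (`pj` is additive in `x`, depends only
on the `v i`, `i < s`; a product of a list is additive in every factor).  `ne`: hypothesis.  `val`, `sq`, `van`: let
`Vec n s b v`, `t' i = v i`.  `St_Cnj`: `θ`, `π`; `v' = θ ∘ v` satisfies `Vec` (`Frame`, `Nl` are preserved by automorphisms)
and `Sam n s t v'`, and `φ v' = θ (φ v)` (`TmF.map`).  `H` is invariant under `θ⁻¹`: `{h | θ⁻¹ h ∈ H}` is a nonzero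
ideal, so it contains `H`.  `van`: apply the hypothesis to the image of `S` under `θ`. -/
def St_Gbp : Prop := ∀ (n p : ℕ) (R : Type) [NonUnitalRing R] [Finite R], Cy R n p →
  ∀ H : AddSubgroup R, Lst R H → ∀ (s : ℕ) (t : Fin s → R), Frame R n s t →
  ∀ (b q : ℕ) (γ δ : ℕ → Option (Fin s)) (tw : ℕ → Bool), 1 ≤ b →
  (∀ v : ℕ → R, Vec n s b v → Sam n s t v → Pf n s b q γ δ tw v ∈ H ∧
    (∀ k, k < b → ∀ y z, Nl y → Nl z →
      Pf n s b q γ δ tw (Function.update v (s + k) (y * z)) = 0) ∧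
    ∀ S : NonUnitalSubring R, S ≠ ⊤ → (∀ i, i < s + b → v i ∈ S) → Pf n s b q γ δ tw v = 0) →
  (∃ v : ℕ → R, Vec n s b v ∧ Pf n s b q γ δ tw v ≠ 0) → Critical R

/-! ### Part G: the type T -/

/-- **SPT** (from `St_Ops`, `St_Opc`, `St_Wst`).  PROOF.  `N₀` the group generated by the `D (pll c c₀ l)`, `D ∈ Ops t α none`,
`c_j, c₀ ∈ {a_k | k < m}`; `M₀` the group generated by the `D (pll c z l)`, `D ∈ Ops t α β`.  `Y = W + N₀ + M₀` is a subring:
the `a_k` commute with `t_α`, so `(D u)(D' u') = D D' (u u')`, `(D u) t_i = L_i D u` (`α = i`, otherwise `0`), `N₀ M₀ ⊆ M₀`,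
`M₀ t_j ⊆ M₀`, `M₀ M₀ = 0 = M₀ N₀` (`α ≠ β`), `t_i M₀ ⊆ M₀`.  It contains the generators (`l = 0`), so `Y = R`.  Let `x ∈ R_γδ`,
`x = w + u + v`; multiply by `e_γ`, `e_δ` from the left and right (`e_none x = x - ∑ e_i x`): (1) `γ = α`, `δ = β`: `x = v`.  (4):
`x = 0` (`St_Wst` (2)).  (2) `x ∈ J_αα`: `x = w' + u`, `w'` the component of `w`, nil; `α = none`: `w' = 0`; `α = some i`:
`w' = D (p e_i)` (`St_Wst` (3)), `p e_i ∈ C`.  (3) `x ∈ J_ββ`: `x = w'`; `β = none`: `x = 0`; `β = some j`: `x = D (p e_j) = p D e_j`.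
(5) `x = w + u + v ∈ Y` nil: `u`, `v` are nil, so `w` is. -/
def St_Spt : Prop := ∀ (n p s : ℕ) (R : Type) [NonUnitalRing R] [Finite R] (t : Fin s → R)
  (H : AddSubgroup R) (α β : Option (Fin s)) (m : ℕ) (a : ℕ → R) (z : R),
  Tdt n p s t H α β m a z →
  (∀ x, Pc (fun i => om n (t i)) α β x → x ∈ AddSubgroup.closure {w | ∃ D ∈ Ops t α β,
    ∃ (l : ℕ) (c : ℕ → R), (∀ j, j < l → c j ∈ Cs n p t α m a) ∧ w = D (pll c z l)}) ∧
  (∀ x, Jc (fun i => om n (t i)) α α x → x ∈ AddSubgroup.closure {w | ∃ D ∈ Ops t α none,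
    ∃ (l : ℕ) (c : ℕ → R) (c₀ : R), (∀ j, j < l → c j ∈ Cs n p t α m a) ∧
      c₀ ∈ Cs n p t α m a ∧ w = D (pll c c₀ l)}) ∧
  (∀ x, Jc (fun i => om n (t i)) β β x → ∃ w, Pc (fun i => om n (t i)) β β w ∧ x = p • w) ∧
  (∀ γ δ x, γ ≠ δ → ¬ (γ = α ∧ δ = β) → Pc (fun i => om n (t i)) γ δ x → x = 0) ∧
  ∀ x, Nl x → ∃ w ∈ NonUnitalSubring.closure (Set.range t), Nl w ∧ ∃ u v,
    Jc (fun i => om n (t i)) α α u ∧ Jc (fun i => om n (t i)) α β v ∧ x = w + u + v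

/-- **FAI** (from `St_Spt`, `St_Wst`, `St_Rul`).  PROOF.  `M = R_αβ` is an ideal `≠ 0` (`St_Spt` (4): for `r ∈ R`, `x ∈ M`: `r x` is the
sum of the products of the components of `r` in `R_γα` with `x`, and `R_γα = 0` for `γ ≠ α`), so `H ≤ M`.
`K = {y ∈ R_αα | y x = 0 for all x ∈ M}` is an ideal (`r y` for `r ∈ R_αα`; `y r` for `r ∈ R_αα`: `y (r x) = 0`; for
`r ∈ M`: `y r = 0`), and `K ∩ M = 0` (`α ≠ β`), so `K = 0` (otherwise `H ≤ K ⊓ M`).  (2) `α = none`, so `β = some j`: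
`(p y) x = y x (p e_j) = 0` for `x ∈ M` (`St_Rul` (3), `St_Wst` (4)), so `p y ∈ K`. -/
def St_Fai : Prop := ∀ (n p s : ℕ) (R : Type) [NonUnitalRing R] [Finite R] (t : Fin s → R)
  (H : AddSubgroup R) (α β : Option (Fin s)) (m : ℕ) (a : ℕ → R) (z : R),
  Tdt n p s t H α β m a z →
  (∀ y, Pc (fun i => om n (t i)) α α y → (∀ x, Pc (fun i => om n (t i)) α β x → y * x = 0) →
    y = 0) ∧
  (α = none → ∀ y, Jc (fun i => om n (t i)) α α y → p • y = 0)

/-- **TQQ** (from `St_Alp`, `St_Rul`, `St_Wst`, `St_Plw`).  PROOF.  All letters of `C` are central loops (`Lop`; `St_Wst` (4)).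
(i) `pll c z l = 0` if `c_j = c_j'` for some `j < j' < l` (exchange adjacent factors, `St_Rul` (1)); a permutation of
the `c_j` changes only the sign.  So the `a_k`, `k < m`, are different.  (ii) `p^2 x = 0` for `x ∈ J_αβ`: `α = some i`:
`(p e_i)(p e_i) x = 0` (`St_Rul` (1)); `α = none`, `β = some j`: `x (p e_j)(p e_j) = 0` (`St_Rul` (2)).  Let `q = p` if
`p Π ≠ 0`, `q = 1` otherwise; so `q Π ≠ 0`, `p q Π = 0`.  If `p Π = 0` and `α = some i` then by `Pcd` all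
`Π_k = pll (update a k (p e_i)) z m = 0`.  (iii) Let `c_j ∈ C` for `j < l`, all different.  `C` has at most `m + 1`
elements (`m` if `α = none`), so `l ≤ m + 1`; if `l = m + 1` then `α = some i` and the `c_j` are the `a_k` and `p e_i`, so
`pll c z l = ± p Π` and `q (± p Π) = 0`.  (iv) `l = m`, all `c_j` different.  If none of them is `p e_i`, they are the
`a_k`: `± Π`.  If one of them is `p e_i` then the others are `m - 1` of the `a_k`, all except one `a_k`, and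
`pll c z m = ± Π_k`: `q Π_k = 0`: if `q = 1` by `Pcd`; if `q = p`: `Π_k = p (...)` and (ii). -/
def St_Tqq : Prop := ∀ (n p s : ℕ) (R : Type) [NonUnitalRing R] [Finite R] (t : Fin s → R)
  (H : AddSubgroup R) (α β : Option (Fin s)) (m : ℕ) (a : ℕ → R) (z : R),
  Tdt n p s t H α β m a z → ∃ q : ℕ, Tq n p s t α m a z q

/-- **TEX** (from `St_Ops`, `St_Spt`, `St_Wst`).  PROOF.  `pll y z' l` is additive in every `y_j` and in `z'`.  By `St_Spt` we may take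
`y_j = D_j (u_j)`, `u_j = pll c c₀ l_j` a product of `l_j + 1 ≥ 1` letters of `C`, and `z' = D (pll c' z l')`.  The letters
commute with `t_α`, so `y_j x = D_j (u_j x)` and `u_j D x = D u_j x`, and `pll y z' l = D'' (pll c'' z L)`, `D'' ∈ Ops t α β`,
with `L ≥ l` letters; `L = l` only if all `l_j = 0` and `l' = 0`.  (1) `L ≥ l > m`: `Tq.gt`.  (2) `L > m`: `Tq.gt`; `L = m`: `Tq.eq` and
`Tq.pz`.  (3) `y_k ∈ W` nil: `y_k = D (p e_i)` (`St_Wst` (3); `0` if `α = none`, `St_Wst` (2)); only the other `y_j` and `z'` are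
expanded: `Tq.gt` or `Tq.pe`. -/
def St_Tex : Prop := ∀ (n p s : ℕ) (R : Type) [NonUnitalRing R] [Finite R] (t : Fin s → R)
  (H : AddSubgroup R) (α β : Option (Fin s)) (m : ℕ) (a : ℕ → R) (z : R),
  Tdt n p s t H α β m a z → ∀ q, Tq n p s t α m a z q → ∀ (y : ℕ → R) (z' : R),
  Jc (fun i => om n (t i)) α β z' →
  (∀ l, m < l → (∀ j, j < l → Jc (fun i => om n (t i)) α α (y j)) → q • pll y z' l = 0) ∧
  ((∀ j, j < m → Jc (fun i => om n (t i)) α α (y j)) → p • (q • pll y z' m) = 0 ∧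
    ((∃ k, k < m ∧ y k ∈ NonUnitalSubring.closure (Set.range t)) → q • pll y z' m = 0))

/-- **TVA** (from `St_Spt`, `St_Tex`, `St_Soc`).  PROOF.  `v = q • pll y z' m ∈ R_αβ` (if `m = 0` it is `q z'`).  Let `x` be nil; its
components are nil.  `x v`: the components of `x` in `R_γα`, `γ ≠ α`, are `0` (`St_Spt` (4)), that in `J_αα` gives `0`
(`St_Tex` (1) with `l = m + 1`, the new factor on the left).  `v x`: components in `R_βδ`, `δ ≠ β`, are `0`; in `J_ββ`: `p w`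
(`St_Spt` (3)), `v (p w) = (p v) w = 0` (`St_Tex` (2)).  `p v = 0`.  `St_Soc`: `v ∈ H`.  `y_k = u w` with `u, w ∈ J_αα`: `pll y z' m` is
`pll y' z' (m+1)` with `y'` = `y` with `u, w` in the place of `y_k` (`St_Tex` (1)).  `z' = u w`, `u ∈ J_αα`, `w ∈ J_αβ`: in the same
way.  `z' = u w`, `u ∈ J_αβ`, `w ∈ J_ββ`: `w = p w'`: `p (q • pll y u m) w' = 0`. -/
def St_Tva : Prop := ∀ (n p s : ℕ) (R : Type) [NonUnitalRing R] [Finite R] (t : Fin s → R)
  (H : AddSubgroup R) (α β : Option (Fin s)) (m : ℕ) (a : ℕ → R) (z : R),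
  Tdt n p s t H α β m a z → ∀ q, Tq n p s t α m a z q → ∀ (y : ℕ → R) (z' : R),
  (∀ j, j < m → Jc (fun i => om n (t i)) α α (y j)) → Jc (fun i => om n (t i)) α β z' →
  q • pll y z' m ∈ H ∧
  (∀ k, k < m → ∀ u w, Jc (fun i => om n (t i)) α α u → Jc (fun i => om n (t i)) α α w →
    y k = u * w → q • pll y z' m = 0) ∧
  (∀ u w, Jc (fun i => om n (t i)) α α u → Jc (fun i => om n (t i)) α β w → z' = u * w →
    q • pll y z' m = 0) ∧
  ∀ u w, Jc (fun i => om n (t i)) α β u → Jc (fun i => om n (t i)) β β w → z' = u * w →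
    q • pll y z' m = 0

/-- **TVN** (from `St_Ops`, `St_Opc`, `St_Inv`, `St_Ivc`, `St_Rul`, `St_Rut`, `St_Nac`, `St_Wst`, `St_Exg`, `St_Spt`, `St_Fai`, `St_Tex`).
PROOF.  (1) `St_Exg` with `N = J_αα`, `G` the group generated by the `u w` (`u, w ∈ J_αα`) and the nil elements of `W` in
`R_αα`, `F v = q • pll v z' m`.  `hinv`: `α = some i`: `St_Inv`: `D e_i` nil: `D w = (D e_i) w ∈ G`; `α = none`: `D` is the multiplication
by an integer `c` (`Ops t none none`); if `p ∣ c` then `D w = 0` (`St_Fai` (2)), otherwise `c c' ≡ 1` modulo `p^r`.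
`halt`: `v j' = D (v j)`: exchange adjacent loops (`St_Rul` (1)) until both are at the left end, then `St_Rut` (4)
(`Ops t α none ≤ Ops t α α`).  `hG`: `v j = u w` by `St_Tex` (1), `v j ∈ W` by `St_Tex` (2).  `hsp`: `St_Spt` (2): `D (pll c c₀ l)` with `l ≥ 1`
is in `G`, with `l = 0`: `c₀ = a_k`: `D (a_k)`; `c₀ = p e_i`: in `W`.  So every `w ∈ J_αα` is `∑ μ_k (y_k)` modulo `G`, so
`w ∈ S + J2 R` with a nil element of `S` (`St_Ops` (2), `W ⊆ S`).  (2) `z' = D z + r`, `r` in the group generated by the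
products of `J_αα` and `J_αβ` (`St_Spt` (1)); `q • pll y r m = 0` (`St_Tex` (1)), so `q • pll y (D z) m ≠ 0`, so `D z ≠ p D' z` for all
`D' ∈ O` (`St_Tex` (2)), and `D' D z = z` for some `D'` (purity): `z = D' z' - D' r`, `D' r ∈ J2 R` (`St_Ops` (3): `J2 R` is
an ideal).  (3) `St_Nac`: a nil `x` is `w + u + v` by `St_Spt` (5); `w ∈ W ⊆ S`; `u` by (1); `v`: by `St_Spt` (1) `v ∈ {D z} + J2 R`, and (2). -/
def St_Tvn : Prop := ∀ (n p s : ℕ) (R : Type) [NonUnitalRing R] [Finite R] (t : Fin s → R)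
  (H : AddSubgroup R) (α β : Option (Fin s)) (m : ℕ) (a : ℕ → R) (z : R),
  Tdt n p s t H α β m a z → ∀ q, Tq n p s t α m a z q → ∀ S : NonUnitalSubring R,
  (∀ i, t i ∈ S) → ∀ (y : ℕ → R) (z' : R),
  (∀ j, j < m → Jc (fun i => om n (t i)) α α (y j) ∧ y j ∈ S) →
  Jc (fun i => om n (t i)) α β z' → z' ∈ S → q • pll y z' m ≠ 0 → S = ⊤

/-- **CVT** (from `St_Gbp`, `St_Spt`, `St_Tqq`, `St_Tva`, `St_Tvn`).  PROOF.  `St_Gbp` with `b = m + 1`, `γ k = α`, `δ k = α` for `k < m`,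
`γ m = α`, `δ m = β`, `tw = false`, `q` from `St_Tqq`.  Let `Sam n s t v`, with `π`; `πα` is `π i` for `α = some i` and `none` for
`none`.  `pj n s v γ δ x` is the component of `x` in `R_(πγ)(πδ)` (`om n (v i) = e_(π i)`).  If not (`πα = α` and
`πβ = β`): the last factor is in `R_(πα)(πβ) = 0` (`St_Spt` (4), `πα ≠ πβ`), so the function is `0`.  Otherwise `Pf v = q • pll y z' m`
with `y_j ∈ J_αα` the component of `v (s + (m - 1 - j))` and `z'` that of `v (s + m)`.  `val`: `St_Tva`.  `sq`: the component of `y z` is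
the sum of the products of components `(y in R_γε)(z in R_εδ)`; by `St_Spt` (4) only `ε = α` (`γ = δ = α`), `ε = α, β`
(`γ = α`, `δ = β`) are possible; `St_Tva`.  `van`: `St_Tvn`; the `t_i` are powers of the `v_j`, components of elements of `S`
are in `S`.  `ne`: `v = (t, a_(m-1), ..., a_0, z)`: `q Π ≠ 0`. -/
def St_Cvt : Prop := ∀ (n p s : ℕ) (R : Type) [NonUnitalRing R] [Finite R] (t : Fin s → R)
  (H : AddSubgroup R) (α β : Option (Fin s)) (m : ℕ) (a : ℕ → R) (z : R),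
  Tdt n p s t H α β m a z → Critical R

/-! ### Part H: the type L -/

/-- **SPL** (from `St_Ops`, `St_Opc`, `St_Wst`, `St_Rul`, `St_Rut`).  PROOF.  Groups: `N₀` generated by the `D (pll c c₀ l)`, `D ∈ Ops t α none`,
`c_j, c₀ ∈ {a_k}`; `M₀` by the `D (pll c x l)`, `D ∈ Ops t α β`; `M₁` by the `D (prr y c l)`, `D ∈ Ops t β α`; `P = M₀ M₁`, `P' = M₁ M₀`.
(i) `(D x) u (D' x) = 0` for `u ∈ J_βα`, `D, D' ∈ Ops t α β`, and `(D y) u (D' y) = 0` for `u ∈ J_αβ` (as in `St_Wcl`: additively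
generated by `t^a x t^b`).  (ii) `M₁ N₀ ... `: `u a v = 0` for `u ∈ J_βα`, `a ∈ J_αα`, `v ∈ J_αβ` (`St_Rul` (4)).  So
`M₁ M₀` is generated by the `(D y)(D' x)`, and `M₀ M₁ M₀ = 0 = M₁ M₀ M₁`: e.g. `(D (pll c x l)) u v` with `u ∈ M₁`,
`v = D' (pll c' x l')`: `u v = 0` if `l' ≥ 1` by (ii); `l' = 0`: `u = D'' (prr y c'' l'')`, `u v = 0` if `l'' ≥ 1`; `l'' = 0`:
`pll c ((D x)(D'' y)(D' x)) l = 0` (the `c` are central).  So `Y = W + N₀ + M₀ + M₁ + P + P'` is a subring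
(`N₀ P ⊆ P`, `P N₀ ⊆ P`, `P P = 0`, `P M₀ = 0`, `M₁ P = 0`, `P' P' = 0`, `P' M₁ = 0`, `M₀ P' = 0`, `N₀` and `P'` annihilate each
other) which contains the generators, so `Y = R`.  `P` and `P'` are ideals, `P ∩ P' = 0` (`α ≠ β`),
`Π = pll a (x y) m ∈ P` is not `0`, so `H ≤ P`, so `P' = 0`: (0).  (1) to (6): components, as in `St_Spt`. -/
def St_Spl : Prop := ∀ (n p s : ℕ) (R : Type) [NonUnitalRing R] [Finite R] (t : Fin s → R)
  (H : AddSubgroup R) (α β : Option (Fin s)) (m : ℕ) (a : ℕ → R) (x y : R),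
  Ldt n p s t H α β m a x y →
  (∀ u w, Pc (fun i => om n (t i)) β α u → Pc (fun i => om n (t i)) α β w → u * w = 0) ∧
  (∀ u, Pc (fun i => om n (t i)) α β u → u ∈ AddSubgroup.closure {w | ∃ D ∈ Ops t α β,
    ∃ (l : ℕ) (c : ℕ → R), (∀ j, j < l → c j ∈ Cs n p t α m a) ∧ w = D (pll c x l)}) ∧
  (∀ u, Pc (fun i => om n (t i)) β α u → u ∈ AddSubgroup.closure {w | ∃ D ∈ Ops t β α,
    ∃ (l : ℕ) (c : ℕ → R), (∀ j, j < l → c j ∈ Cs n p t α m a) ∧ w = D (prr y c l)}) ∧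
  (∀ u, Jc (fun i => om n (t i)) α α u → u ∈ AddSubgroup.closure ({w | ∃ D ∈ Ops t α none,
    ∃ (l : ℕ) (c : ℕ → R) (c₀ : R), (∀ j, j < l → c j ∈ Cs n p t α m a) ∧
      c₀ ∈ Cs n p t α m a ∧ w = D (pll c c₀ l)} ∪
    {w | ∃ v v', Jc (fun i => om n (t i)) α β v ∧ Jc (fun i => om n (t i)) β α v' ∧
      w = v * v'})) ∧
  (∀ u, Jc (fun i => om n (t i)) β β u → ∃ w, Pc (fun i => om n (t i)) β β w ∧ u = p • w) ∧
  (∀ γ δ u, γ ≠ δ → ¬ (γ = α ∧ δ = β) → ¬ (γ = β ∧ δ = α) → Pc (fun i => om n (t i)) γ δ u →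
    u = 0) ∧
  ∀ u, Nl u → ∃ w ∈ NonUnitalSubring.closure (Set.range t), Nl w ∧ ∃ u₁ u₂ u₃,
    Jc (fun i => om n (t i)) α α u₁ ∧ Jc (fun i => om n (t i)) α β u₂ ∧
    Jc (fun i => om n (t i)) β α u₃ ∧ u = w + u₁ + u₂ + u₃

/-- **LQQ** (from `St_Ops`, `St_Alp`, `St_Rul`, `St_Wst`, `St_Plw`).  PROOF.  `X = D x`, `Y = D' y`.  As in `St_Tqq`: `pll c X l` with two equal
letters is `0`, permutations change the sign; `pll c (X Y) l = (pll c X l) Y`.  Case `β = some j`: `p X Y = X (p e_j) Y = 0`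
(`St_Rul` (4), `St_Wst` (4)), `q = 1`: `pz` and `pe`: a factor `p` can be taken out and put before `X Y`; `gt`: `l > m` letters
without `p e_i` are not all different, so `0`; with `p e_i`: `0`.  Case `β = none`, so `α = some i`: `X Y = L R (x y)` with `L`, `R`
combinations of left and right multiplications by `t_i`, and the letters of `C` commute with `t_i`, so
`pll c (X Y) l = L R (pll c (x y) l)`, and we may take `X = x`, `Y = y`.  `p^2 x = 0` (`St_Rul` (1)).  `q = p` if `p Π ≠ 0`, otherwise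
`q = 1`, and then continue as in `St_Tqq` with `Pcd` for `x y` (`Π_k = pll (update a k (p e_i)) (x y) m`). -/
def St_Lqq : Prop := ∀ (n p s : ℕ) (R : Type) [NonUnitalRing R] [Finite R] (t : Fin s → R)
  (H : AddSubgroup R) (α β : Option (Fin s)) (m : ℕ) (a : ℕ → R) (x y : R),
  Ldt n p s t H α β m a x y → ∃ q : ℕ, Lq n p s t α β m a x y q

/-- **LEX** (from `St_Ops`, `St_Spl`, `St_Rul`, `St_Wst`).  PROOF.  Additive in all `y_j`, in `x'` and in `y'`.  `St_Spl`: `x' = D (pll c' x l')`,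
`y' = D' (prr y c'' l'')`; `X (Y c) = - c X Y` for `X ∈ J_αβ`, `Y ∈ J_βα`, `c ∈ J_αα` (`St_Rul` (4)), so `x' y'` is up to sign a
product of `l' + l''` letters and `X Y`, `X = D x`, `Y = D' y`.  The `y_j`: `D (pll c c₀ l)`, or `v v'` with `v ∈ J_αβ`, `v' ∈ J_βα`; the
latter gives `0`: `v v' (y_(j-1) ... x') = v (v' ...) = 0` by `St_Spl` (0).  So `pll y (x' y') l = ± D'' (pll c (X Y) L)`, `L ≥ l`, with a
left operator `D''`.  (1) `Lq.gt`.  (2) `Lq.gt`, `Lq.pz`.  (3) `y_k ∈ W`: `D (p e_i)` (`St_Wst`), `Lq.gt`, `Lq.pe`. -/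
def St_Lex : Prop := ∀ (n p s : ℕ) (R : Type) [NonUnitalRing R] [Finite R] (t : Fin s → R)
  (H : AddSubgroup R) (α β : Option (Fin s)) (m : ℕ) (a : ℕ → R) (x y : R),
  Ldt n p s t H α β m a x y → ∀ q, Lq n p s t α β m a x y q → ∀ (c : ℕ → R) (x' y' : R),
  Jc (fun i => om n (t i)) α β x' → Jc (fun i => om n (t i)) β α y' →
  (∀ l, m < l → (∀ j, j < l → Jc (fun i => om n (t i)) α α (c j)) →
    q • pll c (x' * y') l = 0) ∧
  ((∀ j, j < m → Jc (fun i => om n (t i)) α α (c j)) → p • (q • pll c (x' * y') m) = 0 ∧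
    ((∃ k, k < m ∧ c k ∈ NonUnitalSubring.closure (Set.range t)) →
      q • pll c (x' * y') m = 0))

/-- **LVA** (from `St_Spl`, `St_Lex`, `St_Soc`, `St_Rul`).  PROOF.  `v = q • pll c (x' y') m ∈ R_αα`.  Let `u` be nil, with nil components.
`u v`: component in `J_αα`: `St_Lex` (1); in `R_βα`: `m ≥ 1`: `u c_(m-1) ... x' = 0` (`St_Rul` (4): a loop between `βα` and `αβ`: the
product of the `c_j` is a nil loop); `m = 0`: `u x' = 0` (`St_Spl` (0)); other components `0` (`St_Spl` (5)).  `v u`: component in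
`J_αα`: `x' y' u = - u x' y'` (`St_Rul` (4)), so `v u = - q • pll c' (x' y') (m+1)`; in `R_αβ`: `y' u = 0` (`St_Spl` (0)).
`p v = 0` (`St_Lex` (2)).  `St_Soc`.  `c_k = u w`: `St_Lex` (1) if `u, w ∈ J_αα`; if `u ∈ J_αβ`, `w ∈ J_βα`: `u (w ...x') = 0` (`St_Spl` (0);
the product of the other loops with `x'` is in `R_αβ`).  `x' = u w`: `St_Lex` (1), or `u ∈ J_αβ`, `w ∈ J_ββ`: `u w y' = 0`
(`St_Rul` (4)).  `y' = u w`: `u ∈ J_ββ`, `w ∈ J_βα`: `x' u w = 0` (`St_Rul` (4)); `u ∈ J_βα`, `w ∈ J_αα`: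
`x' u w = - w x' u`, `St_Lex` (1). -/
def St_Lva : Prop := ∀ (n p s : ℕ) (R : Type) [NonUnitalRing R] [Finite R] (t : Fin s → R)
  (H : AddSubgroup R) (α β : Option (Fin s)) (m : ℕ) (a : ℕ → R) (x y : R),
  Ldt n p s t H α β m a x y → ∀ q, Lq n p s t α β m a x y q → ∀ (c : ℕ → R) (x' y' : R),
  (∀ j, j < m → Jc (fun i => om n (t i)) α α (c j)) → Jc (fun i => om n (t i)) α β x' →
  Jc (fun i => om n (t i)) β α y' →
  q • pll c (x' * y') m ∈ H ∧
  (∀ k, k < m → ∀ u w, ((Jc (fun i => om n (t i)) α α u ∧ Jc (fun i => om n (t i)) α α w) ∨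
    (Jc (fun i => om n (t i)) α β u ∧ Jc (fun i => om n (t i)) β α w)) → c k = u * w →
    q • pll c (x' * y') m = 0) ∧
  (∀ u w, ((Jc (fun i => om n (t i)) α α u ∧ Jc (fun i => om n (t i)) α β w) ∨
    (Jc (fun i => om n (t i)) α β u ∧ Jc (fun i => om n (t i)) β β w)) → x' = u * w →
    q • pll c (x' * y') m = 0) ∧
  ∀ u w, ((Jc (fun i => om n (t i)) β β u ∧ Jc (fun i => om n (t i)) β α w) ∨
    (Jc (fun i => om n (t i)) β α u ∧ Jc (fun i => om n (t i)) α α w)) → y' = u * w →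
    q • pll c (x' * y') m = 0

/-- **LVN** (from `St_Ops`, `St_Opc`, `St_Inv`, `St_Ivc`, `St_Rul`, `St_Rut`, `St_Nac`, `St_Wst`, `St_Exg`, `St_Spl`, `St_Lex`).
PROOF.  As `St_Tvn`.  (1) `St_Exg` with `N = J_αα`, `G` generated by the `u w` (`u, w ∈ J_αα`), the `u w` (`u ∈ J_αβ`, `w ∈ J_βα`), the
nil elements of `W` in `R_αα`, and, if `α = none`, the `p w`, `w ∈ J_αα`; `F v = q • pll v (x' y') m`.  `hG` for `p w`: `St_Lex` (2).
But for the conclusion we need `p w` in `S + J2 R`: if `α = none`, first replace `w` by `∑ μ_k (c_k) + g`, `g ∈ G`, then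
`w ≡ s₁ + p w₁` with `s₁ ∈ S` nil modulo `J2 R` (an ideal), iterate: `w ≡ s₁ + p s₂ + p^2 s₃ + ...`, `p^r R = 0`.
(2) `x' = D x + r`, `r` in the group generated by the products of `J_αα` and `J_αβ`: `q • pll c (r y') m = 0` (`St_Lex` (1)), so
`q • pll c ((D x) y') m ≠ 0`, `D x ≠ p D' x` (`St_Lex` (2)), so `D' D x = x`, `x ∈ S + J2 R`.  In the same way `y`.
(3) Every nil element is in `W ∩ J + J_αα + R_αβ + R_βα` (`St_Spl` (6)), and these are in `S + J2 R` with nil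
elements of `S`; `St_Nac`. -/
def St_Lvn : Prop := ∀ (n p s : ℕ) (R : Type) [NonUnitalRing R] [Finite R] (t : Fin s → R)
  (H : AddSubgroup R) (α β : Option (Fin s)) (m : ℕ) (a : ℕ → R) (x y : R),
  Ldt n p s t H α β m a x y → ∀ q, Lq n p s t α β m a x y q → ∀ S : NonUnitalSubring R,
  (∀ i, t i ∈ S) → ∀ (c : ℕ → R) (x' y' : R),
  (∀ j, j < m → Jc (fun i => om n (t i)) α α (c j) ∧ c j ∈ S) →
  Jc (fun i => om n (t i)) α β x' → x' ∈ S → Jc (fun i => om n (t i)) β α y' → y' ∈ S →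
  q • pll c (x' * y') m ≠ 0 → S = ⊤

/-- **CVL** (from `St_Gbp`, `St_Spl`, `St_Lqq`, `St_Lva`, `St_Lvn`).  PROOF.  As `St_Cvt` with `b = m + 2`, types `(α, α)` for `k < m`, then
`(α, β)`, `(β, α)`.  For a permuted frame (`Sam`): the last two factors are in `R_(πα)(πβ)` and `R_(πβ)(πα)`; if
`(πα, πβ) = (β, α)` their product is `0` by `St_Spl` (0), if it is not `(α, β)` or `(β, α)` then `R_(πα)(πβ) = 0` (`St_Spl` (5)). -/
def St_Cvl : Prop := ∀ (n p s : ℕ) (R : Type) [NonUnitalRing R] [Finite R] (t : Fin s → R)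
  (H : AddSubgroup R) (α β : Option (Fin s)) (m : ℕ) (a : ℕ → R) (x y : R),
  Ldt n p s t H α β m a x y → Critical R

/-! ### Part I: the type E -/

/-- **SPE** (from `St_Ops`, `St_Opc`, `St_Wst`, `St_Rul`, `St_Rum`).  PROOF.  `M₀` generated by the `D x`, `D z` (`D ∈ Ops t α β`), `M₁` by the
`D y` (`D ∈ Ops t β α`).  `M₁ M₀ M₁ = 0` ((`D y) u (D' y) = 0`, `St_Rul` (5) and additivity), products of four
factors are `0` (`St_Rum`).  `Y = W + M₀ + M₁ + M₀ M₁ + M₁ M₀ + M₀ M₁ M₀` is a subring which contains the generators.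
Components. -/
def St_Spe : Prop := ∀ (n p s : ℕ) (R : Type) [NonUnitalRing R] [Finite R] (t : Fin s → R)
  (H : AddSubgroup R) (α β : Option (Fin s)) (x y z : R), Edt n p s t H α β x y z →
  (∀ u, Pc (fun i => om n (t i)) α β u → ∃ D ∈ Ops t α β, ∃ D' ∈ Ops t α β,
    u - (D x + D' z) ∈ AddSubgroup.closure {w | ∃ u₁ v u₂, Jc (fun i => om n (t i)) α β u₁ ∧
      Jc (fun i => om n (t i)) β α v ∧ Jc (fun i => om n (t i)) α β u₂ ∧ w = u₁ * v * u₂}) ∧
  (∀ u, Pc (fun i => om n (t i)) β α u → ∃ D ∈ Ops t β α, u = D y) ∧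
  (∀ u, Nl u → ∃ w ∈ NonUnitalSubring.closure (Set.range t), Nl w ∧
    ∃ u₁ u₂, Jc (fun i => om n (t i)) α β u₁ ∧ Jc (fun i => om n (t i)) β α u₂ ∧
      u - (w + u₁ + u₂) ∈ J2 R) ∧
  ∀ γ δ u, γ ≠ δ → ¬ (γ = α ∧ δ = β) → ¬ (γ = β ∧ δ = α) → Pc (fun i => om n (t i)) γ δ u →
    u = 0

/-- **EVA** (from `St_Rul`, `St_Rum`, `St_Ruu`, `St_Spe`, `St_Wst`, `St_Soc`).  PROOF.  `w = u₁ v u₂`.  For nil `c` with components:
`c w`: `J_αα`: `St_Rum`; `R_βα`: four arrows, `St_Rum` with `α, β` exchanged; other `R_γα = 0` (`St_Spe` (4)).  `w c`: the same.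
`p w = 0`: `α = some i`: `(p e_i) w`; otherwise `β = some j`: `w (p e_j)` (`St_Wst` (4)).  `St_Soc`.  Products: `u₁ = c d`: `c ∈ J_αα`:
`c d v u₂ = 0` (`St_Rum`); `d ∈ J_ββ`: `c d v = 0` (`St_Rul` (4)).  `v = c d`: `c ∈ J_ββ`: `u₁ c d = 0`; `d ∈ J_αα`: `c d u₂ = 0`
(`St_Rul` (4) with `α, β` exchanged).  `u₂ = c d`: `c ∈ J_αα`: `v c d = 0`; `d ∈ J_ββ`: `u₁ v c d = 0` (`St_Rum`).  The last
item: `u = D y`, `v = D' y`. -/
def St_Eva : Prop := ∀ (n p s : ℕ) (R : Type) [NonUnitalRing R] [Finite R] (t : Fin s → R)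
  (H : AddSubgroup R) (α β : Option (Fin s)) (x y z : R), Edt n p s t H α β x y z →
  (∀ u₁ v u₂, Jc (fun i => om n (t i)) α β u₁ → Jc (fun i => om n (t i)) β α v →
    Jc (fun i => om n (t i)) α β u₂ → u₁ * v * u₂ ∈ H ∧ p • (u₁ * v * u₂) = 0 ∧
    ∀ c d, (((Jc (fun i => om n (t i)) α α c ∧ Jc (fun i => om n (t i)) α β d) ∨
      (Jc (fun i => om n (t i)) α β c ∧ Jc (fun i => om n (t i)) β β d)) →
      (u₁ = c * d ∨ u₂ = c * d) → u₁ * v * u₂ = 0) ∧
      (((Jc (fun i => om n (t i)) β β c ∧ Jc (fun i => om n (t i)) β α d) ∨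
      (Jc (fun i => om n (t i)) β α c ∧ Jc (fun i => om n (t i)) α α d)) → v = c * d →
      u₁ * v * u₂ = 0)) ∧
  ∀ u v w, Jc (fun i => om n (t i)) β α u → Jc (fun i => om n (t i)) α β v →
    Jc (fun i => om n (t i)) β α w → u * v * w = 0

/-- **EVN** (from `St_Ops`, `St_Opc`, `St_Ivc`, `St_Rul`, `St_Nac`, `St_Spe`, `St_Eva`).  PROOF.  `v = D y`, not `p D' y` (`p u₁ v u₂ = 0`), so
`y = D' v ∈ S`.  For `w ∈ R_αβ` let `B(w) = {D w | D ∈ O}`, `O = Ops t α β`, and `P` the group generated by the `p u` (`u ∈ R_αβ`)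
and the products of three arrows; `R_αβ = B(x) + B(z) + P` (`St_Spe`), `P` is stable under `O`.  `F(u, w) = u v w` is additive,
zero if `u` or `w` is in `P` (`St_Eva`; four arrows), and zero if `u, w ∈ B(c)` for some `c ∈ R_αβ`
(`(D c) v (D' c) = 0`, as in `St_Spl` (i)).  Let `U = (B(u₁) + B(u₂) + P)`, stable under `O`.  Claim: `x, z ∈ U`.  `x` is
pure: if `D x ∈ U` for some `D ∈ O` with `D x ∉ P` then `D x ≠ p D' x`, so `x = D' D x ∈ U`; the same for `z`.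
Case 1: some `D x ∈ U`, `D x ∉ P`: `x ∈ U`.  `u_i = D_i x + D_i' z + r_i`, `r_i ∈ P`; if some `D_i' z ∉ P` then `D_i' z ∈ U`, so `z ∈ U` and we
are done; otherwise `u₁, u₂ ∈ B(x) + P` and `F(u₁, u₂) = 0`, a contradiction.  Case 2: the same with `z` and `x`
exchanged.  Case 3: `D x ∈ U` implies `D x ∈ P`, and `D z ∈ U` implies `D z ∈ P`.  `u₁ = D₁ x + D₁' z + r₁`.  `D₁' z ∉ P`
(otherwise `D₁ x ∈ U`, so `D₁ x ∈ P` and `u₁ ∈ P`, `F = 0`).  `St_Ivc` for `z`, `D₁'`: there is `E` with `E D₁' z = z` (`D₁' z ≠ p D' z`).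
`u₂ = D₂ x + D₂' z + r₂`; `c = u₂ - D₂' E u₁ ∈ U` and `c ≡ (D₂ - D₂' E D₁) x` modulo `P`, so `c ∈ P` (case assumption), and
`F(u₁, u₂) = F(u₁, D₂' E u₁) = 0`, a contradiction.  So `x = D u₁ + D' u₂ + p u + r`, with `u ∈ R_αβ`, `r ∈ J2 R`, the same
for `z` and so for all of `R_αβ`; iterate (`p^r R = 0`): `R_αβ ⊆ S + J2 R` with nil elements of `S`.  `St_Spe` (2), (3) and
`St_Nac`. -/
def St_Evn : Prop := ∀ (n p s : ℕ) (R : Type) [NonUnitalRing R] [Finite R] (t : Fin s → R)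
  (H : AddSubgroup R) (α β : Option (Fin s)) (x y z : R), Edt n p s t H α β x y z →
  ∀ S : NonUnitalSubring R, (∀ i, t i ∈ S) → ∀ u₁ v u₂, Jc (fun i => om n (t i)) α β u₁ →
    Jc (fun i => om n (t i)) β α v → Jc (fun i => om n (t i)) α β u₂ →
    u₁ ∈ S → v ∈ S → u₂ ∈ S → u₁ * v * u₂ ≠ 0 → S = ⊤

/-- **CVE** (from `St_Gbp`, `St_Spe`, `St_Eva`, `St_Evn`).  PROOF.  As `St_Cvt` with `b = 3`, `q = 1`, types `(α, β)`, `(β, α)`, `(α, β)`.  Permuted
frames: `(πα, πβ) = (β, α)`: `0` by the last item of `St_Eva`; other pairs: `R_(πα)(πβ) = 0` (`St_Spe` (4)).  `sq`: the component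
of `y z` in `R_αβ` is the sum of `(J_αα)(R_αβ)` and `(R_αβ)(J_ββ)` items (`St_Spe` (4)), and so on. -/
def St_Cve : Prop := ∀ (n p s : ℕ) (R : Type) [NonUnitalRing R] [Finite R] (t : Fin s → R)
  (H : AddSubgroup R) (α β : Option (Fin s)) (x y z : R), Edt n p s t H α β x y z → Critical R

/-! ### Part J: the type V -/

/-- **CVU** (from `St_Ops`, `St_Opc`, `St_Ruu`, `St_Wst`, `St_Soc`, `St_Gbp`).  Three different vertices.  PROOF.  `M₀ = {D z}`, `M₁ = {D z'}`,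
`Y = W + M₀ + M₁ + M₀ M₁` is a subring (the other products are `0`: types), so `Y = R`; `R_αβ = M₀`, `R_βγ = M₁`,
`R_αγ = M₀ M₁` (group generated), other `R_δε = 0`, `δ ≠ ε`.  For `u ∈ R_αβ`, `u' ∈ R_βγ`: `c u u' = 0 = u u' c` for all nil `c`
(components; `St_Ruu`), `p u u' = 0` (`α = some i`: `(p e_i) u u'`; otherwise `β = some j` and `u (p e_j) u' = 0`, `St_Wst` (4)), so `u u' ∈ H`
(`St_Soc`).  `St_Gbp` with `b = 2`, `q = 1`, types `(α, β)`, `(β, γ)`.  Permuted frames: `R_(πα)(πβ)` and `R_(πβ)(πγ)` both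
nonzero, with `πα, πβ, πγ` different, only for `πα = α`, `πβ = β`, `πγ = γ`.  `sq`: `(c d) u'` with `c ∈ J_αε`, `d ∈ J_εβ`: `ε = α`, `β`:
`St_Ruu`; other `ε`: `R_εβ = 0` or `R_αε = 0`.  `van`: `u = D z ∈ S`, `u' = D' z' ∈ S`, `u u' ≠ 0`: `D z ≠ p D'' z`, so `z ∈ S`, and
`z' ∈ S`, so `S = ⊤`. -/
def St_Cvu : Prop := ∀ (n p s : ℕ) (R : Type) [NonUnitalRing R] [Finite R] (t : Fin s → R)
  (H : AddSubgroup R) (α β γ : Option (Fin s)) (z z' : R), Udt n p s t H α β γ z z' → Critical R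

/-- **SPX** (from `St_Ops`, `St_Opc`, `St_Twi`, `St_Wst`, `St_Rul`, `St_Rut`).  A twisted loop.  `α = some i`.  PROOF.  `N₀` the group generated by the
`D a`, `D ∈ Ops t α α`, `N₁` the group generated by all products of `≥ 2` elements of `N₀`; `M₀` the group generated by the `D z`,
`D ∈ Ops t α γ`; `Y = W + N₀ + N₁ + M₀ + (N₀ + N₁) M₀` is a subring, contains the generators, so it is `R`.
Components: (1), (2), (4), (5).  (3) `St_Twi`: `a = D (a t_i - t_i a)`, `D ∈ Ops t α α`, a combination of the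
`t^c (a t - t a) t^d`; `(a t - t a) (t^d u) w = 0` for `u ∈ J_αα`, `w ∈ J_αγ` (`St_Rut` (1)), so `a u w = 0`, also `(D a) u w = 0`, and
`u (D a) w = - (D a) u w = 0` (`St_Rul` (1)).  For `u, u' ∈ J_αα`, `u' u w`: `u = D (p e_i) + (elements of N₀, N₁)` by (2); if one
of them is in `N₀` or `N₁` then `0`; otherwise `D D' ((p e_i)(p e_i) w) = 0` (`St_Rul` (1)). -/
def St_Spx : Prop := ∀ (n p s : ℕ) (R : Type) [NonUnitalRing R] [Finite R] (t : Fin s → R)
  (H : AddSubgroup R) (i : Fin s) (γ : Option (Fin s)) (a z : R), Xdt n p s t H i γ a z →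
  (∀ u, Pc (fun i => om n (t i)) (some i) γ u → ∃ D ∈ Ops t (some i) γ,
    u - D z ∈ AddSubgroup.closure {w | ∃ c d, Jc (fun i => om n (t i)) (some i) (some i) c ∧
      Jc (fun i => om n (t i)) (some i) γ d ∧ w = c * d}) ∧
  (∀ u, Jc (fun i => om n (t i)) (some i) (some i) u → ∃ w ∈ NonUnitalSubring.closure (Set.range t),
    ∃ D ∈ Ops t (some i) (some i), Jc (fun i => om n (t i)) (some i) (some i) w ∧
      w * t i = t i * w ∧
      u - (w + D a) ∈ AddSubgroup.closure {w | ∃ c d,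
        Jc (fun i => om n (t i)) (some i) (some i) c ∧
        Jc (fun i => om n (t i)) (some i) (some i) d ∧ w = c * d}) ∧
  (∀ u u' w, Jc (fun i => om n (t i)) (some i) (some i) u →
    Jc (fun i => om n (t i)) (some i) (some i) u' → Jc (fun i => om n (t i)) (some i) γ w →
    u * u' * w = 0) ∧
  (∀ u, Jc (fun i => om n (t i)) γ γ u → ∃ w, Pc (fun i => om n (t i)) γ γ w ∧ u = p • w) ∧
  (∀ δ ε u, δ ≠ ε → ¬ (δ = some i ∧ ε = γ) → Pc (fun i => om n (t i)) δ ε u → u = 0) ∧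
  ∀ x, Nl x → ∃ w ∈ NonUnitalSubring.closure (Set.range t), Nl w ∧ ∃ u v,
    Jc (fun i => om n (t i)) (some i) (some i) u ∧ Jc (fun i => om n (t i)) (some i) γ v ∧
    x = w + u + v

/-- **CVX** (from `St_Ops`, `St_Opc`, `St_Ivc`, `St_Rul`, `St_Soc`, `St_Nac`, `St_Gbp`, `St_Wst`, `St_Spx`).  PROOF.  `α = some i`.  `St_Gbp` with `b = 2`,
`q = 1`, types `(α, α)` with `tw = true` and `(α, γ)` with `tw = false`.  Permuted frames: `R_(πα)(πγ) = 0` unless `πα = α`, `πγ = γ`; then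
`v_i = t_i^k`, and the value is `F = (u t_i^k - t_i^k u) w`, `u ∈ J_αα`, `w ∈ J_αγ`.  `val`: `c F = 0` for nil `c`: component in
`J_αα`: `St_Spx` (3), the others are `0` (`St_Spx` (5)); `F c`: component in `J_γγ`: `(loop) w c = 0` (`St_Rul` (3)), others `0`; `p F = 0`:
`(p e_i)` times `F`.  `St_Soc`.  `sq`: `u = c d` (`c, d ∈ J_αα`): `F = c d (t^k w) - t^k (c d w) = 0`; `w = c d`: `c ∈ J_αα`: `St_Spx` (3);
`d ∈ J_γγ`: `St_Rul` (3).  `van`: `F ≠ 0`, `u, w ∈ S`, `t_j ∈ S`.  `u = w₀ + D a + r` (`St_Spx` (2)): `w₀` commutes with `t_i^k`, and `r`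
gives `0`; so `((D a) t^k - t^k D a) w ≠ 0`, so `D a ≠ p D' a` (`p` times such a product is `0`), so `a = D' D a`
and `a ∈ S + J2 R`; `w = D z + r'`, `r'` gives `0`, so `z = D' D z ∈ S + J2 R` in the same way.  All nil elements are in
`(W ∩ J) + {D a} + {D z} + J2 R` (`St_Spx` (6), (1), (2)); `St_Nac`.  `ne`: `v = (t, a, z)`: `(a t_i - t_i a) z ≠ 0`: otherwise
`t_i^c (a t_i - t_i a) t_i^d z = 0`... in detail: `St_Twi` is not needed: if `(a t_i - t_i a) (D z) = 0` for all `D ∈ Ops t α none`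
then `a z = 0` because `a = D (a t_i - t_i a)`; so choose `D` with `(a t_i - t_i a) (D z) ≠ 0` and `v = (t, a, D z)`. -/
def St_Cvx : Prop := ∀ (n p s : ℕ) (R : Type) [NonUnitalRing R] [Finite R] (t : Fin s → R)
  (H : AddSubgroup R) (i : Fin s) (γ : Option (Fin s)) (a z : R), Xdt n p s t H i γ a z →
  Critical R

/-- **OPX.**  The opposite ring of the data of `TyV` with a twisted loop on the right.  PROOF.  As `St_Fop`: frames, `Pc`
(with exchanged vertices), nil elements, ideals, generation are preserved; `D ∈ Ops t α β` corresponds to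
`D' ∈ Ops (op t) β α`, so purity is preserved. -/
def St_Opx : Prop := ∀ (n p s : ℕ) (R : Type) [NonUnitalRing R] [Finite R] (t : Fin s → R)
  (H : AddSubgroup R) (i : Fin s) (γ : Option (Fin s)) (a z : R), Cy R n p → Pcx n p s t H →
  some i ≠ γ → Arr n p t (some i) (some i) a → a * t i ≠ t i * a → Arr n p t γ (some i) z →
  z * a ≠ 0 → NonUnitalSubring.closure (Set.range t ∪ {a, z}) = ⊤ →
  ∃ H' : AddSubgroup Rᵐᵒᵖ, Xdt n p s (fun i => MulOpposite.op (t i)) H' i γ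
    (MulOpposite.op a) (MulOpposite.op z)

/-- **CVP** (from `St_Cvt`, `St_Cvl`, `St_Cve`, `St_Cvu`, `St_Cvx`, `St_Opx`).  PROOF.  `Cy R n p` for the `p` of the type (`Pcx`).  `TyT`: `St_Cvt`;
`TyL`: `St_Cvl`; `TyE`: `St_Cve`.  `TyV`: `α ≠ β`, `β ≠ γ`: `α ≠ γ`: `St_Cvu`; `α = γ`: `St_Cvl` with `m = 0` (`Pcd` for `m = 0`
holds).  `α = β`: `α = some i`, `z` twisted: `St_Cvx`.  `β = γ`: `St_Opx`, `St_Cvx` for `Rᵐᵒᵖ`, `CRN.thm_Opp`. -/
def St_Cvp : Prop := ∀ (n : ℕ) (R : Type) [NonUnitalRing R] [Finite R], 4 ≤ n → InM n R →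
  ¬ Twn R → PthType R n → Critical R

end Pool.Agent.CRM
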