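import Pool.Agent.CRM.Stb
import Pool.Agent.CRM.Stc
import Pool.Agent.CRM.Ste
import Pool.Agent.CRN.All

/-!
Campaign CRM, module Mfl: the theorem (second form) from the statements of the other modules.
-/

set_option autoImplicit false

namespace Pool.Agent.CRM

open Pool.Agent.CRR Pool.Agent.CRN Pool.Agent.CRK Pool.Agent.CRL

/-- The theorem. -/
def St_Mfl : Prop := ∀ n : ℕ, 4 ≤ n → ∀ (R : Type) [NonUnitalRing R] [Finite R], InM n R →
  (Critical R ↔ MatType R 2 ∨ MatType R 3 ∨ TriType R ∨ TriType Rᵐᵒᵖ ∨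
    (¬ Twn R ∧ (PthType R n ∨ PthType Rᵐᵒᵖ n ∨ NFl R ∨ LFl R n)))

theorem thm_Mfl (hFwp : St_Fwp) (hCvp : St_Cvp) (hNff : St_Nff) (hNfb : St_Nfb)
    (hLff : St_Lff) (hLfb : St_Lfb) : St_Mfl := by
  intro n hn R _ _ hM
  have hfo : Finite Rᵐᵒᵖ := Finite.of_equiv R MulOpposite.opEquiv
  have hcy : ¬ Twn R → ∀ H : AddSubgroup R, Lst R H → ∃ p, Cy R n p := by
    intro hT H hH
    obtain ⟨p, r, hp, hr, -⟩ := CRN.thm_Ppw R H hH
    exact ⟨p, hn, hM, hT, hp, r, hr⟩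
  constructor
  · intro hc
    by_cases hT : Twn R
    · rcases CRN.twg n hn R hM (CRN.thm_Sir R hc) hT with h | h | h | h
      · exact Or.inl h
      · exact Or.inr (Or.inl h)
      · exact Or.inr (Or.inr (Or.inl h))
      · exact Or.inr (Or.inr (Or.inr (Or.inl h)))
    · obtain ⟨H, hH⟩ := CRN.thm_Sir R hc
      obtain ⟨p, hC⟩ := hcy hT H hH
      refine Or.inr (Or.inr (Or.inr (Or.inr ⟨hT, ?_⟩)))
      rcases hFwp n p R hC hc with h | h | h | ⟨e, he, h1⟩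
      · exact Or.inl h
      · exact Or.inr (Or.inl h)
      · exact Or.inr (Or.inr (Or.inl (hNff n p R hC h hc)))
      · exact Or.inr (Or.inr (Or.inr (hLff n p R hC e he h1 hc)))
  · rintro (h | h | h | h | ⟨hT, h | h | h | h⟩)
    · exact CRN.cm2 n hn R hM h
    · exact CRN.cm3 n hn R hM h
    · exact CRN.ctr n hn R hM h
    · exact (CRN.thm_Opp R).1 (CRN.ctr n hn Rᵐᵒᵖ ((CRN.thm_Opp R).2.1 n hM) h)
    · exact hCvp n R hn hM hT h
    · exact (CRN.thm_Opp R).1 (hCvp n Rᵐᵒᵖ hn ((CRN.thm_Opp R).2.1 n hM)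
        (fun h' => hT ((CRN.thm_Opp R).2.2.1 h')) h)
    · exact hNfb R h
    · exact hLfb n R hn hM hT h

end Pool.Agent.CRM
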