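import Pool.Agent.CRM.Std
import Pool.Agent.CRK.Cvm
import Pool.Agent.CRN.Crg

/-!
Campaign CRM, module Ngb: rings of the nilpotent type are critical.
-/

set_option autoImplicit false

namespace Pool.Agent.CRM

open Pool.Agent.CRR Pool.Agent.CRN Pool.Agent.CRK Pool.Agent.CRL

section

variable {R : Type} [NonUnitalRing R]

theorem Ngb_ev (L : List (ℤ × List ℕ)) : TmF (R := R) (fun v => ev L v) := by
  induction L with
  | nil => simpa [ev] using TmF.zero (R := R)
  | cons q L ih =>
    have h1 := (Cvm_tmf_zsmul (Cvm_tmf_wp (R := R) q.2) q.1).add ih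
    have h2 : (fun v : ℕ → R => ev (q :: L) v) = fun v => q.1 • wp (q.2.map v) + ev L v := by
      funext v
      unfold ev
      rw [List.map_cons, List.sum_cons]
    rw [h2]
    exact h1

theorem Ngb_vg {g : ℕ} (L : List (ℤ × List ℕ)) (hL : ∀ q ∈ L, ∀ i, i ∈ q.2 ↔ i < g) (v : ℕ → R) :
    Vg L (fun i : Fin g => v i) = ev L v := by
  unfold Vg ev
  congr 1
  apply List.map_congr_left
  intro q hq
  congr 2
  apply List.map_congr_left
  intro i hi
  have h1 : i < g := (hL q hq i).1 hi
  unfold xs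
  rw [dif_pos h1]

end

/-- **NGB.** -/
theorem thm_Ngb : St_Ngb := by
  intro R _ _ hN
  obtain ⟨h3, H, hH, g, L, hmin, hL, hval, hsq, hvan, x0, hx0⟩ := hN
  have hev : ∀ v : ℕ → R, Vg L (fun i : Fin g => v i) = ev L v :=
    Ngb_vg L fun q hq => (hL q hq).2.1
  refine thm_Crg R H hH (fun v => ev L v) (Ngb_ev L) (fun v => ?_) ⟨xs x0, ?_⟩ ?_
  · show ev L v ∈ H
    rw [← hev v]
    exact hval _
  · exact hx0
  · intro S hS v hv
    show ev L v = 0
    rw [← hev v]
    apply hvan
    intro h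
    apply hS
    rw [eq_top_iff, ← h, NonUnitalSubring.closure_le]
    rintro _ ⟨i, rfl⟩
    exact hv _

end Pool.Agent.CRM
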