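import Pool.Agent.CRM.Ste
import Pool.Agent.CRM.Ngb

/-!
Campaign CRM, module Nfb: nilpotent rings of the second form of the criterion are critical.
-/

set_option autoImplicit false

namespace Pool.Agent.CRM

open Pool.Agent.CRR Pool.Agent.CRN Pool.Agent.CRK Pool.Agent.CRL

section

variable {R : Type} [NonUnitalRing R]

theorem Nfb_wp (l : List R) (h : (0 : R) ∈ l) : wp l = 0 := by
  induction l with
  | nil => simp at h
  | cons a l ih =>
    cases l with
    | nil =>
      simp only [List.mem_singleton] at h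
      show a = 0
      exact h.symm
    | cons b l =>
      show a * wp (b :: l) = 0
      rcases List.mem_cons.1 h with h | h
      · rw [← h, zero_mul]
      · rw [ih h, mul_zero]

theorem Nfb_zero {g : ℕ} (L : List (ℤ × List ℕ)) (hL : ∀ q ∈ L, ∀ i, i ∈ q.2 ↔ i < g)
    (x : Fin g → R) (j : Fin g) (hj : x j = 0) : Vg L x = 0 := by
  unfold Vg ev
  apply List.sum_eq_zero
  intro w hw
  obtain ⟨q, hq, rfl⟩ := List.mem_map.1 hw
  rw [Nfb_wp, smul_zero]
  refine List.mem_map.2 ⟨j, (hL q hq j).2 j.2, ?_⟩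
  unfold xs
  rw [dif_pos j.2]
  exact hj

theorem Nfb_cl (h3 : ∀ x : R, x * x * x = 0) (p : ℕ) {ι : Type} (y : ι → R) (x : R)
    (hx : x ∈ NonUnitalSubring.closure (Set.range y)) :
    x ∈ KJ R p ⊔ AddSubgroup.closure (Set.range y) := by
  induction hx using NonUnitalSubring.closure_induction with
  | mem x hx => exact AddSubgroup.mem_sup_right (AddSubgroup.subset_closure hx)
  | zero => exact AddSubgroup.zero_mem _
  | add x y _ _ hx hy => exact AddSubgroup.add_mem _ hx hy
  | neg x _ hx => exact AddSubgroup.neg_mem _ hx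
  | mul x y _ _ _ _ =>
    exact AddSubgroup.mem_sup_left (AddSubgroup.subset_closure (Or.inl ⟨x, y, h3 x, h3 y, rfl⟩))

theorem Nfb_lift (p : ℕ) [Fact p.Prime] [Module (ZMod p) (R ⧸ KJ R p)] (A : Set R)
    (u : R ⧸ KJ R p)
    (hu : u ∈ Submodule.span (ZMod p) ((fun a : R => (a : R ⧸ KJ R p)) '' A)) :
    ∀ x : R, (x : R ⧸ KJ R p) = u → x ∈ KJ R p ⊔ AddSubgroup.closure A := by
  have key : ∀ x y : R, (x : R ⧸ KJ R p) = (y : R ⧸ KJ R p) → x - y ∈ KJ R p := by
    intro x y h
    have h1 := (QuotientAddGroup.eq).1 h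
    have h2 := (KJ R p).neg_mem h1
    have h3 : -(-x + y) = x - y := by abel
    rwa [h3] at h2
  induction hu using Submodule.span_induction with
  | mem u hu =>
    obtain ⟨a, ha, rfl⟩ := hu
    intro x hx
    have h1 := key x a hx
    have h2 : x = (x - a) + a := by abel
    rw [h2]
    exact AddSubgroup.add_mem _ (AddSubgroup.mem_sup_left h1)
      (AddSubgroup.mem_sup_right (AddSubgroup.subset_closure ha))
  | zero =>
    intro x hx
    have h1 := key x 0 hx
    rw [sub_zero] at h1
    exact AddSubgroup.mem_sup_left h1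
  | add u v _ _ hu hv =>
    intro x hx
    obtain ⟨a, rfl⟩ := QuotientAddGroup.mk_surjective u
    have h1 := hu a rfl
    have h2 := hv (x - a) (by rw [QuotientAddGroup.mk_sub, hx]; abel)
    have h3 : x = a + (x - a) := by abel
    rw [h3]
    exact AddSubgroup.add_mem _ h1 h2
  | smul c u _ hu =>
    intro x hx
    obtain ⟨a, rfl⟩ := QuotientAddGroup.mk_surjective u
    have h1 := hu a rfl
    have h2 : ((c.val • a : R) : R ⧸ KJ R p) = c • (a : R ⧸ KJ R p) := by
      rw [QuotientAddGroup.mk_nsmul, ← Nat.cast_smul_eq_nsmul (ZMod p), ZMod.natCast_zmod_val]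
    have h3 := key x (c.val • a) (by rw [h2, hx])
    have h4 : x = (x - c.val • a) + c.val • a := by abel
    rw [h4]
    exact AddSubgroup.add_mem _ (AddSubgroup.mem_sup_left h3) (AddSubgroup.nsmul_mem _ h1 _)

theorem Nfb_dim' [Finite R] (p : ℕ) [Fact p.Prime] [Module (ZMod p) (R ⧸ KJ R p)]
    {g : ℕ} (x y : Fin g → R)
    (hy : KJ R p ⊔ AddSubgroup.closure (Set.range y) = ⊤)
    (hx : ∀ j, x j ∉ KJ R p ⊔ AddSubgroup.closure {w | ∃ i, i < j ∧ w = x i}) :
    KJ R p ⊔ AddSubgroup.closure (Set.range x) = ⊤ := by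
  have hfin : Module.Finite (ZMod p) (R ⧸ KJ R p) := Module.Finite.of_finite
  have hspan : Submodule.span (ZMod p) (Set.range fun i : Fin g => ((y i : R) : R ⧸ KJ R p)) =
      (⊤ : Submodule (ZMod p) (R ⧸ KJ R p)) := by
    rw [eq_top_iff]
    rintro v -
    obtain ⟨a, rfl⟩ := QuotientAddGroup.mk_surjective v
    have ha : a ∈ KJ R p ⊔ AddSubgroup.closure (Set.range y) := by
      rw [hy]
      exact AddSubgroup.mem_top _
    obtain ⟨k, hk', s, hs, rfl⟩ := AddSubgroup.mem_sup.1 ha
    rw [QuotientAddGroup.mk_add, (QuotientAddGroup.eq_zero_iff k).2 hk', zero_add]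
    induction hs using AddSubgroup.closure_induction with
    | mem s hs =>
      obtain ⟨i, rfl⟩ := hs
      exact Submodule.subset_span ⟨i, rfl⟩
    | zero => exact Submodule.zero_mem _
    | add s t _ _ hs ht =>
      rw [QuotientAddGroup.mk_add]
      refine Submodule.add_mem _ (hs ?_) (ht ?_)
      · rw [hy]; exact AddSubgroup.mem_top _
      · rw [hy]; exact AddSubgroup.mem_top _
    | neg s _ hs =>
      rw [QuotientAddGroup.mk_neg]
      refine Submodule.neg_mem _ (hs ?_)
      rw [hy]; exact AddSubgroup.mem_top _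
  have hle : Module.finrank (ZMod p) (R ⧸ KJ R p) ≤ g := by
    have h1 := finrank_range_le_card (R := ZMod p) (fun i : Fin g => (y i : R ⧸ KJ R p))
    rw [Set.finrank, hspan, finrank_top, Fintype.card_fin] at h1
    exact h1
  have hli : LinearIndependent (ZMod p) (fun i : Fin g => (x i : R ⧸ KJ R p)) := by
    rw [Fintype.linearIndependent_iff]
    intro c hc
    by_contra hcon
    push Not at hcon
    obtain ⟨i0, hi0⟩ := hcon
    obtain ⟨i, hi, hmax⟩ := Finset.exists_max_image (Finset.univ.filter fun i => c i ≠ 0)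
      (fun i : Fin g => (i : ℕ)) ⟨i0, by simpa using hi0⟩
    have hci : c i ≠ 0 := by simpa using hi
    have hz : ∀ k, i < k → c k = 0 := by
      intro k hk
      by_contra h
      have := hmax k (by simpa using h)
      exact absurd this (not_le.2 hk)
    apply hx i
    have himg : ((fun a : R => (a : R ⧸ KJ R p)) '' {w | ∃ k, k < i ∧ w = x k}) =
        {v | ∃ k, k < i ∧ v = (x k : R ⧸ KJ R p)} := by
      ext v
      constructor
      · rintro ⟨a, ⟨k, hk, rfl⟩, rfl⟩
        exact ⟨k, hk, rfl⟩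
      · rintro ⟨k, hk, rfl⟩
        exact ⟨x k, ⟨k, hk, rfl⟩, rfl⟩
    refine Nfb_lift p {w | ∃ k, k < i ∧ w = x k} (x i : R ⧸ KJ R p) ?_ (x i) rfl
    rw [himg]
    have h1 : c i • (x i : R ⧸ KJ R p) =
        -∑ k ∈ Finset.univ.erase i, c k • (x k : R ⧸ KJ R p) := by
      rw [eq_neg_iff_add_eq_zero,
        Finset.add_sum_erase Finset.univ (fun k => c k • (x k : R ⧸ KJ R p)) (Finset.mem_univ i)]
      exact hc
    have h2 : (x i : R ⧸ KJ R p) = (c i)⁻¹ • (c i • (x i : R ⧸ KJ R p)) := by
      rw [smul_smul, inv_mul_cancel₀ hci, one_smul]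
    rw [h2, h1]
    refine Submodule.smul_mem _ _ (Submodule.neg_mem _ (Submodule.sum_mem _ fun k hk => ?_))
    have hki : k ≠ i := Finset.ne_of_mem_erase hk
    rcases lt_or_gt_of_ne hki with h | h
    · exact Submodule.smul_mem _ _ (Submodule.subset_span ⟨k, h, rfl⟩)
    · rw [hz k h, zero_smul]
      exact Submodule.zero_mem _
  have hge := hli.fintype_card_le_finrank
  rw [Fintype.card_fin] at hge
  have htop := hli.span_eq_top_of_card_eq_finrank' (by rw [Fintype.card_fin]; omega)
  rw [eq_top_iff]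
  rintro a -
  refine Nfb_lift p (Set.range x) (a : R ⧸ KJ R p) ?_ a rfl
  have h1 : ((fun a : R => (a : R ⧸ KJ R p)) '' (Set.range x)) =
      Set.range fun i => (x i : R ⧸ KJ R p) := by
    rw [← Set.range_comp]
    rfl
  rw [h1, htop]
  exact Submodule.mem_top

theorem Nfb_dim [Finite R] {p : ℕ} (hp : p.Prime) {g : ℕ} (x y : Fin g → R)
    (hy : KJ R p ⊔ AddSubgroup.closure (Set.range y) = ⊤)
    (hx : ∀ j, x j ∉ KJ R p ⊔ AddSubgroup.closure {w | ∃ i, i < j ∧ w = x i}) :
    KJ R p ⊔ AddSubgroup.closure (Set.range x) = ⊤ := by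
  have hF : Fact p.Prime := ⟨hp⟩
  have hk : ∀ v : R ⧸ KJ R p, p • v = 0 := by
    intro v
    obtain ⟨a, rfl⟩ := QuotientAddGroup.mk_surjective v
    rw [← QuotientAddGroup.mk_nsmul]
    exact (QuotientAddGroup.eq_zero_iff _).2 (AddSubgroup.subset_closure (Or.inr ⟨a, rfl⟩))
  exact @Nfb_dim' R _ _ p hF (AddCommGroup.zmodModule hk) g x y hy hx

end

/-- **NFB.** -/
theorem thm_Nfb (hKjf : St_Kjf) : St_Nfb := by
  intro R _ _ hN
  obtain ⟨h3, p, H, hp, hpr, hH, g, L, ⟨y, hy⟩, hL, hval, x0, hx0⟩ := hN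
  have hcy : Cy R 4 p := by
    refine ⟨le_rfl, ?_, ?_, hp, hpr⟩
    · intro x
      show x * x * x = x * x * x * x
      rw [h3, zero_mul]
    · rintro ⟨a, b, _, h2, h4⟩
      apply h4
      have h5 := h3 (a * b)
      calc a = a * b * (a * b * (a * b * a)) := by rw [h2, h2, h2]
        _ = (a * b) * (a * b) * (a * b) * a := by simp only [mul_assoc]
        _ = 0 := by rw [h5, zero_mul]
  have hytop : KJ R p ⊔ AddSubgroup.closure (Set.range y) = ⊤ := by
    rw [eq_top_iff]
    rintro a -
    refine Nfb_cl h3 p y a ?_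
    rw [hy]
    exact NonUnitalSubring.mem_top a
  have hvan : ∀ x : Fin g → R, NonUnitalSubring.closure (Set.range x) ≠ ⊤ → Vg L x = 0 := by
    intro x hx
    by_cases hall : ∀ j, x j ∉ KJ R p ⊔ AddSubgroup.closure {w | ∃ i, i < j ∧ w = x i}
    · exfalso
      apply hx
      have h1 := Nfb_dim hp x y hytop hall
      refine (hKjf 4 p R hcy).1 0 (fun i => i.elim0) ?_ _ (fun i => i.elim0) ?_
      · refine ⟨fun i => i.elim0, fun i => i.elim0, fun i => i.elim0, fun i => i.elim0, ?_⟩
        intro e he _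
        have h2 := h3 e
        rwa [he, he] at h2
      · intro a _
        have ha : a ∈ KJ R p ⊔ AddSubgroup.closure (Set.range x) := by
          rw [h1]
          exact AddSubgroup.mem_top _
        obtain ⟨k, hk, s, hs, rfl⟩ := AddSubgroup.mem_sup.1 ha
        refine ⟨s, ?_, by rwa [add_sub_cancel_right]⟩
        have h4 : AddSubgroup.closure (Set.range x) ≤
            (NonUnitalSubring.closure (Set.range x)).toAddSubgroup := by
          rw [AddSubgroup.closure_le]
          exact NonUnitalSubring.subset_closure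
        exact h4 hs
    · push Not at hall
      obtain ⟨j, hj⟩ := hall
      have h1 := (hval x).2 j (-x j) (AddSubgroup.neg_mem _ hj)
      rw [add_neg_cancel] at h1
      rw [← h1]
      exact Nfb_zero L (fun q hq => (hL q hq).2.1) _ j (Function.update_self _ _ _)
  have hev : ∀ v : ℕ → R, Vg L (fun i : Fin g => v i) = ev L v :=
    Ngb_vg L fun q hq => (hL q hq).2.1
  refine thm_Crg R H hH (fun v => ev L v) (Ngb_ev L) (fun v => ?_) ⟨xs x0, ?_⟩ ?_
  · show ev L v ∈ H
    rw [← hev v]
    exact (hval _).1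
  · exact hx0
  · intro S hS v hv
    show ev L v = 0
    rw [← hev v]
    apply hvan
    intro h
    apply hS
    rw [eq_top_iff, ← h, NonUnitalSubring.closure_le]
    rintro _ ⟨i, rfl⟩
    exact hv _

end Pool.Agent.CRM
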