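import Pool.Agent.CRM.Ste
import Pool.Agent.CRL.All
import Pool.Agent.CRK.Cvm

/-!
Campaign CRM (problem MP_1bb14d_al, stage 4): NFF, nilpotent critical rings, second form.
-/

set_option autoImplicit false

namespace Pool.Agent.CRM

open Pool.Agent.CRR Pool.Agent.CRN Pool.Agent.CRK Pool.Agent.CRL

section

variable {R : Type} [NonUnitalRing R]

private theorem Nff_vec {n b : ℕ} (hn : ∀ x : R, x * x * x = 0) (v : ℕ → R) :
    Vec n 0 b v := by
  refine ⟨⟨fun i => i.elim0, fun i => i.elim0, fun i => i.elim0, fun i => i.elim0,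
    fun g hg _ => ?_⟩, fun k _ => hn _⟩
  have h := hn g
  rw [hg, hg] at h
  exact h

private theorem Nff_pw (hn : ∀ x : R, x * x * x = 0) (x : R) (k : ℕ) : pw x (k + 2) = 0 := by
  induction k with
  | zero => exact hn x
  | succ k ih =>
    have : pw x (k + 1 + 2) = pw x (k + 2) * x := rfl
    rw [this, ih, zero_mul]

private theorem Nff_s {n s b : ℕ} (hn : ∀ x : R, x * x * x = 0) (v : ℕ → R)
    (hv : Vec n s b v) : s = 0 := by
  by_contra hs
  have hs' : 0 < s := Nat.pos_of_ne_zero hs
  obtain ⟨m, hm1, -, hm⟩ := hv.1.per ⟨0, hs'⟩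
  apply hv.1.ne ⟨0, hs'⟩
  obtain ⟨k, rfl⟩ : ∃ k, m = k + 1 := ⟨m - 1, by omega⟩
  cases k with
  | zero =>
    have h1 : v 0 * v 0 = v 0 := hm
    have h2 := hn (v 0)
    rw [h1, h1] at h2
    exact h2
  | succ k =>
    have h1 : pw (v 0) (k + 2) = v 0 := hm
    rw [Nff_pw hn] at h1
    exact h1.symm

private theorem Nff_span {g : ℕ} (z : Fin g → R)
    (hz : NonUnitalSubring.closure (Set.range z) = ⊤) (r : R) :
    r ∈ AddSubgroup.closure (Set.range z) ⊔ Sq R := by
  have hr : r ∈ NonUnitalSubring.closure (Set.range z) := by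
    rw [hz]; exact NonUnitalSubring.mem_top r
  induction hr using NonUnitalSubring.closure_induction with
  | mem x hx => exact AddSubgroup.mem_sup_left (AddSubgroup.subset_closure hx)
  | zero => exact AddSubgroup.zero_mem _
  | add x y _ _ hx hy => exact AddSubgroup.add_mem _ hx hy
  | neg x _ hx => exact AddSubgroup.neg_mem _ hx
  | mul x y _ _ _ _ =>
    exact AddSubgroup.mem_sup_right (AddSubgroup.subset_closure ⟨x, y, rfl⟩)

variable {n b : ℕ} {H : AddSubgroup R} {φ : (ℕ → R) → R}

private theorem Nff_hom (hn : ∀ x : R, x * x * x = 0) (hφ : Gc n 0 b H φ) {p : ℕ}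
    (hp : ∀ h ∈ H, p • h = 0) (v : ℕ → R) (k : ℕ) (hk : k < b) :
    ∃ f : R →+ R, (∀ y, f y = φ (Function.update v k y)) ∧ ∀ y ∈ KJ R p, f y = 0 := by
  have hadd : ∀ y z, φ (Function.update v k (y + z)) =
      φ (Function.update v k y) + φ (Function.update v k z) := by
    intro y z
    have h := hφ.add v (Nff_vec hn v) k hk y z (hn y) (hn z)
    simpa only [zero_add] using h
  refine ⟨AddMonoidHom.mk' (fun y => φ (Function.update v k y)) hadd, fun _ => rfl, ?_⟩
  intro y hy
  have hle : KJ R p ≤ (AddMonoidHom.mk' (fun y => φ (Function.update v k y)) hadd).ker := by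
    unfold KJ
    rw [AddSubgroup.closure_le]
    rintro x (⟨a, c, -, -, rfl⟩ | ⟨a, rfl⟩)
    · have h := hφ.sq v (Nff_vec hn v) k hk a c (hn a) (hn c)
      rw [zero_add] at h
      exact h
    · change (AddMonoidHom.mk' (fun y => φ (Function.update v k y)) hadd) (p • a) = 0
      rw [map_nsmul]
      exact hp _ (hφ.val _ (Nff_vec hn _))
  exact hle hy

private theorem Nff_sq (hn : ∀ x : R, x * x * x = 0) (p : ℕ) : Sq R ≤ KJ R p := by
  unfold Sq
  rw [AddSubgroup.closure_le]
  rintro x ⟨a, c, rfl⟩
  exact AddSubgroup.subset_closure (Or.inl ⟨a, c, hn a, hn c, rfl⟩)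

private theorem Nff_step (hn : ∀ x : R, x * x * x = 0) (hφ : Gc n 0 b H φ) {p : ℕ}
    (hp : ∀ h ∈ H, p • h = 0) {g : ℕ}
    (z : Fin g → R) (hz : NonUnitalSubring.closure (Set.range z) = ⊤) (v : ℕ → R) (k : ℕ)
    (hk : k < b) (hne : φ v ≠ 0) : ∃ i, φ (Function.update v k (z i)) ≠ 0 := by
  by_contra hcon
  push Not at hcon
  obtain ⟨f, hf, hsq⟩ := Nff_hom hn hφ hp v k hk
  have h2 : AddSubgroup.closure (Set.range z) ⊔ Sq R ≤ f.ker := by
    refine sup_le ?_ fun y hy => hsq y (Nff_sq hn p hy)
    rw [AddSubgroup.closure_le]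
    rintro _ ⟨i, rfl⟩
    change f (z i) = 0
    rw [hf]
    exact hcon i
  have h3 : f (v k) = 0 := h2 (Nff_span z hz (v k))
  rw [hf, Function.update_eq_self] at h3
  exact hne h3

private theorem Nff_iter (hn : ∀ x : R, x * x * x = 0) (hφ : Gc n 0 b H φ) {p : ℕ}
    (hp : ∀ h ∈ H, p • h = 0) {g : ℕ}
    (z : Fin g → R) (hz : NonUnitalSubring.closure (Set.range z) = ⊤) (v : ℕ → R)
    (hne : φ v ≠ 0) (j : ℕ) (hj : j ≤ b) :
    ∃ v' : ℕ → R, (∀ k, k < j → ∃ i, v' k = z i) ∧ φ v' ≠ 0 := by
  induction j with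
  | zero => exact ⟨v, fun k hk => absurd hk (Nat.not_lt_zero k), hne⟩
  | succ j ih =>
    obtain ⟨v', h1, h2⟩ := ih (by omega)
    obtain ⟨i, hi⟩ := Nff_step hn hφ hp z hz v' j (by omega) h2
    refine ⟨Function.update v' j (z i), ?_, hi⟩
    intro k hk
    rcases Nat.lt_succ_iff_lt_or_eq.1 hk with hk' | rfl
    · obtain ⟨i', hi'⟩ := h1 k hk'
      exact ⟨i', by rw [Function.update_of_ne hk'.ne]; exact hi'⟩
    · exact ⟨i, by rw [Function.update_self]⟩

private theorem Nff_congr (hn : ∀ x : R, x * x * x = 0) (hφ : Gc n 0 b H φ) {p : ℕ}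
    (hp : ∀ h ∈ H, p • h = 0) (v w : ℕ → R)
    (h : ∀ k, v k - w k ∈ KJ R p) : φ v = φ w := by
  have key : ∀ j, j ≤ b → φ v = φ (fun k => if k < j then w k else v k) := by
    intro j
    induction j with
    | zero =>
      intro _
      simp
    | succ j ih =>
      intro hj
      rw [ih (by omega)]
      obtain ⟨f, hf, hsq⟩ := Nff_hom hn hφ hp (fun k => if k < j then w k else v k) j
        (by omega)
      have e1 : (fun k => if k < j then w k else v k) =
          Function.update (fun k => if k < j then w k else v k) j (v j) := by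
        funext k
        by_cases hk : k = j
        · subst hk
          simp
        · rw [Function.update_of_ne hk]
      have e2 : (fun k => if k < j + 1 then w k else v k) =
          Function.update (fun k => if k < j then w k else v k) j (w j) := by
        funext k
        by_cases hk : k = j
        · subst hk
          simp
        · rw [Function.update_of_ne hk]
          have : k < j + 1 ↔ k < j := by omega
          simp only [this]
      rw [e2, ← hf]
      conv_lhs => rw [e1]
      rw [← hf]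
      have h3 := hsq _ (h j)
      rw [map_sub, sub_eq_zero] at h3
      exact h3
  rw [key b le_rfl]
  apply hφ.dep
  intro i hi
  have hi' : i < b := by omega
  simp only [hi', if_true]

private theorem Nff_ev_map (L : List (ℤ × List ℕ)) (ι : ℕ → ℕ) (v : ℕ → R) :
    ev (L.map fun q => (q.1, q.2.map ι)) v = ev L (fun k => v (ι k)) := by
  induction L with
  | nil => rfl
  | cons q L ih =>
    rw [List.map_cons, Wrd_ev_cons, Wrd_ev_cons, ih, List.map_map]
    rfl

private theorem Nff_ev_filter (L : List (ℤ × List ℕ)) (P : ℤ × List ℕ → Bool) (v : ℕ → R)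
    (h : ∀ q ∈ L, P q = false → wp (q.2.map v) = 0) : ev (L.filter P) v = ev L v := by
  rw [Wrd_ev_filter P L v]
  have h2 : ev (L.filter fun p => !P p) v = 0 := by
    apply Bdd_ev
    intro q hq
    rw [List.mem_filter] at hq
    exact h q hq.1 (by simpa using hq.2)
  rw [h2, add_zero]

/-- the words obtained by replacing the letter `j` by `i` at a nonempty set of places -/
private def Nff_sub (i j : ℕ) : List ℕ → List (List ℕ)
  | [] => []
  | a :: w => (Nff_sub i j w).map (List.cons a) ++
      if a = j then (w :: Nff_sub i j w).map (List.cons i) else []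

private theorem Nff_sub_spec (i j : ℕ) (w : List ℕ) : ∀ u ∈ Nff_sub i j w,
    u ≠ [] ∧ (∀ k ∈ u, k = i ∨ k ∈ w) ∧ (i < j → u.sum < w.sum) := by
  induction w with
  | nil =>
    intro u hu
    simp [Nff_sub] at hu
  | cons a w ih =>
    intro u hu
    unfold Nff_sub at hu
    rw [List.mem_append] at hu
    rcases hu with hu | hu
    · obtain ⟨u', hu', rfl⟩ := List.mem_map.1 hu
      obtain ⟨-, h2, h3⟩ := ih u' hu'
      refine ⟨List.cons_ne_nil _ _, ?_, ?_⟩
      · intro k hk
        rcases List.mem_cons.1 hk with rfl | hk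
        · exact Or.inr List.mem_cons_self
        · rcases h2 k hk with h | h
          · exact Or.inl h
          · exact Or.inr (List.mem_cons_of_mem _ h)
      · intro hij
        have := h3 hij
        simp only [List.sum_cons]
        omega
    · split_ifs at hu with haj
      · obtain ⟨u', hu', rfl⟩ := List.mem_map.1 hu
        have key : (∀ k ∈ u', k = i ∨ k ∈ w) ∧ (i < j → u'.sum ≤ w.sum) := by
          rcases List.mem_cons.1 hu' with rfl | h
          · exact ⟨fun k hk => Or.inr hk, fun _ => le_rfl⟩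
          · obtain ⟨-, h2, h3⟩ := ih u' h
            exact ⟨h2, fun hij => (h3 hij).le⟩
        refine ⟨List.cons_ne_nil _ _, ?_, ?_⟩
        · intro k hk
          rcases List.mem_cons.1 hk with rfl | hk
          · exact Or.inl rfl
          · rcases key.1 k hk with h | h
            · exact Or.inl h
            · exact Or.inr (List.mem_cons_of_mem _ h)
        · intro hij
          have := key.2 hij
          simp only [List.sum_cons]
          omega
      · simp at hu

private theorem Nff_wp_cons (x : R) (l : List R) (h : l ≠ []) : wp (x :: l) = x * wp l := by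
  cases l with
  | nil => exact absurd rfl h
  | cons y l => rfl

private theorem Nff_sum_cons (v : ℕ → R) (a : ℕ) (U : List (List ℕ)) (h : ∀ u ∈ U, u ≠ []) :
    ((U.map (List.cons a)).map fun u => wp (u.map v)).sum =
      v a * (U.map fun u => wp (u.map v)).sum := by
  induction U with
  | nil => simp
  | cons u U ih =>
    have h1 := ih fun u' hu' => h u' (List.mem_cons_of_mem _ hu')
    have h2 : u.map v ≠ [] := by
      have := h u List.mem_cons_self
      simpa using this
    simp only [List.map_cons, List.sum_cons] at h1 ⊢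
    rw [h1, Nff_wp_cons _ _ h2, mul_add]

private theorem Nff_wp (i j : ℕ) (v : ℕ → R) (w : List ℕ) :
    wp (w.map (Function.update v j (v j + v i))) = wp (w.map v) +
      ((Nff_sub i j w).map fun u => wp (u.map v)).sum := by
  induction w with
  | nil => simp [Nff_sub]
  | cons a w ih =>
    have hne : ∀ u ∈ Nff_sub i j w, u ≠ [] := fun u hu => (Nff_sub_spec i j w u hu).1
    unfold Nff_sub
    rw [List.map_append, List.sum_append, Nff_sum_cons v a _ hne]
    by_cases hw : w = []
    · subst hw
      by_cases haj : a = j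
      · subst haj
        simp [Nff_sub, wp]
      · simp [Nff_sub, wp, haj]
    · have hw1 : w.map v ≠ [] := by simpa using hw
      have hw2 : w.map (Function.update v j (v j + v i)) ≠ [] := by simpa using hw
      rw [List.map_cons, List.map_cons, Nff_wp_cons _ _ hw1, Nff_wp_cons _ _ hw2, ih]
      by_cases haj : a = j
      · subst haj
        rw [if_pos rfl, Nff_sum_cons v i (w :: Nff_sub i a w) (by
          intro u hu
          rcases List.mem_cons.1 hu with rfl | h
          · exact hw
          · exact hne u h), List.map_cons, List.sum_cons, Function.update_self]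
        rw [add_mul, mul_add, mul_add]
        abel
      · rw [if_neg haj, Function.update_of_ne haj, mul_add, List.map_nil, List.sum_nil, add_zero]

/-- the combination for the difference -/
private def Nff_dif (i j : ℕ) (L : List (ℤ × List ℕ)) : List (ℤ × List ℕ) :=
  L.flatMap fun q => (Nff_sub i j q.2).map fun u => (q.1, u)

private theorem Nff_ev_one (c : ℤ) (U : List (List ℕ)) (v : ℕ → R) :
    ev (U.map fun u => (c, u)) v = c • (U.map fun u => wp (u.map v)).sum := by
  induction U with
  | nil => simp [ev]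
  | cons u U ih =>
    rw [List.map_cons, Wrd_ev_cons, ih, List.map_cons, List.sum_cons, smul_add]

private theorem Nff_ev_dif (i j : ℕ) (v : ℕ → R) (L : List (ℤ × List ℕ)) :
    ev L (Function.update v j (v j + v i)) = ev L v + ev (Nff_dif i j L) v := by
  induction L with
  | nil => simp [Nff_dif, ev]
  | cons q L ih =>
    have h1 : Nff_dif i j (q :: L) = ((Nff_sub i j q.2).map fun u => (q.1, u)) ++ Nff_dif i j L := by
      simp [Nff_dif]
    rw [h1, Wrd_ev_append, Nff_ev_one, Wrd_ev_cons, Wrd_ev_cons, ih, Nff_wp, smul_add]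
    abel

private theorem Nff_xs {g : ℕ} (x : Fin g → R) (j : Fin g) (u : R) :
    xs (Function.update x j u) = Function.update (xs x) j u := by
  funext k
  by_cases hk : k = j
  · subst hk
    rw [Function.update_self]
    simp [xs]
  · rw [Function.update_of_ne hk]
    by_cases hkg : k < g
    · have hne : (⟨k, hkg⟩ : Fin g) ≠ j := by
        intro h
        apply hk
        rw [← h]
      simp only [xs, hkg, dif_pos, Function.update_of_ne hne]
    · simp only [xs, hkg, dif_neg, not_false_eq_true]

private theorem Nff_xs_coe {g : ℕ} (x : Fin g → R) (j : Fin g) : xs x j = x j := by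
  simp [xs]

private theorem Nff_Vg {g : ℕ} (i j : Fin g) (L : List (ℤ × List ℕ)) (x : Fin g → R) :
    Vg L (Function.update x j (x j + x i)) = Vg L x + Vg (Nff_dif i j L) x := by
  unfold Vg
  rw [Nff_xs, ← Nff_ev_dif, Nff_xs_coe, Nff_xs_coe]

/-- the class of functions -/
private structure Nff_P (p g : ℕ) (H : AddSubgroup R) (L : List (ℤ × List ℕ)) : Prop where
  lst : ∀ q ∈ L, q.2 ≠ [] ∧ ∀ i ∈ q.2, i < g
  val : ∀ x : Fin g → R, Vg L x ∈ H
  cong : ∀ x y : Fin g → R, (∀ i, x i - y i ∈ KJ R p) → Vg L x = Vg L y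
  van : ∀ x : Fin g → R, NonUnitalSubring.closure (Set.range x) ≠ ⊤ → Vg L x = 0

private theorem Nff_P_dif {p g : ℕ} {L : List (ℤ × List ℕ)} (hL : Nff_P p g H L) (i j : Fin g) :
    Nff_P p g H (Nff_dif i j L) := by
  have hV : ∀ x : Fin g → R, Vg (Nff_dif i j L) x =
      Vg L (Function.update x j (x j + x i)) - Vg L x := by
    intro x
    rw [Nff_Vg]
    abel
  refine ⟨?_, ?_, ?_, ?_⟩
  · intro q hq
    unfold Nff_dif at hq
    rw [List.mem_flatMap] at hq
    obtain ⟨q₀, hq₀, hq⟩ := hq
    obtain ⟨u, hu, rfl⟩ := List.mem_map.1 hq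
    obtain ⟨h1, h2, -⟩ := Nff_sub_spec i j q₀.2 u hu
    refine ⟨h1, fun k hk => ?_⟩
    rcases h2 k hk with h | h
    · rw [h]
      exact i.2
    · exact (hL.lst q₀ hq₀).2 k h
  · intro x
    rw [hV]
    exact H.sub_mem (hL.val _) (hL.val _)
  · intro x y hxy
    rw [hV, hV, hL.cong x y hxy, hL.cong (Function.update x j (x j + x i))
      (Function.update y j (y j + y i))]
    intro k
    by_cases hk : k = j
    · subst hk
      rw [Function.update_self, Function.update_self]
      have h1 := (KJ R p).add_mem (hxy k) (hxy i)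
      have h2 : x k - y k + (x i - y i) = x k + x i - (y k + y i) := by abel
      rwa [h2] at h1
    · rw [Function.update_of_ne hk, Function.update_of_ne hk]
      exact hxy k
  · intro x hx
    rw [hV, hL.van x hx, hL.van (Function.update x j (x j + x i)), sub_zero]
    intro h
    apply hx
    rw [← top_le_iff, ← h, NonUnitalSubring.closure_le]
    rintro _ ⟨k, rfl⟩
    by_cases hk : k = j
    · subst hk
      rw [Function.update_self]
      exact add_mem (NonUnitalSubring.subset_closure ⟨k, rfl⟩)
        (NonUnitalSubring.subset_closure ⟨i, rfl⟩)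
    · rw [Function.update_of_ne hk]
      exact NonUnitalSubring.subset_closure ⟨k, rfl⟩

private theorem Nff_desc {p g : ℕ} (m : ℕ) : ∀ L : List (ℤ × List ℕ), Nff_P p g H L →
    (∀ q ∈ L, q.2.sum < m) → (∃ x : Fin g → R, Vg L x ≠ 0) →
    ∃ G : List (ℤ × List ℕ), Nff_P p g H G ∧ (∃ x : Fin g → R, Vg G x ≠ 0) ∧
      ∀ i j : Fin g, i < j → ∀ x : Fin g → R, Vg G (Function.update x j (x j + x i)) = Vg G x := by
  induction m with
  | zero =>
    intro L _ hm hne
    exfalso
    obtain ⟨x, hx⟩ := hne
    apply hx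
    have : L = [] := by
      rw [List.eq_nil_iff_forall_not_mem]
      intro q hq
      exact Nat.not_lt_zero _ (hm q hq)
    rw [this]
    rfl
  | succ m ih =>
    intro L hL hm hne
    by_cases hall : ∀ i j : Fin g, i < j → ∀ x : Fin g → R,
        Vg L (Function.update x j (x j + x i)) = Vg L x
    · exact ⟨L, hL, hne, hall⟩
    · push Not at hall
      obtain ⟨i, j, hij, x, hx⟩ := hall
      refine ih (Nff_dif i j L) (Nff_P_dif hL i j) ?_ ⟨x, ?_⟩
      · intro q hq
        unfold Nff_dif at hq
        rw [List.mem_flatMap] at hq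
        obtain ⟨q₀, hq₀, hq⟩ := hq
        obtain ⟨u, hu, rfl⟩ := List.mem_map.1 hq
        have h1 := (Nff_sub_spec i j q₀.2 u hu).2.2 hij
        have h2 := hm q₀ hq₀
        change u.sum < m
        omega
      · intro h0
        apply hx
        rw [Nff_Vg, h0, add_zero]

private theorem Nff_inv {p g : ℕ} {G : List (ℤ × List ℕ)} (hG : Nff_P p g H G)
    (hN : ∀ i j : Fin g, i < j → ∀ x : Fin g → R,
      Vg G (Function.update x j (x j + x i)) = Vg G x) (x : Fin g → R) (j : Fin g) (y : R)
    (hy : y ∈ KJ R p ⊔ AddSubgroup.closure {w | ∃ i, i < j ∧ w = x i}) :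
    Vg G (Function.update x j (x j + y)) = Vg G x := by
  let Y : AddSubgroup R :=
    { carrier := {y | ∀ u, Vg G (Function.update x j (u + y)) = Vg G (Function.update x j u)}
      add_mem' := by
        intro a c ha hc u
        rw [← add_assoc, hc, ha]
      zero_mem' := by
        intro u
        rw [add_zero]
      neg_mem' := by
        intro a ha u
        have h := ha (u + -a)
        rw [neg_add_cancel_right] at h
        exact h.symm }
  have hle : KJ R p ⊔ AddSubgroup.closure {w | ∃ i, i < j ∧ w = x i} ≤ Y := by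
    refine sup_le ?_ ?_
    · intro a ha u
      refine hG.cong _ _ fun k => ?_
      by_cases hk : k = j
      · subst hk
        rw [Function.update_self, Function.update_self, add_sub_cancel_left]
        exact ha
      · rw [Function.update_of_ne hk, Function.update_of_ne hk, sub_self]
        exact (KJ R p).zero_mem
    · rw [AddSubgroup.closure_le]
      rintro _ ⟨i, hij, rfl⟩ u
      have h := hN i j hij (Function.update x j u)
      rw [Function.update_self, Function.update_of_ne hij.ne, Function.update_idem] at h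
      exact h
  have h := hle hy (x j)
  rw [Function.update_eq_self] at h
  exact h

private theorem Nff_tm (L : List (ℤ × List ℕ)) : TmF (R := R) (fun v => ev L v) := by
  induction L with
  | nil =>
    have h := Cvm_tmf_zsmul (R := R) (TmF.var (R := R) 0) 0
    have h2 : (fun v : ℕ → R => ev [] v) = fun v => (0 : ℤ) • v 0 := by
      funext v
      rw [Wrd_ev_nil, zero_smul]
    rw [h2]
    exact h
  | cons q L ih =>
    have h2 : (fun v : ℕ → R => ev (q :: L) v) = fun v => q.1 • wp (q.2.map v) + ev L v := by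
      funext v
      rw [Wrd_ev_cons]
    rw [h2]
    exact (Cvm_tmf_zsmul (Cvm_tmf_wp q.2) q.1).add ih

end

open Classical in
theorem thm_Nff (hFle : St_Fle) : St_Nff := by
  intro n p R _ _ hC hn hcr
  obtain ⟨H, hH⟩ := CRN.thm_Sir R hcr
  obtain ⟨s, b, φ, -, hφ⟩ := CRL.sel n p R hC hcr H hH
  obtain ⟨v₀, hv₀, hne₀⟩ := hφ.ne
  obtain rfl : s = 0 := Nff_s hn v₀ hv₀
  obtain ⟨M, hM5, hM⟩ := CRL.bnd n p R hC
  -- `p H = 0`
  have hp : ∀ h ∈ H, p • h = 0 := by
    let I : AddSubgroup R :=
      { carrier := {h | h ∈ H ∧ p • h = 0}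
        add_mem' := by
          rintro a c ⟨ha, ha'⟩ ⟨hc, hc'⟩
          exact ⟨H.add_mem ha hc, by rw [smul_add, ha', hc', add_zero]⟩
        zero_mem' := ⟨H.zero_mem, smul_zero _⟩
        neg_mem' := by
          rintro a ⟨ha, ha'⟩
          exact ⟨H.neg_mem ha, by rw [smul_neg, ha', neg_zero]⟩ }
    have hI : Idl R I := by
      rintro r x ⟨hx, hx'⟩
      obtain ⟨h1, h2⟩ := hH.1 r x hx
      exact ⟨⟨h1, by rw [← mul_smul_comm, hx', mul_zero]⟩,
        ⟨h2, by rw [← smul_mul_assoc, hx', zero_mul]⟩⟩
    have hIne : I ≠ ⊥ := by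
      intro h0
      apply hH.2.1
      obtain ⟨r, hr⟩ := hC.pr
      have key : ∀ r : ℕ, ∀ x ∈ H, (p ^ r) • x = 0 → x = 0 := by
        intro r
        induction r with
        | zero =>
          intro x _ hx
          simpa using hx
        | succ r ih =>
          intro x hx hx'
          apply ih x hx
          have h1 : (p ^ r) • x ∈ I := by
            refine ⟨H.nsmul_mem hx _, ?_⟩
            rw [← mul_smul, mul_comm, ← pow_succ]
            exact hx'
          rw [h0, AddSubgroup.mem_bot] at h1
          exact h1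
      rw [AddSubgroup.eq_bot_iff_forall]
      exact fun x hx => key r x hx (hr x)
    intro h hh
    exact (hH.2.2 I hI hIne hh).2
  -- the minimal number of generators
  have hgen : ∃ g : ℕ, ∃ z : Fin g → R, NonUnitalSubring.closure (Set.range z) = ⊤ := by
    obtain ⟨g, ⟨e⟩⟩ := Finite.exists_equiv_fin R
    refine ⟨g, fun i => e.symm i, ?_⟩
    rw [e.symm.surjective.range_eq, NonUnitalSubring.closure_univ]
  obtain ⟨z, hz⟩ := Nat.find_spec hgen
  have hmin : ∀ k, k < Nat.find hgen → ∀ a : Fin k → R,
      NonUnitalSubring.closure (Set.range a) ≠ ⊤ := by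
    intro k hk a ha
    exact Nat.find_min hgen hk ⟨a, ha⟩
  generalize Nat.find hgen = g at z hz hmin
  -- g is positive
  have hgpos : 0 < g := by
    rcases Nat.eq_zero_or_pos g with rfl | h
    · exfalso
      apply hH.2.1
      rw [Set.range_eq_empty, NonUnitalSubring.closure_empty] at hz
      rw [eq_bot_iff]
      intro x _
      have hx : x ∈ (⊤ : NonUnitalSubring R) := NonUnitalSubring.mem_top x
      rw [← hz, NonUnitalSubring.mem_bot] at hx
      rw [hx]
      exact AddSubgroup.zero_mem _
    · exact h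
  -- the words
  obtain ⟨L₀, hL1, hL2⟩ := CRL.thm_Wrx R φ hφ.tm ((Finset.range b).image (fun k => 0 + k))
  have hev : ∀ v, φ v = ev L₀ v := fun v => Bkw_ev hφ.toGb.toGa hL2 v (Nff_vec hn v)
  -- a nonzero value at generators
  obtain ⟨v', hv'1, hv'2⟩ := Nff_iter hn hφ hp z hz v₀ hne₀ b le_rfl
  let ι : ℕ → Fin g := fun k => if h : k < b then (hv'1 k h).choose else ⟨0, hgpos⟩
  have hι : ∀ k, k < b → v' k = z (ι k) := by
    intro k hk
    simp only [ι, dif_pos hk]
    exact (hv'1 k hk).choose_spec
  have hne : φ (fun k => z (ι k)) ≠ 0 := by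
    have : φ (fun k => z (ι k)) = φ v' := by
      apply hφ.dep
      intro i hi
      exact (hι i (by omega)).symm
    rw [this]
    exact hv'2
  -- the first list
  let L : List (ℤ × List ℕ) := L₀.map fun q => (q.1, q.2.map fun k => ((ι k : Fin g) : ℕ))
  have hV : ∀ x : Fin g → R, Vg L x = φ (fun k => x (ι k)) := by
    intro x
    have hx : (fun k => xs x ((ι k : Fin g) : ℕ)) = fun k => x (ι k) := by
      funext k
      simp only [xs, (ι k).2, dif_pos]
    unfold Vg
    rw [Nff_ev_map, hx, hev]
  have hP : Nff_P p g H L := by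
    refine ⟨?_, ?_, ?_, ?_⟩
    · intro q hq
      obtain ⟨q₀, hq₀, rfl⟩ := List.mem_map.1 hq
      obtain ⟨h1, h2⟩ := hL1 q₀ hq₀
      refine ⟨by simpa using h1, ?_⟩
      intro i hi
      simp only [List.mem_map] at hi
      obtain ⟨k, -, rfl⟩ := hi
      exact (ι k).2
    · intro x
      rw [hV]
      exact hφ.val _ (Nff_vec hn _)
    · intro x y hxy
      rw [hV, hV]
      exact Nff_congr hn hφ hp _ _ fun k => hxy (ι k)
    · intro x hx
      rw [hV]
      exact hφ.van _ (Nff_vec hn _) _ hx fun i _ => NonUnitalSubring.subset_closure ⟨ι i, rfl⟩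
  -- descent
  obtain ⟨m, hm⟩ : ∃ m, ∀ q ∈ L, q.2.sum < m := by
    refine ⟨(L.map fun q => q.2.sum).sum + 1, fun q hq => Nat.lt_succ_of_le ?_⟩
    exact List.single_le_sum (fun _ _ => Nat.zero_le _) _ (List.mem_map_of_mem hq)
  obtain ⟨G, hG, ⟨y₀, hy₀⟩, hN⟩ := Nff_desc m L hP hm ⟨z, by rw [hV]; exact hne⟩
  -- the value is zero if a variable is zero
  have hzero : ∀ (x : Fin g → R) (k : Fin g), x k = 0 → Vg G x = 0 := by
    intro x k hk
    apply hG.van
    obtain ⟨g', rfl⟩ : ∃ g', g = g' + 1 := ⟨g - 1, by omega⟩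
    intro h
    refine hmin g' (Nat.lt_succ_self g') (fun i => x (k.succAbove i)) ?_
    rw [← top_le_iff, ← h, NonUnitalSubring.closure_le]
    rintro _ ⟨i, rfl⟩
    by_cases hik : i = k
    · rw [hik, hk]
      exact zero_mem _
    · obtain ⟨i', hi'⟩ := Fin.exists_succAbove_eq hik
      exact NonUnitalSubring.subset_closure ⟨i', by simp only [hi']⟩
  -- the words which contain all letters
  obtain ⟨L₁, hL₁, hL₁'⟩ := CRL.thm_Wrx R (fun v => ev G v) (Nff_tm G) (Finset.range g)
  have hGL : ∀ x : Fin g → R, ev L₁ (xs x) = Vg G x := by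
    intro x
    rw [← hL₁' (xs x)]
    · rfl
    · intro A hA ⟨k, hk⟩
      have hkg : k < g := Finset.mem_range.1 (hA hk)
      have h1 : zr (A : Set ℕ) (xs x) = xs (fun i : Fin g => if (i : ℕ) ∈ A then 0 else x i) := by
        funext i
        by_cases hi : i ∈ A
        · simp [zr, xs, hi]
        · simp [zr, xs, hi]
      rw [h1]
      exact hzero (fun i : Fin g => if (i : ℕ) ∈ A then 0 else x i) ⟨k, hkg⟩ (by simp [hk])
  let P : ℤ × List ℕ → Bool := fun q => decide ((∀ i ∈ q.2, i < g) ∧ (∀ i, q.2.count i ≤ 3) ∧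
    ((Nat.card R).Coprime 6 → q.2.length ≤ 5))
  have hV2 : ∀ x : Fin g → R, Vg (L₁.filter P) x = Vg G x := by
    intro x
    rw [← hGL]
    unfold Vg
    apply Nff_ev_filter
    intro q _ hq
    have hq' : ¬ ((∀ i ∈ q.2, i < g) ∧ (∀ i, q.2.count i ≤ 3) ∧
        ((Nat.card R).Coprime 6 → q.2.length ≤ 5)) := of_decide_eq_false hq
    rw [not_and_or, not_and_or] at hq'
    rcases hq' with h | h | h
    · push Not at h
      obtain ⟨i, hi, hig⟩ := h
      apply Wrd_wp_zero
      rw [List.mem_map]
      exact ⟨i, hi, by simp [xs, not_lt.2 hig]⟩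
    · push Not at h
      obtain ⟨i, hi⟩ := h
      exact hFle.1 R hn (xs x) q.2 i (by omega)
    · push Not at h
      have h5 := hM5 h.1
      refine hM (q.2.map (xs x)) (q.2.map (xs x)) (List.Sublist.refl _) (fun y _ => hn y) ?_
      rw [List.length_map, h5]
      exact h.2
  refine ⟨hn, p, H, hC.pp, hC.pr, hH, g, L₁.filter P, ⟨z, hz⟩, ?_, ?_, ⟨y₀, ?_⟩⟩
  · intro q hq
    rw [List.mem_filter] at hq
    obtain ⟨hq1, hq2⟩ := hq
    have hq3 : (∀ i ∈ q.2, i < g) ∧ (∀ i, q.2.count i ≤ 3) ∧
      ((Nat.card R).Coprime 6 → q.2.length ≤ 5) := of_decide_eq_true hq2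
    obtain ⟨h1, h2⟩ := hL₁ q hq1
    exact ⟨h1, fun i => ⟨hq3.1 i, fun hi => h2 i (Finset.mem_range.2 hi)⟩, hq3.2.1, hq3.2.2⟩
  · intro x
    rw [hV2]
    refine ⟨hG.val x, fun j y hy => ?_⟩
    rw [hV2]
    exact Nff_inv hG hN x j y hy
  · rw [hV2]
    exact hy₀

end Pool.Agent.CRM
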