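import Pool.Agent.CRM.Std
import Pool.Agent.CRL.All

/-!
Campaign CRM (problem MP_1bb14d_al, stage 4): NGF, nilpotent critical rings are of the nilpotent type.
-/

set_option autoImplicit false

namespace Pool.Agent.CRM

open Pool.Agent.CRR Pool.Agent.CRN Pool.Agent.CRK Pool.Agent.CRL

section

variable {R : Type} [NonUnitalRing R]

private theorem Ngf_vec {n b : ℕ} (hn : ∀ x : R, x * x * x = 0) (v : ℕ → R) :
    Vec n 0 b v := by
  refine ⟨⟨fun i => i.elim0, fun i => i.elim0, fun i => i.elim0, fun i => i.elim0,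
    fun g hg _ => ?_⟩, fun k _ => hn _⟩
  have h := hn g
  rw [hg, hg] at h
  exact h

private theorem Ngf_pw (hn : ∀ x : R, x * x * x = 0) (x : R) (k : ℕ) : pw x (k + 2) = 0 := by
  induction k with
  | zero => exact hn x
  | succ k ih =>
    have : pw x (k + 1 + 2) = pw x (k + 2) * x := rfl
    rw [this, ih, zero_mul]

private theorem Ngf_s {n s b : ℕ} (hn : ∀ x : R, x * x * x = 0) (v : ℕ → R)
    (hv : Vec n s b v) : s = 0 := by
  by_contra hs
  have hs' : 0 < s := Nat.pos_of_ne_zero hs
  obtain ⟨m, hm1, -, hm⟩ := hv.1.per ⟨0, hs'⟩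
  apply hv.1.ne ⟨0, hs'⟩
  obtain ⟨k, rfl⟩ : ∃ k, m = k + 1 := ⟨m - 1, by omega⟩
  cases k with
  | zero =>
    have h1 : v 0 * v 0 = v 0 := hm
    have h2 := hn (v 0)
    rw [h1, h1] at h2
    exact h2
  | succ k =>
    have h1 : pw (v 0) (k + 2) = v 0 := hm
    rw [Ngf_pw hn] at h1
    exact h1.symm

private theorem Ngf_span {g : ℕ} (z : Fin g → R)
    (hz : NonUnitalSubring.closure (Set.range z) = ⊤) (r : R) :
    r ∈ AddSubgroup.closure (Set.range z) ⊔ Sq R := by
  have hr : r ∈ NonUnitalSubring.closure (Set.range z) := by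
    rw [hz]; exact NonUnitalSubring.mem_top r
  induction hr using NonUnitalSubring.closure_induction with
  | mem x hx => exact AddSubgroup.mem_sup_left (AddSubgroup.subset_closure hx)
  | zero => exact AddSubgroup.zero_mem _
  | add x y _ _ hx hy => exact AddSubgroup.add_mem _ hx hy
  | neg x _ hx => exact AddSubgroup.neg_mem _ hx
  | mul x y _ _ _ _ =>
    exact AddSubgroup.mem_sup_right (AddSubgroup.subset_closure ⟨x, y, rfl⟩)

variable {n b : ℕ} {H : AddSubgroup R} {φ : (ℕ → R) → R}

private theorem Ngf_hom (hn : ∀ x : R, x * x * x = 0) (hφ : Gc n 0 b H φ) (v : ℕ → R) (k : ℕ)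
    (hk : k < b) : ∃ f : R →+ R, (∀ y, f y = φ (Function.update v k y)) ∧ ∀ y ∈ Sq R, f y = 0 := by
  have hadd : ∀ y z, φ (Function.update v k (y + z)) =
      φ (Function.update v k y) + φ (Function.update v k z) := by
    intro y z
    have h := hφ.add v (Ngf_vec hn v) k hk y z (hn y) (hn z)
    simpa only [zero_add] using h
  refine ⟨AddMonoidHom.mk' (fun y => φ (Function.update v k y)) hadd, fun _ => rfl, ?_⟩
  intro y hy
  have hle : Sq R ≤ (AddMonoidHom.mk' (fun y => φ (Function.update v k y)) hadd).ker := by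
    unfold Sq
    rw [AddSubgroup.closure_le]
    rintro x ⟨a, c, rfl⟩
    have h := hφ.sq v (Ngf_vec hn v) k hk a c (hn a) (hn c)
    rw [zero_add] at h
    exact h
  exact hle hy

private theorem Ngf_step (hn : ∀ x : R, x * x * x = 0) (hφ : Gc n 0 b H φ) {g : ℕ}
    (z : Fin g → R) (hz : NonUnitalSubring.closure (Set.range z) = ⊤) (v : ℕ → R) (k : ℕ)
    (hk : k < b) (hne : φ v ≠ 0) : ∃ i, φ (Function.update v k (z i)) ≠ 0 := by
  by_contra hcon
  push Not at hcon
  obtain ⟨f, hf, hsq⟩ := Ngf_hom hn hφ v k hk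
  have h2 : AddSubgroup.closure (Set.range z) ⊔ Sq R ≤ f.ker := by
    refine sup_le ?_ fun y hy => hsq y hy
    rw [AddSubgroup.closure_le]
    rintro _ ⟨i, rfl⟩
    change f (z i) = 0
    rw [hf]
    exact hcon i
  have h3 : f (v k) = 0 := h2 (Ngf_span z hz (v k))
  rw [hf, Function.update_eq_self] at h3
  exact hne h3

private theorem Ngf_iter (hn : ∀ x : R, x * x * x = 0) (hφ : Gc n 0 b H φ) {g : ℕ}
    (z : Fin g → R) (hz : NonUnitalSubring.closure (Set.range z) = ⊤) (v : ℕ → R)
    (hne : φ v ≠ 0) (j : ℕ) (hj : j ≤ b) :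
    ∃ v' : ℕ → R, (∀ k, k < j → ∃ i, v' k = z i) ∧ φ v' ≠ 0 := by
  induction j with
  | zero => exact ⟨v, fun k hk => absurd hk (Nat.not_lt_zero k), hne⟩
  | succ j ih =>
    obtain ⟨v', h1, h2⟩ := ih (by omega)
    obtain ⟨i, hi⟩ := Ngf_step hn hφ z hz v' j (by omega) h2
    refine ⟨Function.update v' j (z i), ?_, hi⟩
    intro k hk
    rcases Nat.lt_succ_iff_lt_or_eq.1 hk with hk' | rfl
    · obtain ⟨i', hi'⟩ := h1 k hk'
      exact ⟨i', by rw [Function.update_of_ne hk'.ne]; exact hi'⟩
    · exact ⟨i, by rw [Function.update_self]⟩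

private theorem Ngf_congr (hn : ∀ x : R, x * x * x = 0) (hφ : Gc n 0 b H φ) (v w : ℕ → R)
    (h : ∀ k, v k - w k ∈ Sq R) : φ v = φ w := by
  have key : ∀ j, j ≤ b → φ v = φ (fun k => if k < j then w k else v k) := by
    intro j
    induction j with
    | zero =>
      intro _
      simp
    | succ j ih =>
      intro hj
      rw [ih (by omega)]
      obtain ⟨f, hf, hsq⟩ := Ngf_hom hn hφ (fun k => if k < j then w k else v k) j (by omega)
      have e1 : (fun k => if k < j then w k else v k) =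
          Function.update (fun k => if k < j then w k else v k) j (v j) := by
        funext k
        by_cases hk : k = j
        · subst hk
          simp
        · rw [Function.update_of_ne hk]
      have e2 : (fun k => if k < j + 1 then w k else v k) =
          Function.update (fun k => if k < j then w k else v k) j (w j) := by
        funext k
        by_cases hk : k = j
        · subst hk
          simp
        · rw [Function.update_of_ne hk]
          have : k < j + 1 ↔ k < j := by omega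
          simp only [this]
      rw [e2, ← hf]
      conv_lhs => rw [e1]
      rw [← hf]
      have h3 := hsq _ (h j)
      rw [map_sub, sub_eq_zero] at h3
      exact h3
  rw [key b le_rfl]
  apply hφ.dep
  intro i hi
  have hi' : i < b := by omega
  simp only [hi', if_true]

private theorem Ngf_ev_map (L : List (ℤ × List ℕ)) (ι : ℕ → ℕ) (v : ℕ → R) :
    ev (L.map fun q => (q.1, q.2.map ι)) v = ev L (fun k => v (ι k)) := by
  induction L with
  | nil => rfl
  | cons q L ih =>
    rw [List.map_cons, Wrd_ev_cons, Wrd_ev_cons, ih, List.map_map]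
    rfl

private theorem Ngf_ev_filter (L : List (ℤ × List ℕ)) (P : ℤ × List ℕ → Bool) (v : ℕ → R)
    (h : ∀ q ∈ L, P q = false → wp (q.2.map v) = 0) : ev (L.filter P) v = ev L v := by
  rw [Wrd_ev_filter P L v]
  have h2 : ev (L.filter fun p => !P p) v = 0 := by
    apply Bdd_ev
    intro q hq
    rw [List.mem_filter] at hq
    exact h q hq.1 (by simpa using hq.2)
  rw [h2, add_zero]

end

open Classical in
theorem thm_Ngf (hFle : St_Fle) : St_Ngf := by
  intro n p R _ _ hC hn hcr
  obtain ⟨H, hH⟩ := CRN.thm_Sir R hcr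
  obtain ⟨s, b, φ, -, hφ⟩ := CRL.sel n p R hC hcr H hH
  obtain ⟨v₀, hv₀, hne₀⟩ := hφ.ne
  obtain rfl : s = 0 := Ngf_s hn v₀ hv₀
  obtain ⟨M, hM5, hM⟩ := CRL.bnd n p R hC
  -- the minimal number of generators
  have hgen : ∃ g : ℕ, ∃ z : Fin g → R, NonUnitalSubring.closure (Set.range z) = ⊤ := by
    obtain ⟨g, ⟨e⟩⟩ := Finite.exists_equiv_fin R
    refine ⟨g, fun i => e.symm i, ?_⟩
    rw [e.symm.surjective.range_eq, NonUnitalSubring.closure_univ]
  obtain ⟨z, hz⟩ := Nat.find_spec hgen
  have hmin : ∀ k, k < Nat.find hgen → ∀ a : Fin k → R,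
      NonUnitalSubring.closure (Set.range a) ≠ ⊤ := by
    intro k hk a ha
    exact Nat.find_min hgen hk ⟨a, ha⟩
  generalize Nat.find hgen = g at z hz hmin
  -- g is positive
  have hgpos : 0 < g := by
    rcases Nat.eq_zero_or_pos g with rfl | h
    · exfalso
      apply hH.2.1
      rw [Set.range_eq_empty, NonUnitalSubring.closure_empty] at hz
      rw [eq_bot_iff]
      intro x _
      have hx : x ∈ (⊤ : NonUnitalSubring R) := NonUnitalSubring.mem_top x
      rw [← hz, NonUnitalSubring.mem_bot] at hx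
      rw [hx]
      exact AddSubgroup.zero_mem _
    · exact h
  -- the words
  obtain ⟨L₀, hL1, hL2⟩ := CRL.thm_Wrx R φ hφ.tm ((Finset.range b).image (fun k => 0 + k))
  have hev : ∀ v, φ v = ev L₀ v := fun v => Bkw_ev hφ.toGb.toGa hL2 v (Ngf_vec hn v)
  -- a nonzero value at generators
  obtain ⟨v', hv'1, hv'2⟩ := Ngf_iter hn hφ z hz v₀ hne₀ b le_rfl
  let ι : ℕ → Fin g := fun k => if h : k < b then (hv'1 k h).choose else ⟨0, hgpos⟩
  have hι : ∀ k, k < b → v' k = z (ι k) := by
    intro k hk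
    simp only [ι, dif_pos hk]
    exact (hv'1 k hk).choose_spec
  have hne : φ (fun k => z (ι k)) ≠ 0 := by
    have : φ (fun k => z (ι k)) = φ v' := by
      apply hφ.dep
      intro i hi
      exact (hι i (by omega)).symm
    rw [this]
    exact hv'2
  -- surjectivity
  have hsurj : ∀ i : Fin g, ∃ k, k < b ∧ ι k = i := by
    intro i₀
    by_contra hcon
    push Not at hcon
    apply hne
    obtain ⟨g', rfl⟩ : ∃ g', g = g' + 1 := ⟨g - 1, by omega⟩
    refine hφ.van _ (Ngf_vec hn _)
      (NonUnitalSubring.closure (Set.range fun i : Fin g' => z (i₀.succAbove i)))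
      (hmin g' (Nat.lt_succ_self g') _) ?_
    intro k hk
    have hk' : ι k ≠ i₀ := hcon k (by omega)
    obtain ⟨i, hi⟩ := Fin.exists_succAbove_eq hk'
    apply NonUnitalSubring.subset_closure
    exact ⟨i, by simp only [hi]⟩
  -- the list
  let P : ℤ × List ℕ → Bool := fun q => decide ((∀ i, q.2.count i ≤ 3) ∧
    ((Nat.card R).Coprime 6 → q.2.length ≤ 5))
  let L : List (ℤ × List ℕ) := (L₀.map fun q => (q.1, q.2.map fun k => ((ι k : Fin g) : ℕ))).filter P
  have hV : ∀ x : Fin g → R, Vg L x = φ (fun k => x (ι k)) := by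
    intro x
    have hx : (fun k => xs x ((ι k : Fin g) : ℕ)) = fun k => x (ι k) := by
      funext k
      simp only [xs, (ι k).2, dif_pos]
    unfold Vg
    rw [Ngf_ev_filter, Ngf_ev_map, hx, hev]
    intro q _ hq
    have hq' : ¬ ((∀ i, q.2.count i ≤ 3) ∧ ((Nat.card R).Coprime 6 → q.2.length ≤ 5)) :=
      of_decide_eq_false hq
    rw [not_and_or] at hq'
    rcases hq' with h | h
    · push Not at h
      obtain ⟨i, hi⟩ := h
      exact hFle.1 R hn (xs x) q.2 i (by omega)
    · push Not at h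
      have h5 := hM5 h.1
      refine hM (q.2.map (xs x)) (q.2.map (xs x)) (List.Sublist.refl _) (fun y _ => hn y) ?_
      rw [List.length_map, h5]
      exact h.2
  refine ⟨hn, H, hH, g, L, hmin, ?_, ?_, ?_, ?_, ?_⟩
  · intro q hq
    rw [List.mem_filter] at hq
    obtain ⟨hq1, hq2⟩ := hq
    have hq3 : (∀ i, q.2.count i ≤ 3) ∧ ((Nat.card R).Coprime 6 → q.2.length ≤ 5) :=
      of_decide_eq_true hq2
    obtain ⟨q₀, hq₀, rfl⟩ := List.mem_map.1 hq1
    obtain ⟨h1, h2⟩ := hL1 q₀ hq₀
    refine ⟨?_, ?_, hq3.1, hq3.2⟩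
    · simpa using h1
    · intro i
      simp only [List.mem_map]
      constructor
      · rintro ⟨k, -, rfl⟩
        exact (ι k).2
      · intro hi
        obtain ⟨k, hk, hki⟩ := hsurj ⟨i, hi⟩
        refine ⟨k, ?_, by rw [hki]⟩
        have := h2 (0 + k) (Finset.mem_image.2 ⟨k, Finset.mem_range.2 hk, rfl⟩)
        rwa [zero_add] at this
  · intro x
    rw [hV]
    exact hφ.val _ (Ngf_vec hn _)
  · intro x y hxy
    rw [hV, hV]
    exact Ngf_congr hn hφ _ _ fun k => hxy (ι k)
  · intro x hx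
    rw [hV]
    exact hφ.van _ (Ngf_vec hn _) _ hx fun i _ => NonUnitalSubring.subset_closure ⟨ι i, rfl⟩
  · exact ⟨z, by rw [hV]; exact hne⟩

end Pool.Agent.CRM
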