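import Pool.Agent.CRM.Std

/-!
Campaign CRM, module Nid: identities in a ring with `x^3 = 0` (helper52).
-/

set_option autoImplicit false

namespace Pool.Agent.CRM

open Pool.Agent.CRR Pool.Agent.CRN Pool.Agent.CRK Pool.Agent.CRL

section

variable {R : Type} [NonUnitalRing R]

/-- `xxa + xax + axx`. -/
def NidA (x a : R) : R := x * x * a + x * a * x + a * x * x

theorem Nid_P (h : ∀ x : R, x * x * x = 0) (a b c : R) :
    a * b * c + a * c * b + b * a * c + b * c * a + c * a * b + c * b * a = 0 := by
  have h1 := h (a + b + c)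
  have h2 := h (a + b)
  have h3 := h (a + c)
  have h4 := h (b + c)
  have h5 := h a
  have h6 := h b
  have h7 := h c
  have h8 : a * b * c + a * c * b + b * a * c + b * c * a + c * a * b + c * b * a =
      (a + b + c) * (a + b + c) * (a + b + c) - (a + b) * (a + b) * (a + b) -
      (a + c) * (a + c) * (a + c) - (b + c) * (b + c) * (b + c) + a * a * a + b * b * b +
      c * c * c := by
    simp only [mul_add, add_mul, mul_assoc]
    abel
  rw [h8, h1, h2, h3, h4, h5, h6, h7]
  simp

theorem Nid_two (h : ∀ x : R, x * x * x = 0) (x a : R) : NidA x a + NidA x a = 0 := by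
  have h1 := Nid_P h x x a
  have h2 : NidA x a + NidA x a =
      x * x * a + x * a * x + x * x * a + x * a * x + a * x * x + a * x * x := by
    unfold NidA
    abel
  rw [h2, h1]

theorem Nid_sym (h : ∀ x : R, x * x * x = 0) (x a : R) : NidA x a = NidA a x := by
  have h1 := h (x + a)
  have h2 := h x
  have h3 := h a
  have h4 : NidA x a + NidA a x =
      (x + a) * (x + a) * (x + a) - x * x * x - a * a * a := by
    unfold NidA
    simp only [mul_add, add_mul, mul_assoc]
    abel
  rw [h1, h2, h3] at h4
  have h5 : NidA x a + NidA a x = 0 := by rw [h4]; simp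
  rw [eq_neg_of_add_eq_zero_left h5]
  exact (eq_neg_of_add_eq_zero_left (Nid_two h a x)).symm

theorem Nid_l0 (h : ∀ x : R, x * x * x = 0) (x a : R) : x * NidA x a = 0 := by
  have h1 := Nid_P h (x * x) a x
  have h2 : x * NidA x a = (x * x * a * x + x * x * x * a + a * (x * x) * x + a * x * (x * x) +
      x * (x * x) * a + x * a * (x * x)) - x * x * x * a - a * (x * x * x) - a * (x * x * x) := by
    unfold NidA
    simp only [mul_add, mul_assoc]
    abel
  rw [h2, h1, h x, zero_mul, mul_zero]
  simp

theorem Nid_r0 (h : ∀ x : R, x * x * x = 0) (x a : R) : NidA x a * x = 0 := by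
  have h1 := Nid_P h (x * x) a x
  have h2 : NidA x a * x = (x * x * a * x + x * x * x * a + a * (x * x) * x + a * x * (x * x) +
      x * (x * x) * a + x * a * (x * x)) - x * x * x * a - x * x * x * a - a * (x * x * x) := by
    unfold NidA
    simp only [add_mul, mul_assoc]
    abel
  rw [h2, h1, h x, zero_mul, mul_zero]
  simp

theorem Nid_add (h : ∀ x : R, x * x * x = 0) (x b a : R) :
    NidA (x + b) a = NidA x a + NidA b a := by
  have h1 := Nid_P h x b a
  have h2 : NidA (x + b) a = NidA x a + NidA b a +
      (x * b * a + x * a * b + b * x * a + b * a * x + a * x * b + a * b * x) := by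
    unfold NidA
    simp only [mul_add, add_mul]
    abel
  rw [h2, h1, add_zero]

theorem Nid_l (h : ∀ x : R, x * x * x = 0) (b x a : R) : b * NidA x a = x * NidA b a := by
  have h1 := Nid_l0 h (x + b) a
  rw [Nid_add h, add_mul, mul_add, mul_add, Nid_l0 h x a, Nid_l0 h b a, zero_add, add_zero] at h1
  rw [eq_neg_of_add_eq_zero_right h1]
  have h2 := Nid_two h b a
  have h3 : x * NidA b a + x * NidA b a = 0 := by rw [← mul_add, h2, mul_zero]
  exact (eq_neg_of_add_eq_zero_left h3).symm

theorem Nid_r (h : ∀ x : R, x * x * x = 0) (b x a : R) : NidA x a * b = NidA b a * x := by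
  have h1 := Nid_r0 h (x + b) a
  rw [Nid_add h, mul_add, add_mul, add_mul, Nid_r0 h x a, Nid_r0 h b a, zero_add, add_zero] at h1
  rw [eq_neg_of_add_eq_zero_right h1]
  have h2 := Nid_two h b a
  have h3 : NidA b a * x + NidA b a * x = 0 := by rw [← add_mul, h2, zero_mul]
  exact (eq_neg_of_add_eq_zero_left h3).symm

theorem Nid_w (h : ∀ x : R, x * x * x = 0) (x a w : R) : NidA x a * w = NidA x w * a := by
  rw [Nid_sym h x a, Nid_r h w a x, Nid_sym h w x]

theorem Nid_mid (x a : R) : x * a * x = NidA x a - x * x * a - a * x * x := by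
  unfold NidA
  abel

/-- (6) -/
theorem Nid_six (h : ∀ x : R, x * x * x = 0) (x b : R) : x * x * b * x * x = 0 := by
  have h1 : x * x * b * x * x = x * NidA x b * x - x * x * x * b * x - x * b * (x * x * x) := by
    unfold NidA
    simp only [mul_add, add_mul, mul_assoc]
    abel
  rw [h1, Nid_l0 h, h x]
  simp

/-- (7) -/
theorem Nid_sev (h : ∀ x : R, x * x * x = 0) (x b c : R) : x * x * b * x * c * x = 0 := by
  have h1 : x * x * b * x * c * x =
      x * x * (b * NidA x c) - x * x * b * x * x * c - x * x * (b * c) * x * x := by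
    unfold NidA
    simp only [mul_add, mul_assoc]
    abel
  rw [h1, Nid_l h b x c, ← mul_assoc (x * x) x, h x, Nid_six h, Nid_six h]
  simp

/-- (8) -/
theorem Nid_eig (h : ∀ x : R, x * x * x = 0) (x b c : R) : x * b * x * x * c * x = 0 := by
  have h1 : x * b * x * x * c * x =
      x * NidA x b * c * x - x * x * x * b * c * x - x * x * b * x * c * x := by
    unfold NidA
    simp only [mul_add, add_mul, mul_assoc]
    abel
  rw [h1, Nid_l0 h, h x, Nid_sev h]
  simp

/-- (9) -/
theorem Nid_nin (h : ∀ x : R, x * x * x = 0) (x a b : R) : x * a * x * b * x * x = 0 := by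
  have h1 : x * a * x * b * x * x =
      NidA x a * b * x * x - x * x * (a * b) * x * x - a * (x * x * b * x * x) := by
    unfold NidA
    simp only [add_mul, mul_assoc]
    abel
  have h2 : NidA x a * b * x * x = NidA b a * (x * x * x) := by
    rw [Nid_r h b x a]
    simp only [mul_assoc]
  rw [h1, h2, h x, Nid_six h, Nid_six h]
  simp

/-- (10) -/
theorem Nid_ten (h : ∀ x : R, x * x * x = 0) (x a b c : R) :
    x * a * x * b * x * c * x = 0 := by
  have h1 : x * a * x * b * x * c * x =
      NidA x a * (b * x) * c * x - x * x * (a * b) * x * c * x - a * (x * x * b * x * c * x) := by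
    unfold NidA
    simp only [add_mul, mul_assoc]
    abel
  have h2 : NidA x (b * x) = NidA x b * x := by
    unfold NidA
    simp only [add_mul, mul_assoc]
  rw [h1, Nid_w h x a (b * x), h2, Nid_r0 h, Nid_sev h, Nid_sev h]
  simp

end

theorem thm_Nid : St_Nid := by
  intro R _ h x a b c
  exact ⟨Nid_six h x b, Nid_sev h x b c, Nid_eig h x b c, Nid_nin h x a b, Nid_ten h x a b c⟩

end Pool.Agent.CRM
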