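import Pool.Agent.CRM.St
import Pool.Agent.CRL.Fpr
import Pool.Agent.CRL.Crd

/-!
Campaign CRM, module OPQ: the Frobenius congruence for the operators and for the subring generated by a frame.
-/

set_option autoImplicit false

namespace Pool.Agent.CRM

open Pool.Agent.CRR Pool.Agent.CRN Pool.Agent.CRK Pool.Agent.CRL

/-- The Frobenius congruence in a commutative ring generated by fixed points. -/
private theorem Opq_ring {A : Type} [Ring A] (p f : ℕ) (hp : p.Prime) (G : Set A)
    (hc : ∀ x ∈ G, ∀ y ∈ G, x * y = y * x) (hG : ∀ g ∈ G, g ^ (p ^ f) = g) :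
    ∀ D ∈ Subring.closure G, ∃ D' ∈ Subring.closure G, D ^ (p ^ f) = D + p • D' := by
  have hcomm := Subring.isMulCommutative_closure hc
  let _ : CommRing (Subring.closure G) :=
    { (inferInstance : Ring (Subring.closure G)) with
      mul_comm := fun a b => hcomm.is_comm.comm a b }
  have hq : p ^ f ≠ 0 := (pow_pos hp.pos f).ne'
  have key : ∀ D (hD : D ∈ Subring.closure G), ∃ c : Subring.closure G,
      (⟨D, hD⟩ : Subring.closure G) ^ (p ^ f) = ⟨D, hD⟩ + (p : Subring.closure G) * c := by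
    intro D hD
    induction hD using Subring.closure_induction with
    | mem x hx =>
      refine ⟨0, Subtype.ext ?_⟩
      simpa using hG x hx
    | zero =>
      refine ⟨0, Subtype.ext ?_⟩
      simpa using zero_pow hq
    | one =>
      refine ⟨0, Subtype.ext ?_⟩
      simp
    | add x y hx hy h h' =>
      obtain ⟨c, hc⟩ := h
      obtain ⟨c', hc'⟩ := h'
      obtain ⟨r, hr⟩ := exists_add_pow_prime_pow_eq hp (⟨x, hx⟩ : Subring.closure G) ⟨y, hy⟩ f
      refine ⟨c + c' + ⟨x, hx⟩ * ⟨y, hy⟩ * r, ?_⟩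
      have h1 : (⟨x + y, add_mem hx hy⟩ : Subring.closure G) = ⟨x, hx⟩ + ⟨y, hy⟩ := rfl
      rw [h1, hr, hc, hc']
      ring
    | neg x hx h =>
      obtain ⟨c, hc⟩ := h
      obtain ⟨r, hr⟩ := exists_add_pow_prime_pow_eq hp (⟨x, hx⟩ : Subring.closure G) (-⟨x, hx⟩) f
      refine ⟨-c + ⟨x, hx⟩ * ⟨x, hx⟩ * r, ?_⟩
      have h1 : (⟨-x, neg_mem hx⟩ : Subring.closure G) = -⟨x, hx⟩ := rfl
      rw [add_neg_cancel, zero_pow hq, hc] at hr
      rw [h1]
      linear_combination -hr
    | mul x y hx hy h h' =>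
      obtain ⟨c, hc⟩ := h
      obtain ⟨c', hc'⟩ := h'
      refine ⟨⟨x, hx⟩ * c' + c * ⟨y, hy⟩ + p * c * c', ?_⟩
      have h1 : (⟨x * y, mul_mem hx hy⟩ : Subring.closure G) = ⟨x, hx⟩ * ⟨y, hy⟩ := rfl
      rw [h1, mul_pow, hc, hc']
      ring
  intro D hD
  obtain ⟨c, hc⟩ := key D hD
  refine ⟨c.1, c.2, ?_⟩
  have h1 := congrArg Subtype.val hc
  simpa [nsmul_eq_mul] using h1

private theorem Opq_iter {A : Type} [Ring A] (p f : ℕ) (hp : p.Prime) (G : Set A)
    (hc : ∀ x ∈ G, ∀ y ∈ G, x * y = y * x) (hG : ∀ g ∈ G, g ^ (p ^ f) = g) :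
    ∀ D ∈ Subring.closure G, ∀ k : ℕ,
      ∃ D' ∈ Subring.closure G, D ^ ((p ^ f) ^ k) = D + p • D' := by
  intro D hD k
  induction k with
  | zero => exact ⟨0, zero_mem _, by simp⟩
  | succ k ih =>
    obtain ⟨D', hD', h1⟩ := ih
    have h2 : D ^ ((p ^ f) ^ k) ∈ Subring.closure G := pow_mem hD _
    obtain ⟨E, hE, h3⟩ := Opq_ring p f hp G hc hG _ h2
    refine ⟨D' + E, add_mem hD' hE, ?_⟩
    rw [pow_succ, pow_mul, h3, h1, nsmul_add, add_assoc]

private theorem Opq_pw {R : Type} [NonUnitalRing R] (x : R) (m : ℕ) (h : pw x m = x) (k : ℕ) :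
    pw x (k + m) = pw x k := by
  induction k with
  | zero => rw [Nat.zero_add]; exact h
  | succ k ih =>
    rw [Nat.add_right_comm]
    show pw x (k + m) * x = pw x k * x
    rw [ih]

private theorem Opq_pwm {R : Type} [NonUnitalRing R] (x : R) (m : ℕ) (h : pw x m = x) (a : ℕ) :
    pw x (m * a) = x := by
  induction a with
  | zero => rfl
  | succ a ih => rw [Nat.mul_succ, Opq_pw x m h, ih]

private theorem Opq_left {R : Type} [NonUnitalRing R] (a : R) (k : ℕ) (x : R) :
    (AddMonoid.End.mulLeft a ^ (k + 1) : AddMonoid.End R) x = pw a k * x := by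
  induction k generalizing x with
  | zero => rw [zero_add, pow_one]; rfl
  | succ k ih =>
    rw [pow_succ]
    show (AddMonoid.End.mulLeft a ^ (k + 1) : AddMonoid.End R) (a * x) = pw a k * a * x
    rw [ih, mul_assoc]

private theorem Opq_right {R : Type} [NonUnitalRing R] (a : R) (k : ℕ) (x : R) :
    (AddMonoid.End.mulRight a ^ (k + 1) : AddMonoid.End R) x = x * pw a k := by
  induction k generalizing x with
  | zero => rw [zero_add, pow_one]; rfl
  | succ k ih =>
    rw [pow_succ']
    show (AddMonoid.End.mulRight a ^ (k + 1) : AddMonoid.End R) x * a = x * (pw a k * a)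
    rw [ih, mul_assoc]

private theorem Opq_uni {R : Type} [NonUnitalRing R] (x : R) (k : ℕ) :
    (x : Unitization ℤ R) ^ (k + 1) = ((pw x k : R) : Unitization ℤ R) := by
  induction k with
  | zero => rw [zero_add, pow_one]; rfl
  | succ k ih =>
    rw [pow_succ, ih, ← Unitization.inr_mul]
    rfl

private theorem Opq_snd {R : Type} [NonUnitalRing R] (G : Set R) :
    ∀ D ∈ Subring.closure ((fun x : R => (x : Unitization ℤ R)) '' G),
      D.snd ∈ NonUnitalSubring.closure G := by
  intro D hD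
  induction hD using Subring.closure_induction with
  | mem x hx =>
    obtain ⟨y, hy, rfl⟩ := hx
    rw [Unitization.snd_inr]
    exact NonUnitalSubring.subset_closure hy
  | zero => rw [Unitization.snd_zero]; exact zero_mem _
  | one => rw [Unitization.snd_one]; exact zero_mem _
  | add x y _ _ h h' => rw [Unitization.snd_add]; exact add_mem h h'
  | neg x _ h => rw [Unitization.snd_neg]; exact neg_mem h
  | mul x y _ _ h h' =>
    rw [Unitization.snd_mul]
    exact add_mem (add_mem (zsmul_mem h' _) (zsmul_mem h _)) (mul_mem h h')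

private theorem Opq_inr {R : Type} [NonUnitalRing R] (G : Set R) :
    ∀ x ∈ NonUnitalSubring.closure G,
      (x : Unitization ℤ R) ∈ Subring.closure ((fun x : R => (x : Unitization ℤ R)) '' G) := by
  intro x hx
  induction hx using NonUnitalSubring.closure_induction with
  | mem x hx => exact Subring.subset_closure ⟨x, hx, rfl⟩
  | zero => rw [Unitization.inr_zero]; exact zero_mem _
  | add x y _ _ h h' => rw [Unitization.inr_add]; exact add_mem h h'
  | neg x _ h => rw [Unitization.inr_neg]; exact neg_mem h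
  | mul x y _ _ h h' => rw [Unitization.inr_mul]; exact mul_mem h h'

theorem thm_Opq : St_Opq := by
  intro n p R _ _ hC s t hF
  choose m hm1 hm2 hm3 using hF.per
  obtain ⟨r, hr⟩ := hC.pr
  have hmp : ∀ i, (m i).Coprime p := fun i =>
    (CRL.thm_Crd R p r hC.pp hr).2 ⟨t i, hF.ne i⟩ (m i) (hm2 i)
  set M := ∏ i, m i with hM
  have hMp : M.Coprime p := Nat.Coprime.prod_left fun i _ => hmp i
  have hM0 : 0 < M := Finset.prod_pos fun i _ => hm1 i
  set f := 2 * Nat.totient M with hf
  have hf2 : 2 ≤ f := by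
    have := Nat.totient_pos.2 hM0
    omega
  set q := p ^ f with hq
  have hq4 : 4 ≤ q := by
    calc 4 = 2 ^ 2 := rfl
      _ ≤ p ^ 2 := Nat.pow_le_pow_left hC.pp.two_le 2
      _ ≤ p ^ f := Nat.pow_le_pow_right hC.pp.pos hf2
  have hq1 : M ∣ q - 1 := by
    have h1 : p ^ f ≡ 1 [MOD M] := by
      rw [hf, mul_comm, pow_mul]
      have h2 := (Nat.ModEq.pow_totient hMp.symm).pow 2
      simpa using h2
    exact (Nat.modEq_iff_dvd' (by omega)).1 h1.symm
  have ht : ∀ i, pw (t i) (q - 1) = t i := by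
    intro i
    have h1 : m i ∣ q - 1 := (Finset.dvd_prod_of_mem m (Finset.mem_univ i)).trans hq1
    obtain ⟨c, hc⟩ := h1
    rw [hc]
    exact Opq_pwm _ _ (hm3 i) c
  have hqq : q - 1 + 1 = q := by omega
  refine ⟨q, by omega, ht, ?_, ?_⟩
  · intro α β D hD k
    have hit := Opq_iter (A := AddMonoid.End R) p f hC.pp
      ({D | ∃ i, α = some i ∧ D = AddMonoid.End.mulLeft (t i)} ∪
        {D | ∃ j, β = some j ∧ D = AddMonoid.End.mulRight (t j)}) (by
        rintro x (⟨i, hi, rfl⟩ | ⟨i, hi, rfl⟩) y (⟨j, hj, rfl⟩ | ⟨j, hj, rfl⟩)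
        · rw [hi] at hj
          rw [Option.some.inj hj]
        · ext z
          exact (mul_assoc _ _ _).symm
        · ext z
          exact mul_assoc _ _ _
        · rw [hi] at hj
          rw [Option.some.inj hj]) (by
        rintro x (⟨i, hi, rfl⟩ | ⟨i, hi, rfl⟩)
        · ext z
          rw [← hq, ← hqq, Opq_left, ht]
          rfl
        · ext z
          rw [← hq, ← hqq, Opq_right, ht]
          rfl) D hD k
    obtain ⟨D', hD', h1⟩ := hit
    refine ⟨D', hD', fun x => ?_⟩
    rw [h1]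
    rfl
  · intro c hc
    have hri := Opq_ring (A := Unitization ℤ R) p f hC.pp
      ((fun x : R => (x : Unitization ℤ R)) '' Set.range t) (by
        rintro _ ⟨_, ⟨i, rfl⟩, rfl⟩ _ ⟨_, ⟨j, rfl⟩, rfl⟩
        simp only
        by_cases hij : i = j
        · rw [hij]
        · rw [← Unitization.inr_mul, ← Unitization.inr_mul, hF.orth i j hij,
            hF.orth j i (Ne.symm hij)]) (by
        rintro _ ⟨_, ⟨i, rfl⟩, rfl⟩
        simp only
        rw [← hq, ← hqq, Opq_uni, ht]) (c : Unitization ℤ R) (Opq_inr _ c hc)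
    obtain ⟨D', hD', h1⟩ := hri
    refine ⟨D'.snd, Opq_snd _ D' hD', ?_⟩
    rw [← hq, ← hqq, Opq_uni] at h1
    have h2 := congrArg (fun z : Unitization ℤ R => z.snd) h1
    rw [Unitization.snd_inr, Unitization.snd_add, Unitization.snd_inr, Unitization.snd_smul] at h2
    exact h2

end Pool.Agent.CRM
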