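import Pool.Agent.CRM.St

/-!
Campaign CRM, module PRX: pure elements.
-/

set_option autoImplicit false

namespace Pool.Agent.CRM

open Pool.Agent.CRR Pool.Agent.CRN Pool.Agent.CRK Pool.Agent.CRL

private theorem Prx_per {A : Type} [Monoid A] (x : A) (a c : ℕ) (h : x ^ (a + c) = x ^ a) (k j : ℕ) :
    x ^ (a + k + c * j) = x ^ (a + k) := by
  induction j with
  | zero => simp
  | succ j ih =>
    have h1 : a + k + c * (j + 1) = a + c + (k + c * j) := by ring
    rw [h1, pow_add, h, ← pow_add, ← add_assoc, ih]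

private theorem Prx_idem {A : Type} [Monoid A] [Finite A] (x : A) :
    ∃ k, 1 ≤ k ∧ x ^ k * x ^ k = x ^ k := by
  obtain ⟨a, b, hab, h⟩ := Finite.exists_ne_map_eq_of_infinite (fun k : ℕ => x ^ k)
  wlog hlt : a < b generalizing a b
  · exact this b a hab.symm h.symm (by omega)
  have h1 : x ^ (a + (b - a)) = x ^ a := by
    rw [show a + (b - a) = b by omega]
    exact h.symm
  have h2 : a + ((b - a) * b - a) = (b - a) * b := by
    have : b ≤ (b - a) * b := Nat.le_mul_of_pos_left b (by omega)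
    omega
  refine ⟨(b - a) * b, Nat.mul_pos (by omega) (by omega), ?_⟩
  rw [← pow_add]
  have h3 := Prx_per x a (b - a) h1 ((b - a) * b - a) b
  rw [h2] at h3
  exact h3

theorem thm_Prx (hO : St_Ops) (hQ : St_Opq) : St_Prx := by
  intro n p R _ _ hC s t hF α β
  obtain ⟨hcm, -⟩ := hO R s t α β
  obtain ⟨q, hq, -, hqk, -⟩ := hQ n p R hC s t hF
  have : Finite (AddMonoid.End R) := DFunLike.finite (AddMonoid.End R)
  have key : ∀ (k : ℕ) (x : R) (Q : R → Prop),
      Set.ncard {y | ∃ D ∈ Ops t α β, y = D x} = k →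
      (∀ D ∈ Ops t α β, ∀ D' ∈ Ops t α β, Q (D x + D' x) → Q (D x) ∨ Q (D' x)) → Q x →
      ∃ D ∈ Ops t α β, Pur p t α β (D x) ∧ Q (D x) := by
    intro k
    induction k using Nat.strong_induction_on with
    | _ k ih =>
    intro x Q hk hQa hx
    by_cases hp : Pur p t α β x
    · exact ⟨1, one_mem _, hp, hx⟩
    unfold Pur at hp
    push Not at hp
    obtain ⟨D, hD, h1, h2⟩ := hp
    obtain ⟨M, hM, hid⟩ := Prx_idem D
    have hε : D ^ M ∈ Ops t α β := pow_mem hD M
    have hεε : ∀ y, (D ^ M) ((D ^ M) y) = (D ^ M) y := fun y => by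
      have := congrArg (fun E : AddMonoid.End R => E y) hid
      exact this
    have hne : (D ^ M) x ≠ x := by
      intro h
      refine h2 (D ^ (M - 1)) (pow_mem hD _) ?_
      have h3 : D ^ M = D ^ (M - 1) * D := by
        rw [← pow_succ, Nat.sub_add_cancel hM]
      rw [h3] at h
      exact h
    have hn0 : (D ^ M) x ≠ 0 := by
      intro h
      obtain ⟨D'', hD'', h3⟩ := hqk α β D hD M
      have h4 : M ≤ q ^ M := (Nat.lt_pow_self (by omega)).le
      have h5 : D ^ (q ^ M) = D ^ (q ^ M - M) * D ^ M := by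
        rw [← pow_add, Nat.sub_add_cancel h4]
      have h6 : (D ^ (q ^ M)) x = 0 := by
        rw [h5]
        show (D ^ (q ^ M - M)) ((D ^ M) x) = 0
        rw [h, map_zero]
      refine h1 (-D'') (neg_mem hD'') ?_
      have h7 := h3 x
      rw [h6] at h7
      show D x = p • (-(D'' x))
      rw [smul_neg]
      exact eq_neg_of_add_eq_zero_left h7.symm
    have hfin : ∀ S : Set R, S.Finite := fun S => Set.toFinite S
    have hsub : ∀ E ∈ Ops t α β, (∀ F ∈ Ops t α β, F (E x) ≠ x) → Q (E x) →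
        ∃ D ∈ Ops t α β, Pur p t α β (D x) ∧ Q (D x) := by
      intro E hE hE1 hE2
      have hlt : Set.ncard {y | ∃ D ∈ Ops t α β, y = D (E x)} < k := by
        rw [← hk]
        refine Set.ncard_lt_ncard ?_ (hfin _)
        refine ⟨?_, ?_⟩
        · rintro y ⟨F, hF', rfl⟩
          exact ⟨F * E, mul_mem hF' hE, rfl⟩
        · intro h
          obtain ⟨F, hF', h3⟩ := h ⟨1, one_mem _, rfl⟩
          exact hE1 F hF' h3.symm
      obtain ⟨F, hF', h3, h4⟩ := ih _ hlt (E x) Q rfl
        (fun D hD D' hD' h => hQa (D * E) (mul_mem hD hE) (D' * E) (mul_mem hD' hE) h) hE2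
      exact ⟨F * E, mul_mem hF' hE, h3, h4⟩
    have h1ε : (1 - D ^ M : AddMonoid.End R) ∈ Ops t α β := sub_mem (one_mem _) hε
    have hval : (1 - D ^ M : AddMonoid.End R) x = x - (D ^ M) x := rfl
    rcases hQa (D ^ M) hε (1 - D ^ M) h1ε (by rw [hval, add_sub_cancel]; exact hx) with h | h
    · refine hsub _ hε (fun F hF' h3 => hne ?_) h
      have h4 := hcm (D ^ M) hε F hF' ((D ^ M) x)
      rw [h3, hεε, h3] at h4
      exact h4
    · refine hsub _ h1ε (fun F hF' h3 => hn0 ?_) h
      have h4 := hcm (D ^ M) hε F hF' ((1 - D ^ M : AddMonoid.End R) x)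
      rw [h3, hval, map_sub, hεε, sub_self, map_zero] at h4
      exact h4
  intro x Q h1 h2
  exact key _ x Q rfl h1 h2

end Pool.Agent.CRM
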