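import Pool.Agent.CRM.Rul

/-!
Campaign CRM, module Ruu (helper18): rules for products along three different vertices.
-/

set_option autoImplicit false

namespace Pool.Agent.CRM

open Pool.Agent.CRR Pool.Agent.CRN Pool.Agent.CRK Pool.Agent.CRL

section

variable {R : Type} [NonUnitalRing R] {s : ℕ} {e : Fin s → R}

/-- the component at a vertex `some i` from the left. -/
theorem Ruu_some {i : Fin s} {β γ α' β' γ' : Option (Fin s)} (h1 : some i ≠ β)
    (h2 : some i ≠ γ) {u v x : R} (h : u + v + x = 0) (hu : Pc e (some i) α' u)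
    (hv : Pc e β β' v) (hx : Pc e γ γ' x) : u = 0 := by
  have h3 : e i * (u + v + x) = 0 := by rw [h, mul_zero]
  rw [mul_add, mul_add, hu.1 i, hv.1 i, hx.1 i, if_pos rfl, if_neg (fun h' => h1 h'.symm),
    if_neg (fun h' => h2 h'.symm), add_zero, add_zero] at h3
  exact h3

/-- three components from the left. -/
theorem Ruu_three {α β γ α' β' γ' : Option (Fin s)} (h1 : α ≠ β) (h2 : β ≠ γ) (h3 : α ≠ γ)
    {u v x : R} (h : u + v + x = 0) (hu : Pc e α α' u) (hv : Pc e β β' v) (hx : Pc e γ γ' x) :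
    u = 0 ∧ v = 0 ∧ x = 0 := by
  have hv' : v + u + x = 0 := by rw [← h]; abel
  have hx' : x + u + v = 0 := by rw [← h]; abel
  rcases α with _ | i
  · rcases β with _ | j
    · exact absurd rfl h1
    · rcases γ with _ | k
      · exact absurd rfl h3
      · have e1 : v = 0 := Ruu_some h1.symm h2 hv' hv hu hx
        have e2 : x = 0 := Ruu_some h3.symm h2.symm hx' hx hu hv
        rw [e1, e2, add_zero, add_zero] at h
        exact ⟨h, e1, e2⟩
  · have e0 : u = 0 := Ruu_some h1 h3 h hu hv hx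
    rw [e0, zero_add] at h
    obtain ⟨e1, e2⟩ := Rul_two h2 h hv hx
    exact ⟨e0, e1, e2⟩

end

theorem thm_Ruu : St_Ruu := by
  intro R _ s e hm α β γ δ hαβ hβγ hαγ z z' hz hz'
  obtain ⟨hz, nz⟩ := hz
  obtain ⟨hz', nz'⟩ := hz'
  have z1 : z' * z = 0 := Rul_zero hαγ.symm hz' hz
  refine ⟨?_, ?_, ?_⟩
  · rintro w ⟨hw, nw⟩
    have z2 : z * w = 0 := Rul_zero hβγ hz hw
    have h1 := Rul_P hm nz nz' nw
    rw [z1, z2, mul_assoc w z' z, z1] at h1
    simp only [zero_mul, mul_zero, add_zero] at h1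
    by_cases h2 : δ = α
    · subst h2
      exact (Ruu_three hαβ hβγ hαγ h1 (Rul_mul (Rul_mul hz hz') hw)
        (Rul_mul (Rul_mul hz' hw) hz) (Rul_mul (Rul_mul hw hz) hz')).1
    · have z3 : w * z = 0 := Rul_zero h2 hw hz
      rw [z3, mul_assoc z' w z, z3] at h1
      simpa using h1
  · rintro w ⟨hw, nw⟩
    have z2 : w * z' = 0 := Rul_zero hαβ hw hz'
    have h1 := Rul_P hm nz nz' nw
    rw [z1, z2, mul_assoc z w z', z2] at h1
    simp only [zero_mul, mul_zero, add_zero] at h1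
    by_cases h2 : γ = δ
    · subst h2
      exact (Ruu_three hαβ hβγ hαγ h1 (Rul_mul (Rul_mul hz hz') hw)
        (Rul_mul (Rul_mul hz' hw) hz) (Rul_mul (Rul_mul hw hz) hz')).2.2
    · have z3 : z' * w = 0 := Rul_zero h2 hz' hw
      rw [z3, mul_assoc z z' w, z3] at h1
      simpa using h1
  · rintro b ⟨hb, nb⟩
    have z2 : z' * b = 0 := Rul_zero hβγ.symm hz' hb
    have z3 : b * z = 0 := Rul_zero hαβ.symm hb hz
    have h1 := Rul_P hm nz nb nz'
    rw [z1, z2, z3, mul_assoc z z' b, z2, mul_assoc b z' z, z1] at h1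
    simpa using h1

end Pool.Agent.CRM
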