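import Pool.Agent.CRM.Stb
import Pool.Agent.CRM.Rul

/-!
Campaign CRM, module Shp: the shape of a nonzero product of homogeneous nil elements (helper52).
-/

set_option autoImplicit false

namespace Pool.Agent.CRM

open Pool.Agent.CRR Pool.Agent.CRN Pool.Agent.CRK Pool.Agent.CRL

section

variable {R : Type} [NonUnitalRing R] {s : ℕ} {e : Fin s → R}

/-- the product of a list of items. -/
def ShpV (l : List (Itm s R)) : R := wp (l.map fun c => c.2.2)

theorem Shp_cons (c : Itm s R) (l : List (Itm s R)) (hl : l ≠ []) :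
    ShpV (c :: l) = c.2.2 * ShpV l := by
  cases l with
  | nil => exact absurd rfl hl
  | cons d l => rfl

theorem Shp_one (c : Itm s R) : ShpV [c] = c.2.2 := rfl

theorem Shp_app (A B : List (Itm s R)) (hA : A ≠ []) (hB : B ≠ []) :
    ShpV (A ++ B) = ShpV A * ShpV B := by
  induction A with
  | nil => exact absurd rfl hA
  | cons c A ih =>
    by_cases h : A = []
    · subst h
      rw [List.singleton_append, Shp_cons c B hB, Shp_one]
    · rw [List.cons_append, Shp_cons c (A ++ B) (by simp [h]), ih h, Shp_cons c A h, mul_assoc]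

theorem Shp_left {A B : List (Itm s R)} (h : ShpV (A ++ B) ≠ 0) (hA : A ≠ []) : ShpV A ≠ 0 := by
  by_cases hB : B = []
  · subst hB
    rwa [List.append_nil] at h
  · intro h'
    rw [Shp_app A B hA hB, h', zero_mul] at h
    exact h rfl

theorem Shp_right {A B : List (Itm s R)} (h : ShpV (A ++ B) ≠ 0) (hB : B ≠ []) : ShpV B ≠ 0 := by
  by_cases hA : A = []
  · subst hA
    rwa [List.nil_append] at h
  · intro h'
    rw [Shp_app A B hA hB, h', mul_zero] at h
    exact h rfl

theorem Shp_mul (h : Hm e) {α β γ : Option (Fin s)} {x y : R} (hx : Jc e α β x)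
    (hy : Jc e β γ y) : Jc e α γ (x * y) := ⟨Rul_mul hx.1 hy.1, (h.mul x y hy.2).1⟩

theorem Shp_zero {α β : Option (Fin s)} : Jc e α β (0 : R) := by
  refine ⟨⟨fun i => ?_, fun j => ?_⟩, ?_⟩
  · simp
  · simp
  · unfold Nl
    simp

/-- two neighbours are composable. -/
theorem Shp_two {c d : Itm s R} {B : List (Itm s R)} (hc : Jc e c.1 c.2.1 c.2.2)
    (hd : Jc e d.1 d.2.1 d.2.2) (h : ShpV (c :: d :: B) ≠ 0) : d.1 = c.2.1 := by
  by_contra h'
  have h1 : ShpV [c, d] ≠ 0 := Shp_left (A := [c, d]) (B := B) h (by simp)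
  exact h1 (Rul_zero (Ne.symm h') hc.1 hd.1)

/-- loops before an item. -/
theorem Shp_pre : ∀ (A : List (Itm s R)) (c : Itm s R),
    (∀ d ∈ A, Jc e d.1 d.2.1 d.2.2) → Jc e c.1 c.2.1 c.2.2 → ShpV (A ++ [c]) ≠ 0 →
    (∀ d ∈ A, d.1 = d.2.1) → ∀ d ∈ A, d.1 = c.1 ∧ d.2.1 = c.1 := by
  intro A
  induction A with
  | nil => intro c _ _ _ _ d hd; simp at hd
  | cons a A ih =>
    intro c hA hc hne hl
    have hne' : ShpV (A ++ [c]) ≠ 0 := Shp_right (A := [a]) hne (by simp)
    have ih' := ih c (fun d hd => hA d (List.mem_cons_of_mem _ hd)) hc hne'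
      (fun d hd => hl d (List.mem_cons_of_mem _ hd))
    have ha : a.2.1 = c.1 := by
      cases A with
      | nil => exact (Shp_two (hA a (by simp)) hc hne).symm
      | cons a' A =>
        have h1 : a'.1 = a.2.1 := Shp_two (hA a (by simp)) (hA a' (by simp)) hne
        rw [← h1]
        exact (ih' a' (by simp)).1
    intro d hd
    rcases List.mem_cons.1 hd with rfl | hd
    · exact ⟨(hl d (by simp)).trans ha, ha⟩
    · exact ih' d hd

/-- loops after an item. -/
theorem Shp_post : ∀ (B : List (Itm s R)) (c : Itm s R),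
    (∀ d ∈ B, Jc e d.1 d.2.1 d.2.2) → Jc e c.1 c.2.1 c.2.2 → ShpV (c :: B) ≠ 0 →
    (∀ d ∈ B, d.1 = d.2.1) → ∀ d ∈ B, d.1 = c.2.1 ∧ d.2.1 = c.2.1 := by
  intro B
  induction B with
  | nil => intro c _ _ _ _ d hd; simp at hd
  | cons b B ih =>
    intro c hB hc hne hl
    have h1 : b.1 = c.2.1 := Shp_two hc (hB b (by simp)) hne
    have h2 : b.2.1 = c.2.1 := (hl b (by simp)).symm.trans h1
    have hne' : ShpV (b :: B) ≠ 0 := Shp_right (A := [c]) hne (by simp)
    have ih' := ih b (fun d hd => hB d (List.mem_cons_of_mem _ hd)) (hB b (by simp)) hne'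
      (fun d hd => hl d (List.mem_cons_of_mem _ hd))
    intro d hd
    rcases List.mem_cons.1 hd with rfl | hd
    · exact ⟨h1, h2⟩
    · rw [← h2]
      exact ih' d hd

/-- a product of loops is a loop. -/
theorem Shp_loop (h : Hm e) {α : Option (Fin s)} : ∀ (A : List (Itm s R)),
    (∀ d ∈ A, Jc e d.1 d.2.1 d.2.2) → (∀ d ∈ A, d.1 = α ∧ d.2.1 = α) → Jc e α α (ShpV A) := by
  intro A
  induction A with
  | nil => intro _ _; exact Shp_zero
  | cons a A ih =>
    intro hA hl
    have ha : Jc e α α a.2.2 := by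
      have h1 := hA a (by simp)
      rwa [(hl a (by simp)).1, (hl a (by simp)).2] at h1
    by_cases hn : A = []
    · subst hn
      exact ha
    · rw [Shp_cons a A hn]
      exact Shp_mul h ha (ih (fun d hd => hA d (List.mem_cons_of_mem _ hd))
        (fun d hd => hl d (List.mem_cons_of_mem _ hd)))

omit [NonUnitalRing R] in
/-- the first item which is not a loop. -/
theorem Shp_first (B : List (Itm s R)) : (∀ d ∈ B, d.1 = d.2.1) ∨
    ∃ (B₁ : List (Itm s R)) (c : Itm s R) (B₂ : List (Itm s R)), B = B₁ ++ c :: B₂ ∧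
      (∀ d ∈ B₁, d.1 = d.2.1) ∧ c.1 ≠ c.2.1 := by
  induction B with
  | nil => left; intro d hd; simp at hd
  | cons b B ih =>
    by_cases hb : b.1 = b.2.1
    · rcases ih with ih | ⟨B₁, c, B₂, h1, h2, h3⟩
      · left
        intro d hd
        rcases List.mem_cons.1 hd with rfl | hd
        · exact hb
        · exact ih d hd
      · right
        refine ⟨b :: B₁, c, B₂, by rw [h1]; rfl, fun d hd => ?_, h3⟩
        rcases List.mem_cons.1 hd with rfl | hd
        · exact hb
        · exact h2 d hd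
    · right
      exact ⟨[], b, B, rfl, by simp, hb⟩

/-- after an item `c`: the loops `B₁` and an item `c'` which is not a loop. -/
theorem Shp_next (h : Hm e) {c c' : Itm s R} {B₁ B₂ : List (Itm s R)}
    (hB : ∀ d ∈ c :: (B₁ ++ c' :: B₂), Jc e d.1 d.2.1 d.2.2)
    (hne : ShpV (c :: (B₁ ++ c' :: B₂)) ≠ 0) (hl : ∀ d ∈ B₁, d.1 = d.2.1) :
    c'.1 = c.2.1 ∧ Jc e c.2.1 c.2.1 (ShpV B₁) ∧
      (B₁ ≠ [] → c.2.2 * ShpV B₁ * c'.2.2 ≠ 0) := by
  have hc : Jc e c.1 c.2.1 c.2.2 := hB c (by simp)
  have hc' : Jc e c'.1 c'.2.1 c'.2.2 := hB c' (by simp)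
  have hB₁ : ∀ d ∈ B₁, Jc e d.1 d.2.1 d.2.2 := fun d hd => hB d (by simp [hd])
  have e1 : c :: (B₁ ++ c' :: B₂) = (c :: (B₁ ++ [c'])) ++ B₂ := by simp
  rw [e1] at hne
  have n1 : ShpV (c :: (B₁ ++ [c'])) ≠ 0 := Shp_left hne (by simp)
  have n2 : ShpV (B₁ ++ [c']) ≠ 0 := Shp_right (A := [c]) n1 (by simp)
  have n3 : ShpV (c :: B₁) ≠ 0 := Shp_left (A := c :: B₁) (B := [c']) n1 (by simp)
  have p1 := Shp_pre B₁ c' hB₁ hc' n2 hl
  have p2 := Shp_post B₁ c hB₁ hc n3 hl
  refine ⟨?_, Shp_loop h B₁ hB₁ p2, fun hn => ?_⟩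
  · cases B₁ with
    | nil => exact Shp_two hc hc' n1
    | cons b B₁ => exact (p1 b (by simp)).1.symm.trans (p2 b (by simp)).1
  · intro h0
    apply n1
    rw [Shp_cons c _ (by simp), Shp_app B₁ [c'] hn (by simp), Shp_one, ← mul_assoc]
    exact h0

end

theorem thm_Shp (hRul : St_Rul) (hRum : St_Rum) (hRuu : St_Ruu) : St_Shp := by
  intro R _ s e hm l hl hne hex
  change ShpV l ≠ 0 at hne
  rcases Shp_first l with h0 | ⟨A, c, B, rfl, hAl, hcn⟩
  · obtain ⟨c, hc, hc'⟩ := hex
    exact absurd (h0 c hc) hc'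
  have hA : ∀ d ∈ A, Jc e d.1 d.2.1 d.2.2 := fun d hd => hl d (by simp [hd])
  have hc : Jc e c.1 c.2.1 c.2.2 := hl c (by simp)
  have hB : ∀ d ∈ B, Jc e d.1 d.2.1 d.2.2 := fun d hd => hl d (by simp [hd])
  have hcB : ∀ d ∈ c :: B, Jc e d.1 d.2.1 d.2.2 := fun d hd => hl d (List.mem_append_right _ hd)
  have nA : ShpV (A ++ [c]) ≠ 0 := by
    have e1 : A ++ c :: B = (A ++ [c]) ++ B := by simp
    rw [e1] at hne
    exact Shp_left hne (by simp)
  have nB : ShpV (c :: B) ≠ 0 := Shp_right hne (by simp)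
  have pA := Shp_pre A c hA hc nA hAl
  have jA := Shp_loop hm A hA pA
  rcases Shp_first B with hBl | ⟨B₁, c', B₂, rfl, hB₁, hcn'⟩
  · -- only one item is not a loop
    have pB := Shp_post B c hB hc nB hBl
    have jB := Shp_loop hm B hB pB
    by_cases hB0 : B = []
    · left
      subst hB0
      exact ⟨A, c, rfl, hcn, pA⟩
    · by_cases hA0 : A = []
      · right; left
        subst hA0
        exact ⟨c, B, rfl, hcn, pB⟩
      · exfalso
        apply hne
        rw [Shp_app A _ hA0 (by simp), Shp_cons c B hB0, ← mul_assoc]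
        exact (hRul R s e hm c.1 c.2.1 hcn).2.2.1 (ShpV A) (ShpV B) c.2.2 jA jB hc
  · have hc' : Jc e c'.1 c'.2.1 c'.2.2 := hl c' (by simp)
    obtain ⟨q1, q2, q3⟩ := Shp_next hm hcB nB hB₁
    rw [q1] at hc'
    have hcn2 : c.2.1 ≠ c'.2.1 := by rw [← q1]; exact hcn'
    have hB0 : B₁ = [] := by
      by_contra hn
      apply q3 hn
      by_cases hγ : c'.2.1 = c.1
      · rw [hγ] at hc'
        exact ((hRul R s e hm c.1 c.2.1 hcn).2.2.2.1 0 (ShpV B₁) c.2.2 c'.2.2 Shp_zero q2 hc hc').2
      · exact (hRuu R s e hm c.1 c.2.1 c'.2.1 c.1 hcn hcn2 (Ne.symm hγ) c.2.2 c'.2.2 hc hc').2.2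
          (ShpV B₁) q2
    subst hB0
    clear q3 q2 hB₁
    simp only [List.nil_append] at hl hne nB hB hcB hex ⊢
    have hB₂ : ∀ d ∈ B₂, Jc e d.1 d.2.1 d.2.2 := fun d hd => hB d (by simp [hd])
    by_cases hγ : c'.2.1 = c.1
    · rcases Shp_first B₂ with hB₂l | ⟨B₃, c'', B₄, rfl, hB₃, hcn''⟩
      · -- the other items are loops
        have nB' : ShpV (c' :: B₂) ≠ 0 := Shp_right (A := [c]) nB (by simp)
        have pB := Shp_post B₂ c' hB₂ (hl c' (by simp)) nB' hB₂l
        by_cases h0 : A ++ B₂ = []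
        · obtain ⟨hA0, hB0⟩ := List.append_eq_nil_iff.1 h0
          subst hA0; subst hB0
          right; right; left
          exact ⟨c, c', rfl, hcn, q1, fun h => hcn2 h.symm⟩
        · right; right; right; left
          refine ⟨A, c, c', B₂, rfl, hcn, q1, hγ, h0, fun d hd => ?_⟩
          rcases List.mem_append.1 hd with hd | hd
          · exact pA d hd
          · rw [← hγ]
            exact pB d hd
      · have hc'' : Jc e c''.1 c''.2.1 c''.2.2 := hl c'' (by simp)
        have nB' : ShpV (c' :: (B₃ ++ c'' :: B₄)) ≠ 0 := Shp_right (A := [c]) nB (by simp)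
        obtain ⟨r1, r2, r3⟩ := Shp_next hm hB nB' hB₃
        rw [hγ] at r1 r2 hc'
        rw [r1] at hc'' hcn''
        have hB0 : B₃ = [] := by
          by_contra hn
          apply r3 hn
          by_cases hδ : c''.2.1 = c.2.1
          · rw [hδ] at hc''
            exact ((hRul R s e hm c.2.1 c.1 (Ne.symm hcn)).2.2.2.1 0 (ShpV B₃) c'.2.2 c''.2.2
              Shp_zero r2 hc' hc'').2
          · exact (hRuu R s e hm c.2.1 c.1 c''.2.1 c.1 (Ne.symm hcn) hcn'' (Ne.symm hδ)
              c'.2.2 c''.2.2 hc' hc'').2.2 (ShpV B₃) r2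
        subst hB0
        clear r3 r2 hB₃
        simp only [List.nil_append] at hl hne nB hB hcB hex nB' hB₂ ⊢
        have n3 : ShpV [c, c', c''] ≠ 0 := Shp_left (A := [c, c', c'']) (B := B₄) nB (by simp)
        have n3' : c.2.2 * c'.2.2 * c''.2.2 ≠ 0 := by
          rw [mul_assoc]; exact n3
        have hδ : c''.2.1 = c.2.1 := by
          by_contra hδ
          exact n3' ((hRuu R s e hm c.2.1 c.1 c''.2.1 c.1 (Ne.symm hcn) hcn'' (Ne.symm hδ)
            c'.2.2 c''.2.2 hc' hc'').2.1 c.2.2 hc)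
        rw [hδ] at hc''
        have hA0 : A = [] := by
          by_contra hn
          apply hne
          have h1 := Shp_app A (c :: c' :: c'' :: B₄) hn (by simp)
          have h2 : ShpV (A ++ [c, c', c'']) = 0 := by
            rw [Shp_app A _ hn (by simp)]
            have h3 := (hRum R s e hm c.1 c.2.1 hcn (ShpV A) 0 c.2.2 c'.2.2 c''.2.2 0 jA Shp_zero
              hc hc' hc'' Shp_zero).1
            rw [mul_assoc, mul_assoc] at h3
            exact h3
          have e1 : A ++ c :: c' :: c'' :: B₄ = (A ++ [c, c', c'']) ++ B₄ := by simp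
          rw [e1]
          by_contra h4
          exact Shp_left h4 (by simp) h2
        have hB0 : B₄ = [] := by
          cases B₄ with
          | nil => rfl
          | cons d B₄ =>
            exfalso
            have hd : Jc e d.1 d.2.1 d.2.2 := hl d (by simp)
            have n4 : ShpV [c, c', c'', d] ≠ 0 :=
              Shp_left (A := [c, c', c'', d]) (B := B₄) nB (by simp)
            have n4' : c.2.2 * c'.2.2 * c''.2.2 * d.2.2 ≠ 0 := by
              rw [mul_assoc, mul_assoc]; exact n4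
            have n5 : ShpV (c'' :: d :: B₄) ≠ 0 :=
              Shp_right (A := [c, c']) nB (by simp)
            have hc2 : Jc e c''.1 c''.2.1 c''.2.2 := by rw [r1, hδ]; exact hc''
            have t1 : d.1 = c''.2.1 := Shp_two hc2 hd n5
            rw [t1, hδ] at hd
            by_cases h1 : d.2.1 = c.2.1
            · rw [h1] at hd
              exact n4' (hRum R s e hm c.1 c.2.1 hcn 0 d.2.2 c.2.2 c'.2.2 c''.2.2 0 Shp_zero hd
                hc hc' hc'' Shp_zero).2.1
            · by_cases h2 : d.2.1 = c.1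
              · rw [h2] at hd
                exact n4' (hRum R s e hm c.1 c.2.1 hcn 0 0 c.2.2 c'.2.2 c''.2.2 d.2.2 Shp_zero
                  Shp_zero hc hc' hc'' hd).2.2
              · have h3 := (hRuu R s e hm c.1 c.2.1 d.2.1 c.2.1 hcn (Ne.symm h1) (Ne.symm h2)
                  c''.2.2 d.2.2 hc'' hd).2.1 c'.2.2 hc'
                apply n4'
                rw [mul_assoc c.2.2, mul_assoc c.2.2, h3, mul_zero]
        subst hA0; subst hB0
        right; right; right; right
        exact ⟨c, c', c'', rfl, hcn, q1, hγ, r1, hδ⟩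
    · -- three different vertices
      have hr := hRuu R s e hm c.1 c.2.1 c'.2.1 c.1 hcn hcn2 (Ne.symm hγ) c.2.2 c'.2.2 hc hc'
      have hA0 : A = [] := by
        by_contra hn
        apply hne
        have h2 : ShpV (A ++ [c, c']) = 0 := by
          rw [Shp_app A _ hn (by simp)]
          have h3 := hr.2.1 (ShpV A) jA
          rw [mul_assoc] at h3
          exact h3
        have e1 : A ++ c :: c' :: B₂ = (A ++ [c, c']) ++ B₂ := by simp
        rw [e1]
        by_contra h4
        exact Shp_left h4 (by simp) h2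
      have hB0 : B₂ = [] := by
        cases B₂ with
        | nil => rfl
        | cons d B₂ =>
          exfalso
          have hd : Jc e d.1 d.2.1 d.2.2 := hl d (by simp)
          have n3 : ShpV [c, c', d] ≠ 0 := Shp_left (A := [c, c', d]) (B := B₂) nB (by simp)
          have n4 : ShpV (c' :: d :: B₂) ≠ 0 := Shp_right (A := [c]) nB (by simp)
          have t1 : d.1 = c'.2.1 := Shp_two (hl c' (by simp)) hd n4
          rw [t1] at hd
          have h3 := (hRuu R s e hm c.1 c.2.1 c'.2.1 d.2.1 hcn hcn2 (Ne.symm hγ) c.2.2 c'.2.2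
            hc hc').1 d.2.2 hd
          rw [mul_assoc] at h3
          exact n3 h3
      subst hA0; subst hB0
      right; right; left
      exact ⟨c, c', rfl, hcn, q1, fun h => hcn2 h.symm⟩

end Pool.Agent.CRM
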