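import Pool.Agent.CRM.Ops
import Pool.Agent.CRL.All

/-!
Campaign CRM, module Soc (helper18): homogeneous elements of order `p` which are killed by the
radical from both sides are in the least nonzero ideal.
-/

set_option autoImplicit false

namespace Pool.Agent.CRM

open Pool.Agent.CRR Pool.Agent.CRN Pool.Agent.CRK Pool.Agent.CRL

section

variable {R : Type} [NonUnitalRing R]

/-- a subgroup which is closed under products with `t` is closed under products with the powers. -/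
theorem Soc_pw_left {B : AddSubgroup R} {t : R} (h : ∀ w ∈ B, t * w ∈ B) (k : ℕ) :
    ∀ w ∈ B, pw t k * w ∈ B := by
  induction k with
  | zero => exact h
  | succ k ih =>
    intro w hw
    have h1 : pw t (k + 1) * w = pw t k * (t * w) := by
      change pw t k * t * w = _
      rw [mul_assoc]
    rw [h1]
    exact ih _ (h w hw)

theorem Soc_pw_right {B : AddSubgroup R} {t : R} (h : ∀ w ∈ B, w * t ∈ B) (k : ℕ) :
    ∀ w ∈ B, w * pw t k ∈ B := by
  induction k with
  | zero => exact h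
  | succ k ih =>
    intro w hw
    have h1 : w * pw t (k + 1) = w * pw t k * t := by
      change w * (pw t k * t) = _
      rw [mul_assoc]
    rw [h1]
    exact h _ (ih w hw)

/-- a subgroup of elements which are killed by the radical is an ideal if it is closed under
products with the elements of the frame. -/
theorem Soc_idl {n p : ℕ} [Finite R] (hCy : Cy R n p) {s : ℕ} {t : Fin s → R}
    (hF : Frame R n s t) {B : AddSubgroup R} (h0 : ∀ w ∈ B, ∀ x, Nl x → x * w = 0 ∧ w * x = 0)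
    (hl : ∀ i, ∀ w ∈ B, t i * w ∈ B) (hr : ∀ i, ∀ w ∈ B, w * t i ∈ B) : Idl R B := by
  intro r w hw
  obtain ⟨c, hc, hn⟩ := CRL.gen n p R hCy s t hF r
  have h1 := h0 w hw _ hn
  have h2 : r * w = ∑ i, c i * w := by
    have h3 := h1.1
    rw [sub_mul, Finset.sum_mul] at h3
    exact sub_eq_zero.1 h3
  have h4 : w * r = ∑ i, w * c i := by
    have h3 := h1.2
    rw [mul_sub, Finset.mul_sum] at h3
    exact sub_eq_zero.1 h3
  refine ⟨?_, ?_⟩
  · rw [h2]
    refine B.sum_mem (fun i _ => ?_)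
    rcases hc i with h | ⟨k, h⟩
    · rw [h, zero_mul]
      exact B.zero_mem
    · rw [h]
      exact Soc_pw_left (hl i) k w hw
  · rw [h4]
    refine B.sum_mem (fun i _ => ?_)
    rcases hc i with h | ⟨k, h⟩
    · rw [h, mul_zero]
      exact B.zero_mem
    · rw [h]
      exact Soc_pw_right (hr i) k w hw

/-- the elements of order `p` which are killed by the radical from both sides are an ideal. -/
theorem Soc_ann {n p : ℕ} [Finite R] (hCy : Cy R n p) :
    ∃ I : AddSubgroup R, Idl R I ∧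
      ∀ w, w ∈ I ↔ (∀ x, Nl x → x * w = 0 ∧ w * x = 0) ∧ p • w = 0 := by
  obtain ⟨J, hJ, hJn⟩ := CRL.jil n hCy.n4 R hCy.inM hCy.nt
  let I : AddSubgroup R :=
    { carrier := {w | (∀ x, Nl x → x * w = 0 ∧ w * x = 0) ∧ p • w = 0}
      zero_mem' := ⟨fun x _ => ⟨mul_zero x, zero_mul x⟩, smul_zero p⟩
      add_mem' := by
        intro a b ha hb
        refine ⟨fun x hx => ⟨?_, ?_⟩, ?_⟩
        · rw [mul_add, (ha.1 x hx).1, (hb.1 x hx).1, add_zero]
        · rw [add_mul, (ha.1 x hx).2, (hb.1 x hx).2, add_zero]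
        · rw [smul_add, ha.2, hb.2, add_zero]
      neg_mem' := by
        intro a ha
        refine ⟨fun x hx => ⟨?_, ?_⟩, ?_⟩
        · rw [mul_neg, (ha.1 x hx).1, neg_zero]
        · rw [neg_mul, (ha.1 x hx).2, neg_zero]
        · rw [smul_neg, ha.2, neg_zero] }
  refine ⟨I, ?_, fun w => Iff.rfl⟩
  intro r w hw
  have hw' : (∀ x, Nl x → x * w = 0 ∧ w * x = 0) ∧ p • w = 0 := hw
  refine ⟨⟨fun x hx => ⟨?_, ?_⟩, ?_⟩, ⟨fun x hx => ⟨?_, ?_⟩, ?_⟩⟩
  · rw [← mul_assoc]
    exact (hw'.1 _ ((hJn _).1 (hJ r x ((hJn x).2 hx)).2)).1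
  · rw [mul_assoc, (hw'.1 x hx).2, mul_zero]
  · rw [← mul_smul_comm, hw'.2, mul_zero]
  · rw [← mul_assoc, (hw'.1 x hx).1, zero_mul]
  · rw [mul_assoc]
    exact (hw'.1 _ ((hJn _).1 (hJ r x ((hJn x).2 hx)).1)).2
  · rw [← smul_mul_assoc, hw'.2, zero_mul]

end

theorem thm_Soc (hOps : St_Ops) (hOpc : St_Opc) (hPrx : St_Prx) : St_Soc := by
  intro n p R _ _ hCy H hH s t hF γ δ v hv hv0 hpv
  by_contra hvH
  obtain ⟨-, -, hO3, -⟩ := hOps R s t γ δ
  obtain ⟨E, hE, hpure, hyH⟩ := hPrx n p R hCy s t hF γ δ v (fun y => y ∉ H) (by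
    intro D _ D' _ h
    by_contra h'
    push Not at h'
    exact h (H.add_mem h'.1 h'.2)) hvH
  obtain ⟨I, hI, hIm⟩ := Soc_ann (R := R) hCy
  have hvI : v ∈ I := (hIm v).2 ⟨hv0, hpv⟩
  have hy0 : E v ≠ 0 := fun h => hyH (by rw [h]; exact H.zero_mem)
  have hyI : E v ∈ I := hO3 E hE I hI v hvI
  have hyP : Pc (fun i => om n (t i)) γ δ (E v) := (hOpc n p R hCy s t hF γ δ E hE v).1 hv
  obtain ⟨-, hf2, -⟩ := CRL.fpr n p R hCy s t hF
  -- the group of the `D y`
  let B : AddSubgroup R :=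
    { carrier := {w | ∃ D ∈ Ops t γ δ, w = D (E v)}
      zero_mem' := ⟨0, zero_mem _, rfl⟩
      add_mem' := by
        rintro a b ⟨D, hD, rfl⟩ ⟨D', hD', rfl⟩
        exact ⟨D + D', add_mem hD hD', rfl⟩
      neg_mem' := by
        rintro a ⟨D, hD, rfl⟩
        exact ⟨-D, neg_mem hD, rfl⟩ }
  have hBI : ∀ w ∈ B, w ∈ I := by
    rintro w ⟨D, hD, rfl⟩
    exact hO3 D hD I hI _ hyI
  have hBP : ∀ w ∈ B, Pc (fun i => om n (t i)) γ δ w := by
    rintro w ⟨D, hD, rfl⟩
    exact (hOpc n p R hCy s t hF γ δ D hD _).1 hyP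
  have hl : ∀ i, ∀ w ∈ B, t i * w ∈ B := by
    intro i w hw
    by_cases hi : γ = some i
    · obtain ⟨D, hD, rfl⟩ := hw
      exact ⟨AddMonoid.End.mulLeft (t i) * D,
        mul_mem (Subring.subset_closure (Or.inl ⟨i, hi, rfl⟩)) hD, rfl⟩
    · have h1 : om n (t i) * w = 0 := by
        have h2 := (hBP w hw).1 i
        rwa [if_neg hi] at h2
      have h3 : t i * w = 0 := by
        rw [← (hf2 i).1, mul_assoc, h1, mul_zero]
      rw [h3]
      exact B.zero_mem
  have hr : ∀ i, ∀ w ∈ B, w * t i ∈ B := by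
    intro i w hw
    by_cases hi : δ = some i
    · obtain ⟨D, hD, rfl⟩ := hw
      exact ⟨AddMonoid.End.mulRight (t i) * D,
        mul_mem (Subring.subset_closure (Or.inr ⟨i, hi, rfl⟩)) hD, rfl⟩
    · have h1 : w * om n (t i) = 0 := by
        have h2 := (hBP w hw).2 i
        rwa [if_neg hi] at h2
      have h3 : w * t i = 0 := by
        rw [← (hf2 i).2.1, ← mul_assoc, h1, zero_mul]
      rw [h3]
      exact B.zero_mem
  have hBidl : Idl R B :=
    Soc_idl hCy hF (fun w hw => ((hIm w).1 (hBI w hw)).1) hl hr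
  have hB0 : B ≠ ⊥ := by
    intro h
    have h1 : E v ∈ B := ⟨1, one_mem _, rfl⟩
    rw [h, AddSubgroup.mem_bot] at h1
    exact hy0 h1
  have hHB : H ≤ B := hH.2.2 B hBidl hB0
  obtain ⟨h, hhH, hh0⟩ : ∃ h ∈ H, h ≠ 0 := by
    by_contra hcon
    push Not at hcon
    exact hH.2.1 ((AddSubgroup.eq_bot_iff_forall H).2 hcon)
  obtain ⟨D, hD, hDy⟩ := hHB hhH
  rcases hpure D hD with ⟨D', hD', h1⟩ | ⟨D', hD', h1⟩
  · have h2 : p • D' (E v) = 0 := ((hIm _).1 (hBI _ ⟨D', hD', rfl⟩)).2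
    exact hh0 (by rw [hDy, h1, h2])
  · have h2 : D' h ∈ H := hO3 D' hD' H hH.1 h hhH
    rw [hDy, h1] at h2
    exact hyH h2

end Pool.Agent.CRM
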