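import Pool.Agent.CRM.Stc
import Pool.Agent.CRL.All
import Pool.Agent.CRN.Pca

set_option autoImplicit false

namespace Pool.Agent.CRM

open Pool.Agent.CRR Pool.Agent.CRN Pool.Agent.CRK Pool.Agent.CRL

section

variable {R : Type} [NonUnitalRing R] {s : ℕ}

theorem Spe_pc_add {e : Fin s → R} {α β : Option (Fin s)} {x y : R} (hx : Pc e α β x)
    (hy : Pc e α β y) : Pc e α β (x + y) := by
  constructor
  · intro i
    rw [mul_add, hx.1 i, hy.1 i]
    split_ifs
    · rfl
    · exact add_zero 0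
  · intro j
    rw [add_mul, hx.2 j, hy.2 j]
    split_ifs
    · rfl
    · exact add_zero 0

theorem Spe_pc_neg {e : Fin s → R} {α β : Option (Fin s)} {x : R} (hx : Pc e α β x) :
    Pc e α β (-x) := by
  constructor
  · intro i
    rw [mul_neg, hx.1 i]
    split_ifs
    · rfl
    · exact neg_zero
  · intro j
    rw [neg_mul, hx.2 j]
    split_ifs
    · rfl
    · exact neg_zero

theorem Spe_pc_zero {e : Fin s → R} {α β : Option (Fin s)} : Pc e α β 0 :=
  ⟨fun i => by rw [mul_zero]; split_ifs <;> rfl, fun i => by rw [zero_mul]; split_ifs <;> rfl⟩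

/-- the homogeneous elements -/
def Spe_P (e : Fin s → R) (α β : Option (Fin s)) : AddSubgroup R where
  carrier := {x | Pc e α β x}
  zero_mem' := Spe_pc_zero
  add_mem' := Spe_pc_add
  neg_mem' := Spe_pc_neg

theorem Spe_nl_neg {x : R} (hx : Nl x) : Nl (-x) := by
  have h : x * x * x = 0 := hx
  show -x * -x * -x = 0
  rw [neg_mul_neg, mul_neg, h, neg_zero]

theorem Spe_nl_zero : Nl (0 : R) := by
  show (0 : R) * 0 * 0 = 0
  rw [mul_zero]

/-- the nil elements -/
def Spe_N {e : Fin s → R} (hm : Hm e) : AddSubgroup R where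
  carrier := {x | Nl x}
  zero_mem' := Spe_nl_zero
  add_mem' := fun {x y} hx hy => hm.add x y hx hy
  neg_mem' := Spe_nl_neg

/-- the homogeneous nil elements -/
def Spe_J {e : Fin s → R} (hm : Hm e) (α β : Option (Fin s)) : AddSubgroup R where
  carrier := {x | Jc e α β x}
  zero_mem' := ⟨Spe_pc_zero, Spe_nl_zero⟩
  add_mem' := fun {x y} hx hy => ⟨Spe_pc_add hx.1 hy.1, hm.add x y hx.2 hy.2⟩
  neg_mem' := fun {x} hx => ⟨Spe_pc_neg hx.1, Spe_nl_neg hx.2⟩

/-- the values of the operators -/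
def Spe_B (t : Fin s → R) (α β : Option (Fin s)) (x : R) : AddSubgroup R where
  carrier := {u | ∃ D ∈ Ops t α β, u = D x}
  zero_mem' := ⟨0, Subring.zero_mem _, rfl⟩
  add_mem' := by
    rintro u v ⟨D, hD, rfl⟩ ⟨D', hD', rfl⟩
    exact ⟨D + D', Subring.add_mem _ hD hD', rfl⟩
  neg_mem' := by
    rintro u ⟨D, hD, rfl⟩
    exact ⟨-D, Subring.neg_mem _ hD, rfl⟩

/-- component on the left -/
def Spe_l (e : Fin s → R) (γ : Option (Fin s)) : R →+ R :=
  match γ with
  | some i => AddMonoidHom.mulLeft (e i)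
  | none => AddMonoidHom.id R - ∑ i : Fin s, AddMonoidHom.mulLeft (e i)

/-- component on the right -/
def Spe_r (e : Fin s → R) (γ : Option (Fin s)) : R →+ R :=
  match γ with
  | some i => AddMonoidHom.mulRight (e i)
  | none => AddMonoidHom.id R - ∑ i : Fin s, AddMonoidHom.mulRight (e i)

theorem Spe_l_some (e : Fin s → R) (i : Fin s) (x : R) : Spe_l e (some i) x = e i * x := rfl

theorem Spe_l_none (e : Fin s → R) (x : R) : Spe_l e none x = x - ∑ i, e i * x := by
  simp [Spe_l]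

theorem Spe_r_some (e : Fin s → R) (i : Fin s) (x : R) : Spe_r e (some i) x = x * e i := rfl

theorem Spe_r_none (e : Fin s → R) (x : R) : Spe_r e none x = x - ∑ i, x * e i := by
  simp [Spe_r]

theorem Spe_l_pc {e : Fin s → R} {α : Option (Fin s)} {x : R}
    (h : ∀ i, e i * x = if α = some i then x else 0) (γ : Option (Fin s)) :
    Spe_l e γ x = if γ = α then x else 0 := by
  rcases γ with _ | i
  · rw [Spe_l_none]
    simp only [h]
    rcases α with _ | k
    · simp
    · rw [Finset.sum_eq_single k]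
      · simp
      · intro j _ hj
        rw [if_neg fun h' => hj (Option.some.inj h').symm]
      · intro h'
        exact absurd (Finset.mem_univ k) h'
  · rw [Spe_l_some, h]
    by_cases h1 : α = some i
    · rw [if_pos h1, if_pos h1.symm]
    · rw [if_neg h1, if_neg fun h2 => h1 h2.symm]

theorem Spe_r_pc {e : Fin s → R} {α : Option (Fin s)} {x : R}
    (h : ∀ i, x * e i = if α = some i then x else 0) (γ : Option (Fin s)) :
    Spe_r e γ x = if γ = α then x else 0 := by
  rcases γ with _ | i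
  · rw [Spe_r_none]
    simp only [h]
    rcases α with _ | k
    · simp
    · rw [Finset.sum_eq_single k]
      · simp
      · intro j _ hj
        rw [if_neg fun h' => hj (Option.some.inj h').symm]
      · intro h'
        exact absurd (Finset.mem_univ k) h'
  · rw [Spe_r_some, h]
    by_cases h1 : α = some i
    · rw [if_pos h1, if_pos h1.symm]
    · rw [if_neg h1, if_neg fun h2 => h1 h2.symm]

theorem Spe_proj_pc {e : Fin s → R} {α β : Option (Fin s)} {x : R} (h : Pc e α β x)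
    (γ δ : Option (Fin s)) : Spe_r e δ (Spe_l e γ x) = if γ = α ∧ δ = β then x else 0 := by
  rw [Spe_l_pc h.1]
  by_cases h1 : γ = α
  · rw [if_pos h1, Spe_r_pc h.2]
    by_cases h2 : δ = β
    · rw [if_pos h2, if_pos ⟨h1, h2⟩]
    · rw [if_neg h2, if_neg fun h3 => h2 h3.2]
  · rw [if_neg h1, map_zero, if_neg fun h3 => h1 h3.1]

theorem Spe_l_mul {e : Fin s → R} (hm : Hm e) (γ : Option (Fin s)) (x : R) (i : Fin s) :
    e i * Spe_l e γ x = if γ = some i then Spe_l e γ x else 0 := by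
  rcases γ with _ | k
  · rw [Spe_l_none, mul_sub, Finset.mul_sum, Finset.sum_eq_single i]
    · rw [← mul_assoc, hm.idem, sub_self]
      simp
    · intro j _ hj
      rw [← mul_assoc, hm.orth i j hj.symm, zero_mul]
    · intro h
      exact absurd (Finset.mem_univ i) h
  · rw [Spe_l_some, ← mul_assoc]
    by_cases h : k = i
    · subst h
      rw [hm.idem, if_pos rfl]
    · rw [hm.orth i k (Ne.symm h), zero_mul, if_neg fun h' => h (Option.some.inj h')]

theorem Spe_r_mul {e : Fin s → R} (hm : Hm e) (γ : Option (Fin s)) (x : R) (i : Fin s) :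
    Spe_r e γ x * e i = if γ = some i then Spe_r e γ x else 0 := by
  rcases γ with _ | k
  · rw [Spe_r_none, sub_mul, Finset.sum_mul, Finset.sum_eq_single i]
    · rw [mul_assoc, hm.idem, sub_self]
      simp
    · intro j _ hj
      rw [mul_assoc, hm.orth j i hj, mul_zero]
    · intro h
      exact absurd (Finset.mem_univ i) h
  · rw [Spe_r_some, mul_assoc]
    by_cases h : k = i
    · subst h
      rw [hm.idem, if_pos rfl]
    · rw [hm.orth k i h, mul_zero, if_neg fun h' => h (Option.some.inj h')]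

theorem Spe_r_left (e : Fin s → R) (δ : Option (Fin s)) (a x : R) :
    a * Spe_r e δ x = Spe_r e δ (a * x) := by
  rcases δ with _ | k
  · rw [Spe_r_none, Spe_r_none, mul_sub, Finset.mul_sum]
    congr 1
    exact Finset.sum_congr rfl fun i _ => (mul_assoc _ _ _).symm
  · rw [Spe_r_some, Spe_r_some, mul_assoc]

theorem Spe_proj {e : Fin s → R} (hm : Hm e) (γ δ : Option (Fin s)) (x : R) :
    Pc e γ δ (Spe_r e δ (Spe_l e γ x)) := by
  constructor
  · intro i
    rw [Spe_r_left, Spe_l_mul hm]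
    split_ifs
    · rfl
    · exact map_zero _
  · intro j
    exact Spe_r_mul hm δ _ j

theorem Spe_l_mem {e : Fin s → R} (W : NonUnitalSubring R) (he : ∀ i, e i ∈ W)
    (γ : Option (Fin s)) {x : R} (hx : x ∈ W) : Spe_l e γ x ∈ W := by
  rcases γ with _ | i
  · rw [Spe_l_none]
    exact W.sub_mem hx (W.sum_mem fun i _ => W.mul_mem (he i) hx)
  · exact W.mul_mem (he i) hx

theorem Spe_r_mem {e : Fin s → R} (W : NonUnitalSubring R) (he : ∀ i, e i ∈ W)
    (γ : Option (Fin s)) {x : R} (hx : x ∈ W) : Spe_r e γ x ∈ W := by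
  rcases γ with _ | i
  · rw [Spe_r_none]
    exact W.sub_mem hx (W.sum_mem fun i _ => W.mul_mem hx (he i))
  · exact W.mul_mem hx (he i)

theorem Spe_pw_mem (W : NonUnitalSubring R) {x : R} (hx : x ∈ W) (k : ℕ) : pw x k ∈ W := by
  induction k with
  | zero => exact hx
  | succ k ih => exact W.mul_mem ih hx

/-- a group which is stable under the generators contains the subring -/
theorem Spe_gen (g : Set R) (Y : AddSubgroup R) (h1 : ∀ x ∈ g, x ∈ Y)
    (h2 : ∀ x ∈ g, Y ≤ Y.comap (AddMonoidHom.mulLeft x)) :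
    ∀ r ∈ NonUnitalSubring.closure g, r ∈ Y := by
  have key : ∀ r ∈ NonUnitalSubring.closure g, r ∈ Y ∧ ∀ y ∈ Y, r * y ∈ Y := by
    intro r hr
    induction hr using NonUnitalSubring.closure_induction with
    | mem x hx => exact ⟨h1 x hx, fun y hy => h2 x hx hy⟩
    | zero => exact ⟨Y.zero_mem, fun y _ => by rw [zero_mul]; exact Y.zero_mem⟩
    | add x y _ _ hx hy =>
      refine ⟨Y.add_mem hx.1 hy.1, fun z hz => ?_⟩
      rw [add_mul]
      exact Y.add_mem (hx.2 z hz) (hy.2 z hz)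
    | neg x _ hx =>
      refine ⟨Y.neg_mem hx.1, fun z hz => ?_⟩
      rw [neg_mul]
      exact Y.neg_mem (hx.2 z hz)
    | mul x y _ _ hx hy =>
      refine ⟨hx.2 y hy.1, fun z hz => ?_⟩
      rw [mul_assoc]
      exact hx.2 _ (hy.2 z hz)
  exact fun r hr => (key r hr).1

end

theorem thm_Spe (hOpc : St_Opc) (hWst : St_Wst) (hRul : St_Rul)
    (hRum : St_Rum) : St_Spe := by
  intro n p s R _ _ t H α β x y z h
  have hcy := h.cy
  have hfr := h.cx.fr
  have hab := h.ab
  obtain ⟨hP, ht1, ht2⟩ := CRL.fpr n p R hcy s t hfr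
  obtain ⟨J, hJ, hJ2⟩ := CRL.jil n hcy.n4 R hcy.inM hcy.nt
  have hm : Hm (fun i => om n (t i)) := by
    refine ⟨fun i => (hP.prm i).1, hP.orth, fun x y hx hy => ?_, fun r x hx => ?_⟩
    · exact (hJ2 _).1 (J.add_mem ((hJ2 x).2 hx) ((hJ2 y).2 hy))
    · have h := hJ r x ((hJ2 x).2 hx)
      exact ⟨(hJ2 _).1 h.1, (hJ2 _).1 h.2⟩
  obtain ⟨hpca, -, -, -, -⟩ := CRN.thm_Pca R s (fun i => om n (t i)) hm.idem hm.orth
  obtain ⟨-, hW2, -, -⟩ := hWst n p R hcy s t hfr
  have hjx : Jc (fun i => om n (t i)) α β x := ⟨h.ax.pc, h.ax.nl⟩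
  have hjy : Jc (fun i => om n (t i)) β α y := ⟨h.ay.pc, h.ay.nl⟩
  have hjz : Jc (fun i => om n (t i)) α β z := ⟨h.az.pc, h.az.nl⟩
  set W := NonUnitalSubring.closure (Set.range t) with hW
  -- multiplication by a frame element
  have hL : ∀ (γ δ : Option (Fin s)) (u : R), Jc (fun i => om n (t i)) γ δ u → ∀ i,
      Jc (fun i => om n (t i)) γ δ (t i * u) ∧ (γ = some i ∨ t i * u = 0) := by
    intro γ δ u hu i
    by_cases hγ : γ = some i
    · have hD : AddMonoid.End.mulLeft (t i) ∈ Ops t γ δ :=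
        Subring.subset_closure (Or.inl ⟨i, hγ, rfl⟩)
      have h1 := hOpc n p R hcy s t hfr γ δ _ hD u
      exact ⟨⟨h1.1 hu.1, h1.2 hu.2⟩, Or.inl hγ⟩
    · have h0 : t i * u = 0 := by
        have h1 := hu.1.1 i
        rw [if_neg hγ] at h1
        have h2 : om n (t i) * u = 0 := h1
        rw [← (ht1 i).1, mul_assoc, h2, mul_zero]
      rw [h0]
      exact ⟨⟨Spe_pc_zero, Spe_nl_zero⟩, Or.inr rfl⟩
  have hR : ∀ (γ δ : Option (Fin s)) (u : R), Jc (fun i => om n (t i)) γ δ u → ∀ i,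
      Jc (fun i => om n (t i)) γ δ (u * t i) ∧ (δ = some i ∨ u * t i = 0) := by
    intro γ δ u hu i
    by_cases hγ : δ = some i
    · have hD : AddMonoid.End.mulRight (t i) ∈ Ops t γ δ :=
        Subring.subset_closure (Or.inr ⟨i, hγ, rfl⟩)
      have h1 := hOpc n p R hcy s t hfr γ δ _ hD u
      exact ⟨⟨h1.1 hu.1, h1.2 hu.2⟩, Or.inl hγ⟩
    · have h0 : u * t i = 0 := by
        have h1 := hu.1.2 i
        rw [if_neg hγ] at h1
        have h2 : u * om n (t i) = 0 := h1
        rw [← (ht1 i).2.1, ← mul_assoc, h2, zero_mul]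
      rw [h0]
      exact ⟨⟨Spe_pc_zero, Spe_nl_zero⟩, Or.inr rfl⟩
  -- the groups of values of operators
  have hB : ∀ (γ δ : Option (Fin s)) (u : R), Jc (fun i => om n (t i)) γ δ u →
      Spe_B t γ δ u ≤ Spe_J hm γ δ := by
    rintro γ δ u hu v ⟨D, hD, rfl⟩
    have h1 := hOpc n p R hcy s t hfr γ δ D hD u
    exact ⟨h1.1 hu.1, h1.2 hu.2⟩
  have hBL : ∀ (γ δ : Option (Fin s)) (u : R), Jc (fun i => om n (t i)) γ δ u → ∀ i,
      ∀ v ∈ Spe_B t γ δ u, t i * v ∈ Spe_B t γ δ u := by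
    intro γ δ u hu i v hv
    rcases (hL γ δ v (hB γ δ u hu hv) i).2 with h1 | h1
    · obtain ⟨D, hD, rfl⟩ := hv
      exact ⟨AddMonoid.End.mulLeft (t i) * D, Subring.mul_mem _
        (Subring.subset_closure (Or.inl ⟨i, h1, rfl⟩)) hD, rfl⟩
    · rw [h1]
      exact AddSubgroup.zero_mem _
  have hBR : ∀ (γ δ : Option (Fin s)) (u : R), Jc (fun i => om n (t i)) γ δ u → ∀ i,
      ∀ v ∈ Spe_B t γ δ u, v * t i ∈ Spe_B t γ δ u := by
    intro γ δ u hu i v hv
    rcases (hR γ δ v (hB γ δ u hu hv) i).2 with h1 | h1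
    · obtain ⟨D, hD, rfl⟩ := hv
      exact ⟨AddMonoid.End.mulRight (t i) * D, Subring.mul_mem _
        (Subring.subset_closure (Or.inr ⟨i, h1, rfl⟩)) hD, rfl⟩
    · rw [h1]
      exact AddSubgroup.zero_mem _
  have hBW : ∀ (γ δ : Option (Fin s)) (u : R), Jc (fun i => om n (t i)) γ δ u →
      ∀ w ∈ W, ∀ v ∈ Spe_B t γ δ u, v * w ∈ Spe_B t γ δ u := by
    intro γ δ u hu w hw
    rw [hW] at hw
    induction hw using NonUnitalSubring.closure_induction with
    | mem w hw =>
      obtain ⟨i, rfl⟩ := hw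
      exact hBR γ δ u hu i
    | zero =>
      intro v _
      rw [mul_zero]
      exact AddSubgroup.zero_mem _
    | add w w' _ _ h1 h2 =>
      intro v hv
      rw [mul_add]
      exact AddSubgroup.add_mem _ (h1 v hv) (h2 v hv)
    | neg w _ h1 =>
      intro v hv
      rw [mul_neg]
      exact AddSubgroup.neg_mem _ (h1 v hv)
    | mul w w' _ _ h1 h2 =>
      intro v hv
      rw [← mul_assoc]
      exact h2 _ (h1 v hv)
  have hself : ∀ (γ δ : Option (Fin s)) (u : R), u ∈ Spe_B t γ δ u := fun γ δ u =>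
    ⟨1, Subring.one_mem _, rfl⟩
  -- products of elements of types which do not fit
  have hz : ∀ (γ δ ε ζ : Option (Fin s)) (u v : R), Jc (fun i => om n (t i)) γ δ u →
      Jc (fun i => om n (t i)) ε ζ v → δ ≠ ε → u * v = 0 := fun γ δ ε ζ u v hu hv hne =>
    (hpca γ δ ε ζ u v hu.1 hv.1).2 hne
  -- the rule
  have hyuy : ∀ v ∈ Spe_B t β α y, ∀ u, Jc (fun i => om n (t i)) α β u → y * u * v = 0 := by
    rintro v ⟨D, hD, rfl⟩
    have key : ∀ D ∈ Ops t β α, ∀ v : R, (∀ u, Jc (fun i => om n (t i)) α β u → y * u * v = 0) →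
        ∀ u, Jc (fun i => om n (t i)) α β u → y * u * D v = 0 := by
      intro D hD
      unfold Ops at hD
      induction hD using Subring.closure_induction with
      | mem D hD =>
        intro v hv u hu
        rcases hD with ⟨i, hi, rfl⟩ | ⟨i, hi, rfl⟩
        · show y * u * (t i * v) = 0
          rw [← mul_assoc, mul_assoc y u (t i)]
          exact hv _ (hR α β u hu i).1
        · show y * u * (v * t i) = 0
          rw [← mul_assoc, hv u hu, zero_mul]
      | zero =>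
        intro v _ u _
        exact mul_zero _
      | one =>
        intro v hv u hu
        exact hv u hu
      | add D D' _ _ h1 h2 =>
        intro v hv u hu
        show y * u * (D v + D' v) = 0
        rw [mul_add, h1 v hv u hu, h2 v hv u hu, add_zero]
      | neg D _ h1 =>
        intro v hv u hu
        show y * u * (-(D v)) = 0
        rw [mul_neg, h1 v hv u hu, neg_zero]
      | mul D D' _ _ h1 h2 =>
        intro v hv u hu
        exact h1 (D' v) (h2 v hv) u hu
    refine key D hD y fun u hu => ?_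
    exact ((hRul R s _ hm β α hab.symm).2.2.2.2 y u y hjy hu hjy).2
  -- the groups of products
  set Q1 : AddSubgroup R := AddSubgroup.closure {w | ∃ u v, Jc (fun i => om n (t i)) α β u ∧
    v ∈ Spe_B t β α y ∧ w = u * v} with hQ1
  set Q2 : AddSubgroup R := AddSubgroup.closure {w | ∃ v u, Jc (fun i => om n (t i)) β α v ∧
    Jc (fun i => om n (t i)) α β u ∧ w = v * u} with hQ2
  set T : AddSubgroup R := AddSubgroup.closure {w | ∃ u₁ v u₂, Jc (fun i => om n (t i)) α β u₁ ∧
      Jc (fun i => om n (t i)) β α v ∧ Jc (fun i => om n (t i)) α β u₂ ∧ w = u₁ * v * u₂} with hT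
  set M0 : AddSubgroup R := Spe_B t α β x ⊔ Spe_B t α β z with hM0
  set M1 : AddSubgroup R := Spe_B t β α y with hM1
  have hM0J : M0 ≤ Spe_J hm α β := sup_le (hB _ _ _ hjx) (hB _ _ _ hjz)
  have hM1J : M1 ≤ Spe_J hm β α := hB _ _ _ hjy
  set Y : AddSubgroup R := W.toAddSubgroup ⊔ (M0 ⊔ (M1 ⊔ (Q1 ⊔ (Q2 ⊔ T)))) with hY
  have hYW : W.toAddSubgroup ≤ Y := le_sup_left
  have hY0 : M0 ≤ Y := le_sup_left.trans le_sup_right
  have hY1 : M1 ≤ Y := (le_sup_left.trans le_sup_right).trans le_sup_right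
  have hYQ1 : Q1 ≤ Y := ((le_sup_left.trans le_sup_right).trans le_sup_right).trans le_sup_right
  have hYQ2 : Q2 ≤ Y :=
    (((le_sup_left.trans le_sup_right).trans le_sup_right).trans le_sup_right).trans le_sup_right
  have hYT : T ≤ Y :=
    (((le_sup_right.trans le_sup_right).trans le_sup_right).trans le_sup_right).trans le_sup_right
  -- arrows α β
  have harr : ∀ g, Jc (fun i => om n (t i)) α β g → (∀ w ∈ W, g * w ∈ Y) →
      Y ≤ Y.comap (AddMonoidHom.mulLeft g) := by
    intro g hg hgW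
    refine sup_le (fun w hw => hgW w hw) (sup_le ?_ (sup_le ?_ (sup_le ?_ (sup_le ?_ ?_))))
    · intro u hu
      show g * u ∈ Y
      rw [hz α β α β g u hg (hM0J hu) hab.symm]
      exact Y.zero_mem
    · intro u hu
      exact hYQ1 (AddSubgroup.subset_closure ⟨g, u, hg, hu, rfl⟩)
    · rw [hQ1, AddSubgroup.closure_le]
      rintro _ ⟨u, v, hu, hv, rfl⟩
      show g * (u * v) ∈ Y
      rw [← mul_assoc, hz α β α β g u hg hu hab.symm, zero_mul]
      exact Y.zero_mem
    · rw [hQ2, AddSubgroup.closure_le]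
      rintro _ ⟨v, u, hv, hu, rfl⟩
      show g * (v * u) ∈ Y
      rw [← mul_assoc]
      exact hYT (AddSubgroup.subset_closure ⟨g, v, u, hg, hv, hu, rfl⟩)
    · rw [hT, AddSubgroup.closure_le]
      rintro _ ⟨u, v, u', hu, hv, hu', rfl⟩
      show g * (u * v * u') ∈ Y
      rw [← mul_assoc, ← mul_assoc, hz α β α β g u hg hu hab.symm, zero_mul, zero_mul]
      exact Y.zero_mem
  have hYall : ∀ r : R, r ∈ Y := by
    intro r
    have hr : r ∈ NonUnitalSubring.closure (Set.range t ∪ {x, y, z}) := by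
      rw [h.gen]
      exact NonUnitalSubring.mem_top r
    refine Spe_gen _ Y ?_ ?_ r hr
    · rintro g (⟨i, rfl⟩ | hg)
      · exact hYW (NonUnitalSubring.subset_closure ⟨i, rfl⟩)
      · rcases hg with rfl | rfl | rfl
        · exact hY0 ((le_sup_left : Spe_B t α β _ ≤ M0) (hself _ _ _))
        · exact hY1 (hself _ _ _)
        · exact hY0 ((le_sup_right : Spe_B t α β _ ≤ M0) (hself _ _ _))
    · rintro g (⟨i, rfl⟩ | hg)
      · refine sup_le ?_ (sup_le (sup_le ?_ ?_) (sup_le ?_ (sup_le ?_ (sup_le ?_ ?_))))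
        · intro w hw
          exact hYW (W.mul_mem (NonUnitalSubring.subset_closure ⟨i, rfl⟩) hw)
        · intro u hu
          exact hY0 ((le_sup_left : Spe_B t α β _ ≤ M0) (hBL _ _ _ hjx i u hu))
        · intro u hu
          exact hY0 ((le_sup_right : Spe_B t α β _ ≤ M0) (hBL _ _ _ hjz i u hu))
        · intro u hu
          exact hY1 (hBL _ _ _ hjy i u hu)
        · rw [hQ1, AddSubgroup.closure_le]
          rintro _ ⟨u, v, hu, hv, rfl⟩
          show t i * (u * v) ∈ Y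
          rw [← mul_assoc]
          exact hYQ1 (AddSubgroup.subset_closure ⟨_, v, (hL α β u hu i).1, hv, rfl⟩)
        · rw [hQ2, AddSubgroup.closure_le]
          rintro _ ⟨v, u, hv, hu, rfl⟩
          show t i * (v * u) ∈ Y
          rw [← mul_assoc]
          exact hYQ2 (AddSubgroup.subset_closure ⟨_, u, (hL β α v hv i).1, hu, rfl⟩)
        · rw [hT, AddSubgroup.closure_le]
          rintro _ ⟨u, v, u', hu, hv, hu', rfl⟩
          show t i * (u * v * u') ∈ Y
          rw [← mul_assoc, ← mul_assoc]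
          exact hYT (AddSubgroup.subset_closure ⟨_, v, u', (hL α β u hu i).1, hv, hu', rfl⟩)
      · rcases hg with rfl | rfl | rfl
        · exact harr _ hjx fun w hw => hY0 ((le_sup_left : Spe_B t α β _ ≤ M0)
            (hBW _ _ _ hjx w hw _ (hself _ _ _)))
        · refine sup_le ?_ (sup_le ?_ (sup_le ?_ (sup_le ?_ (sup_le ?_ ?_))))
          · intro w hw
            exact hY1 (hBW _ _ _ hjy w hw _ (hself _ _ _))
          · intro u hu
            exact hYQ2 (AddSubgroup.subset_closure ⟨_, u, hjy, hM0J hu, rfl⟩)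
          · intro u hu
            show _ * u ∈ Y
            rw [hz β α β α _ u hjy (hM1J hu) hab]
            exact Y.zero_mem
          · rw [hQ1, AddSubgroup.closure_le]
            rintro _ ⟨u, v, hu, hv, rfl⟩
            show _ * (u * v) ∈ Y
            rw [← mul_assoc, hyuy v hv u hu]
            exact Y.zero_mem
          · rw [hQ2, AddSubgroup.closure_le]
            rintro _ ⟨v, u, hv, hu, rfl⟩
            show _ * (v * u) ∈ Y
            rw [← mul_assoc, hz β α β α _ v hjy hv hab, zero_mul]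
            exact Y.zero_mem
          · rw [hT, AddSubgroup.closure_le]
            rintro _ ⟨u, v, u', hu, hv, hu', rfl⟩
            show _ * (u * v * u') ∈ Y
            have h0 := (hRum R s _ hm β α hab.symm 0 0 _ u v u' ⟨Spe_pc_zero, Spe_nl_zero⟩
              ⟨Spe_pc_zero, Spe_nl_zero⟩ hjy hu hv hu').2.2
            rw [← mul_assoc, ← mul_assoc, h0]
            exact Y.zero_mem
        · exact harr _ hjz fun w hw => hY0 ((le_sup_right : Spe_B t α β _ ≤ M0)
            (hBW _ _ _ hjz w hw _ (hself _ _ _)))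
  -- the types of the products
  have hQ1P : Q1 ≤ Spe_P (fun i => om n (t i)) α α := by
    rw [hQ1, AddSubgroup.closure_le]
    rintro _ ⟨u, v, hu, hv, rfl⟩
    exact (hpca α β β α u v hu.1 (hM1J hv).1).1 rfl
  have hQ2P : Q2 ≤ Spe_P (fun i => om n (t i)) β β := by
    rw [hQ2, AddSubgroup.closure_le]
    rintro _ ⟨v, u, hv, hu, rfl⟩
    exact (hpca β α α β v u hv.1 hu.1).1 rfl
  have hTP : T ≤ Spe_P (fun i => om n (t i)) α β := by
    rw [hT, AddSubgroup.closure_le]
    rintro _ ⟨u, v, u', hu, hv, hu', rfl⟩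
    exact (hpca α α α β (u * v) u' ((hpca α β β α u v hu.1 hv.1).1 rfl) hu'.1).1 rfl
  have hQ1J : Q1 ≤ J2 R := by
    rw [hQ1, AddSubgroup.closure_le]
    rintro _ ⟨u, v, hu, hv, rfl⟩
    exact AddSubgroup.subset_closure ⟨u, v, hu.2, (hM1J hv).2, rfl⟩
  have hQ2J : Q2 ≤ J2 R := by
    rw [hQ2, AddSubgroup.closure_le]
    rintro _ ⟨v, u, hv, hu, rfl⟩
    exact AddSubgroup.subset_closure ⟨v, u, hv.2, hu.2, rfl⟩
  have hTJ : T ≤ J2 R := by
    rw [hT, AddSubgroup.closure_le]
    rintro _ ⟨u, v, u', hu, hv, hu', rfl⟩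
    exact AddSubgroup.subset_closure ⟨u * v, u', (hm.mul u v hv.2).1, hu'.2, rfl⟩
  have hJ2N : J2 R ≤ Spe_N hm := by
    unfold J2
    rw [AddSubgroup.closure_le]
    rintro _ ⟨a, b, ha, hb, rfl⟩
    exact (hm.mul a b hb).1
  have hdec : ∀ r : R, ∃ w ∈ W, ∃ m0 ∈ M0, ∃ m1 ∈ M1, ∃ a ∈ Q1, ∃ b ∈ Q2, ∃ c ∈ T,
      r = w + m0 + m1 + a + b + c := by
    intro r
    obtain ⟨w, hw, r1, hr1, e1⟩ := AddSubgroup.mem_sup.1 (hYall r)
    obtain ⟨m0, h0, r2, hr2, e2⟩ := AddSubgroup.mem_sup.1 hr1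
    obtain ⟨m1, h1, r3, hr3, e3⟩ := AddSubgroup.mem_sup.1 hr2
    obtain ⟨a, ha, r4, hr4, e4⟩ := AddSubgroup.mem_sup.1 hr3
    obtain ⟨b, hb, c, hc, e5⟩ := AddSubgroup.mem_sup.1 hr4
    refine ⟨w, hw, m0, h0, m1, h1, a, ha, b, hb, c, hc, ?_⟩
    rw [← e1, ← e2, ← e3, ← e4, ← e5]
    abel
  have heW : ∀ i, om n (t i) ∈ W := fun i =>
    Spe_pw_mem W (NonUnitalSubring.subset_closure ⟨i, rfl⟩) _
  -- the component of a sum
  have hcomp : ∀ γ δ : Option (Fin s), γ ≠ δ → ∀ u, Pc (fun i => om n (t i)) γ δ u →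
      ∀ w ∈ W, ∀ m0 ∈ M0, ∀ m1 ∈ M1, ∀ a ∈ Q1, ∀ b ∈ Q2, ∀ c ∈ T,
      u = w + m0 + m1 + a + b + c →
      u = (if γ = α ∧ δ = β then m0 + c else 0) + (if γ = β ∧ δ = α then m1 else 0) := by
    intro γ δ hγδ u hu w hw m0 hm0 m1 hm1 a ha b hb c hc hsum
    have e1 := Spe_proj_pc hu γ δ
    rw [if_pos ⟨rfl, rfl⟩] at e1
    have ew : Spe_r (fun i => om n (t i)) δ (Spe_l (fun i => om n (t i)) γ w) = 0 :=
      hW2 _ (Spe_r_mem W heW δ (Spe_l_mem W heW γ hw)) γ δ (Or.inl hγδ) (Spe_proj hm γ δ w)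
    have e2 := Spe_proj_pc (hM0J hm0).1 γ δ
    have e3 := Spe_proj_pc (hM1J hm1).1 γ δ
    have e4 := Spe_proj_pc (hQ1P ha) γ δ
    have e5 := Spe_proj_pc (hQ2P hb) γ δ
    have e6 := Spe_proj_pc (hTP hc) γ δ
    rw [if_neg fun h' => hγδ (h'.1.trans h'.2.symm)] at e4 e5
    rw [← e1]
    conv_lhs => rw [hsum]
    simp only [map_add]
    rw [ew, e2, e3, e4, e5, e6]
    by_cases h1 : γ = α ∧ δ = β
    · simp only [if_pos h1]
      have h2 : ¬ (γ = β ∧ δ = α) := fun h3 => hab (h1.1.symm.trans h3.1)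
      simp only [if_neg h2]
      abel
    · simp only [if_neg h1]
      abel
  refine ⟨?_, ?_, ?_, ?_⟩
  · intro u hu
    obtain ⟨w, hw, m0, hm0, m1, hm1, a, ha, b, hb, c, hc, hsum⟩ := hdec u
    have e := hcomp α β hab u hu w hw m0 hm0 m1 hm1 a ha b hb c hc hsum
    rw [if_pos ⟨rfl, rfl⟩, if_neg fun h' => hab h'.1, add_zero] at e
    obtain ⟨v, ⟨D, hD, rfl⟩, v', ⟨D', hD', rfl⟩, e'⟩ := AddSubgroup.mem_sup.1 hm0
    refine ⟨D, hD, D', hD', ?_⟩
    have e2 : u - (D x + D' z) = c := by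
      rw [e, ← e']
      abel
    rw [e2]
    exact hc
  · intro u hu
    obtain ⟨w, hw, m0, hm0, m1, hm1, a, ha, b, hb, c, hc, hsum⟩ := hdec u
    have e := hcomp β α hab.symm u hu w hw m0 hm0 m1 hm1 a ha b hb c hc hsum
    rw [if_neg fun h' => hab h'.2, if_pos ⟨rfl, rfl⟩, zero_add] at e
    rw [e]
    exact hm1
  · intro u hu
    obtain ⟨w, hw, m0, hm0, m1, hm1, a, ha, b, hb, c, hc, hsum⟩ := hdec u
    have hmem : a + b + c ∈ J2 R :=
      AddSubgroup.add_mem _ (AddSubgroup.add_mem _ (hQ1J ha) (hQ2J hb)) (hTJ hc)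
    have hwn : w ∈ Spe_N hm := by
      have e : w = u - m0 - m1 - (a + b + c) := by
        rw [hsum]
        abel
      rw [e]
      exact AddSubgroup.sub_mem _ (AddSubgroup.sub_mem _ (AddSubgroup.sub_mem _ hu
        (hM0J hm0).2) (hM1J hm1).2) (hJ2N hmem)
    refine ⟨w, hw, hwn, m0, m1, hM0J hm0, hM1J hm1, ?_⟩
    have e : u - (w + m0 + m1) = a + b + c := by
      rw [hsum]
      abel
    rw [e]
    exact hmem
  · intro γ δ u hγδ h1 h2 hu
    obtain ⟨w, hw, m0, hm0, m1, hm1, a, ha, b, hb, c, hc, hsum⟩ := hdec u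
    have e := hcomp γ δ hγδ u hu w hw m0 hm0 m1 hm1 a ha b hb c hc hsum
    rw [if_neg h1, if_neg h2, add_zero] at e
    exact e

end Pool.Agent.CRM
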