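import Pool.Agent.CRM.SplA

/-!
Campaign CRM (problem MP_1bb14d_al): SPL, the structure of the rings of type L.
-/

set_option autoImplicit false

namespace Pool.Agent.CRM

open Pool.Agent.CRR Pool.Agent.CRN Pool.Agent.CRK Pool.Agent.CRL

/-- **SPL** -/
theorem thm_Spl (hWst : St_Wst) (hRul : St_Rul) : St_Spl := by
  intro n p s R _ _ t H α β m a x y hT
  have hcy := hT.cy
  have hfr := hT.cx.fr
  have he := Dop_hm hcy hfr
  have hab := hT.ab
  have hba : β ≠ α := fun h => hab h.symm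
  obtain ⟨hpfm, hti, htij⟩ := CRL.fpr n p R hcy s t hfr
  obtain ⟨hW1, hW2, hW3, hW4⟩ := hWst n p R hcy s t hfr
  have ht : ∀ i, Pc (fun i => om n (t i)) (some i) (some i) (t i) := by
    intro i
    refine ⟨fun j => ?_, fun j => ?_⟩
    · by_cases h : i = j
      · subst h
        rw [if_pos rfl]
        exact (hti i).2.1
      · rw [if_neg (fun h' => h (Option.some.inj h'))]
        exact (htij j i (Ne.symm h)).1
    · by_cases h : i = j
      · subst h
        rw [if_pos rfl]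
        exact (hti i).1
      · rw [if_neg (fun h' => h (Option.some.inj h'))]
        exact (htij i j h).2
  -- letters
  have hlet : ∀ c ∈ Cs n p t α m a, Lop n t α c := fun c hc =>
    Lqq_letter hWst hcy hfr hT.lo hc
  have hlmul : ∀ x y, Lop n t α x → Lop n t α y → Lop n t α (x * y) := by
    intro x y hx hy
    refine ⟨Rul_mul hx.pc hy.pc, (he.mul _ _ hy.nl).1, fun i hi => ?_⟩
    rw [← mul_assoc, hx.cen i hi, mul_assoc, hy.cen i hi, mul_assoc]
  have hlw : ∀ (c : ℕ → R) (c₀ : R), c₀ ∈ Cs n p t α m a → ∀ l,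
      (∀ j, j < l → c j ∈ Cs n p t α m a) → Lop n t α (pll c c₀ l) := by
    intro c c₀ hc₀ l
    induction l with
    | zero => intro _; exact hlet c₀ hc₀
    | succ l ih =>
      intro hc
      exact hlmul _ _ (hlet _ (hc l (by omega))) (ih fun j hj => hc j (by omega))
  have hx : Jc (fun i => om n (t i)) α β x := ⟨hT.ax.pc, hT.ax.nl⟩
  have hy : Jc (fun i => om n (t i)) β α y := ⟨hT.ay.pc, hT.ay.nl⟩
  have hxw : ∀ (c : ℕ → R) (l : ℕ), (∀ j, j < l → c j ∈ Cs n p t α m a) →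
      Jc (fun i => om n (t i)) α β (pll c x l) := fun c l hc =>
    Tvn_pll he hx l fun j hj => ⟨(hlet _ (hc j hj)).pc, (hlet _ (hc j hj)).nl⟩
  have hyw : ∀ (c : ℕ → R) (l : ℕ), (∀ j, j < l → c j ∈ Cs n p t α m a) →
      Jc (fun i => om n (t i)) β α (prr y c l) := by
    intro c l
    induction l with
    | zero => intro _; exact hy
    | succ l ih =>
      intro hc
      exact Rut_right he (hlet _ (hc l (by omega))).pc (ih fun j hj => hc j (by omega))
  -- the sets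
  obtain ⟨SN, hSN⟩ : ∃ S : Set R, S = {w | ∃ D ∈ Ops t α none, ∃ (l : ℕ) (c : ℕ → R) (c₀ : R),
    (∀ j, j < l → c j ∈ Cs n p t α m a) ∧ c₀ ∈ Cs n p t α m a ∧ w = D (pll c c₀ l)} := ⟨_, rfl⟩
  obtain ⟨SM, hSM⟩ : ∃ S : Set R, S = {w | ∃ D ∈ Ops t α β, ∃ (l : ℕ) (c : ℕ → R),
    (∀ j, j < l → c j ∈ Cs n p t α m a) ∧ w = D (pll c x l)} := ⟨_, rfl⟩
  obtain ⟨SL, hSL⟩ : ∃ S : Set R, S = {w | ∃ D ∈ Ops t β α, ∃ (l : ℕ) (c : ℕ → R),
    (∀ j, j < l → c j ∈ Cs n p t α m a) ∧ w = D (prr y c l)} := ⟨_, rfl⟩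
  obtain ⟨SP, hSP⟩ : ∃ S : Set R, S = {w | ∃ u ∈ SM, ∃ v ∈ SL, w = u * v} := ⟨_, rfl⟩
  obtain ⟨SQ, hSQ⟩ : ∃ S : Set R, S = {w | ∃ v ∈ SL, ∃ u ∈ SM, w = v * u} := ⟨_, rfl⟩
  -- the types
  have hjcl : ∀ (γ δ : Option (Fin s)) (A : Set R), (∀ u ∈ A, Jc (fun i => om n (t i)) γ δ u) →
      ∀ u ∈ AddSubgroup.closure A, Jc (fun i => om n (t i)) γ δ u := by
    intro γ δ A hA u hu
    induction hu using AddSubgroup.closure_induction with
    | mem u hu => exact hA u hu
    | zero => exact Dop_jc_zero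
    | add x y _ _ hx hy => exact Rut_add he hx hy
    | neg x _ hx => exact Rut_neg hx
  have hNj : ∀ u ∈ SN, Jc (fun i => om n (t i)) α α u := by
    rw [hSN]
    rintro u ⟨D, hD, l, c, c₀, hc, hc₀, rfl⟩
    have h := hlw c c₀ hc₀ l hc
    exact Dop_jc hcy hfr (Ops_le_left hD) ⟨h.pc, h.nl⟩
  have hMj : ∀ u ∈ SM, Jc (fun i => om n (t i)) α β u := by
    rw [hSM]
    rintro u ⟨D, hD, l, c, hc, rfl⟩
    exact Dop_jc hcy hfr hD (hxw c l hc)
  have hLj : ∀ u ∈ SL, Jc (fun i => om n (t i)) β α u := by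
    rw [hSL]
    rintro u ⟨D, hD, l, c, hc, rfl⟩
    exact Dop_jc hcy hfr hD (hyw c l hc)
  have hPj : ∀ u ∈ SP, Jc (fun i => om n (t i)) α α u := by
    rw [hSP]
    rintro _ ⟨u, hu, v, hv, rfl⟩
    exact ⟨Rul_mul (hMj u hu).1 (hLj v hv).1, (he.mul _ _ (hLj v hv).2).1⟩
  have hQj : ∀ u ∈ SQ, Jc (fun i => om n (t i)) β β u := by
    rw [hSQ]
    rintro _ ⟨v, hv, u, hu, rfl⟩
    exact ⟨Rul_mul (hLj v hv).1 (hMj u hu).1, (he.mul _ _ (hMj u hu).2).1⟩
  have hNc := hjcl α α SN hNj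
  have hMc := hjcl α β SM hMj
  have hLc := hjcl β α SL hLj
  have hPc := hjcl α α SP hPj
  have hQc := hjcl β β SQ hQj
  -- the operators
  have hNo : ∀ D ∈ Ops t α α, ∀ u ∈ SN, D u ∈ AddSubgroup.closure SN := by
    intro D hD u hu
    rw [hSN] at hu
    obtain ⟨D', hD', l, c, c₀, hc, hc₀, rfl⟩ := hu
    obtain ⟨E, hE, h⟩ := Dop_circ D hD
    rw [Ops_comm D hD D' (Ops_le_left hD'), h _ (hlw c c₀ hc₀ l hc).cen]
    apply AddSubgroup.subset_closure
    rw [hSN]
    exact ⟨D' * E, mul_mem hD' hE, l, c, c₀, hc, hc₀, rfl⟩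
  have hMo' : ∀ D ∈ Ops t α β, ∀ u ∈ SM, D u ∈ SM := by
    intro D hD u hu
    rw [hSM] at hu ⊢
    obtain ⟨D', hD', l, c, hc, rfl⟩ := hu
    exact ⟨D * D', mul_mem hD hD', l, c, hc, rfl⟩
  have hLo' : ∀ D ∈ Ops t β α, ∀ u ∈ SL, D u ∈ SL := by
    intro D hD u hu
    rw [hSL] at hu ⊢
    obtain ⟨D', hD', l, c, hc, rfl⟩ := hu
    exact ⟨D * D', mul_mem hD hD', l, c, hc, rfl⟩
  have hPo : ∀ D ∈ Ops t α α, ∀ u ∈ SP, D u ∈ AddSubgroup.closure SP := by
    intro D hD u hu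
    rw [hSP] at hu
    obtain ⟨u, hu, v, hv, rfl⟩ := hu
    refine AddSubgroup.closure_mono ?_ (Ops_prod D hD u v)
    rintro _ ⟨D₁, h1, D₂, h2, rfl⟩
    rw [hSP]
    exact ⟨_, hMo' D₁ (Ops_le_left h1) u hu, _, hLo' D₂ (Ops_le_right h2) v hv, rfl⟩
  have hQo : ∀ D ∈ Ops t β β, ∀ u ∈ SQ, D u ∈ AddSubgroup.closure SQ := by
    intro D hD u hu
    rw [hSQ] at hu
    obtain ⟨v, hv, u, hu, rfl⟩ := hu
    refine AddSubgroup.closure_mono ?_ (Ops_prod D hD v u)
    rintro _ ⟨D₁, h1, D₂, h2, rfl⟩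
    rw [hSQ]
    exact ⟨_, hLo' D₁ (Ops_le_left h1) v hv, _, hMo' D₂ (Ops_le_right h2) u hu, rfl⟩
  -- multiplication by `W`
  have ht1 : ∀ i, t i * om n (t i) = t i := fun i => (hti i).1
  have ht2 : ∀ i, om n (t i) * t i = t i := fun i => (hti i).2.1
  have hNW := Spt_W (Spl_t ht1 ht2 (fun u hu => (hNc u hu).1) hNo)
  have hMW := Spt_W (Spl_t ht1 ht2 (fun u hu => (hMc u hu).1)
    fun D hD u hu => AddSubgroup.subset_closure (hMo' D hD u hu))
  have hLW := Spt_W (Spl_t ht1 ht2 (fun u hu => (hLc u hu).1)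
    fun D hD u hu => AddSubgroup.subset_closure (hLo' D hD u hu))
  have hPW := Spt_W (Spl_t ht1 ht2 (fun u hu => (hPc u hu).1) hPo)
  have hQW := Spt_W (Spl_t ht1 ht2 (fun u hu => (hQc u hu).1) hQo)
  -- products of letters
  have hNN' : ∀ u ∈ SN, ∀ v ∈ SN, u * v ∈ SN := by
    rw [hSN]
    rintro _ ⟨D, hD, l, c, c₀, hc, hc₀, rfl⟩ _ ⟨D', hD', l', c', c₀', hc', hc₀', rfl⟩
    obtain ⟨l'', c'', hc'', he⟩ := Spt_app (C := Cs n p t α m a) (y := c₀')
      ⟨l', c', hc', rfl⟩ c c₀ hc₀ l hc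
    refine ⟨D * D', Subring.mul_mem _ hD hD', l'', c'', c₀', hc'', hc₀', ?_⟩
    rw [← Ops_left D hD, ← Ops_cen _ (hlw c c₀ hc₀ l hc).cen D' hD', he]
    rfl
  have hNM' : ∀ u ∈ SN, ∀ v ∈ SM, u * v ∈ SM := by
    rw [hSN, hSM]
    rintro _ ⟨D, hD, l, c, c₀, hc, hc₀, rfl⟩ _ ⟨D', hD', l', c', hc', rfl⟩
    obtain ⟨l'', c'', hc'', he⟩ := Spt_app (C := Cs n p t α m a) (y := x)
      ⟨l', c', hc', rfl⟩ c c₀ hc₀ l hc
    refine ⟨D * D', Subring.mul_mem _ (Ops_le_left hD) hD', l'', c'', hc'', ?_⟩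
    rw [← Ops_left D hD, ← Ops_cen _ (hlw c c₀ hc₀ l hc).cen D' hD', he]
    rfl
  have hLN' : ∀ u ∈ SL, ∀ v ∈ SN, u * v ∈ SL := by
    rw [hSN, hSL]
    rintro _ ⟨D, hD, l, c, hc, rfl⟩ _ ⟨D', hD', l', c', c₀', hc', hc₀', rfl⟩
    obtain ⟨E, hE, h⟩ := Spl_circ D' hD'
    obtain ⟨l'', c'', hc'', he⟩ := Spl_app (C := Cs n p t α m a) (y := y) c' c₀' hc₀' l' _
      ⟨l, c, hc, rfl⟩ hc'
    refine ⟨E * D, Subring.mul_mem _ (Ops_le_right hE) hD, l'', c'', hc'', ?_⟩
    have hL := hlw c' c₀' hc₀' l' hc'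
    rw [h _ hL.cen, ← Ops_right E hE, ← Spl_cen _ hL.cen D hD, he]
    rfl
  -- the products of arrows
  have hLM : ∀ v ∈ SL, ∀ u ∈ SM, v * u = 0 ∨ (∃ D ∈ Ops t β α, v = D y) ∧
      ∃ D ∈ Ops t α β, u = D x := by
    intro v hv u hu
    have hv' := hLj v hv
    rw [hSM] at hu
    rw [hSL] at hv
    obtain ⟨D', hD', l', c', hc', rfl⟩ := hu
    obtain ⟨D, hD, l, c, hc, rfl⟩ := hv
    have h4 := (hRul R s _ he β α hba).2.2.2.1
    cases l' with
    | succ l' =>
      left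
      change D (prr y c l) * D' (c' l' * pll c' x l') = 0
      have hl := hlet _ (hc' l' (by omega))
      rw [Ops_cen _ hl.cen D' hD', ← mul_assoc]
      exact (h4 0 (c' l') _ _ Dop_jc_zero ⟨hl.pc, hl.nl⟩ hv'
        (Dop_jc hcy hfr hD' (hxw c' l' fun j hj => hc' j (by omega)))).2
    | zero =>
      cases l with
      | succ l =>
        left
        change D (prr y c l * c l) * D' x = 0
        have hl := hlet _ (hc l (by omega))
        rw [Spl_cen _ hl.cen D hD]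
        exact (h4 0 (c l) _ _ Dop_jc_zero ⟨hl.pc, hl.nl⟩
          (Dop_jc hcy hfr hD (hyw c l fun j hj => hc j (by omega))) (Dop_jc hcy hfr hD' hx)).2
      | zero => exact Or.inr ⟨⟨D, hD, rfl⟩, ⟨D', hD', rfl⟩⟩
  have hMLM : ∀ u ∈ SM, ∀ q ∈ SQ, u * q = 0 := by
    intro u₁ hu₁ q hq
    rw [hSQ] at hq
    obtain ⟨v, hv, u, hu, rfl⟩ := hq
    rcases hLM v hv u hu with h | ⟨⟨D, hD, rfl⟩, D', hD', rfl⟩
    · rw [h, mul_zero]
    · rw [hSM] at hu₁
      obtain ⟨D₁, hD₁, l, c, hc, rfl⟩ := hu₁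
      rw [Spl_pll D₁ hD₁ c x l fun j hj => (hlet _ (hc j hj)).cen, ← Lqq_mulr, ← mul_assoc,
        Wcl_thr2 hRul he ht hab hx (Dop_jc hcy hfr hD hy) hD₁ hD']
      exact ald_pll_zero c l
  have hLML : ∀ q ∈ SQ, ∀ v ∈ SL, q * v = 0 := by
    intro q hq v₂ hv₂
    rw [hSQ] at hq
    obtain ⟨v, hv, u, hu, rfl⟩ := hq
    rcases hLM v hv u hu with h | ⟨⟨D, hD, rfl⟩, D', hD', rfl⟩
    · rw [h, zero_mul]
    · rw [hSL] at hv₂
      obtain ⟨D₂, hD₂, l, c, hc, rfl⟩ := hv₂
      rw [Spl_prr D₂ hD₂ c y l fun j hj => (hlet _ (hc j hj)).cen, Spl_prr_mul,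
        Wcl_thr2 hRul he ht hba hy (Dop_jc hcy hfr hD' hx) hD hD₂]
      exact Spl_prr_zero c l
  have hMQ := Spl_clz hMLM
  have hQL := Spl_clz hLML
  have hPM := Spl_clz (A := SP) (B := SM) (by
    intro q hq u hu
    rw [hSP] at hq
    obtain ⟨u₁, hu₁, v, hv, rfl⟩ := hq
    rw [mul_assoc]
    exact hMLM u₁ hu₁ _ (by rw [hSQ]; exact ⟨v, hv, u, hu, rfl⟩))
  have hLP := Spl_clz (A := SL) (B := SP) (by
    intro v hv q hq
    rw [hSP] at hq
    obtain ⟨u, hu, v₁, hv₁, rfl⟩ := hq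
    rw [← mul_assoc]
    exact hLML _ (by rw [hSQ]; exact ⟨v, hv, u, hu, rfl⟩) v₁ hv₁)
  have hPP := Spl_clz (A := SP) (B := SP) (by
    intro q hq r hr
    have hr' := hr
    rw [hSP] at hr'
    obtain ⟨u, hu, v, hv, rfl⟩ := hr'
    rw [← mul_assoc, hPM q (AddSubgroup.subset_closure hq) u (AddSubgroup.subset_closure hu),
      zero_mul])
  have hQQ := Spl_clz (A := SQ) (B := SQ) (by
    intro q hq r hr
    have hr' := hr
    rw [hSQ] at hr'
    obtain ⟨v, hv, u, hu, rfl⟩ := hr'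
    rw [← mul_assoc, hLML q hq v hv, zero_mul])
  have hNN := Spt_clm (A := SN) (B := SN) (T := AddSubgroup.closure SN)
    fun u hu v hv => AddSubgroup.subset_closure (hNN' u hu v hv)
  have hNM := Spt_clm (A := SN) (B := SM) (T := AddSubgroup.closure SM)
    fun u hu v hv => AddSubgroup.subset_closure (hNM' u hu v hv)
  have hLN := Spt_clm (A := SL) (B := SN) (T := AddSubgroup.closure SL)
    fun u hu v hv => AddSubgroup.subset_closure (hLN' u hu v hv)
  have hML := Spt_clm (A := SM) (B := SL) (T := AddSubgroup.closure SP)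
    fun u hu v hv => AddSubgroup.subset_closure (by rw [hSP]; exact ⟨u, hu, v, hv, rfl⟩)
  have hLMc := Spt_clm (A := SL) (B := SM) (T := AddSubgroup.closure SQ)
    fun u hu v hv => AddSubgroup.subset_closure (by rw [hSQ]; exact ⟨u, hu, v, hv, rfl⟩)
  have hNP := Spt_clm (A := SN) (B := SP) (T := AddSubgroup.closure SP) (by
    intro w hw q hq
    rw [hSP] at hq
    obtain ⟨u, hu, v, hv, rfl⟩ := hq
    rw [← mul_assoc]
    exact AddSubgroup.subset_closure (by rw [hSP]; exact ⟨_, hNM' w hw u hu, v, hv, rfl⟩))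
  have hPN := Spt_clm (A := SP) (B := SN) (T := AddSubgroup.closure SP) (by
    intro q hq w hw
    rw [hSP] at hq
    obtain ⟨u, hu, v, hv, rfl⟩ := hq
    rw [mul_assoc]
    exact AddSubgroup.subset_closure (by rw [hSP]; exact ⟨u, hu, _, hLN' v hv w hw, rfl⟩))
  -- every element
  have hall : ∀ r : R, ∃ w ∈ NonUnitalSubring.closure (Set.range t),
      ∃ k ∈ AddSubgroup.closure SN, ∃ q ∈ AddSubgroup.closure SP,
      ∃ u ∈ AddSubgroup.closure SM, ∃ v ∈ AddSubgroup.closure SL,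
      ∃ q' ∈ AddSubgroup.closure SQ, r = w + k + q + u + v + q' := by
    intro r
    have hr : r ∈ NonUnitalSubring.closure
        (Set.range t ∪ {u | ∃ k, k < m ∧ u = a k} ∪ {x, y}) := by
      rw [hT.gen]
      trivial
    induction hr using NonUnitalSubring.closure_induction with
    | mem r hr =>
      rcases hr with (hr | ⟨k, hk, rfl⟩) | hr
      · exact ⟨r, NonUnitalSubring.subset_closure hr, 0, AddSubgroup.zero_mem _, 0,
          AddSubgroup.zero_mem _, 0, AddSubgroup.zero_mem _, 0, AddSubgroup.zero_mem _, 0,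
          AddSubgroup.zero_mem _, by abel⟩
      · refine ⟨0, NonUnitalSubring.zero_mem _, a k, AddSubgroup.subset_closure ?_, 0,
          AddSubgroup.zero_mem _, 0, AddSubgroup.zero_mem _, 0, AddSubgroup.zero_mem _, 0,
          AddSubgroup.zero_mem _, by abel⟩
        rw [hSN]
        exact ⟨1, Subring.one_mem _, 0, a, a k, fun j hj => absurd hj (Nat.not_lt_zero j),
          Or.inl ⟨k, hk, rfl⟩, rfl⟩
      · rcases hr with hr | hr
        · rw [hr]
          refine ⟨0, NonUnitalSubring.zero_mem _, 0, AddSubgroup.zero_mem _, 0,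
            AddSubgroup.zero_mem _, x, AddSubgroup.subset_closure ?_, 0,
            AddSubgroup.zero_mem _, 0, AddSubgroup.zero_mem _, by abel⟩
          rw [hSM]
          exact ⟨1, Subring.one_mem _, 0, a, fun j hj => absurd hj (Nat.not_lt_zero j), rfl⟩
        · rw [Set.mem_singleton_iff] at hr
          rw [hr]
          refine ⟨0, NonUnitalSubring.zero_mem _, 0, AddSubgroup.zero_mem _, 0,
            AddSubgroup.zero_mem _, 0, AddSubgroup.zero_mem _, y, AddSubgroup.subset_closure ?_,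
            0, AddSubgroup.zero_mem _, by abel⟩
          rw [hSL]
          exact ⟨1, Subring.one_mem _, 0, a, fun j hj => absurd hj (Nat.not_lt_zero j), rfl⟩
    | zero =>
      exact ⟨0, NonUnitalSubring.zero_mem _, 0, AddSubgroup.zero_mem _, 0,
        AddSubgroup.zero_mem _, 0, AddSubgroup.zero_mem _, 0, AddSubgroup.zero_mem _, 0,
        AddSubgroup.zero_mem _, by abel⟩
    | add r r' _ _ hr hr' =>
      obtain ⟨w, hw, k, hk, q, hq, u, hu, v, hv, o, ho, rfl⟩ := hr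
      obtain ⟨w', hw', k', hk', q', hq', u', hu', v', hv', o', ho', rfl⟩ := hr'
      exact ⟨w + w', NonUnitalSubring.add_mem _ hw hw', k + k', AddSubgroup.add_mem _ hk hk',
        q + q', AddSubgroup.add_mem _ hq hq', u + u', AddSubgroup.add_mem _ hu hu',
        v + v', AddSubgroup.add_mem _ hv hv', o + o', AddSubgroup.add_mem _ ho ho', by abel⟩
    | neg r _ hr =>
      obtain ⟨w, hw, k, hk, q, hq, u, hu, v, hv, o, ho, rfl⟩ := hr
      exact ⟨-w, NonUnitalSubring.neg_mem _ hw, -k, AddSubgroup.neg_mem _ hk,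
        -q, AddSubgroup.neg_mem _ hq, -u, AddSubgroup.neg_mem _ hu,
        -v, AddSubgroup.neg_mem _ hv, -o, AddSubgroup.neg_mem _ ho, by abel⟩
    | mul r r' _ _ hr hr' =>
      obtain ⟨w, hw, k, hk, q, hq, u, hu, v, hv, o, ho, rfl⟩ := hr
      obtain ⟨w', hw', k', hk', q', hq', u', hu', v', hv', o', ho', rfl⟩ := hr'
      have z1 : k * v' = 0 := Rul_zero hab (hNc k hk).1 (hLc v' hv').1
      have z2 : k * o' = 0 := Rul_zero hab (hNc k hk).1 (hQc o' ho').1
      have z3 : q * v' = 0 := Rul_zero hab (hPc q hq).1 (hLc v' hv').1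
      have z4 : q * o' = 0 := Rul_zero hab (hPc q hq).1 (hQc o' ho').1
      have z5 : u * k' = 0 := Rul_zero hba (hMc u hu).1 (hNc k' hk').1
      have z6 : u * q' = 0 := Rul_zero hba (hMc u hu).1 (hPc q' hq').1
      have z7 : u * u' = 0 := Rul_zero hba (hMc u hu).1 (hMc u' hu').1
      have z8 : v * v' = 0 := Rul_zero hab (hLc v hv).1 (hLc v' hv').1
      have z9 : v * o' = 0 := Rul_zero hab (hLc v hv).1 (hQc o' ho').1
      have z10 : o * k' = 0 := Rul_zero hba (hQc o ho).1 (hNc k' hk').1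
      have z11 : o * q' = 0 := Rul_zero hba (hQc o ho).1 (hPc q' hq').1
      have z12 : o * u' = 0 := Rul_zero hba (hQc o ho).1 (hMc u' hu').1
      have z13 : q * q' = 0 := hPP q hq q' hq'
      have z14 : q * u' = 0 := hPM q hq u' hu'
      have z15 : u * o' = 0 := hMQ u hu o' ho'
      have z16 : v * q' = 0 := hLP v hv q' hq'
      have z17 : o * v' = 0 := hQL o ho v' hv'
      have z18 : o * o' = 0 := hQQ o ho o' ho'
      refine ⟨w * w', NonUnitalSubring.mul_mem _ hw hw', w * k' + k * w' + k * k', ?_,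
        w * q' + q * w' + k * q' + q * k' + u * v', ?_, w * u' + u * w' + k * u', ?_,
        w * v' + v * w' + v * k', ?_, w * o' + o * w' + v * u', ?_, ?_⟩
      · exact AddSubgroup.add_mem _ (AddSubgroup.add_mem _ (hNW w hw k' hk').1
          (hNW w' hw' k hk).2) (hNN k hk k' hk')
      · exact AddSubgroup.add_mem _ (AddSubgroup.add_mem _ (AddSubgroup.add_mem _
          (AddSubgroup.add_mem _ (hPW w hw q' hq').1 (hPW w' hw' q hq).2) (hNP k hk q' hq'))
          (hPN q hq k' hk')) (hML u hu v' hv')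
      · exact AddSubgroup.add_mem _ (AddSubgroup.add_mem _ (hMW w hw u' hu').1
          (hMW w' hw' u hu).2) (hNM k hk u' hu')
      · exact AddSubgroup.add_mem _ (AddSubgroup.add_mem _ (hLW w hw v' hv').1
          (hLW w' hw' v hv).2) (hLN v hv k' hk')
      · exact AddSubgroup.add_mem _ (AddSubgroup.add_mem _ (hQW w hw o' ho').1
          (hQW w' hw' o ho).2) (hLMc v hv u' hu')
      · simp only [add_mul, mul_add, z1, z2, z3, z4, z5, z6, z7, z8, z9, z10, z11, z12, z13, z14,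
          z15, z16, z17, z18]
        abel
  -- the ideals
  have hQid : Idl R (AddSubgroup.closure SQ) := by
    intro r o' ho'
    obtain ⟨w, hw, k, hk, q, hq, u, hu, v, hv, o, ho, rfl⟩ := hall r
    have z1 : k * o' = 0 := Rul_zero hab (hNc k hk).1 (hQc o' ho').1
    have z2 : q * o' = 0 := Rul_zero hab (hPc q hq).1 (hQc o' ho').1
    have z3 : u * o' = 0 := hMQ u hu o' ho'
    have z4 : v * o' = 0 := Rul_zero hab (hLc v hv).1 (hQc o' ho').1
    have z5 : o * o' = 0 := hQQ o ho o' ho'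
    have z6 : o' * k = 0 := Rul_zero hba (hQc o' ho').1 (hNc k hk).1
    have z7 : o' * q = 0 := Rul_zero hba (hQc o' ho').1 (hPc q hq).1
    have z8 : o' * u = 0 := Rul_zero hba (hQc o' ho').1 (hMc u hu).1
    have z9 : o' * v = 0 := hQL o' ho' v hv
    have z10 : o' * o = 0 := hQQ o' ho' o ho
    constructor
    · have h : (w + k + q + u + v + o) * o' = w * o' := by
        simp only [add_mul, z1, z2, z3, z4, z5, add_zero]
      rw [h]
      exact (hQW w hw o' ho').1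
    · have h : o' * (w + k + q + u + v + o) = o' * w := by
        simp only [mul_add, z6, z7, z8, z9, z10, add_zero]
      rw [h]
      exact (hQW w hw o' ho').2
  have hPid : Idl R (AddSubgroup.closure SP) := by
    intro r q' hq'
    obtain ⟨w, hw, k, hk, q, hq, u, hu, v, hv, o, ho, rfl⟩ := hall r
    have z1 : q * q' = 0 := hPP q hq q' hq'
    have z2 : u * q' = 0 := Rul_zero hba (hMc u hu).1 (hPc q' hq').1
    have z3 : v * q' = 0 := hLP v hv q' hq'
    have z4 : o * q' = 0 := Rul_zero hba (hQc o ho).1 (hPc q' hq').1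
    have z5 : q' * q = 0 := hPP q' hq' q hq
    have z6 : q' * u = 0 := hPM q' hq' u hu
    have z7 : q' * v = 0 := Rul_zero hab (hPc q' hq').1 (hLc v hv).1
    have z8 : q' * o = 0 := Rul_zero hab (hPc q' hq').1 (hQc o ho).1
    constructor
    · have h : (w + k + q + u + v + o) * q' = w * q' + k * q' := by
        simp only [add_mul, z1, z2, z3, z4, add_zero]
      rw [h]
      exact AddSubgroup.add_mem _ (hPW w hw q' hq').1 (hNP k hk q' hq')
    · have h : q' * (w + k + q + u + v + o) = q' * w + q' * k := by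
        simp only [mul_add, z5, z6, z7, z8, add_zero]
      rw [h]
      exact AddSubgroup.add_mem _ (hPW w hw q' hq').2 (hPN q' hq' k hk)
  have hPne : AddSubgroup.closure SP ≠ ⊥ := by
    intro h
    have h1 : pll a x m * y ∈ AddSubgroup.closure SP := by
      apply AddSubgroup.subset_closure
      rw [hSP, hSM, hSL]
      exact ⟨_, ⟨1, Subring.one_mem _, m, a, fun j hj => Or.inl ⟨j, hj, rfl⟩, rfl⟩, y,
        ⟨1, Subring.one_mem _, 0, a, fun j hj => absurd hj (Nat.not_lt_zero j), rfl⟩, rfl⟩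
    rw [h, AddSubgroup.mem_bot, ← Lqq_mulr] at h1
    exact hT.ne h1
  obtain ⟨-, hHne, hH⟩ := hT.cx.lst
  have hQ0 : ∀ o ∈ AddSubgroup.closure SQ, o = 0 := by
    by_contra hc
    have hQne : AddSubgroup.closure SQ ≠ ⊥ := by
      intro h
      apply hc
      intro o ho
      rwa [h, AddSubgroup.mem_bot] at ho
    have h1 := hH _ hQid hQne
    have h2 := hH _ hPid hPne
    apply hHne
    rw [eq_bot_iff]
    intro z hz
    rw [AddSubgroup.mem_bot]
    exact Rul_left hab (hPc z (h2 hz)).1 (hQc z (h1 hz)).1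
  have hdec : ∀ r : R, ∃ w ∈ NonUnitalSubring.closure (Set.range t),
      ∃ k ∈ AddSubgroup.closure SN, ∃ q ∈ AddSubgroup.closure SP,
      ∃ u ∈ AddSubgroup.closure SM, ∃ v ∈ AddSubgroup.closure SL, r = w + k + q + u + v := by
    intro r
    obtain ⟨w, hw, k, hk, q, hq, u, hu, v, hv, o, ho, h⟩ := hall r
    rw [hQ0 o ho, add_zero] at h
    exact ⟨w, hw, k, hk, q, hq, u, hu, v, hv, h⟩
  -- the components
  have hW0 : ∀ w ∈ NonUnitalSubring.closure (Set.range t), ∀ γ δ : Option (Fin s),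
      (γ ≠ δ ∨ γ = none) → Cvup (fun i => om n (t i)) γ δ w = 0 := fun w hw γ δ h =>
    hW2 _ (Cvu_mem Spt_om γ δ hw) γ δ h (Cvu_pc he γ δ w)
  have hcmp : ∀ (γ δ : Option (Fin s)) (r : R), Pc (fun i => om n (t i)) γ δ r →
      ∃ w ∈ NonUnitalSubring.closure (Set.range t),
      ∃ k ∈ AddSubgroup.closure SN, ∃ q ∈ AddSubgroup.closure SP,
      ∃ u ∈ AddSubgroup.closure SM, ∃ v ∈ AddSubgroup.closure SL,
      r = Cvup (fun i => om n (t i)) γ δ w + Cvup (fun i => om n (t i)) γ δ k +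
        Cvup (fun i => om n (t i)) γ δ q + Cvup (fun i => om n (t i)) γ δ u +
        Cvup (fun i => om n (t i)) γ δ v := by
    intro γ δ r hr
    obtain ⟨w, hw, k, hk, q, hq, u, hu, v, hv, h⟩ := hdec r
    refine ⟨w, hw, k, hk, q, hq, u, hu, v, hv, ?_⟩
    have h1 := Cvu_self hr
    conv_lhs => rw [← h1, h]
    simp only [map_add]
  have h1 : ∀ u, Pc (fun i => om n (t i)) α β u → u ∈ AddSubgroup.closure SM := by
    intro r hr
    obtain ⟨w, hw, k, hk, q, hq, u, hu, v, hv, h⟩ := hcmp α β r hr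
    rw [hW0 w hw α β (Or.inl hab), Cvu_other (hNc k hk).1 fun h => hab h.2,
      Cvu_other (hPc q hq).1 fun h => hab h.2, Cvu_self (hMc u hu).1,
      Cvu_other (hLc v hv).1 fun h => hba h.1, zero_add, zero_add, zero_add, add_zero] at h
    rw [h]
    exact hu
  have h2 : ∀ u, Pc (fun i => om n (t i)) β α u → u ∈ AddSubgroup.closure SL := by
    intro r hr
    obtain ⟨w, hw, k, hk, q, hq, u, hu, v, hv, h⟩ := hcmp β α r hr
    rw [hW0 w hw β α (Or.inl hba), Cvu_other (hNc k hk).1 fun h => hab h.1,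
      Cvu_other (hPc q hq).1 fun h => hab h.1, Cvu_other (hMc u hu).1 fun h => hab h.1,
      Cvu_self (hLc v hv).1, zero_add, zero_add, zero_add, zero_add] at h
    rw [h]
    exact hv
  refine ⟨?_, ?_, ?_, ?_, ?_, ?_, ?_⟩
  · intro u w hu hw
    exact hQ0 _ (hLMc u (h2 u hu) w (h1 w hw))
  · rw [← hSM]
    exact h1
  · rw [← hSL]
    exact h2
  · -- (3)
    intro r hr
    obtain ⟨w, hw, k, hk, q, hq, u, hu, v, hv, h⟩ := hcmp α α r hr.1
    rw [Cvu_self (hNc k hk).1, Cvu_self (hPc q hq).1, Cvu_other (hMc u hu).1 fun h => hba h.2,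
      Cvu_other (hLc v hv).1 fun h => hba h.1, add_zero, add_zero] at h
    rw [← hSN, h]
    refine AddSubgroup.add_mem _ (AddSubgroup.add_mem _ ?_
      (AddSubgroup.closure_mono Set.subset_union_left hk)) ?_
    · -- the component of `w`
      rcases hα : α with _ | i
      · subst hα
        rw [hW0 w hw none none (Or.inr rfl)]
        exact AddSubgroup.zero_mem _
      · subst hα
        have h3 : Cvup (fun i => om n (t i)) (some i) (some i) w = r + -(k + q) := by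
          rw [h]
          abel
        have h4 : Jc (fun i => om n (t i)) (some i) (some i)
            (Cvup (fun i => om n (t i)) (some i) (some i) w) := by
          rw [h3]
          exact Rut_add he hr (Rut_neg (Rut_add he (hNc k hk) (hPc q hq)))
        obtain ⟨D, hD, h5⟩ := hW3 _ (Cvu_mem Spt_om _ _ hw) i h4
        refine AddSubgroup.subset_closure (Or.inl ?_)
        rw [hSN, h5]
        exact ⟨D, hD, 0, a, _, fun j hj => absurd hj (Nat.not_lt_zero j),
          Or.inr ⟨i, rfl, rfl⟩, rfl⟩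
    · refine AddSubgroup.closure_mono ?_ hq
      rw [hSP]
      rintro _ ⟨u, hu, v, hv, rfl⟩
      exact Or.inr ⟨u, v, hMj u hu, hLj v hv, rfl⟩
  · -- (4)
    intro r hr
    obtain ⟨w, hw, k, hk, q, hq, u, hu, v, hv, h⟩ := hcmp β β r hr.1
    rw [Cvu_other (hNc k hk).1 fun h => hab h.1, Cvu_other (hPc q hq).1 fun h => hab h.1,
      Cvu_other (hMc u hu).1 fun h => hab h.1, Cvu_other (hLc v hv).1 fun h => hab h.2, add_zero,
      add_zero, add_zero, add_zero] at h
    rcases hβ : β with _ | i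
    · subst hβ
      rw [hW0 w hw none none (Or.inr rfl)] at h
      exact ⟨0, Dop_jc_zero.1, by rw [smul_zero]; exact h⟩
    · subst hβ
      obtain ⟨D, hD, h5⟩ := hW3 _ (Cvu_mem Spt_om (some i) (some i) hw) i (by
        rw [← h]
        exact hr)
      refine ⟨D (om n (t i)), ?_, ?_⟩
      · refine (thm_Opc n p R hcy s t hfr (some i) (some i) D (Ops_le_left hD) _).1 ?_
        have h6 := Cvu_pc he (some i) (some i) (om n (t i))
        have h7 : Cvup (fun i => om n (t i)) (some i) (some i) (om n (t i)) = om n (t i) := by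
          change om n (t i) * om n (t i) * om n (t i) = om n (t i)
          rw [he.idem i, he.idem i]
        rwa [h7] at h6
      · rw [h, h5, map_nsmul]
  · -- (5)
    intro γ δ r hne hn1 hn2 hr
    obtain ⟨w, hw, k, hk, q, hq, u, hu, v, hv, h⟩ := hcmp γ δ r hr
    rw [hW0 w hw γ δ (Or.inl hne), Cvu_other (hNc k hk).1 fun h => hne (h.1.symm.trans h.2),
      Cvu_other (hPc q hq).1 fun h => hne (h.1.symm.trans h.2),
      Cvu_other (hMc u hu).1 fun h => hn1 ⟨h.1.symm, h.2.symm⟩,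
      Cvu_other (hLc v hv).1 fun h => hn2 ⟨h.1.symm, h.2.symm⟩, add_zero, add_zero, add_zero,
      add_zero] at h
    exact h
  · -- (6)
    intro r hr
    obtain ⟨w, hw, k, hk, q, hq, u, hu, v, hv, h⟩ := hdec r
    have hkq := Rut_add he (hNc k hk) (hPc q hq)
    refine ⟨w, hw, ?_, k + q, u, v, hkq, hMc u hu, hLc v hv, by rw [h]; abel⟩
    have h3 : w = r + (-(k + q) + (-u + -v)) := by
      rw [h]
      abel
    rw [h3]
    exact he.add _ _ hr (he.add _ _ (Rut_neg hkq).2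
      (he.add _ _ (Rut_neg (hMc u hu)).2 (Rut_neg (hLc v hv)).2))

end Pool.Agent.CRM
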