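import Pool.Agent.CRM.Stc
import Pool.Agent.CRM.Rul
import Pool.Agent.CRL.All

/-!
Campaign CRM: the structure of the rings of type T (problem MP_1bb14d_al).
-/

set_option autoImplicit false

namespace Pool.Agent.CRM

open Pool.Agent.CRR Pool.Agent.CRN Pool.Agent.CRK Pool.Agent.CRL

section general

variable {R : Type} [NonUnitalRing R]

theorem Spt_congr {c c' : ℕ → R} {y : R} {l : ℕ} (h : ∀ j, j < l → c j = c' j) :
    pll c y l = pll c' y l := by
  induction l with
  | zero => rfl
  | succ l ih =>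
    show c l * pll c y l = c' l * pll c' y l
    rw [h l (Nat.lt_succ_self l), ih fun j hj => h j (by omega)]

/-- the words ending with `y` -/
def Spt_Z (C : Set R) (y x : R) : Prop := ∃ (l : ℕ) (c : ℕ → R), (∀ j, j < l → c j ∈ C) ∧
  x = pll c y l

theorem Spt_cons {C : Set R} {y x c₀ : R} (hx : Spt_Z C y x) (hc₀ : c₀ ∈ C) :
    Spt_Z C y (c₀ * x) := by
  obtain ⟨l, c, hc, rfl⟩ := hx
  refine ⟨l + 1, Function.update c l c₀, ?_, ?_⟩
  · intro j hj
    by_cases hjl : j = l
    · rw [hjl, Function.update_self]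
      exact hc₀
    · rw [Function.update_of_ne hjl]
      exact hc j (by omega)
  · show c₀ * pll c y l = Function.update c l c₀ l * pll (Function.update c l c₀) y l
    rw [Function.update_self]
    congr 1
    refine Spt_congr fun j hj => ?_
    rw [Function.update_of_ne (by omega)]

theorem Spt_app {C : Set R} {y x : R} (hx : Spt_Z C y x) (c : ℕ → R) (c₀ : R) (hc₀ : c₀ ∈ C) :
    ∀ l, (∀ j, j < l → c j ∈ C) → Spt_Z C y (pll c c₀ l * x) := by
  intro l
  induction l with
  | zero =>
    intro _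
    exact Spt_cons hx hc₀
  | succ l ih =>
    intro hc
    show Spt_Z C y (c l * pll c c₀ l * x)
    rw [mul_assoc]
    exact Spt_cons (ih fun j hj => hc j (by omega)) (hc l (by omega))

theorem Spt_clm {A B : Set R} {T : AddSubgroup R} (h : ∀ a ∈ A, ∀ b ∈ B, a * b ∈ T) :
    ∀ a ∈ AddSubgroup.closure A, ∀ b ∈ AddSubgroup.closure B, a * b ∈ T := by
  have h1 : ∀ a ∈ A, ∀ b ∈ AddSubgroup.closure B, a * b ∈ T := by
    intro a ha b hb
    induction hb using AddSubgroup.closure_induction with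
    | mem b hb => exact h a ha b hb
    | zero => rw [mul_zero]; exact T.zero_mem
    | add b b' _ _ hb hb' => rw [mul_add]; exact T.add_mem hb hb'
    | neg b _ hb => rw [mul_neg]; exact T.neg_mem hb
  intro a ha b hb
  induction ha using AddSubgroup.closure_induction with
  | mem a ha => exact h1 a ha b hb
  | zero => rw [zero_mul]; exact T.zero_mem
  | add a a' _ _ ha ha' => rw [add_mul]; exact T.add_mem ha ha'
  | neg a _ ha => rw [neg_mul]; exact T.neg_mem ha

theorem Spt_W {s : ℕ} {t : Fin s → R} {T : AddSubgroup R}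
    (h : ∀ i, ∀ u ∈ T, t i * u ∈ T ∧ u * t i ∈ T) :
    ∀ w ∈ NonUnitalSubring.closure (Set.range t), ∀ u ∈ T, w * u ∈ T ∧ u * w ∈ T := by
  intro w hw
  induction hw using NonUnitalSubring.closure_induction with
  | mem x hx =>
    obtain ⟨i, rfl⟩ := hx
    exact h i
  | zero =>
    intro u _
    rw [zero_mul, mul_zero]
    exact ⟨T.zero_mem, T.zero_mem⟩
  | add x y _ _ hx hy =>
    intro u hu
    rw [add_mul, mul_add]
    exact ⟨T.add_mem (hx u hu).1 (hy u hu).1, T.add_mem (hx u hu).2 (hy u hu).2⟩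
  | neg x _ hx =>
    intro u hu
    rw [neg_mul, mul_neg]
    exact ⟨T.neg_mem (hx u hu).1, T.neg_mem (hx u hu).2⟩
  | mul x y _ _ hx hy =>
    intro u hu
    rw [mul_assoc, ← mul_assoc u]
    exact ⟨(hx _ (hy u hu).1).1, (hy _ (hx u hu).2).2⟩

end general

section frame

variable {n p s : ℕ} {R : Type} [NonUnitalRing R] [Finite R] {t : Fin s → R}

theorem Spt_sum (hcy : Cy R n p) (hfr : Frame R n s t) :
    ∀ w ∈ NonUnitalSubring.closure (Set.range t), w = ∑ i, om n (t i) * w := by
  obtain ⟨hpfm, hti, htij⟩ := CRL.fpr n p R hcy s t hfr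
  intro w hw
  induction hw using NonUnitalSubring.closure_induction with
  | mem x hx =>
    obtain ⟨j, rfl⟩ := hx
    rw [Finset.sum_eq_single j, (hti j).2.1]
    · intro i _ hij
      exact (htij i j hij).1
    · intro h
      exact absurd (Finset.mem_univ j) h
  | zero => simp
  | add x y _ _ hx hy =>
    conv_lhs => rw [hx, hy]
    rw [← Finset.sum_add_distrib]
    exact Finset.sum_congr rfl fun i _ => (mul_add _ _ _).symm
  | neg x _ hx =>
    conv_lhs => rw [hx]
    rw [← Finset.sum_neg_distrib]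
    exact Finset.sum_congr rfl fun i _ => (mul_neg _ _).symm
  | mul x y _ _ hx hy =>
    conv_lhs => rw [hx]
    rw [Finset.sum_mul]
    exact Finset.sum_congr rfl fun i _ => mul_assoc _ _ _

omit [Finite R] in
/-- `e_i` is in the subring generated by the `t_i` -/
theorem Spt_om (i : Fin s) : om n (t i) ∈ NonUnitalSubring.closure (Set.range t) := by
  unfold om
  generalize 3 * (n - 3) - 1 = k
  induction k with
  | zero => exact NonUnitalSubring.subset_closure ⟨i, rfl⟩
  | succ k ih => exact NonUnitalSubring.mul_mem _ ih (NonUnitalSubring.subset_closure ⟨i, rfl⟩)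

/-- the component of an element of `W` -/
def Spt_wc (n : ℕ) (t : Fin s → R) (w : R) : Option (Fin s) → R
  | some i => om n (t i) * w
  | none => 0

theorem Spt_wcp (hcy : Cy R n p) (hfr : Frame R n s t) (hWst : St_Wst) (w : R)
    (hw : w ∈ NonUnitalSubring.closure (Set.range t)) (γ : Option (Fin s)) :
    Pc (fun i => om n (t i)) γ γ (Spt_wc n t w γ) := by
  obtain ⟨hpfm, hti, htij⟩ := CRL.fpr n p R hcy s t hfr
  have hcom := (hWst n p R hcy s t hfr).1 w hw
  rcases γ with _ | i
  · refine ⟨fun j => ?_, fun j => ?_⟩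
    · show om n (t j) * 0 = _
      rw [if_neg (by simp), mul_zero]
    · show 0 * om n (t j) = _
      rw [if_neg (by simp), zero_mul]
  · refine ⟨fun j => ?_, fun j => ?_⟩
    · show om n (t j) * (om n (t i) * w) = _
      by_cases hij : i = j
      · subst hij
        rw [if_pos rfl, ← mul_assoc, (hpfm.prm i).1]
        rfl
      · rw [if_neg (fun h => hij (Option.some.inj h)), ← mul_assoc, hpfm.orth j i (Ne.symm hij),
          zero_mul]
    · show om n (t i) * w * om n (t j) = _
      rw [mul_assoc, ← (hcom j).1, ← mul_assoc]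
      by_cases hij : i = j
      · subst hij
        rw [if_pos rfl, (hpfm.prm i).1]
        rfl
      · rw [if_neg (fun h => hij (Option.some.inj h)), hpfm.orth i j hij, zero_mul]

/-- the components of `w + u + v` -/
theorem Spt_cmp (hcy : Cy R n p) (hfr : Frame R n s t) (hWst : St_Wst)
    {α β γ δ : Option (Fin s)} {w u v x : R}
    (hw : w ∈ NonUnitalSubring.closure (Set.range t))
    (hu : Pc (fun i => om n (t i)) α α u) (hv : Pc (fun i => om n (t i)) α β v)
    (hx : Pc (fun i => om n (t i)) γ δ x) (hxe : x = w + u + v) :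
    x = (if γ = δ then Spt_wc n t w γ else 0) + (if γ = α ∧ δ = α then u else 0) +
      (if γ = α ∧ δ = β then v else 0) := by
  obtain ⟨hpfm, hti, htij⟩ := CRL.fpr n p R hcy s t hfr
  obtain ⟨-, -, huniq, hadd, hzero⟩ := CRN.thm_Pca R s (fun i => om n (t i))
    (fun i => (hpfm.prm i).1) hpfm.orth
  have hite : ∀ (P : Prop) [Decidable P] (γ' δ' : Option (Fin s)) (y : R),
      (P → Pc (fun i => om n (t i)) γ' δ' y) →
      Pc (fun i => om n (t i)) γ' δ' (if P then y else 0) := by
    intro P _ γ' δ' y h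
    by_cases hP : P
    · rw [if_pos hP]
      exact h hP
    · rw [if_neg hP]
      exact hzero γ' δ'
  let c : Option (Fin s) → Option (Fin s) → R := fun γ' δ' =>
    (if γ' = δ' then Spt_wc n t w γ' else 0) + (if γ' = α ∧ δ' = α then u else 0) +
      (if γ' = α ∧ δ' = β then v else 0) + -(if γ' = γ ∧ δ' = δ then x else 0)
  have hc : ∀ γ' δ', Pc (fun i => om n (t i)) γ' δ' (c γ' δ') := by
    intro γ' δ'
    refine (hadd _ _ _ _ ((hadd _ _ _ _ ((hadd _ _ _ _ ?_ ?_).1) ?_).1)
      ((hadd _ _ _ _ ?_ (hzero γ' δ')).2)).1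
    · refine hite _ _ _ _ fun h => ?_
      rw [← h]
      exact Spt_wcp hcy hfr hWst w hw γ'
    · refine hite _ _ _ _ fun h => ?_
      rw [h.1, h.2]
      exact hu
    · refine hite _ _ _ _ fun h => ?_
      rw [h.1, h.2]
      exact hv
    · refine hite _ _ _ _ fun h => ?_
      rw [h.1, h.2]
      exact hx
  have hsum : ∑ γ', ∑ δ', c γ' δ' = 0 := by
    have hs : ∀ (a b : Option (Fin s)) (y : R),
        ∑ γ' : Option (Fin s), ∑ δ' : Option (Fin s), (if γ' = a ∧ δ' = b then y else 0) = y := by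
      intro a b y
      rw [Finset.sum_eq_single a, Finset.sum_eq_single b]
      · rw [if_pos ⟨rfl, rfl⟩]
      · intro d _ hd
        rw [if_neg fun h => hd h.2]
      · intro h
        exact absurd (Finset.mem_univ _) h
      · intro g _ hg
        exact Finset.sum_eq_zero fun d _ => if_neg fun h => hg h.1
      · intro h
        exact absurd (Finset.mem_univ _) h
    have hw' : ∑ γ' : Option (Fin s), ∑ δ' : Option (Fin s),
        (if γ' = δ' then Spt_wc n t w γ' else 0) = w := by
      have h1 : ∀ γ' : Option (Fin s), ∑ δ' : Option (Fin s),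
          (if γ' = δ' then Spt_wc n t w γ' else 0) = Spt_wc n t w γ' := by
        intro γ'
        rw [Finset.sum_ite_eq]
        simp
      rw [Finset.sum_congr rfl fun γ' _ => h1 γ', Fintype.sum_option]
      show 0 + ∑ i, om n (t i) * w = w
      rw [zero_add]
      exact (Spt_sum hcy hfr w hw).symm
    show ∑ γ', ∑ δ', ((if γ' = δ' then Spt_wc n t w γ' else 0) +
      (if γ' = α ∧ δ' = α then u else 0) + (if γ' = α ∧ δ' = β then v else 0) +
      -(if γ' = γ ∧ δ' = δ then x else 0)) = 0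
    simp only [Finset.sum_add_distrib, Finset.sum_neg_distrib]
    rw [hs, hs, hs, hw', hxe]
    abel
  have h1 := huniq c hc hsum γ δ
  have h2 : (if γ = δ then Spt_wc n t w γ else 0) + (if γ = α ∧ δ = α then u else 0) +
      (if γ = α ∧ δ = β then v else 0) + -(if γ = γ ∧ δ = δ then x else 0) = 0 := h1
  rw [if_pos (⟨rfl, rfl⟩ : γ = γ ∧ δ = δ)] at h2
  exact (eq_of_sub_eq_zero (by rw [sub_eq_add_neg]; exact h2)).symm

end frame

theorem thm_Spt (hO : St_Ops) (hOpc : St_Opc) (hWst : St_Wst) : St_Spt := by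
  intro n p s R _ _ t H α β m a z hT
  have hcy := hT.cy
  have hfr := hT.cx.fr
  obtain ⟨hpfm, hti, htij⟩ := CRL.fpr n p R hcy s t hfr
  obtain ⟨J, hJ, hJm⟩ := CRL.jil n hcy.n4 R hcy.inM hcy.nt
  obtain ⟨hW1, hW2, hW3, hW4⟩ := hWst n p R hcy s t hfr
  have hnlm : ∀ x y : R, Nl y → Nl (x * y) := fun x y hy => (hJm _).1 (hJ _ _ ((hJm _).2 hy)).1
  have hnlm' : ∀ x y : R, Nl x → Nl (x * y) := fun x y hx => (hJm _).1 (hJ _ _ ((hJm _).2 hx)).2
  -- letters
  have hlet : ∀ c ∈ Cs n p t α m a, Lop n t α c := by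
    rintro c (⟨k, hk, rfl⟩ | ⟨i, hi, rfl⟩)
    · exact hT.lo k hk
    · subst hi
      exact hW4 i
  have hlmul : ∀ x y, Lop n t α x → Lop n t α y → Lop n t α (x * y) := by
    intro x y hx hy
    refine ⟨Rul_mul hx.pc hy.pc, hnlm _ _ hy.nl, fun i hi => ?_⟩
    rw [← mul_assoc, hx.cen i hi, mul_assoc, hy.cen i hi, mul_assoc]
  have hlw : ∀ (c : ℕ → R) (c₀ : R), c₀ ∈ Cs n p t α m a → ∀ l,
      (∀ j, j < l → c j ∈ Cs n p t α m a) → Lop n t α (pll c c₀ l) := by
    intro c c₀ hc₀ l
    induction l with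
    | zero => intro _; exact hlet c₀ hc₀
    | succ l ih =>
      intro hc
      exact hlmul _ _ (hlet _ (hc l (by omega))) (ih fun j hj => hc j (by omega))
  have hzw : ∀ (c : ℕ → R) (l : ℕ), (∀ j, j < l → c j ∈ Cs n p t α m a) →
      Jc (fun i => om n (t i)) α β (pll c z l) := by
    intro c l
    induction l with
    | zero => intro _; exact ⟨hT.ar.pc, hT.ar.nl⟩
    | succ l ih =>
      intro hc
      have h := ih fun j hj => hc j (by omega)
      exact ⟨Rul_mul (hlet _ (hc l (by omega))).pc h.1, hnlm _ _ h.2⟩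
  -- the subgroups
  set SN : Set R := {w | ∃ D ∈ Ops t α none, ∃ (l : ℕ) (c : ℕ → R) (c₀ : R),
    (∀ j, j < l → c j ∈ Cs n p t α m a) ∧ c₀ ∈ Cs n p t α m a ∧ w = D (pll c c₀ l)} with hSN
  set SM : Set R := {w | ∃ D ∈ Ops t α β, ∃ (l : ℕ) (c : ℕ → R),
    (∀ j, j < l → c j ∈ Cs n p t α m a) ∧ w = D (pll c z l)} with hSM
  have hle1 : Ops t α none ≤ Ops t α α := (hO R s t α α).2.2.2.2.2.2.2.1
  have hle2 : Ops t α none ≤ Ops t α β := (hO R s t α β).2.2.2.2.2.2.2.1
  have hNpc : ∀ u ∈ SN, Jc (fun i => om n (t i)) α α u := by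
    rintro u ⟨D, hD, l, c, c₀, hc, hc₀, rfl⟩
    have h := hlw c c₀ hc₀ l hc
    have h2 := hOpc n p R hcy s t hfr α α D (hle1 hD) (pll c c₀ l)
    exact ⟨h2.1 h.pc, h2.2 h.nl⟩
  have hMpc : ∀ u ∈ SM, Jc (fun i => om n (t i)) α β u := by
    rintro u ⟨D, hD, l, c, hc, rfl⟩
    have h := hzw c l hc
    have h2 := hOpc n p R hcy s t hfr α β D hD (pll c z l)
    exact ⟨h2.1 h.1, h2.2 h.2⟩
  have hjcl : ∀ (γ δ : Option (Fin s)) (A : Set R), (∀ u ∈ A, Jc (fun i => om n (t i)) γ δ u) →
      ∀ u ∈ AddSubgroup.closure A, Jc (fun i => om n (t i)) γ δ u := by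
    intro γ δ A hA u hu
    induction hu using AddSubgroup.closure_induction with
    | mem u hu => exact hA u hu
    | zero =>
      refine ⟨⟨fun i => ?_, fun i => ?_⟩, by simp [Nl]⟩
      · rw [mul_zero]; split_ifs <;> rfl
      · rw [zero_mul]; split_ifs <;> rfl
    | add x y _ _ hx hy =>
      exact ⟨Rul_add hx.1 hy.1, (hJm _).1 (J.add_mem ((hJm _).2 hx.2) ((hJm _).2 hy.2))⟩
    | neg x _ hx => exact ⟨Rul_neg hx.1, (hJm _).1 (J.neg_mem ((hJm _).2 hx.2))⟩
  have hNcl := hjcl α α SN hNpc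
  have hMcl := hjcl α β SM hMpc
  -- multiplication by t_i
  have htl : ∀ (i : Fin s) (x : R), om n (t i) * x = 0 → t i * x = 0 := by
    intro i x hx
    rw [← (hti i).1, mul_assoc, hx, mul_zero]
  have htr : ∀ (i : Fin s) (x : R), x * om n (t i) = 0 → x * t i = 0 := by
    intro i x hx
    rw [← (hti i).2.1, ← mul_assoc, hx, zero_mul]
  have hNt : ∀ i, ∀ u ∈ AddSubgroup.closure SN, t i * u ∈ AddSubgroup.closure SN ∧
      u * t i ∈ AddSubgroup.closure SN := by
    intro i u hu
    by_cases hi : α = some i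
    · induction hu using AddSubgroup.closure_induction with
      | mem u hu =>
        obtain ⟨D, hD, l, c, c₀, hc, hc₀, rfl⟩ := hu
        have hL : AddMonoid.End.mulLeft (t i) ∈ Ops t α none :=
          Subring.subset_closure (Or.inl ⟨i, hi, rfl⟩)
        refine ⟨AddSubgroup.subset_closure ⟨AddMonoid.End.mulLeft (t i) * D,
          Subring.mul_mem _ hL hD, l, c, c₀, hc, hc₀, rfl⟩,
          AddSubgroup.subset_closure ⟨D * AddMonoid.End.mulLeft (t i),
          Subring.mul_mem _ hD hL, l, c, c₀, hc, hc₀, ?_⟩⟩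
        rw [← (hO R s t α none).2.2.2.1 D hD, ← (hlw c c₀ hc₀ l hc).cen i hi]
        rfl
      | zero => rw [mul_zero, zero_mul]; exact ⟨AddSubgroup.zero_mem _, AddSubgroup.zero_mem _⟩
      | add x y _ _ hx hy =>
        rw [mul_add, add_mul]
        exact ⟨AddSubgroup.add_mem _ hx.1 hy.1, AddSubgroup.add_mem _ hx.2 hy.2⟩
      | neg x _ hx =>
        rw [mul_neg, neg_mul]
        exact ⟨AddSubgroup.neg_mem _ hx.1, AddSubgroup.neg_mem _ hx.2⟩
    · have h := (hNcl u hu).1
      have h1 := h.1 i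
      have h2 := h.2 i
      rw [if_neg hi] at h1 h2
      rw [htl i u h1, htr i u h2]
      exact ⟨AddSubgroup.zero_mem _, AddSubgroup.zero_mem _⟩
  have hMt : ∀ i, ∀ u ∈ AddSubgroup.closure SM, t i * u ∈ AddSubgroup.closure SM ∧
      u * t i ∈ AddSubgroup.closure SM := by
    intro i u hu
    constructor
    · by_cases hi : α = some i
      · induction hu using AddSubgroup.closure_induction with
        | mem u hu =>
          obtain ⟨D, hD, l, c, hc, rfl⟩ := hu
          exact AddSubgroup.subset_closure ⟨AddMonoid.End.mulLeft (t i) * D,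
            Subring.mul_mem _ (Subring.subset_closure (Or.inl ⟨i, hi, rfl⟩)) hD, l, c, hc, rfl⟩
        | zero => rw [mul_zero]; exact AddSubgroup.zero_mem _
        | add x y _ _ hx hy => rw [mul_add]; exact AddSubgroup.add_mem _ hx hy
        | neg x _ hx => rw [mul_neg]; exact AddSubgroup.neg_mem _ hx
      · have h1 := (hMcl u hu).1.1 i
        rw [if_neg hi] at h1
        rw [htl i u h1]
        exact AddSubgroup.zero_mem _
    · by_cases hi : β = some i
      · induction hu using AddSubgroup.closure_induction with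
        | mem u hu =>
          obtain ⟨D, hD, l, c, hc, rfl⟩ := hu
          exact AddSubgroup.subset_closure ⟨AddMonoid.End.mulRight (t i) * D,
            Subring.mul_mem _ (Subring.subset_closure (Or.inr ⟨i, hi, rfl⟩)) hD, l, c, hc, rfl⟩
        | zero => rw [zero_mul]; exact AddSubgroup.zero_mem _
        | add x y _ _ hx hy => rw [add_mul]; exact AddSubgroup.add_mem _ hx hy
        | neg x _ hx => rw [neg_mul]; exact AddSubgroup.neg_mem _ hx
      · have h1 := (hMcl u hu).1.2 i
        rw [if_neg hi] at h1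
        rw [htr i u h1]
        exact AddSubgroup.zero_mem _
  have hNW := Spt_W hNt
  have hMW := Spt_W hMt
  have hNN := Spt_clm (A := SN) (B := SN) (T := AddSubgroup.closure SN) (by
    rintro _ ⟨D, hD, l, c, c₀, hc, hc₀, rfl⟩ _ ⟨D', hD', l', c', c₀', hc', hc₀', rfl⟩
    obtain ⟨l'', c'', hc'', he⟩ := Spt_app (C := Cs n p t α m a) (y := c₀')
      ⟨l', c', hc', rfl⟩ c c₀ hc₀ l hc
    refine AddSubgroup.subset_closure ⟨D * D', Subring.mul_mem _ hD hD', l'', c'', c₀', hc'',
      hc₀', ?_⟩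
    rw [← (hO R s t α none).2.2.2.1 D hD,
      ← (hO R s t α none).2.2.2.2.2.1 D' hD' _ (hlw c c₀ hc₀ l hc).cen, he]
    rfl)
  have hNM := Spt_clm (A := SN) (B := SM) (T := AddSubgroup.closure SM) (by
    rintro _ ⟨D, hD, l, c, c₀, hc, hc₀, rfl⟩ _ ⟨D', hD', l', c', hc', rfl⟩
    obtain ⟨l'', c'', hc'', he⟩ := Spt_app (C := Cs n p t α m a) (y := z)
      ⟨l', c', hc', rfl⟩ c c₀ hc₀ l hc
    refine AddSubgroup.subset_closure ⟨D * D', Subring.mul_mem _ (hle2 hD) hD', l'', c'', hc'', ?_⟩
    rw [← (hO R s t α none).2.2.2.1 D hD,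
      ← (hO R s t α β).2.2.2.2.2.1 D' hD' _ (hlw c c₀ hc₀ l hc).cen, he]
    rfl)
  -- every element
  have hall : ∀ x : R, ∃ w ∈ NonUnitalSubring.closure (Set.range t),
      ∃ u ∈ AddSubgroup.closure SN, ∃ v ∈ AddSubgroup.closure SM, x = w + u + v := by
    intro x
    have hx : x ∈ NonUnitalSubring.closure
        (Set.range t ∪ {x | ∃ k, k < m ∧ x = a k} ∪ {z}) := by
      rw [hT.gen]
      trivial
    induction hx using NonUnitalSubring.closure_induction with
    | mem x hx =>
      rcases hx with (hx | ⟨k, hk, rfl⟩) | hx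
      · exact ⟨x, NonUnitalSubring.subset_closure hx, 0, AddSubgroup.zero_mem _, 0,
          AddSubgroup.zero_mem _, by abel⟩
      · exact ⟨0, NonUnitalSubring.zero_mem _, a k, AddSubgroup.subset_closure ⟨1,
          Subring.one_mem _, 0, a, a k, fun j hj => absurd hj (Nat.not_lt_zero j),
          Or.inl ⟨k, hk, rfl⟩, rfl⟩, 0, AddSubgroup.zero_mem _, by abel⟩
      · rw [Set.mem_singleton_iff] at hx
        rw [hx]
        exact ⟨0, NonUnitalSubring.zero_mem _, 0, AddSubgroup.zero_mem _, z,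
          AddSubgroup.subset_closure ⟨1, Subring.one_mem _, 0, a,
          fun j hj => absurd hj (Nat.not_lt_zero j), rfl⟩, by abel⟩
    | zero =>
      exact ⟨0, NonUnitalSubring.zero_mem _, 0, AddSubgroup.zero_mem _, 0,
        AddSubgroup.zero_mem _, by abel⟩
    | add x y _ _ hx hy =>
      obtain ⟨w, hw, u, hu, v, hv, rfl⟩ := hx
      obtain ⟨w', hw', u', hu', v', hv', rfl⟩ := hy
      exact ⟨w + w', NonUnitalSubring.add_mem _ hw hw', u + u', AddSubgroup.add_mem _ hu hu',
        v + v', AddSubgroup.add_mem _ hv hv', by abel⟩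
    | neg x _ hx =>
      obtain ⟨w, hw, u, hu, v, hv, rfl⟩ := hx
      exact ⟨-w, NonUnitalSubring.neg_mem _ hw, -u, AddSubgroup.neg_mem _ hu,
        -v, AddSubgroup.neg_mem _ hv, by abel⟩
    | mul x y _ _ hx hy =>
      obtain ⟨w, hw, u, hu, v, hv, rfl⟩ := hx
      obtain ⟨w', hw', u', hu', v', hv', rfl⟩ := hy
      have h1 : v * u' = 0 := Rul_zero (Ne.symm hT.ab) (hMcl v hv).1 (hNcl u' hu').1
      have h2 : v * v' = 0 := Rul_zero (Ne.symm hT.ab) (hMcl v hv).1 (hMcl v' hv').1
      refine ⟨w * w', NonUnitalSubring.mul_mem _ hw hw', w * u' + u * w' + u * u',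
        AddSubgroup.add_mem _ (AddSubgroup.add_mem _ (hNW w hw u' hu').1 (hNW w' hw' u hu).2)
          (hNN u hu u' hu'), w * v' + u * v' + v * w',
        AddSubgroup.add_mem _ (AddSubgroup.add_mem _ (hMW w hw v' hv').1 (hNM u hu v' hv'))
          (hMW w' hw' v hv).2, ?_⟩
      rw [add_mul, add_mul, mul_add, mul_add, mul_add, mul_add, mul_add, mul_add, h1, h2]
      abel
  refine ⟨?_, ?_, ?_, ?_, ?_⟩
  · -- (1)
    intro x hx
    obtain ⟨w, hw, u, hu, v, hv, hxe⟩ := hall x
    have h := Spt_cmp hcy hfr hWst hw (hNcl u hu).1 (hMcl v hv).1 hx hxe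
    rw [if_neg hT.ab, if_neg (fun h => hT.ab h.2.symm), if_pos ⟨rfl, rfl⟩, zero_add,
      zero_add] at h
    rw [h]
    exact hv
  · -- (2)
    intro x hx
    obtain ⟨w, hw, u, hu, v, hv, hxe⟩ := hall x
    have h := Spt_cmp hcy hfr hWst hw (hNcl u hu).1 (hMcl v hv).1 hx.1 hxe
    rw [if_pos rfl, if_pos ⟨rfl, rfl⟩, if_neg (fun h => hT.ab h.2), add_zero] at h
    have hwc : Nl (Spt_wc n t w α) := by
      have h3 : Spt_wc n t w α = x - u := by rw [h]; abel
      rw [h3]
      exact (hJm _).1 (J.sub_mem ((hJm _).2 hx.2) ((hJm _).2 (hNcl u hu).2))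
    rw [h]
    refine AddSubgroup.add_mem _ ?_ hu
    have hpc := Spt_wcp hcy hfr hWst w hw α
    rcases hα : α with _ | i
    · exact AddSubgroup.zero_mem _
    · rw [hα] at hwc hpc
      obtain ⟨D, hD, hDe⟩ := hW3 (om n (t i) * w) (NonUnitalSubring.mul_mem _ (Spt_om i) hw) i
        ⟨hpc, hwc⟩
      refine AddSubgroup.subset_closure ⟨D, by rw [hα]; exact hD, 0, a, p • om n (t i),
        fun j hj => absurd hj (Nat.not_lt_zero j), Or.inr ⟨i, hα, rfl⟩, hDe⟩
  · -- (3)
    intro x hx
    obtain ⟨w, hw, u, hu, v, hv, hxe⟩ := hall x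
    have h := Spt_cmp hcy hfr hWst hw (hNcl u hu).1 (hMcl v hv).1 hx.1 hxe
    rw [if_pos rfl, if_neg (fun h => hT.ab h.1.symm), if_neg (fun h => hT.ab h.1.symm), add_zero,
      add_zero] at h
    rcases hβ : β with _ | j
    · rw [hβ] at h
      refine ⟨0, ?_, ?_⟩
      · refine ⟨fun i => ?_, fun i => ?_⟩
        · rw [mul_zero]; split_ifs <;> rfl
        · rw [zero_mul]; split_ifs <;> rfl
      · rw [smul_zero]
        exact h
    · rw [hβ] at h hx
      have h4 : om n (t j) * w = x := h.symm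
      obtain ⟨D, hD, hDe⟩ := hW3 (om n (t j) * w) (NonUnitalSubring.mul_mem _ (Spt_om j) hw) j
        (by rw [h4]; exact hx)
      refine ⟨D (om n (t j)), ?_, ?_⟩
      · refine (hOpc n p R hcy s t hfr (some j) (some j) D
          ((hO R s t (some j) (some j)).2.2.2.2.2.2.2.1 hD) _).1 ?_
        refine ⟨fun i => ?_, fun i => ?_⟩
        · by_cases hij : j = i
          · subst hij
            rw [if_pos rfl]
            exact (hpfm.prm j).1
          · rw [if_neg (fun h => hij (Option.some.inj h))]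
            exact hpfm.orth i j (Ne.symm hij)
        · by_cases hij : j = i
          · subst hij
            rw [if_pos rfl]
            exact (hpfm.prm j).1
          · rw [if_neg (fun h => hij (Option.some.inj h))]
            exact hpfm.orth j i hij
      · rw [← h4, hDe, map_nsmul]
  · -- (4)
    intro γ δ x hγδ hne hx
    obtain ⟨w, hw, u, hu, v, hv, hxe⟩ := hall x
    have h := Spt_cmp hcy hfr hWst hw (hNcl u hu).1 (hMcl v hv).1 hx hxe
    rw [if_neg hγδ, if_neg (fun h => hγδ (h.1.trans h.2.symm)), if_neg hne, add_zero,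
      add_zero] at h
    exact h
  · -- (5)
    intro x hx
    obtain ⟨w, hw, u, hu, v, hv, hxe⟩ := hall x
    refine ⟨w, hw, ?_, u, v, hNcl u hu, hMcl v hv, hxe⟩
    have h3 : w = x - u - v := by rw [hxe]; abel
    rw [h3]
    exact (hJm _).1 (J.sub_mem (J.sub_mem ((hJm _).2 hx) ((hJm _).2 (hNcl u hu).2))
      ((hJm _).2 (hMcl v hv).2))

end Pool.Agent.CRM
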