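import Pool.Agent.CRM.Spt

/-!
Campaign CRM: the structure of the rings with a twisted loop (problem MP_1bb14d_al).
-/

set_option autoImplicit false

namespace Pool.Agent.CRM

open Pool.Agent.CRR Pool.Agent.CRN Pool.Agent.CRK Pool.Agent.CRL

theorem thm_Spx (hO : St_Ops) (hOpc : St_Opc) (hTwi : St_Twi) (hWst : St_Wst) (hRul : St_Rul)
    (hRut : St_Rut) : St_Spx := by
  intro n p s R _ _ t H i γ a z hT
  have hcy := hT.cy
  have hfr := hT.cx.fr
  obtain ⟨hpfm, hti, htij⟩ := CRL.fpr n p R hcy s t hfr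
  obtain ⟨J, hJ, hJm⟩ := CRL.jil n hcy.n4 R hcy.inM hcy.nt
  obtain ⟨hW1, hW2, hW3, hW4⟩ := hWst n p R hcy s t hfr
  have hnlm : ∀ x y : R, Nl y → Nl (x * y) := fun x y hy => (hJm _).1 (hJ _ _ ((hJm _).2 hy)).1
  have hnlm' : ∀ x y : R, Nl x → Nl (x * y) := fun x y hx => (hJm _).1 (hJ _ _ ((hJm _).2 hx)).2
  have hHm : Hm (fun i => om n (t i)) := ⟨fun i => (hpfm.prm i).1, hpfm.orth,
    fun x y hx hy => (hJm _).1 (J.add_mem ((hJm _).2 hx) ((hJm _).2 hy)),
    fun r x hx => ⟨hnlm r x hx, hnlm' x r hx⟩⟩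
  obtain ⟨hR1, -, -, -, -⟩ := hRul R s _ hHm (some i) γ hT.ig
  have hjadd : ∀ (γ δ : Option (Fin s)) (x y : R), Jc (fun i => om n (t i)) γ δ x →
      Jc (fun i => om n (t i)) γ δ y → Jc (fun i => om n (t i)) γ δ (x + y) := fun γ δ x y hx hy =>
    ⟨Rul_add hx.1 hy.1, hHm.add _ _ hx.2 hy.2⟩
  have hjneg : ∀ (γ δ : Option (Fin s)) (x : R), Jc (fun i => om n (t i)) γ δ x →
      Jc (fun i => om n (t i)) γ δ (-x) := fun γ δ x hx =>
    ⟨Rul_neg hx.1, (hJm _).1 (J.neg_mem ((hJm _).2 hx.2))⟩
  have hjzero : ∀ (γ δ : Option (Fin s)), Jc (fun i => om n (t i)) γ δ (0 : R) := by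
    intro γ δ
    refine ⟨⟨fun i => ?_, fun i => ?_⟩, by simp [Nl]⟩
    · rw [mul_zero]; split_ifs <;> rfl
    · rw [zero_mul]; split_ifs <;> rfl
  have hjcl : ∀ (γ δ : Option (Fin s)) (A : Set R), (∀ u ∈ A, Jc (fun i => om n (t i)) γ δ u) →
      ∀ u ∈ AddSubgroup.closure A, Jc (fun i => om n (t i)) γ δ u := by
    intro γ δ A hA u hu
    induction hu using AddSubgroup.closure_induction with
    | mem u hu => exact hA u hu
    | zero => exact hjzero γ δ
    | add x y _ _ hx hy => exact hjadd γ δ x y hx hy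
    | neg x _ hx => exact hjneg γ δ x hx
  -- operators preserve the components
  have hOj : ∀ (γ δ : Option (Fin s)), ∀ D ∈ Ops t γ δ, ∀ x, Jc (fun i => om n (t i)) γ δ x →
      Jc (fun i => om n (t i)) γ δ (D x) := fun γ δ D hD x hx =>
    ⟨(hOpc n p R hcy s t hfr γ δ D hD x).1 hx.1, (hOpc n p R hcy s t hfr γ δ D hD x).2 hx.2⟩
  have hL : ∀ δ, AddMonoid.End.mulLeft (t i) ∈ Ops t (some i) δ := fun δ =>
    Subring.subset_closure (Or.inl ⟨i, rfl, rfl⟩)
  have hR : ∀ (δ : Option (Fin s)) (j : Fin s), AddMonoid.End.mulRight (t j) ∈ Ops t δ (some j) :=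
    fun δ j => Subring.subset_closure (Or.inr ⟨j, rfl, rfl⟩)
  have hja : Jc (fun i => om n (t i)) (some i) (some i) a := ⟨hT.aa.pc, hT.aa.nl⟩
  have hjz : Jc (fun i => om n (t i)) (some i) γ z := ⟨hT.az.pc, hT.az.nl⟩
  have htl : ∀ (i : Fin s) (x : R), om n (t i) * x = 0 → t i * x = 0 := by
    intro i x hx
    rw [← (hti i).1, mul_assoc, hx, mul_zero]
  have htr : ∀ (i : Fin s) (x : R), x * om n (t i) = 0 → x * t i = 0 := by
    intro i x hx
    rw [← (hti i).2.1, ← mul_assoc, hx, zero_mul]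
  -- the sets
  set SU : Set R := {w | (∃ D ∈ Ops t (some i) (some i), w = D a) ∨ ∃ D ∈ Ops t (some i) (some i),
    ∃ d, Jc (fun i => om n (t i)) (some i) (some i) d ∧ w = D a * d} with hSU
  set SV : Set R := {w | (∃ D ∈ Ops t (some i) γ, w = D z) ∨ ∃ c d,
    Jc (fun i => om n (t i)) (some i) (some i) c ∧ Jc (fun i => om n (t i)) (some i) γ d ∧
      w = c * d} with hSV
  have hSUj : ∀ u ∈ SU, Jc (fun i => om n (t i)) (some i) (some i) u := by
    rintro u (⟨D, hD, rfl⟩ | ⟨D, hD, d, hd, rfl⟩)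
    · exact hOj _ _ D hD a hja
    · exact ⟨Rul_mul (hOj _ _ D hD a hja).1 hd.1, hnlm _ _ hd.2⟩
  have hSVj : ∀ u ∈ SV, Jc (fun i => om n (t i)) (some i) γ u := by
    rintro u (⟨D, hD, rfl⟩ | ⟨c, d, hc, hd, rfl⟩)
    · exact hOj _ _ D hD z hjz
    · exact ⟨Rul_mul hc.1 hd.1, hnlm _ _ hd.2⟩
  have hUcl := hjcl _ _ SU hSUj
  have hVcl := hjcl _ _ SV hSVj
  have hUt : ∀ j, ∀ u ∈ AddSubgroup.closure SU, t j * u ∈ AddSubgroup.closure SU ∧
      u * t j ∈ AddSubgroup.closure SU := by
    intro j u hu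
    by_cases hj : i = j
    · subst hj
      induction hu using AddSubgroup.closure_induction with
      | mem u hu =>
        rcases hu with ⟨D, hD, rfl⟩ | ⟨D, hD, d, hd, rfl⟩
        · exact ⟨AddSubgroup.subset_closure (Or.inl ⟨AddMonoid.End.mulLeft (t i) * D,
            Subring.mul_mem _ (hL _) hD, rfl⟩), AddSubgroup.subset_closure
            (Or.inl ⟨AddMonoid.End.mulRight (t i) * D, Subring.mul_mem _ (hR _ _) hD, rfl⟩)⟩
        · refine ⟨AddSubgroup.subset_closure (Or.inr ⟨AddMonoid.End.mulLeft (t i) * D,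
            Subring.mul_mem _ (hL _) hD, d, hd, (mul_assoc _ _ _).symm⟩),
            AddSubgroup.subset_closure (Or.inr ⟨D, hD, d * t i, hOj _ _ _ (hR (some i) i) d hd,
              mul_assoc _ _ _⟩)⟩
      | zero => rw [mul_zero, zero_mul]; exact ⟨AddSubgroup.zero_mem _, AddSubgroup.zero_mem _⟩
      | add x y _ _ hx hy =>
        rw [mul_add, add_mul]
        exact ⟨AddSubgroup.add_mem _ hx.1 hy.1, AddSubgroup.add_mem _ hx.2 hy.2⟩
      | neg x _ hx =>
        rw [mul_neg, neg_mul]
        exact ⟨AddSubgroup.neg_mem _ hx.1, AddSubgroup.neg_mem _ hx.2⟩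
    · have h := (hUcl u hu).1
      have h1 := h.1 j
      have h2 := h.2 j
      rw [if_neg (fun h => hj (Option.some.inj h))] at h1 h2
      rw [htl j u h1, htr j u h2]
      exact ⟨AddSubgroup.zero_mem _, AddSubgroup.zero_mem _⟩
  have hVt : ∀ j, ∀ u ∈ AddSubgroup.closure SV, t j * u ∈ AddSubgroup.closure SV ∧
      u * t j ∈ AddSubgroup.closure SV := by
    intro j u hu
    constructor
    · by_cases hj : i = j
      · subst hj
        induction hu using AddSubgroup.closure_induction with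
        | mem u hu =>
          rcases hu with ⟨D, hD, rfl⟩ | ⟨c, d, hc, hd, rfl⟩
          · exact AddSubgroup.subset_closure (Or.inl ⟨AddMonoid.End.mulLeft (t i) * D,
              Subring.mul_mem _ (hL _) hD, rfl⟩)
          · exact AddSubgroup.subset_closure (Or.inr ⟨t i * c, d, hOj _ _ _ (hL (some i)) c hc, hd,
              (mul_assoc _ _ _).symm⟩)
        | zero => rw [mul_zero]; exact AddSubgroup.zero_mem _
        | add x y _ _ hx hy => rw [mul_add]; exact AddSubgroup.add_mem _ hx hy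
        | neg x _ hx => rw [mul_neg]; exact AddSubgroup.neg_mem _ hx
      · have h1 := (hVcl u hu).1.1 j
        rw [if_neg (fun h => hj (Option.some.inj h))] at h1
        rw [htl j u h1]
        exact AddSubgroup.zero_mem _
    · by_cases hj : γ = some j
      · induction hu using AddSubgroup.closure_induction with
        | mem u hu =>
          have hRj : AddMonoid.End.mulRight (t j) ∈ Ops t (some i) γ :=
            Subring.subset_closure (Or.inr ⟨j, hj, rfl⟩)
          rcases hu with ⟨D, hD, rfl⟩ | ⟨c, d, hc, hd, rfl⟩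
          · exact AddSubgroup.subset_closure (Or.inl ⟨AddMonoid.End.mulRight (t j) * D,
              Subring.mul_mem _ hRj hD, rfl⟩)
          · exact AddSubgroup.subset_closure (Or.inr ⟨c, d * t j, hc, hOj _ _ _ hRj d hd,
              mul_assoc _ _ _⟩)
        | zero => rw [zero_mul]; exact AddSubgroup.zero_mem _
        | add x y _ _ hx hy => rw [add_mul]; exact AddSubgroup.add_mem _ hx hy
        | neg x _ hx => rw [neg_mul]; exact AddSubgroup.neg_mem _ hx
      · have h1 := (hVcl u hu).1.2 j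
        rw [if_neg hj] at h1
        rw [htr j u h1]
        exact AddSubgroup.zero_mem _
  have hUW := Spt_W hUt
  have hVW := Spt_W hVt
  have hUU : ∀ u ∈ AddSubgroup.closure SU, ∀ d, Jc (fun i => om n (t i)) (some i) (some i) d →
      u * d ∈ AddSubgroup.closure SU := by
    intro u hu d hd
    induction hu using AddSubgroup.closure_induction with
    | mem u hu =>
      rcases hu with ⟨D, hD, rfl⟩ | ⟨D, hD, d', hd', rfl⟩
      · exact AddSubgroup.subset_closure (Or.inr ⟨D, hD, d, hd, rfl⟩)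
      · exact AddSubgroup.subset_closure (Or.inr ⟨D, hD, d' * d,
          ⟨Rul_mul hd'.1 hd.1, hnlm _ _ hd.2⟩, mul_assoc _ _ _⟩)
    | zero => rw [zero_mul]; exact AddSubgroup.zero_mem _
    | add x y _ _ hx hy => rw [add_mul]; exact AddSubgroup.add_mem _ hx hy
    | neg x _ hx => rw [neg_mul]; exact AddSubgroup.neg_mem _ hx
  have hUV : ∀ u ∈ AddSubgroup.closure SU, ∀ v ∈ AddSubgroup.closure SV,
      u * v ∈ AddSubgroup.closure SV := fun u hu v hv =>
    AddSubgroup.subset_closure (Or.inr ⟨u, v, hUcl u hu, hVcl v hv, rfl⟩)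
  -- every element
  have hall : ∀ x : R, ∃ w ∈ NonUnitalSubring.closure (Set.range t),
      ∃ u ∈ AddSubgroup.closure SU, ∃ v ∈ AddSubgroup.closure SV, x = w + u + v := by
    intro x
    have hx : x ∈ NonUnitalSubring.closure (Set.range t ∪ {a, z}) := by
      rw [hT.gen]
      trivial
    induction hx using NonUnitalSubring.closure_induction with
    | mem x hx =>
      rcases hx with hx | hx | hx
      · exact ⟨x, NonUnitalSubring.subset_closure hx, 0, AddSubgroup.zero_mem _, 0,
          AddSubgroup.zero_mem _, by abel⟩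
      · exact ⟨0, NonUnitalSubring.zero_mem _, x, AddSubgroup.subset_closure (Or.inl ⟨1,
          Subring.one_mem _, hx⟩), 0, AddSubgroup.zero_mem _, by abel⟩
      · exact ⟨0, NonUnitalSubring.zero_mem _, 0, AddSubgroup.zero_mem _, x,
          AddSubgroup.subset_closure (Or.inl ⟨1, Subring.one_mem _, hx⟩), by abel⟩
    | zero =>
      exact ⟨0, NonUnitalSubring.zero_mem _, 0, AddSubgroup.zero_mem _, 0,
        AddSubgroup.zero_mem _, by abel⟩
    | add x y _ _ hx hy =>
      obtain ⟨w, hw, u, hu, v, hv, rfl⟩ := hx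
      obtain ⟨w', hw', u', hu', v', hv', rfl⟩ := hy
      exact ⟨w + w', NonUnitalSubring.add_mem _ hw hw', u + u', AddSubgroup.add_mem _ hu hu',
        v + v', AddSubgroup.add_mem _ hv hv', by abel⟩
    | neg x _ hx =>
      obtain ⟨w, hw, u, hu, v, hv, rfl⟩ := hx
      exact ⟨-w, NonUnitalSubring.neg_mem _ hw, -u, AddSubgroup.neg_mem _ hu,
        -v, AddSubgroup.neg_mem _ hv, by abel⟩
    | mul x y _ _ hx hy =>
      obtain ⟨w, hw, u, hu, v, hv, rfl⟩ := hx
      obtain ⟨w', hw', u', hu', v', hv', rfl⟩ := hy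
      have h1 : v * u' = 0 := Rul_zero (Ne.symm hT.ig) (hVcl v hv).1 (hUcl u' hu').1
      have h2 : v * v' = 0 := Rul_zero (Ne.symm hT.ig) (hVcl v hv).1 (hVcl v' hv').1
      refine ⟨w * w', NonUnitalSubring.mul_mem _ hw hw', w * u' + u * w' + u * u',
        AddSubgroup.add_mem _ (AddSubgroup.add_mem _ (hUW w hw u' hu').1 (hUW w' hw' u hu).2)
          (hUU u hu u' (hUcl u' hu')), w * v' + u * v' + v * w',
        AddSubgroup.add_mem _ (AddSubgroup.add_mem _ (hVW w hw v' hv').1 (hUV u hu v' hv'))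
          (hVW w' hw' v hv).2, ?_⟩
      rw [add_mul, add_mul, mul_add, mul_add, mul_add, mul_add, mul_add, mul_add, h1, h2]
      abel
  -- the elements of `J_ii`
  have hjii : ∀ x, Jc (fun i => om n (t i)) (some i) (some i) x →
      ∃ w ∈ NonUnitalSubring.closure (Set.range t), ∃ u ∈ AddSubgroup.closure SU,
        Jc (fun i => om n (t i)) (some i) (some i) w ∧ x = w + u := by
    intro x hx
    obtain ⟨w, hw, u, hu, v, hv, hxe⟩ := hall x
    have h := Spt_cmp hcy hfr hWst hw (hUcl u hu).1 (hVcl v hv).1 hx.1 hxe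
    rw [if_pos rfl, if_pos ⟨rfl, rfl⟩, if_neg (fun h => hT.ig h.2), add_zero] at h
    have h' : x = om n (t i) * w + u := h
    refine ⟨om n (t i) * w, NonUnitalSubring.mul_mem _ (Spt_om i) hw, u, hu,
      ⟨Spt_wcp hcy hfr hWst w hw (some i), ?_⟩, h'⟩
    have h3 : om n (t i) * w = x - u := by rw [h']; abel
    rw [h3]
    exact (hJm _).1 (J.sub_mem ((hJm _).2 hx.2) ((hJm _).2 (hUcl u hu).2))
  -- `(D a) u w = 0`
  have hDa : ∀ D ∈ Ops t (some i) (some i), ∀ u w, Jc (fun i => om n (t i)) (some i) (some i) u →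
      Jc (fun i => om n (t i)) (some i) γ w → D a * u * w = 0 := by
    obtain ⟨D₀, hD₀, hD₀a⟩ : ∃ D ∈ Ops t (some i) (some i), D (a * t i - t i * a) = a := by
      rcases hTwi n p R hcy s t hfr i a hT.aa.pc hT.aa.pu with h | h
      · exact absurd h.symm hT.tw
      · exact h
    have hb : ∀ u w, Jc (fun i => om n (t i)) (some i) (some i) u →
        Jc (fun i => om n (t i)) (some i) γ w → (a * t i - t i * a) * u * w = 0 := fun u w hu hw =>
      (hRut n p R hcy s t hfr (some i) γ hT.ig).1 i u a w rfl hu hja hw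
    have hE : ∀ E ∈ Ops t (some i) (some i), ∀ x, (∀ u w,
        Jc (fun i => om n (t i)) (some i) (some i) u → Jc (fun i => om n (t i)) (some i) γ w →
        x * u * w = 0) → ∀ u w, Jc (fun i => om n (t i)) (some i) (some i) u →
        Jc (fun i => om n (t i)) (some i) γ w → E x * u * w = 0 := by
      intro E hE
      unfold Ops at hE
      induction hE using Subring.closure_induction with
      | mem E hE =>
        intro x hx u w hu hw
        rcases hE with ⟨j, hj, rfl⟩ | ⟨j, hj, rfl⟩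
        · show t j * x * u * w = 0
          rw [mul_assoc (t j), mul_assoc (t j), hx u w hu hw, mul_zero]
        · show x * t j * u * w = 0
          have hij : i = j := Option.some.inj hj
          subst hij
          rw [mul_assoc x]
          exact hx _ w (hOj _ _ _ (hL (some i)) u hu) hw
      | zero =>
        intro x _ u w _ _
        show (0 : R) * u * w = 0
        rw [zero_mul, zero_mul]
      | one => intro x hx; exact hx
      | add E E' _ _ h h' =>
        intro x hx u w hu hw
        show (E x + E' x) * u * w = 0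
        rw [add_mul, add_mul, h x hx u w hu hw, h' x hx u w hu hw, add_zero]
      | neg E _ h =>
        intro x hx u w hu hw
        show (-(E x)) * u * w = 0
        rw [neg_mul, neg_mul, h x hx u w hu hw, neg_zero]
      | mul E E' _ _ h h' =>
        intro x hx
        exact h _ (h' x hx)
    intro D hD
    have h1 := hE (D * D₀) (Subring.mul_mem _ hD hD₀) _ hb
    have h2 : (D * D₀) (a * t i - t i * a) = D a := by
      show D (D₀ (a * t i - t i * a)) = D a
      rw [hD₀a]
    rw [h2] at h1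
    exact h1
  have hUz : ∀ x ∈ AddSubgroup.closure SU, ∀ u w, Jc (fun i => om n (t i)) (some i) (some i) u →
      Jc (fun i => om n (t i)) (some i) γ w → x * u * w = 0 := by
    intro x hx u w hu hw
    induction hx using AddSubgroup.closure_induction with
    | mem x hx =>
      rcases hx with ⟨D, hD, rfl⟩ | ⟨D, hD, d, hd, rfl⟩
      · exact hDa D hD u w hu hw
      · rw [mul_assoc (D a)]
        exact hDa D hD _ w ⟨Rul_mul hd.1 hu.1, hnlm _ _ hu.2⟩ hw
    | zero => rw [zero_mul, zero_mul]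
    | add x y _ _ hx hy => rw [add_mul, add_mul, hx, hy, add_zero]
    | neg x _ hx => rw [neg_mul, neg_mul, hx, neg_zero]
  refine ⟨?_, ?_, ?_, ?_, ?_, ?_⟩
  · -- (1)
    intro x hx
    obtain ⟨w, hw, u, hu, v, hv, hxe⟩ := hall x
    have h := Spt_cmp hcy hfr hWst hw (hUcl u hu).1 (hVcl v hv).1 hx hxe
    rw [if_neg hT.ig, if_neg (fun h => hT.ig h.2.symm), if_pos ⟨rfl, rfl⟩, zero_add,
      zero_add] at h
    rw [h]
    clear hxe h
    induction hv using AddSubgroup.closure_induction with
    | mem v hv =>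
      rcases hv with ⟨D, hD, rfl⟩ | ⟨c, d, hc, hd, rfl⟩
      · exact ⟨D, hD, by rw [sub_self]; exact AddSubgroup.zero_mem _⟩
      · refine ⟨0, Subring.zero_mem _, ?_⟩
        have h0 : (0 : AddMonoid.End R) z = 0 := rfl
        rw [h0, sub_zero]
        exact AddSubgroup.subset_closure ⟨c, d, hc, hd, rfl⟩
    | zero => exact ⟨0, Subring.zero_mem _, by
        have h0 : (0 : AddMonoid.End R) z = 0 := rfl
        rw [h0, sub_zero]
        exact AddSubgroup.zero_mem _⟩
    | add x y _ _ hx hy =>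
      obtain ⟨D, hD, hx⟩ := hx
      obtain ⟨D', hD', hy⟩ := hy
      refine ⟨D + D', Subring.add_mem _ hD hD', ?_⟩
      have h2 : x + y - (D + D') z = (x - D z) + (y - D' z) := by
        show x + y - (D z + D' z) = _
        abel
      rw [h2]
      exact AddSubgroup.add_mem _ hx hy
    | neg x _ hx =>
      obtain ⟨D, hD, hx⟩ := hx
      refine ⟨-D, Subring.neg_mem _ hD, ?_⟩
      have h2 : -x - (-D) z = -(x - D z) := by
        show -x - -(D z) = _
        abel
      rw [h2]
      exact AddSubgroup.neg_mem _ hx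
  · -- (2)
    intro x hx
    obtain ⟨w, hw, u, hu, hwj, hxe⟩ := hjii x hx
    have hcomm : ∀ w ∈ NonUnitalSubring.closure (Set.range t), w * t i = t i * w := by
      intro w hw
      induction hw using NonUnitalSubring.closure_induction with
      | mem x hx =>
        obtain ⟨j, rfl⟩ := hx
        by_cases hij : i = j
        · subst hij; rfl
        · rw [hfr.orth i j hij, hfr.orth j i (Ne.symm hij)]
      | zero => rw [zero_mul, mul_zero]
      | add x y _ _ hx hy => rw [add_mul, mul_add, hx, hy]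
      | neg x _ hx => rw [neg_mul, mul_neg, hx]
      | mul x y _ _ hx hy => rw [mul_assoc, hy, ← mul_assoc, hx, mul_assoc]
    have h5 : ∃ D ∈ Ops t (some i) (some i), u - D a ∈ AddSubgroup.closure {w | ∃ c d,
        Jc (fun i => om n (t i)) (some i) (some i) c ∧
        Jc (fun i => om n (t i)) (some i) (some i) d ∧ w = c * d} := by
      clear hxe
      induction hu using AddSubgroup.closure_induction with
      | mem v hv =>
        rcases hv with ⟨D, hD, rfl⟩ | ⟨D, hD, d, hd, rfl⟩
        · exact ⟨D, hD, by rw [sub_self]; exact AddSubgroup.zero_mem _⟩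
        · refine ⟨0, Subring.zero_mem _, ?_⟩
          have h0 : (0 : AddMonoid.End R) a = 0 := rfl
          rw [h0, sub_zero]
          exact AddSubgroup.subset_closure ⟨D a, d, hOj _ _ D hD a hja, hd, rfl⟩
      | zero => exact ⟨0, Subring.zero_mem _, by
          have h0 : (0 : AddMonoid.End R) a = 0 := rfl
          rw [h0, sub_zero]
          exact AddSubgroup.zero_mem _⟩
      | add x y _ _ hx hy =>
        obtain ⟨D, hD, hx⟩ := hx
        obtain ⟨D', hD', hy⟩ := hy
        refine ⟨D + D', Subring.add_mem _ hD hD', ?_⟩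
        have h2 : x + y - (D + D') a = (x - D a) + (y - D' a) := by
          show x + y - (D a + D' a) = _
          abel
        rw [h2]
        exact AddSubgroup.add_mem _ hx hy
      | neg x _ hx =>
        obtain ⟨D, hD, hx⟩ := hx
        refine ⟨-D, Subring.neg_mem _ hD, ?_⟩
        have h2 : -x - (-D) a = -(x - D a) := by
          show -x - -(D a) = _
          abel
        rw [h2]
        exact AddSubgroup.neg_mem _ hx
    obtain ⟨D, hD, h5⟩ := h5
    refine ⟨w, hw, D, hD, hwj, hcomm w hw, ?_⟩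
    have h6 : x - (w + D a) = u - D a := by
      rw [hxe]
      abel
    rw [h6]
    exact h5
  · -- (3)
    intro u u' w hu hu' hw
    obtain ⟨w₀, hw₀, u₁, hu₁, hwj, hue⟩ := hjii u hu
    obtain ⟨w₀', hw₀', u₁', hu₁', hwj', hue'⟩ := hjii u' hu'
    have h1 : u₁ * u' * w = 0 := hUz u₁ hu₁ u' w hu' hw
    have h2 : w₀ * u₁' * w = 0 := by
      rw [(hR1 w₀ u₁' w hwj (hUcl u₁' hu₁') hw).1, hUz u₁' hu₁' w₀ w hwj hw, neg_zero]
    have h3 : w₀ * w₀' * w = 0 := by
      obtain ⟨D, hD, hDe⟩ := hW3 w₀ hw₀ i hwj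
      obtain ⟨D', hD', hDe'⟩ := hW3 w₀' hw₀' i hwj'
      have hLp := hW4 i
      rw [hDe, hDe', ← (hO R s t (some i) none).2.2.2.1 D hD,
        ← (hO R s t (some i) none).2.2.2.2.2.1 D' hD' _ hLp.cen,
        ← (hO R s t (some i) none).2.2.2.1 D hD, ← (hO R s t (some i) none).2.2.2.1 D' hD',
        (hR1 _ _ w ⟨hLp.pc, hLp.nl⟩ ⟨hLp.pc, hLp.nl⟩ hw).2, map_zero, map_zero]
    rw [hue, add_mul, add_mul, h1, add_zero]
    nth_rewrite 1 [hue']
    rw [mul_add, add_mul, h2, h3, add_zero]
  · -- (4)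
    intro x hx
    obtain ⟨w, hw, u, hu, v, hv, hxe⟩ := hall x
    have h := Spt_cmp hcy hfr hWst hw (hUcl u hu).1 (hVcl v hv).1 hx.1 hxe
    rw [if_pos rfl, if_neg (fun h => hT.ig h.1.symm), if_neg (fun h => hT.ig h.1.symm), add_zero,
      add_zero] at h
    rcases hγ : γ with _ | j
    · rw [hγ] at h
      refine ⟨0, (hjzero none none).1, ?_⟩
      rw [smul_zero]
      exact h
    · rw [hγ] at h hx
      have h4 : om n (t j) * w = x := h.symm
      obtain ⟨D, hD, hDe⟩ := hW3 (om n (t j) * w) (NonUnitalSubring.mul_mem _ (Spt_om j) hw) j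
        (by rw [h4]; exact hx)
      refine ⟨D (om n (t j)), ?_, ?_⟩
      · refine (hOpc n p R hcy s t hfr (some j) (some j) D
          ((hO R s t (some j) (some j)).2.2.2.2.2.2.2.1 hD) _).1 ?_
        refine ⟨fun i => ?_, fun i => ?_⟩
        · by_cases hij : j = i
          · subst hij
            rw [if_pos rfl]
            exact (hpfm.prm j).1
          · rw [if_neg (fun h => hij (Option.some.inj h))]
            exact hpfm.orth i j (Ne.symm hij)
        · by_cases hij : j = i
          · subst hij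
            rw [if_pos rfl]
            exact (hpfm.prm j).1
          · rw [if_neg (fun h => hij (Option.some.inj h))]
            exact hpfm.orth j i hij
      · rw [← h4, hDe, map_nsmul]
  · -- (5)
    intro δ ε x hδε hne hx
    obtain ⟨w, hw, u, hu, v, hv, hxe⟩ := hall x
    have h := Spt_cmp hcy hfr hWst hw (hUcl u hu).1 (hVcl v hv).1 hx hxe
    rw [if_neg hδε, if_neg (fun h => hδε (h.1.trans h.2.symm)), if_neg hne, add_zero,
      add_zero] at h
    exact h
  · -- (6)
    intro x hx
    obtain ⟨w, hw, u, hu, v, hv, hxe⟩ := hall x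
    refine ⟨w, hw, ?_, u, v, hUcl u hu, hVcl v hv, hxe⟩
    have h3 : w = x - u - v := by rw [hxe]; abel
    rw [h3]
    exact (hJm _).1 (J.sub_mem (J.sub_mem ((hJm _).2 hx) ((hJm _).2 (hUcl u hu).2))
      ((hJm _).2 (hVcl v hv).2))

end Pool.Agent.CRM
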