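import Pool.Agent.CRM.Stc

/-!
Campaign CRM, **TEX**: products with too many factors, or with a factor from the subring of the frame.
-/

set_option autoImplicit false

namespace Pool.Agent.CRM

open Pool.Agent.CRR Pool.Agent.CRN Pool.Agent.CRK Pool.Agent.CRL

section

variable {R : Type} [NonUnitalRing R]

theorem Tex_congr {a a' : ℕ → R} {z : R} : ∀ {l : ℕ}, (∀ j, j < l → a j = a' j) →
    pll a z l = pll a' z l
  | 0, _ => rfl
  | l + 1, h => by
    change a l * pll a z l = a' l * pll a' z l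
    rw [h l (Nat.lt_succ_self l), Tex_congr fun j hj => h j (Nat.lt_succ_of_lt hj)]

theorem Tex_cat (c c' : ℕ → R) (c₀ z : R) (l l' : ℕ) : ∃ c'' : ℕ → R,
    (∀ j, j < l' → c'' j = c' j) ∧ c'' l' = c₀ ∧ (∀ j, c'' (l' + 1 + j) = c j) ∧
    pll c'' z (l' + 1 + l) = pll c c₀ l * pll c' z l' := by
  refine ⟨fun j => if j < l' then c' j else if j = l' then c₀ else c (j - (l' + 1)), ?_, ?_, ?_, ?_⟩
  · intro j hj
    simp only [if_pos hj]
  · simp
  · intro j
    have h1 : ¬ l' + 1 + j < l' := by omega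
    have h2 : ¬ l' + 1 + j = l' := by omega
    simp only [if_neg h1, if_neg h2]
    congr 1
    omega
  · induction l with
    | zero =>
      have h1 : pll (fun j => if j < l' then c' j else if j = l' then c₀ else c (j - (l' + 1))) z l' =
          pll c' z l' := Tex_congr fun j hj => by simp only [if_pos hj]
      change (if l' < l' then c' l' else if l' = l' then c₀ else c (l' - (l' + 1))) *
        pll _ z l' = c₀ * pll c' z l'
      rw [h1]
      simp
    | succ l ih =>
      have h1 : ¬ l' + 1 + l < l' := by omega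
      have h2 : ¬ l' + 1 + l = l' := by omega
      have h3 : l' + 1 + l - (l' + 1) = l := by omega
      change (if l' + 1 + l < l' then c' (l' + 1 + l) else if l' + 1 + l = l' then c₀ else
        c (l' + 1 + l - (l' + 1))) * pll _ z (l' + 1 + l) = (c l * pll c c₀ l) * pll c' z l'
      rw [ih, if_neg h1, if_neg h2, h3, mul_assoc]

/-- the group of the items of a given shape -/
def TexM (n p : ℕ) {s : ℕ} (t : Fin s → R) (α β : Option (Fin s)) (m : ℕ) (a : ℕ → R) (z : R)
    (Q : ℕ → (ℕ → R) → Prop) : AddSubgroup R :=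
  AddSubgroup.closure {w | ∃ D ∈ Ops t α β, ∃ (l : ℕ) (c : ℕ → R),
    (∀ j, j < l → c j ∈ Cs n p t α m a) ∧ Q l c ∧ w = D (pll c z l)}

theorem Tex_cen {n p s : ℕ} {t : Fin s → R} {α : Option (Fin s)} {m : ℕ} {a : ℕ → R}
    (hL : ∀ c ∈ Cs n p t α m a, Lop n t α c) {c : ℕ → R} {c₀ : R} (h0 : c₀ ∈ Cs n p t α m a) :
    ∀ {l : ℕ}, (∀ j, j < l → c j ∈ Cs n p t α m a) →
    ∀ i, α = some i → t i * pll c c₀ l = pll c c₀ l * t i
  | 0, _, i, hi => (hL c₀ h0).cen i hi
  | l + 1, h, i, hi => by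
    change t i * (c l * pll c c₀ l) = c l * pll c c₀ l * t i
    rw [← mul_assoc, (hL _ (h l (Nat.lt_succ_self l))).cen i hi, mul_assoc, mul_assoc,
      Tex_cen hL h0 (fun j hj => h j (Nat.lt_succ_of_lt hj)) i hi]

theorem Tex_item (hO : St_Ops) {n p s : ℕ} {t : Fin s → R} {α β : Option (Fin s)} {m : ℕ} {a : ℕ → R}
    {z : R} (hL : ∀ c ∈ Cs n p t α m a, Lop n t α c) {Q Q' : ℕ → (ℕ → R) → Prop}
    {D : AddMonoid.End R} (hD : D ∈ Ops t α none) {l : ℕ} {c : ℕ → R} {c₀ : R}
    (hc : ∀ j, j < l → c j ∈ Cs n p t α m a) (h0 : c₀ ∈ Cs n p t α m a)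
    (hQ : ∀ l' c' c'', (∀ j, j < l' → c'' j = c' j) → c'' l' = c₀ → Q l' c' → Q' (l' + 1 + l) c'')
    {v : R} (hv : v ∈ TexM n p t α β m a z Q) : D (pll c c₀ l) * v ∈ TexM n p t α β m a z Q' := by
  obtain ⟨-, -, -, hO4, -, hO6, -, hO8, -⟩ := hO R s t α β
  refine AddSubgroup.closure_induction (p := fun v _ => D (pll c c₀ l) * v ∈
    TexM n p t α β m a z Q') ?_ ?_ ?_ ?_ hv
  · rintro v ⟨D', hD', l', c', hc', hq, rfl⟩
    obtain ⟨c'', h1, h2, h3, h4⟩ := Tex_cat c c' c₀ z l l'
    have e : D (pll c c₀ l) * D' (pll c' z l') = (D * D') (pll c'' z (l' + 1 + l)) := by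
      rw [← hO4 D hD, ← hO6 D' hD' _ (Tex_cen hL h0 hc), h4]
      rfl
    rw [e]
    refine AddSubgroup.subset_closure ⟨D * D', mul_mem (hO8 hD) hD', _, c'', ?_, hQ l' c' c'' h1 h2 hq,
      rfl⟩
    intro j hj
    rcases lt_trichotomy j l' with h | h | h
    · rw [h1 j h]
      exact hc' j h
    · rw [h, h2]
      exact h0
    · obtain ⟨j', rfl⟩ := Nat.exists_eq_add_of_lt h
      have e2 : l' + j' + 1 = l' + 1 + j' := by omega
      rw [e2, h3]
      exact hc j' (by omega)
  · rw [mul_zero]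
    exact zero_mem _
  · intro x y _ _ hx hy
    rw [mul_add]
    exact add_mem hx hy
  · intro x _ hx
    rw [mul_neg]
    exact neg_mem hx

theorem Tex_step (hO : St_Ops) {n p s : ℕ} {t : Fin s → R} {α β : Option (Fin s)} {m : ℕ} {a : ℕ → R}
    {z : R} (hL : ∀ c ∈ Cs n p t α m a, Lop n t α c) {Q Q' : ℕ → (ℕ → R) → Prop}
    (hQ : ∀ l c l'' c'', l < l'' → (∀ j, j < l → c'' j = c j) → Q l c → Q' l'' c'') {y : R}
    (hy : y ∈ AddSubgroup.closure {w | ∃ D ∈ Ops t α none,
      ∃ (l : ℕ) (c : ℕ → R) (c₀ : R), (∀ j, j < l → c j ∈ Cs n p t α m a) ∧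
      c₀ ∈ Cs n p t α m a ∧ w = D (pll c c₀ l)}) {v : R}
    (hv : v ∈ TexM n p t α β m a z Q) : y * v ∈ TexM n p t α β m a z Q' := by
  refine AddSubgroup.closure_induction (p := fun y _ => y * v ∈ TexM n p t α β m a z Q')
    ?_ ?_ ?_ ?_ hy
  · rintro y ⟨D, hD, l, c, c₀, hc, h0, rfl⟩
    exact Tex_item hO hL hD hc h0 (fun l' c' c'' h1 _ hq => hQ l' c' _ c'' (by omega) h1 hq) hv
  · rw [zero_mul]
    exact zero_mem _
  · intro x y _ _ hx hy
    rw [add_mul]
    exact add_mem hx hy
  · intro x _ hx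
    rw [neg_mul]
    exact neg_mem hx

theorem Tex_kill {n p s : ℕ} {t : Fin s → R} {α β : Option (Fin s)} {m : ℕ} {a : ℕ → R}
    {z : R} {Q : ℕ → (ℕ → R) → Prop} (q : ℕ)
    (hq : ∀ l c, (∀ j, j < l → c j ∈ Cs n p t α m a) → Q l c → q • pll c z l = 0) {v : R}
    (hv : v ∈ TexM n p t α β m a z Q) : q • v = 0 := by
  refine AddSubgroup.closure_induction (p := fun v _ => q • v = 0) ?_ ?_ ?_ ?_ hv
  · rintro v ⟨D, hD, l, c, hc, hQ, rfl⟩
    rw [← map_nsmul, hq l c hc hQ, map_zero]
  · exact smul_zero q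
  · intro x y _ _ hx hy
    rw [smul_add, hx, hy, add_zero]
  · intro x _ hx
    rw [smul_neg, hx, neg_zero]

end

theorem thm_Tex (hO : St_Ops) (hS : St_Spt) (hW : St_Wst) : St_Tex := by
  intro n p s R _ _ t H α β m a z hT q hq y z' hz'
  obtain ⟨hS1, hS2, -, -, -⟩ := hS n p s R t H α β m a z hT
  obtain ⟨-, hW2, hW3, hW4⟩ := hW n p R hT.cy s t hT.cx.fr
  have hL : ∀ c ∈ Cs n p t α m a, Lop n t α c := by
    rintro c (⟨k, hk, rfl⟩ | ⟨i, rfl, rfl⟩)
    · exact hT.lo k hk
    · exact hW4 i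
  have hz0 : z' ∈ TexM n p t α β m a z fun l _ => 0 ≤ l := by
    have h1 := hS1 z' hz'.1
    refine AddSubgroup.closure_mono ?_ h1
    rintro w ⟨D, hD, l, c, hc, rfl⟩
    exact ⟨D, hD, l, c, hc, Nat.zero_le _, rfl⟩
  have hlev : ∀ l, (∀ j, j < l → Jc (fun i => om n (t i)) α α (y j)) →
      pll y z' l ∈ TexM n p t α β m a z fun l' _ => l ≤ l' := by
    intro l
    induction l with
    | zero =>
      intro _
      exact hz0
    | succ l ih =>
      intro h
      exact Tex_step hO hL (fun l' c l'' c'' h1 _ h3 => by omega) (hS2 _ (h l (Nat.lt_succ_self l)))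
        (ih fun j hj => h j (Nat.lt_succ_of_lt hj))
  refine ⟨?_, ?_⟩
  · intro l hl hy
    exact Tex_kill q (fun l' c hc h => hq.gt l' c hc (lt_of_lt_of_le hl h)) (hlev l hy)
  · intro hy
    constructor
    · rw [smul_smul]
      refine Tex_kill (p * q) (fun l' c hc h => ?_) (hlev m hy)
      rw [← smul_smul]
      rcases eq_or_lt_of_le h with rfl | h
      · rcases hq.eq c hc with h1 | h1 | h1
        · rw [h1, smul_zero]
        · rw [h1]
          exact hq.pz
        · rw [h1, smul_neg, hq.pz, neg_zero]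
      · rw [hq.gt l' c hc h, smul_zero]
    · rintro ⟨k, hk, hyk⟩
      rcases α with _ | i
      · have h1 : y k = 0 := hW2 (y k) hyk none none (Or.inr rfl) (hy k hk).1
        have h2 : ∀ l, k < l → pll y z' l = 0 := by
          intro l
          induction l with
          | zero => intro h; omega
          | succ l ih =>
            intro h
            change y l * pll y z' l = 0
            rcases eq_or_lt_of_le (Nat.lt_succ_iff.1 h) with rfl | h'
            · rw [h1, zero_mul]
            · rw [ih h', mul_zero]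
        rw [h2 m hk, smul_zero]
      · obtain ⟨D, hD, hyD⟩ := hW3 (y k) hyk i (hy k hk)
        have hfin : ∀ l, k < l → (∀ j, j < l → Jc (fun i => om n (t i)) (some i) (some i) (y j)) →
            pll y z' l ∈ TexM n p t (some i) β m a z fun l' c => l < l' ∨ l = l' ∧
              ∃ j, j < l' ∧ c j = p • om n (t i) := by
          intro l
          induction l with
          | zero => intro h; omega
          | succ l ih =>
            intro h hyl
            rcases eq_or_lt_of_le (Nat.lt_succ_iff.1 h) with rfl | h'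
            · have h1 := hlev k fun j hj => hyl j (Nat.lt_succ_of_lt hj)
              change y k * pll y z' k ∈ _
              rw [hyD]
              refine Tex_item (c := y) (l := 0) hO hL hD (fun j hj => by omega)
                (Or.inr ⟨i, rfl, rfl⟩) ?_ h1
              intro l' c' c'' h2 h3 h4
              rcases eq_or_lt_of_le h4 with rfl | h5
              · exact Or.inr ⟨rfl, k, by omega, h3⟩
              · exact Or.inl (by omega)
            · refine Tex_step hO hL ?_ (hS2 _ (hyl l (Nat.lt_succ_self l)))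
                (ih h' fun j hj => hyl j (Nat.lt_succ_of_lt hj))
              rintro l₁ c l'' c'' h1 h2 (h3 | ⟨rfl, j, hj, h4⟩)
              · exact Or.inl (by omega)
              · rcases eq_or_lt_of_le (Nat.succ_le_of_lt h1) with h5 | h5
                · exact Or.inr ⟨h5, j, by omega, by rw [h2 j hj]; exact h4⟩
                · exact Or.inl h5
        refine Tex_kill q ?_ (hfin m hk hy)
        rintro l' c hc (h | ⟨rfl, j, hj, h⟩)
        · exact hq.gt l' c hc h
        · exact hq.pe c hc ⟨j, hj, i, rfl, h⟩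

end Pool.Agent.CRM
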