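import Pool.Agent.CRM.Stc
import Pool.Agent.CRM.Alp
import Pool.Agent.CRM.DopA

/-!
Campaign CRM, module Tqq: the number `q` for the type T.
-/

set_option autoImplicit false

namespace Pool.Agent.CRM

open Pool.Agent.CRR Pool.Agent.CRN Pool.Agent.CRK Pool.Agent.CRL

section

variable {R : Type} [NonUnitalRing R]

/-- The product of the members of the list, times `z`. -/
def TqqP (L : List R) (z : R) : R := L.foldr (fun a b => a * b) z

theorem Tqq_cons (a : R) (L : List R) (z : R) : TqqP (a :: L) z = a * TqqP L z := rfl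

theorem Tqq_pll (c : ℕ → R) (z : R) : ∀ l : ℕ,
    pll c z l = TqqP ((List.range l).reverse.map c) z
  | 0 => rfl
  | l + 1 => by
    rw [List.range_succ, List.reverse_append, List.reverse_singleton, List.singleton_append,
      List.map_cons, Tqq_cons, ← Tqq_pll c z l]
    rfl

variable {s : ℕ} {e : Fin s → R} {α β : Option (Fin s)}

theorem Tqq_jc (hH : Hm e) {z : R} (hz : Jc e α β z) : ∀ L : List R, (∀ x ∈ L, Jc e α α x) →
    Jc e α β (TqqP L z)
  | [], _ => hz
  | a :: L, h => by
    rw [Tqq_cons]
    exact Alp_mul hH (h a List.mem_cons_self) (Tqq_jc hH hz L fun x hx =>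
      h x (List.mem_cons_of_mem _ hx))

theorem Tqq_perm (hR : St_Rul) (hH : Hm e) (hab : α ≠ β) {z : R} (hz : Jc e α β z)
    {L L' : List R} (hp : L.Perm L') : (∀ x ∈ L, Jc e α α x) →
    TqqP L z = TqqP L' z ∨ TqqP L z = -TqqP L' z := by
  obtain ⟨r1, -⟩ := hR R s e hH α β hab
  induction hp with
  | nil => intro _; exact Or.inl rfl
  | cons a _ ih =>
    intro h
    rw [Tqq_cons, Tqq_cons]
    rcases ih fun x hx => h x (List.mem_cons_of_mem _ hx) with h1 | h1
    · rw [h1]; exact Or.inl rfl
    · rw [h1, mul_neg]; exact Or.inr rfl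
  | swap a b L =>
    intro h
    rw [Tqq_cons, Tqq_cons, Tqq_cons, Tqq_cons, ← mul_assoc, ← mul_assoc]
    right
    exact (r1 b a (TqqP L z) (h b (by simp)) (h a (by simp)) (Tqq_jc hH hz L fun x hx =>
      h x (by simp [hx]))).1
  | trans h1 _ ih1 ih2 =>
    intro h
    have h2 := ih1 h
    have h3 := ih2 fun x hx => h x (h1.mem_iff.2 hx)
    rcases h2 with h2 | h2 <;> rcases h3 with h3 | h3 <;> rw [h2, h3]
    · exact Or.inl rfl
    · exact Or.inr rfl
    · exact Or.inr rfl
    · rw [neg_neg]; exact Or.inl rfl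

theorem Tqq_nodup (hR : St_Rul) (hH : Hm e) (hab : α ≠ β) {z : R} (hz : Jc e α β z) :
    ∀ L : List R, (∀ x ∈ L, Jc e α α x) → TqqP L z ≠ 0 → L.Nodup
  | [], _, _ => List.nodup_nil
  | a :: L, h, hne => by
    classical
    obtain ⟨r1, -⟩ := hR R s e hH α β hab
    rw [List.nodup_cons]
    refine ⟨fun ha => hne ?_, Tqq_nodup hR hH hab hz L (fun x hx => h x
      (List.mem_cons_of_mem _ hx)) fun h0 => hne ?_⟩
    · have hp := List.perm_cons_erase ha
      have hL : ∀ x ∈ L, Jc e α α x := fun x hx => h x (List.mem_cons_of_mem _ hx)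
      have h1 : a * (a * TqqP (L.erase a) z) = 0 := by
        rw [← mul_assoc]
        exact (r1 a a _ (hL a ha) (hL a ha) (Tqq_jc hH hz _ fun x hx =>
          hL x (List.mem_of_mem_erase hx))).2
      rw [Tqq_cons]
      rcases Tqq_perm hR hH hab hz hp hL with h2 | h2
      · rw [h2, Tqq_cons, h1]
      · rw [h2, Tqq_cons, mul_neg, h1, neg_zero]
    · rw [Tqq_cons, h0, mul_zero]

/-- `p ^ 2 x = 0` for nil elements of `e_α R e_β`. -/
theorem Tqq_pp (hR : St_Rul) (hH : Hm e) (hab : α ≠ β) (p : ℕ)
    (hb : ∀ i, Jc e (some i) (some i) (p • e i)) {x : R} (hx : Jc e α β x) :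
    p • (p • x) = 0 := by
  obtain ⟨r1, r2, -⟩ := hR R s e hH α β hab
  cases α with
  | some i =>
    have h1 := (r1 (p • e i) (p • e i) x (hb i) (hb i) hx).2
    have h2 : e i * x = x := by rw [hx.1.1 i, if_pos rfl]
    rw [smul_mul_assoc, mul_smul_comm, hH.idem i, smul_mul_assoc, smul_mul_assoc, h2] at h1
    exact h1
  | none =>
    cases β with
    | none => exact absurd rfl hab
    | some j =>
      have h1 := (r2 (p • e j) (p • e j) x (hb j) (hb j) hx).2
      have h2 : x * e j = x := by rw [hx.1.2 j, if_pos rfl]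
      rw [mul_smul_comm, mul_smul_comm, smul_mul_assoc, h2, h2] at h1
      exact h1

omit [NonUnitalRing R] in
theorem Tqq_upd (a : ℕ → R) (b : R) {m k : ℕ} (hk : k < m) :
    ∃ K : List R, ((List.range m).reverse.map a).Perm (a k :: K) ∧
      ((List.range m).reverse.map (Function.update a k b)).Perm (b :: K) := by
  have hp : (List.range m).reverse.Perm (k :: (List.range m).reverse.erase k) :=
    List.perm_cons_erase (by simp [hk])
  have hn : (k :: (List.range m).reverse.erase k).Nodup :=
    (hp.nodup_iff).1 (List.nodup_reverse.2 List.nodup_range)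
  rw [List.nodup_cons] at hn
  refine ⟨((List.range m).reverse.erase k).map a, ?_, ?_⟩
  · have := hp.map a
    rwa [List.map_cons] at this
  · have := hp.map (Function.update a k b)
    rw [List.map_cons, Function.update_self] at this
    have h2 : ((List.range m).reverse.erase k).map (Function.update a k b) =
        ((List.range m).reverse.erase k).map a := by
      apply List.map_congr_left
      intro j hj
      rw [Function.update_of_ne]
      rintro rfl
      exact hn.1 hj
    rwa [h2] at this

end

section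

variable {R : Type} [NonUnitalRing R] {n p s : ℕ} {t : Fin s → R} {α β : Option (Fin s)}
  {m : ℕ} {a : ℕ → R} {z : R}

theorem Tqq_core (hR : St_Rul) (hH : Hm (fun i => om n (t i))) (hab : α ≠ β)
    (hz : Jc (fun i => om n (t i)) α β z)
    (hC : ∀ x ∈ Cs n p t α m a, Jc (fun i => om n (t i)) α α x) (hne : pll a z m ≠ 0) (q : ℕ)
    (hq : q • pll a z m ≠ 0) (hpz : p • (q • pll a z m) = 0)
    (hk : ∀ i, α = some i → ∀ k, k < m →
      q • pll (Function.update a k (p • om n (t i))) z m = 0) : Tq n p s t α m a z q := by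
  classical
  obtain ⟨A, hA⟩ : ∃ A : List R, A = (List.range m).reverse.map a := ⟨_, rfl⟩
  have hPi : pll a z m = TqqP A z := by rw [Tqq_pll, hA]
  have hmemA : ∀ x, x ∈ A ↔ ∃ k, k < m ∧ x = a k := by
    intro x
    rw [hA, List.mem_map]
    constructor
    · rintro ⟨k, hk, rfl⟩
      exact ⟨k, by simpa using hk, rfl⟩
    · rintro ⟨k, hk, rfl⟩
      exact ⟨k, by simpa using hk, rfl⟩
  have hlenA : A.length = m := by rw [hA]; simp
  have hJA : ∀ x ∈ A, Jc (fun i => om n (t i)) α α x := fun x hx => hC x (Or.inl ((hmemA x).1 hx))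
  have hndA : A.Nodup := Tqq_nodup hR hH hab hz A hJA (by rw [← hPi]; exact hne)
  have hJ0 : Jc (fun i => om n (t i)) α β (TqqP A z) := Tqq_jc hH hz A hJA
  -- a list which contains `p e_i` and has length `m`
  have key : ∀ i, α = some i → ∀ L : List R, (∀ x ∈ L, x ∈ Cs n p t α m a) → L.length = m →
      p • om n (t i) ∈ L → q • TqqP L z = 0 := by
    intro i hi L hL hlen hb
    have hJL : ∀ x ∈ L, Jc (fun i => om n (t i)) α α x := fun x hx => hC x (hL x hx)
    by_cases h0 : TqqP L z = 0
    · rw [h0, smul_zero]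
    have hnd := Tqq_nodup hR hH hab hz L hJL h0
    have hp := List.perm_cons_erase hb
    have hnd' : (p • om n (t i) :: L.erase (p • om n (t i))).Nodup := (hp.nodup_iff).1 hnd
    rw [List.nodup_cons] at hnd'
    have hsub : L.erase (p • om n (t i)) ⊆ A := by
      intro x hx
      rcases hL x (List.mem_of_mem_erase hx) with h | ⟨i', hi', rfl⟩
      · exact (hmemA x).2 h
      · have : i' = i := Option.some.inj (hi'.symm.trans hi)
        subst this
        exact absurd hx hnd'.1
    have hsp := List.subperm_of_subset hnd'.2 hsub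
    have hl1 : (L.erase (p • om n (t i))).length + 1 = m := by
      rw [← hlen, hp.length_eq, List.length_cons]
    obtain ⟨x, hx⟩ := hsp.exists_of_length_lt (by omega)
    have hpx : (x :: L.erase (p • om n (t i))).Perm A :=
      hx.perm_of_length_le (by rw [List.length_cons]; omega)
    obtain ⟨k, hkm, hxk⟩ := (hmemA x).1 (hpx.subset List.mem_cons_self)
    obtain ⟨K, hK1, hK2⟩ := Tqq_upd a (p • om n (t i)) hkm
    rw [← hA] at hK1
    have h3 : (L.erase (p • om n (t i))).Perm K := by
      have := hpx.trans hK1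
      rw [hxk] at this
      exact this.cons_inv
    have h4 : L.Perm ((List.range m).reverse.map (Function.update a k (p • om n (t i)))) :=
      hp.trans ((h3.cons _).trans hK2.symm)
    have h5 := hk i hi k hkm
    rw [Tqq_pll] at h5
    rcases Tqq_perm hR hH hab hz h4 hJL with h6 | h6
    · rw [h6, h5]
    · rw [h6, smul_neg, h5, neg_zero]
  have hmem : ∀ (c : ℕ → R) (l : ℕ), (∀ j, j < l → c j ∈ Cs n p t α m a) →
      ∀ x ∈ (List.range l).reverse.map c, x ∈ Cs n p t α m a := by
    intro c l hc x hx
    obtain ⟨j, hj, rfl⟩ := List.mem_map.1 hx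
    exact hc j (by simpa using hj)
  refine ⟨hq, hpz, ?_, ?_, ?_⟩
  · intro l c hc hml
    rw [Tqq_pll]
    obtain ⟨L, hLd⟩ : ∃ L : List R, L = (List.range l).reverse.map c := ⟨_, rfl⟩
    have hL : ∀ x ∈ L, x ∈ Cs n p t α m a := by rw [hLd]; exact hmem c l hc
    have hlen : L.length = l := by rw [hLd]; simp
    rw [← hLd]
    have hJL : ∀ x ∈ L, Jc (fun i => om n (t i)) α α x := fun x hx => hC x (hL x hx)
    by_cases h0 : TqqP L z = 0
    · rw [h0, smul_zero]
    have hnd := Tqq_nodup hR hH hab hz L hJL h0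
    cases α with
    | none =>
      have hsub : L ⊆ A := by
        intro x hx
        rcases hL x hx with h | ⟨i', hi', _⟩
        · exact (hmemA x).2 h
        · exact absurd hi' (by simp)
      have := (List.subperm_of_subset hnd hsub).length_le
      omega
    | some i =>
      have hsub : L ⊆ (p • om n (t i)) :: A := by
        intro x hx
        rcases hL x hx with h | ⟨i', hi', rfl⟩
        · exact List.mem_cons_of_mem _ ((hmemA x).2 h)
        · have : i = i' := Option.some.inj hi'
          subst this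
          exact List.mem_cons_self
      have h1 := List.subperm_of_subset hnd hsub
      have hp : L.Perm ((p • om n (t i)) :: A) :=
        h1.perm_of_length_le (by rw [List.length_cons]; omega)
      have h2 : q • TqqP ((p • om n (t i)) :: A) z = 0 := by
        have h3 : om n (t i) * TqqP A z = TqqP A z := by
          have := hJ0.1.1 i
          rw [if_pos rfl] at this
          exact this
        rw [Tqq_cons, smul_mul_assoc, h3, smul_comm, ← hPi]
        exact hpz
      rcases Tqq_perm hR hH hab hz hp hJL with h6 | h6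
      · rw [h6, h2]
      · rw [h6, smul_neg, h2, neg_zero]
  · intro c hc
    by_cases hb : ∃ i, α = some i ∧ p • om n (t i) ∈ (List.range m).reverse.map c
    · obtain ⟨i, hi, hb⟩ := hb
      left
      rw [Tqq_pll]
      exact key i hi _ (hmem c m hc) (by simp) hb
    · rw [Tqq_pll c z m]
      obtain ⟨L, hLd⟩ : ∃ L : List R, L = (List.range m).reverse.map c := ⟨_, rfl⟩
      have hL : ∀ x ∈ L, x ∈ Cs n p t α m a := by rw [hLd]; exact hmem c m hc
      have hlen : L.length = m := by rw [hLd]; simp
      rw [← hLd] at hb ⊢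
      have hJL : ∀ x ∈ L, Jc (fun i => om n (t i)) α α x := fun x hx => hC x (hL x hx)
      by_cases h0 : TqqP L z = 0
      · left; rw [h0, smul_zero]
      have hnd := Tqq_nodup hR hH hab hz L hJL h0
      have hsub : L ⊆ A := by
        intro x hx
        rcases hL x hx with h | ⟨i', hi', rfl⟩
        · exact (hmemA x).2 h
        · exact absurd ⟨i', hi', hx⟩ hb
      have hp : L.Perm A := (List.subperm_of_subset hnd hsub).perm_of_length_le (by omega)
      right
      rw [hPi]
      rcases Tqq_perm hR hH hab hz hp hJL with h6 | h6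
      · left; rw [h6]
      · right; rw [h6, smul_neg]
  · rintro c hc ⟨j, hj, i, hi, hcj⟩
    rw [Tqq_pll]
    refine key i hi _ (hmem c m hc) (by simp) ?_
    rw [← hcj]
    exact List.mem_map_of_mem (by simpa using hj)

end

theorem thm_Tqq (hR : St_Rul) (hW : St_Wst) : St_Tqq := by
  intro n p s R _ _ t H α β m a z h
  have hH : Hm (fun i => om n (t i)) := Dop_hm h.cy h.cx.fr
  have hb : ∀ i, Jc (fun i => om n (t i)) (some i) (some i) (p • om n (t i)) := by
    intro i
    have := (hW n p R h.cy s t h.cx.fr).2.2.2 i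
    exact ⟨this.pc, this.nl⟩
  have hz : Jc (fun i => om n (t i)) α β z := ⟨h.ar.pc, h.ar.nl⟩
  have hC : ∀ x ∈ Cs n p t α m a, Jc (fun i => om n (t i)) α α x := by
    rintro x (⟨k, hk, rfl⟩ | ⟨i, rfl, rfl⟩)
    · exact ⟨(h.lo k hk).pc, (h.lo k hk).nl⟩
    · exact hb i
  have hpp : ∀ x, Jc (fun i => om n (t i)) α β x → p • (p • x) = 0 := fun x hx =>
    Tqq_pp hR hH h.ab p hb hx
  by_cases h0 : p • pll a z m = 0
  · refine ⟨1, Tqq_core hR hH h.ab hz hC h.ne 1 (by rw [one_smul]; exact h.ne)
      (by rw [one_smul]; exact h0) ?_⟩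
    intro i hi k hk
    rw [one_smul]
    rcases h.cd i hi with h1 | h1
    · exact absurd h0 h1
    · exact h1 k hk
  · have hA : ∀ x ∈ (List.range m).reverse.map a, Jc (fun i => om n (t i)) α α x := by
      intro x hx
      obtain ⟨k, hk, rfl⟩ := List.mem_map.1 hx
      exact hC _ (Or.inl ⟨k, by simpa using hk, rfl⟩)
    refine ⟨p, Tqq_core hR hH h.ab hz hC h.ne p h0 ?_ ?_⟩
    · apply hpp
      rw [Tqq_pll]
      exact Tqq_jc hH hz _ hA
    · intro i hi k hk
      obtain ⟨K, hK1, hK2⟩ := Tqq_upd a (p • om n (t i)) hk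
      have hJ1 : ∀ x ∈ (p • om n (t i)) :: K, Jc (fun i => om n (t i)) α α x := by
        intro x hx
        rcases List.mem_cons.1 hx with rfl | hx
        · rw [hi]; exact hb i
        · exact hA x (hK1.symm.subset (List.mem_cons_of_mem _ hx))
      have hJw : Jc (fun i => om n (t i)) α β (TqqP K z) := Tqq_jc hH hz K fun x hx =>
        hJ1 x (List.mem_cons_of_mem _ hx)
      have h2 : p • TqqP ((p • om n (t i)) :: K) z = 0 := by
        have h3 : om n (t i) * TqqP K z = TqqP K z := by
          have := hJw.1.1 i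
          rw [if_pos hi] at this
          exact this
        rw [Tqq_cons, smul_mul_assoc, h3]
        exact hpp _ hJw
      rw [Tqq_pll]
      rcases Tqq_perm hR hH h.ab hz hK2 (fun x hx => hJ1 x (hK2.subset hx)) with h6 | h6
      · rw [h6, h2]
      · rw [h6, smul_neg, h2, neg_zero]

end Pool.Agent.CRM
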