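import Pool.Agent.CRM.TvnA
import Pool.Agent.CRM.Opc
import Pool.Agent.CRM.DopA
import Pool.Agent.CRM.Inv
import Pool.Agent.CRM.Nac
import Pool.Agent.CRM.Exg

/-!
Campaign CRM (problem MP_1bb14d_al): TVN, the generation for the type T.
-/

set_option autoImplicit false

namespace Pool.Agent.CRM

open Pool.Agent.CRR Pool.Agent.CRN Pool.Agent.CRK Pool.Agent.CRL

section

variable {R : Type} [NonUnitalRing R] {s : ℕ} {e : Fin s → R} {α β : Option (Fin s)}

/-- the loops as a group -/
def Tvn_N (he : Hm e) (α β : Option (Fin s)) : AddSubgroup R where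
  carrier := {x | Jc e α β x}
  zero_mem' := Rut_zero
  add_mem' := fun hx hy => Rut_add he hx hy
  neg_mem' := fun hx => Rut_neg hx

/-- the products and the elements of `W` -/
def Tvn_G (e : Fin s → R) (t : Fin s → R) (α : Option (Fin s)) : AddSubgroup R :=
  AddSubgroup.closure ({g | ∃ u w, Jc e α α u ∧ Jc e α α w ∧ g = u * w} ∪
    {g | g ∈ NonUnitalSubring.closure (Set.range t) ∧ Jc e α α g})

theorem Tvn_idl (he : Hm e) : Idl R (J2 R) := by
  intro r x hx
  unfold J2 at hx ⊢
  induction hx using AddSubgroup.closure_induction with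
  | mem x hx =>
    obtain ⟨a, b, ha, hb, rfl⟩ := hx
    exact ⟨AddSubgroup.subset_closure ⟨r * a, b, (he.mul r a ha).1, hb, (mul_assoc _ _ _).symm⟩,
      AddSubgroup.subset_closure ⟨a, b * r, ha, (he.mul r b hb).2, mul_assoc _ _ _⟩⟩
  | zero => rw [mul_zero, zero_mul]; exact ⟨AddSubgroup.zero_mem _, AddSubgroup.zero_mem _⟩
  | add x y _ _ hx hy =>
    rw [mul_add, add_mul]
    exact ⟨AddSubgroup.add_mem _ hx.1 hy.1, AddSubgroup.add_mem _ hx.2 hy.2⟩
  | neg x _ hx =>
    rw [mul_neg, neg_mul]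
    exact ⟨AddSubgroup.neg_mem _ hx.1, AddSubgroup.neg_mem _ hx.2⟩

/-- congruent modulo `J2` to a nil element of `S` -/
def Tvn_P (S : NonUnitalSubring R) (x : R) : Prop := ∃ y ∈ S, Nl y ∧ x - y ∈ J2 R

theorem Tvn_P_add (he : Hm e) {S : NonUnitalSubring R} {x y : R} (hx : Tvn_P S x)
    (hy : Tvn_P S y) : Tvn_P S (x + y) := by
  obtain ⟨u, hu, hu1, hu2⟩ := hx
  obtain ⟨w, hw, hw1, hw2⟩ := hy
  refine ⟨u + w, S.add_mem hu hw, he.add _ _ hu1 hw1, ?_⟩
  have : x + y - (u + w) = (x - u) + (y - w) := by abel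
  rw [this]
  exact AddSubgroup.add_mem _ hu2 hw2

theorem Tvn_P_neg {S : NonUnitalSubring R} {x : R} (hx : Tvn_P S x) : Tvn_P S (-x) := by
  obtain ⟨u, hu, hu1, hu2⟩ := hx
  refine ⟨-u, S.neg_mem hu, ?_, ?_⟩
  · unfold Nl at hu1 ⊢
    rw [neg_mul_neg, mul_neg, hu1, neg_zero]
  · have : -x - -u = -(x - u) := by abel
    rw [this]
    exact AddSubgroup.neg_mem _ hu2

theorem Tvn_P_J2 {S : NonUnitalSubring R} {x : R} (hx : x ∈ J2 R) : Tvn_P S x :=
  ⟨0, S.zero_mem, by simp [Nl], by rw [sub_zero]; exact hx⟩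

theorem Tvn_P_S {S : NonUnitalSubring R} {x : R} (hx : x ∈ S) (h : Nl x) : Tvn_P S x :=
  ⟨x, hx, h, by rw [sub_self]; exact AddSubgroup.zero_mem _⟩

end

section

variable {R : Type} [NonUnitalRing R] [Finite R] {n p s : ℕ} {t : Fin s → R} {H : AddSubgroup R}
  {α β : Option (Fin s)} {m : ℕ} {a : ℕ → R} {z : R}

/-- the letters are loops which commute with `t` -/
theorem Tvn_letter (hWst : St_Wst) (hT : Tdt n p s t H α β m a z) {c : R}
    (hc : c ∈ Cs n p t α m a) : Lop n t α c := by
  rcases hc with ⟨k, hk, rfl⟩ | ⟨i, hi, rfl⟩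
  · exact hT.lo k hk
  · subst hi
    exact (hWst n p R hT.cy s t hT.cx.fr).2.2.2 i

/-- every element of `e_α R e_β` is `D z` plus products -/
theorem Tvn_z (hWst : St_Wst) (hSpt : St_Spt) (hT : Tdt n p s t H α β m a z) {x : R}
    (hx : Pc (fun i => om n (t i)) α β x) : ∃ D ∈ Ops t α β, ∃ r ∈ AddSubgroup.closure
      {w | ∃ u v, Jc (fun i => om n (t i)) α α u ∧ Jc (fun i => om n (t i)) α β v ∧ w = u * v},
      x = D z + r := by
  have he := Dop_hm hT.cy hT.cx.fr
  have hz : Jc (fun i => om n (t i)) α β z := ⟨hT.ar.pc, hT.ar.nl⟩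
  have h := (hSpt n p s R t H α β m a z hT).1 x hx
  clear hx
  induction h using AddSubgroup.closure_induction with
  | mem x hx =>
    obtain ⟨D, hD, l, c, hc, rfl⟩ := hx
    cases l with
    | zero => exact ⟨D, hD, 0, AddSubgroup.zero_mem _, (add_zero _).symm⟩
    | succ l =>
      refine ⟨0, Subring.zero_mem _, D (pll c z (l + 1)), AddSubgroup.subset_closure ?_,
        (zero_add _).symm⟩
      have hl := Tvn_letter hWst hT (hc l (by omega))
      have hP : Jc (fun i => om n (t i)) α β (pll c z l) :=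
        Tvn_pll he hz l fun k hk => by
          have := Tvn_letter hWst hT (hc k (by omega))
          exact ⟨this.pc, this.nl⟩
      refine ⟨c l, D (pll c z l), ⟨hl.pc, hl.nl⟩, Dop_jc hT.cy hT.cx.fr hD hP, ?_⟩
      exact Ops_cen (c l) hl.cen D hD _
  | zero => exact ⟨0, Subring.zero_mem _, 0, AddSubgroup.zero_mem _, (add_zero _).symm⟩
  | add x y _ _ hx hy =>
    obtain ⟨D, hD, r, hr, rfl⟩ := hx
    obtain ⟨D', hD', r', hr', rfl⟩ := hy
    exact ⟨D + D', Subring.add_mem _ hD hD', r + r', AddSubgroup.add_mem _ hr hr', by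
      change D z + r + (D' z + r') = D z + D' z + (r + r')
      abel⟩
  | neg x _ hx =>
    obtain ⟨D, hD, r, hr, rfl⟩ := hx
    exact ⟨-D, Subring.neg_mem _ hD, -r, AddSubgroup.neg_mem _ hr, by
      change -(D z + r) = -(D z) + -r
      abel⟩

omit [Finite R] in
/-- an element of the closure of the frame which is a loop -/
theorem Tvn_om_mem (i : Fin s) : om n (t i) ∈ NonUnitalSubring.closure (Set.range t) :=
  Nac_pw _ (NonUnitalSubring.subset_closure (Set.mem_range_self i)) _

omit [Finite R] in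
theorem Tvn_om_pc (he : Hm (fun i => om n (t i))) (i : Fin s) :
    Pc (fun i => om n (t i)) (some i) (some i) (om n (t i)) := by
  refine ⟨fun j => ?_, fun j => ?_⟩
  · by_cases h : j = i
    · subst h
      rw [if_pos rfl]
      exact he.idem j
    · rw [if_neg (by simpa using Ne.symm h)]
      exact he.orth j i h
  · by_cases h : j = i
    · subst h
      rw [if_pos rfl]
      exact he.idem j
    · rw [if_neg (by simpa using Ne.symm h)]
      exact he.orth i j (Ne.symm h)

omit [Finite R] in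
theorem Tvn_G_prod {e : Fin s → R} {u w : R} (hu : Jc e α α u) (hw : Jc e α α w) :
    u * w ∈ Tvn_G e t α := AddSubgroup.subset_closure (Or.inl ⟨u, w, hu, hw, rfl⟩)

omit [Finite R] in
theorem Tvn_G_W {e : Fin s → R} {w : R} (hw : w ∈ NonUnitalSubring.closure (Set.range t))
    (h : Jc e α α w) : w ∈ Tvn_G e t α := AddSubgroup.subset_closure (Or.inr ⟨hw, h⟩)

/-- the hypothesis `hinv` of `St_Exg` -/
theorem Tvn_inv (hFai : St_Fai) (hT : Tdt n p s t H α β m a z) (D : AddMonoid.End R)
    (hD : D ∈ Ops t α none) :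
    (∀ w, Jc (fun i => om n (t i)) α α w → D w ∈ Tvn_G (fun i => om n (t i)) t α) ∨
      ∃ D' ∈ Ops t α none, ∀ w, Jc (fun i => om n (t i)) α α w → D' (D w) = w := by
  have he := Dop_hm hT.cy hT.cx.fr
  rcases hα : α with _ | i
  · subst hα
    obtain ⟨c, hc⟩ := Tvn_int t D hD
    have hF := (hFai n p s R t H none β m a z hT).2 rfl
    obtain ⟨r, hr⟩ := hT.cx.pr
    by_cases hpc : (p : ℤ) ∣ c
    · left
      intro w hw
      obtain ⟨c', rfl⟩ := hpc
      rw [hc, mul_comm, mul_smul, natCast_zsmul, hF w hw, smul_zero]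
      exact AddSubgroup.zero_mem _
    · right
      have hco : IsCoprime c ((p : ℤ) ^ r) := by
        apply IsCoprime.pow_right
        exact ((Nat.prime_iff_prime_int.1 hT.cx.pp).coprime_iff_not_dvd.2 hpc).symm
      obtain ⟨u, v, huv⟩ := hco
      obtain ⟨D', hD', hD2⟩ := Tvn_mem t none none (R := R) u
      refine ⟨D', hD', fun w _ => ?_⟩
      rw [hD2, hc, ← mul_smul]
      have h1 : (u * c) • w = w - v • ((p ^ r : ℕ) • w) := by
        have h2 : u * c = 1 - v * ((p ^ r : ℕ) : ℤ) := by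
          push_cast
          linarith
        rw [h2, sub_smul, one_smul, mul_smul, natCast_zsmul]
      rw [h1, hr, smul_zero, sub_zero]
  · subst hα
    obtain ⟨h1, h2⟩ := (thm_Inv thm_Ops) n p R hT.cy s t hT.cx.fr i D hD
    have hew : ∀ w, Jc (fun i => om n (t i)) (some i) (some i) w → om n (t i) * w = w := by
      intro w hw
      have := hw.1.1 i
      rwa [if_pos rfl] at this
    rcases h2 with h2 | ⟨D', hD', h3⟩
    · left
      intro w hw
      rw [h1 w (hew w hw)]
      refine Tvn_G_prod ⟨?_, h2⟩ hw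
      exact (thm_Opc n p R hT.cy s t hT.cx.fr (some i) (some i) D (Ops_le_left hD) _).1
        (Tvn_om_pc he i)
    · right
      exact ⟨D', hD', fun w hw => h3 w (hew w hw)⟩

/-- exchange of the loops -/
theorem Tvn_loops (hWst : St_Wst) (hSpt : St_Spt) (hFai : St_Fai) (hTex : St_Tex)
    (hT : Tdt n p s t H α β m a z) {q : ℕ} (hq : Tq n p s t α m a z q) {y : ℕ → R} {z' : R}
    (hy : ∀ j, j < m → Jc (fun i => om n (t i)) α α (y j))
    (hz' : Jc (fun i => om n (t i)) α β z') (hne : q • pll y z' m ≠ 0) :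
    ∀ w, Jc (fun i => om n (t i)) α α w → ∃ μ : ℕ → AddMonoid.End R,
      (∀ k, μ k ∈ Ops t α none) ∧
      w - ∑ k ∈ Finset.range m, μ k (y k) ∈ Tvn_G (fun i => om n (t i)) t α := by
  have he := Dop_hm hT.cy hT.cx.fr
  have h4 := ((thm_Rut thm_Rul) n p R hT.cy s t hT.cx.fr α β hT.ab).2.2.2
  have hpN : ∀ D ∈ Ops t α none, ∀ w, Jc (fun i => om n (t i)) α α w →
      Jc (fun i => om n (t i)) α α (D w) :=
    fun D hD w hw => Dop_jc hT.cy hT.cx.fr (Ops_le_left hD) hw
  refine thm_Exg R s t α m (Tvn_N he α α) (Tvn_G (fun i => om n (t i)) t α)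
    (fun v => q • pll v z' m) a y ?_ ?_ ?_ ?_ ?_ ?_ ?_ ?_ hy hne
  · -- G ≤ N
    unfold Tvn_G
    rw [AddSubgroup.closure_le]
    rintro g (⟨u, w, hu, hw, rfl⟩ | ⟨-, hg⟩)
    · exact Rut_left he hu.1 hw
    · exact hg
  · intro D hD
    refine ⟨hpN D hD, fun g hg => ?_⟩
    unfold Tvn_G at hg
    induction hg using AddSubgroup.closure_induction with
    | mem g hg =>
      rcases hg with ⟨u, w, hu, hw, rfl⟩ | ⟨hg1, hg2⟩
      · rw [Ops_left D hD]
        exact Tvn_G_prod (hpN D hD u hu) hw
      · exact Tvn_G_W (Ops_sub _ (fun i => NonUnitalSubring.subset_closure (Set.mem_range_self i)) D hD g hg1)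
          (hpN D hD g hg2)
    | zero => rw [map_zero]; exact AddSubgroup.zero_mem _
    | add x y _ _ hx hy => rw [map_add]; exact AddSubgroup.add_mem _ hx hy
    | neg x _ hx => rw [map_neg]; exact AddSubgroup.neg_mem _ hx
  · intro D hD
    exact Tvn_inv hFai hT D hD
  · intro v j u w hj _ _ _
    rw [Tvn_add v z' j u w m hj, smul_add]
  · intro v j j' hj hj' hjj hv hD
    obtain ⟨D, hD, hD2⟩ := hD
    rw [Tvn_alt thm_Rul he hT.ab h4 hz' m j j' hj hj' hjj hv (Ops_le_left hD) hD2, smul_zero]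
  · intro v j hj hv hvj
    have key : ∀ g ∈ Tvn_G (fun i => om n (t i)) t α,
        q • pll (Function.update v j g) z' m = 0 := by
      intro g hg
      unfold Tvn_G at hg
      induction hg using AddSubgroup.closure_induction with
      | mem g hg =>
        rcases hg with ⟨u, w, hu, hw, rfl⟩ | ⟨hg1, hg2⟩
        · rw [Tvn_two v z' j u w m hj]
          exact (hTex n p s R t H α β m a z hT q hq _ z' hz').1 (m + 1) (by omega)
            (Tvn_ins_all hj hv hu hw)
        · refine ((hTex n p s R t H α β m a z hT q hq (Function.update v j g) z' hz').2 ?_).2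
            ⟨j, hj, ?_⟩
          · intro k hk
            by_cases h : k = j
            · subst h
              rw [Function.update_self]
              exact hg2
            · rw [Function.update_of_ne h]
              exact hv k hk
          · rw [Function.update_self]
            exact hg1
      | zero =>
        have h1 := Tvn_add v z' j 0 0 m hj
        rw [add_zero] at h1
        have h2 : pll (Function.update v j 0) z' m = 0 := by
          have := h1
          rwa [left_eq_add] at this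
        rw [h2, smul_zero]
      | add x y _ _ hx hy => rw [Tvn_add v z' j x y m hj, smul_add, hx, hy, add_zero]
      | neg x _ hx =>
        have h1 := Tvn_add v z' j x (-x) m hj
        have h0 := Tvn_add v z' j 0 0 m hj
        rw [add_zero] at h0
        have h2 : pll (Function.update v j 0) z' m = 0 := by rwa [left_eq_add] at h0
        rw [add_neg_cancel, h2] at h1
        have h3 : q • pll (Function.update v j x) z' m +
            q • pll (Function.update v j (-x)) z' m = 0 := by
          rw [← smul_add, ← h1, smul_zero]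
        rwa [hx, zero_add] at h3
    have := key (v j) hvj
    rwa [Function.update_eq_self] at this
  · intro k hk
    exact ⟨(hT.lo k hk).pc, (hT.lo k hk).nl⟩
  · intro w hw
    have h := (hSpt n p s R t H α β m a z hT).2.1 w hw
    clear hw
    induction h using AddSubgroup.closure_induction with
    | mem x hx =>
      obtain ⟨D, hD, l, c, c₀, hc, hc₀, rfl⟩ := hx
      cases l with
      | zero =>
        change ∃ μ : ℕ → AddMonoid.End R, (∀ k, μ k ∈ Ops t α none) ∧
          D c₀ - ∑ k ∈ Finset.range m, μ k (a k) ∈ _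
        rcases hc₀ with ⟨k, hk, rfl⟩ | ⟨i, hi, rfl⟩
        · refine ⟨fun j => if j = k then D else 0, fun j => ?_, ?_⟩
          · dsimp only
            split_ifs
            · exact hD
            · exact Subring.zero_mem _
          · have : ∑ j ∈ Finset.range m, (if j = k then D else 0) (a j) = D (a k) := by
              rw [Finset.sum_eq_single_of_mem k (Finset.mem_range.2 hk)]
              · rw [if_pos rfl]
              · intro j _ hj
                rw [if_neg hj]
                rfl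
            rw [this, sub_self]
            exact AddSubgroup.zero_mem _
        · refine ⟨fun _ => 0, fun _ => Subring.zero_mem _, ?_⟩
          have : ∑ j ∈ Finset.range m, (0 : AddMonoid.End R) (a j) = 0 :=
            Finset.sum_eq_zero fun _ _ => rfl
          rw [this, sub_zero]
          have hl := Tvn_letter hWst hT (c := p • om n (t i)) (Or.inr ⟨i, hi, rfl⟩)
          refine Tvn_G_W ?_ (hpN D hD _ ⟨hl.pc, hl.nl⟩)
          refine Ops_sub _ (fun i => NonUnitalSubring.subset_closure (Set.mem_range_self i)) D hD _ ?_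
          exact nsmul_mem (Tvn_om_mem i) p
      | succ l =>
        refine ⟨fun _ => 0, fun _ => Subring.zero_mem _, ?_⟩
        have : ∑ j ∈ Finset.range m, (0 : AddMonoid.End R) (a j) = 0 :=
          Finset.sum_eq_zero fun _ _ => rfl
        rw [this, sub_zero]
        change D (c l * pll c c₀ l) ∈ _
        rw [Ops_left D hD]
        have hJ : ∀ k, k < l + 1 → Jc (fun i => om n (t i)) α α (c k) := fun k hk =>
          ⟨(Tvn_letter hWst hT (hc k hk)).pc, (Tvn_letter hWst hT (hc k hk)).nl⟩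
        have hJ0 : Jc (fun i => om n (t i)) α α c₀ :=
          ⟨(Tvn_letter hWst hT hc₀).pc, (Tvn_letter hWst hT hc₀).nl⟩
        exact Tvn_G_prod (hpN D hD _ (hJ l (by omega)))
          (Tvn_pll he hJ0 l fun k hk => hJ k (by omega))
    | zero =>
      refine ⟨fun _ => 0, fun _ => Subring.zero_mem _, ?_⟩
      have : ∑ j ∈ Finset.range m, (0 : AddMonoid.End R) (a j) = 0 :=
        Finset.sum_eq_zero fun _ _ => rfl
      rw [this, sub_zero]
      exact AddSubgroup.zero_mem _
    | add x y _ _ hx hy =>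
      obtain ⟨μ, h1, h2⟩ := hx
      obtain ⟨ν, h3, h4⟩ := hy
      refine ⟨fun k => μ k + ν k, fun k => Subring.add_mem _ (h1 k) (h3 k), ?_⟩
      have : x + y - ∑ k ∈ Finset.range m, (μ k + ν k) (a k) =
          (x - ∑ k ∈ Finset.range m, μ k (a k)) + (y - ∑ k ∈ Finset.range m, ν k (a k)) := by
        have h5 : ∑ k ∈ Finset.range m, (μ k + ν k) (a k) =
            ∑ k ∈ Finset.range m, μ k (a k) + ∑ k ∈ Finset.range m, ν k (a k) :=
          Finset.sum_add_distrib
        rw [h5]
        abel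
      rw [this]
      exact AddSubgroup.add_mem _ h2 h4
    | neg x _ hx =>
      obtain ⟨μ, h1, h2⟩ := hx
      refine ⟨fun k => -μ k, fun k => Subring.neg_mem _ (h1 k), ?_⟩
      have : -x - ∑ k ∈ Finset.range m, (-μ k) (a k) =
          -(x - ∑ k ∈ Finset.range m, μ k (a k)) := by
        have h5 : ∑ k ∈ Finset.range m, (-μ k) (a k) = -∑ k ∈ Finset.range m, μ k (a k) :=
          Finset.sum_neg_distrib _
        rw [h5]
        abel
      rw [this]
      exact AddSubgroup.neg_mem _ h2

omit [Finite R] in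
theorem Tvn_smul (v : ℕ → R) (c : ℕ) (x : R) (k : ℕ) : pll v (c • x) k = c • pll v x k := by
  induction k with
  | zero => rfl
  | succ k ih =>
    change v k * pll v (c • x) k = c • (v k * pll v x k)
    rw [ih, mul_smul_comm]

end

theorem thm_Tvn (hWst : St_Wst) (hSpt : St_Spt) (hFai : St_Fai) (hTex : St_Tex) : St_Tvn := by
  intro n p s R _ _ t H α β m a z hT q hq S hS y z' hy hz' hz'S hne
  have he := Dop_hm hT.cy hT.cx.fr
  have hW : NonUnitalSubring.closure (Set.range t) ≤ S := by
    rw [NonUnitalSubring.closure_le]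
    rintro _ ⟨i, rfl⟩
    exact hS i
  have hG : ∀ g ∈ Tvn_G (fun i => om n (t i)) t α, Tvn_P S g := by
    intro g hg
    unfold Tvn_G at hg
    induction hg using AddSubgroup.closure_induction with
    | mem g hg =>
      rcases hg with ⟨u, w, hu, hw, rfl⟩ | ⟨hg1, hg2⟩
      · exact Tvn_P_J2 (AddSubgroup.subset_closure ⟨u, w, hu.2, hw.2, rfl⟩)
      · exact Tvn_P_S (hW hg1) hg2.2
    | zero => exact Tvn_P_J2 (AddSubgroup.zero_mem _)
    | add x y _ _ hx hy => exact Tvn_P_add he hx hy
    | neg x _ hx => exact Tvn_P_neg hx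
  -- (1)
  have h1 : ∀ w, Jc (fun i => om n (t i)) α α w → Tvn_P S w := by
    intro w hw
    obtain ⟨μ, hμ, hg⟩ := Tvn_loops hWst hSpt hFai hTex hT hq (fun j hj => (hy j hj).1) hz' hne
      w hw
    have h : w = ∑ k ∈ Finset.range m, μ k (y k) +
      (w - ∑ k ∈ Finset.range m, μ k (y k)) := by abel
    rw [h]
    refine Tvn_P_add he (Tvn_P_S ?_ ?_) (hG _ hg)
    · exact sum_mem fun k hk =>
        Ops_sub S hS (μ k) (hμ k) (y k) (hy k (Finset.mem_range.1 hk)).2
    · have h2 : ∑ k ∈ Finset.range m, μ k (y k) ∈ Tvn_N he α α :=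
        sum_mem fun k hk => Dop_jc hT.cy hT.cx.fr (Ops_le_left (hμ k))
          (hy k (Finset.mem_range.1 hk)).1
      exact h2.2
  -- (2)
  have hJ2 : ∀ r ∈ AddSubgroup.closure {w | ∃ u v, Jc (fun i => om n (t i)) α α u ∧
      Jc (fun i => om n (t i)) α β v ∧ w = u * v}, r ∈ J2 R := by
    intro r hr
    refine AddSubgroup.closure_mono ?_ hr
    rintro w ⟨u, v, hu, hv, rfl⟩
    exact ⟨u, v, hu.2, hv.2, rfl⟩
  have hq0 : ∀ r ∈ AddSubgroup.closure {w | ∃ u v, Jc (fun i => om n (t i)) α α u ∧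
      Jc (fun i => om n (t i)) α β v ∧ w = u * v}, q • pll y r m = 0 := by
    intro r hr
    induction hr using AddSubgroup.closure_induction with
    | mem w hw =>
      obtain ⟨u, v, hu, hv, rfl⟩ := hw
      rw [← ald_pll_cons v u y m]
      refine (hTex n p s R t H α β m a z hT q hq _ v hv).1 (m + 1) (by omega) ?_
      intro j hj
      split_ifs
      · exact hu
      · exact (hy (j - 1) (by omega)).1
    | zero => rw [ald_pll_zero, smul_zero]
    | add x y _ _ hx hy => rw [ald_pll_add, smul_add, hx, hy, add_zero]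
    | neg x _ hx => rw [ald_pll_neg, smul_neg, hx, neg_zero]
  have h2 : Tvn_P S z := by
    obtain ⟨D, hD, r, hr, hz2⟩ := Tvn_z hWst hSpt hT hz'.1
    have hr0 : q • pll y r m = 0 := hq0 r hr
    have hD3 : q • pll y (D z) m ≠ 0 := by
      intro h
      apply hne
      rw [hz2, ald_pll_add, smul_add, h, hr0, add_zero]
    have hzJ : Jc (fun i => om n (t i)) α β z := ⟨hT.ar.pc, hT.ar.nl⟩
    rcases hT.ar.pu D hD with ⟨D', hD', h⟩ | ⟨D', hD', h⟩
    · exfalso
      apply hD3
      rw [h, Tvn_smul, smul_comm]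
      exact ((hTex n p s R t H α β m a z hT q hq y (D' z)
        (Dop_jc hT.cy hT.cx.fr hD' hzJ)).2 fun j hj => (hy j hj).1).1
    · have hz3 : z = D' z' + -(D' r) := by
        rw [hz2, map_add, h]
        abel
      rw [hz3]
      refine Tvn_P_add he (Tvn_P_S (Ops_sub S hS D' hD' z' hz'S) ?_) (Tvn_P_neg (Tvn_P_J2 ?_))
      · exact (Dop_jc hT.cy hT.cx.fr hD' hz').2
      · exact Ops_idl (J2 R) (Tvn_idl he) D' hD' r (hJ2 r hr)
  have h3 : ∀ v, Jc (fun i => om n (t i)) α β v → Tvn_P S v := by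
    intro v hv
    obtain ⟨D, hD, r, hr, hv2⟩ := Tvn_z hWst hSpt hT hv.1
    obtain ⟨y₀, hy1, hy2, hy3⟩ := h2
    have h : v = D y₀ + (D (z - y₀) + r) := by
      rw [hv2, map_sub]
      abel
    rw [h]
    refine Tvn_P_add he (Tvn_P_S (Ops_sub S hS D hD y₀ hy1)
      ((thm_Opc n p R hT.cy s t hT.cx.fr α β D hD y₀).2 hy2)) (Tvn_P_J2 ?_)
    exact AddSubgroup.add_mem _ (Ops_idl (J2 R) (Tvn_idl he) D hD _ hy3) (hJ2 r hr)
  -- (3)
  refine thm_Nac n p R hT.cy s t hT.cx.fr S hS fun x hx => ?_
  obtain ⟨w, hw, hw2, u, v, hu, hv, rfl⟩ := (hSpt n p s R t H α β m a z hT).2.2.2.2 x hx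
  exact Tvn_P_add he (Tvn_P_add he (Tvn_P_S (hW hw) hw2) (h1 u hu)) (h3 v hv)

end Pool.Agent.CRM
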