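import Pool.Agent.CRM.Stb
import Pool.Agent.CRM.Rut
import Pool.Agent.CRL.Wlk

/-!
Campaign CRM, module Wcl (helper18): the shape of a nonzero product of operators applied to
homogeneous nil elements.
-/

set_option autoImplicit false

namespace Pool.Agent.CRM

open Pool.Agent.CRR Pool.Agent.CRN Pool.Agent.CRK Pool.Agent.CRL

section

variable {R : Type} [NonUnitalRing R]

theorem Wcl_cons (a : R) {l : List R} (h : l ≠ []) : wp (a :: l) = a * wp l := by
  cases l with
  | nil => exact absurd rfl h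
  | cons b l => rfl

theorem Wcl_two (a b : R) (l : List R) : wp (a :: b :: l) = wp (a * b :: l) := by
  cases l with
  | nil => rfl
  | cons c l =>
    change a * (b * wp (c :: l)) = a * b * wp (c :: l)
    rw [mul_assoc]

theorem Wcl_neg (a : R) (l : List R) : wp (-a :: l) = -wp (a :: l) := by
  cases l with
  | nil => rfl
  | cons c l =>
    change -a * wp (c :: l) = -(a * wp (c :: l))
    rw [neg_mul]

theorem Wcl_zero (l : List R) : wp ((0 : R) :: l) = 0 := by
  cases l with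
  | nil => rfl
  | cons c l =>
    change 0 * wp (c :: l) = 0
    rw [zero_mul]

theorem Wcl_app (l : List R) {m m' : List R} (hm : m ≠ []) (hm' : m' ≠ [])
    (h : wp m = -wp m') : wp (l ++ m) = -wp (l ++ m') := by
  induction l with
  | nil => exact h
  | cons a l ih =>
    rw [List.cons_append, List.cons_append, Wcl_cons a (by simp [hm]), Wcl_cons a (by simp [hm']),
      ih, mul_neg]

/-- the value of an item -/
abbrev Wcl_f (x : ℕ → R) : Dsi R → R := fun d => d.2 (x d.1)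

section left

variable {A Z : R → Prop} {O : AddMonoid.End R → Prop} {x : ℕ → R}
  (h1 : ∀ a, A a → ∀ D, O D → A (D a)) (h2 : ∀ a z, A a → Z z → Z (a * z))
  (h3 : ∀ a a' z, A a → A a' → Z z → a * a' * z = -(a' * a * z))
  (h4 : ∀ a z D D', A a → Z z → O D → O D' → D a * D' a * z = 0)

include h1 h2 in
theorem Wcl_la (L : List (Dsi R)) (hL : ∀ c ∈ L, O c.2 ∧ A (x c.1)) {z : R} (hz : Z z) :
    Z (wp (L.map (Wcl_f x) ++ [z])) := by
  induction L with
  | nil => exact hz
  | cons c L ih =>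
    rw [List.map_cons, List.cons_append, Wcl_cons _ (by simp)]
    have hc := hL c List.mem_cons_self
    exact h2 _ _ (h1 _ hc.2 _ hc.1) (ih (fun d hd => hL d (List.mem_cons_of_mem _ hd)))

include h1 h2 h3 h4 in
theorem Wcl_lb (L : List (Dsi R)) (hL : ∀ c ∈ L, O c.2 ∧ A (x c.1)) {z : R} (hz : Z z) {k : ℕ}
    {D : AddMonoid.End R} (hD : O D) (hk : A (x k)) (hm : k ∈ L.map Prod.fst) :
    D (x k) * wp (L.map (Wcl_f x) ++ [z]) = 0 := by
  induction L with
  | nil => exact absurd hm (by simp)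
  | cons c L ih =>
    rw [List.map_cons, List.cons_append, Wcl_cons _ (by simp), ← mul_assoc]
    have hc := hL c List.mem_cons_self
    have hL' : ∀ d ∈ L, O d.2 ∧ A (x d.1) := fun d hd => hL d (List.mem_cons_of_mem _ hd)
    have hZ := Wcl_la h1 h2 L hL' hz
    by_cases h : k = c.1
    · subst h
      exact h4 _ _ _ _ hk hZ hD hc.1
    · have hm' : k ∈ L.map Prod.fst := by
        rw [List.map_cons, List.mem_cons] at hm
        exact hm.resolve_left h
      rw [h3 _ _ _ (h1 _ hk _ hD) (h1 _ hc.2 _ hc.1) hZ, mul_assoc, ih hL' hm', mul_zero,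
        neg_zero]

include h1 h2 h3 h4 in
theorem Wcl_lc (L : List (Dsi R)) (hL : ∀ c ∈ L, O c.2 ∧ A (x c.1)) {z : R} (hz : Z z)
    (hn : ¬ (L.map Prod.fst).Nodup) : wp (L.map (Wcl_f x) ++ [z]) = 0 := by
  induction L with
  | nil => exact absurd List.nodup_nil hn
  | cons c L ih =>
    rw [List.map_cons, List.cons_append, Wcl_cons _ (by simp)]
    have hc := hL c List.mem_cons_self
    have hL' : ∀ d ∈ L, O d.2 ∧ A (x d.1) := fun d hd => hL d (List.mem_cons_of_mem _ hd)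
    by_cases h : c.1 ∈ L.map Prod.fst
    · exact Wcl_lb h1 h2 h3 h4 L hL' hz hc.1 hc.2 h
    · rw [ih hL' (fun h' => hn (by rw [List.map_cons]; exact List.nodup_cons.2 ⟨h, h'⟩)),
        mul_zero]

include h1 h2 h3 h4 in
theorem Wcl_ld {W : R → Prop} (h5 : ∀ a z w, A a → Z z → W w → z * w * a = -(a * z * w)) :
    ∀ (L₂ L₁ : List (Dsi R)), (∀ c ∈ L₁, O c.2 ∧ A (x c.1)) → (∀ c ∈ L₂, O c.2 ∧ A (x c.1)) →
    ∀ {z w : R}, Z z → W w → ¬ ((L₁ ++ L₂).map Prod.fst).Nodup →
    wp (L₁.map (Wcl_f x) ++ z :: w :: L₂.map (Wcl_f x)) = 0 := by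
  intro L₂
  induction L₂ with
  | nil =>
    intro L₁ hL₁ _ z w hz _ hn
    rw [List.append_nil] at hn
    have h6 : L₁.map (Wcl_f x) ++ z :: w :: ([] : List (Dsi R)).map (Wcl_f x) =
        (L₁.map (Wcl_f x) ++ [z]) ++ [w] := by simp
    rw [h6, Wlk_snoc _ (by simp), Wcl_lc h1 h2 h3 h4 L₁ hL₁ hz hn, zero_mul]
  | cons c L₂ ih =>
    intro L₁ hL₁ hL₂ z w hz hw hn
    have hc := hL₂ c List.mem_cons_self
    have h6 : wp (z :: w :: Wcl_f x c :: L₂.map (Wcl_f x)) =
        -wp (Wcl_f x c :: z :: w :: L₂.map (Wcl_f x)) := by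
      rw [Wcl_two, Wcl_two, h5 _ _ _ (h1 _ hc.2 _ hc.1) hz hw, Wcl_neg, Wcl_two (Wcl_f x c),
        Wcl_two (Wcl_f x c * z)]
    have h7 := Wcl_app (L₁.map (Wcl_f x)) (List.cons_ne_nil _ _) (List.cons_ne_nil _ _) h6
    have h8 : L₁.map (Wcl_f x) ++ Wcl_f x c :: z :: w :: L₂.map (Wcl_f x) =
        (L₁ ++ [c]).map (Wcl_f x) ++ z :: w :: L₂.map (Wcl_f x) := by simp
    rw [List.map_cons, h7, h8, ih (L₁ ++ [c]) ?_ (fun d hd => hL₂ d (List.mem_cons_of_mem _ hd)) hz
      hw ?_, neg_zero]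
    · intro d hd
      rcases List.mem_append.1 hd with h | h
      · exact hL₁ d h
      · rw [List.mem_singleton] at h
        rw [h]
        exact hc
    · rwa [List.append_assoc, List.singleton_append]

end left

section right

variable {A Z : R → Prop} {O : AddMonoid.End R → Prop} {x : ℕ → R}
  (h1 : ∀ a, A a → ∀ D, O D → A (D a)) (h2 : ∀ a z, A a → Z z → Z (z * a))
  (h3 : ∀ a a' z, A a → A a' → Z z → z * a * a' = -(z * a' * a))
  (h4 : ∀ a z D D', A a → Z z → O D → O D' → z * D a * D' a = 0)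

include h1 h2 h3 h4 in
theorem Wcl_rb (L : List (Dsi R)) : (∀ c ∈ L, O c.2 ∧ A (x c.1)) → ∀ {z : R}, Z z → ∀ {k : ℕ}
    {D : AddMonoid.End R}, O D → A (x k) → k ∈ L.map Prod.fst →
    wp (z * D (x k) :: L.map (Wcl_f x)) = 0 := by
  induction L with
  | nil =>
    intro _ z _ k D _ _ hm
    exact absurd hm (by simp)
  | cons c L ih =>
    intro hL z hz k D hD hk hm
    have hc := hL c List.mem_cons_self
    have hL' : ∀ d ∈ L, O d.2 ∧ A (x d.1) := fun d hd => hL d (List.mem_cons_of_mem _ hd)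
    rw [List.map_cons, Wcl_two]
    by_cases h : k = c.1
    · subst h
      have h6 : z * D (x c.1) * Wcl_f x c = 0 := h4 _ _ _ _ hk hz hD hc.1
      rw [h6, Wcl_zero]
    · have hm' : k ∈ L.map Prod.fst := by
        rw [List.map_cons, List.mem_cons] at hm
        exact hm.resolve_left h
      rw [h3 _ _ _ (h1 _ hk _ hD) (h1 _ hc.2 _ hc.1) hz, Wcl_neg,
        ih hL' (h2 _ _ (h1 _ hc.2 _ hc.1) hz) hD hk hm', neg_zero]

include h1 h2 h3 h4 in
theorem Wcl_rc (L : List (Dsi R)) : (∀ c ∈ L, O c.2 ∧ A (x c.1)) → ∀ {z : R}, Z z →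
    ¬ (L.map Prod.fst).Nodup → wp (z :: L.map (Wcl_f x)) = 0 := by
  induction L with
  | nil =>
    intro _ z _ hn
    exact absurd List.nodup_nil hn
  | cons c L ih =>
    intro hL z hz hn
    have hc := hL c List.mem_cons_self
    have hL' : ∀ d ∈ L, O d.2 ∧ A (x d.1) := fun d hd => hL d (List.mem_cons_of_mem _ hd)
    rw [List.map_cons, Wcl_two]
    by_cases h : c.1 ∈ L.map Prod.fst
    · exact Wcl_rb h1 h2 h3 h4 L hL' hz hc.1 hc.2 h
    · exact ih hL' (h2 _ _ (h1 _ hc.2 _ hc.1) hz)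
        (fun h' => hn (by rw [List.map_cons]; exact List.nodup_cons.2 ⟨h, h'⟩))

end right

variable {s : ℕ} {e : Fin s → R}

/-- operators on the last of two loops on the right -/
theorem Wcl_mir (hR : St_Rul) (he : Hm e) {t : Fin s → R}
    (ht : ∀ i, Pc e (some i) (some i) (t i)) {α β : Option (Fin s)} (hαβ : α ≠ β) :
    ∀ D ∈ Ops t β β, (∀ a, Jc e β β a → Jc e β β (D a)) ∧
      ∃ E : AddMonoid.End R, ∀ a u z, Jc e β β a → Jc e β β u → Jc e α β z →
        z * u * D a = E (z * u * a) := by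
  intro D hD
  unfold Ops at hD
  induction hD using Subring.closure_induction with
  | mem D hD =>
    rcases hD with ⟨i, rfl, rfl⟩ | ⟨i, rfl, rfl⟩
    · refine ⟨fun a ha => Rut_left he (ht i) ha, AddMonoid.End.mulRight (t i),
        fun a u z ha hu hz => ?_⟩
      show z * u * (t i * a) = z * u * a * t i
      rw [← Rut_two hR he hαβ (ht i) hu ha hz, ← mul_assoc]
    · refine ⟨fun a ha => Rut_right he (ht i) ha, AddMonoid.End.mulRight (t i),
        fun a u z ha hu hz => ?_⟩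
      show z * u * (a * t i) = z * u * a * t i
      rw [← mul_assoc]
  | zero =>
    refine ⟨fun a _ => Rut_zero, 0, fun a u z _ _ _ => ?_⟩
    show z * u * (0 : R) = 0
    rw [mul_zero]
  | one => exact ⟨fun a ha => ha, 1, fun a u z _ _ _ => rfl⟩
  | add D D' _ _ h h' =>
    obtain ⟨h1, E, h2⟩ := h
    obtain ⟨h1', E', h2'⟩ := h'
    refine ⟨fun a ha => Rut_add he (h1 a ha) (h1' a ha), E + E', fun a u z ha hu hz => ?_⟩
    show z * u * (D a + D' a) = E (z * u * a) + E' (z * u * a)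
    rw [← h2 a u z ha hu hz, ← h2' a u z ha hu hz, mul_add]
  | neg D _ h =>
    obtain ⟨h1, E, h2⟩ := h
    refine ⟨fun a ha => Rut_neg (h1 a ha), -E, fun a u z ha hu hz => ?_⟩
    show z * u * (-(D a)) = -(E (z * u * a))
    rw [← h2 a u z ha hu hz, mul_neg]
  | mul D D' _ _ h h' =>
    obtain ⟨h1, E, h2⟩ := h
    obtain ⟨h1', E', h2'⟩ := h'
    refine ⟨fun a ha => h1 _ (h1' a ha), E * E', fun a u z ha hu hz => ?_⟩
    show z * u * D (D' a) = E (E' (z * u * a))
    rw [← h2' a u z ha hu hz, ← h2 _ u z (h1' a ha) hu hz]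

/-- two operators on the same loop on the right -/
theorem Wcl_mir2 (hR : St_Rul) (he : Hm e) {t : Fin s → R}
    (ht : ∀ i, Pc e (some i) (some i) (t i)) {α β : Option (Fin s)} (hαβ : α ≠ β) {a z : R}
    (ha : Jc e β β a) (hz : Jc e α β z) {D D' : AddMonoid.End R} (hD : D ∈ Ops t β β)
    (hD' : D' ∈ Ops t β β) : z * D a * D' a = 0 := by
  obtain ⟨h1, E, h2⟩ := Wcl_mir hR he ht hαβ D hD
  obtain ⟨-, E', h2'⟩ := Wcl_mir hR he ht hαβ D' hD'
  have h3 := ((hR R s e he α β hαβ).2.1 (D a) a z (h1 a ha) ha hz).1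
  have h4 := ((hR R s e he α β hαβ).2.1 a a z ha ha hz).2
  rw [h2' a (D a) z ha (h1 a ha) hz, h3, h2 a a z ha ha hz, h4, map_zero, neg_zero, map_zero]

/-- operators on the last of three factors -/
theorem Wcl_thr (hR : St_Rul) (he : Hm e) {t : Fin s → R}
    (ht : ∀ i, Pc e (some i) (some i) (t i)) {α β : Option (Fin s)} (hαβ : α ≠ β) :
    ∀ D ∈ Ops t α β, (∀ a, Jc e α β a → Jc e α β (D a)) ∧
      ∀ u y v, Jc e α β u → Jc e β α y → Jc e α β v → u * y * D v = D (u * y * v) := by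
  intro D hD
  unfold Ops at hD
  induction hD using Subring.closure_induction with
  | mem D hD =>
    rcases hD with ⟨i, rfl, rfl⟩ | ⟨i, rfl, rfl⟩
    · refine ⟨fun a ha => Rut_left he (ht i) ha, fun u y v hu hy hv => ?_⟩
      show u * y * (t i * v) = t i * (u * y * v)
      have h5 := (hR R s e he (some i) β hαβ).2.2.2.2
      have h6 := (h5 u (y * t i) v hu (Rut_right he (ht i) hy) hv).1
      have h7 := (h5 (t i * u) y v (Rut_left he (ht i) hu) hy hv).1
      calc u * y * (t i * v) = u * (y * t i) * v := by simp only [mul_assoc]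
        _ = -(v * (y * t i) * u) := h6
        _ = -(v * y * (t i * u)) := by simp only [mul_assoc]
        _ = t i * u * y * v := h7.symm
        _ = t i * (u * y * v) := by simp only [mul_assoc]
    · refine ⟨fun a ha => Rut_right he (ht i) ha, fun u y v hu hy hv => ?_⟩
      show u * y * (v * t i) = u * y * v * t i
      rw [← mul_assoc]
  | zero =>
    refine ⟨fun a _ => Rut_zero, fun u y v _ _ _ => ?_⟩
    show u * y * (0 : R) = 0
    rw [mul_zero]
  | one => exact ⟨fun a ha => ha, fun u y v _ _ _ => rfl⟩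
  | add D D' _ _ h h' =>
    obtain ⟨h1, h2⟩ := h
    obtain ⟨h1', h2'⟩ := h'
    refine ⟨fun a ha => Rut_add he (h1 a ha) (h1' a ha), fun u y v hu hy hv => ?_⟩
    show u * y * (D v + D' v) = D (u * y * v) + D' (u * y * v)
    rw [← h2 u y v hu hy hv, ← h2' u y v hu hy hv, mul_add]
  | neg D _ h =>
    obtain ⟨h1, h2⟩ := h
    refine ⟨fun a ha => Rut_neg (h1 a ha), fun u y v hu hy hv => ?_⟩
    show u * y * (-(D v)) = -(D (u * y * v))
    rw [← h2 u y v hu hy hv, mul_neg]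
  | mul D D' _ _ h h' =>
    obtain ⟨h1, h2⟩ := h
    obtain ⟨h1', h2'⟩ := h'
    refine ⟨fun a ha => h1 _ (h1' a ha), fun u y v hu hy hv => ?_⟩
    show u * y * D (D' v) = D (D' (u * y * v))
    rw [← h2' u y v hu hy hv, ← h2 u y _ hu hy (h1' v hv)]

/-- the same element at the first and the third place -/
theorem Wcl_thr2 (hR : St_Rul) (he : Hm e) {t : Fin s → R}
    (ht : ∀ i, Pc e (some i) (some i) (t i)) {α β : Option (Fin s)} (hαβ : α ≠ β) {a y : R}
    (ha : Jc e α β a) (hy : Jc e β α y) {D D' : AddMonoid.End R} (hD : D ∈ Ops t α β)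
    (hD' : D' ∈ Ops t α β) : D a * y * D' a = 0 := by
  obtain ⟨h1, h2⟩ := Wcl_thr hR he ht hαβ D hD
  obtain ⟨-, h2'⟩ := Wcl_thr hR he ht hαβ D' hD'
  have h3 := (hR R s e he α β hαβ).2.2.2.2
  have h4 := (h3 (D a) y a (h1 a ha) hy ha).1
  have h5 := (h3 a y a ha hy ha).2
  rw [h2' _ y a (h1 a ha) hy ha, h4, h2 a y a ha hy ha, h5, map_zero, neg_zero, map_zero]

end

theorem thm_Wcl (hShp : St_Shp) (hRul : St_Rul) (hRut : St_Rut) (hOpc : St_Opc) : St_Wcl := by
  intro n p R _ _ hC s t hF α β x hx ds hds hne hnl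
  obtain ⟨hP, ht1, ht2⟩ := CRL.thm_Fpr (CRL.thm_Quo (CRL.thm_Jil (CRL.thm_Chn CRL.thm_Prl
    (CRL.thm_Snl CRL.thm_Prl) (CRL.thm_Chi CRL.thm_Prl)))) n p R hC s t hF
  obtain ⟨J, hJ, hJ2⟩ := CRL.thm_Jil (CRL.thm_Chn CRL.thm_Prl
    (CRL.thm_Snl CRL.thm_Prl) (CRL.thm_Chi CRL.thm_Prl)) n hC.n4 R hC.inM hC.nt
  set e : Fin s → R := fun i => om n (t i) with he_def
  have he : Hm e := by
    refine ⟨fun i => (hP.prm i).1, hP.orth, fun x y hx hy => ?_, fun r x hx => ?_⟩
    · exact (hJ2 _).1 (J.add_mem ((hJ2 x).2 hx) ((hJ2 y).2 hy))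
    · have h := hJ r x ((hJ2 x).2 hx)
      exact ⟨(hJ2 _).1 h.1, (hJ2 _).1 h.2⟩
  have ht : ∀ i, Pc e (some i) (some i) (t i) := by
    intro i
    refine ⟨fun j => ?_, fun j => ?_⟩
    · by_cases h : i = j
      · subst h
        rw [if_pos rfl]
        exact (ht1 i).2.1
      · rw [if_neg (fun h' => h (Option.some.inj h'))]
        exact (ht2 j i (Ne.symm h)).1
    · by_cases h : i = j
      · subst h
        rw [if_pos rfl]
        exact (ht1 i).1
      · rw [if_neg (fun h' => h (Option.some.inj h'))]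
        exact (ht2 i j h).2
  have hop : ∀ (α β : Option (Fin s)), ∀ D ∈ Ops t α β, ∀ a, Jc e α β a → Jc e α β (D a) :=
    fun α β D hD a ha => ⟨(hOpc n p R hC s t hF α β D hD a).1 ha.1,
      (hOpc n p R hC s t hF α β D hD a).2 ha.2⟩
  have hf : ∀ d ∈ ds, Jc e (α d.1) (β d.1) (Wcl_f x d) := fun d hd => hop _ _ _ (hds d hd) _ (hx _)
  let F : Dsi R → Itm s R := fun d => (α d.1, β d.1, d.2 (x d.1))
  have hw : (ds.map F).map (fun c => c.2.2) = ds.map (Wcl_f x) := by
    rw [List.map_map]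
    rfl
  have hS := hShp R s e he (ds.map F) (by
    intro c hc
    obtain ⟨d, hd, rfl⟩ := List.mem_map.1 hc
    exact hf d hd) (by rw [hw]; exact hne) (by
    obtain ⟨d, hd, h⟩ := hnl
    exact ⟨F d, List.mem_map_of_mem hd, h⟩)
  rcases hS with ⟨l', c, hl, hc, hlo⟩ | ⟨c, l', hl, hc, hlo⟩ | ⟨c, c', hl, hc, hc1, hc2⟩ |
    ⟨l₁, c, c', l₂, hl, hc, hc1, hc2, hne', hlo⟩ | ⟨c₁, c₂, c₃, hl, hc, hc1, hc2, hc3, hc4⟩
  · -- loops on the left
    left
    obtain ⟨ds', ds'', rfl, rfl, h⟩ := List.map_eq_append_iff.1 hl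
    obtain ⟨d, rfl, rfl⟩ := List.map_eq_singleton_iff.1 h
    have hlo' : ∀ c ∈ ds', α c.1 = α d.1 ∧ β c.1 = α d.1 :=
      fun c hc => hlo (F c) (List.mem_map_of_mem hc)
    refine ⟨ds', d, rfl, hc, hlo', ?_⟩
    by_contra hn
    refine hne ?_
    rw [List.map_append]
    refine Wcl_lc (A := Jc e (α d.1) (α d.1)) (Z := Jc e (α d.1) (β d.1))
      (O := fun D => D ∈ Ops t (α d.1) (α d.1)) ?_ ?_ ?_ ?_ ds' ?_
      (hf d (List.mem_append_right _ List.mem_cons_self)) hn
    · exact fun a ha D hD => hop _ _ D hD a ha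
    · exact fun a z ha hz => Rut_left he ha.1 hz
    · exact fun a a' z ha ha' hz => ((hRul R s e he _ _ hc).1 a a' z ha ha' hz).1
    · exact fun a z D D' ha hz hD hD' => (hRut n p R hC s t hF _ _ hc).2.2.2 a z ha hz D hD D' hD'
    · intro c hc'
      have h1 := hds c (List.mem_append_left _ hc')
      have h2 := hx c.1
      rw [(hlo' c hc').1, (hlo' c hc').2] at h1 h2
      exact ⟨h1, h2⟩
  · -- loops on the right
    right; left
    obtain ⟨d, ds', rfl, rfl, rfl⟩ := List.map_eq_cons_iff.1 hl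
    have hlo' : ∀ c ∈ ds', α c.1 = β d.1 ∧ β c.1 = β d.1 :=
      fun c hc => hlo (F c) (List.mem_map_of_mem hc)
    refine ⟨d, ds', rfl, hc, hlo', ?_⟩
    by_contra hn
    refine hne ?_
    rw [List.map_cons]
    refine Wcl_rc (A := Jc e (β d.1) (β d.1)) (Z := Jc e (α d.1) (β d.1))
      (O := fun D => D ∈ Ops t (β d.1) (β d.1)) ?_ ?_ ?_ ?_ ds' ?_ (hf d List.mem_cons_self) hn
    · exact fun a ha D hD => hop _ _ D hD a ha
    · exact fun a z ha hz => Rut_right he ha.1 hz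
    · exact fun a a' z ha ha' hz => ((hRul R s e he _ _ hc).2.1 a a' z ha ha' hz).1
    · exact fun a z D D' ha hz hD hD' => Wcl_mir2 hRul he ht hc ha hz hD hD'
    · intro c hc'
      have h1 := hds c (List.mem_cons_of_mem _ hc')
      have h2 := hx c.1
      rw [(hlo' c hc').1, (hlo' c hc').2] at h1 h2
      exact ⟨h1, h2⟩
  · -- two factors
    right; right; left
    obtain ⟨d, ds', rfl, rfl, h⟩ := List.map_eq_cons_iff.1 hl
    obtain ⟨d', rfl, rfl⟩ := List.map_eq_singleton_iff.1 h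
    exact ⟨d, d', rfl, hc, hc1, hc2⟩
  · -- loops around a pair
    right; right; right; left
    obtain ⟨ds₁, dr, rfl, rfl, h⟩ := List.map_eq_append_iff.1 hl
    obtain ⟨d, dr, rfl, rfl, h'⟩ := List.map_eq_cons_iff.1 h
    obtain ⟨d', ds₂, rfl, rfl, rfl⟩ := List.map_eq_cons_iff.1 h'
    have hlo' : ∀ c ∈ ds₁ ++ ds₂, α c.1 = α d.1 ∧ β c.1 = α d.1 := by
      intro c hc
      refine hlo (F c) ?_
      rw [← List.map_append]
      exact List.mem_map_of_mem hc
    refine ⟨ds₁, d, d', ds₂, rfl, hc, hc1, hc2, ?_, hlo', ?_⟩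
    · intro h0
      rw [← List.map_append, h0] at hne'
      exact hne' rfl
    · by_contra hn
      refine hne ?_
      rw [List.map_append, List.map_cons, List.map_cons]
      have hmem : ∀ c ∈ ds₁ ++ ds₂, c ∈ ds₁ ++ d :: d' :: ds₂ := by
        intro c hc'
        rcases List.mem_append.1 hc' with h | h
        · exact List.mem_append_left _ h
        · exact List.mem_append_right _ (List.mem_cons_of_mem _ (List.mem_cons_of_mem _ h))
      have hgood : ∀ c ∈ ds₁ ++ ds₂, c.2 ∈ Ops t (α d.1) (α d.1) ∧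
          Jc e (α d.1) (α d.1) (x c.1) := by
        intro c hc'
        have h1 := hds c (hmem c hc')
        have h2 := hx c.1
        rw [(hlo' c hc').1, (hlo' c hc').2] at h1 h2
        exact ⟨h1, h2⟩
      have hd' : Jc e (β d.1) (α d.1) (Wcl_f x d') := by
        have h2 := hf d' (List.mem_append_right _ (List.mem_cons_of_mem _ List.mem_cons_self))
        have h3 : α d'.1 = β d.1 := hc1
        have h4 : β d'.1 = α d.1 := hc2
        rwa [h3, h4] at h2
      refine Wcl_ld (A := Jc e (α d.1) (α d.1)) (Z := Jc e (α d.1) (β d.1))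
        (O := fun D => D ∈ Ops t (α d.1) (α d.1)) (W := Jc e (β d.1) (α d.1)) ?_ ?_ ?_ ?_ ?_
        ds₂ ds₁ ?_ ?_ (hf d (List.mem_append_right _ List.mem_cons_self)) hd' hn
      · exact fun a ha D hD => hop _ _ D hD a ha
      · exact fun a z ha hz => Rut_left he ha.1 hz
      · exact fun a a' z ha ha' hz => ((hRul R s e he _ _ hc).1 a a' z ha ha' hz).1
      · exact fun a z D D' ha hz hD hD' =>
          (hRut n p R hC s t hF _ _ hc).2.2.2 a z ha hz D hD D' hD'
      · intro a z w ha hz hw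
        rw [((hRul R s e he _ _ hc).2.2.2.1 a 0 z w ha Rut_zero hz hw).1, neg_neg]
      · exact fun c hc' => hgood c (List.mem_append_left _ hc')
      · exact fun c hc' => hgood c (List.mem_append_right _ hc')
  · -- three factors
    right; right; right; right
    obtain ⟨d₁, ds', rfl, rfl, h⟩ := List.map_eq_cons_iff.1 hl
    obtain ⟨d₂, ds', rfl, rfl, h'⟩ := List.map_eq_cons_iff.1 h
    obtain ⟨d₃, rfl, rfl⟩ := List.map_eq_singleton_iff.1 h'
    refine ⟨d₁, d₂, d₃, rfl, hc, hc1, hc2, hc3, hc4, ?_⟩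
    intro h13
    refine hne ?_
    have h1 : d₁.2 ∈ Ops t (α d₁.1) (β d₁.1) := hds d₁ List.mem_cons_self
    have h3 : d₃.2 ∈ Ops t (α d₁.1) (β d₁.1) := by
      rw [h13]
      exact hds d₃ (List.mem_cons_of_mem _ (List.mem_cons_of_mem _ List.mem_cons_self))
    have h2 : Jc e (β d₁.1) (α d₁.1) (d₂.2 (x d₂.1)) := by
      have h5 := hf d₂ (List.mem_cons_of_mem _ List.mem_cons_self)
      have h6 : α d₂.1 = β d₁.1 := hc1
      have h7 : β d₂.1 = α d₁.1 := hc2
      rwa [h6, h7] at h5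
    have h8 := Wcl_thr2 hRul he ht hc (hx d₁.1) h2 h1 h3
    change d₁.2 (x d₁.1) * (d₂.2 (x d₂.1) * d₃.2 (x d₃.1)) = 0
    rw [← h13, ← mul_assoc]
    exact h8

end Pool.Agent.CRM
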