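import Pool.Agent.CRM.St

/-!
Campaign CRM, module WPJ: nil elements of the subring generated by a frame are divisible by `p`.
-/

set_option autoImplicit false

namespace Pool.Agent.CRM

open Pool.Agent.CRR Pool.Agent.CRN Pool.Agent.CRK Pool.Agent.CRL

private theorem Wpj_nl {R : Type} [NonUnitalRing R] {w : R} (h : Nl w) (k : ℕ) :
    pw w (2 + k) = 0 := by
  induction k with
  | zero => exact h
  | succ k ih =>
    show pw w (2 + k) * w = 0
    rw [ih, zero_mul]

theorem thm_Wpj (hQ : St_Opq) : St_Wpj := by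
  intro n p R _ _ hC s t hF w hw hn
  obtain ⟨q, hq, -, -, h⟩ := hQ n p R hC s t hF
  obtain ⟨c, hc, h1⟩ := h w hw
  refine ⟨-c, neg_mem hc, ?_⟩
  have h2 : q - 1 = 2 + (q - 3) := by omega
  rw [h2, Wpj_nl hn] at h1
  rw [smul_neg]
  exact eq_neg_of_add_eq_zero_left h1.symm

end Pool.Agent.CRM
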