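import Pool.Agent.CRM.Stc
import Pool.Agent.CRL.All

/-!
Campaign CRM: the subring generated by a frame (problem MP_1bb14d_al).
-/

set_option autoImplicit false

namespace Pool.Agent.CRM

open Pool.Agent.CRR Pool.Agent.CRN Pool.Agent.CRK Pool.Agent.CRL

theorem thm_Wst (hO : St_Ops) (hW : St_Wpj) : St_Wst := by
  intro n p R _ _ hcy s t hfr
  obtain ⟨hpfm, hti, htij⟩ := CRL.fpr n p R hcy s t hfr
  have hidem : ∀ i, om n (t i) * om n (t i) = om n (t i) := fun i => (hpfm.prm i).1
  have h1 : ∀ w ∈ NonUnitalSubring.closure (Set.range t), ∀ i,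
      om n (t i) * w = w * om n (t i) ∧
      ∃ D ∈ Ops t (some i) none, om n (t i) * w = D (om n (t i)) := by
    intro w hw i
    have h4 := (hO R s t (some i) none).2.2.2.1
    induction hw using NonUnitalSubring.closure_induction with
    | mem x hx =>
      obtain ⟨j, rfl⟩ := hx
      by_cases hij : i = j
      · subst hij
        refine ⟨by rw [(hti i).2.1, (hti i).1], AddMonoid.End.mulLeft (t i),
          Subring.subset_closure (Or.inl ⟨i, rfl, rfl⟩), ?_⟩
        show om n (t i) * t i = t i * om n (t i)
        rw [(hti i).2.1, (hti i).1]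
      · refine ⟨?_, 0, Subring.zero_mem _, ?_⟩
        · rw [(htij i j hij).1, (htij j i (Ne.symm hij)).2]
        · rw [(htij i j hij).1]
          rfl
    | zero => exact ⟨by rw [mul_zero, zero_mul], 0, Subring.zero_mem _, by rw [mul_zero]; rfl⟩
    | add x y _ _ hx hy =>
      obtain ⟨hx1, D, hD, hx2⟩ := hx
      obtain ⟨hy1, D', hD', hy2⟩ := hy
      refine ⟨by rw [mul_add, add_mul, hx1, hy1], D + D', Subring.add_mem _ hD hD', ?_⟩
      rw [mul_add, hx2, hy2]
      rfl
    | neg x _ hx =>
      obtain ⟨hx1, D, hD, hx2⟩ := hx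
      refine ⟨by rw [mul_neg, neg_mul, hx1], -D, Subring.neg_mem _ hD, ?_⟩
      rw [mul_neg, hx2]
      rfl
    | mul x y _ _ hx hy =>
      obtain ⟨hx1, D, hD, hx2⟩ := hx
      obtain ⟨hy1, D', hD', hy2⟩ := hy
      refine ⟨by rw [← mul_assoc, hx1, mul_assoc, hy1, mul_assoc], D * D',
        Subring.mul_mem _ hD hD', ?_⟩
      rw [← mul_assoc, hx2, ← h4 D hD, hy2]
      rfl
  refine ⟨h1, ?_, ?_, ?_⟩
  · -- (2)
    intro w hw γ δ hγδ hpc
    have h2 : w = ∑ i, om n (t i) * w := by
      clear hpc
      induction hw using NonUnitalSubring.closure_induction with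
      | mem x hx =>
        obtain ⟨j, rfl⟩ := hx
        rw [Finset.sum_eq_single j, (hti j).2.1]
        · intro i _ hij
          exact (htij i j hij).1
        · intro h
          exact absurd (Finset.mem_univ j) h
      | zero => simp
      | add x y _ _ hx hy =>
        conv_lhs => rw [hx, hy]
        rw [← Finset.sum_add_distrib]
        exact Finset.sum_congr rfl fun i _ => (mul_add _ _ _).symm
      | neg x _ hx =>
        conv_lhs => rw [hx]
        rw [← Finset.sum_neg_distrib]
        exact Finset.sum_congr rfl fun i _ => (mul_neg _ _).symm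
      | mul x y _ _ hx hy =>
        conv_lhs => rw [hx]
        rw [Finset.sum_mul]
        exact Finset.sum_congr rfl fun i _ => mul_assoc _ _ _
    rcases γ with _ | i
    · rw [h2]
      exact Finset.sum_eq_zero fun i _ => by rw [hpc.1 i, if_neg (by simp)]
    · have hne : some i ≠ δ := by
        rcases hγδ with h | h
        · exact h
        · exact absurd h (by simp)
      have h3 : om n (t i) * w = w := by rw [hpc.1 i, if_pos rfl]
      rw [← h3, (h1 w hw i).1, hpc.2 i, if_neg (Ne.symm hne)]
  · -- (3)
    intro w hw i hjc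
    obtain ⟨w', hw', hww⟩ := hW n p R hcy s t hfr w hw hjc.2
    obtain ⟨-, D, hD, hD2⟩ := h1 w' hw' i
    refine ⟨D, hD, ?_⟩
    have h3 : om n (t i) * w = w := by rw [hjc.1.1 i, if_pos rfl]
    rw [map_nsmul, ← hD2, ← h3]
    nth_rewrite 1 [hww]
    rw [mul_smul_comm]
  · -- (4)
    intro i
    have hpi : om n (t i) * (p • om n (t i)) = p • om n (t i) := by
      rw [mul_smul_comm, hidem]
    have hip : (p • om n (t i)) * om n (t i) = p • om n (t i) := by
      rw [smul_mul_assoc, hidem]
    refine ⟨⟨?_, ?_⟩, ?_, ?_⟩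
    · intro j
      by_cases hij : i = j
      · subst hij
        rw [if_pos rfl, hpi]
      · rw [if_neg (fun h => hij (Option.some.inj h))]
        rw [mul_smul_comm, hpfm.orth j i (Ne.symm hij), smul_zero]
    · intro j
      by_cases hij : i = j
      · subst hij
        rw [if_pos rfl, hip]
      · rw [if_neg (fun h => hij (Option.some.inj h))]
        rw [smul_mul_assoc, hpfm.orth i j hij, smul_zero]
    · rcases CRL.thm_Prl n hcy.n4 R hcy.inM _ (hpfm.prm i) _ hpi hip with h | ⟨y, hy1, hy2, hy3, -⟩
      · exact h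
      · exfalso
        have h5 : p • y = om n (t i) := by
          rw [← hy3, smul_mul_assoc, hy1]
        have h6 : ∀ k : ℕ, ∃ z, (p ^ k) • z = om n (t i) := by
          intro k
          induction k with
          | zero => exact ⟨om n (t i), by rw [pow_zero, one_smul]⟩
          | succ k ih =>
            obtain ⟨z, hz⟩ := ih
            refine ⟨z * y, ?_⟩
            rw [pow_succ', mul_smul, ← smul_mul_assoc, hz, hy1, h5]
        obtain ⟨r, hr⟩ := hcy.pr
        obtain ⟨z, hz⟩ := h6 r
        exact (hpfm.prm i).2.1 (by rw [← hz, hr])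
    · intro j hj
      have hij : i = j := Option.some.inj hj
      subst hij
      rw [mul_smul_comm, smul_mul_assoc, (hti i).1, (hti i).2.1]

end Pool.Agent.CRM
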