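import Pool.Agent.CRM.Stb
import Pool.Agent.CRL.All

/-!
Campaign CRM, module WXW: words in `t` and `x` as products of operators applied to the `x_k` (helper36).
-/

set_option autoImplicit false

namespace Pool.Agent.CRM

open Pool.Agent.CRR Pool.Agent.CRN Pool.Agent.CRK Pool.Agent.CRL

theorem Wxw_cons {R : Type} [NonUnitalRing R] (a : R) {l : List R} (h : l ≠ []) :
    wp (a :: l) = a * wp l := by
  cases l with
  | nil => exact absurd rfl h
  | cons b l => rfl

theorem Wxw_mul {R : Type} [NonUnitalRing R] (a b : R) (l : List R) :
    wp ((a * b) :: l) = a * wp (b :: l) := by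
  cases l with
  | nil => rfl
  | cons c l =>
    show (a * b) * wp (c :: l) = a * (b * wp (c :: l))
    rw [mul_assoc]

theorem Wxw_zero {R : Type} [NonUnitalRing R] (l : List R) : wp ((0 : R) :: l) = 0 := by
  cases l with
  | nil => rfl
  | cons c l =>
    show (0 : R) * wp (c :: l) = 0
    rw [zero_mul]

theorem Wxw_left {R : Type} [NonUnitalRing R] (a : R) (k : ℕ) (y : R) :
    (AddMonoid.End.mulLeft a ^ (k + 1)) y = pw a k * y := by
  induction k generalizing y with
  | zero =>
    rw [zero_add, pow_one]
    rfl
  | succ k ih =>
    rw [pow_succ]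
    show (AddMonoid.End.mulLeft a ^ (k + 1)) (a * y) = (pw a k * a) * y
    rw [ih, mul_assoc]

theorem Wxw_right {R : Type} [NonUnitalRing R] (a : R) (k : ℕ) (y : R) :
    (AddMonoid.End.mulRight a ^ (k + 1)) y = y * pw a k := by
  induction k with
  | zero =>
    rw [zero_add, pow_one]
    rfl
  | succ k ih =>
    rw [pow_succ']
    show ((AddMonoid.End.mulRight a ^ (k + 1)) y) * a = y * (pw a k * a)
    rw [ih, mul_assoc]

theorem Wxw_iter {R : Type} [NonUnitalRing R] (D : AddMonoid.End R) (y : R) (h : D y = y) (k : ℕ) :
    (D ^ k) y = y := by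
  induction k with
  | zero => rfl
  | succ k ih =>
    rw [pow_succ]
    show (D ^ k) (D y) = y
    rw [h, ih]

/-- the part of a word after the last letter `≥ s` -/
theorem Wxw_tail {n p : ℕ} {R : Type} [NonUnitalRing R] [Finite R] (hC : Cy R n p) {s : ℕ}
    {t : Fin s → R} (hF : Frame R n s t) (hO : St_Opc) (α β : Option (Fin s)) (l : List ℕ)
    (hl : ∀ i ∈ l, i < s) (hne : l ≠ []) :
    (∀ (y : R) (v : ℕ → R), Pc (fun i => om n (t i)) α β y → y * wp (l.map (vx t v)) = 0) ∨
    ∃ j, β = some j ∧ ∀ (y : R) (v : ℕ → R), Pc (fun i => om n (t i)) α β y →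
      y * wp (l.map (vx t v)) = (AddMonoid.End.mulRight (t j) ^ l.length) y := by
  obtain ⟨-, h1, -⟩ := CRL.fpr n p R hC s t hF
  induction l with
  | nil => exact absurd rfl hne
  | cons i l ih =>
    have hi : i < s := hl i (List.mem_cons_self)
    have hv : ∀ v : ℕ → R, vx t v i = t ⟨i, hi⟩ := fun v => by rw [vx, dif_pos hi]
    -- the first letter
    by_cases hβ : β = some ⟨i, hi⟩
    · by_cases hl0 : l = []
      · right
        refine ⟨⟨i, hi⟩, hβ, fun y v _ => ?_⟩
        subst hl0
        show y * vx t v i = (AddMonoid.End.mulRight (t ⟨i, hi⟩) ^ 1) y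
        rw [hv, pow_one]
        rfl
      · have hm : ∀ (y : R), Pc (fun i => om n (t i)) α β y →
            Pc (fun i => om n (t i)) α β (y * t ⟨i, hi⟩) := by
          intro y hy
          have hD : AddMonoid.End.mulRight (t ⟨i, hi⟩) ∈ Ops t α β :=
            Subring.subset_closure (Or.inr ⟨_, hβ, rfl⟩)
          exact (hO n p R hC s t hF α β _ hD y).1 hy
        have hw : ∀ (y : R) (v : ℕ → R), y * wp ((i :: l).map (vx t v)) =
            (y * t ⟨i, hi⟩) * wp (l.map (vx t v)) := by
          intro y v
          rw [List.map_cons, hv, Wxw_cons _ (by simpa using hl0), mul_assoc]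
        rcases ih (fun j hj => hl j (List.mem_cons_of_mem _ hj)) hl0 with h | ⟨j, hj, h⟩
        · left
          intro y v hy
          rw [hw]
          exact h _ v (hm y hy)
        · right
          refine ⟨j, hj, fun y v hy => ?_⟩
          rw [hw, h _ v (hm y hy), List.length_cons, pow_succ]
          have hji : j = ⟨i, hi⟩ := by
            rw [hβ] at hj
            exact (Option.some.inj hj).symm
          rw [← hji]
          rfl
    · left
      intro y v hy
      have hz : y * t ⟨i, hi⟩ = 0 := by
        have h3 := hy.2 ⟨i, hi⟩
        rw [if_neg hβ] at h3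
        simp only at h3
        rw [← (h1 ⟨i, hi⟩).2.1, ← mul_assoc, h3, zero_mul]
      rw [List.map_cons, hv]
      by_cases hl0 : l = []
      · subst hl0
        exact hz
      · rw [Wxw_cons _ (by simpa using hl0), ← mul_assoc, hz, zero_mul]

theorem thm_Wxw (hO : St_Opc) : St_Wxw := by
  intro n p R _ _ hC s t hF α β l hl
  obtain ⟨-, h1, -⟩ := CRL.fpr n p R hC s t hF
  have hPc : ∀ (α β : Option (Fin s)), ∀ D ∈ Ops t α β, ∀ x,
      Pc (fun i => om n (t i)) α β x → Pc (fun i => om n (t i)) α β (D x) :=
    fun α β D hD x hx => (hO n p R hC s t hF α β D hD x).1 hx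
  induction l with
  | nil =>
    obtain ⟨i, hi, _⟩ := hl
    exact absurd hi List.not_mem_nil
  | cons i l ih =>
    by_cases hi : i < s
    · -- a letter `t_i`
      have hl' : ∃ j ∈ l, s ≤ j := by
        obtain ⟨j, hj, hjs⟩ := hl
        rcases List.mem_cons.1 hj with h | h
        · omega
        · exact ⟨j, h, hjs⟩
      have hv : ∀ v : ℕ → R, vx t v i = t ⟨i, hi⟩ := fun v => by rw [vx, dif_pos hi]
      have hl0 : l ≠ [] := by
        rintro rfl
        obtain ⟨j, hj, _⟩ := hl'
        exact absurd hj List.not_mem_nil
      have hf : (i :: l).filter (fun i => decide (s ≤ i)) =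
          l.filter (fun i => decide (s ≤ i)) := by
        rw [List.filter_cons_of_neg]
        simpa using hi
      have hw : ∀ v : ℕ → R, wp ((i :: l).map (vx t v)) = t ⟨i, hi⟩ * wp (l.map (vx t v)) := by
        intro v
        rw [List.map_cons, hv, Wxw_cons _ (by simpa using hl0)]
      rcases ih hl' with h | ⟨ds, hd1, hd2, hd3⟩
      · left
        intro x hx
        rw [hw, h x hx, mul_zero]
      · cases ds with
        | nil =>
          exfalso
          obtain ⟨j, hj, hjs⟩ := hl'
          have h3 : j ∈ l.filter (fun i => decide (s ≤ i)) :=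
            List.mem_filter.2 ⟨hj, by simpa using hjs⟩
          rw [List.map_nil] at hd1
          rw [List.map_eq_nil_iff.1 hd1.symm] at h3
          exact absurd h3 List.not_mem_nil
        | cons d ds =>
          obtain ⟨k, D⟩ := d
          obtain ⟨hDm, D', hD'm, hD'⟩ := hd2 (k, D) List.mem_cons_self
          simp only at hDm hD'm hD'
          by_cases hα : α k = some ⟨i, hi⟩
          · right
            have hLm : AddMonoid.End.mulLeft (t ⟨i, hi⟩) ∈ Ops t (α k) (β k) :=
              Subring.subset_closure (Or.inl ⟨_, hα, rfl⟩)
            refine ⟨(k, AddMonoid.End.mulLeft (t ⟨i, hi⟩) * D) :: ds, ?_, ?_, ?_⟩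
            · rw [hf, ← hd1]
              rfl
            · intro d hd
              rcases List.mem_cons.1 hd with rfl | h
              · refine ⟨mul_mem hLm hDm, ?_⟩
                obtain ⟨m, hm1, -, hm⟩ := hF.per ⟨i, hi⟩
                have hme := (h1 ⟨i, hi⟩).2.2.2 m hm1 hm
                refine ⟨D' * AddMonoid.End.mulLeft (t ⟨i, hi⟩) ^ (m - 1),
                  mul_mem hD'm (pow_mem hLm _), ?_⟩
                intro x hx
                have h4 : (AddMonoid.End.mulLeft (t ⟨i, hi⟩) ^ (m - 1))
                    (AddMonoid.End.mulLeft (t ⟨i, hi⟩) (D x)) = D x := by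
                  have h5 : (AddMonoid.End.mulLeft (t ⟨i, hi⟩) ^ (m - 1))
                      (AddMonoid.End.mulLeft (t ⟨i, hi⟩) (D x)) =
                      (AddMonoid.End.mulLeft (t ⟨i, hi⟩) ^ (m - 1 + 1)) (D x) := by
                    rw [pow_succ]
                    rfl
                  rw [h5, Wxw_left, hme]
                  have h6 := (hPc _ _ D hDm x hx).1 ⟨i, hi⟩
                  rw [if_pos hα] at h6
                  exact h6
                show D' ((AddMonoid.End.mulLeft (t ⟨i, hi⟩) ^ (m - 1))
                    (AddMonoid.End.mulLeft (t ⟨i, hi⟩) (D x))) = x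
                rw [h4]
                exact hD' x hx
              · exact hd2 d (List.mem_cons_of_mem _ h)
            · intro x hx
              rw [hw, hd3 x hx]
              exact (Wxw_mul (t ⟨i, hi⟩) (D (x k)) _).symm
          · left
            intro x hx
            rw [hw, hd3 x hx]
            have h6 := (hPc _ _ D hDm (x k) (hx k)).1 ⟨i, hi⟩
            rw [if_neg hα] at h6
            simp only at h6
            have h7 : t ⟨i, hi⟩ * D (x k) = 0 := by
              rw [← (h1 ⟨i, hi⟩).1, mul_assoc, h6, mul_zero]
            have h8 := Wxw_mul (t ⟨i, hi⟩) (D (x k)) (ds.map fun d => d.2 (x d.1))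
            rw [h7, Wxw_zero] at h8
            exact h8.symm
    · -- a letter `x_k`
      have hi' : s ≤ i := Nat.not_lt.1 hi
      have hv : ∀ v : ℕ → R, vx t v i = v (i - s) := fun v => by rw [vx, dif_neg hi]
      have hf : (i :: l).filter (fun i => decide (s ≤ i)) =
          i :: l.filter (fun i => decide (s ≤ i)) := by
        rw [List.filter_cons_of_pos]
        simpa using hi'
      have hone : ∀ k, ∃ D' ∈ Ops t (α k) (β k), ∀ x, Pc (fun i => om n (t i)) (α k) (β k) x →
          D' ((1 : AddMonoid.End R) x) = x := fun k => ⟨1, one_mem _, fun x _ => rfl⟩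
      by_cases hl' : ∃ j ∈ l, s ≤ j
      · have hl0 : l ≠ [] := by
          rintro rfl
          obtain ⟨j, hj, _⟩ := hl'
          exact absurd hj List.not_mem_nil
        have hw : ∀ v : ℕ → R, wp ((i :: l).map (vx t v)) = v (i - s) * wp (l.map (vx t v)) := by
          intro v
          rw [List.map_cons, hv, Wxw_cons _ (by simpa using hl0)]
        rcases ih hl' with h | ⟨ds, hd1, hd2, hd3⟩
        · left
          intro x hx
          rw [hw, h x hx, mul_zero]
        · right
          have hds : ds ≠ [] := by
            rintro rfl
            obtain ⟨j, hj, hjs⟩ := hl'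
            have h3 : j ∈ l.filter (fun i => decide (s ≤ i)) :=
              List.mem_filter.2 ⟨hj, by simpa using hjs⟩
            rw [List.map_nil] at hd1
            rw [List.map_eq_nil_iff.1 hd1.symm] at h3
            exact absurd h3 List.not_mem_nil
          refine ⟨(i - s, 1) :: ds, ?_, ?_, ?_⟩
          · rw [hf, List.map_cons, List.map_cons, hd1]
          · intro d hd
            rcases List.mem_cons.1 hd with rfl | h
            · exact ⟨one_mem _, hone _⟩
            · exact hd2 d h
          · intro x hx
            rw [hw, hd3 x hx, List.map_cons, Wxw_cons _ (by simpa using hds)]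
            rfl
      · have hls : ∀ j ∈ l, j < s := by
          intro j hj
          by_contra hc
          exact hl' ⟨j, hj, Nat.not_lt.1 hc⟩
        have hfl : l.filter (fun i => decide (s ≤ i)) = [] := by
          rw [List.filter_eq_nil_iff]
          intro j hj
          have := hls j hj
          simpa using this
        by_cases hl0 : l = []
        · right
          subst hl0
          refine ⟨[(i - s, 1)], ?_, ?_, ?_⟩
          · rw [hf, hfl]
            rfl
          · intro d hd
            rw [List.mem_singleton.1 hd]
            exact ⟨one_mem _, hone _⟩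
          · intro x _
            exact hv x
        · have hw : ∀ v : ℕ → R, wp ((i :: l).map (vx t v)) =
              v (i - s) * wp (l.map (vx t v)) := by
            intro v
            rw [List.map_cons, hv, Wxw_cons _ (by simpa using hl0)]
          rcases Wxw_tail hC hF hO (α (i - s)) (β (i - s)) l hls hl0 with h | ⟨j, hj, h⟩
          · left
            intro x hx
            rw [hw]
            exact h _ x (hx _)
          · right
            have hRm : AddMonoid.End.mulRight (t j) ∈ Ops t (α (i - s)) (β (i - s)) :=
              Subring.subset_closure (Or.inr ⟨_, hj, rfl⟩)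
            refine ⟨[(i - s, AddMonoid.End.mulRight (t j) ^ l.length)], ?_, ?_, ?_⟩
            · rw [hf, hfl]
              rfl
            · intro d hd
              rw [List.mem_singleton.1 hd]
              refine ⟨pow_mem hRm _, ?_⟩
              obtain ⟨m, hm1, -, hm⟩ := hF.per j
              have hme := (h1 j).2.2.2 m hm1 hm
              refine ⟨(AddMonoid.End.mulRight (t j) ^ (m - 1)) ^ l.length,
                pow_mem (pow_mem hRm _) _, ?_⟩
              intro x hx
              have h4 : ((AddMonoid.End.mulRight (t j) ^ (m - 1)) ^ l.length *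
                  AddMonoid.End.mulRight (t j) ^ l.length) x =
                  ((AddMonoid.End.mulRight (t j) ^ (m - 1 + 1)) ^ l.length) x := by
                rw [← pow_mul, ← pow_add, ← pow_mul]
                congr 2
                ring
              show ((AddMonoid.End.mulRight (t j) ^ (m - 1)) ^ l.length *
                  AddMonoid.End.mulRight (t j) ^ l.length) x = x
              rw [h4]
              refine Wxw_iter _ _ ?_ _
              rw [Wxw_right, hme]
              have h6 := hx.2 j
              simp only at h6
              rw [if_pos hj] at h6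
              exact h6
            · intro x hx
              rw [hw, h _ x (hx _)]
              rfl

end Pool.Agent.CRM
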