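import Pool.Agent.CRM.Alp
import Pool.Agent.CRM.Bkl
import Pool.Agent.CRM.Cna
import Pool.Agent.CRM.Cnb
import Pool.Agent.CRM.Cnj
import Pool.Agent.CRM.Cve
import Pool.Agent.CRM.Cvl
import Pool.Agent.CRM.Cvp
import Pool.Agent.CRM.Cvt
import Pool.Agent.CRM.Cvu
import Pool.Agent.CRM.Cvx
import Pool.Agent.CRM.Dmk
import Pool.Agent.CRM.Dol
import Pool.Agent.CRM.Dop
import Pool.Agent.CRM.Eva
import Pool.Agent.CRM.Evn
import Pool.Agent.CRM.Exg
import Pool.Agent.CRM.Fai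
import Pool.Agent.CRM.Fcl
import Pool.Agent.CRM.Fcn
import Pool.Agent.CRM.Fct
import Pool.Agent.CRM.Fcv
import Pool.Agent.CRM.Fle
import Pool.Agent.CRM.Foi
import Pool.Agent.CRM.Fop
import Pool.Agent.CRM.Fou
import Pool.Agent.CRM.Fwl
import Pool.Agent.CRM.Fwp
import Pool.Agent.CRM.Fwx
import Pool.Agent.CRM.Gbp
import Pool.Agent.CRM.Gnr
import Pool.Agent.CRM.Inv
import Pool.Agent.CRM.Ivc
import Pool.Agent.CRM.Kjf
import Pool.Agent.CRM.Lex
import Pool.Agent.CRM.Lfb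
import Pool.Agent.CRM.Lff
import Pool.Agent.CRM.Lgb
import Pool.Agent.CRM.Lgf
import Pool.Agent.CRM.Lqq
import Pool.Agent.CRM.Lva
import Pool.Agent.CRM.Lvn
import Pool.Agent.CRM.Mfl
import Pool.Agent.CRM.Mfn
import Pool.Agent.CRM.Nac
import Pool.Agent.CRM.Nfb
import Pool.Agent.CRM.Nff
import Pool.Agent.CRM.Ngb
import Pool.Agent.CRM.Ngf
import Pool.Agent.CRM.Nid
import Pool.Agent.CRM.Opc
import Pool.Agent.CRM.Opq
import Pool.Agent.CRM.Ops
import Pool.Agent.CRM.Opx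
import Pool.Agent.CRM.Plw
import Pool.Agent.CRM.Prx
import Pool.Agent.CRM.Rul
import Pool.Agent.CRM.Rum
import Pool.Agent.CRM.Rut
import Pool.Agent.CRM.Ruu
import Pool.Agent.CRM.Shp
import Pool.Agent.CRM.Soc
import Pool.Agent.CRM.Spe
import Pool.Agent.CRM.Spl
import Pool.Agent.CRM.Spt
import Pool.Agent.CRM.Spx
import Pool.Agent.CRM.Tex
import Pool.Agent.CRM.Tqq
import Pool.Agent.CRM.Tva
import Pool.Agent.CRM.Tvn
import Pool.Agent.CRM.Twi
import Pool.Agent.CRM.Tyn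
import Pool.Agent.CRM.Wcl
import Pool.Agent.CRM.Wpj
import Pool.Agent.CRM.Wst
import Pool.Agent.CRM.Wxw

/-!
Campaign CRM: the theorems without hypotheses (problem MP_1bb14d_al).
-/

set_option autoImplicit false

namespace Pool.Agent.CRM

open Pool.Agent.CRR Pool.Agent.CRN Pool.Agent.CRK Pool.Agent.CRL

theorem rul : St_Rul := thm_Rul
theorem rum : St_Rum := thm_Rum rul
theorem ruu : St_Ruu := thm_Ruu
theorem rut : St_Rut := thm_Rut rul
theorem alp : St_Alp := thm_Alp rul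
theorem cnj : St_Cnj := thm_Cnj thm_Cna thm_Cnb
theorem gbp : St_Gbp := thm_Gbp cnj
theorem wpj : St_Wpj := thm_Wpj thm_Opq
theorem wst : St_Wst := thm_Wst thm_Ops wpj
theorem prx : St_Prx := thm_Prx thm_Ops thm_Opq
theorem soc : St_Soc := thm_Soc thm_Ops thm_Opc prx
theorem twi : St_Twi := thm_Twi thm_Ops
theorem ivc : St_Ivc := thm_Ivc thm_Ops
theorem wxw : St_Wxw := thm_Wxw thm_Opc
theorem shp : St_Shp := thm_Shp rul rum ruu
theorem wcl : St_Wcl := thm_Wcl shp rul rut thm_Opc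
theorem fwx : St_Fwx := thm_Fwx thm_Opc prx
theorem dop : St_Dop := thm_Dop wxw wcl alp
theorem dol : St_Dol := thm_Dol wxw wcl alp
theorem fct : St_Fct := thm_Fct twi ivc wxw wcl alp thm_Gnr dop
theorem fcl : St_Fcl := thm_Fcl twi ivc wxw wcl alp thm_Gnr dol
theorem fcv : St_Fcv := thm_Fcv thm_Ops thm_Opc thm_Gnr
theorem fcn : St_Fcn := thm_Fcn wxw thm_Fwl thm_Gnr
theorem fwp : St_Fwp := thm_Fwp fwx thm_Fwl wxw wcl fct fcl fcv fcn thm_Fop
theorem spt : St_Spt := thm_Spt thm_Ops thm_Opc wst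
theorem spl : St_Spl := thm_Spl wst rul
theorem spe : St_Spe := thm_Spe thm_Opc wst rul rum
theorem spx : St_Spx := thm_Spx thm_Ops thm_Opc twi wst rul rut
theorem fai : St_Fai := thm_Fai spt wst rul
theorem tex : St_Tex := thm_Tex thm_Ops spt wst
theorem tqq : St_Tqq := thm_Tqq rul wst
theorem tva : St_Tva := thm_Tva spt tex soc
theorem tvn : St_Tvn := thm_Tvn wst spt fai tex
theorem cvt : St_Cvt := thm_Cvt gbp spt tqq tva tvn
theorem lex : St_Lex := thm_Lex spl rul wst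
theorem lqq : St_Lqq := thm_Lqq alp rul wst
theorem lva : St_Lva := thm_Lva spl lex soc rul
theorem lvn : St_Lvn := thm_Lvn wst spl lex
theorem cvl : St_Cvl := thm_Cvl gbp spl lqq lva lvn
theorem eva : St_Eva := thm_Eva rul rum spe wst soc
theorem evn : St_Evn := thm_Evn thm_Ops thm_Opc rul thm_Nac spe eva
theorem cve : St_Cve := thm_Cve gbp spe eva evn
theorem cvu : St_Cvu := thm_Cvu thm_Ops thm_Opc ruu wst soc gbp
theorem cvx : St_Cvx := thm_Cvx thm_Ops thm_Opc rul soc thm_Nac gbp wst spx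
theorem cvp : St_Cvp := thm_Cvp cvt cvl cve cvu cvx thm_Opx
theorem fle : St_Fle := thm_Fle thm_Nid
theorem ngf : St_Ngf := thm_Ngf fle
theorem ngb : St_Ngb := thm_Ngb
theorem lgf : St_Lgf := thm_Lgf fle thm_Tyn thm_Fou
theorem lgb : St_Lgb := thm_Lgb thm_Tyn thm_Fou thm_Bkl
theorem mfn : St_Mfn := thm_Mfn fwp cvp ngf ngb lgf lgb
theorem kjf : St_Kjf := thm_Kjf thm_Tyn
theorem dmk : St_Dmk := thm_Dmk thm_Tyn kjf
theorem nff : St_Nff := thm_Nff fle
theorem nfb : St_Nfb := thm_Nfb kjf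
theorem lff : St_Lff := thm_Lff fle thm_Tyn thm_Foi kjf
theorem lfb : St_Lfb := thm_Lfb kjf dmk lgb
theorem mfl : St_Mfl := thm_Mfl fwp cvp nff nfb lff lfb

end Pool.Agent.CRM
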