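import Pool.Agent.CRM.Stc
import Pool.Agent.CRM.Rul

/-!
Campaign CRM, for **CVU**: the components of an element for a family of orthogonal idempotents (problem
MP_1bb14d_al).  `Cvup e a b x` is the component of `x` in `e_a R e_b`.
-/

set_option autoImplicit false

namespace Pool.Agent.CRM

open Pool.Agent.CRR Pool.Agent.CRN Pool.Agent.CRK Pool.Agent.CRL

section components

variable {R : Type} [NonUnitalRing R] {s : ℕ}

/-- component from the left -/
def CvuL (e : Fin s → R) (a : Option (Fin s)) : AddMonoid.End R :=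
  match a with
  | some i => AddMonoid.End.mulLeft (e i)
  | none => 1 - ∑ i, AddMonoid.End.mulLeft (e i)

/-- component from the right -/
def CvuR (e : Fin s → R) (a : Option (Fin s)) : AddMonoid.End R :=
  match a with
  | some i => AddMonoid.End.mulRight (e i)
  | none => 1 - ∑ i, AddMonoid.End.mulRight (e i)

theorem Cvu_Ls (e : Fin s → R) (i : Fin s) (x : R) : CvuL e (some i) x = e i * x := rfl

theorem Cvu_Rs (e : Fin s → R) (i : Fin s) (x : R) : CvuR e (some i) x = x * e i := rfl

theorem Cvu_Ln (e : Fin s → R) (x : R) : CvuL e none x = x - ∑ i, e i * x := by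
  have h1 : (CvuL e none) x = x - (∑ i, AddMonoid.End.mulLeft (e i) : AddMonoid.End R) x := rfl
  rw [h1]
  congr 1
  exact AddMonoidHom.finset_sum_apply _ _ _

theorem Cvu_Rn (e : Fin s → R) (x : R) : CvuR e none x = x - ∑ i, x * e i := by
  have h1 : (CvuR e none) x = x - (∑ i, AddMonoid.End.mulRight (e i) : AddMonoid.End R) x := rfl
  rw [h1]
  congr 1
  exact AddMonoidHom.finset_sum_apply _ _ _

/-- the component -/
def Cvup (e : Fin s → R) (a b : Option (Fin s)) : AddMonoid.End R := CvuR e b * CvuL e a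

theorem Cvup_def (e : Fin s → R) (a b : Option (Fin s)) (x : R) :
    Cvup e a b x = CvuR e b (CvuL e a x) := rfl

theorem Cvu_Lm (e : Fin s → R) (a : Option (Fin s)) (x y : R) :
    CvuL e a (x * y) = CvuL e a x * y := by
  rcases a with _ | i
  · rw [Cvu_Ln, Cvu_Ln, sub_mul, Finset.sum_mul]
    congr 1
    exact Finset.sum_congr rfl fun i _ => (mul_assoc _ _ _).symm
  · exact (mul_assoc _ _ _).symm

theorem Cvu_Rm (e : Fin s → R) (a : Option (Fin s)) (x y : R) :
    CvuR e a (x * y) = x * CvuR e a y := by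
  rcases a with _ | i
  · rw [Cvu_Rn, Cvu_Rn, mul_sub, Finset.mul_sum]
    congr 1
    exact Finset.sum_congr rfl fun i _ => mul_assoc _ _ _
  · exact mul_assoc _ _ _

variable {e : Fin s → R}

theorem Cvu_Lt (he : Hm e) (a : Option (Fin s)) (x : R) (j : Fin s) :
    e j * CvuL e a x = if a = some j then CvuL e a x else 0 := by
  rcases a with _ | i
  · rw [if_neg (by simp), Cvu_Ln, mul_sub, Finset.mul_sum, Finset.sum_eq_single j, ← mul_assoc,
      he.idem, sub_self]
    · intro i _ hij
      rw [← mul_assoc, he.orth j i (Ne.symm hij), zero_mul]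
    · intro h
      exact absurd (Finset.mem_univ j) h
  · rw [Cvu_Ls, ← mul_assoc]
    by_cases h : i = j
    · subst h
      rw [if_pos rfl, he.idem]
    · rw [if_neg (by simpa using h), he.orth j i (Ne.symm h), zero_mul]

theorem Cvu_Rt (he : Hm e) (a : Option (Fin s)) (x : R) (j : Fin s) :
    CvuR e a x * e j = if a = some j then CvuR e a x else 0 := by
  rcases a with _ | i
  · rw [if_neg (by simp), Cvu_Rn, sub_mul, Finset.sum_mul, Finset.sum_eq_single j, mul_assoc,
      he.idem, sub_self]
    · intro i _ hij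
      rw [mul_assoc, he.orth i j hij, mul_zero]
    · intro h
      exact absurd (Finset.mem_univ j) h
  · rw [Cvu_Rs, mul_assoc]
    by_cases h : i = j
    · subst h
      rw [if_pos rfl, he.idem]
    · rw [if_neg (by simpa using h), he.orth i j h, mul_zero]

theorem Cvu_pc (he : Hm e) (a b : Option (Fin s)) (x : R) : Pc e a b (Cvup e a b x) := by
  refine ⟨fun j => ?_, fun j => Cvu_Rt he b _ j⟩
  rw [Cvup_def, ← Cvu_Rm, Cvu_Lt he]
  split_ifs with h
  · rfl
  · exact map_zero _

theorem Cvu_Ld (e : Fin s → R) (x : R) : ∑ a : Option (Fin s), CvuL e a x = x := by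
  rw [Fintype.sum_option, Cvu_Ln]
  simp only [Cvu_Ls]
  abel

theorem Cvu_Rd (e : Fin s → R) (x : R) : ∑ a : Option (Fin s), CvuR e a x = x := by
  rw [Fintype.sum_option, Cvu_Rn]
  simp only [Cvu_Rs]
  abel

theorem Cvu_Lo {a : Option (Fin s)} {x : R} (hx : ∀ j, e j * x = if a = some j then x else 0)
    (b : Option (Fin s)) : CvuL e b x = if a = b then x else 0 := by
  rcases b with _ | i
  · rw [Cvu_Ln]
    rcases a with _ | k
    · rw [if_pos rfl]
      simp [hx]
    · rw [if_neg (by simp)]
      simp [hx]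
  · rw [Cvu_Ls]
    exact hx i

theorem Cvu_Ro {a : Option (Fin s)} {x : R} (hx : ∀ j, x * e j = if a = some j then x else 0)
    (b : Option (Fin s)) : CvuR e b x = if a = b then x else 0 := by
  rcases b with _ | i
  · rw [Cvu_Rn]
    rcases a with _ | k
    · rw [if_pos rfl]
      simp [hx]
    · rw [if_neg (by simp)]
      simp [hx]
  · rw [Cvu_Rs]
    exact hx i

theorem Cvu_self {a b : Option (Fin s)} {x : R} (hx : Pc e a b x) : Cvup e a b x = x := by
  rw [Cvup_def, Cvu_Lo hx.1, if_pos rfl, Cvu_Ro hx.2, if_pos rfl]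

theorem Cvu_other {a b : Option (Fin s)} {x : R} (hx : Pc e a b x) {a' b' : Option (Fin s)}
    (h : ¬ (a = a' ∧ b = b')) : Cvup e a' b' x = 0 := by
  rw [Cvup_def, Cvu_Lo hx.1]
  by_cases ha : a = a'
  · rw [if_pos ha, Cvu_Ro hx.2, if_neg fun hb => h ⟨ha, hb⟩]
  · rw [if_neg ha, map_zero]

theorem Cvu_nls {ι : Type} (he : Hm e) (f : ι → R) (u : Finset ι) (h : ∀ i ∈ u, Nl (f i)) :
    Nl (∑ i ∈ u, f i) := by
  classical
  induction u using Finset.induction_on with
  | empty =>
    rw [Finset.sum_empty]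
    unfold Nl
    simp
  | insert i u hi ih =>
    rw [Finset.sum_insert hi]
    exact he.add _ _ (h i (Finset.mem_insert_self _ _))
      (ih fun j hj => h j (Finset.mem_insert_of_mem hj))

theorem Cvu_nneg {x : R} (h : Nl x) : Nl (-x) := by
  unfold Nl at h ⊢
  simp [h]

theorem Cvu_nl (he : Hm e) (a b : Option (Fin s)) {x : R} (hx : Nl x) : Nl (Cvup e a b x) := by
  have h1 : Nl (CvuL e a x) := by
    rcases a with _ | i
    · rw [Cvu_Ln, sub_eq_add_neg]
      exact he.add _ _ hx (Cvu_nneg (Cvu_nls he _ _ fun i _ => (he.mul _ _ hx).1))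
    · exact (he.mul _ _ hx).1
  rw [Cvup_def]
  rcases b with _ | i
  · rw [Cvu_Rn, sub_eq_add_neg]
    exact he.add _ _ h1 (Cvu_nneg (Cvu_nls he _ _ fun i _ => (he.mul _ _ h1).2))
  · exact (he.mul _ _ h1).2

theorem Cvu_jc (he : Hm e) (a b : Option (Fin s)) {x : R} (hx : Nl x) :
    Jc e a b (Cvup e a b x) := ⟨Cvu_pc he a b x, Cvu_nl he a b hx⟩

theorem Cvu_dec (e : Fin s → R) (x : R) :
    ∑ a : Option (Fin s), ∑ b : Option (Fin s), Cvup e a b x = x := by
  have h1 : ∀ a : Option (Fin s), ∑ b : Option (Fin s), Cvup e a b x = CvuL e a x := fun a =>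
    Cvu_Rd e _
  simp only [h1]
  exact Cvu_Ld e x

theorem Cvu_mid {b : Option (Fin s)} {x : R} (hx : ∀ j, x * e j = if b = some j then x else 0)
    (u : R) : x * CvuL e b u = x * u := by
  rcases b with _ | i
  · rw [Cvu_Ln, mul_sub, Finset.mul_sum]
    simp only [← mul_assoc, hx]
    simp
  · rw [Cvu_Ls, ← mul_assoc, hx, if_pos rfl]

theorem Cvu_prod (he : Hm e) (a b : Option (Fin s)) (y z : R) :
    Cvup e a b (y * z) = ∑ c : Option (Fin s), Cvup e a c y * Cvup e c b z := by
  have h1 : Cvup e a b (y * z) = CvuL e a y * CvuR e b z := by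
    rw [Cvup_def, Cvu_Lm, Cvu_Rm]
  rw [h1]
  conv_lhs => rw [← Cvu_Rd e (CvuL e a y), Finset.sum_mul]
  refine Finset.sum_congr rfl fun c _ => ?_
  have h2 : Cvup e c b z = CvuL e c (CvuR e b z) := by
    rw [Cvup_def]
    rcases c with _ | i
    · rw [Cvu_Ln, Cvu_Ln, map_sub, map_sum]
      congr 1
      exact Finset.sum_congr rfl fun i _ => Cvu_Rm e b _ _
    · exact Cvu_Rm e b _ _
  rw [h2, Cvup_def, Cvu_mid (Cvu_Rt he c _)]

/-- multiplication by a nil element from the left, all components -/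
theorem Cvu_left (he : Hm e) {a b : Option (Fin s)} {v : R} (hv : Pc e a b v)
    (h : ∀ d w, Jc e d a w → w * v = 0) {x : R} (hx : Nl x) : x * v = 0 := by
  conv_lhs => rw [← Cvu_dec e x]
  rw [Finset.sum_mul]
  refine Finset.sum_eq_zero fun d _ => ?_
  rw [Finset.sum_mul]
  refine Finset.sum_eq_zero fun c _ => ?_
  by_cases hc : c = a
  · subst hc
    exact h d _ (Cvu_jc he d c hx)
  · exact Rul_zero hc (Cvu_pc he d c x) hv

/-- multiplication by a nil element from the right, all components -/
theorem Cvu_right (he : Hm e) {a b : Option (Fin s)} {v : R} (hv : Pc e a b v)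
    (h : ∀ d w, Jc e b d w → v * w = 0) {x : R} (hx : Nl x) : v * x = 0 := by
  conv_lhs => rw [← Cvu_dec e x]
  rw [Finset.mul_sum]
  refine Finset.sum_eq_zero fun c _ => ?_
  rw [Finset.mul_sum]
  refine Finset.sum_eq_zero fun d _ => ?_
  by_cases hc : b = c
  · subst hc
    exact h d _ (Cvu_jc he b d hx)
  · exact Rul_zero hc hv (Cvu_pc he c d x)

theorem Cvu_loop {a b : Option (Fin s)} (hab : a ≠ b) {x : R} (hx : Pc e a b x) : Nl x := by
  unfold Nl
  rw [Rul_zero (Ne.symm hab) hx hx, zero_mul]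

/-- the components for a permuted frame -/
theorem Cvu_pj {n : ℕ} {v : ℕ → R} (π : Equiv.Perm (Fin s))
    (hv : ∀ i : Fin s, om n (v i) = e (π i)) (a b : Option (Fin s)) (x : R) :
    pj n s v a b x = Cvup e (a.map π) (b.map π) x := by
  have h1 : ∀ (a : Option (Fin s)) (y : R), lc (fun i => om n (v i)) a y = CvuL e (a.map π) y := by
    intro a y
    rcases a with _ | i
    · change y - ∑ i : Fin s, om n (v i) * y = CvuL e none y
      rw [Cvu_Ln]
      congr 1
      simp only [hv]
      exact Equiv.sum_comp π fun i => e i * y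
    · change om n (v i) * y = e (π i) * y
      rw [hv]
  have h2 : ∀ (a : Option (Fin s)) (y : R), rc (fun i => om n (v i)) a y = CvuR e (a.map π) y := by
    intro a y
    rcases a with _ | i
    · change y - ∑ i : Fin s, y * om n (v i) = CvuR e none y
      rw [Cvu_Rn]
      congr 1
      simp only [hv]
      exact Equiv.sum_comp π fun i => y * e i
    · change y * om n (v i) = y * e (π i)
      rw [hv]
  unfold pj
  rw [h1, h2]
  rfl

/-- components of elements of a subring which contains the idempotents -/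
theorem Cvu_mem {S : NonUnitalSubring R} (hS : ∀ i, e i ∈ S) (a b : Option (Fin s)) {x : R}
    (hx : x ∈ S) : Cvup e a b x ∈ S := by
  have h1 : CvuL e a x ∈ S := by
    rcases a with _ | i
    · rw [Cvu_Ln]
      exact sub_mem hx (sum_mem fun i _ => mul_mem (hS i) hx)
    · exact mul_mem (hS i) hx
  rw [Cvup_def]
  rcases b with _ | i
  · rw [Cvu_Rn]
    exact sub_mem h1 (sum_mem fun i _ => mul_mem h1 (hS i))
  · exact mul_mem h1 (hS i)

end components

end Pool.Agent.CRM
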