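import Pool.Agent.CRL.Defs

/-!
Campaign CRM: explicit lists of the critical rings in the varieties `x^3 = x^n` (problem MP_1bb14d_al).
Definitions.
-/

set_option autoImplicit false

namespace Pool.Agent.CRM

open Pool.Agent.CRR Pool.Agent.CRN Pool.Agent.CRK Pool.Agent.CRL

section defs

variable {R : Type} [NonUnitalRing R]

/-- The ring of operators on `R` which is generated by the multiplication by `t_i` from the left, if
`α = i`, and the multiplication by `t_j` from the right, if `β = j`. -/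
def Ops {s : ℕ} (t : Fin s → R) (α β : Option (Fin s)) : Subring (AddMonoid.End R) :=
  Subring.closure ({D | ∃ i, α = some i ∧ D = AddMonoid.End.mulLeft (t i)} ∪
    {D | ∃ j, β = some j ∧ D = AddMonoid.End.mulRight (t j)})

/-- `x` is pure: every `D x` is `p` times some `D' x` or generates `x`, that is, modulo `p` the
module generated by `x` over the operators is simple. -/
def Pur (p : ℕ) {s : ℕ} (t : Fin s → R) (α β : Option (Fin s)) (x : R) : Prop :=
  ∀ D ∈ Ops t α β, (∃ D' ∈ Ops t α β, D x = p • D' x) ∨ ∃ D' ∈ Ops t α β, D' (D x) = x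

/-- A pure nil element of `e_α R e_β`, `e_i = t_i^(3(n-3))`. -/
structure Arr (n p : ℕ) {s : ℕ} (t : Fin s → R) (α β : Option (Fin s)) (x : R) : Prop where
  pc : Pc (fun i => om n (t i)) α β x
  nl : Nl x
  pu : Pur p t α β x

/-- A nil element of `e_α R e_α` which commutes with `t_α`. -/
structure Lop (n : ℕ) {s : ℕ} (t : Fin s → R) (α : Option (Fin s)) (x : R) : Prop where
  pc : Pc (fun i => om n (t i)) α α x
  nl : Nl x
  cen : ∀ i, α = some i → t i * x = x * t i

/-- `R` has order a power of `p`, `H` is its least nonzero ideal, `t` is a frame. -/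
structure Pcx (n p s : ℕ) (t : Fin s → R) (H : AddSubgroup R) : Prop where
  pp : p.Prime
  pr : ∃ r : ℕ, ∀ x : R, (p ^ r) • x = 0
  lst : Lst R H
  fr : Frame R n s t

/-- If `α = i` then `p a_(m-1) ... a_0 z ≠ 0`, or `a_(m-1) ... a_0 z` becomes zero if a factor `a_k` is
replaced by `p e_i`. -/
def Pcd (n p : ℕ) {s : ℕ} (t : Fin s → R) (α : Option (Fin s)) (m : ℕ) (a : ℕ → R) (z : R) : Prop :=
  ∀ i, α = some i → p • pll a z m ≠ 0 ∨
    ∀ k, k < m → pll (Function.update a k (p • om n (t i))) z m = 0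

variable (R)

/-- `R` has a least nonzero ideal, and it is generated by a frame, a pure element `z` of `e_α R e_β`, `α ≠ β`,
and elements `a_0, ..., a_(m-1)` of the radical of `e_α R e_α` which commute with `t_α`, such that
`a_(m-1) ... a_0 z ≠ 0`, and `Pcd` holds. -/
def TyT (n : ℕ) : Prop := ∃ (p s : ℕ) (t : Fin s → R) (H : AddSubgroup R) (α β : Option (Fin s))
  (m : ℕ) (a : ℕ → R) (z : R), Pcx n p s t H ∧ α ≠ β ∧ (∀ k, k < m → Lop n t α (a k)) ∧
    Arr n p t α β z ∧ pll a z m ≠ 0 ∧ Pcd n p t α m a z ∧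
    NonUnitalSubring.closure (Set.range t ∪ {x | ∃ k, k < m ∧ x = a k} ∪ {z}) = ⊤

/-- `R` has a least nonzero ideal, and it is generated by a frame and pure elements `z` of `e_α R e_β`
and `z'` of `e_β R e_γ` with `z z' ≠ 0`; here `α ≠ β` or `β ≠ γ`; if `α = β` then `z` does not commute
with `t_α`, and if `β = γ` then `z'` does not commute with `t_β`. -/
def TyV (n : ℕ) : Prop := ∃ (p s : ℕ) (t : Fin s → R) (H : AddSubgroup R) (α β γ : Option (Fin s))
  (z z' : R), Pcx n p s t H ∧ (α ≠ β ∨ β ≠ γ) ∧ Arr n p t α β z ∧ Arr n p t β γ z' ∧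
    (α = β → ∃ i, α = some i ∧ z * t i ≠ t i * z) ∧
    (β = γ → ∃ i, β = some i ∧ z' * t i ≠ t i * z') ∧ z * z' ≠ 0 ∧
    NonUnitalSubring.closure (Set.range t ∪ {z, z'}) = ⊤

/-- `R` has a least nonzero ideal, and it is generated by a frame, pure elements `x` of `e_α R e_β` and
`y` of `e_β R e_α`, `α ≠ β`, and elements `a_0, ..., a_(m-1)`, `m ≥ 1`, of the radical of `e_α R e_α` which
commute with `t_α`, such that `a_(m-1) ... a_0 x y ≠ 0`, and `Pcd` holds for `x y`. -/
def TyL (n : ℕ) : Prop := ∃ (p s : ℕ) (t : Fin s → R) (H : AddSubgroup R) (α β : Option (Fin s))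
  (m : ℕ) (a : ℕ → R) (x y : R), Pcx n p s t H ∧ α ≠ β ∧ 1 ≤ m ∧ (∀ k, k < m → Lop n t α (a k)) ∧
    Arr n p t α β x ∧ Arr n p t β α y ∧ pll a (x * y) m ≠ 0 ∧ Pcd n p t α m a (x * y) ∧
    NonUnitalSubring.closure (Set.range t ∪ {u | ∃ k, k < m ∧ u = a k} ∪ {x, y}) = ⊤

/-- `R` has a least nonzero ideal, and it is generated by a frame, pure elements `x, z` of `e_α R e_β` and
`y` of `e_β R e_α`, `α ≠ β`, with `x y z ≠ 0`. -/
def TyE (n : ℕ) : Prop := ∃ (p s : ℕ) (t : Fin s → R) (H : AddSubgroup R) (α β : Option (Fin s))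
  (x y z : R), Pcx n p s t H ∧ α ≠ β ∧ Arr n p t α β x ∧ Arr n p t β α y ∧ Arr n p t α β z ∧
    x * y * z ≠ 0 ∧ NonUnitalSubring.closure (Set.range t ∪ {x, y, z}) = ⊤

/-- The path types. -/
def PthType (n : ℕ) : Prop := TyT R n ∨ TyV R n ∨ TyL R n ∨ TyE R n

/-- `R` is nilpotent, or a local ring with identity. -/
def LN : Prop := (∀ x : R, x * x * x = 0) ∨ ∃ e : R, Prm R e ∧ ∀ x, e * x = x ∧ x * e = x

variable {R}

/-! ### Definitions used only in the proofs -/

/-- `e_i` are orthogonal idempotents, and the nil elements are an ideal. -/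
structure Hm {s : ℕ} (e : Fin s → R) : Prop where
  idem : ∀ i, e i * e i = e i
  orth : ∀ i j, i ≠ j → e i * e j = 0
  add : ∀ x y : R, Nl x → Nl y → Nl (x + y)
  mul : ∀ r x : R, Nl x → Nl (r * x) ∧ Nl (x * r)

/-- `x` is a nil element of `e_α R e_β`. -/
def Jc {s : ℕ} (e : Fin s → R) (α β : Option (Fin s)) (x : R) : Prop := Pc e α β x ∧ Nl x

variable (R)

/-- The group generated by the products of two nil elements. -/
def J2 : AddSubgroup R := AddSubgroup.closure {w | ∃ a b : R, Nl a ∧ Nl b ∧ w = a * b}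

end defs

end Pool.Agent.CRM
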