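import Pool.Agent.CRM.Defs

/-!
Campaign CRM: more definitions for the proofs (problem MP_1bb14d_al).
-/

set_option autoImplicit false

namespace Pool.Agent.CRM

open Pool.Agent.CRR Pool.Agent.CRN Pool.Agent.CRK Pool.Agent.CRL

variable {R : Type} [NonUnitalRing R]

/-- An element with its source and target. -/
abbrev Itm (s : ℕ) (R : Type) : Type := Option (Fin s) × Option (Fin s) × R

/-- An index and an operator. -/
abbrev Dsi (R : Type) [NonUnitalRing R] : Type := ℕ × AddMonoid.End R

/-- The sequence `t_0, ..., t_(s-1), x_0, x_1, ...`. -/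
def vx {s : ℕ} (t : Fin s → R) (x : ℕ → R) : ℕ → R := fun i =>
  if h : i < s then t ⟨i, h⟩ else x (i - s)

/-- The situation in the proof that critical rings are of the given types: `φ` is a function of the third
class of campaign CRL, and `φ (t, x) ≠ 0` where `t` is a frame and the `x_k` are pure. -/
structure Fw (n p s b : ℕ) (H : AddSubgroup R) (φ : (ℕ → R) → R) (t : Fin s → R) (x : ℕ → R)
    (α β : ℕ → Option (Fin s)) : Prop where
  cy : Cy R n p
  lst : Lst R H
  gc : Gc n s b H φ
  fr : Frame R n s t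
  jc : ∀ k, Jc (fun i => om n (t i)) (α k) (β k) (x k)
  pur : ∀ k, Pur p t (α k) (β k) (x k)
  out : ∀ k, b ≤ k → x k = 0
  ne : φ (vx t x) ≠ 0

/-- The words of `L` are nonempty, have only the letters `< s + b` and contain all `s + k`, `k < b`. -/
def Lw (s b : ℕ) (L : List (ℤ × List ℕ)) : Prop :=
  ∀ q ∈ L, q.2 ≠ [] ∧ (∀ i ∈ q.2, i < s + b) ∧ ∀ k, k < b → s + k ∈ q.2

end Pool.Agent.CRM
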