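import Pool.Agent.CRM.Defs2

/-!
Campaign CRM: definitions for the proofs that the rings of the types are critical (problem MP_1bb14d_al).
-/

set_option autoImplicit false

namespace Pool.Agent.CRM

open Pool.Agent.CRR Pool.Agent.CRN Pool.Agent.CRK Pool.Agent.CRL

variable {R : Type} [NonUnitalRing R]

/-- The component of `x` in `e_γ R e_δ`, `e_i = om n (v i)`. -/
def pj (n s : ℕ) (v : ℕ → R) (γ δ : Option (Fin s)) (x : R) : R :=
  rc (fun i => om n (v i)) δ (lc (fun i => om n (v i)) γ x)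

/-- The component, or its commutator with `v_γ`. -/
def lf (n s : ℕ) (v : ℕ → R) (γ δ : Option (Fin s)) (tw : Bool) (x : R) : R :=
  match tw, γ with
  | true, some i => pj n s v γ δ x * v i - v i * pj n s v γ δ x
  | true, none => 0
  | false, _ => pj n s v γ δ x

/-- The path function. -/
def Pf (n s b q : ℕ) (γ δ : ℕ → Option (Fin s)) (tw : ℕ → Bool) (v : ℕ → R) : R :=
  q • wp ((List.range b).map fun k => lf n s v (γ k) (δ k) (tw k) (v (s + k)))

/-- The frame `v_0, ..., v_(s-1)` generates, up to the order, the same subrings as `t`. -/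
def Sam (n s : ℕ) (t : Fin s → R) (v : ℕ → R) : Prop :=
  ∃ π : Equiv.Perm (Fin s), ∀ i : Fin s, (∃ k, v i = pw (t (π i)) k) ∧
    (∃ k, t (π i) = pw (v i) k) ∧ om n (v i) = om n (t (π i))

/-- The letters `a_k` and `p e_α`. -/
def Cs (n p : ℕ) {s : ℕ} (t : Fin s → R) (α : Option (Fin s)) (m : ℕ) (a : ℕ → R) : Set R :=
  {c | (∃ k, k < m ∧ c = a k) ∨ ∃ i, α = some i ∧ c = p • om n (t i)}

/-- The data of `TyT`. -/
structure Tdt (n p s : ℕ) (t : Fin s → R) (H : AddSubgroup R) (α β : Option (Fin s)) (m : ℕ)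
    (a : ℕ → R) (z : R) : Prop where
  cy : Cy R n p
  cx : Pcx n p s t H
  ab : α ≠ β
  lo : ∀ k, k < m → Lop n t α (a k)
  ar : Arr n p t α β z
  ne : pll a z m ≠ 0
  cd : Pcd n p t α m a z
  gen : NonUnitalSubring.closure (Set.range t ∪ {x | ∃ k, k < m ∧ x = a k} ∪ {z}) = ⊤

/-- The data of `TyL`, also for `m = 0`. -/
structure Ldt (n p s : ℕ) (t : Fin s → R) (H : AddSubgroup R) (α β : Option (Fin s)) (m : ℕ)
    (a : ℕ → R) (x y : R) : Prop where
  cy : Cy R n p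
  cx : Pcx n p s t H
  ab : α ≠ β
  lo : ∀ k, k < m → Lop n t α (a k)
  ax : Arr n p t α β x
  ay : Arr n p t β α y
  ne : pll a (x * y) m ≠ 0
  cd : Pcd n p t α m a (x * y)
  gen : NonUnitalSubring.closure (Set.range t ∪ {u | ∃ k, k < m ∧ u = a k} ∪ {x, y}) = ⊤

/-- The data of `TyE`. -/
structure Edt (n p s : ℕ) (t : Fin s → R) (H : AddSubgroup R) (α β : Option (Fin s))
    (x y z : R) : Prop where
  cy : Cy R n p
  cx : Pcx n p s t H
  ab : α ≠ β
  ax : Arr n p t α β x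
  ay : Arr n p t β α y
  az : Arr n p t α β z
  ne : x * y * z ≠ 0
  gen : NonUnitalSubring.closure (Set.range t ∪ {x, y, z}) = ⊤

/-- The data of `TyV` for three different vertices. -/
structure Udt (n p s : ℕ) (t : Fin s → R) (H : AddSubgroup R) (α β γ : Option (Fin s))
    (z z' : R) : Prop where
  cy : Cy R n p
  cx : Pcx n p s t H
  ab : α ≠ β
  bg : β ≠ γ
  ag : α ≠ γ
  az : Arr n p t α β z
  az' : Arr n p t β γ z'
  ne : z * z' ≠ 0
  gen : NonUnitalSubring.closure (Set.range t ∪ {z, z'}) = ⊤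

/-- The data of `TyV` with a twisted loop `a` at the vertex `i`. -/
structure Xdt (n p s : ℕ) (t : Fin s → R) (H : AddSubgroup R) (i : Fin s) (γ : Option (Fin s))
    (a z : R) : Prop where
  cy : Cy R n p
  cx : Pcx n p s t H
  ig : some i ≠ γ
  aa : Arr n p t (some i) (some i) a
  tw : a * t i ≠ t i * a
  az : Arr n p t (some i) γ z
  ne : a * z ≠ 0
  gen : NonUnitalSubring.closure (Set.range t ∪ {a, z}) = ⊤

/-- The properties of the number `q` for `Tdt`. -/
structure Tq (n p s : ℕ) (t : Fin s → R) (α : Option (Fin s)) (m : ℕ) (a : ℕ → R) (z : R)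
    (q : ℕ) : Prop where
  ne : q • pll a z m ≠ 0
  pz : p • (q • pll a z m) = 0
  gt : ∀ (l : ℕ) (c : ℕ → R), (∀ j, j < l → c j ∈ Cs n p t α m a) → m < l → q • pll c z l = 0
  eq : ∀ c : ℕ → R, (∀ j, j < m → c j ∈ Cs n p t α m a) →
    q • pll c z m = 0 ∨ q • pll c z m = q • pll a z m ∨ q • pll c z m = -(q • pll a z m)
  pe : ∀ c : ℕ → R, (∀ j, j < m → c j ∈ Cs n p t α m a) →
    (∃ j, j < m ∧ ∃ i, α = some i ∧ c j = p • om n (t i)) → q • pll c z m = 0

/-- The properties of the number `q` for `Ldt`. -/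
structure Lq (n p s : ℕ) (t : Fin s → R) (α β : Option (Fin s)) (m : ℕ) (a : ℕ → R) (x y : R)
    (q : ℕ) : Prop where
  ne : q • pll a (x * y) m ≠ 0
  pz : ∀ D ∈ Ops t α β, ∀ D' ∈ Ops t β α, ∀ c : ℕ → R, (∀ j, j < m → c j ∈ Cs n p t α m a) →
    p • (q • pll c (D x * D' y) m) = 0
  gt : ∀ D ∈ Ops t α β, ∀ D' ∈ Ops t β α, ∀ (l : ℕ) (c : ℕ → R),
    (∀ j, j < l → c j ∈ Cs n p t α m a) → m < l → q • pll c (D x * D' y) l = 0
  pe : ∀ D ∈ Ops t α β, ∀ D' ∈ Ops t β α, ∀ c : ℕ → R, (∀ j, j < m → c j ∈ Cs n p t α m a) →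
    (∃ j, j < m ∧ ∃ i, α = some i ∧ c j = p • om n (t i)) → q • pll c (D x * D' y) m = 0

end Pool.Agent.CRM
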