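import Pool.Agent.CRM.Defs2

/-!
Campaign CRM: nilpotent critical rings and local critical rings (problem MP_1bb14d_al).  Definitions.
-/

set_option autoImplicit false

namespace Pool.Agent.CRM

open Pool.Agent.CRR Pool.Agent.CRN Pool.Agent.CRK Pool.Agent.CRL

variable {R : Type} [NonUnitalRing R]

/-- The sequence `x_0, ..., x_(g-1), 0, 0, ...`. -/
def xs {g : ℕ} (x : Fin g → R) : ℕ → R := fun i => if h : i < g then x ⟨i, h⟩ else 0

/-- The value at `x_0, ..., x_(g-1)` of the combination `L` of words. -/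
def Vg (L : List (ℤ × List ℕ)) {g : ℕ} (x : Fin g → R) : R := ev L (xs x)

/-- The value at `t` and `x_0, ..., x_(g-1)` of the combination `L` of words `t^d w`: the item `(c, d, w)` of `L`
is the word `w` with `d` letters `t` before it and the coefficient `c`. -/
def Vl (L : List (ℤ × ℕ × List ℕ)) {g : ℕ} (t : R) (x : Fin g → R) : R :=
  (L.map fun q => q.1 • wp (List.replicate q.2.1 t ++ q.2.2.map (xs x))).sum

/-- The group generated by the products of two nil elements and the nil elements of the subring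
generated by `t`. -/
def JW (t : R) : AddSubgroup R := AddSubgroup.closure ({w | ∃ a b, Nl a ∧ Nl b ∧ w = a * b} ∪
  {w | w ∈ NonUnitalSubring.closure ({t} : Set R) ∧ Nl w})

variable (R)

/-- The nilpotent type: `x^3 = 0`, `R` has a least nonzero ideal `H`, and for the minimal number `g` of
generators of `R` there is a combination `f` of words in `x_1, ..., x_g`, in which every `x_i` occurs once, twice
or three times (if the order of `R` is prime to 6 the words have length `≤ 5`), such that the values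
of `f` are in `H`, depend only on the `x_i` modulo `R^2`, are zero if the `x_i` do not generate `R`, and are not
all zero. -/
def NGen : Prop := (∀ x : R, x * x * x = 0) ∧ ∃ H : AddSubgroup R, Lst R H ∧
  ∃ (g : ℕ) (L : List (ℤ × List ℕ)),
    (∀ k, k < g → ∀ a : Fin k → R, NonUnitalSubring.closure (Set.range a) ≠ ⊤) ∧
    (∀ q ∈ L, q.2 ≠ [] ∧ (∀ i, i ∈ q.2 ↔ i < g) ∧ (∀ i, q.2.count i ≤ 3) ∧
      ((Nat.card R).Coprime 6 → q.2.length ≤ 5)) ∧
    (∀ x : Fin g → R, Vg L x ∈ H) ∧
    (∀ x y : Fin g → R, (∀ i, x i - y i ∈ Sq R) → Vg L x = Vg L y) ∧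
    (∀ x : Fin g → R, NonUnitalSubring.closure (Set.range x) ≠ ⊤ → Vg L x = 0) ∧
    ∃ x : Fin g → R, Vg L x ≠ 0

/-- The local type: `R` is a local ring with identity, it has a least nonzero ideal `H`, and there are
numbers `g` and `a_1, ..., a_g` and a combination `f` of words `t^d w`, `w` a word in `x_1, ..., x_g` in which every `x_i`
occurs once, twice or three times (if the order of `R` is prime to 6 then `w` has length `≤ 5`), such that
for all frames `t` and all nil elements `x_i` with `x_i t = t^(a_i + 1) x_i` the value `f(t, x)` is in `H`, depends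
only on the `x_i` modulo `JW t`, is zero if `t` and the `x_i` do not generate `R`, and is not always zero; here
`g ≤ (n - 3) k` if `R` is generated by `k` elements. -/
def LGen (n : ℕ) : Prop := (∃ e : R, Prm R e ∧ ∀ x, e * x = x ∧ x * e = x) ∧
  ∃ H : AddSubgroup R, Lst R H ∧ ∃ (g : ℕ) (a : Fin g → ℕ) (L : List (ℤ × ℕ × List ℕ)),
    (∀ (k : ℕ) (y : Fin k → R), NonUnitalSubring.closure (Set.range y) = ⊤ → g ≤ (n - 3) * k) ∧
    (∀ q ∈ L, q.2.1 ≤ n - 3 ∧ 1 ≤ q.2.1 + q.2.2.length ∧ (∀ i, i ∈ q.2.2 ↔ i < g) ∧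
      (∀ i, q.2.2.count i ≤ 3) ∧ ((Nat.card R).Coprime 6 → q.2.2.length ≤ 5)) ∧
    (∀ (t : R) (x : Fin g → R), Frame R n 1 (fun _ => t) →
      (∀ i, Nl (x i) ∧ x i * t = pw t (a i) * x i) →
      Vl L t x ∈ H ∧
      (∀ y : Fin g → R, (∀ i, Nl (y i) ∧ y i * t = pw t (a i) * y i) →
        (∀ i, x i - y i ∈ JW t) → Vl L t x = Vl L t y) ∧
      (NonUnitalSubring.closure ({t} ∪ Set.range x) ≠ ⊤ → Vl L t x = 0)) ∧
    ∃ (t : R) (x : Fin g → R), Frame R n 1 (fun _ => t) ∧
      (∀ i, Nl (x i) ∧ x i * t = pw t (a i) * x i) ∧ Vl L t x ≠ 0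

end Pool.Agent.CRM
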