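import Pool.Agent.CRM.Defs4

/-!
Campaign CRM: nilpotent critical rings and local critical rings, second form (problem MP_1bb14d_al).
Definitions.
-/

set_option autoImplicit false

namespace Pool.Agent.CRM

open Pool.Agent.CRR Pool.Agent.CRN Pool.Agent.CRK Pool.Agent.CRL

variable (R : Type) [NonUnitalRing R]

/-- `J^2 + p R`: the group generated by the products of two nil elements and the elements `p a`. -/
def KJ (p : ℕ) : AddSubgroup R := AddSubgroup.closure
  ({w | ∃ a b, Nl a ∧ Nl b ∧ w = a * b} ∪ {w | ∃ a, w = p • a})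

/-- The nilpotent type: `x^3 = 0`, the order of `R` is a power of a prime `p`, `R` has a least nonzero ideal `H`,
it is generated by some `g` elements, and there is a combination `f` of words in `x_1, ..., x_g`, in which every
`x_i` occurs once, twice or three times (if the order of `R` is prime to 6 the words have length `≤ 5`), such
that all values of `f` are in `H`, not all are zero, and a value `f(x_1, ..., x_g)` does not change if `x_j` is
replaced by `x_j + y`, `y` an element of `R^2 + p R` plus a combination of the `x_i`, `i < j`. -/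
def NFl : Prop := (∀ x : R, x * x * x = 0) ∧ ∃ (p : ℕ) (H : AddSubgroup R),
  p.Prime ∧ (∃ r : ℕ, ∀ x : R, (p ^ r) • x = 0) ∧ Lst R H ∧ ∃ (g : ℕ) (L : List (ℤ × List ℕ)),
    (∃ x : Fin g → R, NonUnitalSubring.closure (Set.range x) = ⊤) ∧
    (∀ q ∈ L, q.2 ≠ [] ∧ (∀ i, i ∈ q.2 ↔ i < g) ∧ (∀ i, q.2.count i ≤ 3) ∧
      ((Nat.card R).Coprime 6 → q.2.length ≤ 5)) ∧
    (∀ x : Fin g → R, Vg L x ∈ H ∧ ∀ (j : Fin g) (y : R),
      y ∈ KJ R p ⊔ AddSubgroup.closure {w | ∃ i, i < j ∧ w = x i} →
      Vg L (Function.update x j (x j + y)) = Vg L x) ∧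
    ∃ x : Fin g → R, Vg L x ≠ 0

variable {R} in
/-- `t` is a frame, the `x_i` are nil elements with `x_i t = t^(a_i + 1) x_i`. -/
def Ty (n : ℕ) {g : ℕ} (a : Fin g → ℕ) (t : R) (x : Fin g → R) : Prop :=
  Frame R n 1 (fun _ => t) ∧ ∀ i, Nl (x i) ∧ x i * t = pw t (a i) * x i

/-- The local type: `R` is a local ring with identity, its order is a power of a prime `p`, it has a least
nonzero ideal `H`, and there are numbers `g`, `a_1, ..., a_g` and a combination `f` of words `t^d w`, `d ≤ n - 3`, `w` a word in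
`x_1, ..., x_g` in which every `x_i` occurs once, twice or three times (if the order of `R` is prime to 6 then `w` has
length `≤ 5`), such that `R` is generated by some `t, x_1, ..., x_g`, `t` a frame, `x_i` a nil element with
`x_i t = t^(a_i + 1) x_i`, and for all such `t, x_1, ..., x_g` (generating `R` or not) the value `f(t, x)` is in `H`, is not always
zero, and does not change if `x_j` is replaced by `x_j + y`, `y` a nil element with `y t = t^(a_j + 1) y` which is an
element of `J^2 + p R` plus a sum of elements `u x_i`, `i < j`, `u` in the subring generated by `t`; here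
`g ≤ (n - 3) k` if `R` is generated by `k` elements. -/
def LFl (n : ℕ) : Prop := (∃ e : R, Prm R e ∧ ∀ x, e * x = x ∧ x * e = x) ∧
  ∃ (p : ℕ) (H : AddSubgroup R), p.Prime ∧ (∃ r : ℕ, ∀ x : R, (p ^ r) • x = 0) ∧ Lst R H ∧
  ∃ (g : ℕ) (a : Fin g → ℕ) (L : List (ℤ × ℕ × List ℕ)),
    (∀ (k : ℕ) (y : Fin k → R), NonUnitalSubring.closure (Set.range y) = ⊤ → g ≤ (n - 3) * k) ∧
    (∃ (t : R) (x : Fin g → R), Ty n a t x ∧ NonUnitalSubring.closure ({t} ∪ Set.range x) = ⊤) ∧
    (∀ q ∈ L, q.2.1 ≤ n - 3 ∧ 1 ≤ q.2.1 + q.2.2.length ∧ (∀ i, i ∈ q.2.2 ↔ i < g) ∧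
      (∀ i, q.2.2.count i ≤ 3) ∧ ((Nat.card R).Coprime 6 → q.2.2.length ≤ 5)) ∧
    (∀ (t : R) (x : Fin g → R), Ty n a t x → Vl L t x ∈ H ∧ ∀ (j : Fin g) (y : R),
      Nl y → y * t = pw t (a j) * y →
      y ∈ KJ R p ⊔ AddSubgroup.closure
        {w | ∃ i, i < j ∧ ∃ u ∈ NonUnitalSubring.closure ({t} : Set R), w = u * x i} →
      Vl L t (Function.update x j (x j + y)) = Vl L t x) ∧
    ∃ (t : R) (x : Fin g → R), Ty n a t x ∧ Vl L t x ≠ 0

end Pool.Agent.CRM
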