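import Pool.Agent.CRM.DopA

/-!
Campaign CRM, module DolA: lemmas for the fourth shape (modules Dol, Fcl).
-/

set_option autoImplicit false

namespace Pool.Agent.CRM

open Pool.Agent.CRR Pool.Agent.CRN Pool.Agent.CRK Pool.Agent.CRL

section

variable {R : Type} [NonUnitalRing R] [Finite R] {n p s : ℕ} {t : Fin s → R}

theorem Dol_shape (hW : St_Wcl) (hC : Cy R n p) (hF : Frame R n s t) {b : ℕ}
    {α β : ℕ → Option (Fin s)} {A B : Option (Fin s)} {k₁ k₂ : ℕ} {κ : List ℕ} (hAB : A ≠ B)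
    (hk₁ : k₁ < b) (hk₂ : k₂ < b) (hα₁ : α k₁ = A) (hβ₁ : β k₁ = B) (hα₂ : α k₂ = B)
    (hβ₂ : β k₂ = A) (hl : ∀ k, k < b → k ≠ k₁ → k ≠ k₂ → α k = A ∧ β k = A) (hκ : κ.Nodup)
    (hκ0 : κ ≠ []) (hκ' : ∀ k, k ∈ κ ↔ k < b ∧ k ≠ k₁ ∧ k ≠ k₂) {x : ℕ → R}
    (hx : ∀ k, Jc (fun i => om n (t i)) (α k) (β k) (x k)) {ds : List (Dsi R)}
    (hds : ∀ d ∈ ds, d.2 ∈ Ops t (α d.1) (β d.1)) (hks : ∀ k, k ∈ ds.map Prod.fst ↔ k < b)
    (hne : wp (ds.map fun d => d.2 (x d.1)) ≠ 0) :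
    ∃ (ds₁ ds₂ : List (Dsi R)) (D₁ D₂ : AddMonoid.End R),
      ds = ds₁ ++ (k₁, D₁) :: (k₂, D₂) :: ds₂ ∧ ((ds₁ ++ ds₂).map Prod.fst).Perm κ := by
  have hlt : ∀ d ∈ ds, d.1 < b := fun d hd => (hks d.1).1 (List.mem_map_of_mem hd)
  have h12 : k₁ ≠ k₂ := by
    rintro rfl
    exact hAB (hα₁.symm.trans hα₂)
  have n1 : α k₁ ≠ β k₁ := by
    rw [hα₁, hβ₁]
    exact hAB
  have n2 : α k₂ ≠ β k₂ := by
    rw [hα₂, hβ₂]
    exact hAB.symm
  have h0 : ∀ k, k < b → α k ≠ β k → k = k₁ ∨ k = k₂ := by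
    intro k hk h
    by_contra h'
    push Not at h'
    exact h ((hl k hk h'.1 h'.2).1.trans (hl k hk h'.1 h'.2).2.symm)
  obtain ⟨k₃, hk₃⟩ := List.exists_mem_of_ne_nil κ hκ0
  have h3 := (hκ' k₃).1 hk₃
  have h3a := (hl k₃ h3.1 h3.2.1 h3.2.2).1
  have h3b := (hl k₃ h3.1 h3.2.1 h3.2.2).2
  have l3 : α k₃ = β k₃ := h3a.trans h3b.symm
  have m1 := (hks k₁).2 hk₁
  have m2 := (hks k₂).2 hk₂
  have m3 := (hks k₃).2 h3.1
  have hex : ∃ d ∈ ds, α d.1 ≠ β d.1 := by
    obtain ⟨d, hd, h⟩ := List.mem_map.1 m1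
    exact ⟨d, hd, by rw [h]; exact n1⟩
  -- an index of a loop list is a loop
  have hlp : ∀ (ds' : List (Dsi R)) (u : Option (Fin s)), (∀ c ∈ ds', α c.1 = u ∧ β c.1 = u) →
      ∀ k ∈ ds'.map Prod.fst, α k = u ∧ β k = u := by
    intro ds' u h k hk
    obtain ⟨c, hc, rfl⟩ := List.mem_map.1 hk
    exact h c hc
  have hlq : ∀ (ds' : List (Dsi R)) (u : Option (Fin s)), (∀ c ∈ ds', α c.1 = u ∧ β c.1 = u) →
      ∀ k, α k ≠ β k → k ∉ ds'.map Prod.fst := by
    intro ds' u h k hk hk'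
    obtain ⟨h1, h2⟩ := hlp ds' u h k hk'
    exact hk (h1.trans h2.symm)
  rcases hW n p R hC s t hF α β x hx ds hds hne hex with
    ⟨ds', d, rfl, hd, hc, hn⟩ | ⟨d, ds', rfl, hd, hc, hn⟩ | ⟨d, d', rfl, hd, hd', hd''⟩ |
    ⟨ds₁, d, d', ds₂, rfl, hd, hd', hd'', hnn, hc, hn⟩ | ⟨d₁, d₂, d₃, rfl, hd, hd', hd'', e1, e2, -⟩
  · rw [List.map_append, List.mem_append, List.map_singleton, List.mem_singleton] at m1 m2
    have q1 := m1.resolve_left (hlq ds' _ hc _ n1)
    have q2 := m2.resolve_left (hlq ds' _ hc _ n2)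
    exact absurd (q1.trans q2.symm) h12
  · rw [List.map_cons, List.mem_cons] at m1 m2
    have q1 := m1.resolve_right (hlq ds' _ hc _ n1)
    have q2 := m2.resolve_right (hlq ds' _ hc _ n2)
    exact absurd (q1.trans q2.symm) h12
  · simp only [List.map_cons, List.map_nil, List.mem_cons, List.not_mem_nil, or_false] at m3
    rcases m3 with m3 | m3
    · exact absurd (m3 ▸ l3) hd
    · exact absurd ((m3 ▸ l3 : α d'.1 = β d'.1).symm.trans hd') hd''
  · have hdn' : α d'.1 ≠ β d'.1 := by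
      rw [hd', hd'']
      exact hd.symm
    have m3' : k₃ ∈ (ds₁ ++ ds₂).map Prod.fst := by
      simp only [List.map_append, List.map_cons, List.mem_append, List.mem_cons] at m3 ⊢
      rcases m3 with m3 | m3 | m3 | m3
      · exact Or.inl m3
      · exact absurd (m3 ▸ l3) hd
      · exact absurd (m3 ▸ l3) hdn'
      · exact Or.inr m3
    have hdA : α d.1 = A := ((hlp _ _ hc k₃ m3').1.symm.trans h3a)
    have hd1 : d.1 = k₁ := by
      rcases h0 d.1 (hlt d (by simp)) hd with h | h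
      · exact h
      · rw [h, hα₂] at hdA
        exact absurd hdA.symm hAB
    have hdB : α d'.1 = B := by rw [hd', hd1, hβ₁]
    have hd2 : d'.1 = k₂ := by
      rcases h0 d'.1 (hlt d' (by simp)) hdn' with h | h
      · rw [h, hα₁] at hdB
        exact absurd hdB hAB
      · exact h
    refine ⟨ds₁, ds₂, d.2, d'.2, by rw [← hd1, ← hd2], ?_⟩
    rw [List.perm_ext_iff_of_nodup hn hκ]
    intro k
    rw [hκ' k]
    constructor
    · intro hk
      have hk' := hlp _ _ hc k hk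
      refine ⟨(hks k).1 ?_, ?_, ?_⟩
      · simp only [List.map_append, List.map_cons, List.mem_append, List.mem_cons] at hk ⊢
        rcases hk with hk | hk
        · exact Or.inl hk
        · exact Or.inr (Or.inr (Or.inr hk))
      · rintro rfl
        exact n1 (hk'.1.trans hk'.2.symm)
      · rintro rfl
        exact n2 (hk'.1.trans hk'.2.symm)
    · rintro ⟨hk, hk1, hk2⟩
      have h1 := (hks k).2 hk
      simp only [List.map_append, List.map_cons, List.mem_append, List.mem_cons] at h1 ⊢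
      rcases h1 with h1 | h1 | h1 | h1
      · exact Or.inl h1
      · exact absurd (h1.trans hd1) hk1
      · exact absurd (h1.trans hd2) hk2
      · exact Or.inr h1
  · simp only [List.map_cons, List.map_nil, List.mem_cons, List.not_mem_nil, or_false] at m3
    rcases m3 with m3 | m3 | m3
    · exact absurd (m3 ▸ l3) hd
    · have h : α d₂.1 = β d₂.1 := m3 ▸ l3
      rw [hd', hd''] at h
      exact absurd h.symm hd
    · have h : α d₃.1 = β d₃.1 := m3 ▸ l3
      rw [e1, e2] at h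
      exact absurd h hd

theorem Dol_val (hA : St_Alp) (hC : Cy R n p) (hF : Frame R n s t) {A B : Option (Fin s)}
    (hAB : A ≠ B) {κ : List ℕ} {ds₁ ds₂ : List (Dsi R)}
    (hp : ((ds₁ ++ ds₂).map Prod.fst).Perm κ)
    (hn : κ.Nodup) (hds : ∀ d ∈ ds₁ ++ ds₂, d.2 ∈ Ops t A A) :
    ∃ (g : ℕ → AddMonoid.End R) (ε : ℤ), (∀ k ∈ κ, ∃ d ∈ ds₁ ++ ds₂, d.1 = k ∧ d.2 = g k) ∧
      ∀ (y : ℕ → R), (∀ k ∈ κ, Jc (fun i => om n (t i)) A A (y k)) → ∀ z w,
      Jc (fun i => om n (t i)) A B z → Jc (fun i => om n (t i)) B A w →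
      wp (ds₁.map (fun d => d.2 (y d.1)) ++ z :: w :: ds₂.map (fun d => d.2 (y d.1))) =
        ε • wp (κ.map (fun k => g k (y k)) ++ [z, w]) := by
  obtain ⟨g, hg⟩ := Dop_choice (E := AddMonoid.End R) (ds₁ ++ ds₂) (hp.nodup_iff.2 hn)
  obtain ⟨ε, -, hε⟩ := (hA R s (fun i => om n (t i)) (Dop_hm hC hF) A B hAB).2
    (ds₁.map Prod.fst) (ds₂.map Prod.fst) κ (by rwa [← List.map_append])
  refine ⟨g, ε, ?_, ?_⟩
  · intro k hk
    obtain ⟨d, hd, h⟩ := List.mem_map.1 (hp.mem_iff.2 hk)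
    exact ⟨d, hd, h, by rw [← h, hg d hd]⟩
  · intro y hy z w hz hw
    have h1 : ds₁.map (fun d => d.2 (y d.1)) = (ds₁.map Prod.fst).map (fun k => g k (y k)) := by
      rw [List.map_map]
      apply List.map_congr_left
      intro d hd
      simp only [Function.comp]
      rw [hg d (List.mem_append_left _ hd)]
    have h2 : ds₂.map (fun d => d.2 (y d.1)) = (ds₂.map Prod.fst).map (fun k => g k (y k)) := by
      rw [List.map_map]
      apply List.map_congr_left
      intro d hd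
      simp only [Function.comp]
      rw [hg d (List.mem_append_right _ hd)]
    rw [h1, h2]
    refine hε (fun k => g k (y k)) z w ?_ hz hw
    intro k hk
    rw [← List.map_append] at hk
    obtain ⟨d, hd, rfl⟩ := List.mem_map.1 hk
    rw [hg d hd]
    exact Dop_jc hC hF (hds d hd) (hy _ (hp.mem_iff.1 hk))

theorem Dol_cen (hC : Cy R n p) (hF : Frame R n s t) {B : Option (Fin s)} {i : Fin s}
    (hAB : some i ≠ B) {x w : R} (hx : Jc (fun i => om n (t i)) (some i) B x)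
    (hw : Jc (fun i => om n (t i)) B (some i) w) (y : ℕ → R) : ∀ κ : List ℕ,
    (∀ k ∈ κ, Lop n t (some i) (y k)) → ∀ a, Lop n t (some i) a →
      a * (wp (κ.map y ++ [x * w]) * t i) = a * (t i * wp (κ.map y ++ [x * w]))
  | [], _, a, ha => by
    have he := Dop_hm hC hF
    have ha' : Jc (fun i => om n (t i)) (some i) (some i) a := ⟨ha.pc, ha.nl⟩
    have h1 := (thm_Rul R s _ he _ _ hAB).2.2.2.1 a 0 x (w * t i) ha' Dop_jc_zero hx
      (Dop_jc hC hF (Dop_memR rfl) hw)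
    have h2 := (thm_Rul R s _ he _ _ hAB).2.2.2.1 (t i * a) 0 x w
      (Dop_jc hC hF (Dop_memL rfl) ha') Dop_jc_zero hx hw
    change a * (x * w * t i) = a * (t i * (x * w))
    have h3 : a * (x * w * t i) = a * x * (w * t i) := by simp only [mul_assoc]
    have h4 : x * (w * t i) * a = x * w * (t i * a) := by simp only [mul_assoc]
    rw [h3, h1.1, h4, ← h2.1, ha.cen i rfl]
    simp only [mul_assoc]
  | k :: κ, h, a, _ => by
    have hk := h k List.mem_cons_self
    have ih := Dol_cen hC hF hAB hx hw y κ (fun k' hk' => h k' (List.mem_cons_of_mem _ hk'))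
      (y k) hk
    rw [List.map_cons, List.cons_append, Dop_wp_cons _ _ (by simp), mul_assoc (y k), ih,
      ← mul_assoc (y k) (t i), ← hk.cen i rfl]
    simp only [mul_assoc]

theorem Dol_cen' (hC : Cy R n p) (hF : Frame R n s t) {B : Option (Fin s)} {i : Fin s}
    (hAB : some i ≠ B) {x w : R} (hx : Jc (fun i => om n (t i)) (some i) B x)
    (hw : Jc (fun i => om n (t i)) B (some i) w) (y : ℕ → R) : ∀ κ : List ℕ, κ ≠ [] →
    (∀ k ∈ κ, Lop n t (some i) (y k)) → DopC t (some i) (wp (κ.map y ++ [x * w]))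
  | [], h0, _ => absurd rfl h0
  | k :: κ, _, h => by
    intro j hj
    obtain rfl : i = j := Option.some.inj hj
    have hk := h k List.mem_cons_self
    rw [List.map_cons, List.cons_append, Dop_wp_cons _ _ (by simp), mul_assoc (y k),
      Dol_cen hC hF hAB hx hw y κ (fun k' hk' => h k' (List.mem_cons_of_mem _ hk')) (y k) hk,
      ← mul_assoc, ← mul_assoc, hk.cen i rfl]

end

end Pool.Agent.CRM
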