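import Pool.Agent.CRM.Stc
import Pool.Agent.CRM.Rul
import Pool.Agent.CRN.Pca
import Pool.Agent.CRL.All

/-!
Campaign CRM, module Fai: the corner `e_α R e_α` acts faithfully on `e_α R e_β` (helper52).
-/

set_option autoImplicit false

namespace Pool.Agent.CRM

open Pool.Agent.CRR Pool.Agent.CRN Pool.Agent.CRK Pool.Agent.CRL

section

variable {R : Type} [NonUnitalRing R] {s : ℕ} {e : Fin s → R}

/-- a left multiple of a homogeneous element is a sum of homogeneous multiples. -/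
theorem Fai_l (h1 : ∀ i, e i * e i = e i) (h2 : ∀ i j, i ≠ j → e i * e j = 0)
    {α β : Option (Fin s)} (S : AddSubgroup R) {x : R} (hx : Pc e α β x)
    (h : ∀ (γ : Option (Fin s)) (c : R), Pc e γ α c → c * x ∈ S) (r : R) : r * x ∈ S := by
  obtain ⟨q1, q2, -, -, -⟩ := CRN.thm_Pca R s e h1 h2
  obtain ⟨c, hc, hs, -⟩ := q2 r
  rw [← hs, Finset.sum_mul]
  refine sum_mem fun γ _ => ?_
  rw [Finset.sum_mul]
  refine sum_mem fun δ _ => ?_
  by_cases hd : δ = α
  · subst hd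
    exact h γ _ (hc γ δ)
  · rw [(q1 _ _ _ _ _ _ (hc γ δ) hx).2 hd]
    exact S.zero_mem

/-- a right multiple of a homogeneous element is a sum of homogeneous multiples. -/
theorem Fai_r (h1 : ∀ i, e i * e i = e i) (h2 : ∀ i j, i ≠ j → e i * e j = 0)
    {α β : Option (Fin s)} (S : AddSubgroup R) {x : R} (hx : Pc e α β x)
    (h : ∀ (δ : Option (Fin s)) (c : R), Pc e β δ c → x * c ∈ S) (r : R) : x * r ∈ S := by
  obtain ⟨q1, q2, -, -, -⟩ := CRN.thm_Pca R s e h1 h2
  obtain ⟨c, hc, hs, -⟩ := q2 r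
  rw [← hs, Finset.mul_sum]
  refine sum_mem fun γ _ => ?_
  rw [Finset.mul_sum]
  refine sum_mem fun δ _ => ?_
  by_cases hd : γ = β
  · subst hd
    exact h δ _ (hc γ δ)
  · rw [(q1 _ _ _ _ _ _ hx (hc γ δ)).2 (Ne.symm hd)]
    exact S.zero_mem

/-- an element with two different targets is `0`. -/
theorem Fai_two {α β γ δ : Option (Fin s)} (h : β ≠ δ) {x : R} (hx : Pc e α β x)
    (hy : Pc e γ δ x) : x = 0 := by
  rcases β with _ | i
  · rcases δ with _ | j
    · exact absurd rfl h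
    · have h1 := hy.2 j
      rw [if_pos rfl] at h1
      have h2 := hx.2 j
      rw [if_neg (by simp)] at h2
      rw [← h1, h2]
  · have h1 := hx.2 i
    rw [if_pos rfl] at h1
    have h2 := hy.2 i
    rw [if_neg (fun h' => h h'.symm)] at h2
    rw [← h1, h2]

/-- the group `e_α R e_β`. -/
def FaiM (e : Fin s → R) (α β : Option (Fin s)) : AddSubgroup R where
  carrier := {x | Pc e α β x}
  zero_mem' := by
    refine ⟨fun i => ?_, fun j => ?_⟩ <;> simp
  add_mem' := fun hx hy => Rul_add hx hy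
  neg_mem' := fun hx => Rul_neg hx

/-- the elements of `e_α R e_α` which annihilate `e_α R e_β`. -/
def FaiK (e : Fin s → R) (α β : Option (Fin s)) : AddSubgroup R where
  carrier := {y | Pc e α α y ∧ ∀ x, Pc e α β x → y * x = 0}
  zero_mem' := by
    refine ⟨⟨fun i => ?_, fun j => ?_⟩, fun x _ => zero_mul x⟩ <;> simp
  add_mem' := by
    rintro a b ⟨ha, ha'⟩ ⟨hb, hb'⟩
    refine ⟨Rul_add ha hb, fun x hx => ?_⟩
    rw [add_mul, ha' x hx, hb' x hx, add_zero]
  neg_mem' := by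
    rintro a ⟨ha, ha'⟩
    refine ⟨Rul_neg ha, fun x hx => ?_⟩
    rw [neg_mul, ha' x hx, neg_zero]

/-- if there is a least nonzero ideal, and only the components `e_γ R e_γ` and `e_α R e_β` are not `0`,
then the action is faithful. -/
theorem Fai_key (h1 : ∀ i, e i * e i = e i) (h2 : ∀ i j, i ≠ j → e i * e j = 0)
    {α β : Option (Fin s)} (hab : α ≠ β) {H : AddSubgroup R} (hH : Lst R H)
    (hM : ∃ z, Pc e α β z ∧ z ≠ 0)
    (h4 : ∀ γ δ x, γ ≠ δ → ¬ (γ = α ∧ δ = β) → Pc e γ δ x → x = 0) :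
    ∀ y, Pc e α α y → (∀ x, Pc e α β x → y * x = 0) → y = 0 := by
  obtain ⟨-, hHn, hHm⟩ := hH
  have hMI : Idl R (FaiM e α β) := by
    intro r x hx
    have hx' : Pc e α β x := hx
    refine ⟨Fai_l h1 h2 _ hx' (fun γ c hc => ?_) r, Fai_r h1 h2 _ hx' (fun δ c hc => ?_) r⟩
    · by_cases hg : γ = α
      · subst hg
        exact Rul_mul hc hx'
      · rw [h4 γ α c hg (fun h => hab h.2) hc, zero_mul]
        exact AddSubgroup.zero_mem _
    · by_cases hd : δ = β
      · subst hd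
        exact Rul_mul hx' hc
      · rw [h4 β δ c (Ne.symm hd) (fun h => hab h.1.symm) hc, mul_zero]
        exact AddSubgroup.zero_mem _
  have hMn : FaiM e α β ≠ ⊥ := by
    obtain ⟨z, hz, hz0⟩ := hM
    intro h
    have hz' : z ∈ FaiM e α β := hz
    rw [h, AddSubgroup.mem_bot] at hz'
    exact hz0 hz'
  have hKI : Idl R (FaiK e α β) := by
    rintro r y hy
    have hy' : Pc e α α y ∧ ∀ x, Pc e α β x → y * x = 0 := hy
    obtain ⟨hy1, hy2⟩ := hy'
    refine ⟨Fai_l h1 h2 _ hy1 (fun γ c hc => ?_) r, Fai_r h1 h2 _ hy1 (fun δ c hc => ?_) r⟩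
    · by_cases hg : γ = α
      · subst hg
        refine ⟨Rul_mul hc hy1, fun x hx => ?_⟩
        rw [mul_assoc, hy2 x hx, mul_zero]
      · rw [h4 γ α c hg (fun h => hab h.2) hc, zero_mul]
        exact AddSubgroup.zero_mem _
    · by_cases hd : δ = α
      · subst hd
        refine ⟨Rul_mul hy1 hc, fun x hx => ?_⟩
        rw [mul_assoc, hy2 _ (Rul_mul hc hx)]
      · by_cases hd' : δ = β
        · subst hd'
          rw [hy2 c hc]
          exact AddSubgroup.zero_mem _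
        · rw [h4 α δ c (Ne.symm hd) (fun h => hd' h.2) hc, mul_zero]
          exact AddSubgroup.zero_mem _
  intro y hy1 hy2
  by_contra hy0
  have hKn : FaiK e α β ≠ ⊥ := by
    intro h
    have hy' : y ∈ FaiK e α β := ⟨hy1, hy2⟩
    rw [h, AddSubgroup.mem_bot] at hy'
    exact hy0 hy'
  apply hHn
  rw [eq_bot_iff]
  intro x hx
  have hx1 : Pc e α β x := hHm _ hMI hMn hx
  have hx2 : Pc e α α x ∧ _ := hHm _ hKI hKn hx
  exact AddSubgroup.mem_bot.2 (Fai_two (Ne.symm hab) hx1 hx2.1)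

end

theorem thm_Fai (hSpt : St_Spt) (hWst : St_Wst) (hRul : St_Rul) : St_Fai := by
  intro n p s R _ _ t H α β m a z T
  obtain ⟨hP, -, -⟩ := fpr n p R T.cy s t T.cx.fr
  obtain ⟨J, hJ, hJ2⟩ := jil n T.cy.n4 R T.cy.inM T.cy.nt
  have he : Hm (fun i => om n (t i)) := by
    refine ⟨fun i => (hP.prm i).1, hP.orth, fun x y hx hy => ?_, fun r x hx => ?_⟩
    · exact (hJ2 _).1 (J.add_mem ((hJ2 x).2 hx) ((hJ2 y).2 hy))
    · have h := hJ r x ((hJ2 x).2 hx)
      exact ⟨(hJ2 _).1 h.1, (hJ2 _).1 h.2⟩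
  obtain ⟨-, -, -, h4, -⟩ := hSpt n p s R t H α β m a z T
  have hz0 : z ≠ 0 := by
    intro h
    apply T.ne
    have h0 : ∀ k, pll a (0 : R) k = 0 := by
      intro k
      induction k with
      | zero => rfl
      | succ k ih => show a k * pll a 0 k = 0; rw [ih, mul_zero]
    rw [h]
    exact h0 m
  have hk := Fai_key he.idem he.orth T.ab T.cx.lst ⟨z, T.ar.pc, hz0⟩ h4
  refine ⟨hk, fun hα y hy => ?_⟩
  refine hk (p • y) ⟨fun i => ?_, fun i => ?_⟩ fun x hx => ?_
  · rw [mul_smul_comm, hy.1.1 i]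
    split_ifs <;> simp
  · rw [smul_mul_assoc, hy.1.2 i]
    split_ifs <;> simp
  · obtain ⟨j, hj⟩ : ∃ j, β = some j := by
      rcases β with _ | j
      · exact absurd hα T.ab
      · exact ⟨j, rfl⟩
    subst hj
    obtain ⟨-, -, -, w4⟩ := hWst n p R T.cy s t T.cx.fr
    have hb : Jc (fun i => om n (t i)) (some j) (some j) (p • om n (t j)) := ⟨(w4 j).pc, (w4 j).nl⟩
    have hxn : Nl x := by
      unfold Nl
      rw [Rul_zero (Ne.symm T.ab) hx hx, zero_mul]
    have h3 := (hRul R s _ he α (some j) T.ab).2.2.1 y (p • om n (t j)) x hy hb ⟨hx, hxn⟩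
    have hxe : x * om n (t j) = x := by
      have h5 := hx.2 j
      rwa [if_pos rfl] at h5
    rw [mul_smul_comm, mul_assoc, hxe] at h3
    rw [smul_mul_assoc]
    exact h3

end Pool.Agent.CRM
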