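import Pool.Agent.CRM.DolA
import Pool.Agent.CRM.Fwl
import Pool.Agent.CRM.Plw

/-!
Campaign CRM, module FctA: common lemmas for the modules Fct, Fcl.
-/

set_option autoImplicit false

namespace Pool.Agent.CRM

open Pool.Agent.CRR Pool.Agent.CRN Pool.Agent.CRK Pool.Agent.CRL

section

variable {R : Type} [NonUnitalRing R] {s : ℕ} {t : Fin s → R}

theorem Fct_key {p : ℕ} {A B : Option (Fin s)} {D : AddMonoid.End R} (hD : D ∈ Ops t A B) {v : R}
    (hv : (∃ D' ∈ Ops t A B, D v = p • D' v) ∨ ∃ D' ∈ Ops t A B, D' (D v) = v)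
    {κ : List ℕ} {x : ℕ → R} (hx : ∀ k ∈ κ, DopC t A (x k)) (h0 : p • wp (κ.map x ++ [v]) = 0)
    (hne : D (wp (κ.map x ++ [v])) ≠ 0) {y : ℕ → R} (hy : ∀ k ∈ κ, DopC t A (y k))
    (hy0 : D (wp (κ.map y ++ [v])) = 0) : wp (κ.map y ++ [v]) = 0 := by
  rcases hv with ⟨D', hD', h⟩ | ⟨D', hD', h⟩
  · exfalso
    apply hne
    have hm : (p • D' : AddMonoid.End R) ∈ Ops t A B := nsmul_mem hD' p
    have h1 : D v = (p • D' : AddMonoid.End R) v := h
    rw [← Dop_in hD x κ hx, h1, Dop_in hm x κ hx]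
    change p • D' (wp (κ.map x ++ [v])) = 0
    rw [← map_nsmul, h0, map_zero]
  · rw [← h, Dop_in hD' y κ hy, Dop_in hD y κ hy, hy0, map_zero]

theorem Fct_twist {i : Fin s} {D g : AddMonoid.End R} (hD : D ∈ Ops t (some i) (some i))
    (hg : g ∈ Ops t (some i) (some i)) {a : R} (h : D (a * t i - t i * a) = a) :
    g a = g (D a) * t i - t i * g (D a) := by
  have hm : g * D ∈ Ops t (some i) (some i) := mul_mem hg hD
  have h1 : (g * D) (a * t i) = (g * D) a * t i := Ops_comm _ hm _ (Dop_memR rfl) a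
  have h2 : (g * D) (t i * a) = t i * (g * D) a := Ops_comm _ hm _ (Dop_memL rfl) a
  calc g a = g (D (a * t i - t i * a)) := by rw [h]
    _ = (g * D) (a * t i - t i * a) := rfl
    _ = (g * D) (a * t i) - (g * D) (t i * a) := map_sub _ _ _
    _ = _ := by
      rw [h1, h2]
      rfl

theorem Fct_jc_wp {e : Fin s → R} (he : Hm e) {A B : Option (Fin s)} {y : ℕ → R} {z : R}
    (hz : Jc e A B z) : ∀ κ : List ℕ, (∀ k ∈ κ, Jc e A A (y k)) → Jc e A B (wp (κ.map y ++ [z]))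
  | [], _ => hz
  | k :: κ, h => by
    have ih := Fct_jc_wp he hz κ (fun k' hk' => h k' (List.mem_cons_of_mem _ hk'))
    rw [List.map_cons, List.cons_append, Dop_wp_cons _ _ (by simp)]
    exact ⟨Rul_mul (h k List.mem_cons_self).1 ih.1, (he.mul _ _ ih.2).1⟩

/-- replacing one factor -/
theorem Fct_upd (x : ℕ → R) (ι : ℕ → ℕ) (z u : R) (m j₀ : ℕ) (hj₀ : j₀ < m)
    (hι : ∀ j, j < m → ∀ j', j' < m → ι j = ι j' → j = j') :
    pll (Function.update (fun j => x (ι j)) j₀ u) z m =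
      pll (fun j => Function.update x (ι j₀) u (ι j)) z m := by
  apply Plw_congr
  intro j hj
  by_cases h : j = j₀
  · subst h
    simp
  · rw [Function.update_of_ne h, Function.update_of_ne]
    intro h'
    exact h (hι j hj j₀ hj₀ h')

theorem Fct_pll_zero {p : ℕ} {z e : R} (hz : p • z = 0) (a : ℕ → R) (k : ℕ) (hk : a k = p • e) :
    ∀ m, (p • pll a z m = 0) ∧ (k < m → pll a z m = 0)
  | 0 => ⟨hz, fun h => absurd h (by omega)⟩
  | m + 1 => by
    obtain ⟨h1, h2⟩ := Fct_pll_zero hz a k hk m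
    have h3 : k < m + 1 → a m * pll a z m = 0 := by
      intro h
      rcases Nat.lt_succ_iff_lt_or_eq.1 h with h | h
      · rw [h2 h, mul_zero]
      · subst h
        rw [hk, smul_mul_assoc, ← mul_smul_comm, h1, mul_zero]
    refine ⟨?_, h3⟩
    change p • (a m * pll a z m) = 0
    rw [← mul_smul_comm, h1, mul_zero]

/-- the permutation which puts one index in front -/
theorem Fct_perm {κ : List ℕ} {k : ℕ} (hk : k ∈ κ) (hne : κ ≠ [k]) :
    ∃ (k' : ℕ) (κ' : List ℕ), κ.Perm (k :: k' :: κ') := by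
  have h := List.perm_cons_erase hk
  rcases h1 : κ.erase k with _ | ⟨k', κ'⟩
  · rw [h1] at h
    exact absurd (List.perm_singleton.1 h) hne
  · exact ⟨k', κ', h1 ▸ h⟩

end

section

variable {R : Type} [NonUnitalRing R] [Finite R] {n p s b : ℕ} {H : AddSubgroup R}
  {φ : (ℕ → R) → R} {t : Fin s → R} {x : ℕ → R} {α β : ℕ → Option (Fin s)}

theorem Fct_nl (hw : Fw n p s b H φ t x α β) (k : ℕ) : Nl (x k) := (hw.jc k).2

theorem Fct_pcx (hw : Fw n p s b H φ t x α β) : Pcx n p s t H := ⟨hw.cy.pp, hw.cy.pr, hw.lst, hw.fr⟩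

/-- a nonzero product -/
theorem Fct_word (hW : St_Wxw) (hw : Fw n p s b H φ t x α β) (hb : 0 < b)
    {L : List (ℤ × List ℕ)} (hL : Lw s b L)
    (hLφ : ∀ y : ℕ → R, (∀ k, Nl (y k)) → (∀ k, b ≤ k → y k = 0) → φ (vx t y) = ev L (vx t y)) :
    ∃ ds : List (Dsi R), (∀ k, k ∈ ds.map Prod.fst ↔ k < b) ∧
      (∀ d ∈ ds, d.2 ∈ Ops t (α d.1) (β d.1) ∧ ∃ D' ∈ Ops t (α d.1) (β d.1),
        ∀ x, Pc (fun i => om n (t i)) (α d.1) (β d.1) x → D' (d.2 x) = x) ∧
      wp (ds.map fun d => d.2 (x d.1)) ≠ 0 := by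
  have h1 := hw.ne
  rw [hLφ x (fun k => (hw.jc k).2) hw.out] at h1
  obtain ⟨q, hq, hne⟩ := Thr_ev_ne L _ h1
  obtain ⟨hq0, hq1, hq2⟩ := hL q hq
  rcases hW n p R hw.cy s t hw.fr α β q.2 ⟨s + 0, hq2 0 hb, by omega⟩ with
    h0 | ⟨ds, hds1, hds2, hds3⟩
  · exact absurd (h0 x (fun k => (hw.jc k).1)) hne
  refine ⟨ds, ?_, hds2, ?_⟩
  · rw [hds1]
    exact Dop_idx hq1 hq2
  · rwa [hds3 x (fun k => (hw.jc k).1)] at hne

/-- `p e_i` -/
theorem Fct_pe (hC : Cy R n p) (hF : Frame R n s t) (i : Fin s) :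
    Lop n t (some i) (p • om n (t i)) := by
  obtain ⟨hP, ht1, ht2⟩ := CRL.fpr n p R hC s t hF
  have hid : om n (t i) * om n (t i) = om n (t i) := (hP.prm i).1
  refine ⟨⟨fun j => ?_, fun j => ?_⟩, ?_, ?_⟩
  · change om n (t j) * (p • om n (t i)) = _
    by_cases h : i = j
    · subst h
      rw [if_pos rfl, mul_smul_comm, hid]
    · rw [if_neg (fun h' => h (Option.some.inj h')), mul_smul_comm,
        hP.orth j i (fun h' => h h'.symm), smul_zero]
  · change (p • om n (t i)) * om n (t j) = _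
    by_cases h : i = j
    · subst h
      rw [if_pos rfl, smul_mul_assoc, hid]
    · rw [if_neg (fun h' => h (Option.some.inj h')), smul_mul_assoc, hP.orth i j h, smul_zero]
  · rcases thm_Prl n hC.n4 R hC.inM (om n (t i)) (hP.prm i) (p • om n (t i))
      (by rw [mul_smul_comm, hid]) (by rw [smul_mul_assoc, hid]) with h | ⟨y, hy1, hy2, hy3, hy4⟩
    · exact h
    · exfalso
      obtain ⟨r, hr⟩ := hC.pr
      have h1 : p • y = om n (t i) := by
        rw [smul_mul_assoc, hy1] at hy3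
        exact hy3
      have h2 : ∀ k : ℕ, ∃ z : R, om n (t i) = p ^ k • z := by
        intro k
        induction k with
        | zero => exact ⟨om n (t i), by simp⟩
        | succ k ih =>
          obtain ⟨z, hz⟩ := ih
          refine ⟨z * y, ?_⟩
          rw [pow_succ', mul_smul, ← smul_mul_assoc, ← hz, hy1, h1]
      obtain ⟨z, hz⟩ := h2 r
      rw [hr z] at hz
      exact (hP.prm i).2.1 hz
  · intro j hj
    obtain rfl : i = j := Option.some.inj hj
    rw [mul_smul_comm, smul_mul_assoc, (ht1 i).1, (ht1 i).2.1]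

/-- `φ` is zero if one variable is replaced by `p e_i` -/
theorem Fct_cf (hw : Fw n p s b H φ t x α β) (i : Fin s) {k : ℕ} (hk : k < b) :
    φ (vx t (Function.update x k (p • om n (t i)))) = 0 := by
  have hnl : ∀ k', Nl (Function.update x k (p • om n (t i)) k') := by
    intro k'
    by_cases h : k' = k
    · subst h
      rw [Function.update_self]
      exact (Fct_pe hw.cy hw.fr i).nl
    · rw [Function.update_of_ne h]
      exact (hw.jc k').2
  refine hw.gc.cf _ ⟨?_, ?_⟩ k hk ?_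
  · have : (fun i : Fin s => vx t (Function.update x k (p • om n (t i))) i) = t :=
      funext fun i => Fwl_lt t _ i
    have h2 : (fun j : Fin s => vx t (Function.update x k (p • om n (t i))) j) = t :=
      funext fun j => Fwl_lt t _ j
    rw [h2]
    exact hw.fr
  · intro k' _
    rw [Fwl_ge t _ (Nat.le_add_right s k'), Nat.add_sub_cancel_left]
    exact hnl k'
  · rw [Fwl_ge t _ (Nat.le_add_right s k), Nat.add_sub_cancel_left, Function.update_self]
    refine nsmul_mem ?_ p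
    refine Rdx_pw _ _ ?_ _
    exact NonUnitalSubring.subset_closure ⟨i, i.2, (Fwl_lt t _ i).symm⟩

theorem Fct_arr (hG : St_Gnr) (hw : Fw n p s b H φ t x α β) (k : ℕ) {A B : Option (Fin s)}
    (hA : α k = A) (hB : β k = B) {D : AddMonoid.End R} (hD : D ∈ Ops t A B)
    (hD' : ∃ D' ∈ Ops t A B, ∀ x, Pc (fun i => om n (t i)) A B x → D' (D x) = x) :
    Arr n p t A B (D (x k)) := by
  subst hA hB
  have h1 := Dop_jc hw.cy hw.fr hD (hw.jc k)
  obtain ⟨D', h2, h3⟩ := hD'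
  exact ⟨h1.1, h1.2, hG.2 p R s t (α k) (β k) (x k) (hw.pur k) D hD ⟨D', h2, h3 _ (hw.jc k).1⟩⟩

theorem Fct_mem {S : NonUnitalSubring R} (hS : ∀ i, t i ∈ S) {A B : Option (Fin s)} {z : R}
    (hz : Pc (fun i => om n (t i)) A B z) {D : AddMonoid.End R}
    (hD' : ∃ D' ∈ Ops t A B, ∀ x, Pc (fun i => om n (t i)) A B x → D' (D x) = x)
    (hm : D z ∈ S) : z ∈ S := by
  obtain ⟨D', h2, h3⟩ := hD'
  rw [← h3 z hz]
  exact Ops_sub S hS D' h2 _ hm

end

end Pool.Agent.CRM
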