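import Pool.Agent.CRM.Ste
import Pool.Agent.CRL.All
import Pool.Agent.CRK.Wrd

/-!
Campaign CRM, module Lfb: rings of the second form of the local type are critical.
-/

set_option autoImplicit false

namespace Pool.Agent.CRM

open Pool.Agent.CRR Pool.Agent.CRN Pool.Agent.CRK Pool.Agent.CRL

section

variable {R : Type} [NonUnitalRing R]

theorem Lfb_xs_zero {g : ℕ} (x : Fin g → R) (j : Fin g) (h : x j = 0) : xs x (j : ℕ) = 0 := by
  simp [xs, h]

theorem Lfb_Vl_zero (L : List (ℤ × ℕ × List ℕ)) {g : ℕ} (t : R) (x : Fin g → R) (j : Fin g)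
    (hL : ∀ q ∈ L, ∀ i, i ∈ q.2.2 ↔ i < g) (h : x j = 0) : Vl L t x = 0 := by
  unfold Vl
  refine List.sum_eq_zero ?_
  intro w hw
  obtain ⟨q, hq, rfl⟩ := List.mem_map.1 hw
  rw [Wrd_wp_zero, smul_zero]
  refine List.mem_append_right _ ?_
  refine List.mem_map.2 ⟨(j : ℕ), (hL q hq j).2 j.2, ?_⟩
  exact Lfb_xs_zero x j h

end

theorem thm_Lfb (hKjf : St_Kjf) (hDmk : St_Dmk) (hLgb : St_Lgb) : St_Lfb := by
  intro n R _ _ hn hM hT hL
  refine hLgb n R hn hM hT ?_
  obtain ⟨⟨e, he, hid⟩, p, H, hp, ⟨r, hr⟩, hH, g, a, L, hgen, ⟨t₁, x₁, hT₁, htop₁⟩, hit, hval,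
    t₀, x₀, hT₀, hne⟩ := hL
  have hC : Cy R n p := ⟨hn, hM, hT, hp, r, hr⟩
  obtain ⟨J, hJ, hJn⟩ := jil n hn R hM hT
  obtain ⟨-, hKJ⟩ := hKjf n p R hC
  obtain ⟨q, -, hq, -⟩ := hDmk n p R hC e he hid
  have hnsub : ∀ x y : R, Nl x → Nl y → Nl (y - x) := fun x y hx hy =>
    (hJn _).1 (J.sub_mem ((hJn _).2 hy) ((hJn _).2 hx))
  have hnneg : ∀ x : R, Nl x → Nl (-x) := fun x hx => (hJn _).1 (J.neg_mem ((hJn _).2 hx))
  refine ⟨⟨e, he, hid⟩, H, hH, g, a, L, hgen, hit, ?_, t₀, x₀, hT₀.1, hT₀.2, hne⟩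
  intro t x ht hx
  have hTx : Ty n a t x := ⟨ht, hx⟩
  refine ⟨(hval t x hTx).1, ?_, ?_⟩
  · intro y hy hxy
    rw [hKJ e he hid t ht] at hxy
    -- replace the variables one by one
    have key : ∀ k : ℕ, k ≤ g → Vl L t x = Vl L t (fun i : Fin g => if (i : ℕ) < k then y i else x i) := by
      intro k
      induction k with
      | zero => intro _; simp
      | succ k ih =>
        intro hk
        rw [ih (by omega)]
        set z : Fin g → R := fun i : Fin g => if (i : ℕ) < k then y i else x i with hz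
        have hzT : Ty n a t z := by
          refine ⟨ht, fun i => ?_⟩
          by_cases hi : (i : ℕ) < k
          · simp only [hz, hi, if_true]; exact hy i
          · simp only [hz, hi, if_false]; exact hx i
        have hkz : z ⟨k, by omega⟩ = x ⟨k, by omega⟩ := by simp [hz]
        have h1 := (hval t z hzT).2 ⟨k, by omega⟩ (y ⟨k, by omega⟩ - x ⟨k, by omega⟩)
          (hnsub _ _ (hx _).1 (hy _).1) (by rw [sub_mul, mul_sub, (hx _).2, (hy _).2])
          (AddSubgroup.mem_sup_left (by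
            have h2 := (KJ R p).neg_mem (hxy ⟨k, by omega⟩)
            rwa [neg_sub] at h2))
        rw [← h1]
        congr 1
        funext i
        by_cases hi : i = ⟨k, by omega⟩
        · subst hi
          simp [hkz]
        · rw [Function.update_of_ne hi]
          have h3 : (i : ℕ) ≠ k := fun h => hi (Fin.ext h)
          by_cases h4 : (i : ℕ) < k
          · simp [hz, h4, Nat.lt_succ_of_lt h4]
          · have h5 : ¬ (i : ℕ) < k + 1 := by omega
            simp [hz, h4, h5]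
    rw [key g le_rfl]
    congr 1
    funext i
    simp [i.2]
  · intro hnt
    have hex : ∃ j, x j ∈ Mj p t x j := by
      by_contra hno
      push Not at hno
      exact hnt (((hq g a t x hTx).2 hno).2 ((hq g a t₁ x₁ hT₁).1 htop₁))
    obtain ⟨j, hj⟩ := hex
    have h1 := (hval t x hTx).2 j (-x j) (hnneg _ (hx j).1)
      (by rw [neg_mul, mul_neg, (hx j).2]) ((Mj p t x j).neg_mem hj)
    rw [← h1]
    refine Lfb_Vl_zero L t _ j (fun q hq => (hit q hq).2.2.1) ?_
    simp

end Pool.Agent.CRM
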