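import Pool.Agent.CRM.Stc
import Pool.Agent.CRM.Fop

/-!
Campaign CRM, module OPX: the opposite ring of the data of `TyV` with a twisted loop on the right.
-/

set_option autoImplicit false

namespace Pool.Agent.CRM

open Pool.Agent.CRR Pool.Agent.CRN Pool.Agent.CRK Pool.Agent.CRL MulOpposite

theorem Opx_arr {R : Type} [NonUnitalRing R] (n p : ℕ) {s : ℕ} (t : Fin s → R)
    (α β : Option (Fin s)) (x : R) (h : Arr n p t α β x) :
    Arr n p (fun i => op (t i)) β α (op x) where
  pc := Fop_pc n t α β x h.pc
  nl := (Fop_nl _).2 h.nl
  pu := Fop_pur p t α β x h.pu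

theorem thm_Opx : St_Opx := by
  intro n p s R _ _ t H i γ a z hcy hcx hig ha htw hz hne hgen
  refine ⟨H.comap (opAddEquiv (α := R)).symm.toAddMonoidHom, ?_⟩
  exact
    { cy := Fop_cy n p hcy
      cx :=
        { pp := hcx.pp
          pr := (Fop_cy n p hcy).pr
          lst := Opp_lst H hcx.lst
          fr := Fop_frame n s t hcx.fr }
      ig := hig
      aa := Opx_arr n p t _ _ a ha
      tw := fun h => htw (op_injective h).symm
      az := Opx_arr n p t _ _ z hz
      ne := by
        rw [← op_mul]
        exact fun h => hne (op_injective h)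
      gen := by
        by_contra hS
        refine Fop_sub_ne _ hS ?_
        rw [eq_top_iff, ← hgen, NonUnitalSubring.closure_le]
        rintro x (⟨j, rfl⟩ | hx)
        · exact NonUnitalSubring.subset_closure (Or.inl ⟨j, rfl⟩)
        · refine NonUnitalSubring.subset_closure (Or.inr ?_)
          rcases hx with rfl | rfl
          · exact Or.inl rfl
          · exact Or.inr rfl }

end Pool.Agent.CRM
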