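import Pool.Agent.CRM.Spt
import Pool.Agent.CRM.CvuA
import Pool.Agent.CRM.Lqq
import Pool.Agent.CRM.Wcl

/-!
Campaign CRM (problem MP_1bb14d_al): lemmas for the structure of the rings of type L.
-/

set_option autoImplicit false

namespace Pool.Agent.CRM

open Pool.Agent.CRR Pool.Agent.CRN Pool.Agent.CRK Pool.Agent.CRL

section

variable {R : Type} [NonUnitalRing R]

/-- the words beginning with `y` -/
def Spl_Z (C : Set R) (y x : R) : Prop := ∃ (l : ℕ) (c : ℕ → R), (∀ j, j < l → c j ∈ C) ∧
  x = prr y c l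

theorem Spl_congr {c c' : ℕ → R} {y : R} {l : ℕ} (h : ∀ j, j < l → c j = c' j) :
    prr y c l = prr y c' l := by
  induction l with
  | zero => rfl
  | succ l ih =>
    show prr y c l * c l = prr y c' l * c' l
    rw [h l (Nat.lt_succ_self l), ih fun j hj => h j (by omega)]

theorem Spl_snoc {C : Set R} {y x c₀ : R} (hx : Spl_Z C y x) (hc₀ : c₀ ∈ C) :
    Spl_Z C y (x * c₀) := by
  obtain ⟨l, c, hc, rfl⟩ := hx
  refine ⟨l + 1, Function.update c l c₀, ?_, ?_⟩
  · intro j hj
    by_cases hjl : j = l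
    · rw [hjl, Function.update_self]
      exact hc₀
    · rw [Function.update_of_ne hjl]
      exact hc j (by omega)
  · show prr y c l * c₀ = prr y (Function.update c l c₀) l * Function.update c l c₀ l
    rw [Function.update_self]
    congr 1
    refine Spl_congr fun j hj => ?_
    rw [Function.update_of_ne (by omega)]

theorem Spl_app {C : Set R} {y : R} (c : ℕ → R) (c₀ : R) (hc₀ : c₀ ∈ C) :
    ∀ (l : ℕ) (x : R), Spl_Z C y x → (∀ j, j < l → c j ∈ C) → Spl_Z C y (x * pll c c₀ l) := by
  intro l
  induction l with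
  | zero =>
    intro x hx _
    exact Spl_snoc hx hc₀
  | succ l ih =>
    intro x hx hc
    show Spl_Z C y (x * (c l * pll c c₀ l))
    rw [← mul_assoc]
    exact ih _ (Spl_snoc hx (hc l (by omega))) fun j hj => hc j (by omega)

theorem Spl_prr_mul (c : ℕ → R) (z w : R) (l : ℕ) : z * prr w c l = prr (z * w) c l := by
  induction l with
  | zero => rfl
  | succ l ih =>
    change z * (prr w c l * c l) = prr (z * w) c l * c l
    rw [← ih, mul_assoc]

theorem Spl_prr_zero (c : ℕ → R) (l : ℕ) : prr 0 c l = 0 := by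
  induction l with
  | zero => rfl
  | succ l ih =>
    change prr 0 c l * c l = 0
    rw [ih, zero_mul]

variable {s : ℕ} {t : Fin s → R} {α β : Option (Fin s)}

theorem Spl_cen (a : R) (ha : ∀ i, β = some i → t i * a = a * t i) :
    ∀ D ∈ Ops t α β, ∀ x, D (x * a) = D x * a := by
  refine Ops_ind _ ?_ ?_ ?_ ?_ ?_ ?_ ?_
  · intro i _ x
    exact (mul_assoc (t i) x a).symm
  · intro i hi x
    change x * a * t i = x * t i * a
    rw [mul_assoc, mul_assoc, ha i hi]
  · intro x
    exact (zero_mul a).symm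
  · intro x
    rfl
  · intro E E' h h' x
    change E (x * a) + E' (x * a) = (E x + E' x) * a
    rw [h, h', add_mul]
  · intro E h x
    change -(E (x * a)) = -(E x) * a
    rw [h, neg_mul]
  · intro E E' h h' x
    change E (E' (x * a)) = E (E' x) * a
    rw [h', h]

theorem Spl_circ : ∀ D ∈ Ops t α none, ∃ E ∈ Ops t none α, ∀ a, DopC t α a → D a = E a := by
  intro D hD
  have key : ∀ D ∈ Ops t α none, D ∈ Ops t α none ∧
      ∃ E ∈ Ops t none α, ∀ a, DopC t α a → D a = E a := by
    refine Ops_ind _ ?_ ?_ ?_ ?_ ?_ ?_ ?_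
    · intro i hi
      exact ⟨Dop_memL hi, _, Dop_memR hi, fun a ha => ha i hi⟩
    · intro i hi
      exact absurd hi (by simp)
    · exact ⟨zero_mem _, 0, zero_mem _, fun _ _ => rfl⟩
    · exact ⟨one_mem _, 1, one_mem _, fun _ _ => rfl⟩
    · rintro D D' ⟨hD, E, hE, h⟩ ⟨hD', E', hE', h'⟩
      refine ⟨add_mem hD hD', E + E', add_mem hE hE', fun a ha => ?_⟩
      change D a + D' a = E a + E' a
      rw [h a ha, h' a ha]
    · rintro D ⟨hD, E, hE, h⟩
      refine ⟨neg_mem hD, -E, neg_mem hE, fun a ha => ?_⟩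
      change -(D a) = -(E a)
      rw [h a ha]
    · rintro D D' ⟨hD, E, hE, h⟩ ⟨hD', E', hE', h'⟩
      refine ⟨mul_mem hD hD', E * E', mul_mem hE hE', fun a ha => ?_⟩
      change D (D' a) = E (E' a)
      rw [h _ (Dop_cen_left ha D' hD'), h' a ha]
  exact (key D hD).2

theorem Spl_pll (D : AddMonoid.End R) (hD : D ∈ Ops t α β) (c : ℕ → R) (z : R) (l : ℕ)
    (hc : ∀ j, j < l → ∀ i, α = some i → t i * c j = c j * t i) :
    D (pll c z l) = pll c (D z) l := by
  induction l with
  | zero => rfl
  | succ l ih =>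
    change D (c l * pll c z l) = c l * pll c (D z) l
    rw [Ops_cen (c l) (hc l (by omega)) D hD, ih fun j hj => hc j (by omega)]

theorem Spl_prr (D : AddMonoid.End R) (hD : D ∈ Ops t β α) (c : ℕ → R) (z : R) (l : ℕ)
    (hc : ∀ j, j < l → ∀ i, α = some i → t i * c j = c j * t i) :
    D (prr z c l) = prr (D z) c l := by
  induction l with
  | zero => rfl
  | succ l ih =>
    change D (prr z c l * c l) = prr (D z) c l * c l
    rw [Spl_cen (c l) (hc l (by omega)) D hD, ih fun j hj => hc j (by omega)]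

/-- the closure of a set of homogeneous elements which is invariant under the operators is invariant
under the multiplication by `t` -/
theorem Spl_t {n : ℕ} (h1 : ∀ i, t i * om n (t i) = t i) (h2 : ∀ i, om n (t i) * t i = t i)
    {A : Set R} (hA : ∀ u ∈ AddSubgroup.closure A, Pc (fun i => om n (t i)) α β u)
    (hD : ∀ D ∈ Ops t α β, ∀ u ∈ A, D u ∈ AddSubgroup.closure A) :
    ∀ i, ∀ u ∈ AddSubgroup.closure A, t i * u ∈ AddSubgroup.closure A ∧
      u * t i ∈ AddSubgroup.closure A := by
  have hD' : ∀ D ∈ Ops t α β, ∀ u ∈ AddSubgroup.closure A, D u ∈ AddSubgroup.closure A := by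
    intro D hDm u hu
    induction hu using AddSubgroup.closure_induction with
    | mem u hu => exact hD D hDm u hu
    | zero => rw [map_zero]; exact AddSubgroup.zero_mem _
    | add x y _ _ hx hy => rw [map_add]; exact AddSubgroup.add_mem _ hx hy
    | neg x _ hx => rw [map_neg]; exact AddSubgroup.neg_mem _ hx
  intro i u hu
  constructor
  · by_cases hi : α = some i
    · exact hD' _ (Dop_memL hi) u hu
    · have h := (hA u hu).1 i
      rw [if_neg hi] at h
      rw [← h1 i, mul_assoc, h, mul_zero]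
      exact AddSubgroup.zero_mem _
  · by_cases hi : β = some i
    · exact hD' _ (Dop_memR hi) u hu
    · have h := (hA u hu).2 i
      rw [if_neg hi] at h
      rw [← h2 i, ← mul_assoc, h, zero_mul]
      exact AddSubgroup.zero_mem _

/-- products of elements of two closures vanish -/
theorem Spl_clz {A B : Set R} (h : ∀ a ∈ A, ∀ b ∈ B, a * b = 0) :
    ∀ a ∈ AddSubgroup.closure A, ∀ b ∈ AddSubgroup.closure B, a * b = 0 := by
  intro a ha b hb
  have := Spt_clm (T := (⊥ : AddSubgroup R)) (A := A) (B := B)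
    (fun a ha b hb => AddSubgroup.mem_bot.2 (h a ha b hb)) a ha b hb
  exact AddSubgroup.mem_bot.1 this

end

end Pool.Agent.CRM
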