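import Pool.Agent.CRM.Stc
import Pool.Agent.CRM.Ops
import Pool.Agent.CRM.Rut
import Pool.Agent.CRN.Ald

/-!
Campaign CRM (problem MP_1bb14d_al): lemmas for the module Tvn.
-/

set_option autoImplicit false

namespace Pool.Agent.CRM

open Pool.Agent.CRR Pool.Agent.CRN Pool.Agent.CRK Pool.Agent.CRL

section

variable {R : Type} [NonUnitalRing R]

/-- `pll` is additive in every factor -/
theorem Tvn_add (v : ℕ → R) (z : R) (j : ℕ) (u w : R) (m : ℕ) (hj : j < m) :
    pll (Function.update v j (u + w)) z m =
      pll (Function.update v j u) z m + pll (Function.update v j w) z m := by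
  induction m with
  | zero => omega
  | succ m ih =>
    change Function.update v j (u + w) m * pll (Function.update v j (u + w)) z m =
      Function.update v j u m * pll (Function.update v j u) z m +
      Function.update v j w m * pll (Function.update v j w) z m
    by_cases h : j = m
    · subst h
      have hc : ∀ x : R, pll (Function.update v j x) z j = pll v z j := fun x =>
        ald_pll_congr j fun l hl => Function.update_of_ne (by omega) _ _
      rw [hc, hc, hc, Function.update_self, Function.update_self, Function.update_self, add_mul]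
    · rw [Function.update_of_ne (Ne.symm h), Function.update_of_ne (Ne.symm h),
        Function.update_of_ne (Ne.symm h), ih (by omega), mul_add]

/-- two factors in the place of one -/
def Tvn_ins (v : ℕ → R) (j : ℕ) (u w : R) : ℕ → R := fun i =>
  if i < j then v i else if i = j then w else if i = j + 1 then u else v (i - 1)

theorem Tvn_two (v : ℕ → R) (z : R) (j : ℕ) (u w : R) (m : ℕ) (hj : j < m) :
    pll (Function.update v j (u * w)) z m = pll (Tvn_ins v j u w) z (m + 1) := by
  induction m with
  | zero => omega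
  | succ m ih =>
    change Function.update v j (u * w) m * pll (Function.update v j (u * w)) z m =
      Tvn_ins v j u w (m + 1) * pll (Tvn_ins v j u w) z (m + 1)
    by_cases h : j = m
    · subst h
      have h1 : pll (Function.update v j (u * w)) z j = pll v z j :=
        ald_pll_congr j fun l hl => Function.update_of_ne (by omega) _ _
      have h2 : pll (Tvn_ins v j u w) z j = pll v z j :=
        ald_pll_congr j fun l hl => if_pos hl
      have h3 : Tvn_ins v j u w (j + 1) = u := by simp [Tvn_ins]
      have h4 : Tvn_ins v j u w j = w := by simp [Tvn_ins]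
      change _ = Tvn_ins v j u w (j + 1) * (Tvn_ins v j u w j * pll (Tvn_ins v j u w) z j)
      rw [h1, h2, h3, h4, Function.update_self, mul_assoc]
    · have h3 : Tvn_ins v j u w (m + 1) = v m := by
        unfold Tvn_ins
        rw [if_neg (by omega), if_neg (by omega), if_neg (by omega), Nat.add_sub_cancel]
      rw [h3, Function.update_of_ne (Ne.symm h), ih (by omega)]

omit [NonUnitalRing R] in
theorem Tvn_ins_all {P : R → Prop} {v : ℕ → R} {j m : ℕ} {u w : R} (hj : j < m)
    (hv : ∀ k, k < m → P (v k)) (hu : P u) (hw : P w) : ∀ k, k < m + 1 → P (Tvn_ins v j u w k) := by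
  intro k hk
  unfold Tvn_ins
  split_ifs with h1 h2 h3
  · exact hv k (by omega)
  · exact hw
  · exact hu
  · exact hv (k - 1) (by omega)

variable {s : ℕ} {e : Fin s → R} {α β : Option (Fin s)}

theorem Tvn_pll (he : Hm e) {v : ℕ → R} {z : R} (hz : Jc e α β z) (l : ℕ)
    (hv : ∀ k, k < l → Jc e α α (v k)) : Jc e α β (pll v z l) := by
  induction l with
  | zero => exact hz
  | succ l ih =>
    exact Rut_left he (hv l (by omega)).1 (ih fun k hk => hv k (by omega))

/-- a factor related to one of the others -/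
theorem Tvn_rel (hR : St_Rul) (he : Hm e) (hab : α ≠ β) {t : Fin s → R}
    (h4 : ∀ a z : R, Jc e α α a → Jc e α β z →
      ∀ D₁ ∈ Ops t α α, ∀ D₂ ∈ Ops t α α, D₁ a * D₂ a * z = 0)
    {a b : R} (ha : Jc e α α a) (hb : Jc e α α b) {D₁ D₂ : AddMonoid.End R} (hD₁ : D₁ ∈ Ops t α α)
    (hD₂ : D₂ ∈ Ops t α α) (hb1 : b = D₁ a) {v : ℕ → R} {z : R} (hz : Jc e α β z) (l j : ℕ)
    (hj : j < l) (hv : ∀ k, k < l → Jc e α α (v k)) (hj2 : v j = D₂ a) :
    b * pll v z l = 0 := by
  induction l with
  | zero => omega
  | succ l ih =>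
    change b * (v l * pll v z l) = 0
    rw [← mul_assoc]
    have hw := Tvn_pll he hz l fun k hk => hv k (by omega)
    by_cases h : j = l
    · subst h
      rw [hj2, hb1]
      exact h4 a _ ha hw D₁ hD₁ D₂ hD₂
    · rw [((hR R s e he α β hab).1 b (v l) _ hb (hv l (by omega)) hw).1, mul_assoc,
        ih (by omega) (fun k hk => hv k (by omega)), mul_zero, neg_zero]

/-- two related factors -/
theorem Tvn_alt (hR : St_Rul) (he : Hm e) (hab : α ≠ β) {t : Fin s → R}
    (h4 : ∀ a z : R, Jc e α α a → Jc e α β z →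
      ∀ D₁ ∈ Ops t α α, ∀ D₂ ∈ Ops t α α, D₁ a * D₂ a * z = 0)
    {v : ℕ → R} {z : R} (hz : Jc e α β z) (m j j' : ℕ) (hj : j < m) (hj' : j' < m) (hne : j ≠ j')
    (hv : ∀ k, k < m → Jc e α α (v k)) {D : AddMonoid.End R} (hD : D ∈ Ops t α α)
    (hD2 : v j' = D (v j)) : pll v z m = 0 := by
  induction m with
  | zero => omega
  | succ m ih =>
    change v m * pll v z m = 0
    have hv' : ∀ k, k < m → Jc e α α (v k) := fun k hk => hv k (by omega)
    by_cases h1 : j = m
    · subst h1
      exact Tvn_rel hR he hab h4 (hv j hj) (hv j hj) (D₁ := 1) (Subring.one_mem _) hD rfl hz j j'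
        (by omega) hv' hD2
    · by_cases h2 : j' = m
      · subst h2
        exact Tvn_rel hR he hab h4 (hv j hj) (hv j' hj') hD (D₂ := 1) (Subring.one_mem _) hD2 hz
          j' j (by omega) hv' rfl
      · rw [ih (by omega) (by omega) hv', mul_zero]

/-- the operators without letters -/
theorem Tvn_int (t : Fin s → R) : ∀ D ∈ Ops t none none, ∃ c : ℤ, ∀ x, D x = c • x := by
  intro D hD
  unfold Ops at hD
  induction hD using Subring.closure_induction with
  | mem D hD =>
    rcases hD with ⟨i, hi, -⟩ | ⟨i, hi, -⟩ <;> exact absurd hi (by simp)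
  | zero => exact ⟨0, fun x => by rw [zero_smul]; rfl⟩
  | one => exact ⟨1, fun x => by rw [one_smul]; rfl⟩
  | add D D' _ _ h h' =>
    obtain ⟨c, hc⟩ := h
    obtain ⟨c', hc'⟩ := h'
    exact ⟨c + c', fun x => by rw [add_smul, ← hc, ← hc']; rfl⟩
  | neg D _ h =>
    obtain ⟨c, hc⟩ := h
    exact ⟨-c, fun x => by rw [neg_smul, ← hc]; rfl⟩
  | mul D D' _ _ h h' =>
    obtain ⟨c, hc⟩ := h
    obtain ⟨c', hc'⟩ := h'
    exact ⟨c * c', fun x => by rw [mul_smul, ← hc', ← hc]; rfl⟩

theorem Tvn_mem (t : Fin s → R) (α β : Option (Fin s)) (c : ℤ) :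
    ∃ D ∈ Ops t α β, ∀ x : R, D x = c • x := by
  refine ⟨(c : AddMonoid.End R), intCast_mem (Ops t α β) c, fun x => ?_⟩
  have h : ((c : AddMonoid.End R) : AddMonoid.End R) = c • (1 : AddMonoid.End R) := by
    rw [zsmul_eq_mul, mul_one]
  rw [h]
  rfl

end

end Pool.Agent.CRM
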