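import Pool.Agent.CRM.Std
import Pool.Agent.CRL.Jil
import Pool.Agent.CRL.Chn
import Pool.Agent.CRL.Snl
import Pool.Agent.CRL.Chi
import Pool.Agent.CRL.Prl
import Pool.Agent.CRL.Quo
import Pool.Agent.CRL.Fpr
import Pool.Agent.CRL.Frx
import Pool.Agent.CRL.Pfx
import Pool.Agent.CRL.Prt
import Pool.Agent.CRL.Prf
import Pool.Agent.CRL.Tei
import Pool.Agent.CRL.Crd

/-!
Campaign CRM, module Tyn: the order of the frame element of a local ring.
-/

set_option autoImplicit false

namespace Pool.Agent.CRM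

open Pool.Agent.CRR Pool.Agent.CRN Pool.Agent.CRK Pool.Agent.CRL

section alg

variable {R : Type} [NonUnitalRing R]

/-- The powers of `t` with the idempotent `e` as the zeroth power. -/
private def Tyna (e t : R) : ℕ → R
  | 0 => e
  | k + 1 => pw t k

private theorem Tyn_a1 {e t : R} (h1 : t * e = t) (h2 : e * t = t) (k : ℕ) :
    Tyna e t k * t = Tyna e t (k + 1) ∧ t * Tyna e t k = Tyna e t (k + 1) := by
  induction k with
  | zero => exact ⟨h2, h1⟩
  | succ k ih =>
    refine ⟨rfl, ?_⟩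
    cases k with
    | zero => rfl
    | succ k =>
      have h3 : t * Tyna e t (k + 1) = Tyna e t (k + 2) := ih.2
      show t * (pw t k * t) = pw t (k + 1) * t
      rw [← mul_assoc]
      exact congrArg (· * t) h3

private theorem Tyn_aadd {e t : R} (h1 : t * e = t) (h2 : e * t = t) (he : e * e = e) (k l : ℕ) :
    Tyna e t k * Tyna e t l = Tyna e t (k + l) := by
  induction l with
  | zero =>
    cases k with
    | zero => exact he
    | succ k =>
      show pw t k * e = pw t k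
      cases k with
      | zero => exact h1
      | succ k =>
        show pw t k * t * e = pw t k * t
        rw [mul_assoc, h1]
  | succ l ih =>
    rw [← (Tyn_a1 h1 h2 l).1, ← mul_assoc, ih, (Tyn_a1 h1 h2 (k + l)).1]
    rfl

private theorem Tyn_amul {e t : R} (h1 : t * e = t) (h2 : e * t = t) (he : e * e = e) {m : ℕ}
    (hm : Tyna e t m = e) (q : ℕ) : Tyna e t (m * q) = e := by
  induction q with
  | zero => rfl
  | succ q ih => rw [Nat.mul_succ, ← Tyn_aadd h1 h2 he, ih, hm, he]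

/-- `pw (pw t a) b` is the power with the exponent `(a + 1) (b + 1)`. -/
private theorem Tyn_pp {e t : R} (h1 : t * e = t) (h2 : e * t = t) (he : e * e = e) (a b : ℕ) :
    pw (pw t a) b = Tyna e t ((a + 1) * (b + 1)) := by
  induction b with
  | zero => rw [Nat.zero_add, Nat.mul_one]; rfl
  | succ b ih =>
    show pw (pw t a) b * pw t a = _
    rw [ih, Nat.mul_succ (a + 1) (b + 1), ← Tyn_aadd h1 h2 he]
    rfl

/-- The binomial formula for `e + x`, `x x x = 0`. -/
private theorem Tyn_bin {e x : R} (h1 : x * e = x) (h2 : e * x = x) (he : e * e = e)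
    (hx : x * x * x = 0) (m : ℕ) :
    Tyna e (e + x) m = e + m • x + (m.choose 2) • (x * x) := by
  induction m with
  | zero =>
    show e = _
    simp
  | succ m ih =>
    have h3 : (e + x) * e = e + x := by rw [add_mul, he, h1]
    have h4 : e * (e + x) = e + x := by rw [mul_add, he, h2]
    have h5 : x * x * e = x * x := by rw [mul_assoc, h1]
    rw [← (Tyn_a1 h3 h4 m).1, ih, Nat.choose_succ_succ' m 1, Nat.choose_one_right]
    simp only [add_mul, mul_add, he, h1, h2, smul_mul_assoc, hx, h5, smul_zero, add_smul, one_smul,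
      add_zero]
    abel

/-- If `(e + x)^m = e` with `x x x = 0` and `m` prime to the characteristic, then `x = 0`. -/
private theorem Tyn_uni {e x : R} (h1 : x * e = x) (h2 : e * x = x) (he : e * e = e)
    (hx : x * x * x = 0) {m q : ℕ} (hq : ∀ y : R, q • y = 0) (hm : m.Coprime q)
    (h : Tyna e (e + x) m = e) : x = 0 := by
  have key : ∀ y : R, m • y = 0 → y = 0 := by
    intro y hy
    have h3 := addOrderOf_dvd_of_nsmul_eq_zero hy
    have h4 := addOrderOf_dvd_of_nsmul_eq_zero (hq y)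
    have h5 : addOrderOf y ∣ 1 := by
      rw [← hm.gcd_eq_one]
      exact Nat.dvd_gcd h3 h4
    exact AddMonoid.addOrderOf_eq_one_iff.1 (Nat.dvd_one.1 h5)
  rw [Tyn_bin h1 h2 he hx] at h
  have h3 : m • x + (m.choose 2) • (x * x) = 0 := by
    have h4 : e + (m • x + (m.choose 2) • (x * x)) = e + 0 := by rw [← add_assoc, h, add_zero]
    exact add_left_cancel h4
  have h5 : m • (x * x) = 0 := by
    have h6 := congrArg (· * x) h3
    simpa only [add_mul, smul_mul_assoc, hx, smul_zero, add_zero, zero_mul] using h6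
  have h7 : x * x = 0 := key _ h5
  rw [h7, smul_zero, add_zero] at h3
  exact key _ h3

end alg

theorem thm_Tyn : St_Tyn := by
  intro n p R _ _ hC e hP he1
  have hn := hC.n4
  have he : e * e = e := hP.1
  have hne : e ≠ 0 := hP.2.1
  have h1 : ∀ t : R, t * e = t := fun t => (he1 t).2
  have h2 : ∀ t : R, e * t = t := fun t => (he1 t).1
  have hidem : ∀ g : R, g * g = g → g ≠ 0 → g = e := fun g hg hg0 =>
    (hP.2.2 g hg (h2 g) (h1 g)).resolve_left hg0
  have hqu := thm_Quo (thm_Jil (thm_Chn thm_Prl (thm_Snl thm_Prl) (thm_Chi thm_Prl)))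
  have hfpr := thm_Fpr hqu
  obtain ⟨Q, _, _, q, hq, hqn, -, -⟩ := hqu n hn R hC.inM hC.nt
  obtain ⟨r, hr⟩ := hC.pr
  have hcrd := thm_Crd R p r hC.pp hr
  have hfr : ∀ t : R, Frame R n 1 (fun _ => t) →
      om n t = e ∧ ∃ m, 1 ≤ m ∧ m.Coprime p ∧ Tyna e t m = e := by
    intro t ht
    obtain ⟨hA, hB, -⟩ := hfpr n p R hC 1 _ ht
    have h3 : om n t = e := hidem _ (hA.prm 0).1 (hA.prm 0).2.1
    refine ⟨h3, ?_⟩
    obtain ⟨m, hm1, hm2, hm3⟩ := ht.per 0
    refine ⟨m, hm1, hcrd.2 ⟨e, hne⟩ m hm2, ?_⟩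
    obtain ⟨k, rfl⟩ := Nat.exists_eq_add_of_le' hm1
    have h4 := (hB 0).2.2.2 (k + 1) hm1 hm3
    exact h4.trans h3
  have hnil : ∀ t : R, Frame R n 1 (fun _ => t) → ∀ j, Nl (pw t j - e) → pw t j = e := by
    intro t ht j hj
    obtain ⟨-, m, hm1, hm2, hm3⟩ := hfr t ht
    have h3 : e + (pw t j - e) = pw t j := by abel
    have h4 : Tyna e (pw t j) m = e := by
      obtain ⟨k, rfl⟩ := Nat.exists_eq_add_of_le' hm1
      show pw (pw t j) k = e
      rw [Tyn_pp (h1 t) (h2 t) he, Nat.mul_comm]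
      exact Tyn_amul (h1 t) (h2 t) he hm3 _
    have h5 := Tyn_uni (h1 _) (h2 _) he hj hr (Nat.Coprime.pow_right r hm2)
      (by rw [h3]; exact h4)
    exact sub_eq_zero.1 h5
  have htr : ∀ t u : R, Frame R n 1 (fun _ => t) → Frame R n 1 (fun _ => u) →
      ∀ j, pw t j = e → pw u j = e := by
    intro t u ht hu j hj
    apply hnil u hu j
    obtain ⟨h3, -⟩ := hfr t ht
    have h4 := ht.gen 0 u (by rw [h3]; exact h2 u) (by rw [h3]; exact h1 u)
    obtain ⟨-, hB, -⟩ := hfpr n p R hC 1 _ hu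
    obtain ⟨k, hk⟩ := h4.resolve_left (hB 0).2.2.1
    have h5 : q u = q (pw t k) := by
      rw [← sub_eq_zero, ← map_sub, hqn]
      exact hk
    have h6 : pw (pw t k) j = e := by
      rw [Tei_comm, hj, Tei_idem e he]
    rw [← hqn, map_sub, pw_map, h5, ← pw_map, h6, sub_self]
  obtain ⟨s, t0, ht0⟩ :=
    (thm_Frx thm_Pfx (thm_Prt thm_Prf hqu thm_Prl) thm_Tei hqu thm_Crd) n p R hC
  have hs : ∃ t : R, Frame R n 1 (fun _ => t) := by
    obtain ⟨hA, -, -⟩ := hfpr n p R hC s t0 ht0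
    have h3 : ∀ i, om n (t0 i) = e := fun i => hidem _ (hA.prm i).1 (hA.prm i).2.1
    rcases Nat.lt_trichotomy s 1 with h | h | h
    · exfalso
      obtain rfl : s = 0 := by omega
      exact hne (ht0.max e he (fun i => i.elim0))
    · subst h
      refine ⟨t0 0, ?_⟩
      have h4 : (fun _ : Fin 1 => t0 0) = t0 := by
        funext i
        rw [Subsingleton.elim i 0]
      rw [h4]
      exact ht0
    · exfalso
      have h4 := hA.orth ⟨0, by omega⟩ ⟨1, h⟩ (by simp [Fin.ext_iff])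
      simp only [h3, he] at h4
      exact hne h4
  obtain ⟨t, ht⟩ := hs
  have hex : ∃ j, pw t j = e := by
    obtain ⟨-, m, hm1, -, hm3⟩ := hfr t ht
    obtain ⟨k, rfl⟩ := Nat.exists_eq_add_of_le' hm1
    exact ⟨k, hm3⟩
  classical
  obtain ⟨N, hN1, hNe, hNm⟩ : ∃ N, 1 ≤ N ∧ pw t (N - 1) = e ∧
      ∀ k, 0 < k → k < N → pw t (k - 1) ≠ e :=
    ⟨Nat.find hex + 1, by omega, Nat.find_spec hex,
      fun k h3 h4 => Nat.find_min hex (by omega)⟩
  have hNN : Tyna e t N = e := by
    obtain ⟨k, rfl⟩ := Nat.exists_eq_add_of_le' hN1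
    exact hNe
  have hdv : ∀ j, Tyna e t j = e → N ∣ j := by
    intro j
    induction j using Nat.strong_induction_on with
    | _ j ih =>
      intro hj
      rcases Nat.lt_or_ge j N with h3 | h3
      · rcases Nat.eq_zero_or_pos j with h4 | h4
        · rw [h4]
          exact dvd_zero _
        · exfalso
          obtain ⟨k, rfl⟩ := Nat.exists_eq_add_of_le' h4
          exact hNm (k + 1) h4 h3 hj
      · have h4 : Tyna e t (j - N) = e := by
          have h5 := Tyn_aadd (h1 t) (h2 t) he (j - N) N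
          rw [Nat.sub_add_cancel h3, hj, hNN, h1] at h5
          exact h5
        have h5 := Nat.dvd_add (ih (j - N) (by omega) h4) (dvd_refl N)
        rwa [Nat.sub_add_cancel h3] at h5
  refine ⟨N, hN1, ?_, ?_, ⟨t, ht⟩, ?_⟩
  · apply hdv
    have h3 := (hfr t ht).1
    have h4 : Tyna e t (3 * (n - 3)) = e := by
      have h5 : 3 * (n - 3) = (3 * (n - 3) - 1) + 1 := by omega
      rw [h5]
      exact h3
    have h5 : Tyna e t 3 = Tyna e t n := by
      have h6 := hC.inM t
      obtain ⟨k, rfl⟩ := Nat.exists_eq_add_of_le' (show 1 ≤ n by omega)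
      exact h6
    have h6 := Tyn_aadd (h1 t) (h2 t) he 3 (3 * (n - 3) - 3)
    have h7 : 3 + (3 * (n - 3) - 3) = 3 * (n - 3) := by omega
    rw [h7, h4, h5, Tyn_aadd (h1 t) (h2 t) he] at h6
    have h8 : n + (3 * (n - 3) - 3) = (n - 3) + 3 * (n - 3) := by omega
    rw [h8, ← Tyn_aadd (h1 t) (h2 t) he, h4, h1] at h6
    exact h6
  · obtain ⟨-, m, hm1, hm2, hm3⟩ := hfr t ht
    exact Nat.Coprime.coprime_dvd_left (hdv m hm3) hm2
  · intro u hu
    refine ⟨(hfr u hu).1, htr t u ht hu _ hNe, fun k hk0 hkN => ?_⟩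
    have h3 : ¬ Nl (pw u (k - 1) - e) := fun h =>
      hNm k hk0 hkN (htr u t hu ht _ (hnil u hu _ h))
    obtain ⟨y, -, -, hy1, hy2⟩ :=
      (thm_Prl n hn R hC.inM e hP _ (h2 _) (h1 _)).resolve_left h3
    exact ⟨y, hy2, hy1⟩

end Pool.Agent.CRM
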